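import Pool.Agent.Lib.MP_e56372_nt.Dim.Defs

set_option autoImplicit false
open MeasureTheory Filter Topology Finset

namespace Pool.Agent.Lib.MP_e56372_nt.Dim
open Pool.Agent.Lib.MP_e56372_nt

theorem peak_zpow_le {m n : ℤ} (h : m ≤ n) : (2 : ℝ) ^ m ≤ (2 : ℝ) ^ n :=
  zpow_le_zpow_right₀ (by norm_num) h

theorem peak_short_mono {ξ ζ : ℝ} {s t x y : ℤ} (hy : y ≤ x) (h : Short ξ ζ s t x) :
    Short ξ ζ s t y := by
  obtain ⟨a, b, r, h0, h1, h2, h3⟩ := h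
  exact ⟨a, b, r, h0, h1.trans (peak_zpow_le (by omega)), h2.trans (peak_zpow_le (by omega)),
    h3.trans (peak_zpow_le (by omega))⟩

theorem peak (ξ ζ : ℝ) (s0 t0 x0 Hm : ℤ) (hx0 : 3 ≤ x0) (h0 : Short ξ ζ s0 t0 x0)
    (hH : ∀ s t : ℤ, |s - s0| ≤ 6 * Hm + 6 → |t - t0| ≤ 6 * Hm + 6 → ¬ Short ξ ζ s t Hm)
    (hHm : 0 ≤ Hm) :
    ∃ s t x : ℤ, x0 ≤ x ∧ x < Hm ∧ |s - s0| ≤ 4 * x ∧ |t - t0| ≤ 4 * x ∧ Peak ξ ζ s t x := by
  have hx0H : x0 < Hm := by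
    by_contra hcon
    exact hH s0 t0 (by simp; omega) (by simp; omega) (peak_short_mono (by omega) h0)
  obtain ⟨v, ⟨s, t, x, D, hS, hxH, hD0, hs1, hs2, ht1, ht2, hv⟩, hmax⟩ :=
    Int.exists_greatest_of_bdd
      (P := fun v : ℤ => ∃ s t x D : ℤ, Short ξ ζ s t x ∧ x < Hm ∧ 0 ≤ D ∧ s - s0 ≤ D ∧
        s0 - s ≤ D ∧ t - t0 ≤ D ∧ t0 - t ≤ D ∧ v = 4 * x - D)
      ⟨4 * Hm, by
        rintro z ⟨s, t, x, D, -, h1, h2, -, -, -, -, h3⟩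
        omega⟩
      ⟨4 * x0, s0, t0, x0, 0, h0, hx0H, le_rfl, by omega, by omega, by omega, by omega, by omega⟩
  have hv0 : 4 * x0 ≤ v :=
    hmax _ ⟨s0, t0, x0, 0, h0, hx0H, le_rfl, by omega, by omega, by omega, by omega, by omega⟩
  have key : ∀ s' t' x' D' : ℤ, Short ξ ζ s' t' x' → 0 ≤ D' → s' - s0 ≤ D' → s0 - s' ≤ D' →
      t' - t0 ≤ D' → t0 - t' ≤ D' → D' ≤ 6 * Hm + 6 → v < 4 * x' - D' → False := by
    intro s' t' x' D' h1 h2 h3 h4 h5 h6 h7 h8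
    by_cases hx' : x' < Hm
    · have := hmax _ ⟨s', t', x', D', h1, hx', h2, h3, h4, h5, h6, rfl⟩
      omega
    · exact hH s' t' (abs_le.2 ⟨by omega, by omega⟩) (abs_le.2 ⟨by omega, by omega⟩)
        (peak_short_mono (by omega) h1)
  refine ⟨s, t, x, by omega, hxH, abs_le.2 ⟨by omega, by omega⟩, abs_le.2 ⟨by omega, by omega⟩,
    ?_, ?_⟩
  · obtain ⟨a, b, r, h1, h2, h3, h4⟩ := hS
    refine ⟨a, b, r, ?_, h2, h3, h4⟩
    by_contra hcon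
    refine key (s - 2) (t + 1) (x + 1) (D + 2) ⟨a, b, r, h1, ?_, ?_, ?_⟩ (by omega) (by omega)
      (by omega) (by omega) (by omega) (by omega) (by omega)
    · exact (not_lt.1 hcon).trans (peak_zpow_le (by omega))
    · exact h3.trans (peak_zpow_le (by omega))
    · exact h4.trans (peak_zpow_le (by omega))
  · intro hcon
    exact key _ _ _ (D + x - 2) hcon (by omega) (by omega) (by omega) (by omega) (by omega)
      (by omega) (by omega)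

theorem not_short_of_dense (c0 G n : ℕ) (ξ ζ : ℝ) (h : DenseLv c0 G n ξ ζ) (s t : ℤ) (hs : 0 ≤ s)
    (ht : 0 ≤ t) (h1 : 3 * (n : ℤ) ≤ 10 * (s + t)) (h2 : 25 * (s + t) ≤ 12 * n) :
    ¬ Short ξ ζ s t (G + c0 + 1) := by
  rintro ⟨a, b, r, h0, ha, hb, hL⟩
  obtain ⟨T, hT⟩ : ∃ T : ℕ, (T : ℤ) = s + t := ⟨(s + t).toNat, by omega⟩
  obtain ⟨T', hT1, hT2, hG⟩ := h T (by omega) (by omega)
  have hab : a ≠ 0 ∨ b ≠ 0 := by
    by_contra hcon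
    push Not at hcon
    obtain ⟨rfl, rfl⟩ := hcon
    have hr : r ≠ 0 := by simpa using h0
    have hr1 : (1 : ℝ) ≤ |(r : ℝ)| := by exact_mod_cast Int.one_le_abs hr
    have h3 : (2 : ℝ) ^ (-(s + t + ((G : ℤ) + c0 + 1))) ≤ (2 : ℝ) ^ (-1 : ℤ) :=
      peak_zpow_le (by omega)
    have h4 : (2 : ℝ) ^ (-1 : ℤ) < 1 := by norm_num
    simp only [Int.cast_zero, zero_mul, zero_add] at hL
    linarith
  have e1 : (2 : ℝ) ^ T' / 2 ^ c0 = (2 : ℝ) ^ ((T' : ℤ) - c0) := by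
    rw [zpow_sub₀ (by norm_num), zpow_natCast, zpow_natCast]
  have e2 : ∀ m : ℤ, (2 : ℝ) * 2 ^ m = 2 ^ (m + 1) := by
    intro m
    rw [zpow_add₀ (by norm_num), zpow_one, mul_comm]
  have e3 : 1 / ((2 : ℝ) ^ c0 * 2 ^ T') = (2 : ℝ) ^ (-((c0 : ℤ) + T')) := by
    rw [zpow_neg, zpow_add₀ (by norm_num), zpow_natCast, zpow_natCast, one_div]
  have := hG a b r hab ?_ ?_ ?_
  · rw [e3] at this
    have h3 : (2 : ℝ) ^ (-(s + t + ((G : ℤ) + c0 + 1))) ≤ (2 : ℝ) ^ (-((c0 : ℤ) + T')) :=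
      peak_zpow_le (by omega)
    linarith
  · rw [e1, abs_mul]
    refine (mul_le_mul ha hb (abs_nonneg _) (by positivity)).trans ?_
    rw [← zpow_add₀ (by norm_num)]
    exact peak_zpow_le (by omega)
  · refine (mul_le_mul_of_nonneg_left ha (by norm_num)).trans ?_
    rw [e2, ← zpow_natCast]
    exact peak_zpow_le (by omega)
  · refine (mul_le_mul_of_nonneg_left hb (by norm_num)).trans ?_
    rw [e2, ← zpow_natCast]
    exact peak_zpow_le (by omega)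

theorem peak_cell {d z : ℕ} {ξ : ℝ} (h : InCell d z ξ) :
    |ξ - (z : ℝ) / 2 ^ d| ≤ (2 : ℝ) ^ (-(d : ℤ)) := by
  obtain ⟨h1, h2⟩ := h
  have hp : (0 : ℝ) < 2 ^ d := by positivity
  have e : ξ - (z : ℝ) / 2 ^ d = (2 ^ d * ξ - z) / 2 ^ d := by
    field_simp
  rw [e, zpow_neg, zpow_natCast, abs_div, abs_of_pos hp, ← one_div]
  refine div_le_div_of_nonneg_right ?_ hp.le
  rw [abs_le]
  constructor <;> linarith

theorem short_of_trunc (ξ ζ : ℝ) (s t p q : ℕ) (x : ℤ) (hp : InCell (2 * s + t) p ξ)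
    (hq : InCell (s + 2 * t) q ζ)
    (h : Short ((p : ℝ) / 2 ^ (2 * s + t)) ((q : ℝ) / 2 ^ (s + 2 * t)) s t x) :
    Short ξ ζ s t (x - 2) := by
  obtain ⟨a, b, r, h0, ha, hb, hL⟩ := h
  refine ⟨a, b, r, h0, ha.trans (peak_zpow_le (by omega)), hb.trans (peak_zpow_le (by omega)), ?_⟩
  have c1 := peak_cell hp
  have c2 := peak_cell hq
  have d1 : |(a : ℝ) * (ξ - (p : ℝ) / 2 ^ (2 * s + t))| ≤ (2 : ℝ) ^ (-((s : ℤ) + t + x)) := by
    rw [abs_mul]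
    refine (mul_le_mul ha c1 (abs_nonneg _) (by positivity)).trans ?_
    rw [← zpow_add₀ (by norm_num)]
    exact peak_zpow_le (by push_cast; omega)
  have d2 : |(b : ℝ) * (ζ - (q : ℝ) / 2 ^ (s + 2 * t))| ≤ (2 : ℝ) ^ (-((s : ℤ) + t + x)) := by
    rw [abs_mul]
    refine (mul_le_mul hb c2 (abs_nonneg _) (by positivity)).trans ?_
    rw [← zpow_add₀ (by norm_num)]
    exact peak_zpow_le (by push_cast; omega)
  have e : (2 : ℝ) ^ (-((s : ℤ) + t + (x - 2))) = 4 * (2 : ℝ) ^ (-((s : ℤ) + t + x)) := by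
    rw [show -((s : ℤ) + t + (x - 2)) = 2 + -((s : ℤ) + t + x) by ring, zpow_add₀ (by norm_num)]
    norm_num
  have e2 : (a : ℝ) * ξ + b * ζ + r =
      (a * ((p : ℝ) / 2 ^ (2 * s + t)) + b * ((q : ℝ) / 2 ^ (s + 2 * t)) + r) +
        a * (ξ - (p : ℝ) / 2 ^ (2 * s + t)) + b * (ζ - (q : ℝ) / 2 ^ (s + 2 * t)) := by ring
  have hpos : (0 : ℝ) < (2 : ℝ) ^ (-((s : ℤ) + t + x)) := by positivity
  rw [e, e2]
  have t1 := abs_add_three
    ((a : ℝ) * ((p : ℝ) / 2 ^ (2 * s + t)) + b * ((q : ℝ) / 2 ^ (s + 2 * t)) + r)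
    ((a : ℝ) * (ξ - (p : ℝ) / 2 ^ (2 * s + t))) ((b : ℝ) * (ζ - (q : ℝ) / 2 ^ (s + 2 * t)))
  linarith

theorem inCell_pre (n d u : ℕ) (hd : d ≤ n) : InCell d (pre n d u) ((u : ℝ) / 2 ^ n) := by
  have e : (2 : ℝ) ^ d * ((u : ℝ) / 2 ^ n) = (u : ℝ) / ((2 ^ (n - d) : ℕ) : ℝ) := by
    obtain ⟨k, rfl⟩ := Nat.exists_eq_add_of_le hd
    rw [Nat.add_sub_cancel_left]
    push_cast
    rw [pow_add]
    field_simp
  have hp : 0 < 2 ^ (n - d) := by positivity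
  unfold InCell pre
  rw [e]
  refine ⟨Nat.cast_div_le, ?_⟩
  rw [div_lt_iff₀ (by exact_mod_cast hp)]
  have := Nat.lt_div_mul_add (a := u) hp
  have h2 : u < (u / 2 ^ (n - d) + 1) * 2 ^ (n - d) := by
    rw [add_mul, one_mul]
    exact this
  exact_mod_cast h2

end Pool.Agent.Lib.MP_e56372_nt.Dim
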