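import Pool.Agent.Lib.MP_e56372_nt.Dim.PL

set_option autoImplicit false
open Finset

namespace Pool.Agent.Lib.MP_e56372_nt.Dim

theorem pc_det (ξ ζ : ℝ) (s t a1 b1 r1 a2 b2 r2 a3 b3 r3 : ℤ) :
    det3 (lat ξ ζ s t a1 b1 r1) (lat ξ ζ s t a2 b2 r2) (lat ξ ζ s t a3 b3 r3) =
      ((a1 * (b2 * r3 - r2 * b3) - b1 * (a2 * r3 - r2 * a3) + r1 * (a2 * b3 - b2 * a3) : ℤ) : ℝ) := by
  have hs : (2 : ℝ) ^ s ≠ 0 := zpow_ne_zero _ two_ne_zero
  have ht : (2 : ℝ) ^ t ≠ 0 := zpow_ne_zero _ two_ne_zero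
  simp only [det3, lat, Matrix.cons_val_zero, Matrix.cons_val_one, Matrix.cons_val_two,
    Matrix.head_cons, Matrix.tail_cons, zpow_add₀ (two_ne_zero : (2 : ℝ) ≠ 0)]
  push_cast
  field_simp
  ring

theorem pc_mul3 (x y z : ℝ) (hx : |x| ≤ 1 / 4) (hy : |y| ≤ 1 / 4) (hz : |z| ≤ 1 / 4) :
    |x * y * z| ≤ 1 / 64 := by
  rw [abs_mul, abs_mul]
  have h1 : |x| * |y| ≤ 1 / 4 * (1 / 4) := mul_le_mul hx hy (abs_nonneg _) (by norm_num)
  have h2 : |x| * |y| * |z| ≤ 1 / 4 * (1 / 4) * (1 / 4) :=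
    mul_le_mul h1 hz (abs_nonneg _) (by norm_num)
  linarith

theorem pc_small (u v w : V3) (hu : ∀ k, |u k| ≤ 1 / 4) (hv : ∀ k, |v k| ≤ 1 / 4)
    (hw : ∀ k, |w k| ≤ 1 / 4) : |det3 u v w| < 1 := by
  have a1 := abs_le.1 (pc_mul3 _ _ _ (hu 0) (hv 1) (hw 2))
  have a2 := abs_le.1 (pc_mul3 _ _ _ (hu 0) (hv 2) (hw 1))
  have a3 := abs_le.1 (pc_mul3 _ _ _ (hu 1) (hv 0) (hw 2))
  have a4 := abs_le.1 (pc_mul3 _ _ _ (hu 1) (hv 2) (hw 0))
  have a5 := abs_le.1 (pc_mul3 _ _ _ (hu 2) (hv 0) (hw 1))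
  have a6 := abs_le.1 (pc_mul3 _ _ _ (hu 2) (hv 1) (hw 0))
  have e : det3 u v w = u 0 * v 1 * w 2 - u 0 * v 2 * w 1 - u 1 * v 0 * w 2 + u 1 * v 2 * w 0 +
      u 2 * v 0 * w 1 - u 2 * v 1 * w 0 := by
    unfold det3; ring
  rw [e, abs_lt]
  constructor <;> linarith [a1.1, a1.2, a2.1, a2.2, a3.1, a3.2, a4.1, a4.2, a5.1, a5.2, a6.1, a6.2]

theorem pc_cell1 (d h p z z' : ℕ) (ξ ξ' : ℝ) (hz : z / 2 ^ h = p) (hz' : z' / 2 ^ h = p)
    (c : InCell d z ξ) (c' : InCell d z' ξ') : 2 ^ d * ξ - 2 ^ d * ξ' ≤ (2 : ℝ) ^ h := by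
  have hp : 0 < 2 ^ h := by positivity
  have h1 : z + 1 ≤ (p + 1) * 2 ^ h := by
    have := Nat.lt_div_mul_add (a := z) hp
    rw [hz] at this
    nlinarith
  have h2 : p * 2 ^ h ≤ z' := by
    rw [← hz']; exact Nat.div_mul_le_self _ _
  have h1' : (z : ℝ) + 1 ≤ (p + 1) * 2 ^ h := by exact_mod_cast h1
  have h2' : (p : ℝ) * 2 ^ h ≤ z' := by exact_mod_cast h2
  have := c.2
  have := c'.1
  nlinarith

theorem pc_bound (A B X ξ ξ0 ζ a b r : ℝ) (hA : 0 < A) (hB : 0 < B) (hX : 8 ≤ X)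
    (ha : |a| ≤ A / X) (hr : |a * ξ + b * ζ + r| ≤ 1 / (A * B * X))
    (hξ : |A ^ 2 * B * ξ - A ^ 2 * B * ξ0| ≤ X ^ 3 / 128) :
    |(4 * A / X) * (4 * B / X) * (a * ξ0 + b * ζ + r)| ≤ 1 / 4 := by
  have hX0 : 0 < X := by linarith
  have e : (4 * A / X) * (4 * B / X) * (a * ξ0 + b * ζ + r) =
      (16 * A * B / X ^ 2) * (a * ξ + b * ζ + r) -
        (16 / (A * X ^ 2)) * (a * (A ^ 2 * B * ξ - A ^ 2 * B * ξ0)) := by
    field_simp
    ring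
  have p1 : 0 < 16 * A * B / X ^ 2 := by positivity
  have p2 : 0 < 16 / (A * X ^ 2) := by positivity
  have b1 : |(16 * A * B / X ^ 2) * (a * ξ + b * ζ + r)| ≤ 16 / X ^ 3 := by
    rw [abs_mul, abs_of_pos p1]
    calc 16 * A * B / X ^ 2 * |a * ξ + b * ζ + r| ≤ 16 * A * B / X ^ 2 * (1 / (A * B * X)) :=
          mul_le_mul_of_nonneg_left hr p1.le
      _ = 16 / X ^ 3 := by field_simp
  have b2 : |(16 / (A * X ^ 2)) * (a * (A ^ 2 * B * ξ - A ^ 2 * B * ξ0))| ≤ 1 / 8 := by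
    rw [abs_mul, abs_of_pos p2, abs_mul]
    have : |a| * |A ^ 2 * B * ξ - A ^ 2 * B * ξ0| ≤ A / X * (X ^ 3 / 128) :=
      mul_le_mul ha hξ (abs_nonneg _) (by positivity)
    calc 16 / (A * X ^ 2) * (|a| * |A ^ 2 * B * ξ - A ^ 2 * B * ξ0|)
        ≤ 16 / (A * X ^ 2) * (A / X * (X ^ 3 / 128)) := mul_le_mul_of_nonneg_left this p2.le
      _ = 1 / 8 := by field_simp; norm_num
  have b3 : 16 / X ^ 3 ≤ 1 / 8 := by
    rw [div_le_div_iff₀ (by positivity) (by norm_num)]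
    have : (8 : ℝ) ^ 3 ≤ X ^ 3 := pow_le_pow_left₀ (by norm_num) hX 3
    nlinarith
  rw [e]
  refine (abs_sub _ _).trans ?_
  linarith

theorem pc_pin (A B X ξ ξ' ζ a b r : ℝ) (hA : 0 < A) (hB : 0 < B) (hX : 0 < X)
    (ha : A / (8 * X) < |a|) (hr : |a * ξ + b * ζ + r| ≤ 1 / (A * B * X))
    (hr' : |a * ξ' + b * ζ + r| ≤ 1 / (A * B * X)) :
    A ^ 2 * B * ξ - A ^ 2 * B * ξ' ≤ 16 := by
  have h1 : |a| * |ξ - ξ'| ≤ 2 / (A * B * X) := by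
    rw [← abs_mul]
    have e : a * (ξ - ξ') = (a * ξ + b * ζ + r) - (a * ξ' + b * ζ + r) := by ring
    rw [e]
    refine (abs_sub _ _).trans ?_
    have : 2 / (A * B * X) = 1 / (A * B * X) + 1 / (A * B * X) := by ring
    linarith
  have h2 : A / (8 * X) * |ξ - ξ'| ≤ 2 / (A * B * X) :=
    (mul_le_mul_of_nonneg_right ha.le (abs_nonneg _)).trans h1
  have h3 : A ^ 2 * B * |ξ - ξ'| ≤ 16 := by
    have p : 0 < 8 * X * A * B := by positivity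
    have := mul_le_mul_of_nonneg_left h2 p.le
    have e1 : 8 * X * A * B * (A / (8 * X) * |ξ - ξ'|) = A ^ 2 * B * |ξ - ξ'| := by
      field_simp
    have e2 : 8 * X * A * B * (2 / (A * B * X)) = 16 := by
      field_simp; norm_num
    linarith
  have h4 : A ^ 2 * B * (ξ - ξ') ≤ A ^ 2 * B * |ξ - ξ'| :=
    mul_le_mul_of_nonneg_left (le_abs_self _) (by positivity)
  linarith

theorem pc_sep (ξ ζ : ℝ) (s t y a b r a' b' r' : ℤ) (h : ¬ Short ξ ζ s t y)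
    (hne : lat ξ ζ s t a b r ≠ lat ξ ζ s t a' b' r') :
    ∃ k, (2 : ℝ) ^ (-y) < |lat ξ ζ s t a b r k - lat ξ ζ s t a' b' r' k| := by
  by_contra hc
  push Not at hc
  have hs : (0 : ℝ) < 2 ^ s := zpow_pos two_pos _
  have ht : (0 : ℝ) < 2 ^ t := zpow_pos two_pos _
  have hy : (0 : ℝ) < 2 ^ y := zpow_pos two_pos _
  have two : (2 : ℝ) ≠ 0 := two_ne_zero
  apply h
  refine ⟨a - a', b - b', r - r', ?_, ?_, ?_, ?_⟩
  · by_contra h0
    push Not at h0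
    apply hne
    rw [sub_eq_zero.1 h0.1, sub_eq_zero.1 h0.2.1, sub_eq_zero.1 h0.2.2]
  · have := hc 0
    simp only [lat, Matrix.cons_val_zero] at this
    rw [← sub_div, abs_div, abs_of_pos hs, div_le_iff₀ hs] at this
    push_cast
    rw [sub_eq_add_neg s, zpow_add₀ two, mul_comm]
    exact this
  · have := hc 1
    simp only [lat, Matrix.cons_val_one, Matrix.cons_val_zero] at this
    rw [← sub_div, abs_div, abs_of_pos ht, div_le_iff₀ ht] at this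
    push_cast
    rw [sub_eq_add_neg t, zpow_add₀ two, mul_comm]
    exact this
  · have := hc 2
    simp only [lat, Matrix.cons_val_two, Matrix.tail_cons, Matrix.head_cons] at this
    have hst : (0 : ℝ) < 2 ^ (s + t) := zpow_pos two_pos _
    rw [← mul_sub, abs_mul, abs_of_pos hst, mul_comm, ← le_div_iff₀ hst] at this
    have e : (2 : ℝ) ^ (-y) / 2 ^ (s + t) = 2 ^ (-(s + t + y)) := by
      rw [← zpow_sub₀ two]; congr 1; ring
    rw [e] at this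
    push_cast
    have e2 : ((a : ℝ) - a') * ξ + ((b : ℝ) - b') * ζ + ((r : ℝ) - r') =
        a * ξ + b * ζ + r - (a' * ξ + b' * ζ + r') := by ring
    rw [e2]
    exact this

theorem pc_inj (ξ ζ : ℝ) (s t a b r a' b' r' : ℤ)
    (h : lat ξ ζ s t a b r = lat ξ ζ s t a' b' r') : a = a' ∧ b = b' ∧ r = r' := by
  have hs : (2 : ℝ) ^ s ≠ 0 := zpow_ne_zero _ two_ne_zero
  have ht : (2 : ℝ) ^ t ≠ 0 := zpow_ne_zero _ two_ne_zero
  have hst : (2 : ℝ) ^ (s + t) ≠ 0 := zpow_ne_zero _ two_ne_zero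
  have h0 := congrFun h 0
  have h1 := congrFun h 1
  have h2 := congrFun h 2
  simp only [lat, Matrix.cons_val_zero, Matrix.cons_val_one, Matrix.cons_val_two,
    Matrix.tail_cons, Matrix.head_cons] at h0 h1 h2
  have ea : (a : ℝ) = a' := (div_left_inj' hs).1 h0
  have eb : (b : ℝ) = b' := (div_left_inj' ht).1 h1
  have er := mul_left_cancel₀ hst h2
  rw [ea, eb] at er
  have er' : (r : ℝ) = r' := by linarith
  exact ⟨by exact_mod_cast ea, by exact_mod_cast eb, by exact_mod_cast er'⟩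

theorem peak_count (ζ : ℝ) (s t x : ℤ) (d h p : ℕ) (hx : 3 ≤ x) (hd : (d : ℤ) = 2 * s + t)
    (hh : (h : ℤ) = 3 * x - 7) (Z : Finset ℕ)
    (hZ : ∀ z ∈ Z, z / 2 ^ h = p ∧ ∃ ξ : ℝ, InCell d z ξ ∧ Peak ξ ζ s t x) :
    (Z.card : ℝ) ≤ 18 * ((2 : ℝ) ^ (x + x / 4 + 1) + 1) ^ 2 := by
  classical
  rcases Z.eq_empty_or_nonempty with rfl | ⟨z0, hz0⟩
  · simp only [card_empty, Nat.cast_zero]; positivity
  have two : (2 : ℝ) ≠ 0 := two_ne_zero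
  have hA : (0 : ℝ) < 2 ^ s := zpow_pos two_pos _
  have hB : (0 : ℝ) < 2 ^ t := zpow_pos two_pos _
  have hX0 : (0 : ℝ) < 2 ^ x := zpow_pos two_pos _
  have hX : (8 : ℝ) ≤ 2 ^ x := by
    have : (2 : ℝ) ^ (3 : ℤ) ≤ 2 ^ x := zpow_le_zpow_right₀ one_le_two hx
    norm_num at this
    exact this
  have ed : (2 : ℝ) ^ d = ((2 : ℝ) ^ s) ^ 2 * 2 ^ t := by
    rw [← zpow_natCast, hd, zpow_add₀ two, two_mul, zpow_add₀ two]; ring
  have eh : (2 : ℝ) ^ h = ((2 : ℝ) ^ x) ^ 3 / 128 := by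
    rw [← zpow_natCast, hh, zpow_sub₀ two, show 3 * x = x + x + x by ring, zpow_add₀ two,
      zpow_add₀ two]
    norm_num
    ring
  have e1 : (2 : ℝ) ^ (s - x) = 2 ^ s / 2 ^ x := zpow_sub₀ two _ _
  have e2 : (2 : ℝ) ^ (t - x) = 2 ^ t / 2 ^ x := zpow_sub₀ two _ _
  have e3 : (2 : ℝ) ^ (-(s + t + x)) = 1 / (2 ^ s * 2 ^ t * 2 ^ x) := by
    rw [zpow_neg, zpow_add₀ two, zpow_add₀ two, one_div]
  have e4 : (2 : ℝ) ^ (s - x - 3) = 2 ^ s / (8 * 2 ^ x) := by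
    rw [zpow_sub₀ two, e1]; norm_num; field_simp
  have e5 : (2 : ℝ) ^ (s - x + 2) = 4 * 2 ^ s / 2 ^ x := by
    rw [zpow_add₀ two, e1]; norm_num; field_simp
  have e6 : (2 : ℝ) ^ (t - x + 2) = 4 * 2 ^ t / 2 ^ x := by
    rw [zpow_add₀ two, e2]; norm_num; field_simp
  have hw : ∀ z : ℕ, ∃ ξ : ℝ, ∃ a b r : ℤ, z ∈ Z → InCell d z ξ ∧
      (2 : ℝ) ^ s / (8 * 2 ^ x) < |(a : ℝ)| ∧ |(a : ℝ)| ≤ 2 ^ s / 2 ^ x ∧
      |(b : ℝ)| ≤ 2 ^ t / 2 ^ x ∧ |a * ξ + b * ζ + r| ≤ 1 / (2 ^ s * 2 ^ t * 2 ^ x) ∧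
      ¬ Short ξ ζ (s - x + 2) (t - x + 2) (x + x / 4 + 1) := by
    intro z
    by_cases hz : z ∈ Z
    · obtain ⟨-, ξ, c, ⟨a, b, r, q1, q2, q3, q4⟩, q5⟩ := hZ z hz
      rw [e4] at q1; rw [e1] at q2; rw [e2] at q3; rw [e3] at q4
      exact ⟨ξ, a, b, r, fun _ => ⟨c, q1, q2, q3, q4, q5⟩⟩
    · exact ⟨0, 0, 0, 0, fun h => absurd h hz⟩
  choose ξ a b r hw using hw
  set f : ℕ → V3 := fun z => lat (ξ z0) ζ (s - x + 2) (t - x + 2) (a z) (b z) (r z) with hf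
  have hcube : ∀ z ∈ Z, ∀ k, |f z k| ≤ 1 / 4 := by
    intro z hz k
    obtain ⟨c, -, q2, q3, q4, -⟩ := hw z hz
    have c0 := (hw z0 hz0).1
    have p5 : (0 : ℝ) < 4 * 2 ^ s / 2 ^ x := by positivity
    have p6 : (0 : ℝ) < 4 * 2 ^ t / 2 ^ x := by positivity
    fin_cases k
    · show |(a z : ℝ) / (2 : ℝ) ^ (s - x + 2)| ≤ 1 / 4
      rw [e5, abs_div, abs_of_pos p5, div_le_iff₀ p5]
      have : (1 : ℝ) / 4 * (4 * 2 ^ s / 2 ^ x) = 2 ^ s / 2 ^ x := by ring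
      linarith
    · show |(b z : ℝ) / (2 : ℝ) ^ (t - x + 2)| ≤ 1 / 4
      rw [e6, abs_div, abs_of_pos p6, div_le_iff₀ p6]
      have : (1 : ℝ) / 4 * (4 * 2 ^ t / 2 ^ x) = 2 ^ t / 2 ^ x := by ring
      linarith
    · show |(2 : ℝ) ^ ((s - x + 2) + (t - x + 2)) * (a z * ξ z0 + b z * ζ + r z)| ≤ 1 / 4
      rw [zpow_add₀ two, e5, e6]
      refine pc_bound _ _ _ (ξ z) _ _ _ _ _ hA hB hX q2 q4 ?_
      have u1 := pc_cell1 d h p z z0 _ _ (hZ z hz).1 (hZ z0 hz0).1 c c0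
      have u2 := pc_cell1 d h p z0 z _ _ (hZ z0 hz0).1 (hZ z hz).1 c0 c
      rw [ed, eh] at u1 u2
      rw [abs_le]
      constructor <;> linarith
  have hy : (0 : ℝ) < 2 ^ (-(x + x / 4 + 1)) := zpow_pos two_pos _
  have hS := card_coplanar_le (Z.image f) (1 / 4) ((2 : ℝ) ^ (-(x + x / 4 + 1))) hy (by norm_num)
    (by
      intro w hw' k
      obtain ⟨z, hz, rfl⟩ := mem_image.1 hw'
      exact hcube z hz k)
    (by
      intro u hu v hv w hw'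
      obtain ⟨z1, hz1, rfl⟩ := mem_image.1 hu
      obtain ⟨z2, hz2, rfl⟩ := mem_image.1 hv
      obtain ⟨z3, hz3, rfl⟩ := mem_image.1 hw'
      have hlt := pc_small _ _ _ (hcube z1 hz1) (hcube z2 hz2) (hcube z3 hz3)
      simp only [hf] at hlt ⊢
      rw [pc_det] at hlt ⊢
      rw [← Int.cast_abs] at hlt
      have := Int.abs_lt_one_iff.1 (by exact_mod_cast hlt)
      rw [this]; simp)
    (by
      intro u hu v hv hne
      obtain ⟨z1, hz1, rfl⟩ := mem_image.1 hu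
      obtain ⟨z2, hz2, rfl⟩ := mem_image.1 hv
      exact pc_sep _ _ _ _ _ _ _ _ _ _ _ (hw z0 hz0).2.2.2.2.2 hne)
  have e7 : 4 * (1 / 4 : ℝ) / (2 : ℝ) ^ (-(x + x / 4 + 1)) = 2 ^ (x + x / 4 + 1) := by
    rw [zpow_neg]; field_simp
  rw [e7] at hS
  have hfib : Z.card ≤ 18 * (Z.image f).card := by
    refine card_le_mul_card_image Z 18 ?_
    intro w _
    rcases (Z.filter fun z => f z = w).eq_empty_or_nonempty with h0 | hne
    · rw [h0]; simp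
    have hm := min'_mem _ hne
    set z1 := (Z.filter fun z => f z = w).min' hne with hz1
    have hsub : (Z.filter fun z => f z = w) ⊆ Icc z1 (z1 + 17) := by
      intro z hz
      refine mem_Icc.2 ⟨min'_le _ z hz, ?_⟩
      obtain ⟨m1, m2⟩ := mem_filter.1 hm
      obtain ⟨n1, n2⟩ := mem_filter.1 hz
      obtain ⟨i1, i2, i3⟩ := pc_inj _ _ _ _ _ _ _ _ _ _ (n2.trans m2.symm)
      obtain ⟨c, q1, -, -, q4, -⟩ := hw z n1
      obtain ⟨c', -, -, -, q4', -⟩ := hw z1 m1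
      rw [← i1, ← i2, ← i3] at q4'
      have := pc_pin _ _ _ _ _ _ _ _ _ hA hB hX0 q1 q4 q4'
      rw [← ed] at this
      have k1 := c.1
      have k2 := c'.2
      have : (z : ℝ) ≤ z1 + 17 := by linarith
      exact_mod_cast this
    refine (card_le_card hsub).trans ?_
    rw [Nat.card_Icc]
    omega
  have hfib' : (Z.card : ℝ) ≤ 18 * ((Z.image f).card : ℝ) := by exact_mod_cast hfib
  linarith

end Pool.Agent.Lib.MP_e56372_nt.Dim
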