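import Pool.Agent.Lib.MP_e56372_nt.Dim.Defs

set_option autoImplicit false
open MeasureTheory Filter Topology Finset

namespace Pool.Agent.Lib.MP_e56372_nt.Dim
open Pool.Agent.Lib.MP_e56372_nt

theorem select_near (R : Finset ℕ) (l x0 y : ℤ) (j : ℕ) (hx0 : 1 ≤ x0) (hl : 120 * x0 ≤ l)
    (hy : x0 ≤ y) (hR : ∀ i ∈ R, |(i : ℤ) - j| * l ≤ 48 * y) : x0 * R.card ≤ 2 * y := by
  have hl0 : 0 < l := by omega
  obtain ⟨k, hk⟩ : ∃ k : ℤ, k = 48 * y / l := ⟨_, rfl⟩
  have hk0 : 0 ≤ k := hk ▸ Int.ediv_nonneg (by omega) hl0.le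
  have hkl : k * l ≤ 48 * y := hk ▸ Int.ediv_mul_le _ hl0.ne'
  have hc : R.card ≤ (Finset.Icc ((j : ℤ) - k) (j + k)).card := by
    refine card_le_card_of_injOn (fun i : ℕ => (i : ℤ)) (fun i hi => ?_)
      (fun a _ b _ e => Int.natCast_inj.1 e)
    have h1 : |(i : ℤ) - j| ≤ k := hk ▸ Int.le_ediv_of_mul_le hl0 (hR i hi)
    have h2 := abs_le.1 h1
    simp only [coe_Icc, Set.mem_Icc]
    constructor <;> linarith [h2.1, h2.2]
  have hc2 : ((Finset.Icc ((j : ℤ) - k) (j + k)).card : ℤ) = 2 * k + 1 := by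
    rw [Int.card_Icc_of_le _ _ (by omega)]; ring
  have hc3 : (R.card : ℤ) ≤ 2 * k + 1 := hc2 ▸ (by exact_mod_cast hc)
  have h4 : x0 * R.card ≤ x0 * (2 * k + 1) := mul_le_mul_of_nonneg_left hc3 (by omega)
  have h5 : k * (120 * x0) ≤ k * l := mul_le_mul_of_nonneg_left hl hk0
  nlinarith

theorem select (A : Finset ℕ) (l x0 D0 : ℤ) (D x : ℕ → ℤ) (hx0 : 1 ≤ x0) (hl : 120 * x0 ≤ l)
    (hx : ∀ j ∈ A, x0 ≤ x j) (hD : ∀ j ∈ A, |D j - (D0 - j * l)| ≤ 12 * x j) :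
    ∃ S ⊆ A, (∀ i ∈ S, ∀ j ∈ S, i ≠ j → 12 * (x i + x j) < |D i - D j|) ∧
      x0 * A.card ≤ 2 * ∑ i ∈ S, x i := by
  induction A using Finset.strongInduction with
  | H A ih =>
  rcases A.eq_empty_or_nonempty with rfl | hne
  · exact ⟨∅, Subset.rfl, by simp, by simp⟩
  obtain ⟨j, hj, hmax⟩ := exists_max_image A x hne
  have hxj := hx j hj
  have hss : A.filter (fun i => ¬ |D i - D j| ≤ 12 * (x i + x j)) ⊂ A := by
    refine filter_ssubset.2 ⟨j, hj, ?_⟩
    rw [not_not, sub_self, abs_zero]; omega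
  obtain ⟨S, hS, hsep, hcnt⟩ := ih _ hss (fun i hi => hx i (mem_filter.1 hi).1)
    (fun i hi => hD i (mem_filter.1 hi).1)
  have hfar : ∀ i ∈ S, 12 * (x i + x j) < |D i - D j| := fun i hi =>
    not_le.1 (mem_filter.1 (hS hi)).2
  have hjS : j ∉ S := fun h => by
    have := hfar j h
    rw [sub_self, abs_zero] at this; omega
  have hR := select_near (A.filter (fun i => |D i - D j| ≤ 12 * (x i + x j))) l x0 (x j) j hx0 hl hxj
    (fun i hi => by
      obtain ⟨hi1, hi2⟩ := mem_filter.1 hi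
      have a1 := abs_le.1 (hD i hi1)
      have a2 := abs_le.1 (hD j hj)
      have a3 := abs_le.1 hi2
      have a4 := hmax i hi1
      rcases abs_cases ((i : ℤ) - j) with ⟨e, -⟩ | ⟨e, -⟩ <;> rw [e] <;>
        nlinarith [a1.1, a1.2, a2.1, a2.2, a3.1, a3.2])
  refine ⟨insert j S, insert_subset hj (hS.trans (filter_subset _ _)), ?_, ?_⟩
  · intro a ha b hb hab
    rcases mem_insert.1 ha with rfl | ha' <;> rcases mem_insert.1 hb with rfl | hb'
    · exact absurd rfl hab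
    · rw [abs_sub_comm, add_comm]; exact hfar b hb'
    · exact hfar a ha'
    · exact hsep a ha' b hb' hab
  · rw [sum_insert hjS, ← card_filter_add_card_filter_not
      (s := A) (fun i => |D i - D j| ≤ 12 * (x i + x j))]
    push_cast
    linarith

end Pool.Agent.Lib.MP_e56372_nt.Dim
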