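import Pool.Agent.Lib.MP_e56372_nt.Dim.Tree
import Pool.Agent.Lib.MP_e56372_nt.Dim.Peak
import Pool.Agent.Lib.MP_e56372_nt.Dim.PeakC
import Pool.Agent.Lib.MP_e56372_nt.Dim.Select

set_option autoImplicit false
open MeasureTheory Filter Topology Finset

namespace Pool.Agent.Lib.MP_e56372_nt.Dim
open Pool.Agent.Lib.MP_e56372_nt

/-- marks: cells that contain a peak. -/
def badc_Mk (ζ : ℝ) (x0 c : ℕ) (d h z : ℕ) : Prop :=
  ∃ s t x : ℤ, (h : ℤ) = 3 * x - 7 ∧ (d : ℤ) = 2 * s + t ∧ |s + t - c| ≤ 8 * x ∧ (x0 : ℤ) ≤ x ∧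
    ∃ ξ : ℝ, InCell d z ξ ∧ Peak ξ ζ s t x

noncomputable def badc_f (X : ℕ) : ℝ := (16 * X + 1) * (18 * ((2 : ℝ) ^ (X + X / 4 + 1) + 1) ^ 2)

noncomputable def badc_cnt (x0 h : ℕ) : ℝ :=
  if (h + 7) % 3 = 0 ∧ x0 ≤ (h + 7) / 3 then badc_f ((h + 7) / 3) else 0

noncomputable def badc_g (X : ℕ) : ℝ := 36864 * ((16 * X + 1) * (9 / 10 : ℝ) ^ X)

theorem badc_f_nonneg (X : ℕ) : 0 ≤ badc_f X := by
  unfold badc_f; positivity

theorem badc_cnt_nonneg (x0 h : ℕ) : 0 ≤ badc_cnt x0 h := by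
  unfold badc_cnt
  split_ifs
  · exact badc_f_nonneg _
  · exact le_rfl

theorem badc_card (ζ : ℝ) (x0 c : ℕ) (hx0 : 3 ≤ x0) (d h p : ℕ) (Z : Finset ℕ)
    (hZ : ∀ z ∈ Z, z / 2 ^ h = p ∧ badc_Mk ζ x0 c d h z) : (Z.card : ℝ) ≤ badc_cnt x0 h := by
  classical
  rcases Z.eq_empty_or_nonempty with rfl | ⟨z0, hz0⟩
  · simpa using badc_cnt_nonneg x0 h
  obtain ⟨-, s0, t0, x, e1, -, -, e4, -⟩ := hZ z0 hz0
  obtain ⟨X, hX⟩ : ∃ X : ℕ, X = (h + 7) / 3 := ⟨_, rfl⟩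
  have hxX : x = X := by omega
  have hc : (h + 7) % 3 = 0 ∧ x0 ≤ (h + 7) / 3 := by omega
  rw [badc_cnt, if_pos hc, ← hX]
  set I : Finset ℤ := Finset.Icc ((d : ℤ) - c - 8 * X) ((d : ℤ) - c + 8 * X) with hI
  set W : ℤ → Finset ℕ := fun s =>
    Z.filter fun z => ∃ ξ : ℝ, InCell d z ξ ∧ Peak ξ ζ s (d - 2 * s) X with hW
  have hsub : Z ⊆ I.biUnion W := by
    intro z hz
    obtain ⟨-, s, t, y, a1, a2, a3, -, ξ, a5, a6⟩ := hZ z hz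
    have hy : y = X := by omega
    have ht : t = d - 2 * s := by omega
    subst hy
    rw [abs_le] at a3
    refine mem_biUnion.2 ⟨s, mem_Icc.2 ⟨by omega, by omega⟩, mem_filter.2 ⟨hz, ξ, a5, ?_⟩⟩
    rw [← ht]; exact a6
  have hone : ∀ s ∈ I, ((W s).card : ℝ) ≤ 18 * ((2 : ℝ) ^ (X + X / 4 + 1) + 1) ^ 2 := by
    intro s _
    have h1 := peak_count ζ s (d - 2 * s) X d h p (by omega) (by ring) (by omega) (W s)
      (fun z hz => ⟨(hZ z (mem_filter.1 hz).1).1, (mem_filter.1 hz).2⟩)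
    have h2 : ((X : ℤ) + (X : ℤ) / 4 + 1) = ((X + X / 4 + 1 : ℕ) : ℤ) := by push_cast; rfl
    rwa [h2, zpow_natCast] at h1
  have hIc : (I.card : ℝ) = 16 * X + 1 := by
    have : I.card = 16 * X + 1 := by rw [hI, Int.card_Icc]; omega
    rw [this]; push_cast; ring
  calc (Z.card : ℝ) ≤ ((I.biUnion W).card : ℝ) := by exact_mod_cast card_le_card hsub
    _ ≤ ((∑ s ∈ I, (W s).card : ℕ) : ℝ) := by exact_mod_cast card_biUnion_le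
    _ = ∑ s ∈ I, ((W s).card : ℝ) := by push_cast; rfl
    _ ≤ ∑ _s ∈ I, 18 * ((2 : ℝ) ^ (X + X / 4 + 1) + 1) ^ 2 := sum_le_sum hone
    _ = badc_f X := by rw [sum_const, nsmul_eq_mul, hIc, badc_f]

theorem badc_pow (X : ℕ) : (4 : ℝ) ^ (X / 4) ≤ (3 / 2) ^ X := by
  calc (4 : ℝ) ^ (X / 4) ≤ ((3 / 2 : ℝ) ^ 4) ^ (X / 4) :=
        pow_le_pow_left₀ (by norm_num) (by norm_num) _
    _ = (3 / 2 : ℝ) ^ (4 * (X / 4)) := by rw [← pow_mul]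
    _ ≤ (3 / 2) ^ X := pow_le_pow_right₀ (by norm_num) (by omega)

theorem badc_term (X h : ℕ) (hh : h + 7 = 3 * X) :
    badc_f X * (6 / 5 : ℝ) ^ X / 2 ^ h ≤ badc_g X := by
  have h1 : (1 : ℝ) ≤ 2 ^ (X + X / 4 + 1) := one_le_pow₀ (by norm_num)
  have h2 : ((2 : ℝ) ^ (X + X / 4 + 1)) ^ 2 = 4 * (4 ^ X * 4 ^ (X / 4)) := by
    have : (4 : ℝ) = 2 ^ 2 := by norm_num
    rw [← pow_add, this, ← pow_mul, ← pow_mul, ← pow_add]
    congr 1; ring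
  have h3 : ((2 : ℝ) ^ (X + X / 4 + 1) + 1) ^ 2 ≤ 16 * (4 ^ X * (3 / 2) ^ X) := by
    have a : ((2 : ℝ) ^ (X + X / 4 + 1) + 1) ^ 2 ≤ (2 * (2 : ℝ) ^ (X + X / 4 + 1)) ^ 2 :=
      pow_le_pow_left₀ (by positivity) (by linarith) _
    have b : (4 : ℝ) ^ X * 4 ^ (X / 4) ≤ 4 ^ X * (3 / 2) ^ X :=
      mul_le_mul_of_nonneg_left (badc_pow X) (by positivity)
    rw [mul_pow, h2] at a
    linarith
  have h4 : (2 : ℝ) ^ h * 128 = 8 ^ X := by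
    have : (8 : ℝ) = 2 ^ 3 := by norm_num
    rw [this, ← pow_mul, ← hh, pow_add]; norm_num
  have h5 : (4 : ℝ) ^ X * (3 / 2) ^ X * (6 / 5) ^ X = (9 / 10) ^ X * 8 ^ X := by
    rw [← mul_pow, ← mul_pow, ← mul_pow]; norm_num
  rw [div_le_iff₀ (by positivity), badc_f, badc_g]
  have h6 : (0 : ℝ) ≤ (16 * X + 1) * 18 * (6 / 5 : ℝ) ^ X := by positivity
  calc (16 * (X : ℝ) + 1) * (18 * ((2 : ℝ) ^ (X + X / 4 + 1) + 1) ^ 2) * (6 / 5 : ℝ) ^ X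
      = (16 * X + 1) * 18 * (6 / 5 : ℝ) ^ X * ((2 : ℝ) ^ (X + X / 4 + 1) + 1) ^ 2 := by ring
    _ ≤ (16 * X + 1) * 18 * (6 / 5 : ℝ) ^ X * (16 * (4 ^ X * (3 / 2) ^ X)) :=
        mul_le_mul_of_nonneg_left h3 h6
    _ = (16 * X + 1) * 288 * ((4 : ℝ) ^ X * (3 / 2) ^ X * (6 / 5) ^ X) := by ring
    _ = 36864 * ((16 * X + 1) * (9 / 10 : ℝ) ^ X) * 2 ^ h := by rw [h5, ← h4]; ring

theorem badc_summable : Summable badc_g := by
  have h1 : Summable fun X : ℕ => (X : ℝ) ^ 1 * (9 / 10 : ℝ) ^ X :=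
    summable_pow_mul_geometric_of_norm_lt_one 1 (by rw [Real.norm_eq_abs, abs_of_pos] <;> norm_num)
  have h2 : Summable fun X : ℕ => (9 / 10 : ℝ) ^ X :=
    summable_geometric_of_lt_one (by norm_num) (by norm_num)
  refine (((h1.mul_left 16).add h2).mul_left 36864).congr fun X => ?_
  rw [badc_g]; ring

theorem badc_sum (ε : ℝ) (hε : 0 < ε) : ∃ x1 : ℕ, 3 ≤ x1 ∧ ∀ x0 : ℕ, x1 ≤ x0 → ∀ n : ℕ,
    ∑ h ∈ Icc 1 n, badc_cnt x0 h * (6 / 5 : ℝ) ^ ((h + 7) / 3) / 2 ^ h ≤ ε := by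
  classical
  obtain ⟨s, hs⟩ := summable_iff_vanishing_norm.1 badc_summable ε hε
  refine ⟨s.sup id + 3, by omega, fun x0 hx0 n => ?_⟩
  set T := (Icc 1 n).filter fun h => (h + 7) % 3 = 0 ∧ x0 ≤ (h + 7) / 3 with hT
  have h1 : ∑ h ∈ Icc 1 n, badc_cnt x0 h * (6 / 5 : ℝ) ^ ((h + 7) / 3) / 2 ^ h ≤
      ∑ h ∈ T, badc_g ((h + 7) / 3) := by
    rw [hT, sum_filter]
    refine sum_le_sum fun h _ => ?_
    unfold badc_cnt
    split_ifs with hc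
    · exact badc_term _ h (by omega)
    · simp
  have h2 : ∑ h ∈ T, badc_g ((h + 7) / 3) = ∑ X ∈ T.image fun h => (h + 7) / 3, badc_g X := by
    rw [sum_image]
    intro a ha b hb hab
    have a1 := (mem_filter.1 (mem_coe.1 ha)).2.1
    have b1 := (mem_filter.1 (mem_coe.1 hb)).2.1
    simp only at hab
    omega
  have h3 : Disjoint (T.image fun h => (h + 7) / 3) s := by
    rw [disjoint_left]
    intro X hX hXs
    obtain ⟨h, hh, rfl⟩ := mem_image.1 hX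
    have a1 := (mem_filter.1 hh).2.2
    have a2 : id ((h + 7) / 3) ≤ s.sup id := le_sup (f := id) hXs
    simp only [id] at a2
    omega
  have h4 := hs _ h3
  rw [Real.norm_eq_abs] at h4
  rw [h2] at h1
  exact h1.trans ((le_abs_self _).trans h4.le)

theorem bad_count (ε : ℝ) (hε : 0 < ε) : ∃ x1 : ℕ, ∀ x0 : ℕ, x1 ≤ x0 →
    ∀ (n l J m Hm s0 t0 : ℕ) (ζ : ℝ), 120 * x0 ≤ l → J * l + 6 * Hm + 6 ≤ s0 →
      2 * s0 + t0 + 12 * Hm ≤ n → 15 * Hm + 6 ≤ t0 →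
      ∀ A : Finset ℕ, (∀ u ∈ A, u < 2 ^ n ∧
        (∀ s t : ℤ, 0 ≤ s → 0 ≤ t → |s + t - (s0 + t0)| ≤ 12 * Hm + 12 →
          ¬ Short ((u : ℝ) / 2 ^ n) ζ s t Hm) ∧
        ∃ T : Finset ℕ, m ≤ T.card ∧ ∀ j ∈ T, j < J ∧
          Short ((u : ℝ) / 2 ^ n) ζ ((s0 : ℤ) - j * l) ((t0 : ℤ) + j * l) x0) →
      (A.card : ℝ) ≤ (2 * (1 + ε)) ^ n / (6 / 5 : ℝ) ^ (x0 * m / 2) := by
  classical
  obtain ⟨x1, hx1, hsum⟩ := badc_sum ε hε
  refine ⟨x1, fun x0 hx0 n l J m Hm s0 t0 ζ c1 c2 c3 c4 A hA => ?_⟩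
  have h3 : 3 ≤ x0 := hx1.trans hx0
  refine tree n (badc_Mk ζ x0 (s0 + t0)) (badc_cnt x0) (fun h => (6 / 5 : ℝ) ^ ((h + 7) / 3)) ε _
    hε.le (by positivity) (fun h => by positivity) (badc_card ζ x0 (s0 + t0) h3) (hsum x0 hx0 n) A
    (fun u hu => (hA u hu).1) fun u hu => ?_
  obtain ⟨-, hno, T, hm, hT⟩ := hA u hu
  have hjl : ∀ j ∈ T, 0 ≤ (j : ℤ) * l ∧ (j : ℤ) * l + 6 * Hm + 6 ≤ s0 := by
    intro j hj
    have a1 : j * l ≤ J * l := Nat.mul_le_mul_right _ (hT j hj).1.le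
    have a2 : j * l + 6 * Hm + 6 ≤ s0 := by omega
    exact ⟨by positivity, by exact_mod_cast a2⟩
  have hp : ∀ j ∈ T, ∃ s t x : ℤ, (x0 : ℤ) ≤ x ∧ x < Hm ∧ |s - ((s0 : ℤ) - j * l)| ≤ 4 * x ∧
      |t - ((t0 : ℤ) + j * l)| ≤ 4 * x ∧ Peak ((u : ℝ) / 2 ^ n) ζ s t x := by
    intro j hj
    obtain ⟨a1, a2⟩ := hjl j hj
    refine peak _ ζ _ _ x0 Hm (by omega) (hT j hj).2 (fun s t b1 b2 => ?_) (by omega)
    rw [abs_le] at b1 b2
    refine hno s t (by omega) (by omega) (abs_le.2 ⟨by omega, by omega⟩)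
  choose! s t x p1 p2 p3 p4 p5 using hp
  obtain ⟨S, hST, hsep, hsz⟩ := select T l x0 (2 * s0 + t0) (fun j => 2 * s j + t j) x (by omega)
    (by omega) p1 (fun j hj => by
      have b1 := abs_le.1 (p3 j hj)
      have b2 := abs_le.1 (p4 j hj)
      exact abs_le.2 ⟨by omega, by omega⟩)
  have hall : ∀ j ∈ T, 3 ≤ x j ∧ 3 * x j ≤ 2 * s j + t j ∧ 2 * s j + t j ≤ n ∧
      |s j + t j - ((s0 + t0 : ℕ) : ℤ)| ≤ 8 * x j := by
    intro j hj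
    obtain ⟨a1, a2⟩ := hjl j hj
    have b1 := abs_le.1 (p3 j hj)
    have b2 := abs_le.1 (p4 j hj)
    have b3 := p1 j hj
    have b4 := p2 j hj
    exact ⟨by omega, by omega, by omega, abs_le.2 ⟨by omega, by omega⟩⟩
  set φ : ℕ → ℕ × ℕ := fun j => ((2 * s j + t j).toNat, (3 * x j - 7).toNat) with hφ
  have hsep' : ∀ i ∈ S, ∀ j ∈ S, i ≠ j →
      (φ i).1 ≠ (φ j).1 ∧ ((φ i).1 + (φ j).2 ≤ (φ j).1 ∨ (φ j).1 + (φ i).2 ≤ (φ i).1) := by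
    intro i hi j hj hij
    have a := hsep i hi j hj hij
    obtain ⟨b1, b2, -, -⟩ := hall i (hST hi)
    obtain ⟨d1, d2, -, -⟩ := hall j (hST hj)
    simp only [hφ]
    rcases lt_abs.1 a with e | e <;> omega
  refine ⟨S.image φ, fun w hw => ?_, fun w hw w' hw' hne => ?_, ?_⟩
  · obtain ⟨j, hj, rfl⟩ := mem_image.1 hw
    obtain ⟨b1, b2, b3, b4⟩ := hall j (hST hj)
    have hd : (φ j).1 ≤ n := by simp only [hφ]; omega
    refine ⟨by simp only [hφ]; omega, by simp only [hφ]; omega, hd, s j, t j, x j,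
      by simp only [hφ]; omega, by simp only [hφ]; omega, b4, p1 j (hST hj), _,
      inCell_pre n _ u hd, p5 j (hST hj)⟩
  · obtain ⟨i, hi, rfl⟩ := mem_image.1 hw
    obtain ⟨j, hj, rfl⟩ := mem_image.1 hw'
    exact (hsep' i hi j hj fun e => hne (by rw [e])).2
  · rw [prod_image fun i hi j hj e => by
      by_contra hij
      exact (hsep' i (mem_coe.1 hi) j (mem_coe.1 hj) hij).1 (by rw [e])]
    rw [prod_pow_eq_pow_sum]
    refine pow_le_pow_right₀ (by norm_num) ?_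
    have e1 : ((∑ i ∈ S, ((φ i).2 + 7) / 3 : ℕ) : ℤ) = ∑ i ∈ S, x i := by
      rw [Nat.cast_sum]
      refine sum_congr rfl fun i hi => ?_
      obtain ⟨b1, -⟩ := hall i (hST hi)
      simp only [hφ]
      omega
    have e2 : x0 * m ≤ x0 * T.card := Nat.mul_le_mul_left _ hm
    have e3 : x0 * T.card ≤ 2 * ∑ i ∈ S, ((φ i).2 + 7) / 3 := by
      rw [← e1] at hsz
      exact_mod_cast hsz
    omega

end Pool.Agent.Lib.MP_e56372_nt.Dim
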