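import Pool.Agent.Lib.MP_e56372_nt.Dim.Defs3

set_option autoImplicit false
open MeasureTheory Filter Topology Finset

namespace Pool.Agent.Lib.MP_e56372_nt.Dim
open Pool.Agent.Lib.MP_e56372_nt

theorem kernpsi_nd (x : ℝ) (hx : |x| ≤ 1 / 2) : |x| ≤ nd x := by
  unfold nd
  by_cases h : round x = 0
  · simp [h]
  · have h1 : (1 : ℝ) ≤ |((round x : ℤ) : ℝ)| := by
      rw [← Int.cast_abs]
      exact_mod_cast Int.one_le_abs h
    have h2 := abs_sub_abs_le_abs_sub ((round x : ℤ) : ℝ) x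
    rw [abs_sub_comm] at h2
    linarith

theorem kernpsi_bnd {Q1 τ : ℝ} {Ψ : ℝ → ℝ} (hΨ : Psi Q1 Ψ) (hQ : 0 < Q1) (hτ : 0 < τ) (z : ℝ)
    (hz : |τ * z| ≤ 1 / 2) : |Ψ (τ * z)| ≤ 1 / (max 1 (2 * (Q1 * τ) * |z|)) ^ 2 := by
  refine (hΨ.bnd _).trans ?_
  have h1 := kernpsi_nd _ hz
  rw [abs_mul, abs_of_pos hτ] at h1
  have h2 : 2 * (Q1 * τ) * |z| ≤ 2 * Q1 * nd (τ * z) := by nlinarith
  have h3 : (0 : ℝ) < max 1 (2 * (Q1 * τ) * |z|) := lt_max_of_lt_left one_pos
  exact one_div_le_one_div_of_le (pow_pos h3 2)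
    (pow_le_pow_left₀ h3.le (max_le_max le_rfl h2) 2)

theorem kernpsi_sq (a b : ℝ) (ha : 0 < a) (hab : a ≤ b) :
    ∫ z in a..b, 1 / z ^ 2 ≤ 1 / a := by
  have h : ∫ z in a..b, 1 / z ^ 2 = -b⁻¹ - -a⁻¹ := by
    refine intervalIntegral.integral_eq_sub_of_hasDerivAt (f := fun z : ℝ => -z⁻¹) ?_ ?_
    · intro x hx
      rw [Set.uIcc_of_le hab] at hx
      have h0 : x ≠ 0 := (ha.trans_le hx.1).ne'
      have h1 : HasDerivAt (fun z : ℝ => -z⁻¹) (-(-(x ^ 2)⁻¹)) x := (hasDerivAt_inv h0).neg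
      rwa [neg_neg, ← one_div] at h1
    · refine ContinuousOn.intervalIntegrable ?_
      rw [Set.uIcc_of_le hab]
      exact continuousOn_const.div (continuousOn_id.pow 2)
        fun x hx => pow_ne_zero 2 (ha.trans_le hx.1).ne'
  have hb : 0 < b⁻¹ := inv_pos.2 (ha.trans_le hab)
  rw [h, one_div]
  linarith

theorem kernpsi_atan (s ρ : ℝ) :
    ∫ z in (-ρ)..ρ, 2 * s / (1 + (2 * s * z) ^ 2) ≤ 7 / 2 := by
  have h : ∫ z in (-ρ)..ρ, 2 * s / (1 + (2 * s * z) ^ 2) =
      Real.arctan (2 * s * ρ) - Real.arctan (2 * s * (-ρ)) := by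
    refine intervalIntegral.integral_eq_sub_of_hasDerivAt
      (f := fun z : ℝ => Real.arctan (2 * s * z)) ?_ ?_
    · intro x _
      have h1 : HasDerivAt (fun z : ℝ => 2 * s * z) (2 * s) x := by
        simpa using (hasDerivAt_id x).const_mul (2 * s)
      have h2 := h1.arctan
      rwa [one_div_mul_eq_div] at h2
    · refine Continuous.intervalIntegrable ?_ _ _
      exact continuous_const.div (by fun_prop) fun x => by positivity
  have h1 := Real.arctan_lt_pi_div_two (2 * s * ρ)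
  have h2 := Real.neg_pi_div_two_lt_arctan (2 * s * (-ρ))
  have h3 := Real.pi_lt_d2
  rw [h]
  linarith

theorem kernpsi_mean {Q1 τ ρ : ℝ} {Ψ : ℝ → ℝ} (hΨ : Psi Q1 Ψ) (hQ : 0 < Q1) (hτ : 0 < τ)
    (hρ : 0 < ρ) (h3 : τ * ρ ≤ 1 / 2) :
    |∫ z in (-ρ)..ρ, Ψ (τ * z)| ≤ 1 / (2 * (Q1 * τ) ^ 2 * ρ) := by
  set L : ℝ := 1 / (2 * τ) with hL
  have hτL : τ * L = 1 / 2 := by rw [hL]; field_simp
  have hρL : ρ ≤ L := le_of_mul_le_mul_left (by rw [hτL]; exact h3) hτ
  have hc : Continuous fun z => Ψ (τ * z) := hΨ.cont.comp (by fun_prop)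
  have e0 : ∫ z in (-L)..L, Ψ (τ * z) = 0 := by
    rw [intervalIntegral.integral_comp_mul_left Ψ hτ.ne', mul_neg, hτL, hΨ.mean, smul_zero]
  have e1 : ∫ z in (-L)..(-ρ), Ψ (τ * z) = ∫ z in ρ..L, Ψ (τ * z) := by
    rw [← intervalIntegral.integral_comp_neg (fun z => Ψ (τ * z))]
    simp only [mul_neg, hΨ.even]
  have e2 := intervalIntegral.integral_add_adjacent_intervals (μ := volume)
    (hc.intervalIntegrable (-L) (-ρ)) (hc.intervalIntegrable (-ρ) ρ)
  have e3 := intervalIntegral.integral_add_adjacent_intervals (μ := volume)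
    (hc.intervalIntegrable (-L) ρ) (hc.intervalIntegrable ρ L)
  have e4 : ∫ z in (-ρ)..ρ, Ψ (τ * z) = -2 * ∫ z in ρ..L, Ψ (τ * z) := by linarith
  have hs : 0 < Q1 * τ := mul_pos hQ hτ
  have hi : IntervalIntegrable (fun z : ℝ => 1 / z ^ 2) volume ρ L := by
    refine ContinuousOn.intervalIntegrable ?_
    rw [Set.uIcc_of_le hρL]
    exact continuousOn_const.div (continuousOn_id.pow 2)
      fun x hx => pow_ne_zero 2 (hρ.trans_le hx.1).ne'
  have b1 : |∫ z in ρ..L, Ψ (τ * z)| ≤ ∫ z in ρ..L, 1 / (4 * (Q1 * τ) ^ 2) * (1 / z ^ 2) := by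
    refine (intervalIntegral.abs_integral_le_integral_abs hρL).trans ?_
    refine intervalIntegral.integral_mono_on hρL (hc.abs.intervalIntegrable _ _)
      (hi.const_mul _) fun z hz => ?_
    have z0 : 0 < z := hρ.trans_le hz.1
    have z1 : |τ * z| ≤ 1 / 2 := by
      rw [abs_of_pos (mul_pos hτ z0), ← hτL]
      exact mul_le_mul_of_nonneg_left hz.2 hτ.le
    refine (kernpsi_bnd hΨ hQ hτ z z1).trans ?_
    rw [abs_of_pos z0]
    have z2 : 0 < 2 * (Q1 * τ) * z := by positivity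
    refine (one_div_le_one_div_of_le (pow_pos z2 2)
      (pow_le_pow_left₀ z2.le (le_max_right _ _) 2)).trans_eq ?_
    field_simp
    ring
  rw [intervalIntegral.integral_const_mul] at b1
  have b2 := mul_le_mul_of_nonneg_left (kernpsi_sq ρ L hρ hρL)
    (show 0 ≤ 1 / (4 * (Q1 * τ) ^ 2) by positivity)
  have b3 : 1 / (2 * (Q1 * τ) ^ 2 * ρ) = 2 * (1 / (4 * (Q1 * τ) ^ 2) * (1 / ρ)) := by
    field_simp
    ring
  rw [e4, abs_mul, b3, abs_neg, abs_two]
  linarith

theorem kern_psi (Q1 τ δ ρ : ℝ) (Ψ : ℝ → ℝ) (hΨ : Psi Q1 Ψ) (hQ : 0 < Q1) (hτ : 0 < τ) (hδ : 0 < δ)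
    (h1 : δ * (Q1 * τ) ≤ 1) (h2 : 1 ≤ Q1 * τ * ρ) (h3 : τ * ρ ≤ 1 / 2) :
    ∃ K, Kern δ ρ 4 K ∧ ∀ z, |τ * z| ≤ 1 / 2 →
      |Ψ (τ * z) - K z / (Q1 * τ)| ≤ 1 / (Q1 * τ * ρ) ^ 2 := by
  have hs : 0 < Q1 * τ := mul_pos hQ hτ
  have hρ : 0 < ρ := by
    by_contra h
    have := mul_nonneg hs.le (neg_nonneg.2 (not_lt.1 h))
    linarith
  have hm := kernpsi_mean hΨ hQ hτ hρ h3
  have hb := kernpsi_bnd hΨ hQ hτ
  set s := Q1 * τ with hsdef
  set m := ∫ z in (-ρ)..ρ, Ψ (τ * z) with hmdef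
  set c := m / (2 * ρ) with hcdef
  have hc : Continuous fun z => Ψ (τ * z) := hΨ.cont.comp (by fun_prop)
  have hg : Continuous fun z => s * (Ψ (τ * z) - c) := continuous_const.mul (hc.sub continuous_const)
  have c1 : |c| ≤ 1 / (4 * (s * ρ) ^ 2) := by
    rw [hcdef, abs_div, abs_of_pos (show 0 < 2 * ρ by positivity),
      div_le_iff₀ (show 0 < 2 * ρ by positivity)]
    refine hm.trans_eq ?_
    field_simp
    ring
  have c2 : s * ρ * |c| ≤ 1 / 4 := by
    have a1 : |c| * (4 * (s * ρ) ^ 2) ≤ 1 := (le_div_iff₀ (by positivity)).1 c1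
    have a2 : 0 ≤ s * ρ * |c| := by positivity
    nlinarith
  have hin : ∀ z, |z| ≤ ρ → |τ * z| ≤ 1 / 2 := fun z hz => by
    rw [abs_mul, abs_of_pos hτ]
    exact (mul_le_mul_of_nonneg_left hz hτ.le).trans h3
  have hle : -ρ ≤ ρ := by linarith
  refine ⟨Set.indicator (Set.Icc (-ρ) ρ) fun z => s * (Ψ (τ * z) - c),
    ⟨hδ, hg.measurable.indicator measurableSet_Icc, fun z hz => ?_, fun z => ?_,
      hg.integrableOn_Icc.integrable_indicator measurableSet_Icc, ?_, ?_⟩, fun z hz => ?_⟩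
  · have hz' : z ∉ Set.Icc (-ρ) ρ := fun h => absurd (abs_le.2 h) (not_le.2 hz)
    rw [Set.indicator_of_notMem hz']
  · by_cases hz : z ∈ Set.Icc (-ρ) ρ
    · rw [Set.indicator_of_mem hz, abs_mul, abs_of_pos hs]
      have z1 : |z| ≤ ρ := abs_le.2 hz
      have z2 := hb z (hin z z1)
      have z3 : (1 : ℝ) ≤ max 1 (2 * s * |z|) := le_max_left _ _
      have z4 : 2 * s * |z| ≤ max 1 (2 * s * |z|) := le_max_right _ _
      set M := max 1 (2 * s * |z|) with hM
      have z5 : |Ψ (τ * z)| * M ^ 2 ≤ 1 := (le_div_iff₀ (by positivity)).1 z2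
      have z6 : s * max |z| δ ≤ M := by
        rcases max_cases |z| δ with h | h
        · rw [h.1]
          nlinarith [mul_nonneg hs.le (abs_nonneg z)]
        · rw [h.1]
          linarith
      have z7 : s * max |z| δ ≤ s * ρ := by
        rcases max_cases |z| δ with h | h
        · rw [h.1]
          exact mul_le_mul_of_nonneg_left z1 hs.le
        · rw [h.1]
          linarith
      have z8 : |Ψ (τ * z) - c| ≤ |Ψ (τ * z)| + |c| := abs_sub _ _
      have z9 : 0 ≤ s * max |z| δ := mul_nonneg hs.le (hδ.le.trans (le_max_right _ _))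
      have y1 := mul_le_mul_of_nonneg_left z8 z9
      have y2 := mul_le_mul_of_nonneg_right z6 (abs_nonneg (Ψ (τ * z)))
      have y3 := mul_le_mul_of_nonneg_right z7 (abs_nonneg c)
      have y4 : M * |Ψ (τ * z)| ≤ 1 := by
        have := mul_nonneg (mul_nonneg (zero_le_one.trans z3) (abs_nonneg (Ψ (τ * z))))
          (sub_nonneg.2 z3)
        nlinarith
      nlinarith
    · rw [Set.indicator_of_notMem hz]
      simp
  · have e : (fun z => |Set.indicator (Set.Icc (-ρ) ρ) (fun z => s * (Ψ (τ * z) - c)) z|) =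
        Set.indicator (Set.Icc (-ρ) ρ) fun z => |s * (Ψ (τ * z) - c)| := by
      funext z
      by_cases hz : z ∈ Set.Icc (-ρ) ρ
      · rw [Set.indicator_of_mem hz, Set.indicator_of_mem hz]
      · rw [Set.indicator_of_notMem hz, Set.indicator_of_notMem hz, abs_zero]
    rw [e, integral_indicator measurableSet_Icc, integral_Icc_eq_integral_Ioc,
      ← intervalIntegral.integral_of_le hle]
    have hk : Continuous fun z : ℝ => 2 * s / (1 + (2 * s * z) ^ 2) :=
      continuous_const.div (by fun_prop) fun x => by positivity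
    have b1 : ∫ z in (-ρ)..ρ, |s * (Ψ (τ * z) - c)| ≤
        ∫ z in (-ρ)..ρ, (2 * s / (1 + (2 * s * z) ^ 2) + s * |c|) := by
      refine intervalIntegral.integral_mono_on hle (hg.abs.intervalIntegrable _ _)
        ((hk.add continuous_const).intervalIntegrable _ _) fun z hz => ?_
      have z2 := hb z (hin z (abs_le.2 hz))
      have z3 : (1 : ℝ) ≤ max 1 (2 * s * |z|) := le_max_left _ _
      have z4 : 2 * s * |z| ≤ max 1 (2 * s * |z|) := le_max_right _ _
      set M := max 1 (2 * s * |z|) with hM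
      have z5 : |Ψ (τ * z)| * M ^ 2 ≤ 1 := (le_div_iff₀ (by positivity)).1 z2
      have z6 : (2 * s * z) ^ 2 ≤ M ^ 2 := by
        have : (2 * s * z) ^ 2 = (2 * s * |z|) ^ 2 := by
          rw [mul_pow, mul_pow (2 * s), sq_abs]
        rw [this]
        exact pow_le_pow_left₀ (by positivity) z4 2
      have z7 : 1 ≤ M ^ 2 := one_le_pow₀ z3
      have z8 : |Ψ (τ * z)| * (1 + (2 * s * z) ^ 2) ≤ 2 := by
        nlinarith [abs_nonneg (Ψ (τ * z))]
      have z9 : s * |Ψ (τ * z)| ≤ 2 * s / (1 + (2 * s * z) ^ 2) := by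
        rw [le_div_iff₀ (by positivity)]
        nlinarith
      rw [abs_mul, abs_of_pos hs]
      have y1 := mul_le_mul_of_nonneg_left (abs_sub (Ψ (τ * z)) c) hs.le
      linarith
    rw [intervalIntegral.integral_add (hk.intervalIntegrable _ _)
      (continuous_const.intervalIntegrable _ _), intervalIntegral.integral_const,
      smul_eq_mul] at b1
    have b2 := kernpsi_atan s ρ
    nlinarith
  · rw [integral_indicator measurableSet_Icc, integral_Icc_eq_integral_Ioc,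
      ← intervalIntegral.integral_of_le hle, intervalIntegral.integral_const_mul,
      intervalIntegral.integral_sub (hc.intervalIntegrable _ _)
        (continuous_const.intervalIntegrable _ _), intervalIntegral.integral_const, smul_eq_mul,
      ← hmdef, hcdef]
    field_simp
    ring
  · have p : 0 < s * ρ := by positivity
    by_cases hz' : z ∈ Set.Icc (-ρ) ρ
    · rw [Set.indicator_of_mem hz', mul_div_cancel_left₀ _ hs.ne', sub_sub_cancel]
      exact c1.trans (one_div_le_one_div_of_le (pow_pos p 2) (by nlinarith [pow_pos p 2]))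
    · rw [Set.indicator_of_notMem hz', zero_div, sub_zero]
      have z1 : ρ ≤ |z| := by
        by_contra h
        exact hz' (abs_le.1 (not_le.1 h).le)
      refine (hb z hz).trans (one_div_le_one_div_of_le (pow_pos p 2)
        (pow_le_pow_left₀ p.le (le_trans ?_ (le_max_right _ _)) 2))
      nlinarith [mul_le_mul_of_nonneg_left z1 hs.le]

end Pool.Agent.Lib.MP_e56372_nt.Dim
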