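import Pool.Agent.Lib.MP_e56372_nt.Dim.OneBoxA
import Pool.Agent.Lib.MP_e56372_nt.Dim.KernPsi

set_option autoImplicit false
open MeasureTheory Filter Topology Finset

namespace Pool.Agent.Lib.MP_e56372_nt.Dim
open Pool.Agent.Lib.MP_e56372_nt

/-- the linear change of coordinates. -/
noncomputable def onebox_ph (γ1 γ2 γ3 ε1 ε2 : ℝ) (v : V3) : V3 :=
  ![-(ε1 * γ1 * v 0), ε2 * γ2 * v 1,
    γ3 * v 2 + (1 + ε1) / 2 * (ε1 * γ1 * v 0) - (1 - ε2) / 2 * (ε2 * γ2 * v 1)]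

theorem onebox_ph_cmb (γ1 γ2 γ3 ε1 ε2 : ℝ) (e f g : V3) (i n m : ℤ) :
    cmb (onebox_ph γ1 γ2 γ3 ε1 ε2 e) (onebox_ph γ1 γ2 γ3 ε1 ε2 f) (onebox_ph γ1 γ2 γ3 ε1 ε2 g)
      i n m = onebox_ph γ1 γ2 γ3 ε1 ε2 (cmb e f g i n m) := by
  funext k
  fin_cases k <;> simp [cmb, onebox_ph] <;> ring

theorem onebox_frame (b E γ1 γ2 γ3 ε1 ε2 : ℝ) (e f g : V3) (hfr : Frame E e f g)
    (hε1 : ε1 = 1 ∨ ε1 = -1) (hε2 : ε2 = 1 ∨ ε2 = -1) (g1 : 1 ≤ γ1) (g2 : 1 ≤ γ2) (g3 : 1 ≤ γ3)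
    (h1 : 3 * (γ1 * E) ≤ b) (h2 : 3 * (γ2 * E) ≤ b) (h3 : 3 * (γ3 * E) ≤ b) :
    Frame b (onebox_ph γ1 γ2 γ3 ε1 ε2 e) (onebox_ph γ1 γ2 γ3 ε1 ε2 f)
      (onebox_ph γ1 γ2 γ3 ε1 ε2 g) := by
  have a1 : |ε1| = 1 := by rcases hε1 with h | h <;> simp [h]
  have a2 : |ε2| = 1 := by rcases hε2 with h | h <;> simp [h]
  have bd : ∀ v : V3, (∀ k, |v k| ≤ E) → ∀ k, |onebox_ph γ1 γ2 γ3 ε1 ε2 v k| ≤ b := by
    intro v hv k
    have c : ∀ (γ : ℝ) (k : Fin 3), 1 ≤ γ → |γ * v k| ≤ γ * E := fun γ k h => by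
      rw [abs_mul, abs_of_nonneg (by linarith)]
      exact mul_le_mul_of_nonneg_left (hv k) (by linarith)
    have c1 := abs_le.1 (c γ1 0 g1)
    have c2 := abs_le.1 (c γ2 1 g2)
    have c3 := abs_le.1 (c γ3 2 g3)
    have d0 : |-(ε1 * γ1 * v 0)| ≤ b := by
      rw [abs_le]
      rcases hε1 with rfl | rfl <;> constructor <;> linarith [c1.1, c1.2]
    have d1 : |ε2 * γ2 * v 1| ≤ b := by
      rw [abs_le]
      rcases hε2 with rfl | rfl <;> constructor <;> linarith [c2.1, c2.2]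
    have d2 : |γ3 * v 2 + (1 + ε1) / 2 * (ε1 * γ1 * v 0) - (1 - ε2) / 2 * (ε2 * γ2 * v 1)| ≤ b := by
      rw [abs_le]
      rcases hε1 with rfl | rfl <;> rcases hε2 with rfl | rfl <;> constructor <;>
        linarith [c1.1, c1.2, c2.1, c2.2, c3.1, c3.2]
    fin_cases k
    exacts [d0, d1, d2]
  refine ⟨bd e hfr.he, bd f hfr.hf, bd g hfr.hg, ?_, ?_, ?_⟩
  · have e1 : det3 (onebox_ph γ1 γ2 γ3 ε1 ε2 e) (onebox_ph γ1 γ2 γ3 ε1 ε2 f)
        (onebox_ph γ1 γ2 γ3 ε1 ε2 g) = -(ε1 * ε2 * (γ1 * γ2 * γ3) * det3 e f g) := by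
      simp [det3, onebox_ph]; ring
    have h12 := one_le_mul_of_one_le_of_one_le (one_le_mul_of_one_le_of_one_le g1 g2) g3
    rw [e1, abs_neg, abs_mul, abs_mul, abs_mul, a1, a2, one_mul, one_mul,
      abs_of_nonneg (by linarith)]
    exact one_le_mul_of_one_le_of_one_le h12 hfr.hdet
  · show 1 ≤ |-(ε1 * γ1 * e 0)|
    rw [abs_neg, abs_mul, abs_mul, a1, one_mul, abs_of_nonneg (by linarith)]
    exact one_le_mul_of_one_le_of_one_le g1 hfr.he0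
  · show 1 ≤ |ε2 * γ2 * e 1|
    rw [abs_mul, abs_mul, a2, one_mul, abs_of_nonneg (by linarith)]
    exact one_le_mul_of_one_le_of_one_le g2 hfr.he1

theorem onebox {ι : Type} (b : ℕ) (hb : 2 ^ 30 ≤ b) (E Δ V Z U1 U2 ε1 ε2 : ℝ) (e f g : V3)
    (hfr : Frame E e f g) (hε1 : ε1 = 1 ∨ ε1 = -1) (hε2 : ε2 = 1 ∨ ε2 = -1) (Ψ : ℝ → ℝ)
    (hΨ : Psi (V * Z) Ψ) (hΔ1 : 1 ≤ Δ) (hΔ : Δ ≤ b) (hV1 : (b : ℝ) ^ 799 ≤ V)
    (hV2 : V ≤ (b : ℝ) ^ 800) (hZ : 24 * (b : ℝ) ^ 400 ≤ Z)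
    (hU1 : 4 * Δ * U1 ≤ (b : ℝ) ^ 400) (hU2 : 4 * Δ * U2 ≤ (b : ℝ) ^ 400)
    (hU1' : 3 * E * (b : ℝ) ^ 400 ≤ b * U1) (hU2' : 3 * E * (b : ℝ) ^ 400 ≤ b * U2)
    (W : Finset ι) (w : ι → V3) (c : ι → ℝ) (hinj : Set.InjOn w W) (hc : ∀ j ∈ W, |c j| ≤ 1)
    (hlat : ∀ j ∈ W, ∃ i n m : ℤ, ∀ k, Δ * w j k = cmb e f g i n m k)
    (hbox : ∀ j ∈ W, U1 ≤ ε1 * w j 0 ∧ ε1 * w j 0 ≤ 2 * U1 ∧ U2 ≤ ε2 * w j 1 ∧
      ε2 * w j 1 ≤ 2 * U2 ∧ |w j 2| ≤ 8 * max U1 U2)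
    (X F : Set ℝ) (hX : MeasurableSet X) (hF : MeasurableSet F) (hX1 : X ⊆ Set.Icc 0 1)
    (hF1 : F ⊆ Set.Icc 0 1) :
    |∑ j ∈ W, c j * ∫ x in X, ∫ y in F, Ψ ((w j 0 * x + w j 1 * y + w j 2) / Z)| ≤
      3 / (b : ℝ) ^ 3 := by
  have hbR : (2 : ℝ) ^ 30 ≤ b := by exact_mod_cast hb
  have b27 : (27 : ℝ) ≤ b := le_trans (by norm_num) hbR
  have b0 : (0 : ℝ) < b := by linarith
  obtain ⟨U, hUd⟩ : ∃ U : ℝ, U = (b : ℝ) ^ 400 := ⟨_, rfl⟩
  have U0 : 0 < U := by rw [hUd]; positivity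
  rw [← hUd] at hZ hU1 hU2 hU1' hU2'
  have E1 : 1 ≤ E := hfr.he0.trans (hfr.he 0)
  have D0 : 0 < Δ := by linarith
  have Z0 : 0 < Z := by linarith
  have V0 : 0 < V := lt_of_lt_of_le (by positivity) hV1
  have gam : ∀ u : ℝ, 4 * Δ * u ≤ U → 3 * E * U ≤ b * u →
      ∃ γ : ℝ, 0 < u ∧ γ * Δ * u = U ∧ 4 ≤ γ ∧ 3 * (γ * Δ * E) ≤ b := by
    intro u h1 h2
    have u0 : 0 < u := by
      have h3 : 0 < 3 * E * U := by positivity
      by_contra h
      have := mul_nonneg b0.le (neg_nonneg.2 (not_lt.1 h))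
      linarith
    have e1 : U / (Δ * u) * Δ * u = U := by field_simp
    refine ⟨U / (Δ * u), u0, e1, (le_div_iff₀ (by positivity)).2 (by linarith), ?_⟩
    refine le_of_mul_le_mul_right ?_ u0
    calc 3 * (U / (Δ * u) * Δ * E) * u = 3 * E * (U / (Δ * u) * Δ * u) := by ring
      _ ≤ _ := by rw [e1]; exact h2
  obtain ⟨γ1, u1, p1, q1, r1⟩ := gam U1 hU1 hU1'
  obtain ⟨γ2, u2, p2, q2, r2⟩ := gam U2 hU2 hU2'
  have s1 : 3 * (γ1 * Δ) ≤ b := by
    have := le_mul_of_one_le_right (by positivity : 0 ≤ γ1 * Δ) E1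
    linarith
  have s2 : 3 * (γ2 * Δ) ≤ b := by
    have := le_mul_of_one_le_right (by positivity : 0 ≤ γ2 * Δ) E1
    linarith
  have t1 : γ1 * E ≤ γ1 * Δ * E := mul_le_mul_of_nonneg_right
    (le_mul_of_one_le_right (by linarith) hΔ1) (by linarith)
  have t2 : γ2 * E ≤ γ2 * Δ * E := mul_le_mul_of_nonneg_right
    (le_mul_of_one_le_right (by linarith) hΔ1) (by linarith)
  obtain ⟨γ3, g3, l1, l2, l3⟩ : ∃ γ3 : ℝ, 1 ≤ γ3 ∧ 4 * γ3 ≤ γ1 ∧ 4 * γ3 ≤ γ2 ∧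
      γ1 * γ2 * Δ ≤ 2 * b * γ3 := by
    rcases le_total γ1 γ2 with h | h
    · refine ⟨γ1 / 4, by linarith only [q1], by linarith only [], by linarith only [h], ?_⟩
      have y1 := mul_le_mul_of_nonneg_left s2 (show 0 ≤ γ1 by linarith only [q1])
      have y2 := mul_nonneg b0.le (show 0 ≤ γ1 by linarith only [q1])
      linarith only [y1, y2]
    · refine ⟨γ2 / 4, by linarith only [q2], by linarith only [h], by linarith only [], ?_⟩
      have y1 := mul_le_mul_of_nonneg_left s1 (show 0 ≤ γ2 by linarith only [q2])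
      have y2 := mul_nonneg b0.le (show 0 ≤ γ2 by linarith only [q2])
      linarith only [y1, y2]
  have g30 : 0 < γ3 := by linarith
  have g10 : 0 < γ1 := by linarith
  have g20 : 0 < γ2 := by linarith
  have l4 : γ3 * Δ * (8 * max U1 U2) ≤ 2 * U := by
    rcases max_choice U1 U2 with h | h <;> rw [h]
    · have := mul_le_mul_of_nonneg_right l1 (by positivity : 0 ≤ Δ * U1)
      linarith only [this, p1]
    · have := mul_le_mul_of_nonneg_right l2 (by positivity : 0 ≤ Δ * U2)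
      linarith only [this, p2]
  have l5 : γ3 * Δ ≤ b := by
    have := mul_le_mul_of_nonneg_right l1 D0.le
    have : 0 ≤ γ3 * Δ := by positivity
    linarith
  have l6 : 1 ≤ γ3 * Δ := one_le_mul_of_one_le_of_one_le g3 hΔ1
  have hfr' := onebox_frame b E γ1 γ2 γ3 ε1 ε2 e f g hfr hε1 hε2 (by linarith) (by linarith) g3
    (by linarith) (by linarith) (by
      have := mul_le_mul_of_nonneg_right (show γ3 ≤ γ1 by linarith) (show 0 ≤ E by linarith)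
      linarith)
  choose! i n m hw using hlat
  obtain ⟨v, hv⟩ : ∃ v : ι → V3, ∀ j, v j = cmb (onebox_ph γ1 γ2 γ3 ε1 ε2 e)
    (onebox_ph γ1 γ2 γ3 ε1 ε2 f) (onebox_ph γ1 γ2 γ3 ε1 ε2 g) (i j) (n j) (m j) := ⟨_, fun _ => rfl⟩
  have v0 : ∀ j ∈ W, v j 0 = -(γ1 * Δ * (ε1 * w j 0)) := fun j hj => by
    rw [hv, onebox_ph_cmb]; show -(ε1 * γ1 * _) = _; rw [← hw j hj]; ring
  have v1 : ∀ j ∈ W, v j 1 = γ2 * Δ * (ε2 * w j 1) := fun j hj => by
    rw [hv, onebox_ph_cmb]; show ε2 * γ2 * _ = _; rw [← hw j hj]; ring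
  have v2 : ∀ j ∈ W, v j 2 = γ3 * Δ * w j 2 - (1 + ε1) / 2 * v j 0 - (1 - ε2) / 2 * v j 1 :=
    fun j hj => by
      rw [v0 j hj, v1 j hj, hv, onebox_ph_cmb]
      show γ3 * _ + (1 + ε1) / 2 * (ε1 * γ1 * _) - (1 - ε2) / 2 * (ε2 * γ2 * _) = _
      rw [← hw j hj, ← hw j hj, ← hw j hj]; ring
  have hom : ∀ j ∈ W, InOm U (v j) := by
    intro j hj
    obtain ⟨o1, o2, o3, o4, o5⟩ := hbox j hj
    have a1 := mul_le_mul_of_nonneg_left o1 (by positivity : 0 ≤ γ1 * Δ)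
    have a2 := mul_le_mul_of_nonneg_left o2 (by positivity : 0 ≤ γ1 * Δ)
    have a3 := mul_le_mul_of_nonneg_left o3 (by positivity : 0 ≤ γ2 * Δ)
    have a4 := mul_le_mul_of_nonneg_left o4 (by positivity : 0 ≤ γ2 * Δ)
    have a5 : |γ3 * Δ * w j 2| ≤ 2 * U := by
      rw [abs_mul, abs_of_nonneg (by positivity)]
      exact (mul_le_mul_of_nonneg_left o5 (by positivity)).trans l4
    have c0 := v0 j hj
    have c1 := v1 j hj
    have c2 := v2 j hj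
    have a6 := abs_le.1 a5
    have d1 : -(2 * U) ≤ v j 0 := by linarith
    have d2 : v j 0 ≤ -U := by linarith
    have d3 : U ≤ v j 1 := by linarith
    have d4 : v j 1 ≤ 2 * U := by linarith
    refine ⟨d1, d2, d3, d4, ?_⟩
    rw [c2, abs_le]
    rcases hε1 with rfl | rfl <;> rcases hε2 with rfl | rfl <;> constructor <;>
      linarith [a6.1, a6.2]
  obtain ⟨τ, hτ⟩ : ∃ τ : ι → ℝ, ∀ j, τ j = v j 1 / (γ3 * Δ * Z) := ⟨_, fun _ => rfl⟩
  obtain ⟨σ, hσ⟩ : ∃ σ : ℝ, σ = V * U / (γ3 * Δ) := ⟨_, rfl⟩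
  have σ1 : (b : ℝ) ^ 1198 ≤ σ := by
    rw [hσ, le_div_iff₀ (by positivity)]
    calc _ ≤ (b : ℝ) ^ 1198 * b := mul_le_mul_of_nonneg_left l5 (by positivity)
      _ = (b : ℝ) ^ 799 * U := by rw [hUd]; ring
      _ ≤ _ := mul_le_mul_of_nonneg_right hV1 U0.le
  have σ0 : 0 < σ := lt_of_lt_of_le (by positivity) σ1
  have hs : ∀ j ∈ W, 0 < τ j ∧ σ ≤ V * Z * τ j ∧ V * Z * τ j ≤ (b : ℝ) ^ 1201 ∧ τ j ≤ 1 / 12 := by
    intro j hj
    obtain ⟨-, -, d3, d4, -⟩ := hom j hj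
    have e1 : V * Z * τ j = V * v j 1 / (γ3 * Δ) := by rw [hτ]; field_simp
    have v10 : 0 < v j 1 := by linarith
    refine ⟨by rw [hτ]; positivity, ?_, ?_, ?_⟩
    · rw [e1, hσ]; gcongr
    · rw [e1]
      calc _ ≤ V * v j 1 := div_le_self (by positivity) l6
        _ ≤ (b : ℝ) ^ 800 * (b * U) := mul_le_mul hV2 (d4.trans
            (mul_le_mul_of_nonneg_right (by linarith only [b27]) U0.le)) v10.le (by positivity)
        _ = _ := by rw [hUd]; ring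
    · rw [hτ, div_le_iff₀ (by positivity)]
      have := le_mul_of_one_le_left Z0.le l6
      linarith
  have ρ0 : (0 : ℝ) < 1 / (b : ℝ) ^ 380 := by positivity
  have ρ1 : 1 / (b : ℝ) ^ 380 ≤ 1 := div_le_self zero_le_one (one_le_pow₀ (by linarith))
  have sρ : ∀ j ∈ W, (b : ℝ) ^ 818 ≤ V * Z * τ j * (1 / (b : ℝ) ^ 380) := fun j hj => by
    rw [mul_one_div, le_div_iff₀ (by positivity), ← pow_add]
    exact σ1.trans (hs j hj).2.1
  have hker : ∀ j ∈ W, ∃ K, Kern (1 / (b : ℝ) ^ 1201) (1 / (b : ℝ) ^ 380) 4 K ∧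
      ∀ z, |τ j * z| ≤ 1 / 2 → |Ψ (τ j * z) - K z / (V * Z * τ j)| ≤
        1 / (V * Z * τ j * (1 / (b : ℝ) ^ 380)) ^ 2 := fun j hj =>
    kern_psi (V * Z) (τ j) _ _ Ψ hΨ (by positivity) (hs j hj).1 (by positivity)
      (by rw [one_div_mul_eq_div, div_le_one (by positivity)]; exact (hs j hj).2.2.1)
      ((one_le_pow₀ (by linarith)).trans (sρ j hj))
      ((mul_le_of_le_one_right (hs j hj).1.le ρ1).trans (by linarith [(hs j hj).2.2.2]))
  choose! K hK hKe using hker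
  have x1 : γ3 / γ1 ≤ 1 := (div_le_one g10).2 (by linarith)
  have x2 : γ3 / γ2 ≤ 1 := (div_le_one g20).2 (by linarith)
  have a1 : |ε1| = 1 := by rcases hε1 with h | h <;> simp [h]
  have a2 : |ε2| = 1 := by rcases hε2 with h | h <;> simp [h]
  have n1 : ε1 ≠ 0 := fun h => by simp [h] at a1
  have n2 : ε2 ≠ 0 := fun h => by simp [h] at a2
  have q1' : ε1 * ε1 = 1 := by rcases hε1 with h | h <;> simp [h]
  have q2' : ε2 * ε2 = 1 := by rcases hε2 with h | h <;> simp [h]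
  obtain ⟨X', hXd⟩ : ∃ X', X' = onebox_im (-ε1 * (γ3 / γ1)) ((1 - -ε1) / 2) X := ⟨_, rfl⟩
  obtain ⟨F', hFd⟩ : ∃ F', F' = onebox_im (ε2 * (γ3 / γ2)) ((1 - ε2) / 2) F := ⟨_, rfl⟩
  have hX' : X' ⊆ Set.Icc 0 1 := hXd ▸ onebox_im_sub _ _ (by positivity) x1
    (by rcases hε1 with h | h <;> simp [h]) hX1
  have hF' : F' ⊆ Set.Icc 0 1 := hFd ▸ onebox_im_sub _ _ (by positivity) x2 hε2 hF1
  obtain ⟨core, hcard⟩ := onebox_core b hb _ _ _ hfr' W i n m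
    (fun j z => c j * (σ / (V * Z * τ j)) * K j z)
    (fun j hj j' hj' e1 e2 e3 => hinj hj hj' (funext fun k =>
      mul_left_cancel₀ D0.ne' (by rw [hw j hj, hw j' hj', e1, e2, e3])))
    (fun j hj => by rw [← hv, ← hUd]; exact hom j hj)
    (fun j hj => onebox_smul (hK j hj) _ (by
      have h0 := σ0.trans_le (hs j hj).2.1
      rw [abs_mul, abs_of_nonneg (div_nonneg σ0.le h0.le)]
      exact mul_le_one₀ (hc j hj) (div_nonneg σ0.le h0.le) ((div_le_one h0).2 (hs j hj).2.1)))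
    X' F' (hXd ▸ onebox_im_meas _ _ hX) (hFd ▸ onebox_im_meas _ _ hF) hX' hF'
  simp only [← hv, integral_const_mul] at core
  have hΨ1 : ∀ θ, |Ψ θ| ≤ 1 := fun θ => (hΨ.bnd θ).trans
    (div_le_self zero_le_one (one_le_pow₀ (le_max_left _ _)))
  have chg : ∀ j ∈ W, ∫ x in X, ∫ y in F, Ψ ((w j 0 * x + w j 1 * y + w j 2) / Z) =
      γ1 / γ3 * (γ2 / γ3) * ∫ x in X', ∫ y in F', Ψ (τ j * (sl (v j) * x + ic (v j) - y)) := by
    intro j hj
    have v10 : 0 < v j 1 := U0.trans_le (hom j hj).2.2.1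
    have k1 := onebox_cov (-ε1 * (γ3 / γ1)) ((1 - -ε1) / 2)
      (mul_ne_zero (neg_ne_zero.2 n1) (by positivity)) hX
      fun x => ∫ y in F', Ψ (τ j * (sl (v j) * x + ic (v j) - y))
    have k2 := fun x : ℝ => onebox_cov (ε2 * (γ3 / γ2)) ((1 - ε2) / 2)
      (mul_ne_zero n2 (by positivity)) hF fun y => Ψ (τ j * (sl (v j) * x + ic (v j) - y))
    rw [abs_inv, abs_mul, abs_neg, a1, one_mul, abs_of_pos (by positivity), inv_div, ← hXd] at k1
    simp only [abs_inv, abs_mul, a2, one_mul, abs_of_pos (div_pos g30 g20), inv_div, ← hFd] at k2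
    rw [mul_comm (γ1 / γ3), mul_assoc, ← k1, ← integral_const_mul]
    refine integral_congr_ae (Eventually.of_forall fun x => ?_)
    simp only
    rw [← k2]
    refine integral_congr_ae (Eventually.of_forall fun y => ?_)
    simp only
    rw [← hΨ.even]
    congr 1
    have e0 : v j 0 * (-ε1 * (γ3 / γ1)) = γ3 * Δ * w j 0 := by
      rw [v0 j hj]
      calc _ = ε1 * ε1 * (γ3 * Δ * w j 0) := by field_simp
        _ = _ := by rw [q1', one_mul]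
    have e1 : v j 1 * (ε2 * (γ3 / γ2)) = γ3 * Δ * w j 1 := by
      rw [v1 j hj]
      calc _ = ε2 * ε2 * (γ3 * Δ * w j 1) := by field_simp
        _ = _ := by rw [q2', one_mul]
    have e2 := v2 j hj
    have e3 : ∀ s t : ℝ, τ j * (sl (v j) * s + ic (v j) - t) =
        -(v j 0 * s + v j 1 * t + v j 2) / (γ3 * Δ * Z) := fun s t => by
      rw [hτ, sl, ic]; field_simp; ring
    rw [e3, eq_div_iff (by positivity)]
    have e4 : -((w j 0 * x + w j 1 * y + w j 2) / Z) * (γ3 * Δ * Z) =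
        -(γ3 * Δ * w j 0 * x + γ3 * Δ * w j 1 * y + γ3 * Δ * w j 2) := by field_simp
    rw [e4, ← e0, ← e1, e2]
    ring
  have app : ∀ j ∈ W, |(∫ x in X', ∫ y in F', Ψ (τ j * (sl (v j) * x + ic (v j) - y))) -
      (V * Z * τ j)⁻¹ * ∫ x in X', ∫ y in F', K j (sl (v j) * x + ic (v j) - y)| ≤
      1 / ((b : ℝ) ^ 818) ^ 2 := by
    intro j hj
    have h0 := σ0.trans_le (hs j hj).2.1
    obtain ⟨d1, d2, d3, d4, d5⟩ := hom j hj
    have := onebox_split (fun z => Ψ (τ j * z)) (fun z => (V * Z * τ j)⁻¹ * K j z)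
      (hΨ.cont.measurable.comp (measurable_id.const_mul _)) ((hK j hj).meas.const_mul _) 1
      ((V * Z * τ j)⁻¹ * (4 / (1 / (b : ℝ) ^ 1201))) (fun _ => hΨ1 _)
      (fun z => by
        rw [abs_mul, abs_of_pos (inv_pos.2 h0)]
        exact mul_le_mul_of_nonneg_left (onebox_bdd (hK j hj) z) (inv_pos.2 h0).le)
      (sl (v j)) (ic (v j)) (1 / ((b : ℝ) ^ 818) ^ 2) (by positivity) hX' hF' fun x hx y hy => by
        obtain ⟨y0, y1⟩ := hF' hy
        obtain ⟨z0, z1⟩ := hX' hx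
        rw [inv_mul_eq_div]
        refine (hKe j hj _ ?_).trans (one_div_le_one_div_of_le (by positivity)
          (pow_le_pow_left₀ (by positivity) (sρ j hj) 2))
        have v10 : 0 < v j 1 := by linarith
        have e3 : τ j * (sl (v j) * x + ic (v j) - y) =
            -(v j 0 * x + v j 1 * y + v j 2) / (γ3 * Δ * Z) := by
          rw [hτ, sl, ic]; field_simp; ring
        have h6 := le_mul_of_one_le_left Z0.le l6
        have h7 := abs_le.1 d5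
        rw [e3, abs_div, abs_neg, abs_of_pos (by positivity : 0 < γ3 * Δ * Z),
          div_le_iff₀ (by positivity), abs_le]
        have w1 := mul_le_mul_of_nonneg_right d1 z0
        have w2 := mul_le_mul_of_nonneg_right d2 z0
        have w3 := mul_le_mul_of_nonneg_right d4 y0
        have w4 := mul_nonneg v10.le y0
        have w5 := mul_le_mul_of_nonneg_left z1 U0.le
        have w6 := mul_le_mul_of_nonneg_left y1 U0.le
        have w7 := mul_nonneg U0.le z0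
        constructor <;> linarith only [h7.1, h7.2, w1, w2, w3, w4, w5, w6, w7, h6, hZ, U0]
    simpa only [integral_const_mul] using this
  obtain ⟨Jc, hJ⟩ : ∃ Jc, Jc = γ1 / γ3 * (γ2 / γ3) := ⟨_, rfl⟩
  have J0 : 0 ≤ Jc := by rw [hJ]; positivity
  have J1 : Jc ≤ b * b := by
    have y1 := le_mul_of_one_le_right g10.le hΔ1
    have y2 := le_mul_of_one_le_right g20.le hΔ1
    rw [hJ]
    exact mul_le_mul ((div_le_self g10.le g3).trans (by linarith))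
      ((div_le_self g20.le g3).trans (by linarith)) (by positivity) b0.le
  have J2 : Jc / σ * (b : ℝ) ^ 1194 ≤ 2 / (b : ℝ) ^ 3 := by
    have e1 : Jc / σ = γ1 * γ2 * Δ / γ3 / (V * U) := by rw [hJ, hσ]; field_simp
    have e2 : γ1 * γ2 * Δ / γ3 ≤ 2 * b := (div_le_iff₀ g30).2 l3
    calc _ ≤ 2 * b / ((b : ℝ) ^ 799 * U) * (b : ℝ) ^ 1194 := by rw [e1]; gcongr
      _ = 2 / (b : ℝ) ^ 4 := by rw [hUd]; field_simp
      _ ≤ _ := div_le_div_of_nonneg_left (by norm_num) (by positivity)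
          (pow_le_pow_right₀ (by linarith) (by norm_num))
  have J3 : Jc * (W.card * (1 / ((b : ℝ) ^ 818) ^ 2)) ≤ 1 / (b : ℝ) ^ 3 := by
    calc _ ≤ b * b * (b * (b : ℝ) ^ 1209 * (1 / ((b : ℝ) ^ 818) ^ 2)) := by
          have := hcard.trans (mul_le_mul_of_nonneg_right b27 (by positivity))
          gcongr
      _ = 1 / (b : ℝ) ^ 424 := by field_simp
      _ ≤ _ := one_div_le_one_div_of_le (by positivity)
          (pow_le_pow_right₀ (by linarith) (by norm_num))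
  have fin : ∑ j ∈ W, c j * ∫ x in X, ∫ y in F, Ψ ((w j 0 * x + w j 1 * y + w j 2) / Z) =
      Jc / σ * ∑ j ∈ W, c j * (σ / (V * Z * τ j)) *
        (∫ x in X', ∫ y in F', K j (sl (v j) * x + ic (v j) - y)) +
      Jc * ∑ j ∈ W, c j * ((∫ x in X', ∫ y in F', Ψ (τ j * (sl (v j) * x + ic (v j) - y))) -
        (V * Z * τ j)⁻¹ * ∫ x in X', ∫ y in F', K j (sl (v j) * x + ic (v j) - y)) := by
    rw [mul_sum, mul_sum, ← sum_add_distrib]
    refine sum_congr rfl fun j hj => ?_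
    have h0 := σ0.trans_le (hs j hj).2.1
    rw [chg j hj, ← hJ]
    generalize V * Z * τ j = s at h0
    field_simp
    ring
  have err := (abs_sum_le_sum_abs _ _).trans (sum_le_card_nsmul W (fun j => |c j *
    ((∫ x in X', ∫ y in F', Ψ (τ j * (sl (v j) * x + ic (v j) - y))) -
      (V * Z * τ j)⁻¹ * ∫ x in X', ∫ y in F', K j (sl (v j) * x + ic (v j) - y))|) _
    fun j hj => by
      rw [abs_mul]
      exact (mul_le_of_le_one_left (abs_nonneg _) (hc j hj)).trans (app j hj))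
  rw [nsmul_eq_mul] at err
  rw [fin]
  refine (abs_add_le _ _).trans ?_
  rw [abs_mul, abs_mul, abs_of_nonneg J0, abs_of_nonneg (div_nonneg J0 σ0.le)]
  have f1 := (mul_le_mul_of_nonneg_left core (div_nonneg J0 σ0.le)).trans J2
  have f2 := (mul_le_mul_of_nonneg_left err J0).trans J3
  have f3 : 3 / (b : ℝ) ^ 3 = 2 / (b : ℝ) ^ 3 + 1 / (b : ℝ) ^ 3 := by ring
  linarith

end Pool.Agent.Lib.MP_e56372_nt.Dim
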