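import Pool.Agent.Lib.MP_e56372_nt.Dim.Defs3
import Pool.Agent.Lib.MP_e56372_nt.Dim.OneBox

set_option autoImplicit false
open MeasureTheory Filter Topology Finset

namespace Pool.Agent.Lib.MP_e56372_nt.Dim
open Pool.Agent.Lib.MP_e56372_nt

theorem bal_dy (H x : ℝ) (I : ℕ) (h1 : H / 2 ^ I < |x|) (h2 : |x| ≤ H) :
    ∃ k : Bool × ℕ, k.2 < I ∧ H / 2 ^ (k.2 + 1) ≤ (if k.1 then 1 else -1) * x ∧
      (if k.1 then 1 else -1) * x ≤ 2 * (H / 2 ^ (k.2 + 1)) ∧ |x| ≤ 2 * (H / 2 ^ (k.2 + 1)) := by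
  induction I with
  | zero => simp at h1; linarith
  | succ I ih =>
    by_cases h : H / 2 ^ I < |x|
    · obtain ⟨k, hk, h'⟩ := ih h
      exact ⟨k, by omega, h'⟩
    · have e : H / 2 ^ I = 2 * (H / 2 ^ (I + 1)) := by rw [pow_succ]; field_simp
      have h3 := (not_lt.1 h).trans_eq e
      rcases le_total 0 x with hx | hx
      · refine ⟨(true, I), by simp, ?_, ?_, h3⟩ <;> rw [abs_of_nonneg hx] at h1 h3 <;>
          simp only [if_true, one_mul] <;> linarith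
      · refine ⟨(false, I), by simp, ?_, ?_, h3⟩ <;> rw [abs_of_nonpos hx] at h1 h3 <;>
          simp only [Bool.false_eq_true, if_false, neg_mul, one_mul] <;> linarith

theorem balanced {ι : Type} (b I : ℕ) (hb : 2 ^ 30 ≤ b) (E Δ V Z H : ℝ) (e f g : V3)
    (hfr : Frame E e f g) (Ψ : ℝ → ℝ) (hΨ : Psi (V * Z) Ψ) (hΔ1 : 1 ≤ Δ) (hΔ : Δ ≤ b)
    (hV1 : (b : ℝ) ^ 799 ≤ V) (hV2 : V ≤ (b : ℝ) ^ 800) (hZ : 24 * (b : ℝ) ^ 400 ≤ Z)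
    (hH : 2 * Δ * H ≤ (b : ℝ) ^ 400) (hH' : 3 * E * (b : ℝ) ^ 400 * 2 ^ I ≤ b * H)
    (W : Finset ι) (w : ι → V3) (c : ι → ℝ) (hinj : Set.InjOn w W) (hc : ∀ j ∈ W, |c j| ≤ 1)
    (hlat : ∀ j ∈ W, ∃ i n m : ℤ, ∀ k, Δ * w j k = cmb e f g i n m k)
    (hbox : ∀ j ∈ W, H / 2 ^ I < |w j 0| ∧ |w j 0| ≤ H ∧ H / 2 ^ I < |w j 1| ∧ |w j 1| ≤ H ∧
      |w j 2| ≤ 4 * max |w j 0| |w j 1|)
    (X F : Set ℝ) (hX : MeasurableSet X) (hF : MeasurableSet F) (hX1 : X ⊆ Set.Icc 0 1)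
    (hF1 : F ⊆ Set.Icc 0 1) :
    |∑ j ∈ W, c j * ∫ x in X, ∫ y in F, Ψ ((w j 0 * x + w j 1 * y + w j 2) / Z)| ≤
      12 * (I : ℝ) ^ 2 / (b : ℝ) ^ 3 := by
  classical
  have b0 : (0 : ℝ) < b := by exact_mod_cast lt_of_lt_of_le (by norm_num) hb
  rcases W.eq_empty_or_nonempty with rfl | ⟨j0, hj0⟩
  · simp only [sum_empty, abs_zero]; positivity
  have H0 : 0 ≤ H := (abs_nonneg _).trans (hbox j0 hj0).2.1
  have ex : ∀ j, ∃ k : (Bool × ℕ) × Bool × ℕ, j ∈ W →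
      (k.1.2 < I ∧ H / 2 ^ (k.1.2 + 1) ≤ (if k.1.1 then 1 else -1) * w j 0 ∧
        (if k.1.1 then 1 else -1) * w j 0 ≤ 2 * (H / 2 ^ (k.1.2 + 1)) ∧
        |w j 0| ≤ 2 * (H / 2 ^ (k.1.2 + 1))) ∧
      (k.2.2 < I ∧ H / 2 ^ (k.2.2 + 1) ≤ (if k.2.1 then 1 else -1) * w j 1 ∧
        (if k.2.1 then 1 else -1) * w j 1 ≤ 2 * (H / 2 ^ (k.2.2 + 1)) ∧
        |w j 1| ≤ 2 * (H / 2 ^ (k.2.2 + 1))) := by
    intro j
    by_cases hj : j ∈ W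
    · obtain ⟨a1, a2, a3, a4, -⟩ := hbox j hj
      obtain ⟨k1, h1⟩ := bal_dy H _ I a1 a2
      obtain ⟨k2, h2⟩ := bal_dy H _ I a3 a4
      exact ⟨(k1, k2), fun _ => ⟨h1, h2⟩⟩
    · exact ⟨default, fun h => absurd h hj⟩
  choose κ hκ using ex
  have u1 : ∀ i : ℕ, 4 * Δ * (H / 2 ^ (i + 1)) ≤ (b : ℝ) ^ 400 := by
    intro i
    have h1 : H / 2 ^ (i + 1) ≤ H / 2 :=
      div_le_div_of_nonneg_left H0 two_pos (le_self_pow₀ one_le_two (by omega))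
    have h2 := mul_le_mul_of_nonneg_left h1 (show 0 ≤ 4 * Δ by linarith)
    linarith
  have u2 : ∀ i : ℕ, i < I → 3 * E * (b : ℝ) ^ 400 ≤ b * (H / 2 ^ (i + 1)) := by
    intro i hi
    have h1 : H / 2 ^ I ≤ H / 2 ^ (i + 1) :=
      div_le_div_of_nonneg_left H0 (by positivity) (pow_le_pow_right₀ one_le_two hi)
    refine le_trans ?_ (mul_le_mul_of_nonneg_left h1 b0.le)
    rw [← mul_div_assoc, le_div_iff₀ (by positivity)]
    exact hH'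
  have sg : ∀ s : Bool, (if s then (1 : ℝ) else -1) = 1 ∨ (if s then (1 : ℝ) else -1) = -1 := by
    intro s; cases s <;> simp
  have hmap : ∀ j ∈ W, κ j ∈ ((univ : Finset Bool) ×ˢ range I) ×ˢ ((univ : Finset Bool) ×ˢ range I) :=
    fun j hj => mem_product.2 ⟨mem_product.2 ⟨mem_univ _, mem_range.2 (hκ j hj).1.1⟩,
      mem_product.2 ⟨mem_univ _, mem_range.2 (hκ j hj).2.1⟩⟩
  rw [← sum_fiberwise_of_maps_to hmap]
  refine (abs_sum_le_sum_abs _ _).trans ((sum_le_sum (g := fun _ => 3 / (b : ℝ) ^ 3)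
    fun k hk => ?_).trans (le_of_eq ?_))
  · obtain ⟨k1, k2⟩ := mem_product.1 hk
    refine onebox b hb E Δ V Z (H / 2 ^ (k.1.2 + 1)) (H / 2 ^ (k.2.2 + 1)) _ _ e f g hfr
      (sg k.1.1) (sg k.2.1) Ψ hΨ hΔ1 hΔ hV1 hV2 hZ (u1 _) (u1 _)
      (u2 _ (mem_range.1 (mem_product.1 k1).2)) (u2 _ (mem_range.1 (mem_product.1 k2).2))
      (W.filter fun j => κ j = k) w c (hinj.mono (coe_subset.2 (filter_subset _ _)))
      (fun j hj => hc j (mem_filter.1 hj).1) (fun j hj => hlat j (mem_filter.1 hj).1)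
      (fun j hj => ?_) X F hX hF hX1 hF1
    obtain ⟨hj1, rfl⟩ := mem_filter.1 hj
    obtain ⟨⟨-, a1, a2, a3⟩, -, a4, a5, a6⟩ := hκ j hj1
    refine ⟨a1, a2, a4, a5, (hbox j hj1).2.2.2.2.trans ?_⟩
    have m1 := le_max_left (H / 2 ^ ((κ j).1.2 + 1)) (H / 2 ^ ((κ j).2.2 + 1))
    have m2 := le_max_right (H / 2 ^ ((κ j).1.2 + 1)) (H / 2 ^ ((κ j).2.2 + 1))
    have m3 : max |w j 0| |w j 1| ≤
        2 * max (H / 2 ^ ((κ j).1.2 + 1)) (H / 2 ^ ((κ j).2.2 + 1)) :=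
      max_le (by linarith) (by linarith)
    linarith
  · simp only [sum_const, card_product, card_univ, Fintype.card_bool, card_range, nsmul_eq_mul]
    push_cast
    ring

end Pool.Agent.Lib.MP_e56372_nt.Dim
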