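import Pool.Agent.Lib.MP_e56372_nt.Dim.Defs

set_option autoImplicit false
open MeasureTheory Filter Topology Finset

namespace Pool.Agent.Lib.MP_e56372_nt.Dim
open Pool.Agent.Lib.MP_e56372_nt

theorem cov_cramer (e f g z : V3) (k : Fin 3) :
    det3 e f g * z k = det3 z f g * e k + det3 e z g * f k + det3 e f z * g k := by
  fin_cases k <;> simp [det3] <;> ring

theorem cov_mul3 {a b c A B C : ℝ} (ha : |a| ≤ A) (hb : |b| ≤ B) (hc : |c| ≤ C) :
    |a * b * c| ≤ A * B * C := by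
  rw [abs_mul, abs_mul]
  have hA : 0 ≤ A := (abs_nonneg _).trans ha
  have hB : 0 ≤ B := (abs_nonneg _).trans hb
  exact mul_le_mul (mul_le_mul ha hb (abs_nonneg _) hA) hc (abs_nonneg _) (mul_nonneg hA hB)

theorem cov_det_le (u v w : V3) (A B C : ℝ) (hu : ∀ k, |u k| ≤ A) (hv : ∀ k, |v k| ≤ B)
    (hw : ∀ k, |w k| ≤ C) : |det3 u v w| ≤ 6 * (A * B * C) := by
  have h1 := abs_le.1 (cov_mul3 (hu 0) (hv 1) (hw 2))
  have h2 := abs_le.1 (cov_mul3 (hu 0) (hv 2) (hw 1))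
  have h3 := abs_le.1 (cov_mul3 (hu 1) (hv 0) (hw 2))
  have h4 := abs_le.1 (cov_mul3 (hu 1) (hv 2) (hw 0))
  have h5 := abs_le.1 (cov_mul3 (hu 2) (hv 0) (hw 1))
  have h6 := abs_le.1 (cov_mul3 (hu 2) (hv 1) (hw 0))
  have e : det3 u v w = u 0 * v 1 * w 2 - u 0 * v 2 * w 1 - u 1 * v 0 * w 2 + u 1 * v 2 * w 0 +
      u 2 * v 0 * w 1 - u 2 * v 1 * w 0 := by unfold det3; ring
  rw [e, abs_le]
  constructor <;> linarith [h1.1, h1.2, h2.1, h2.2, h3.1, h3.2, h4.1, h4.2, h5.1, h5.2, h6.1, h6.2]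

theorem cov_half {x a E : ℝ} (ha : |a| ≤ E) : |((round x : ℤ) - x) * a| ≤ 1 / 2 * E := by
  rw [abs_mul, abs_sub_comm]
  exact mul_le_mul (abs_sub_round x) ha (abs_nonneg _) (by norm_num)

theorem cov (e f g : V3) (E : ℝ) (he : ∀ k, |e k| ≤ E) (hf : ∀ k, |f k| ≤ E) (hg : ∀ k, |g k| ≤ E)
    (hd : det3 e f g ≠ 0) (z : V3) :
    ∃ i n m : ℤ, ∀ k, |cmb e f g i n m k - z k| ≤ 3 / 2 * E := by
  refine ⟨round (det3 z f g / det3 e f g), round (det3 e z g / det3 e f g),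
    round (det3 e f z / det3 e f g), fun k => ?_⟩
  have hz : z k = det3 z f g / det3 e f g * e k + det3 e z g / det3 e f g * f k +
      det3 e f z / det3 e f g * g k := by
    have := cov_cramer e f g z k
    field_simp
    linarith
  have h1 := abs_le.1 (cov_half (x := det3 z f g / det3 e f g) (he k))
  have h2 := abs_le.1 (cov_half (x := det3 e z g / det3 e f g) (hf k))
  have h3 := abs_le.1 (cov_half (x := det3 e f z / det3 e f g) (hg k))
  unfold cmb
  rw [abs_le]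
  constructor <;> nlinarith [h1.1, h1.2, h2.1, h2.2, h3.1, h3.2]

theorem grid_count (e f g : V3) (E : ℝ) (hE : 0 < E) (he : ∀ k, |e k| ≤ E) (hf : ∀ k, |f k| ≤ E)
    (hg : ∀ k, |g k| ≤ E) (hd : det3 e f g ≠ 0) (z : V3) (N : Fin 3 → ℕ) :
    ∃ S : Finset (ℤ × ℤ × ℤ), S.card = N 0 * N 1 * N 2 ∧ ∀ p ∈ S, ∀ k,
      z k ≤ cmb e f g p.1 p.2.1 p.2.2 k ∧ cmb e f g p.1 p.2.1 p.2.2 k ≤ z k + 4 * E * N k := by
  classical
  have h := fun a : Fin 3 → ℕ => cov e f g E he hf hg hd (fun k => z k + 4 * E * (a k + 1 / 2))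
  choose i n m h using h
  refine ⟨(Fintype.piFinset fun k => range (N k)).image fun a => (i a, n a, m a), ?_, ?_⟩
  · rw [card_image_of_injective, Fintype.card_piFinset, Fin.prod_univ_three]
    · simp
    · intro a b hab
      have e1 : i a = i b := (Prod.mk.inj hab).1
      have e2 : n a = n b := (Prod.mk.inj (Prod.mk.inj hab).2).1
      have e3 : m a = m b := (Prod.mk.inj (Prod.mk.inj hab).2).2
      funext k
      have h1 := abs_le.1 (h a k)
      have h2 := abs_le.1 (h b k)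
      rw [e1, e2, e3] at h1
      have k1 : (a k : ℝ) < b k + 1 := by
        by_contra hc
        push Not at hc
        nlinarith [h1.1, h1.2, h2.1, h2.2]
      have k2 : (b k : ℝ) < a k + 1 := by
        by_contra hc
        push Not at hc
        nlinarith [h1.1, h1.2, h2.1, h2.2]
      have k1' : a k < b k + 1 := by exact_mod_cast k1
      have k2' : b k < a k + 1 := by exact_mod_cast k2
      omega
  · intro p hp k
    obtain ⟨a, ha, rfl⟩ := mem_image.1 hp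
    have h0 : a k + 1 ≤ N k := mem_range.1 (Fintype.mem_piFinset.1 ha k)
    have h0' : (a k : ℝ) + 1 ≤ N k := by exact_mod_cast h0
    have h1 := abs_le.1 (h a k)
    have h2 : (0 : ℝ) ≤ a k := Nat.cast_nonneg _
    constructor
    · change z k ≤ cmb e f g (i a) (n a) (m a) k
      nlinarith [h1.1, h1.2]
    · change cmb e f g (i a) (n a) (m a) k ≤ _
      nlinarith [h1.1, h1.2]

theorem cramer_bound (b : ℝ) (e f g : V3) (h : Frame b e f g) (i n m : ℤ) (W : ℝ)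
    (hW : ∀ k, |cmb e f g i n m k| ≤ W) :
    |(i : ℝ)| ≤ 6 * b ^ 2 * W ∧ |(n : ℝ)| ≤ 6 * b ^ 2 * W ∧ |(m : ℝ)| ≤ 6 * b ^ 2 * W := by
  have key : ∀ x D : ℝ, x * det3 e f g = D → |D| ≤ 6 * b ^ 2 * W → |x| ≤ 6 * b ^ 2 * W := by
    intro x D hx hD
    rw [← hx, abs_mul] at hD
    exact (le_mul_of_one_le_right (abs_nonneg _) h.hdet).trans hD
  refine ⟨key _ (det3 (cmb e f g i n m) f g) ?_ ?_, key _ (det3 e (cmb e f g i n m) g) ?_ ?_,
    key _ (det3 e f (cmb e f g i n m)) ?_ ?_⟩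
  · unfold det3 cmb; ring
  · exact (cov_det_le _ _ _ _ _ _ hW h.hf h.hg).trans_eq (by ring)
  · unfold det3 cmb; ring
  · exact (cov_det_le _ _ _ _ _ _ h.he hW h.hg).trans_eq (by ring)
  · unfold det3 cmb; ring
  · exact (cov_det_le _ _ _ _ _ _ h.he h.hf hW).trans_eq (by ring)

end Pool.Agent.Lib.MP_e56372_nt.Dim
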