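import Pool.Agent.Lib.MP_e56372_nt.Dim.PL
import Pool.Agent.Lib.MP_e56372_nt.Dim.Cov

set_option autoImplicit false
open MeasureTheory

namespace Pool.Agent.Lib.MP_e56372_nt.Dim

theorem bas_det (ξ ζ : ℝ) (s t a1 b1 r1 a2 b2 r2 a3 b3 r3 : ℤ) :
    det3 (lat ξ ζ s t a1 b1 r1) (lat ξ ζ s t a2 b2 r2) (lat ξ ζ s t a3 b3 r3) =
      ((a1 * (b2 * r3 - r2 * b3) - b1 * (a2 * r3 - r2 * a3) + r1 * (a2 * b3 - b2 * a3) : ℤ) : ℝ) := by
  have h1 : (2 : ℝ) ^ s ≠ 0 := zpow_ne_zero _ two_ne_zero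
  have h2 : (2 : ℝ) ^ t ≠ 0 := zpow_ne_zero _ two_ne_zero
  simp only [det3, lat, Matrix.cons_val_zero, Matrix.cons_val_one, Matrix.cons_val_two,
    Matrix.head_cons, Matrix.tail_cons, zpow_add₀ (two_ne_zero (α := ℝ))]
  push_cast
  field_simp
  ring

theorem bas_cmb (ξ ζ : ℝ) (s t a1 b1 r1 a2 b2 r2 a3 b3 r3 i n m : ℤ) :
    cmb (lat ξ ζ s t a1 b1 r1) (lat ξ ζ s t a2 b2 r2) (lat ξ ζ s t a3 b3 r3) i n m =
      lat ξ ζ s t (i * a1 + n * a2 + m * a3) (i * b1 + n * b2 + m * b3)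
        (i * r1 + n * r2 + m * r3) := by
  funext k
  fin_cases k <;> simp [cmb, lat] <;> ring

theorem bas_sep {ξ ζ : ℝ} {s t x : ℤ} (h : ¬ Short ξ ζ s t x) {a b r a' b' r' : ℤ}
    (hne : a ≠ a' ∨ b ≠ b') :
    ∃ k, (2 : ℝ) ^ (-x) < |lat ξ ζ s t a b r k - lat ξ ζ s t a' b' r' k| := by
  by_contra hc
  push Not at hc
  have h1 : (0 : ℝ) < (2 : ℝ) ^ s := zpow_pos two_pos _
  have h2 : (0 : ℝ) < (2 : ℝ) ^ t := zpow_pos two_pos _
  have h3 : (0 : ℝ) < (2 : ℝ) ^ (s + t) := zpow_pos two_pos _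
  have k0 : |(a : ℝ) / (2 : ℝ) ^ s - a' / (2 : ℝ) ^ s| ≤ (2 : ℝ) ^ (-x) := hc 0
  have k1 : |(b : ℝ) / (2 : ℝ) ^ t - b' / (2 : ℝ) ^ t| ≤ (2 : ℝ) ^ (-x) := hc 1
  have k2 : |(2 : ℝ) ^ (s + t) * (a * ξ + b * ζ + r) - (2 : ℝ) ^ (s + t) * (a' * ξ + b' * ζ + r')|
      ≤ (2 : ℝ) ^ (-x) := hc 2
  rw [← sub_div, abs_div, abs_of_pos h1, div_le_iff₀ h1] at k0
  rw [← sub_div, abs_div, abs_of_pos h2, div_le_iff₀ h2] at k1
  rw [← mul_sub, abs_mul, abs_of_pos h3, mul_comm, ← le_div_iff₀ h3] at k2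
  refine h ⟨a - a', b - b', r - r', ?_, ?_, ?_, ?_⟩
  · rcases hne with e | e
    · exact Or.inl (sub_ne_zero.2 e)
    · exact Or.inr (Or.inl (sub_ne_zero.2 e))
  · rw [sub_eq_add_neg s, zpow_add₀ two_ne_zero, mul_comm]; push_cast; exact k0
  · rw [sub_eq_add_neg t, zpow_add₀ two_ne_zero, mul_comm]; push_cast; exact k1
  · rw [show -(s + t + x) = -x - (s + t) by ring, zpow_sub₀ two_ne_zero]
    refine le_trans (le_of_eq ?_) k2
    congr 1; push_cast; ring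

/-- many lattice vectors in a cube -/
theorem bas_many (ξ ζ : ℝ) (s t j : ℕ) (hj : j ≤ s + t) :
    ∃ (F : Finset (ℕ × ℕ)) (a b r : ℕ × ℕ → ℤ), (2 ^ j) ^ 3 ≤ F.card ∧
      (∀ p ∈ F, ∀ q ∈ F, p ≠ q → a p ≠ a q ∨ b p ≠ b q) ∧
      ∀ p ∈ F, ∀ k, |lat ξ ζ s t (a p) (b p) (r p) k| ≤ (2 : ℝ) ^ j := by
  obtain ⟨c, hc⟩ := Nat.exists_eq_add_of_le hj
  let θ : ℕ × ℕ → ℝ := fun p => p.1 * ξ + p.2 * ζ
  let cell : ℕ × ℕ → ℕ := fun p => ⌊(2 : ℝ) ^ c * Int.fract (θ p)⌋₊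
  have hpos : (0 : ℝ) < (2 : ℝ) ^ c := by positivity
  have hmap : ∀ p ∈ Finset.range (2 ^ j * 2 ^ s) ×ˢ Finset.range (2 ^ j * 2 ^ t),
      cell p ∈ Finset.range (2 ^ c) := by
    intro p _
    rw [Finset.mem_range]
    refine (Nat.floor_lt (mul_nonneg hpos.le (Int.fract_nonneg _))).2 ?_
    push_cast
    have := Int.fract_lt_one (θ p)
    nlinarith
  have hcard : (Finset.range (2 ^ c)).card * (2 ^ j) ^ 3 ≤
      (Finset.range (2 ^ j * 2 ^ s) ×ˢ Finset.range (2 ^ j * 2 ^ t)).card := by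
    rw [Finset.card_product, Finset.card_range, Finset.card_range, Finset.card_range]
    have : 2 ^ s * 2 ^ t = 2 ^ j * 2 ^ c := by rw [← pow_add, ← pow_add, hc]
    refine le_of_eq ?_
    calc 2 ^ c * (2 ^ j) ^ 3 = 2 ^ j * 2 ^ j * (2 ^ j * 2 ^ c) := by ring
      _ = 2 ^ j * 2 ^ s * (2 ^ j * 2 ^ t) := by rw [← this]; ring
  obtain ⟨y, -, hy⟩ := Finset.exists_le_card_fiber_of_mul_le_card_of_maps_to hmap
    ⟨0, Finset.mem_range.2 (by positivity)⟩ hcard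
  obtain ⟨p0, hp0⟩ := Finset.card_pos.1 (lt_of_lt_of_le (by positivity) hy)
  refine ⟨_, fun p => (p.1 : ℤ) - p0.1, fun p => (p.2 : ℤ) - p0.2,
    fun p => ⌊θ p0⌋ - ⌊θ p⌋, hy, fun p _ q _ hne => ?_, fun p hp k => ?_⟩
  · by_contra hcon
    push Not at hcon
    exact hne (Prod.ext (by have := hcon.1; omega) (by have := hcon.2; omega))
  · simp only [Finset.mem_filter, Finset.mem_product, Finset.mem_range] at hp hp0
    obtain ⟨⟨a1, a2⟩, a3⟩ := hp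
    obtain ⟨⟨b1, b2⟩, b3⟩ := hp0
    have a1' : (p.1 : ℝ) < 2 ^ j * 2 ^ s := by exact_mod_cast a1
    have a2' : (p.2 : ℝ) < 2 ^ j * 2 ^ t := by exact_mod_cast a2
    have b1' : (p0.1 : ℝ) < 2 ^ j * 2 ^ s := by exact_mod_cast b1
    have b2' : (p0.2 : ℝ) < 2 ^ j * 2 ^ t := by exact_mod_cast b2
    have n1 : (0 : ℝ) ≤ p.1 := Nat.cast_nonneg _
    have n2 : (0 : ℝ) ≤ p.2 := Nat.cast_nonneg _
    have n3 : (0 : ℝ) ≤ p0.1 := Nat.cast_nonneg _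
    have n4 : (0 : ℝ) ≤ p0.2 := Nat.cast_nonneg _
    have h1 : (0 : ℝ) < (2 : ℝ) ^ s := by positivity
    have h2 : (0 : ℝ) < (2 : ℝ) ^ t := by positivity
    fin_cases k
    · show |(((p.1 : ℤ) - p0.1 : ℤ) : ℝ) / (2 : ℝ) ^ (s : ℤ)| ≤ _
      rw [zpow_natCast, abs_div, abs_of_pos h1, div_le_iff₀ h1, abs_le]
      push_cast
      constructor <;> linarith
    · show |(((p.2 : ℤ) - p0.2 : ℤ) : ℝ) / (2 : ℝ) ^ (t : ℤ)| ≤ _
      rw [zpow_natCast, abs_div, abs_of_pos h2, div_le_iff₀ h2, abs_le]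
      push_cast
      constructor <;> linarith
    · show |(2 : ℝ) ^ ((s : ℤ) + t) * ((((p.1 : ℤ) - p0.1 : ℤ) : ℝ) * ξ +
        (((p.2 : ℤ) - p0.2 : ℤ) : ℝ) * ζ + ((⌊θ p0⌋ - ⌊θ p⌋ : ℤ) : ℝ))| ≤ _
      have e1 : (((p.1 : ℤ) - p0.1 : ℤ) : ℝ) * ξ + (((p.2 : ℤ) - p0.2 : ℤ) : ℝ) * ζ +
          ((⌊θ p0⌋ - ⌊θ p⌋ : ℤ) : ℝ) = Int.fract (θ p) - Int.fract (θ p0) := by
        simp only [Int.fract, θ]; push_cast; ring
      have e2 : (2 : ℝ) ^ ((s : ℤ) + t) = 2 ^ j * 2 ^ c := by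
        rw [← Nat.cast_add, zpow_natCast, hc, pow_add]
      have u1 := Nat.floor_le (mul_nonneg hpos.le (Int.fract_nonneg (θ p)))
      have u2 := Nat.lt_floor_add_one ((2 : ℝ) ^ c * Int.fract (θ p))
      have u3 := Nat.floor_le (mul_nonneg hpos.le (Int.fract_nonneg (θ p0)))
      have u4 := Nat.lt_floor_add_one ((2 : ℝ) ^ c * Int.fract (θ p0))
      have a3' : ⌊(2 : ℝ) ^ c * Int.fract (θ p)⌋₊ = y := a3
      have b3' : ⌊(2 : ℝ) ^ c * Int.fract (θ p0)⌋₊ = y := b3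
      rw [a3'] at u1 u2
      rw [b3'] at u3 u4
      have e3 : |(2 : ℝ) ^ c * (Int.fract (θ p) - Int.fract (θ p0))| ≤ 1 := by
        rw [mul_sub, abs_le]; constructor <;> linarith
      rw [e1, e2, mul_assoc, abs_mul, abs_of_pos (by positivity : (0 : ℝ) < 2 ^ j)]
      exact mul_le_of_le_one_right (by positivity) e3

theorem bas_triple (ξ ζ : ℝ) (s t lam : ℕ) (hst : 2 * lam + 7 ≤ s + t)
    (h : ¬ Short ξ ζ s t lam) :
    ∃ a1 b1 r1 a2 b2 r2 a3 b3 r3 : ℤ,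
      (∀ k, |lat ξ ζ s t a1 b1 r1 k| ≤ (2 : ℝ) ^ (2 * lam + 7)) ∧
      (∀ k, |lat ξ ζ s t a2 b2 r2 k| ≤ (2 : ℝ) ^ (2 * lam + 7)) ∧
      (∀ k, |lat ξ ζ s t a3 b3 r3 k| ≤ (2 : ℝ) ^ (2 * lam + 7)) ∧
      det3 (lat ξ ζ s t a1 b1 r1) (lat ξ ζ s t a2 b2 r2) (lat ξ ζ s t a3 b3 r3) ≠ 0 := by
  classical
  obtain ⟨F, a, b, r, hF, hab, hb⟩ := bas_many ξ ζ s t (2 * lam + 7) hst
  by_contra hc
  push Not at hc
  let v : ℕ × ℕ → V3 := fun p => lat ξ ζ s t (a p) (b p) (r p)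
  have hl : (0 : ℝ) < (2 : ℝ) ^ (-(lam : ℤ)) := zpow_pos two_pos _
  have hinj : Set.InjOn v F := by
    intro p hp q hq e
    by_contra hne
    obtain ⟨k, hk⟩ := bas_sep h (r := r p) (r' := r q) (hab p hp q hq hne)
    have : v p k = v q k := congrFun e k
    rw [show lat ξ ζ s t (a p) (b p) (r p) k - lat ξ ζ s t (a q) (b q) (r q) k = 0 from
      sub_eq_zero.2 this, abs_zero] at hk
    exact absurd hk (not_lt.2 hl.le)
  have key := card_coplanar_le (F.image v) ((2 : ℝ) ^ (2 * lam + 7)) _ hl (by positivity)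
    (fun w hw k => by
      obtain ⟨p, hp, rfl⟩ := Finset.mem_image.1 hw
      exact hb p hp k)
    (fun u hu v' hv w hw => by
      obtain ⟨p, hp, rfl⟩ := Finset.mem_image.1 hu
      obtain ⟨q, hq, rfl⟩ := Finset.mem_image.1 hv
      obtain ⟨o, ho, rfl⟩ := Finset.mem_image.1 hw
      exact hc _ _ _ _ _ _ _ _ _ (hb p hp) (hb q hq) (hb o ho))
    (fun u hu v' hv hne => by
      obtain ⟨p, hp, rfl⟩ := Finset.mem_image.1 hu
      obtain ⟨q, hq, rfl⟩ := Finset.mem_image.1 hv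
      exact bas_sep h (hab p hp q hq fun e => hne (by rw [e])))
  rw [Finset.card_image_of_injOn hinj] at key
  have hF' : (((2 : ℝ) ^ (2 * lam + 7)) ^ 3) ≤ (F.card : ℝ) := by exact_mod_cast hF
  rw [zpow_neg, zpow_natCast, div_inv_eq_mul] at key
  set y : ℝ := (2 : ℝ) ^ lam with hy
  have y1 : (1 : ℝ) ≤ y := one_le_pow₀ one_le_two
  have e : (2 : ℝ) ^ (2 * lam + 7) = 128 * y ^ 2 := by
    rw [pow_add, mul_comm 2 lam, pow_mul]; ring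
  rw [e] at key hF'
  have y3 : (1 : ℝ) ≤ y ^ 3 := one_le_pow₀ y1
  have e1 : (128 * y ^ 2) ^ 3 = 2097152 * (y ^ 3) ^ 2 := by ring
  have e2 : 4 * (128 * y ^ 2) * y + 1 = 512 * y ^ 3 + 1 := by ring
  rw [e1] at hF'
  rw [e2] at key
  nlinarith

theorem frame_of_not_short (ξ ζ : ℝ) (s t lam : ℕ) (hlam : 10 ≤ lam) (hst : 2 * lam + 7 ≤ s + t)
    (h : ¬ Short ξ ζ s t lam) :
    ∃ a1 b1 r1 a2 b2 r2 a3 b3 r3 : ℤ, Frame ((8 : ℝ) ^ lam) (lat ξ ζ s t a1 b1 r1)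
      (lat ξ ζ s t a2 b2 r2) (lat ξ ζ s t a3 b3 r3) := by
  obtain ⟨a1, b1, r1, a2, b2, r2, a3, b3, r3, h1, h2, h3, hd⟩ := bas_triple ξ ζ s t lam hst h
  set E : ℝ := (2 : ℝ) ^ (2 * lam + 7) with hE
  have E1 : (1 : ℝ) ≤ E := one_le_pow₀ one_le_two
  have E8 : 8 * E ≤ (8 : ℝ) ^ lam := by
    have : (8 : ℝ) * E = 2 ^ (2 * lam + 10) := by rw [hE]; ring
    rw [this, show (8 : ℝ) = 2 ^ 3 by norm_num, ← pow_mul]
    exact pow_le_pow_right₀ one_le_two (by omega)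
  obtain ⟨i, n, m, hz⟩ := cov _ _ _ E h1 h2 h3 hd ![3 * E, 3 * E, 0]
  have hD : (1 : ℝ) ≤
      |det3 (lat ξ ζ s t a1 b1 r1) (lat ξ ζ s t a2 b2 r2) (lat ξ ζ s t a3 b3 r3)| := by
    rw [bas_det] at hd ⊢
    exact_mod_cast Int.one_le_abs (by exact_mod_cast hd)
  set u := lat ξ ζ s t a1 b1 r1 with hu
  set v := lat ξ ζ s t a2 b2 r2 with hv
  set w := lat ξ ζ s t a3 b3 r3 with hw
  have z0 : |cmb u v w i n m 0 - 3 * E| ≤ 3 / 2 * E := hz 0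
  have z1 : |cmb u v w i n m 1 - 3 * E| ≤ 3 / 2 * E := hz 1
  have z2 : |cmb u v w i n m 2 - 0| ≤ 3 / 2 * E := hz 2
  rw [abs_le] at z0 z1 z2
  have c0 : 1 ≤ |cmb u v w i n m 0| := le_trans (by linarith [z0.1]) (le_abs_self _)
  have c1 : 1 ≤ |cmb u v w i n m 1| := le_trans (by linarith [z1.1]) (le_abs_self _)
  have cb : ∀ k, |cmb u v w i n m k| ≤ (8 : ℝ) ^ lam := by
    intro k
    fin_cases k
    · show |cmb u v w i n m 0| ≤ _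
      rw [abs_le]; constructor <;> linarith [z0.1, z0.2]
    · show |cmb u v w i n m 1| ≤ _
      rw [abs_le]; constructor <;> linarith [z1.1, z1.2]
    · show |cmb u v w i n m 2| ≤ _
      rw [abs_le]; constructor <;> linarith [z2.1, z2.2]
  have g1 : ∀ k, |u k| ≤ (8 : ℝ) ^ lam := fun k => (h1 k).trans (by linarith)
  have g2 : ∀ k, |v k| ≤ (8 : ℝ) ^ lam := fun k => (h2 k).trans (by linarith)
  have g3 : ∀ k, |w k| ≤ (8 : ℝ) ^ lam := fun k => (h3 k).trans (by linarith)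
  have big : ∀ j : ℤ, j ≠ 0 → (1 : ℝ) ≤ |(j : ℝ) * det3 u v w| := by
    intro j hj
    have : (1 : ℝ) ≤ |(j : ℝ)| := by exact_mod_cast Int.one_le_abs hj
    rw [abs_mul]
    exact one_le_mul_of_one_le_of_one_le this hD
  have ec := bas_cmb ξ ζ s t a1 b1 r1 a2 b2 r2 a3 b3 r3 i n m
  rw [← hu, ← hv, ← hw] at ec
  by_cases hi : i = 0
  · by_cases hn : n = 0
    · have hm : m ≠ 0 := by
        rintro rfl
        subst hi hn
        simp [cmb] at c0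
        linarith
      refine ⟨i * a1 + n * a2 + m * a3, i * b1 + n * b2 + m * b3, i * r1 + n * r2 + m * r3,
        a1, b1, r1, a2, b2, r2, ?_⟩
      rw [← ec]
      refine ⟨cb, g1, g2, ?_, c0, c1⟩
      refine (big m hm).trans_eq (congrArg _ ?_)
      simp only [det3, cmb]; ring
    · refine ⟨i * a1 + n * a2 + m * a3, i * b1 + n * b2 + m * b3, i * r1 + n * r2 + m * r3,
        a3, b3, r3, a1, b1, r1, ?_⟩
      rw [← ec]
      refine ⟨cb, g3, g1, ?_, c0, c1⟩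
      refine (big n hn).trans_eq (congrArg _ ?_)
      simp only [det3, cmb]; ring
  · refine ⟨i * a1 + n * a2 + m * a3, i * b1 + n * b2 + m * b3, i * r1 + n * r2 + m * r3,
      a2, b2, r2, a3, b3, r3, ?_⟩
    rw [← ec]
    refine ⟨cb, g2, g3, ?_, c0, c1⟩
    refine (big i hi).trans_eq (congrArg _ ?_)
    simp only [det3, cmb]; ring

end Pool.Agent.Lib.MP_e56372_nt.Dim
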