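import Pool.Agent.Lib.MP_e56372_nt.Dim.Defs3
import Pool.Agent.Lib.MP_e56372_nt.Dim.Bas

set_option autoImplicit false
open MeasureTheory Filter Topology Finset

namespace Pool.Agent.Lib.MP_e56372_nt.Dim
open Pool.Agent.Lib.MP_e56372_nt

theorem boxc_close {x y lam : ℝ} (hl : 0 < lam) (hx : 0 ≤ x) (hy : 0 ≤ y)
    (h : ⌊x / lam⌋₊ = ⌊y / lam⌋₊) : |x - y| < lam := by
  have a1 := Nat.floor_le (div_nonneg hx hl.le)
  have a2 := Nat.floor_le (div_nonneg hy hl.le)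
  have a3 := Nat.lt_floor_add_one (x / lam)
  have a4 := Nat.lt_floor_add_one (y / lam)
  rw [h] at a1 a3
  have b1 : x / lam - y / lam < 1 := by linarith
  have b2 : y / lam - x / lam < 1 := by linarith
  rw [← sub_div, div_lt_one hl] at b1 b2
  exact abs_lt.2 ⟨by linarith, b1⟩

theorem box_count (S : Finset V3) (lam : ℝ) (lo len : V3) (hl : 0 < lam) (hlen : ∀ k, 0 ≤ len k)
    (hb : ∀ w ∈ S, ∀ k, lo k ≤ w k ∧ w k ≤ lo k + len k) (hs : SepV S lam) :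
    (S.card : ℝ) ≤ (len 0 / lam + 1) * (len 1 / lam + 1) * (len 2 / lam + 1) := by
  classical
  have h1 : S.card ≤ (Fintype.piFinset fun k : Fin 3 => range (⌊len k / lam⌋₊ + 1)).card := by
    refine card_le_card_of_injOn (fun w k => ⌊(w k - lo k) / lam⌋₊) ?_ ?_
    · intro w hw
      rw [mem_coe, Fintype.mem_piFinset]
      intro k
      rw [mem_range, Nat.lt_succ_iff]
      refine Nat.floor_le_floor (div_le_div_of_nonneg_right ?_ hl.le)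
      have := (hb w hw k).2
      linarith
    · intro u hu v hv h
      by_contra hne
      obtain ⟨k, hk⟩ := hs u hu v hv hne
      have h2 := boxc_close hl (sub_nonneg.2 (hb u hu k).1) (sub_nonneg.2 (hb v hv k).1)
        (congrFun h k)
      rw [sub_sub_sub_cancel_right] at h2
      linarith
  rw [Fintype.card_piFinset, Fin.prod_univ_three, card_range, card_range, card_range] at h1
  have h2 : (S.card : ℝ) ≤ ((⌊len 0 / lam⌋₊ : ℝ) + 1) * ((⌊len 1 / lam⌋₊ : ℝ) + 1) *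
      ((⌊len 2 / lam⌋₊ : ℝ) + 1) := by exact_mod_cast h1
  have h3 : ∀ k, (⌊len k / lam⌋₊ : ℝ) ≤ len k / lam := fun k =>
    Nat.floor_le (div_nonneg (hlen k) hl.le)
  have h4 : ∀ k, 0 ≤ len k / lam := fun k => div_nonneg (hlen k) hl.le
  refine h2.trans ?_
  have := h3 0
  have := h3 1
  have := h3 2
  have := h4 0
  have := h4 1
  gcongr

theorem boxc_cramer (e f g w : V3) (k : Fin 3) :
    det3 e f g * w k = det3 w f g * e k + det3 e w g * f k + det3 e f w * g k := by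
  fin_cases k <;> simp [det3] <;> ring

theorem cramer_int (ξ ζ : ℝ) (s t a1 b1 r1 a2 b2 r2 a3 b3 r3 a b r : ℤ) :
    ∃ i n m : ℤ, ∀ k,
      |det3 (lat ξ ζ s t a1 b1 r1) (lat ξ ζ s t a2 b2 r2) (lat ξ ζ s t a3 b3 r3)| *
        lat ξ ζ s t a b r k =
      cmb (lat ξ ζ s t a1 b1 r1) (lat ξ ζ s t a2 b2 r2) (lat ξ ζ s t a3 b3 r3) i n m k := by
  obtain ⟨i, hi⟩ : ∃ i : ℤ, det3 (lat ξ ζ s t a b r) (lat ξ ζ s t a2 b2 r2)
    (lat ξ ζ s t a3 b3 r3) = i := ⟨_, bas_det ..⟩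
  obtain ⟨n, hn⟩ : ∃ i : ℤ, det3 (lat ξ ζ s t a1 b1 r1) (lat ξ ζ s t a b r)
    (lat ξ ζ s t a3 b3 r3) = i := ⟨_, bas_det ..⟩
  obtain ⟨m, hm⟩ : ∃ i : ℤ, det3 (lat ξ ζ s t a1 b1 r1) (lat ξ ζ s t a2 b2 r2)
    (lat ξ ζ s t a b r) = i := ⟨_, bas_det ..⟩
  have h := boxc_cramer (lat ξ ζ s t a1 b1 r1) (lat ξ ζ s t a2 b2 r2) (lat ξ ζ s t a3 b3 r3)
    (lat ξ ζ s t a b r)
  rw [hi, hn, hm] at h
  rcases abs_cases (det3 (lat ξ ζ s t a1 b1 r1) (lat ξ ζ s t a2 b2 r2) (lat ξ ζ s t a3 b3 r3))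
    with ⟨h1, -⟩ | ⟨h1, -⟩
  · exact ⟨i, n, m, fun k => by rw [h1, h k]; rfl⟩
  · refine ⟨-i, -n, -m, fun k => ?_⟩
    rw [h1, neg_mul, h k]
    simp only [cmb, Int.cast_neg]
    ring

end Pool.Agent.Lib.MP_e56372_nt.Dim
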