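import Pool.Agent.Lib.MP_e56372_nt.Dim.Defs

set_option autoImplicit false
open MeasureTheory Filter Topology Finset

namespace Pool.Agent.Lib.MP_e56372_nt.Dim
open Pool.Agent.Lib.MP_e56372_nt

theorem cs1_bdd {δ ρ C : ℝ} {K : ℝ → ℝ} (hK : Kern δ ρ C K) (z : ℝ) : |K z| ≤ C / δ := by
  rw [le_div_iff₀ hK.hδ]
  exact le_trans (mul_le_mul_of_nonneg_left (le_max_right _ _) (abs_nonneg _)) (hK.bnd z)

theorem cs1_int {α : Type} [MeasurableSpace α] (μ : Measure α) [IsFiniteMeasure μ]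
    {K : ℝ → ℝ} (hm : Measurable K) (hi : Integrable K) {A : α → ℝ} (hA : Measurable A) :
    Integrable (fun z : α × ℝ => K (A z.1 - z.2)) (μ.prod volume) := by
  have hmeas : Measurable (fun z : α × ℝ => K (A z.1 - z.2)) :=
    hm.comp ((hA.comp measurable_fst).sub measurable_snd)
  rw [integrable_prod_iff hmeas.aestronglyMeasurable]
  refine ⟨Eventually.of_forall fun x => hi.comp_sub_left (A x), ?_⟩
  have h : (fun x : α => ∫ y, ‖K (A x - y)‖) = fun _ => ∫ y, ‖K y‖ := by
    funext x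
    exact integral_sub_left_eq_self (fun y => ‖K y‖) volume (A x)
  simp only []
  rw [h]
  exact integrable_const _

theorem cs1_int2 {δ ρ C : ℝ} {K : ℝ → ℝ} (hK : Kern δ ρ C K) (μ : Measure ℝ) [IsFiniteMeasure μ]
    {A B : ℝ → ℝ} (hA : Measurable A) (hB : Measurable B) :
    Integrable (fun z : (ℝ × ℝ) × ℝ => K (A z.1.1 - z.2) * K (B z.1.2 - z.2))
      ((μ.prod μ).prod volume) := by
  have h1 := cs1_int (μ.prod μ) hK.meas hK.intg (A := fun w : ℝ × ℝ => A w.1)
    (hA.comp measurable_fst)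
  have hm : Measurable (fun z : (ℝ × ℝ) × ℝ => K (B z.1.2 - z.2)) :=
    hK.meas.comp ((hB.comp (measurable_snd.comp measurable_fst)).sub measurable_snd)
  exact h1.mul_bdd (c := C / δ) hm.aestronglyMeasurable
    (Eventually.of_forall fun z => by rw [Real.norm_eq_abs]; exact cs1_bdd hK _)

theorem cs1_pair_int {δ ρ C : ℝ} {K : ℝ → ℝ} (hK : Kern δ ρ C K) (μ : Measure ℝ)
    [IsFiniteMeasure μ] {A B : ℝ → ℝ} (hA : Measurable A) (hB : Measurable B) :
    Integrable (fun y : ℝ => (∫ x, K (A x - y) ∂μ) * ∫ x, K (B x - y) ∂μ) := by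
  have h := (cs1_int2 hK μ hA hB).integral_prod_right
  refine h.congr (Eventually.of_forall fun y => ?_)
  exact integral_prod_mul (fun x => K (A x - y)) (fun x => K (B x - y))

theorem cs1_pair {δ ρ C : ℝ} {K : ℝ → ℝ} (hK : Kern δ ρ C K) (μ : Measure ℝ)
    [IsFiniteMeasure μ] {A B : ℝ → ℝ} (hA : Measurable A) (hB : Measurable B) :
    ∫ y : ℝ, (∫ x, K (A x - y) ∂μ) * ∫ x, K (B x - y) ∂μ =
      ∫ x, ∫ x', conv K K 1 1 (A x - B x') ∂μ ∂μ := by
  have h := cs1_int2 hK μ hA hB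
  have e1 : ∀ w : ℝ × ℝ, ∫ y, K (A w.1 - y) * K (B w.2 - y) = conv K K 1 1 (A w.1 - B w.2) := by
    intro w
    unfold conv
    rw [← integral_sub_left_eq_self (fun u => K (1 * u) * K (1 * (u - (A w.1 - B w.2)))) volume
      (A w.1)]
    refine integral_congr_ae (Eventually.of_forall fun y => ?_)
    have : A w.1 - y - (A w.1 - B w.2) = B w.2 - y := by ring
    simp only [one_mul, this]
  have h2 : Integrable (fun w : ℝ × ℝ => conv K K 1 1 (A w.1 - B w.2)) (μ.prod μ) :=
    h.integral_prod_left.congr (Eventually.of_forall e1)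
  calc ∫ y : ℝ, (∫ x, K (A x - y) ∂μ) * ∫ x, K (B x - y) ∂μ
      = ∫ y : ℝ, ∫ w : ℝ × ℝ, K (A w.1 - y) * K (B w.2 - y) ∂(μ.prod μ) := by
        refine integral_congr_ae (Eventually.of_forall fun y => ?_)
        exact (integral_prod_mul (fun x => K (A x - y)) (fun x => K (B x - y))).symm
    _ = ∫ w : ℝ × ℝ, (∫ y : ℝ, K (A w.1 - y) * K (B w.2 - y)) ∂(μ.prod μ) :=
        (integral_integral_swap
          (f := fun (w : ℝ × ℝ) (y : ℝ) => K (A w.1 - y) * K (B w.2 - y)) h).symm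
    _ = ∫ w : ℝ × ℝ, conv K K 1 1 (A w.1 - B w.2) ∂(μ.prod μ) :=
        integral_congr_ae (Eventually.of_forall e1)
    _ = _ := integral_prod _ h2

theorem cs1_vol {X : Set ℝ} (hX1 : X ⊆ Set.Icc 0 1) : volume X ≤ 1 := by
  refine le_trans (measure_mono hX1) ?_
  simp

theorem cs1_cs (G : ℝ → ℝ) (h1 : Integrable G) (h2 : Integrable fun y => G y * G y)
    {F : Set ℝ} (hF1 : F ⊆ Set.Icc 0 1) : (∫ y in F, G y) ^ 2 ≤ ∫ y, G y * G y := by
  have hv := cs1_vol hF1
  haveI : IsFiniteMeasure (volume.restrict F) :=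
    isFiniteMeasure_restrict.mpr (ne_top_of_le_ne_top ENNReal.one_ne_top hv)
  set t := ∫ y in F, G y with ht
  have hr : volume.real F ≤ 1 := by
    have := ENNReal.toReal_mono ENNReal.one_ne_top hv
    simpa [Measure.real] using this
  have a1 : ∫ y in F, 2 * t * G y ≤ ∫ y in F, (G y * G y + t ^ 2) := by
    refine integral_mono (h1.integrableOn.const_mul _) (h2.integrableOn.add (integrable_const _))
      fun y => ?_
    nlinarith [sq_nonneg (G y - t)]
  rw [integral_const_mul, integral_add h2.integrableOn (integrable_const _), ← ht,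
    setIntegral_const, smul_eq_mul] at a1
  have a2 : ∫ y in F, G y * G y ≤ ∫ y, G y * G y :=
    setIntegral_le_integral h2 (Eventually.of_forall fun y => mul_self_nonneg _)
  nlinarith [sq_nonneg t, mul_le_mul_of_nonneg_right hr (sq_nonneg t)]

theorem cs_one {P : Type} (Pi : Finset P) (I : P → Finset ℤ) (a c : P → ℤ → ℝ) (δ ρ C : ℝ)
    (K : ℝ → ℝ) (hK : Kern δ ρ C K) (X F : Set ℝ) (hX : MeasurableSet X) (hF : MeasurableSet F)
    (hX1 : X ⊆ Set.Icc 0 1) (hF1 : F ⊆ Set.Icc 0 1) :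
    (∑ p ∈ Pi, ∑ i ∈ I p, ∫ x in X, ∫ y in F, K (a p i * x + c p i - y)) ^ 2 ≤
      Pi.card * ∑ p ∈ Pi, ∑ i ∈ I p, ∑ j ∈ I p, ∫ x in X, ∫ x' in X,
        conv K K 1 1 (a p i * x + c p i - (a p j * x' + c p j)) := by
  have _ := hX
  have _ := hF
  haveI : IsFiniteMeasure (volume.restrict X) :=
    isFiniteMeasure_restrict.mpr (ne_top_of_le_ne_top ENNReal.one_ne_top (cs1_vol hX1))
  have hA : ∀ p i, Measurable (fun x : ℝ => a p i * x + c p i) := fun p i => by fun_prop
  refine le_trans sq_sum_le_card_mul_sum_sq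
    (mul_le_mul_of_nonneg_left (sum_le_sum fun p _ => ?_) (Nat.cast_nonneg _))
  set g : ℤ → ℝ → ℝ := fun i y => ∫ x in X, K (a p i * x + c p i - y) with hg
  have hj : ∀ i, Integrable (fun z : ℝ × ℝ => K (a p i * z.1 + c p i - z.2))
      ((volume.restrict X).prod volume) := fun i =>
    cs1_int (volume.restrict X) hK.meas hK.intg (hA p i)
  have hg1 : ∀ i, Integrable (g i) := fun i => (hj i).integral_prod_right
  have hg2 : ∀ i j, Integrable (fun y => g i y * g j y) := fun i j =>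
    cs1_pair_int hK (volume.restrict X) (hA p i) (hA p j)
  have e1 : ∀ i, ∫ x in X, ∫ y in F, K (a p i * x + c p i - y) = ∫ y in F, g i y := by
    intro i
    refine integral_integral_swap
      (f := fun (x y : ℝ) => K (a p i * x + c p i - y)) ?_
    refine (hj i).mono_measure ?_
    exact Measure.prod_mono le_rfl Measure.restrict_le_self
  have e2 : ∀ y, (∑ i ∈ I p, g i y) * (∑ i ∈ I p, g i y) = ∑ i ∈ I p, ∑ j ∈ I p, g i y * g j y :=
    fun y => sum_mul_sum _ _ _ _
  have hG1 : Integrable (fun y => ∑ i ∈ I p, g i y) := integrable_finset_sum _ fun i _ => hg1 i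
  have hG2 : Integrable (fun y => (∑ i ∈ I p, g i y) * (∑ i ∈ I p, g i y)) := by
    simp only [e2]
    exact integrable_finset_sum _ fun i _ => integrable_finset_sum _ fun j _ => hg2 i j
  have h := cs1_cs _ hG1 hG2 hF1
  rw [integral_finset_sum _ fun i _ => (hg1 i).integrableOn] at h
  simp only [e1]
  refine le_trans h (le_of_eq ?_)
  simp only [e2]
  rw [integral_finset_sum _ fun i _ => integrable_finset_sum _ fun j _ => hg2 i j]
  refine sum_congr rfl fun i _ => ?_
  rw [integral_finset_sum _ fun j _ => hg2 i j]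
  refine sum_congr rfl fun j _ => ?_
  exact cs1_pair hK (volume.restrict X) (hA p i) (hA p j)

end Pool.Agent.Lib.MP_e56372_nt.Dim
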