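import Pool.Agent.Lib.MP_e56372_nt.Dim.Defs3
import Pool.Agent.Lib.MP_e56372_nt.Dim.CS1

set_option autoImplicit false
open MeasureTheory Filter Topology Finset

namespace Pool.Agent.Lib.MP_e56372_nt.Dim
open Pool.Agent.Lib.MP_e56372_nt

theorem cs1w_int2 {δ ρ C : ℝ} {K L : ℝ → ℝ} (hK : Kern δ ρ C K) (hL : Kern δ ρ C L)
    (μ : Measure ℝ) [IsFiniteMeasure μ] {A B : ℝ → ℝ} (hA : Measurable A) (hB : Measurable B) :
    Integrable (fun z : (ℝ × ℝ) × ℝ => K (A z.1.1 - z.2) * L (B z.1.2 - z.2))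
      ((μ.prod μ).prod volume) := by
  have h1 := cs1_int (μ.prod μ) hK.meas hK.intg (A := fun w : ℝ × ℝ => A w.1)
    (hA.comp measurable_fst)
  have hm : Measurable (fun z : (ℝ × ℝ) × ℝ => L (B z.1.2 - z.2)) :=
    hL.meas.comp ((hB.comp (measurable_snd.comp measurable_fst)).sub measurable_snd)
  exact h1.mul_bdd (c := C / δ) hm.aestronglyMeasurable
    (Eventually.of_forall fun z => by rw [Real.norm_eq_abs]; exact cs1_bdd hL _)

theorem cs1w_pair_int {δ ρ C : ℝ} {K L : ℝ → ℝ} (hK : Kern δ ρ C K) (hL : Kern δ ρ C L)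
    (μ : Measure ℝ) [IsFiniteMeasure μ] {A B : ℝ → ℝ} (hA : Measurable A) (hB : Measurable B) :
    Integrable (fun y : ℝ => (∫ x, K (A x - y) ∂μ) * ∫ x, L (B x - y) ∂μ) := by
  have h := (cs1w_int2 hK hL μ hA hB).integral_prod_right
  refine h.congr (Eventually.of_forall fun y => ?_)
  exact integral_prod_mul (fun x => K (A x - y)) (fun x => L (B x - y))

theorem cs1w_pair {δ ρ C : ℝ} {K L : ℝ → ℝ} (hK : Kern δ ρ C K) (hL : Kern δ ρ C L)
    (μ : Measure ℝ) [IsFiniteMeasure μ] {A B : ℝ → ℝ} (hA : Measurable A) (hB : Measurable B) :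
    ∫ y : ℝ, (∫ x, K (A x - y) ∂μ) * ∫ x, L (B x - y) ∂μ =
      ∫ x, ∫ x', conv K L 1 1 (A x - B x') ∂μ ∂μ := by
  have h := cs1w_int2 hK hL μ hA hB
  have e1 : ∀ w : ℝ × ℝ, ∫ y, K (A w.1 - y) * L (B w.2 - y) = conv K L 1 1 (A w.1 - B w.2) := by
    intro w
    unfold conv
    rw [← integral_sub_left_eq_self (fun u => K (1 * u) * L (1 * (u - (A w.1 - B w.2)))) volume
      (A w.1)]
    refine integral_congr_ae (Eventually.of_forall fun y => ?_)
    have : A w.1 - y - (A w.1 - B w.2) = B w.2 - y := by ring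
    simp only [one_mul, this]
  have h2 : Integrable (fun w : ℝ × ℝ => conv K L 1 1 (A w.1 - B w.2)) (μ.prod μ) :=
    h.integral_prod_left.congr (Eventually.of_forall e1)
  calc ∫ y : ℝ, (∫ x, K (A x - y) ∂μ) * ∫ x, L (B x - y) ∂μ
      = ∫ y : ℝ, ∫ w : ℝ × ℝ, K (A w.1 - y) * L (B w.2 - y) ∂(μ.prod μ) := by
        refine integral_congr_ae (Eventually.of_forall fun y => ?_)
        exact (integral_prod_mul (fun x => K (A x - y)) (fun x => L (B x - y))).symm
    _ = ∫ w : ℝ × ℝ, (∫ y : ℝ, K (A w.1 - y) * L (B w.2 - y)) ∂(μ.prod μ) :=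
        (integral_integral_swap
          (f := fun (w : ℝ × ℝ) (y : ℝ) => K (A w.1 - y) * L (B w.2 - y)) h).symm
    _ = ∫ w : ℝ × ℝ, conv K L 1 1 (A w.1 - B w.2) ∂(μ.prod μ) :=
        integral_congr_ae (Eventually.of_forall e1)
    _ = _ := integral_prod _ h2

theorem cs_one_w {P : Type} (Pi : Finset P) (I : P → Finset ℤ) (a c : P → ℤ → ℝ) (δ ρ C : ℝ)
    (K : P → ℤ → ℝ → ℝ) (hK : ∀ p i, Kern δ ρ C (K p i)) (X F : Set ℝ) (hX : MeasurableSet X)
    (hF : MeasurableSet F) (hX1 : X ⊆ Set.Icc 0 1) (hF1 : F ⊆ Set.Icc 0 1) :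
    (∑ p ∈ Pi, ∑ i ∈ I p, ∫ x in X, ∫ y in F, K p i (a p i * x + c p i - y)) ^ 2 ≤
      Pi.card * ∑ p ∈ Pi, ∑ i ∈ I p, ∑ j ∈ I p, ∫ x in X, ∫ x' in X,
        conv (K p i) (K p j) 1 1 (a p i * x + c p i - (a p j * x' + c p j)) := by
  have _ := hX
  have _ := hF
  haveI : IsFiniteMeasure (volume.restrict X) :=
    isFiniteMeasure_restrict.mpr (ne_top_of_le_ne_top ENNReal.one_ne_top (cs1_vol hX1))
  have hA : ∀ p i, Measurable (fun x : ℝ => a p i * x + c p i) := fun p i => by fun_prop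
  refine le_trans sq_sum_le_card_mul_sum_sq
    (mul_le_mul_of_nonneg_left (sum_le_sum fun p _ => ?_) (Nat.cast_nonneg _))
  set g : ℤ → ℝ → ℝ := fun i y => ∫ x in X, K p i (a p i * x + c p i - y) with hg
  have hj : ∀ i, Integrable (fun z : ℝ × ℝ => K p i (a p i * z.1 + c p i - z.2))
      ((volume.restrict X).prod volume) := fun i =>
    cs1_int (volume.restrict X) (hK p i).meas (hK p i).intg (hA p i)
  have hg1 : ∀ i, Integrable (g i) := fun i => (hj i).integral_prod_right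
  have hg2 : ∀ i j, Integrable (fun y => g i y * g j y) := fun i j =>
    cs1w_pair_int (hK p i) (hK p j) (volume.restrict X) (hA p i) (hA p j)
  have e1 : ∀ i, ∫ x in X, ∫ y in F, K p i (a p i * x + c p i - y) = ∫ y in F, g i y := by
    intro i
    refine integral_integral_swap
      (f := fun (x y : ℝ) => K p i (a p i * x + c p i - y)) ?_
    refine (hj i).mono_measure ?_
    exact Measure.prod_mono le_rfl Measure.restrict_le_self
  have e2 : ∀ y, (∑ i ∈ I p, g i y) * (∑ i ∈ I p, g i y) = ∑ i ∈ I p, ∑ j ∈ I p, g i y * g j y :=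
    fun y => sum_mul_sum _ _ _ _
  have hG1 : Integrable (fun y => ∑ i ∈ I p, g i y) := integrable_finset_sum _ fun i _ => hg1 i
  have hG2 : Integrable (fun y => (∑ i ∈ I p, g i y) * (∑ i ∈ I p, g i y)) := by
    simp only [e2]
    exact integrable_finset_sum _ fun i _ => integrable_finset_sum _ fun j _ => hg2 i j
  have h := cs1_cs _ hG1 hG2 hF1
  rw [integral_finset_sum _ fun i _ => (hg1 i).integrableOn] at h
  simp only [e1]
  refine le_trans h (le_of_eq ?_)
  simp only [e2]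
  rw [integral_finset_sum _ fun i _ => integrable_finset_sum _ fun j _ => hg2 i j]
  refine sum_congr rfl fun i _ => ?_
  rw [integral_finset_sum _ fun j _ => hg2 i j]
  refine sum_congr rfl fun j _ => ?_
  exact cs1w_pair (hK p i) (hK p j) (volume.restrict X) (hA p i) (hA p j)

end Pool.Agent.Lib.MP_e56372_nt.Dim
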