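import Pool.Agent.Lib.MP_e56372_nt.Dim.Defs3
import Pool.Agent.Lib.MP_e56372_nt.Dim.CS2

set_option autoImplicit false
open MeasureTheory Filter Topology Finset

namespace Pool.Agent.Lib.MP_e56372_nt.Dim
open Pool.Agent.Lib.MP_e56372_nt

theorem cs_two_w {P : Type} (S : Finset P) (a c a' c' : P → ℝ) (ha' : ∀ p ∈ S, 1 / 2 ≤ a' p)
    (δ ρ C : ℝ) (K : P → ℝ → ℝ) (hK : ∀ p, Kern δ ρ C (K p)) (X : Set ℝ) (hX : MeasurableSet X)
    (hX1 : X ⊆ Set.Icc 0 1) :
    (∑ p ∈ S, ∫ x in X, ∫ x' in X, K p (a p * x + c p - (a' p * x' + c' p))) ^ 2 ≤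
      ∑ p ∈ S, ∑ q ∈ S, ∫ x, tent x * conv (K p) (K q) (a' p) (a' q)
        ((a p / a' p - a q / a' q) * x + ((c p - c' p) / a' p - (c q - c' q) / a' q)) := by
  obtain ⟨v1, v2⟩ := cs2_vol hX1
  obtain ⟨t1, t2, t3⟩ := cs2_tent
  have : IsFiniteMeasure (volume.restrict X) := ⟨by simpa using v1⟩
  set k : P → ℝ → ℝ → ℝ := fun p x x' => K p (a p * x + c p - (a' p * x' + c' p)) with hk
  have km : ∀ p, Measurable fun z : ℝ × ℝ => k p z.1 z.2 := fun p => (hK p).meas.comp (by fun_prop)
  have ki : ∀ p ∈ S, ∀ x, Integrable (k p x) := fun p hp x => (cs2_aff (hK p) _ _ _ (ha' p hp)).1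
  have kk : ∀ p ∈ S, ∀ q x, Integrable fun x' => k p x x' * k q x x' := fun p hp q x =>
    (ki p hp x).mul_bdd (c := C / δ) ((km q).comp measurable_prodMk_left).aestronglyMeasurable
      (Eventually.of_forall fun x' => cs2_bd (hK q) _)
  let g : P → ℝ → ℝ := fun p x => ∫ x' in X, k p x x'
  have gm : ∀ p, Measurable (g p) := fun p =>
    (km p).stronglyMeasurable.integral_prod_right'.measurable
  have gb : ∀ p ∈ S, ∀ x, |g p x| ≤ 2 * C := fun p hp x => cs2_inner (hK p) _ _ _ (ha' p hp) X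
  have gi : ∀ p ∈ S, IntegrableOn (g p) X := fun p hp =>
    Integrable.of_bound (gm p).aestronglyMeasurable _ (Eventually.of_forall (gb p hp))
  let h : P → P → ℝ → ℝ := fun p q x => ∫ x', k p x x' * k q x x'
  have hm : ∀ p q, Measurable (h p q) := fun p q =>
    ((km p).mul (km q)).stronglyMeasurable.integral_prod_right'.measurable
  have hb : ∀ p ∈ S, ∀ q x, |h p q x| ≤ 2 * C * (C / δ) := fun p hp q x => by
    have b0 : 0 ≤ C / δ := (abs_nonneg _).trans (cs2_bd (hK p) 0)
    refine abs_integral_le_integral_abs.trans ((integral_mono (kk p hp q x).abs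
      ((ki p hp x).abs.mul_const (C / δ)) fun x' => ?_).trans ?_)
    · simp only [abs_mul]
      exact mul_le_mul_of_nonneg_left (cs2_bd (hK q) _) (abs_nonneg _)
    · rw [integral_mul_const]
      exact mul_le_mul_of_nonneg_right (cs2_aff (hK p) _ _ _ (ha' p hp)).2 b0
  have hi : ∀ p ∈ S, ∀ q, Integrable fun x => tent x * h p q x := fun p hp q =>
    t1.mul_bdd (hm p q).aestronglyMeasurable (Eventually.of_forall (hb p hp q))
  have sq : ∀ x x', (∑ p ∈ S, k p x x') ^ 2 = ∑ p ∈ S, ∑ q ∈ S, k p x x' * k q x x' :=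
    fun x x' => by rw [pow_two, sum_mul_sum]
  have si : ∀ x, Integrable fun x' => (∑ p ∈ S, k p x x') ^ 2 := fun x => by
    simp only [sq]
    exact integrable_finsetSum _ fun p hp => integrable_finsetSum _ fun q _ => kk p hp q x
  have st : ∀ x, (∑ p ∈ S, g p x) ^ 2 ≤ ∑ p ∈ S, ∑ q ∈ S, h p q x := fun x => by
    rw [← integral_finsetSum _ fun p hp => (ki p hp x).integrableOn]
    refine (cs2_sq hX1 (integrable_finsetSum _ fun p hp => (ki p hp x).integrableOn)
      (si x).integrableOn).trans ((setIntegral_le_integral (si x)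
        (Eventually.of_forall fun _ => sq_nonneg _)).trans (le_of_eq ?_))
    simp only [sq]
    rw [integral_finsetSum _ fun p hp => integrable_finsetSum _ fun q _ => kk p hp q x]
    exact sum_congr rfl fun p hp => integral_finsetSum _ fun q _ => kk p hp q x
  have ti : Integrable fun x => ∑ p ∈ S, ∑ q ∈ S, tent x * h p q x :=
    integrable_finsetSum _ fun p hp => integrable_finsetSum _ fun q _ => hi p hp q
  have g2 : IntegrableOn (fun x => (∑ p ∈ S, g p x) ^ 2) X := by
    refine Integrable.of_bound ((measurable_sum S fun p _ => gm p).pow_const 2).aestronglyMeasurable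
      ((∑ p ∈ S, 2 * C) ^ 2) (Eventually.of_forall fun x => ?_)
    rw [Real.norm_eq_abs, abs_pow]
    exact pow_le_pow_left₀ (abs_nonneg _)
      ((abs_sum_le_sum_abs _ _).trans (sum_le_sum fun p hp => gb p hp x)) 2
  have fac : ∀ x, ∑ p ∈ S, ∑ q ∈ S, tent x * h p q x = tent x * ∑ p ∈ S, ∑ q ∈ S, h p q x :=
    fun x => by simp only [mul_sum]
  change (∑ p ∈ S, ∫ x in X, g p x) ^ 2 ≤ _
  rw [← integral_finsetSum _ gi]
  refine (cs2_sq hX1 (integrable_finsetSum _ gi) g2).trans ((setIntegral_mono_on g2 ti.integrableOn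
    hX fun x hx => ?_).trans ((setIntegral_le_integral ti (Eventually.of_forall fun x => ?_)).trans
      (le_of_eq ?_)))
  · rw [fac, t3 x (hX1 hx), one_mul]; exact st x
  · simp only [fac, Pi.zero_apply]
    exact mul_nonneg (t2 x) ((sq_nonneg _).trans (st x))
  · rw [integral_finsetSum _ fun p hp => integrable_finsetSum _ fun q _ => hi p hp q]
    refine sum_congr rfl fun p hp => ?_
    rw [integral_finsetSum _ fun q _ => hi p hp q]
    refine sum_congr rfl fun q hq => integral_congr_ae (Eventually.of_forall fun x => ?_)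
    have p0 : a' p ≠ 0 := by linarith [ha' p hp]
    have q0 : a' q ≠ 0 := by linarith [ha' q hq]
    simp only [conv, h]
    congr 1
    rw [← integral_sub_left_eq_self _ volume (a p / a' p * x + (c p - c' p) / a' p)]
    refine integral_congr_ae (Eventually.of_forall fun x' => ?_)
    simp only [hk]
    congr 2 <;> field_simp <;> ring

end Pool.Agent.Lib.MP_e56372_nt.Dim
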