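import Pool.Agent.Lib.MP_e56372_nt.Dim.Defs

set_option autoImplicit false
open Finset

namespace Pool.Agent.Lib.MP_e56372_nt.Dim

theorem cn_int (S : Finset ℤ) (a c W κ : ℝ) (hκ : 0 < κ) (ha : κ ≤ |a|) (hW : 0 ≤ W)
    (h : ∀ i ∈ S, |(i : ℝ) * a + c| ≤ W) : (S.card : ℝ) ≤ 2 * W / κ + 1 := by
  rcases S.eq_empty_or_nonempty with rfl | hne
  · simp only [card_empty, Nat.cast_zero]; positivity
  have hm := S.min'_mem hne
  set m := S.min' hne with hmdef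
  have sub : S ⊆ Icc m (m + ⌊2 * W / κ⌋₊) := by
    intro i hi
    have h1 : m ≤ i := S.min'_le i hi
    refine mem_Icc.mpr ⟨h1, ?_⟩
    have d0 : (0 : ℝ) ≤ (i : ℝ) - m := by
      have : (m : ℝ) ≤ i := by exact_mod_cast h1
      linarith
    have e1 : |((i : ℝ) - m) * a| ≤ 2 * W := by
      have := abs_sub ((i : ℝ) * a + c) ((m : ℝ) * a + c)
      rw [show (i : ℝ) * a + c - ((m : ℝ) * a + c) = ((i : ℝ) - m) * a by ring] at this
      linarith [h i hi, h m hm]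
    rw [abs_mul, abs_of_nonneg d0] at e1
    have e2 : ((i : ℝ) - m) * κ ≤ 2 * W := (mul_le_mul_of_nonneg_left ha d0).trans e1
    have e3 : (((i - m).toNat : ℕ) : ℝ) ≤ 2 * W / κ := by
      have : (((i - m).toNat : ℕ) : ℝ) = (i : ℝ) - m := by
        have : (((i - m).toNat : ℕ) : ℤ) = i - m := Int.toNat_of_nonneg (by omega)
        exact_mod_cast this
      rw [this, le_div_iff₀ hκ]; exact e2
    have e4 := Nat.le_floor e3
    omega
  have c1 := card_le_card sub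
  rw [Int.card_Icc] at c1
  have c2 : S.card ≤ ⌊2 * W / κ⌋₊ + 1 := by omega
  have c3 : ((⌊2 * W / κ⌋₊ : ℕ) : ℝ) ≤ 2 * W / κ := Nat.floor_le (by positivity)
  have c4 : (S.card : ℝ) ≤ (⌊2 * W / κ⌋₊ : ℝ) + 1 := by exact_mod_cast c2
  linarith

theorem cn_mem {b : ℕ} {i : ℤ} (h : i ∈ Rng b) : |(i : ℝ)| ≤ (b : ℝ) ^ 403 := by
  unfold Rng at h
  have := abs_le.mpr (mem_Icc.mp h)
  exact_mod_cast this

theorem cn_rng (b : ℕ) (hb : 1 ≤ b) : ((Rng b).card : ℝ) ≤ 3 * (b : ℝ) ^ 403 := by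
  have h1 : (1 : ℝ) ≤ (b : ℝ) ^ 403 := one_le_pow₀ (by exact_mod_cast hb)
  have := cn_int (Rng b) 1 0 ((b : ℝ) ^ 403) 1 one_pos (by simp) (by positivity)
    (fun i hi => by simpa using cn_mem hi)
  linarith

theorem pts_card (b : ℕ) (hb : 2 ≤ b) (e f g : V3) (h : Frame b e f g) (p : ℤ × ℤ) :
    ((Pts b e f g p).card : ℝ) ≤ 2 * (b : ℝ) ^ 400 := by
  classical
  have h1 : (1 : ℝ) ≤ (b : ℝ) ^ 400 := one_le_pow₀ (by exact_mod_cast (by omega : 1 ≤ b))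
  have := cn_int (Pts b e f g p) (e 0) (p.1 * f 0 + p.2 * g 0 + 3 / 2 * (b : ℝ) ^ 400)
    ((b : ℝ) ^ 400 / 2) 1 one_pos h.he0 (by positivity) (fun i hi => by
      unfold Pts at hi
      obtain ⟨a1, a2, -⟩ := (mem_filter.mp hi).2
      unfold cmb at a1 a2
      rw [abs_le]; constructor <;> linarith)
  linarith

theorem pen_card (b : ℕ) (hb : 9 ≤ b) (e f g : V3) :
    ((Pen b e f g).card : ℝ) ≤ (b : ℝ) ^ 807 := by
  classical
  have c1 : (Pen b e f g).card ≤ (Rng b ×ˢ Rng b).card := by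
    unfold Pen; exact card_filter_le _ _
  rw [card_product] at c1
  have c2 : ((Pen b e f g).card : ℝ) ≤ ((Rng b).card : ℝ) * (Rng b).card := by exact_mod_cast c1
  have c3 := cn_rng b (by omega)
  have c4 := mul_le_mul c3 c3 (Nat.cast_nonneg _) (by positivity)
  have c5 : (9 : ℝ) ≤ b := by exact_mod_cast hb
  have c6 : (b : ℝ) ^ 807 = b * ((b : ℝ) ^ 403 * (b : ℝ) ^ 403) := by ring
  have c7 : (0 : ℝ) ≤ (b : ℝ) ^ 403 * (b : ℝ) ^ 403 := by positivity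
  have c8 := mul_le_mul_of_nonneg_right c5 c7
  linarith

open Classical in
theorem cn_strip (b : ℕ) (hb : 2 ≤ b) (A B : ℝ) (hA : 1 / (4 * (b : ℝ) ^ 2) ≤ |A|) :
    (((Rng b ×ˢ Rng b).filter fun p : ℤ × ℤ => |(p.1 : ℝ) * A + p.2 * B| < (b : ℝ) ^ 386).card : ℝ)
      ≤ 27 * (b : ℝ) ^ 791 := by
  have hb1 : (1 : ℝ) ≤ b := by exact_mod_cast (by omega : 1 ≤ b)
  have hb0 : (0 : ℝ) < b := by linarith
  have e : ((Rng b ×ˢ Rng b).filter fun p : ℤ × ℤ => |(p.1 : ℝ) * A + p.2 * B| < (b : ℝ) ^ 386).card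
      = ∑ m ∈ Rng b, ((Rng b).filter fun n : ℤ => |(n : ℝ) * A + m * B| < (b : ℝ) ^ 386).card := by
    simp only [card_filter]
    rw [sum_product_right]
  rw [e]
  push_cast
  have one : ∀ m ∈ Rng b,
      (((Rng b).filter fun n : ℤ => |(n : ℝ) * A + m * B| < (b : ℝ) ^ 386).card : ℝ)
        ≤ 9 * (b : ℝ) ^ 388 := by
    intro m _
    have := cn_int ((Rng b).filter fun n : ℤ => |(n : ℝ) * A + m * B| < (b : ℝ) ^ 386) A (m * B)
      ((b : ℝ) ^ 386) (1 / (4 * (b : ℝ) ^ 2)) (by positivity) hA (by positivity)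
      (fun i hi => (mem_filter.mp hi).2.le)
    have e2 : 2 * (b : ℝ) ^ 386 / (1 / (4 * (b : ℝ) ^ 2)) = 8 * (b : ℝ) ^ 388 := by
      rw [div_div_eq_mul_div, div_one]; ring
    have e3 : (1 : ℝ) ≤ (b : ℝ) ^ 388 := one_le_pow₀ hb1
    linarith
  have s1 := sum_le_card_nsmul _ _ _ one
  rw [nsmul_eq_mul] at s1
  have s2 := mul_le_mul_of_nonneg_right (cn_rng b (by omega))
    (show (0 : ℝ) ≤ 9 * (b : ℝ) ^ 388 by positivity)
  have s3 : 3 * (b : ℝ) ^ 403 * (9 * (b : ℝ) ^ 388) = 27 * (b : ℝ) ^ 791 := by ring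
  linarith

theorem cn_mult (b d : ℕ) (hd : 0 < d) (hdb : d ≤ b ^ 403) :
    (((Rng b).filter fun n : ℤ => (d : ℤ) ∣ n).card : ℝ) ≤ 3 * (b : ℝ) ^ 403 / d := by
  have d0 : (0 : ℝ) < d := by exact_mod_cast hd
  have inj : Set.InjOn (fun n : ℤ => n / d) ((Rng b).filter fun n : ℤ => (d : ℤ) ∣ n) := by
    intro x hx y hy e
    have hx' := Int.ediv_mul_cancel (mem_filter.mp (mem_coe.mp hx)).2
    have hy' := Int.ediv_mul_cancel (mem_filter.mp (mem_coe.mp hy)).2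
    simp only at e
    rw [← hx', ← hy', e]
  rw [← card_image_of_injOn inj]
  have := cn_int (((Rng b).filter fun n : ℤ => (d : ℤ) ∣ n).image fun n : ℤ => n / d) d 0
    ((b : ℝ) ^ 403) d d0 (by rw [abs_of_pos d0]) (by positivity) (fun i hi => by
      obtain ⟨n, hn, rfl⟩ := mem_image.mp hi
      have h1 := Int.ediv_mul_cancel (mem_filter.mp hn).2
      have h2 : ((n / d : ℤ) : ℝ) * d = n := by exact_mod_cast h1
      rw [add_zero, h2]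
      exact cn_mem (mem_filter.mp hn).1)
  have e1 : (1 : ℝ) ≤ (b : ℝ) ^ 403 / d := by
    rw [le_div_iff₀ d0, one_mul]; exact_mod_cast hdb
  have e2 : 3 * (b : ℝ) ^ 403 / d = 2 * (b : ℝ) ^ 403 / d + (b : ℝ) ^ 403 / d := by ring
  linarith

theorem cn_gcd (b : ℕ) (hb : 2 ≤ b) :
    (((Rng b ×ˢ Rng b).filter fun p : ℤ × ℤ => b ^ 14 < Int.gcd p.1 p.2).card : ℝ)
      ≤ 9 * (b : ℝ) ^ 792 := by
  have hb0 : (0 : ℝ) < b := by exact_mod_cast (by omega : 0 < b)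
  have p14 : 0 < b ^ 14 := by positivity
  have sub : ((Rng b ×ˢ Rng b).filter fun p : ℤ × ℤ => b ^ 14 < Int.gcd p.1 p.2) ⊆
      (Ioc (b ^ 14) (b ^ 403)).biUnion fun d : ℕ =>
        ((Rng b).filter fun n : ℤ => (d : ℤ) ∣ n) ×ˢ ((Rng b).filter fun n : ℤ => (d : ℤ) ∣ n) := by
    intro p hp
    obtain ⟨h1, h2⟩ := mem_filter.mp hp
    obtain ⟨h3, h4⟩ := mem_product.mp h1
    refine mem_biUnion.mpr ⟨Int.gcd p.1 p.2, mem_Ioc.mpr ⟨h2, ?_⟩, mem_product.mpr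
      ⟨mem_filter.mpr ⟨h3, Int.gcd_dvd_left _ _⟩, mem_filter.mpr ⟨h4, Int.gcd_dvd_right _ _⟩⟩⟩
    have key : ∀ x : ℤ, x ∈ Rng b → x ≠ 0 → ((Int.gcd p.1 p.2 : ℕ) : ℤ) ∣ x →
        Int.gcd p.1 p.2 ≤ b ^ 403 := by
      intro x hx h0 hdv
      have a1 := Int.le_of_dvd (abs_pos.mpr h0) ((dvd_abs _ _).mpr hdv)
      unfold Rng at hx
      have a2 := abs_le.mpr (mem_Icc.mp hx)
      exact_mod_cast a1.trans a2
    by_cases z1 : p.1 = 0
    · by_cases z2 : p.2 = 0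
      · rw [z1, z2]; simp
      · exact key _ h4 z2 (Int.gcd_dvd_right _ _)
    · exact key _ h3 z1 (Int.gcd_dvd_left _ _)
  have c1 := (card_le_card sub).trans card_biUnion_le
  have c2 : (((Rng b ×ˢ Rng b).filter fun p : ℤ × ℤ => b ^ 14 < Int.gcd p.1 p.2).card : ℝ) ≤
      ∑ d ∈ Ioc (b ^ 14) (b ^ 403), ((((Rng b).filter fun n : ℤ => (d : ℤ) ∣ n) ×ˢ
        ((Rng b).filter fun n : ℤ => (d : ℤ) ∣ n)).card : ℝ) := by exact_mod_cast c1
  have c3 : ∀ d ∈ Ioc (b ^ 14) (b ^ 403), ((((Rng b).filter fun n : ℤ => (d : ℤ) ∣ n) ×ˢ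
        ((Rng b).filter fun n : ℤ => (d : ℤ) ∣ n)).card : ℝ)
      ≤ 9 * (b : ℝ) ^ 806 * (((d : ℝ)) ^ 2)⁻¹ := by
    intro d hd
    obtain ⟨d1, d2⟩ := mem_Ioc.mp hd
    have d0 : (0 : ℝ) < d := by exact_mod_cast (by omega : 0 < d)
    have m1 := cn_mult b d (by omega) d2
    rw [card_product]
    push_cast
    refine (mul_le_mul m1 m1 (Nat.cast_nonneg _) (by positivity)).trans (le_of_eq ?_)
    rw [div_mul_div_comm, ← sq (d : ℝ), div_eq_mul_inv]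
    congr 1
    ring
  have c4 := sum_le_sum c3
  rw [← mul_sum] at c4
  have c5 := sum_Ioc_inv_sq_le_sub (α := ℝ) p14.ne'
    (Nat.pow_le_pow_right (by omega : 0 < b) (by norm_num : 14 ≤ 403))
  have c6 : (0 : ℝ) ≤ (((b ^ 403 : ℕ) : ℝ))⁻¹ := by positivity
  have c7 : ∑ d ∈ Ioc (b ^ 14) (b ^ 403), (((d : ℝ)) ^ 2)⁻¹ ≤ ((b : ℝ) ^ 14)⁻¹ := by
    have : (((b ^ 14 : ℕ) : ℝ))⁻¹ = ((b : ℝ) ^ 14)⁻¹ := by push_cast; rfl
    linarith
  have c8 := mul_le_mul_of_nonneg_left c7 (show (0 : ℝ) ≤ 9 * (b : ℝ) ^ 806 by positivity)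
  have c9 : 9 * (b : ℝ) ^ 806 * ((b : ℝ) ^ 14)⁻¹ = 9 * (b : ℝ) ^ 792 := by
    rw [show (b : ℝ) ^ 806 = (b : ℝ) ^ 792 * (b : ℝ) ^ 14 by ring, mul_assoc, mul_assoc,
      mul_inv_cancel₀ (by positivity), mul_one]
  linarith

theorem cn_minor (b x y z w : ℝ) (hx : |x| ≤ b) (hy : |y| ≤ b) (hz : |z| ≤ b) (hw : |w| ≤ b) :
    |x * y - z * w| ≤ 2 * b ^ 2 := by
  have b0 : 0 ≤ b := (abs_nonneg _).trans hx
  have a1 := mul_le_mul hx hy (abs_nonneg _) b0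
  have a2 := mul_le_mul hz hw (abs_nonneg _) b0
  have a3 := abs_sub (x * y) (z * w)
  rw [abs_mul, abs_mul] at a3
  nlinarith

theorem bad_card (b : ℕ) (hb : 2 ≤ b) (e f g : V3) (h : Frame b e f g) :
    (((Rng b ×ˢ Rng b) \ Pen b e f g).card : ℝ) ≤ 60 * (b : ℝ) ^ 792 := by
  classical
  have hb1 : (1 : ℝ) ≤ b := by exact_mod_cast (by omega : 1 ≤ b)
  have hb0 : (0 : ℝ) < b := by linarith
  set A : ℝ := f 0 * e 1 - f 1 * e 0 with hA
  set B : ℝ := g 0 * e 1 - g 1 * e 0 with hB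
  have sub : (Rng b ×ˢ Rng b) \ Pen b e f g ⊆
      ((Rng b ×ˢ Rng b).filter fun p : ℤ × ℤ => |(p.1 : ℝ) * A + p.2 * B| < (b : ℝ) ^ 386) ∪
      ((Rng b ×ˢ Rng b).filter fun p : ℤ × ℤ => b ^ 14 < Int.gcd p.1 p.2) := by
    intro p hp
    obtain ⟨h1, h2⟩ := mem_sdiff.mp hp
    by_contra hc
    rw [mem_union, not_or, mem_filter, mem_filter] at hc
    apply h2
    unfold Pen
    refine mem_filter.mpr ⟨h1, ?_, not_lt.mp fun q => hc.2 ⟨h1, q⟩⟩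
    have : nu3 e (cmb e f g 0 p.1 p.2) = (p.1 : ℝ) * A + p.2 * B := by
      unfold nu3 cmb; rw [hA, hB]; push_cast; ring
    rw [this]
    exact not_lt.mp fun q => hc.1 ⟨h1, q⟩
  have c1 := (card_le_card sub).trans (card_union_le _ _)
  have c2 : (((Rng b ×ˢ Rng b) \ Pen b e f g).card : ℝ) ≤
      (((Rng b ×ˢ Rng b).filter fun p : ℤ × ℤ =>
        |(p.1 : ℝ) * A + p.2 * B| < (b : ℝ) ^ 386).card : ℝ) +
      (((Rng b ×ˢ Rng b).filter fun p : ℤ × ℤ => b ^ 14 < Int.gcd p.1 p.2).card : ℝ) := by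
    exact_mod_cast c1
  have big : 1 / (4 * (b : ℝ) ^ 2) ≤ |A| ∨ 1 / (4 * (b : ℝ) ^ 2) ≤ |B| := by
    by_contra hc
    push Not at hc
    have m1 := cn_minor b _ _ _ _ (h.hg 1) (h.he 2) (h.hg 2) (h.he 1)
    have m2 := cn_minor b _ _ _ _ (h.hf 1) (h.he 2) (h.hf 2) (h.he 1)
    have idn : A * (g 1 * e 2 - g 2 * e 1) - B * (f 1 * e 2 - f 2 * e 1) = det3 e f g * e 1 := by
      unfold det3; rw [hA, hB]; ring
    have l1 : 1 ≤ |det3 e f g * e 1| := by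
      rw [abs_mul]; exact one_le_mul_of_one_le_of_one_le h.hdet h.he1
    have l2 := abs_sub (A * (g 1 * e 2 - g 2 * e 1)) (B * (f 1 * e 2 - f 2 * e 1))
    rw [idn, abs_mul A, abs_mul B] at l2
    have l3 := mul_le_mul_of_nonneg_left m1 (abs_nonneg A)
    have l4 := mul_le_mul_of_nonneg_left m2 (abs_nonneg B)
    have q0 : (0 : ℝ) < 2 * (b : ℝ) ^ 2 := by positivity
    have l5 := mul_lt_mul_of_pos_right hc.1 q0
    have l6 := mul_lt_mul_of_pos_right hc.2 q0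
    have l7 : 1 / (4 * (b : ℝ) ^ 2) * (2 * (b : ℝ) ^ 2) = 1 / 2 := by field_simp; norm_num
    linarith
  have c3 : (((Rng b ×ˢ Rng b).filter fun p : ℤ × ℤ =>
        |(p.1 : ℝ) * A + p.2 * B| < (b : ℝ) ^ 386).card : ℝ) ≤ 27 * (b : ℝ) ^ 791 := by
    rcases big with q | q
    · exact cn_strip b hb A B q
    · refine le_trans ?_ (cn_strip b hb B A q)
      refine Nat.cast_le.mpr (card_le_card_of_injOn Prod.swap ?_ Prod.swap_injective.injOn)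
      intro p hp
      obtain ⟨h1, h2⟩ := mem_filter.mp (mem_coe.mp hp)
      obtain ⟨h3, h4⟩ := mem_product.mp h1
      refine mem_coe.mpr (mem_filter.mpr ⟨mem_product.mpr ⟨h4, h3⟩, ?_⟩)
      simp only [Prod.fst_swap, Prod.snd_swap]
      rwa [add_comm]
  have c4 := cn_gcd b hb
  have c5 : (b : ℝ) ^ 791 ≤ (b : ℝ) ^ 792 := pow_le_pow_right₀ hb1 (by norm_num)
  have c6 : (0 : ℝ) ≤ (b : ℝ) ^ 792 := by positivity
  linarith

end Pool.Agent.Lib.MP_e56372_nt.Dim
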