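import Pool.Agent.Lib.MP_e56372_nt.Dim.TreeB

set_option autoImplicit false
open MeasureTheory Filter Topology Finset

namespace Pool.Agent.Lib.MP_e56372_nt.Dim
open Pool.Agent.Lib.MP_e56372_nt

theorem gm_pre_div (n d d' u : ℕ) (h1 : d' ≤ d) (h2 : d ≤ n) :
    pre n d u / 2 ^ (d - d') = pre n d' u := by
  unfold pre
  rw [Nat.div_div_eq_div_mul, ← pow_add]
  congr 2
  omega

theorem gm_pre_div' (n d l u : ℕ) (h2 : d + l ≤ n) :
    pre n (d + l) u / 2 ^ l = pre n d u := by
  have := gm_pre_div n (d + l) d u (by omega) h2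
  rwa [Nat.add_sub_cancel_left] at this

theorem gm_drops (f : ℕ → ℕ) (hf : ∀ k, f (k + 1) ≤ f k) (N : ℕ) :
    ((range N).filter fun k => f (k + 1) < f k).card + f N ≤ f 0 := by
  induction N with
  | zero => simp
  | succ N ih =>
    rw [range_add_one, filter_insert]
    have := hf N
    split_ifs with h
    · have h2 := card_insert_le N ((range N).filter fun k => f (k + 1) < f k)
      omega
    · omega

theorem gm_mod_inj (l p : ℕ) (Z : Finset ℕ) (hZ : ∀ z ∈ Z, z / 2 ^ l = p) :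
    (Z.image fun z => z % 2 ^ l).card = Z.card := by
  refine card_image_of_injOn ?_
  intro a ha b hb hab
  have h1 := Nat.div_add_mod a (2 ^ l)
  have h2 := Nat.div_add_mod b (2 ^ l)
  have hab' : a % 2 ^ l = b % 2 ^ l := hab
  rw [hZ a ha] at h1
  rw [hZ b hb] at h2
  omega

theorem gm_fib1 (n : ℕ) (A : Finset (ℕ × ℕ)) (W : ℝ) (hA : ∀ w ∈ A, w.1 < 2 ^ n)
    (h : ∀ u, ∀ S : Finset ℕ, (∀ v ∈ S, (u, v) ∈ A) → (S.card : ℝ) ≤ W) :
    (A.card : ℝ) ≤ 2 ^ n * W := by
  classical
  have h1 : A.card = ∑ u ∈ range (2 ^ n), (A.filter fun w => w.1 = u).card :=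
    card_eq_sum_card_fiberwise fun w hw => by simpa using hA w hw
  rw [h1]
  push_cast
  have h2 : ∀ u ∈ range (2 ^ n), ((A.filter fun w => w.1 = u).card : ℝ) ≤ W := by
    intro u _
    have h3 : ((A.filter fun w => w.1 = u).image Prod.snd).card =
        (A.filter fun w => w.1 = u).card := by
      refine card_image_of_injOn ?_
      intro a ha b hb hab
      have ha' := (mem_filter.1 (mem_coe.1 ha)).2
      have hb' := (mem_filter.1 (mem_coe.1 hb)).2
      exact Prod.ext (ha'.trans hb'.symm) hab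
    rw [← h3]
    refine h u _ ?_
    intro v hv
    obtain ⟨w, hw, rfl⟩ := mem_image.1 hv
    obtain ⟨hw1, hw2⟩ := mem_filter.1 hw
    rw [← hw2]
    exact hw1
  refine (sum_le_sum h2).trans ?_
  simp

theorem gm_fib2 (n : ℕ) (A : Finset (ℕ × ℕ)) (W : ℝ) (hA : ∀ w ∈ A, w.2 < 2 ^ n)
    (h : ∀ v, ∀ S : Finset ℕ, (∀ u ∈ S, (u, v) ∈ A) → (S.card : ℝ) ≤ W) :
    (A.card : ℝ) ≤ 2 ^ n * W := by
  classical
  have h1 : (A.image Prod.swap).card = A.card := card_image_of_injective _ Prod.swap_injective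
  rw [← h1]
  refine gm_fib1 n _ W ?_ ?_
  · intro w hw
    obtain ⟨w', hw', rfl⟩ := mem_image.1 hw
    exact hA w' hw'
  · intro v S hS
    refine h v S ?_
    intro u hu
    obtain ⟨w', hw', he⟩ := mem_image.1 (hS u hu)
    have : w' = (u, v) := by
      have := congrArg Prod.swap he
      simpa using this
    rwa [this] at hw'

open Classical in
/-- digits still allowed in a column after the first `k` rows. -/
noncomputable def gmF (l : ℕ) (P : ℕ → ℕ → Prop) (k : ℕ) : Finset ℕ :=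
  (range (2 ^ l)).filter fun y => ∀ k' < k, P k' y

theorem gm_mem (l : ℕ) (P : ℕ → ℕ → Prop) (k y : ℕ) :
    y ∈ gmF l P k ↔ y < 2 ^ l ∧ ∀ k' < k, P k' y := by
  simp [gmF]

theorem gm_anti (l : ℕ) (P : ℕ → ℕ → Prop) (k k' : ℕ) (h : k ≤ k') : gmF l P k' ⊆ gmF l P k := by
  intro y hy
  rw [gm_mem] at hy ⊢
  exact ⟨hy.1, fun a ha => hy.2 a (by omega)⟩

theorem gm_congr (l : ℕ) (P Q : ℕ → ℕ → Prop) (k : ℕ) (h : ∀ k' < k, ∀ y, P k' y ↔ Q k' y) :
    gmF l P k = gmF l Q k := by
  ext y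
  rw [gm_mem, gm_mem]
  refine and_congr_right fun _ => ⟨fun H a ha => (h a ha y).1 (H a ha),
    fun H a ha => (h a ha y).2 (H a ha)⟩

open Classical in
theorem gm_same (l N : ℕ) (hN : 2 * 2 ^ l ≤ N) (P : ℕ → ℕ → Prop) :
    N ≤ 2 * ((range N).filter fun k => ∀ y ∈ gmF l P k, P k y).card := by
  have h1 := gm_drops (fun k => (gmF l P k).card)
    (fun k => card_le_card (gm_anti l P k (k + 1) (by omega))) N
  have h0 : (gmF l P 0).card ≤ 2 ^ l := by
    refine (card_le_card (filter_subset _ _)).trans ?_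
    simp
  have h2 : ((range N).filter fun k => ¬ ∀ y ∈ gmF l P k, P k y) ⊆
      (range N).filter fun k => (gmF l P (k + 1)).card < (gmF l P k).card := by
    intro k hk
    rw [mem_filter] at hk ⊢
    refine ⟨hk.1, card_lt_card ⟨gm_anti l P k (k + 1) (by omega), fun hs => hk.2 ?_⟩⟩
    intro y hy
    exact ((gm_mem l P (k + 1) y).1 (hs hy)).2 k (by omega)
  have h3 := card_le_card h2
  have h4 := card_filter_add_card_filter_not (s := range N) (fun k => ∀ y ∈ gmF l P k, P k y)
  rw [card_range] at h4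
  omega

open Classical in
theorem gm_pick (N : ℕ) (hN : 0 < N) (T : Finset ℕ) (R : ℕ → ℕ → Prop)
    (h : ∀ j ∈ T, N ≤ 2 * ((range N).filter fun k => R k j).card) :
    ∃ k < N, T.card ≤ 2 * (T.filter fun j => R k j).card := by
  by_contra hcon
  push Not at hcon
  have h1 : ∑ j ∈ T, ((range N).filter fun k => R k j).card =
      ∑ k ∈ range N, (T.filter fun j => R k j).card := by
    simp only [card_filter]
    exact sum_comm
  have h2 : ∑ j ∈ T, N ≤ ∑ j ∈ T, 2 * ((range N).filter fun k => R k j).card := sum_le_sum h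
  have h3 : ∑ k ∈ range N, 2 * (T.filter fun j => R k j).card < ∑ k ∈ range N, T.card :=
    sum_lt_sum_of_nonempty (nonempty_range_iff.2 (by omega)) fun k hk => hcon k (mem_range.1 hk)
  rw [← mul_sum] at h2 h3
  rw [h1] at h2
  simp only [sum_const, card_range, smul_eq_mul] at h2 h3
  rw [mul_comm] at h2
  omega

theorem game_count (n l J N c B : ℕ) (C : ℕ → ℕ) (OK Good : ℕ → ℕ → ℕ → ℕ → Prop) (hl : 1 ≤ l)
    (hN : 2 * 2 ^ l ≤ N) (hC : ∀ k k', k < k' → k' < N → C k + l ≤ C k')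
    (hlo : ∀ k < N, c + J * l ≤ C k) (hhi : ∀ k < N, C k + l ≤ n + c) (hc : c + J * l ≤ n)
    (hmix : ∀ k < N, ∀ j < J, ∀ p q, Good k j p q → ∀ X F : Finset ℕ, X ⊆ range (2 ^ l) →
      F ⊆ range (2 ^ l) → B < X.card → B < F.card →
      ∃ x ∈ X, ∃ y ∈ F, ¬ OK k j (p * 2 ^ l + x) (q * 2 ^ l + y))
    (ω ε : ℝ) (hω : 1 ≤ ω) (hε : B * ω / 2 ^ l ≤ ε) (A : Finset (ℕ × ℕ))
    (hA : ∀ w ∈ A, w.1 < 2 ^ n ∧ w.2 < 2 ^ n ∧
      (∀ k < N, ∀ j < J, OK k j (pre n (C k - (c + j * l) + l) w.1) (pre n (c + j * l + l) w.2)) ∧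
      ∀ k < N, ∀ T : Finset ℕ, (∀ j ∈ T, j < J ∧
        ¬ Good k j (pre n (C k - (c + j * l)) w.1) (pre n (c + j * l) w.2)) → 8 * T.card < J) :
    (A.card : ℝ) ≤ (N + 1) * 2 ^ n * ((2 * (1 + ε)) ^ n / ω ^ (J / 8)) := by
  classical
  set W : ℝ := (2 * (1 + ε)) ^ n / ω ^ (J / 8) with hW
  have hjl : ∀ j < J, j * l + l ≤ J * l := fun j hj => by
    have := Nat.mul_le_mul_right l (show j + 1 ≤ J by omega)
    rwa [Nat.add_mul, one_mul] at this
  have hij : ∀ i j : ℕ, i ≠ j → i * l + l ≤ j * l ∨ j * l + l ≤ i * l := fun i j h => by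
    rcases Nat.lt_or_gt_of_ne h with h | h
    · left
      have := Nat.mul_le_mul_right l (show i + 1 ≤ j by omega)
      rwa [Nat.add_mul, one_mul] at this
    · right
      have := Nat.mul_le_mul_right l (show j + 1 ≤ i by omega)
      rwa [Nat.add_mul, one_mul] at this
  -- the predicate of a column
  let P : ℕ → ℕ → ℕ → ℕ → ℕ → Prop := fun u j q k' y =>
    OK k' j (pre n (C k' - (c + j * l) + l) u) (q * 2 ^ l + y)
  let P' : ℕ → ℕ → ℕ → ℕ → ℕ → ℕ → Prop := fun k p j q k' y =>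
    OK k' j (p / 2 ^ (C k - (c + j * l) - (C k' - (c + j * l) + l))) (q * 2 ^ l + y)
  let M1 : ℕ → ℕ → ℕ → Prop := fun u j z =>
    z % 2 ^ l ∈ gmF l (P u j (z / 2 ^ l)) N ∧ (gmF l (P u j (z / 2 ^ l)) N).card ≤ B
  let M2 : ℕ → ℕ → ℕ → ℕ → Prop := fun k v j z =>
    Good k j (z / 2 ^ l) (pre n (c + j * l) v) ∧
      B < (gmF l (P' k (z / 2 ^ l) j (pre n (c + j * l) v)) k).card ∧
      ∀ y ∈ gmF l (P' k (z / 2 ^ l) j (pre n (c + j * l) v)) k,
        OK k j z (pre n (c + j * l) v * 2 ^ l + y)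
  let A1 : Finset (ℕ × ℕ) := A.filter fun w => ∃ T : Finset ℕ, J / 8 ≤ T.card ∧
    ∀ j ∈ T, j < J ∧ M1 w.1 j (pre n (c + j * l + l) w.2)
  let A2 : ℕ → Finset (ℕ × ℕ) := fun k => A.filter fun w => ∃ T : Finset ℕ, J / 8 ≤ T.card ∧
    ∀ j ∈ T, j < J ∧ M2 k w.2 j (pre n (C k - (c + j * l) + l) w.1)
  have b1 : (A1.card : ℝ) ≤ 2 ^ n * W := by
    refine gm_fib1 n A1 W (fun w hw => (hA w (mem_filter.1 hw).1).1) ?_
    intro u S hS
    refine tree_block n l J (J / 8) B hl (fun j => c + j * l) ?_ ?_ (M1 u) ?_ ω ε hω hε S ?_ ?_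
    · intro j hj
      have := hjl j hj
      show c + j * l + l ≤ n
      omega
    · intro i _ j _ h
      have := hij i j h
      show c + i * l + l ≤ c + j * l ∨ c + j * l + l ≤ c + i * l
      omega
    · intro j _ p Z hZ
      rcases Z.eq_empty_or_nonempty with rfl | ⟨z0, hz0⟩
      · simp
      rw [← gm_mod_inj l p Z fun z hz => (hZ z hz).1]
      have h0 := (hZ z0 hz0).2.2
      rw [(hZ z0 hz0).1] at h0
      refine le_trans (card_le_card ?_) h0
      intro x hx
      obtain ⟨z, hz, rfl⟩ := mem_image.1 hx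
      have h1 := (hZ z hz).2.1
      rwa [(hZ z hz).1] at h1
    · intro v hv
      exact (hA _ (mem_filter.1 (hS v hv)).1).2.1
    · intro v hv
      exact (mem_filter.1 (hS v hv)).2
  have b2 : ∀ k ∈ range N, ((A2 k).card : ℝ) ≤ 2 ^ n * W := by
    intro k hk
    rw [mem_range] at hk
    have e1 := hlo k hk
    have e2 := hhi k hk
    refine gm_fib2 n (A2 k) W (fun w hw => (hA w (mem_filter.1 hw).1).2.1) ?_
    intro v S hS
    refine tree_block n l J (J / 8) B hl (fun j => C k - (c + j * l)) ?_ ?_ (M2 k v) ?_ ω ε hω hε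
      S ?_ ?_
    · intro j hj
      have := hjl j hj
      show C k - (c + j * l) + l ≤ n
      omega
    · intro i hi j hj h
      have := hij i j h
      have := hjl i hi
      have := hjl j hj
      show C k - (c + i * l) + l ≤ C k - (c + j * l) ∨ C k - (c + j * l) + l ≤ C k - (c + i * l)
      omega
    · intro j hj p Z hZ
      rcases Z.eq_empty_or_nonempty with rfl | ⟨z0, hz0⟩
      · simp
      rw [← gm_mod_inj l p Z fun z hz => (hZ z hz).1]
      by_contra hcon
      obtain ⟨g1, g2, -⟩ := (hZ z0 hz0).2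
      rw [(hZ z0 hz0).1] at g1 g2
      obtain ⟨x, hx, y, hy, hno⟩ := hmix k hk j hj p _ g1 (Z.image fun z => z % 2 ^ l) _
        (fun x hx => by
          obtain ⟨z, _, rfl⟩ := mem_image.1 hx
          exact mem_range.2 (Nat.mod_lt _ (by positivity)))
        (fun y hy => mem_range.2 ((gm_mem _ _ _ _).1 hy).1) (by omega) g2
      obtain ⟨z, hz, rfl⟩ := mem_image.1 hx
      have g3 := (hZ z hz).2.2.2
      rw [(hZ z hz).1] at g3
      have g4 : p * 2 ^ l + z % 2 ^ l = z := by
        rw [← (hZ z hz).1]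
        exact Nat.div_add_mod' z (2 ^ l)
      rw [g4] at hno
      exact hno (g3 y hy)
    · intro u hu
      exact (hA _ (mem_filter.1 (hS u hu)).1).1
    · intro u hu
      exact (mem_filter.1 (hS u hu)).2
  have cover : A ⊆ A1 ∪ (range N).biUnion A2 := by
    intro w hw
    obtain ⟨-, -, hOK, hbad⟩ := hA w hw
    let sm : ℕ → Prop := fun j => (gmF l (P w.1 j (pre n (c + j * l) w.2)) N).card ≤ B
    have hsplit := card_filter_add_card_filter_not (s := range J) sm
    rw [card_range] at hsplit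
    by_cases hcase : J ≤ 2 * ((range J).filter sm).card
    · refine mem_union_left _ (mem_filter.2 ⟨hw, (range J).filter sm, by omega, ?_⟩)
      intro j hj
      obtain ⟨hj1, hj2⟩ := mem_filter.1 hj
      rw [mem_range] at hj1
      have e0 := hjl j hj1
      have e1 : pre n (c + j * l + l) w.2 / 2 ^ l = pre n (c + j * l) w.2 :=
        gm_pre_div' n _ l _ (by omega)
      refine ⟨hj1, ?_, ?_⟩
      · rw [gm_mem]
        refine ⟨Nat.mod_lt _ (by positivity), fun k' hk' => ?_⟩
        show OK k' j _ (_ * 2 ^ l + _)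
        rw [Nat.div_add_mod']
        exact hOK k' hk' j hj1
      · rw [e1]
        exact hj2
    · have hNpos : 0 < N := lt_of_lt_of_le (by positivity) hN
      obtain ⟨k, hk, hT⟩ := gm_pick N hNpos ((range J).filter fun j => ¬ sm j)
        (fun k j => ∀ y ∈ gmF l (P w.1 j (pre n (c + j * l) w.2)) k,
          P w.1 j (pre n (c + j * l) w.2) k y)
        (fun j _ => by convert gm_same l N hN (P w.1 j (pre n (c + j * l) w.2)))
      set T0 := ((range J).filter fun j => ¬ sm j).filter fun j =>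
        ∀ y ∈ gmF l (P w.1 j (pre n (c + j * l) w.2)) k,
          P w.1 j (pre n (c + j * l) w.2) k y with hT0
      have hT' : ((range J).filter fun j => ¬ sm j).card ≤ 2 * T0.card := by convert hT
      let gd : ℕ → Prop := fun j =>
        Good k j (pre n (C k - (c + j * l)) w.1) (pre n (c + j * l) w.2)
      have hs2 := card_filter_add_card_filter_not (s := T0) gd
      have hb := hbad k hk (T0.filter fun j => ¬ gd j) fun j hj => by
        obtain ⟨h1, h2⟩ := mem_filter.1 hj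
        exact ⟨mem_range.1 (mem_filter.1 (mem_filter.1 h1).1).1, h2⟩
      refine mem_union_right _ (mem_biUnion.2 ⟨k, mem_range.2 hk,
        mem_filter.2 ⟨hw, T0.filter gd, by omega, ?_⟩⟩)
      intro j hj
      obtain ⟨h1, h2⟩ := mem_filter.1 hj
      obtain ⟨h3, h4⟩ := mem_filter.1 h1
      obtain ⟨h5, h6⟩ := mem_filter.1 h3
      rw [mem_range] at h5
      have e0 := hjl j h5
      have e1 := hlo k hk
      have e2 := hhi k hk
      have e3 : pre n (C k - (c + j * l) + l) w.1 / 2 ^ l = pre n (C k - (c + j * l)) w.1 :=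
        gm_pre_div' n _ l _ (by omega)
      have e4 : gmF l (P' k (pre n (C k - (c + j * l)) w.1) j (pre n (c + j * l) w.2)) k =
          gmF l (P w.1 j (pre n (c + j * l) w.2)) k := by
        refine gm_congr l _ _ k fun k' hk' y => ?_
        have e5 := hC k' k hk' hk
        have e6 := hlo k' (by omega)
        show OK k' j _ _ ↔ OK k' j _ _
        rw [gm_pre_div n _ _ _ (by omega) (by omega)]
      refine ⟨h5, ?_, ?_, ?_⟩
      · rw [e3]
        exact h2
      · rw [e3, e4]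
        exact lt_of_lt_of_le (not_le.1 h6) (card_le_card (gm_anti l _ k N hk.le))
      · rw [e3, e4]
        exact h4
  have c1 : A.card ≤ A1.card + ∑ k ∈ range N, (A2 k).card :=
    (card_le_card cover).trans ((card_union_le _ _).trans (Nat.add_le_add_left card_biUnion_le _))
  have c2 : (A.card : ℝ) ≤ A1.card + ∑ k ∈ range N, ((A2 k).card : ℝ) := by exact_mod_cast c1
  have c3 := sum_le_sum b2
  simp only [sum_const, card_range, nsmul_eq_mul] at c3
  calc (A.card : ℝ) ≤ 2 ^ n * W + N * (2 ^ n * W) := by linarith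
    _ = (N + 1) * 2 ^ n * W := by ring

end Pool.Agent.Lib.MP_e56372_nt.Dim
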