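import Pool.Agent.Lib.MP_e56372_nt.Dim.Defs

set_option autoImplicit false
open Finset

namespace Pool.Agent.Lib.MP_e56372_nt.Dim

theorem jk_abs3 (a b c A B C : ℝ) (ha : |a| ≤ A) (hb : |b| ≤ B) (hc : |c| ≤ C) :
    |a * b * c| ≤ A * B * C := by
  rw [abs_mul, abs_mul]
  have := abs_nonneg a; have := abs_nonneg b; have := abs_nonneg c
  gcongr
  · exact mul_nonneg (le_trans (abs_nonneg _) ha) (le_trans (abs_nonneg _) hb)
  · exact le_trans (abs_nonneg _) ha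

theorem jk_three (x N r A B C κ : ℝ) (hx : 2 ^ 20 ≤ x) (hN : x ^ 386 ≤ N)
    (hκ : κ = r * C - A * B) (hκ1 : N ^ 2 / 4 ≤ κ) (hκ2 : κ ≤ 4 * N ^ 2)
    (hr1 : 1 / (4 * x ^ 43) ≤ |r|) (hr2 : |r| ≤ 3 * x ^ 2) (i1 i2 i3 j1 j2 j3 : ℤ)
    (h12 : i1 ≠ i2) (h13 : i1 ≠ i3) (h23 : i2 ≠ i3)
    (d12 : |(i2 : ℝ) - i1| ≤ x ^ 100) (d13 : |(i3 : ℝ) - i1| ≤ x ^ 100)
    (d23 : |(i3 : ℝ) - i2| ≤ x ^ 100)
    (a1 : N / 4 ≤ |r * i1 + B|) (a2 : N / 4 ≤ |r * i2 + B|) (a3 : N / 4 ≤ |r * i3 + B|)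
    (b1 : |r * i1 + B| ≤ 4 * N) (b2 : |r * i2 + B| ≤ 4 * N) (b3 : |r * i3 + B| ≤ 4 * N)
    (c1 : |r * i1 * j1 + A * i1 + B * j1 + C| ≤ 4 / x ^ 300)
    (c2 : |r * i2 * j2 + A * i2 + B * j2 + C| ≤ 4 / x ^ 300)
    (c3 : |r * i3 * j3 + A * i3 + B * j3 + C| ≤ 4 / x ^ 300) : False := by
  have hx0 : 0 < x := by linarith [show (0 : ℝ) < 2 ^ 20 by norm_num]
  have hx1 : 1 ≤ x := by linarith [show (1 : ℝ) ≤ 2 ^ 20 by norm_num]
  have hN0 : 0 < N := lt_of_lt_of_le (by positivity) hN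
  set I1 := r * i1 + B with hI1
  set I2 := r * i2 + B with hI2
  set I3 := r * i3 + B with hI3
  set H1 := r * i1 * j1 + A * i1 + B * j1 + C with hH1
  set H2 := r * i2 * j2 + A * i2 + B * j2 + C with hH2
  set H3 := r * i3 * j3 + A * i3 + B * j3 + C with hH3
  set D : ℤ := (i2 - i1) * (j3 - j1) - (i3 - i1) * (j2 - j1) with hD
  set Pr : ℝ := ((i2 : ℝ) - i1) * ((i3 : ℝ) - i1) * ((i3 : ℝ) - i2) with hPr
  set Er : ℝ := H1 * (I2 * I3) * ((i3 : ℝ) - i2) - H2 * (I1 * I3) * ((i3 : ℝ) - i1) +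
    H3 * (I1 * I2) * ((i2 : ℝ) - i1) with hEr
  have key : (D : ℝ) * (I1 * I2 * I3) = -(κ * r * Pr) + Er := by
    rw [hD, hκ, hPr, hEr, hI1, hI2, hI3, hH1, hH2, hH3]; push_cast; ring
  have m2 : ∀ u v : ℝ, |u| ≤ 4 * N → |v| ≤ 4 * N → |u * v| ≤ 16 * N ^ 2 := by
    intro u v hu hv
    rw [abs_mul]
    calc |u| * |v| ≤ (4 * N) * (4 * N) := by gcongr
      _ = 16 * N ^ 2 := by ring
  have e1 := jk_abs3 _ _ _ _ _ _ c1 (m2 _ _ b2 b3) d23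
  have e2 := jk_abs3 _ _ _ _ _ _ c2 (m2 _ _ b1 b3) d13
  have e3 := jk_abs3 _ _ _ _ _ _ c3 (m2 _ _ b1 b2) d12
  have hE : |Er| ≤ 192 * N ^ 2 / x ^ 200 := by
    have : 4 / x ^ 300 * (16 * N ^ 2) * x ^ 100 = 64 * N ^ 2 / x ^ 200 := by field_simp; ring
    rw [this] at e1 e2 e3
    have t1 := abs_add_le (H1 * (I2 * I3) * ((i3 : ℝ) - i2) - H2 * (I1 * I3) * ((i3 : ℝ) - i1))
      (H3 * (I1 * I2) * ((i2 : ℝ) - i1))
    have t2 := abs_sub (H1 * (I2 * I3) * ((i3 : ℝ) - i2)) (H2 * (I1 * I3) * ((i3 : ℝ) - i1))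
    have : 192 * N ^ 2 / x ^ 200 = 3 * (64 * N ^ 2 / x ^ 200) := by ring
    rw [this, hEr]; linarith
  have one : ∀ u v : ℤ, u ≠ v → (1 : ℝ) ≤ |(v : ℝ) - u| := by
    intro u v h
    have : (1 : ℤ) ≤ |v - u| := Int.one_le_abs (sub_ne_zero.2 h.symm)
    exact_mod_cast this
  have p1 : 1 ≤ |Pr| := by
    rw [hPr, abs_mul, abs_mul]
    have := one _ _ h12; have := one _ _ h13; have := one _ _ h23
    exact one_le_mul_of_one_le_of_one_le (one_le_mul_of_one_le_of_one_le ‹_› ‹_›) ‹_›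
  have p2 : |Pr| ≤ x ^ 300 := by
    have := jk_abs3 _ _ _ _ _ _ d12 d13 d23
    calc |Pr| ≤ x ^ 100 * x ^ 100 * x ^ 100 := this
      _ = x ^ 300 := by ring
  have hκ0 : 0 ≤ κ := le_trans (by positivity) hκ1
  have hM : |κ * r * Pr| = κ * |r| * |Pr| := by rw [abs_mul, abs_mul, abs_of_nonneg hκ0]
  by_cases h0 : D = 0
  · have : κ * r * Pr = Er := by rw [h0] at key; push_cast at key; linarith
    rw [this] at hM
    have l1 : N ^ 2 / 4 * (1 / (4 * x ^ 43)) * 1 ≤ κ * |r| * |Pr| := by gcongr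
    have l2 : N ^ 2 / 4 * (1 / (4 * x ^ 43)) * 1 ≤ 192 * N ^ 2 / x ^ 200 := by linarith
    have l3 : x ^ 157 ≤ 3072 := by
      have : N ^ 2 / 4 * (1 / (4 * x ^ 43)) * 1 = (N ^ 2 / (16 * x ^ 200)) * x ^ 157 := by
        field_simp; ring
      rw [this] at l2
      have h' : 192 * N ^ 2 / x ^ 200 = (N ^ 2 / (16 * x ^ 200)) * 3072 := by field_simp; ring
      rw [h'] at l2
      exact le_of_mul_le_mul_left l2 (by positivity)
    have : x ≤ x ^ 157 := le_self_pow₀ hx1 (by norm_num)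
    linarith [show (3072 : ℝ) < 2 ^ 20 by norm_num]
  · have hD1 : (1 : ℝ) ≤ |(D : ℝ)| := by exact_mod_cast Int.one_le_abs h0
    have l1 : 1 * (N / 4 * (N / 4) * (N / 4)) ≤ |(D : ℝ) * (I1 * I2 * I3)| := by
      rw [abs_mul, abs_mul, abs_mul]; gcongr
    have l2 : |(D : ℝ) * (I1 * I2 * I3)| ≤ 4 * N ^ 2 * (3 * x ^ 2) * x ^ 300 + 192 * N ^ 2 := by
      rw [key]
      have t := abs_add_le (-(κ * r * Pr)) Er
      rw [abs_neg, hM] at t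
      have u : κ * |r| * |Pr| ≤ 4 * N ^ 2 * (3 * x ^ 2) * x ^ 300 := by gcongr
      have v : 192 * N ^ 2 / x ^ 200 ≤ 192 * N ^ 2 :=
        div_le_self (by positivity) (one_le_pow₀ hx1)
      linarith
    have l3 : N ≤ 768 * x ^ 302 + 12288 := by
      have : N ^ 2 / 64 * N ≤ N ^ 2 / 64 * (768 * x ^ 302 + 12288) := by
        calc N ^ 2 / 64 * N = 1 * (N / 4 * (N / 4) * (N / 4)) := by ring
          _ ≤ _ := l1.trans l2
          _ = _ := by ring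
      exact le_of_mul_le_mul_left this (by positivity)
    have l4 : 1 ≤ x ^ 302 := one_le_pow₀ hx1
    have l5 : x ^ 302 * x ≤ x ^ 386 := by
      rw [← pow_succ]; exact pow_le_pow_right₀ hx1 (by norm_num)
    have l6 : x ^ 302 * 2 ^ 20 ≤ x ^ 302 * x := by gcongr
    norm_num at l6
    linarith

theorem jk_point (x α P Q P' Q' e0 e1 ν : ℝ) (hx : 2 ^ 20 ≤ x) (he0 : |e0| ≤ x)
    (hν : x ^ 386 ≤ |ν|) (hν' : ν = P' * e1 - Q' * e0)
    (p1 : -(2 * x ^ 400) ≤ P) (p2 : P ≤ -x ^ 400) (q1 : x ^ 400 ≤ Q) (q2 : Q ≤ 2 * x ^ 400)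
    (p1' : -(2 * x ^ 400) ≤ P') (p2' : P' ≤ -x ^ 400) (q1' : x ^ 400 ≤ Q')
    (h : |α - (-P / Q) / (-P' / Q')| ≤ 1 / x ^ 1100) :
    |P * Q' - α * Q * P'| ≤ 4 / x ^ 300 ∧ |ν| / 4 ≤ |P * e1 - α * Q * e0| ∧
      |P * e1 - α * Q * e0| ≤ 4 * |ν| := by
  have hx0 : 0 < x := by linarith [show (0 : ℝ) < 2 ^ 20 by norm_num]
  have hx1 : 1 ≤ x := by linarith [show (1 : ℝ) ≤ 2 ^ 20 by norm_num]
  set U := x ^ 400 with hU
  have hU0 : 0 < U := by positivity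
  have hQ : 0 < Q := by linarith
  have hQ' : 0 < Q' := by linarith
  have hP' : P' < 0 := by linarith
  have hH : |P * Q' - α * Q * P'| ≤ 4 / x ^ 300 := by
    have : P * Q' - α * Q * P' = (α - (-P / Q) / (-P' / Q')) * Q * (-P') := by
      have := hP'.ne; field_simp; ring
    rw [this]
    have t := jk_abs3 _ Q (-P') _ (2 * U) (2 * U) h (by rw [abs_of_pos hQ]; exact q2)
      (by rw [abs_of_pos (by linarith)]; linarith)
    refine t.trans (le_of_eq ?_)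
    rw [hU]; field_simp; ring
  refine ⟨hH, ?_⟩
  have id : (P * e1 - α * Q * e0) * P' = P * ν + e0 * (P * Q' - α * Q * P') := by rw [hν']; ring
  have hs : |e0 * (P * Q' - α * Q * P')| ≤ U * |ν| / 2 := by
    rw [abs_mul]
    have a1 : |e0| * |P * Q' - α * Q * P'| ≤ x * 4 := by
      have : 4 / x ^ 300 ≤ 4 := div_le_self (by norm_num) (one_le_pow₀ hx1)
      gcongr; linarith
    have a2 : x ≤ U := le_self_pow₀ hx1 (by norm_num)
    have a3 : x ≤ |ν| := (le_self_pow₀ hx1 (by norm_num)).trans hν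
    have a4 : (8 : ℝ) ≤ |ν| := by linarith [show (8 : ℝ) ≤ 2 ^ 20 by norm_num]
    nlinarith
  have hP1 : U ≤ |P| := by rw [abs_of_neg (by linarith)]; linarith
  have hP2 : |P| ≤ 2 * U := by rw [abs_of_neg (by linarith)]; linarith
  have hP1' : U ≤ |P'| := by rw [abs_of_neg hP']; linarith
  have hP2' : |P'| ≤ 2 * U := by rw [abs_of_neg hP']; linarith
  have n0 := abs_nonneg ν
  have i0 := abs_nonneg (P * e1 - α * Q * e0)
  have id2 : |P * e1 - α * Q * e0| * |P'| = |P * ν + e0 * (P * Q' - α * Q * P')| := by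
    rw [← abs_mul, id]
  have up := abs_add_le (P * ν) (e0 * (P * Q' - α * Q * P'))
  have lo : |P * ν| ≤ |P * ν + e0 * (P * Q' - α * Q * P')| + |e0 * (P * Q' - α * Q * P')| := by
    have := abs_sub (P * ν + e0 * (P * Q' - α * Q * P')) (e0 * (P * Q' - α * Q * P'))
    simpa using this
  rw [abs_mul P ν] at up lo
  have m1 : U * |ν| ≤ |P| * |ν| := by gcongr
  have m2 : |P| * |ν| ≤ 2 * U * |ν| := by gcongr
  have m3 : |P * e1 - α * Q * e0| * U ≤ |P * e1 - α * Q * e0| * |P'| := by gcongr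
  have m4 : |P * e1 - α * Q * e0| * |P'| ≤ |P * e1 - α * Q * e0| * (2 * U) := by gcongr
  constructor
  · have : |ν| / 4 * U ≤ |P * e1 - α * Q * e0| * U := by nlinarith
    exact le_of_mul_le_mul_right this hU0
  · have : |P * e1 - α * Q * e0| * U ≤ 4 * |ν| * U := by nlinarith [mul_nonneg hU0.le n0]
    exact le_of_mul_le_mul_right this hU0

theorem pairs_jarnik (b : ℕ) (hb : 2 ^ 20 ≤ b) (e f g : V3) (h : Frame b e f g) (p : ℤ × ℤ)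
    (hp : p ∈ Pen b e f g) (α : ℝ) (hα1 : 1 / 4 ≤ α) (hα2 : α ≤ 4)
    (hα3 : 1 / (4 * (b : ℝ) ^ 43) ≤ |1 - α|) (S : Finset (ℤ × ℤ))
    (hS : ∀ w ∈ S, w.1 ∈ Pts b e f g p ∧ w.2 ∈ Pts b e f g p ∧
      |α - al e f g (p, w)| ≤ 1 / (b : ℝ) ^ 1100) :
    (S.card : ℝ) ≤ 5 * (b : ℝ) ^ 300 := by
  classical
  have hx : (2 : ℝ) ^ 20 ≤ b := by exact_mod_cast hb
  have hx0 : (0 : ℝ) < b := by linarith [show (0 : ℝ) < 2 ^ 20 by norm_num]
  have hx1 : (1 : ℝ) ≤ b := by linarith [show (1 : ℝ) ≤ 2 ^ 20 by norm_num]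
  set p0 : ℝ := p.1 * f 0 + p.2 * g 0 with hp0
  set q0 : ℝ := p.1 * f 1 + p.2 * g 1 with hq0
  set ν : ℝ := p0 * e 1 - q0 * e 0 with hνd
  have hν : (b : ℝ) ^ 386 ≤ |ν| := by
    have := (mem_filter.1 hp).2.1
    convert this using 2
    simp only [nu3, cmb, hνd, hp0, hq0]; push_cast; ring
  set r : ℝ := (1 - α) * (e 0 * e 1) with hr
  set A : ℝ := e 0 * q0 - α * (e 1 * p0) with hA
  set B : ℝ := p0 * e 1 - α * (q0 * e 0) with hB
  set C : ℝ := (1 - α) * (p0 * q0) with hC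
  have hpt : ∀ w ∈ S, |r * w.1 * w.2 + A * w.1 + B * w.2 + C| ≤ 4 / (b : ℝ) ^ 300 ∧
      |ν| / 4 ≤ |r * w.1 + B| ∧ |r * w.1 + B| ≤ 4 * |ν| := by
    intro w hw
    obtain ⟨s1, s2, s3⟩ := hS w hw
    obtain ⟨a1, a2, a3, a4, -⟩ := (mem_filter.1 s1).2
    obtain ⟨c1, c2, c3, -, -⟩ := (mem_filter.1 s2).2
    have := jk_point b α _ _ _ _ (e 0) (e 1) ν hx (h.he 0) hν
      (by simp only [cmb, hνd, hp0, hq0]; ring) a1 a2 a3 a4 c1 c2 c3 s3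
    have i1 : cmb e f g w.1 p.1 p.2 0 * cmb e f g w.2 p.1 p.2 1 -
        α * cmb e f g w.1 p.1 p.2 1 * cmb e f g w.2 p.1 p.2 0 =
        r * w.1 * w.2 + A * w.1 + B * w.2 + C := by
      simp only [cmb, hr, hA, hB, hC, hp0, hq0]; ring
    have i2 : cmb e f g w.1 p.1 p.2 0 * e 1 - α * cmb e f g w.1 p.1 p.2 1 * e 0 = r * w.1 + B := by
      simp only [cmb, hr, hB, hp0, hq0]; ring
    rwa [i1, i2] at this
  have hinj : ∀ w ∈ S, ∀ w' ∈ S, w.1 = w'.1 → w = w' := by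
    intro w hw w' hw' h1
    by_contra hne
    have h2 : w.2 ≠ w'.2 := fun h2 => hne (Prod.ext h1 h2)
    have o : (1 : ℝ) ≤ |(w.2 : ℝ) - w'.2| := by
      have : (1 : ℤ) ≤ |w.2 - w'.2| := Int.one_le_abs (sub_ne_zero.2 h2)
      exact_mod_cast this
    obtain ⟨a1, a2, -⟩ := hpt w hw
    obtain ⟨c1, -, -⟩ := hpt w' hw'
    rw [← h1] at c1
    have t := abs_sub (r * w.1 * w.2 + A * w.1 + B * w.2 + C)
      (r * w.1 * w'.2 + A * w.1 + B * w'.2 + C)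
    have id : r * w.1 * w.2 + A * w.1 + B * w.2 + C - (r * w.1 * w'.2 + A * w.1 + B * w'.2 + C)
        = (r * w.1 + B) * ((w.2 : ℝ) - w'.2) := by ring
    rw [id, abs_mul] at t
    have u : |ν| / 4 * 1 ≤ |r * w.1 + B| * |(w.2 : ℝ) - w'.2| := by gcongr
    have v : 4 / (b : ℝ) ^ 300 ≤ 4 := div_le_self (by norm_num) (one_le_pow₀ hx1)
    have a3 : (b : ℝ) ≤ |ν| := (le_self_pow₀ hx1 (by norm_num)).trans hν
    linarith [show (32 : ℝ) < 2 ^ 20 by norm_num]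
  have hee : 1 ≤ |e 0 * e 1| := by
    rw [abs_mul]; exact one_le_mul_of_one_le_of_one_le h.he0 h.he1
  have hee2 : |e 0 * e 1| ≤ (b : ℝ) ^ 2 := by
    rw [abs_mul, sq]; gcongr
    · exact h.he 0
    · exact h.he 1
  have hr1 : 1 / (4 * (b : ℝ) ^ 43) ≤ |r| := by
    rw [hr, abs_mul]; exact hα3.trans (le_mul_of_one_le_right (abs_nonneg _) hee)
  have hr2 : |r| ≤ 3 * (b : ℝ) ^ 2 := by
    rw [hr, abs_mul]
    have : |1 - α| ≤ 3 := abs_le.2 ⟨by linarith, by linarith⟩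
    gcongr
  have hκ : α * ν ^ 2 = r * C - A * B := by simp only [hr, hA, hB, hC, hνd]; ring
  rcases S.eq_empty_or_nonempty with rfl | ⟨w0, hw0⟩
  · simp
  have hrange : ∀ w ∈ S, |w.1 - w0.1| ≤ (b : ℤ) ^ 400 := by
    intro w hw
    obtain ⟨a1, a2, -⟩ := (mem_filter.1 (hS w hw).1).2
    obtain ⟨c1, c2, -⟩ := (mem_filter.1 (hS w0 hw0).1).2
    simp only [cmb] at a1 a2 c1 c2
    have t : |((w.1 : ℝ) - w0.1) * e 0| ≤ (b : ℝ) ^ 400 := abs_le.2 ⟨by linarith, by linarith⟩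
    rw [abs_mul] at t
    have : |(w.1 : ℝ) - w0.1| ≤ (b : ℝ) ^ 400 :=
      (le_mul_of_one_le_right (abs_nonneg _) h.he0).trans t
    exact_mod_cast this
  have hL : (0 : ℤ) < (b : ℤ) ^ 100 := by exact_mod_cast pow_pos hx0 100
  set φ : ℤ × ℤ → ℤ := fun w => (w.1 - w0.1 + (b : ℤ) ^ 400) / (b : ℤ) ^ 100 with hφ
  have hclose : ∀ w w' : ℤ × ℤ, φ w = φ w' → |(w'.1 : ℝ) - w.1| ≤ (b : ℝ) ^ 100 := by
    intro w w' hh
    simp only [hφ] at hh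
    have a1 := Int.emod_add_mul_ediv (w.1 - w0.1 + (b : ℤ) ^ 400) ((b : ℤ) ^ 100)
    have a2 := Int.emod_add_mul_ediv (w'.1 - w0.1 + (b : ℤ) ^ 400) ((b : ℤ) ^ 100)
    have a3 := Int.emod_nonneg (w.1 - w0.1 + (b : ℤ) ^ 400) hL.ne'
    have a4 := Int.emod_nonneg (w'.1 - w0.1 + (b : ℤ) ^ 400) hL.ne'
    have a5 := Int.emod_lt_of_pos (w.1 - w0.1 + (b : ℤ) ^ 400) hL
    have a6 := Int.emod_lt_of_pos (w'.1 - w0.1 + (b : ℤ) ^ 400) hL
    rw [hh] at a1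
    have : |w'.1 - w.1| ≤ (b : ℤ) ^ 100 := abs_le.2 ⟨by linarith, by linarith⟩
    exact_mod_cast this
  have hfib : ∀ a ∈ S.image φ, (S.filter fun w => φ w = a).card ≤ 2 := by
    intro a _
    by_contra hc
    obtain ⟨u, v, w, hu, hv, hw, huv, huw, hvw⟩ := two_lt_card_iff.1 (not_le.1 hc)
    obtain ⟨hu, eu⟩ := mem_filter.1 hu
    obtain ⟨hv, ev⟩ := mem_filter.1 hv
    obtain ⟨hw, ew⟩ := mem_filter.1 hw
    have n2 : |ν| ^ 2 = ν ^ 2 := sq_abs ν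
    have := sq_nonneg ν
    exact jk_three b |ν| r A B C (α * ν ^ 2) hx hν hκ (by rw [n2]; nlinarith) (by rw [n2]; nlinarith)
      hr1 hr2 u.1 v.1 w.1 u.2 v.2 w.2 (fun hh => huv (hinj u hu v hv hh))
      (fun hh => huw (hinj u hu w hw hh)) (fun hh => hvw (hinj v hv w hw hh))
      (hclose u v (eu.trans ev.symm)) (hclose u w (eu.trans ew.symm))
      (hclose v w (ev.trans ew.symm)) (hpt u hu).2.1 (hpt v hv).2.1 (hpt w hw).2.1
      (hpt u hu).2.2 (hpt v hv).2.2 (hpt w hw).2.2 (hpt u hu).1 (hpt v hv).1 (hpt w hw).1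
  have himg : S.image φ ⊆ Icc (0 : ℤ) (2 * (b : ℤ) ^ 300) := by
    intro a ha
    obtain ⟨w, hw, rfl⟩ := mem_image.1 ha
    have := abs_le.1 (hrange w hw)
    refine mem_Icc.2 ⟨Int.ediv_nonneg (by linarith) hL.le, ?_⟩
    apply Int.ediv_le_of_le_mul hL
    have : 2 * (b : ℤ) ^ 300 * (b : ℤ) ^ 100 = 2 * (b : ℤ) ^ 400 := by ring
    linarith
  have c1 := card_le_mul_card_image S 2 hfib
  have c2 := card_le_card himg
  rw [Int.card_Icc] at c2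
  have c3 : ((2 * (b : ℤ) ^ 300 + 1 - 0).toNat : ℤ) = 2 * (b : ℤ) ^ 300 + 1 := by
    rw [sub_zero, Int.toNat_of_nonneg (by positivity)]
  have c4 : (S.card : ℤ) ≤ 2 * (2 * (b : ℤ) ^ 300 + 1) := by
    rw [← c3]; exact_mod_cast c1.trans (Nat.mul_le_mul_left 2 c2)
  have c5 : (S.card : ℝ) ≤ 2 * (2 * (b : ℝ) ^ 300 + 1) := by exact_mod_cast c4
  have : (b : ℝ) ≤ (b : ℝ) ^ 300 := le_self_pow₀ hx1 (by norm_num)
  linarith [show (2 : ℝ) ≤ 2 ^ 20 by norm_num]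

end Pool.Agent.Lib.MP_e56372_nt.Dim
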