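import Pool.Agent.Lib.MP_e56372_nt.Dim.Defs

set_option autoImplicit false
open MeasureTheory Filter Topology Finset

namespace Pool.Agent.Lib.MP_e56372_nt.Dim
open Pool.Agent.Lib.MP_e56372_nt

theorem pairs2_diam (A : Finset ℤ) (D : ℝ) (hD : 0 ≤ D)
    (h : ∀ x ∈ A, ∀ y ∈ A, |(x : ℝ) - y| ≤ D) : (A.card : ℝ) ≤ D + 1 := by
  rcases A.eq_empty_or_nonempty with rfl | hA
  · simp; linarith
  set a := A.min' hA with ha
  have haA : a ∈ A := A.min'_mem hA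
  have hsub : A ⊆ Finset.Icc a (a + ⌊D⌋) := by
    intro x hx
    rw [Finset.mem_Icc]
    refine ⟨A.min'_le x hx, ?_⟩
    have h1 := (abs_le.mp (h x hx a haA)).2
    have h2 : x - a ≤ ⌊D⌋ := by
      rw [Int.le_floor]; push_cast; exact h1
    linarith
  have hc := Finset.card_le_card hsub
  rw [Int.card_Icc] at hc
  have hf : 0 ≤ ⌊D⌋ := Int.floor_nonneg.mpr hD
  have h3 : ((a + ⌊D⌋ + 1 - a).toNat : ℤ) = ⌊D⌋ + 1 := by
    rw [Int.toNat_of_nonneg (by linarith)]; ring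
  have h4 : (A.card : ℤ) ≤ ⌊D⌋ + 1 := by
    rw [← h3]; exact_mod_cast hc
  have h5 : (A.card : ℝ) ≤ (⌊D⌋ : ℝ) + 1 := by exact_mod_cast h4
  have h6 := Int.floor_le D
  linarith

theorem pairs2_nu (e f g : V3) (i n m : ℤ) :
    nu3 e (cmb e f g i n m) = nu3 e (cmb e f g 0 n m) := by
  simp only [nu3, cmb]; push_cast; ring

theorem pairs2_sl (U : ℝ) (hU : 0 < U) (w : V3) (h : InOm U w) : 1 / 2 ≤ sl w ∧ sl w ≤ 2 := by
  obtain ⟨h1, h2, h3, h4, _⟩ := h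
  have hw : 0 < w 1 := by linarith
  unfold sl
  constructor
  · rw [le_div_iff₀ hw]; linarith
  · rw [div_le_iff₀ hw]; linarith

theorem pairs2_pen (b : ℕ) (e f g : V3) (p : ℤ × ℤ) (hp : p ∈ Pen b e f g) :
    (b : ℝ) ^ 386 ≤ |nu3 e (cmb e f g 0 p.1 p.2)| := by
  classical
  unfold Pen at hp
  exact (Finset.mem_filter.mp hp).2.1

theorem pairs2_pts (b : ℕ) (e f g : V3) (p : ℤ × ℤ) (i : ℤ) (hi : i ∈ Pts b e f g p) :
    InOm ((b : ℝ) ^ 400) (cmb e f g i p.1 p.2) := by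
  classical
  unfold Pts at hi
  exact (Finset.mem_filter.mp hi).2

theorem pairs2_gap (U N : ℝ) (hU : 0 < U) (hN : 0 < N) (e w u v : V3) (k : ℝ)
    (hw : InOm U w) (hu : InOm U u) (hv : InOm U v) (h0 : v 0 = u 0 + k * e 0)
    (h1 : v 1 = u 1 + k * e 1) (hn : N ≤ |nu3 e u|) :
    |k| * N / (8 * U ^ 2) ≤ |sl w / sl u - sl w / sl v| := by
  have hs := (pairs2_sl U hU w hw).1
  obtain ⟨a1, a2, a3, a4, _⟩ := hu
  obtain ⟨b1, b2, b3, b4, _⟩ := hv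
  have u0 : u 0 ≠ 0 := by linarith
  have v0 : v 0 ≠ 0 := by linarith
  have u1 : u 1 ≠ 0 := by linarith
  have v1 : v 1 ≠ 0 := by linarith
  have key : sl w / sl u - sl w / sl v = sl w * (k * nu3 e u) / (u 0 * v 0) := by
    have hx : k * nu3 e u = v 1 * u 0 - u 1 * v 0 := by rw [h0, h1]; unfold nu3; ring
    rw [hx]
    generalize sl w = s
    unfold sl
    field_simp
    ring
  have hpos : 0 < u 0 * v 0 := mul_pos_of_neg_of_neg (by linarith) (by linarith)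
  have hle : u 0 * v 0 ≤ 4 * U ^ 2 := by nlinarith
  rw [key, abs_div, abs_of_pos hpos, abs_mul, abs_mul, abs_of_pos (by linarith : 0 < sl w),
    div_le_div_iff₀ (by positivity) hpos]
  have hk := abs_nonneg k
  have t1 : |k| * N * (u 0 * v 0) ≤ |k| * N * (4 * U ^ 2) :=
    mul_le_mul_of_nonneg_left hle (by positivity)
  have t2 : |k| * N ≤ |k| * |nu3 e u| := mul_le_mul_of_nonneg_left hn hk
  have t3 : |k| * N * (4 * U ^ 2) ≤ |k| * |nu3 e u| * (4 * U ^ 2) :=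
    mul_le_mul_of_nonneg_right t2 (by positivity)
  have t4 : 0 ≤ |k| * |nu3 e u| * (8 * U ^ 2) := by positivity
  nlinarith

theorem pairs_general (b : ℕ) (hb : 2 ^ 20 ≤ b) (e f g : V3) (h : Frame b e f g) (p : ℤ × ℤ)
    (hp : p ∈ Pen b e f g) (α ρ : ℝ) (hρ : 0 ≤ ρ) (S : Finset (ℤ × ℤ))
    (hS : ∀ w ∈ S, w.1 ∈ Pts b e f g p ∧ w.2 ∈ Pts b e f g p ∧ |α - al e f g (p, w)| ≤ ρ) :
    (S.card : ℝ) ≤ 2 * (b : ℝ) ^ 400 * (16 * ρ * (b : ℝ) ^ 414 + 1) := by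
  classical
  have hb1 : (1 : ℝ) ≤ b := by exact_mod_cast le_trans (by norm_num) hb
  have hb0 : (0 : ℝ) < b := by linarith
  have hU1 : (1 : ℝ) ≤ (b : ℝ) ^ 400 := one_le_pow₀ hb1
  have hU : (0 : ℝ) < (b : ℝ) ^ 400 := by linarith
  have hN := pairs2_pen b e f g p hp
  have himg : ((S.image Prod.fst).card : ℝ) ≤ (b : ℝ) ^ 400 + 1 := by
    apply pairs2_diam _ _ hU.le
    intro x hx y hy
    obtain ⟨w, hw, rfl⟩ := Finset.mem_image.mp hx
    obtain ⟨w', hw', rfl⟩ := Finset.mem_image.mp hy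
    obtain ⟨a1, a2, _⟩ := pairs2_pts b e f g p _ (hS w hw).1
    obtain ⟨b1, b2, _⟩ := pairs2_pts b e f g p _ (hS w' hw').1
    have hd : cmb e f g w.1 p.1 p.2 0 - cmb e f g w'.1 p.1 p.2 0 = ((w.1 : ℝ) - w'.1) * e 0 := by
      simp only [cmb]; ring
    have h2 : |((w.1 : ℝ) - w'.1) * e 0| ≤ (b : ℝ) ^ 400 := by
      rw [← hd, abs_le]; constructor <;> linarith
    rw [abs_mul] at h2
    have h3 := h.he0
    nlinarith [abs_nonneg ((w.1 : ℝ) - w'.1)]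
  have hfib : ∀ i ∈ S.image Prod.fst,
      ((S.filter fun w => w.1 = i).card : ℝ) ≤ 16 * ρ * (b : ℝ) ^ 414 + 1 := by
    intro i _
    have hinj : ((S.filter fun w => w.1 = i).image Prod.snd).card
        = (S.filter fun w => w.1 = i).card := by
      apply Finset.card_image_of_injOn
      intro w hw w' hw' hww
      have e1 := (Finset.mem_filter.mp (Finset.mem_coe.mp hw)).2
      have e2 := (Finset.mem_filter.mp (Finset.mem_coe.mp hw')).2
      exact Prod.ext (e1.trans e2.symm) hww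
    rw [← hinj]
    apply pairs2_diam _ _ (by positivity)
    intro x hx y hy
    obtain ⟨w, hw, rfl⟩ := Finset.mem_image.mp hx
    obtain ⟨w', hw', rfl⟩ := Finset.mem_image.mp hy
    obtain ⟨hwS, e1⟩ := Finset.mem_filter.mp hw
    obtain ⟨hwS', e2⟩ := Finset.mem_filter.mp hw'
    obtain ⟨a1, a2, a3⟩ := hS w hwS
    obtain ⟨_, b2, b3⟩ := hS w' hwS'
    have hg := pairs2_gap _ ((b : ℝ) ^ 386) hU (by positivity) e (cmb e f g w.1 p.1 p.2)
      (cmb e f g w'.2 p.1 p.2) (cmb e f g w.2 p.1 p.2) ((w.2 : ℝ) - w'.2)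
      (pairs2_pts b e f g p _ a1) (pairs2_pts b e f g p _ b2) (pairs2_pts b e f g p _ a2)
      (by simp only [cmb]; ring) (by simp only [cmb]; ring) (by rw [pairs2_nu]; exact hN)
    have c1 : al e f g (p, w) = sl (cmb e f g w.1 p.1 p.2) / sl (cmb e f g w.2 p.1 p.2) := rfl
    have c2 : al e f g (p, w') = sl (cmb e f g w.1 p.1 p.2) / sl (cmb e f g w'.2 p.1 p.2) := by
      have : w'.1 = w.1 := e2.trans e1.symm
      rw [← this]; rfl
    rw [← c1, ← c2] at hg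
    have h2 : |al e f g (p, w') - al e f g (p, w)| ≤ 2 * ρ := by
      rw [abs_le] at a3 b3 ⊢
      constructor <;> linarith [a3.1, a3.2, b3.1, b3.2]
    have h3 := hg.trans h2
    rw [div_le_iff₀ (by positivity)] at h3
    have h4 : 2 * ρ * (8 * ((b : ℝ) ^ 400) ^ 2) = 16 * ρ * (b : ℝ) ^ 414 * (b : ℝ) ^ 386 := by
      ring
    rw [h4] at h3
    exact le_of_mul_le_mul_right h3 (by positivity)
  have hsum : (S.card : ℝ) = ∑ i ∈ S.image Prod.fst, ((S.filter fun w => w.1 = i).card : ℝ) := by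
    rw [Finset.card_eq_sum_card_image Prod.fst S]; push_cast; rfl
  have hK : 0 ≤ 16 * ρ * (b : ℝ) ^ 414 + 1 := by positivity
  rw [hsum]
  refine (Finset.sum_le_sum hfib).trans ?_
  rw [Finset.sum_const, nsmul_eq_mul]
  apply mul_le_mul_of_nonneg_right _ hK
  linarith

theorem far_al (b : ℕ) (hb : 2 ≤ b) (e f g : V3) (q : (ℤ × ℤ) × ℤ × ℤ) (hq : q ∈ Far b e f g) :
    1 / 4 ≤ al e f g q ∧ al e f g q ≤ 4 ∧ 1 / (4 * (b : ℝ) ^ 43) ≤ |1 - al e f g q| := by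
  classical
  have hb1 : (1 : ℝ) ≤ b := by exact_mod_cast le_trans (by norm_num) hb
  have hb0 : (0 : ℝ) < b := by linarith
  have hU : (0 : ℝ) < (b : ℝ) ^ 400 := by positivity
  unfold Far at hq
  obtain ⟨hq1, hi, hj, hk⟩ := Finset.mem_filter.mp hq
  have hN := pairs2_pen b e f g q.1 (Finset.mem_product.mp hq1).1
  have wi := pairs2_pts b e f g q.1 _ hi
  have wj := pairs2_pts b e f g q.1 _ hj
  obtain ⟨s1, s2⟩ := pairs2_sl _ hU _ wi
  obtain ⟨t1, t2⟩ := pairs2_sl _ hU _ wj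
  have hal : al e f g q = sl (cmb e f g q.2.1 q.1.1 q.1.2) / sl (cmb e f g q.2.2 q.1.1 q.1.2) :=
    rfl
  have hk' : (b : ℝ) ^ 371 ≤ |(q.2.1 : ℝ) - q.2.2| := by exact_mod_cast hk
  rw [← pairs2_nu e f g q.2.1] at hN
  have d0 : cmb e f g q.2.2 q.1.1 q.1.2 0
      = cmb e f g q.2.1 q.1.1 q.1.2 0 - ((q.2.1 : ℝ) - q.2.2) * e 0 := by
    simp only [cmb]; ring
  have d1 : cmb e f g q.2.2 q.1.1 q.1.2 1
      = cmb e f g q.2.1 q.1.1 q.1.2 1 - ((q.2.1 : ℝ) - q.2.2) * e 1 := by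
    simp only [cmb]; ring
  rw [hal]
  generalize cmb e f g q.2.1 q.1.1 q.1.2 = w at *
  generalize cmb e f g q.2.2 q.1.1 q.1.2 = v at *
  generalize (q.2.1 : ℝ) - q.2.2 = k at *
  have hv : 0 < sl v := by linarith
  refine ⟨?_, ?_, ?_⟩
  · rw [le_div_iff₀ hv]; linarith
  · rw [div_le_iff₀ hv]; linarith
  obtain ⟨a1, a2, a3, a4, _⟩ := wi
  obtain ⟨b1, b2, b3, b4, _⟩ := wj
  have v0 : v 0 ≠ 0 := by linarith
  have w1 : w 1 ≠ 0 := by linarith
  have v1 : v 1 ≠ 0 := by linarith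
  have key : 1 - sl w / sl v = (k * nu3 e w) / (w 1 * v 0) := by
    have hx : k * nu3 e w = w 1 * v 0 - w 0 * v 1 := by rw [d0, d1]; unfold nu3; ring
    rw [hx]
    unfold sl
    field_simp
  have hneg : w 1 * v 0 < 0 := mul_neg_of_pos_of_neg (by linarith) (by linarith)
  have hle : -(w 1 * v 0) ≤ 4 * ((b : ℝ) ^ 400) ^ 2 := by nlinarith
  rw [key, abs_div, abs_of_neg hneg, abs_mul, div_le_div_iff₀ (by positivity) (by linarith)]
  have t5 : (b : ℝ) ^ 371 * (b : ℝ) ^ 386 ≤ |k| * |nu3 e w| :=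
    mul_le_mul hk' hN (by positivity) (abs_nonneg k)
  have t6 : (b : ℝ) ^ 371 * (b : ℝ) ^ 386 * (4 * (b : ℝ) ^ 43)
      ≤ |k| * |nu3 e w| * (4 * (b : ℝ) ^ 43) := mul_le_mul_of_nonneg_right t5 (by positivity)
  have t7 : (b : ℝ) ^ 371 * (b : ℝ) ^ 386 * (4 * (b : ℝ) ^ 43) = 4 * ((b : ℝ) ^ 400) ^ 2 := by
    ring
  linarith

end Pool.Agent.Lib.MP_e56372_nt.Dim
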