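import Pool.Agent.Lib.MP_e56372_nt.Dim.Defs

set_option autoImplicit false
open MeasureTheory Filter Topology Finset

namespace Pool.Agent.Lib.MP_e56372_nt.Dim
open Pool.Agent.Lib.MP_e56372_nt

/-- integer points with a bounded wedge against a vector with a large primitive part. -/
theorem wedge_cnt (n m K R V : ℤ) (hK : 0 ≤ K) (hV : 0 ≤ V) (hn : n ≠ 0)
    (hR : R * (Int.gcd n m : ℤ) ≤ K * |n|) (S : Finset (ℤ × ℤ))
    (hS : ∀ p ∈ S, |p.1| ≤ R ∧ |n * p.2 - m * p.1| ≤ V) :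
    (S.card : ℤ) ≤ (2 * V + 1) * (2 * K + 1) := by
  have hg : 0 < Int.gcd n m := Int.gcd_pos_of_ne_zero_left m hn
  obtain ⟨n', m', hc, hn', hm'⟩ := Int.exists_gcd_one hg
  set g : ℤ := (Int.gcd n m : ℤ) with hgdef
  have hg0 : (0 : ℤ) < g := by rw [hgdef]; exact_mod_cast hg
  have hn0 : n' ≠ 0 := by
    rintro rfl
    apply hn; rw [hn']; simp
  have hN : 0 < |n'| := abs_pos.2 hn0
  have hRK : R ≤ K * |n'| := by
    have h1 : |n| = |n'| * g := by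
      conv_lhs => rw [hn']
      rw [abs_mul, abs_of_pos hg0]
    rw [h1, ← mul_assoc] at hR
    exact le_of_mul_le_mul_right hR hg0
  have hcard : S.card ≤ ((Finset.Icc (-V) V) ×ˢ (Finset.Icc (-K) K)).card := by
    refine Finset.card_le_card_of_injOn (fun p => (n * p.2 - m * p.1, p.1 / |n'|)) ?_ ?_
    · intro p hp
      obtain ⟨h1, h2⟩ := hS p (by simpa using hp)
      have h3 := abs_le.1 h1
      have h4 := abs_le.1 h2
      simp only [Finset.coe_product, Finset.coe_Icc, Set.mem_prod, Set.mem_Icc]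
      refine ⟨⟨h4.1, h4.2⟩, ?_, ?_⟩
      · apply Int.le_ediv_of_mul_le hN
        nlinarith [h3.1]
      · apply Int.ediv_le_of_le_mul hN
        nlinarith [h3.2]
    · intro p _ p' _ hpp
      simp only [Prod.mk.injEq] at hpp
      obtain ⟨h1, h2⟩ := hpp
      have h3 : n' * (p.2 - p'.2) = m' * (p.1 - p'.1) := by
        have : g * (n' * (p.2 - p'.2)) = g * (m' * (p.1 - p'.1)) := by
          have e1 : n = n' * g := hn'
          have e2 : m = m' * g := hm'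
          calc g * (n' * (p.2 - p'.2)) = (n' * g) * p.2 - (n' * g) * p'.2 := by ring
            _ = n * p.2 - n * p'.2 := by rw [← e1]
            _ = m * p.1 - m * p'.1 := by linarith
            _ = (m' * g) * p.1 - (m' * g) * p'.1 := by rw [← e2]
            _ = g * (m' * (p.1 - p'.1)) := by ring
        exact mul_left_cancel₀ hg0.ne' this
      have hcop : IsCoprime n' m' := Int.isCoprime_iff_gcd_eq_one.2 hc
      have hdvd : n' ∣ p.1 - p'.1 := hcop.dvd_of_dvd_mul_left ⟨_, h3.symm⟩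
      have hdvd' : |n'| ∣ p.1 - p'.1 := (abs_dvd _ _).2 hdvd
      have hlt : |p.1 - p'.1| < |n'| := by
        have a1 := Int.emod_add_mul_ediv p.1 |n'|
        have a2 := Int.emod_add_mul_ediv p'.1 |n'|
        have a3 := Int.emod_nonneg p.1 hN.ne'
        have a4 := Int.emod_nonneg p'.1 hN.ne'
        have a5 := Int.emod_lt_of_pos p.1 hN
        have a6 := Int.emod_lt_of_pos p'.1 hN
        rw [h2] at a1
        rw [abs_lt]
        constructor <;> linarith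
      have h4 : p.1 - p'.1 = 0 := Int.eq_zero_of_abs_lt_dvd hdvd' hlt
      have h5 : p.2 - p'.2 = 0 := by
        rw [h4, mul_zero] at h3
        exact (mul_eq_zero.1 h3).resolve_left hn0
      exact Prod.ext (by linarith) (by linarith)
  rw [Finset.card_product, Int.card_Icc, Int.card_Icc] at hcard
  have e1 : ((V + 1 - -V).toNat : ℤ) = 2 * V + 1 := by
    rw [Int.toNat_of_nonneg (by linarith)]; ring
  have e2 : ((K + 1 - -K).toNat : ℤ) = 2 * K + 1 := by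
    rw [Int.toNat_of_nonneg (by linarith)]; ring
  have : (S.card : ℤ) ≤ ((V + 1 - -V).toNat : ℤ) * ((K + 1 - -K).toNat : ℤ) := by
    exact_mod_cast hcard
  rwa [e1, e2] at this

/-- the data of one far pair. -/
theorem wedge_data (b : ℕ) (hb : 1 ≤ b) (e f g : V3) (n m i j : ℤ)
    (hq : ((n, m), i, j) ∈ Far b e f g) :
    ∃ μ : ℝ, (b : ℝ) ^ 371 ≤ 4 * (b : ℝ) ^ 800 * |μ| ∧
      al e f g ((n, m), i, j) - 1 =
        μ * (n * (f 0 * e 1 - f 1 * e 0) + m * (g 0 * e 1 - g 1 * e 0)) ∧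
      ga e f g ((n, m), i, j) =
        -(μ * (n * (f 1 * e 2 - f 2 * e 1) + m * (g 1 * e 2 - g 2 * e 1))) ∧
      |al e f g ((n, m), i, j) - 1| ≤ 3 ∧ |ga e f g ((n, m), i, j)| ≤ 16 := by
  classical
  unfold Far at hq
  simp only [Finset.mem_filter] at hq
  obtain ⟨-, hi, hj, hij⟩ := hq
  unfold Pts at hi hj
  simp only [Finset.mem_filter] at hi hj
  obtain ⟨-, a1, a2, a3, a4, a5⟩ := hi
  obtain ⟨-, c1, c2, c3, c4, c5⟩ := hj
  have hb0 : (0 : ℝ) < b := by exact_mod_cast hb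
  set U : ℝ := (b : ℝ) ^ 400 with hU
  have hU0 : 0 < U := by positivity
  set w : V3 := cmb e f g i n m with hw
  set w' : V3 := cmb e f g j n m with hw'
  have hw0 : w 0 = i * e 0 + n * f 0 + m * g 0 := rfl
  have hw1 : w 1 = i * e 1 + n * f 1 + m * g 1 := rfl
  have hw2 : w 2 = i * e 2 + n * f 2 + m * g 2 := rfl
  have hv0 : w' 0 = j * e 0 + n * f 0 + m * g 0 := rfl
  have hv1 : w' 1 = j * e 1 + n * f 1 + m * g 1 := rfl
  have hv2 : w' 2 = j * e 2 + n * f 2 + m * g 2 := rfl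
  have p1 : 0 < w 1 := by linarith
  have p2 : 0 < w' 1 := by linarith
  have p3 : w' 0 < 0 := by linarith
  have p4 : w 0 < 0 := by linarith
  have hal : al e f g ((n, m), i, j) = (w 0 * w' 1) / (w 1 * w' 0) := by
    show sl w / sl w' = _
    unfold sl
    have := p1.ne'; have := p2.ne'; have := p3.ne
    field_simp
  have hga : ga e f g ((n, m), i, j) = (w 2 * w' 1 - w' 2 * w 1) / (w 1 * w' 0) := by
    show (ic w - ic w') / sl w' = _
    unfold sl ic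
    have := p1.ne'; have := p2.ne'; have := p3.ne
    field_simp
    ring
  have hD : w 1 * w' 0 < 0 := mul_neg_of_pos_of_neg p1 p3
  have hDabs : |w 1 * w' 0| = w 1 * (-(w' 0)) := by rw [abs_of_neg hD]; ring
  have hDlo : U * U ≤ w 1 * (-(w' 0)) := mul_le_mul a3 (by linarith) hU0.le p1.le
  have hDhi : w 1 * (-(w' 0)) ≤ (2 * U) * (2 * U) :=
    mul_le_mul a4 (by linarith) (by linarith) (by linarith)
  have hDpos : 0 < w 1 * (-(w' 0)) := by nlinarith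
  refine ⟨((j : ℝ) - i) / (w 1 * w' 0), ?_, ?_, ?_, ?_, ?_⟩
  · rw [abs_div, hDabs]
    have h1 : (b : ℝ) ^ 371 ≤ |(j : ℝ) - i| := by
      have : ((b : ℤ) ^ 371 : ℤ) ≤ |j - i| := by rw [abs_sub_comm]; exact hij
      exact_mod_cast this
    have h2 : (b : ℝ) ^ 800 = U * U := by rw [hU]; ring
    rw [h2, ← mul_div_assoc, le_div_iff₀ hDpos]
    have h3 : 0 ≤ (b : ℝ) ^ 371 := by positivity
    calc (b : ℝ) ^ 371 * (w 1 * -w' 0) ≤ (b : ℝ) ^ 371 * ((2 * U) * (2 * U)) :=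
          mul_le_mul_of_nonneg_left hDhi h3
      _ ≤ |(j : ℝ) - i| * ((2 * U) * (2 * U)) :=
          mul_le_mul_of_nonneg_right h1 (by positivity)
      _ = 4 * (U * U) * |(j : ℝ) - i| := by ring
  · rw [hal, div_sub_one hD.ne, div_mul_eq_mul_div]
    congr 1
    rw [hw0, hw1, hv0, hv1]; ring
  · rw [hga, div_mul_eq_mul_div, ← neg_div]
    congr 1
    rw [hw1, hw2, hv1, hv2]; ring
  · rw [hal, div_sub_one hD.ne, abs_div, hDabs, div_le_iff₀ hDpos, abs_le]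
    have q1 : (-(w 0)) * w' 1 ≤ (2 * U) * (2 * U) :=
      mul_le_mul (by linarith) c4 p2.le (by linarith)
    have q2 : 0 ≤ (-(w 0)) * w' 1 := mul_nonneg (by linarith) p2.le
    have q3 : 2 * U * (2 * U) = 4 * (U * U) := by ring
    have q4 : w 0 * w' 1 - w 1 * w' 0 = w 1 * -w' 0 - -w 0 * w' 1 := by ring
    rw [q4]
    constructor <;> linarith
  · rw [hga, abs_div, hDabs, div_le_iff₀ hDpos]
    have q1 : |w 2 * w' 1| ≤ (4 * U) * (2 * U) := by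
      rw [abs_mul, abs_of_pos p2]
      exact mul_le_mul a5 c4 p2.le (by linarith)
    have q2 : |w' 2 * w 1| ≤ (4 * U) * (2 * U) := by
      rw [abs_mul, abs_of_pos p1]
      exact mul_le_mul c5 a4 p1.le (by linarith)
    have q3 := abs_sub (w 2 * w' 1) (w' 2 * w 1)
    have q4 : 4 * U * (2 * U) = 8 * (U * U) := by ring
    linarith

theorem wedge_bound (b : ℕ) (hb : 1 ≤ b) (e f g : V3) (h : Frame b e f g) (n m i j n' m' i' j' : ℤ)
    (hq : ((n, m), i, j) ∈ Far b e f g) (hq' : ((n', m'), i', j') ∈ Far b e f g) (ρ : ℝ)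
    (h1 : |al e f g ((n, m), i, j) - al e f g ((n', m'), i', j')| ≤ ρ)
    (h2 : |ga e f g ((n, m), i, j) - ga e f g ((n', m'), i', j')| ≤ ρ) :
    |((n * m' - m * n' : ℤ) : ℝ)| ≤ 304 * ρ * (b : ℝ) ^ 858 := by
  obtain ⟨μ, a1, a2, a3, a4, a5⟩ := wedge_data b hb e f g n m i j hq
  obtain ⟨μ', c1, c2, c3, -, -⟩ := wedge_data b hb e f g n' m' i' j' hq'
  set A := al e f g ((n, m), i, j)
  set A' := al e f g ((n', m'), i', j')
  set G := ga e f g ((n, m), i, j)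
  set G' := ga e f g ((n', m'), i', j')
  have hρ : 0 ≤ ρ := (abs_nonneg _).trans h1
  have hb0 : (0 : ℝ) < b := by exact_mod_cast hb
  have hup : |(A - 1) * G' - G * (A' - 1)| ≤ 19 * ρ := by
    have e1 : (A - 1) * G' - G * (A' - 1) = G * (A - A') - (A - 1) * (G - G') := by ring
    rw [e1]
    have q1 : |G * (A - A')| ≤ 16 * ρ := by
      rw [abs_mul]; exact mul_le_mul a5 h1 (abs_nonneg _) (by norm_num)
    have q2 : |(A - 1) * (G - G')| ≤ 3 * ρ := by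
      rw [abs_mul]; exact mul_le_mul a4 h2 (abs_nonneg _) (by norm_num)
    have q3 := abs_sub (G * (A - A')) ((A - 1) * (G - G'))
    linarith
  have hid : (A - 1) * G' - G * (A' - 1) =
      -(μ * μ' * ((n * m' - m * n' : ℤ) : ℝ) * (e 1 * det3 e f g)) := by
    rw [a2, a3, c2, c3]
    unfold det3
    push_cast
    ring
  set v : ℝ := ((n * m' - m * n' : ℤ) : ℝ)
  rw [hid, abs_neg, abs_mul, abs_mul, abs_mul, abs_mul] at hup
  have hed : 1 ≤ |e 1| * |det3 e f g| := one_le_mul_of_one_le_of_one_le h.he1 h.hdet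
  have hv : 0 ≤ |v| := abs_nonneg _
  have hmm : 0 ≤ |μ| * |μ'| * |v| := by positivity
  have k1 : |μ| * |μ'| * |v| ≤ 19 * ρ := by
    calc |μ| * |μ'| * |v| = |μ| * |μ'| * |v| * 1 := by ring
      _ ≤ |μ| * |μ'| * |v| * (|e 1| * |det3 e f g|) := mul_le_mul_of_nonneg_left hed hmm
      _ ≤ 19 * ρ := hup
  have k2 : (b : ℝ) ^ 371 * (b : ℝ) ^ 371 ≤
      (4 * (b : ℝ) ^ 800 * |μ|) * (4 * (b : ℝ) ^ 800 * |μ'|) :=
    mul_le_mul a1 c1 (by positivity) (by positivity)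
  have k3 : (b : ℝ) ^ 742 * |v| ≤ (b : ℝ) ^ 742 * (304 * ρ * (b : ℝ) ^ 858) := by
    calc (b : ℝ) ^ 742 * |v| = ((b : ℝ) ^ 371 * (b : ℝ) ^ 371) * |v| := by ring
      _ ≤ ((4 * (b : ℝ) ^ 800 * |μ|) * (4 * (b : ℝ) ^ 800 * |μ'|)) * |v| :=
          mul_le_mul_of_nonneg_right k2 hv
      _ = 16 * (b : ℝ) ^ 1600 * (|μ| * |μ'| * |v|) := by ring
      _ ≤ 16 * (b : ℝ) ^ 1600 * (19 * ρ) := mul_le_mul_of_nonneg_left k1 (by positivity)
      _ = (b : ℝ) ^ 742 * (304 * ρ * (b : ℝ) ^ 858) := by ring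
  exact le_of_mul_le_mul_left k3 (by positivity)

theorem wedge_big (b : ℕ) (e f g : V3) (h : Frame b e f g) (n m : ℤ)
    (hp : (n, m) ∈ Pen b e f g) :
    Int.gcd n m ≤ b ^ 14 ∧ (b : ℝ) ^ 386 ≤ 2 * (b : ℝ) ^ 2 * (|(n : ℝ)| + |(m : ℝ)|) := by
  classical
  unfold Pen at hp
  simp only [Finset.mem_filter] at hp
  obtain ⟨-, h1, h2⟩ := hp
  refine ⟨h2, h1.trans ?_⟩
  have e1 : nu3 e (cmb e f g 0 n m) =
      n * (f 0 * e 1 - f 1 * e 0) + m * (g 0 * e 1 - g 1 * e 0) := by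
    unfold nu3 cmb; push_cast; ring
  have hb0 : (0 : ℝ) ≤ b := Nat.cast_nonneg b
  have hA : ∀ u : V3, (∀ k, |u k| ≤ b) → |u 0 * e 1 - u 1 * e 0| ≤ 2 * (b : ℝ) ^ 2 := by
    intro u hu
    have q1 : |u 0 * e 1| ≤ b * b := by
      rw [abs_mul]; exact mul_le_mul (hu 0) (h.he 1) (abs_nonneg _) hb0
    have q2 : |u 1 * e 0| ≤ b * b := by
      rw [abs_mul]; exact mul_le_mul (hu 1) (h.he 0) (abs_nonneg _) hb0
    have q3 := abs_sub (u 0 * e 1) (u 1 * e 0)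
    nlinarith
  rw [e1]
  have q1 : |(n : ℝ) * (f 0 * e 1 - f 1 * e 0)| ≤ |(n : ℝ)| * (2 * (b : ℝ) ^ 2) := by
    rw [abs_mul]; exact mul_le_mul_of_nonneg_left (hA f h.hf) (abs_nonneg _)
  have q2 : |(m : ℝ) * (g 0 * e 1 - g 1 * e 0)| ≤ |(m : ℝ)| * (2 * (b : ℝ) ^ 2) := by
    rw [abs_mul]; exact mul_le_mul_of_nonneg_left (hA g h.hg) (abs_nonneg _)
  have q3 := abs_add_le ((n : ℝ) * (f 0 * e 1 - f 1 * e 0)) ((m : ℝ) * (g 0 * e 1 - g 1 * e 0))
  nlinarith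

theorem wedge_mem (b : ℕ) (e f g : V3) (p : ℤ × ℤ) (i j : ℤ) (hq : (p, i, j) ∈ Far b e f g) :
    p ∈ Pen b e f g ∧ |p.1| ≤ (b : ℤ) ^ 403 ∧ |p.2| ≤ (b : ℤ) ^ 403 := by
  classical
  unfold Far at hq
  simp only [Finset.mem_filter, Finset.mem_product] at hq
  have h1 := hq.1.1
  refine ⟨h1, ?_⟩
  unfold Pen Rng at h1
  simp only [Finset.mem_filter, Finset.mem_product, Finset.mem_Icc] at h1
  exact ⟨abs_le.2 h1.1.1, abs_le.2 h1.1.2⟩

theorem wedge_key (b : ℕ) (hb : 1 ≤ b) (n m V : ℤ) (hV : 0 ≤ V) (hg : Int.gcd n m ≤ b ^ 14)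
    (hn : (b : ℤ) ^ 384 ≤ 4 * |n|) (S : Finset (ℤ × ℤ))
    (hS : ∀ p ∈ S, |p.1| ≤ (b : ℤ) ^ 403 ∧ |n * p.2 - m * p.1| ≤ V) :
    (S.card : ℤ) ≤ (2 * V + 1) * (2 * (4 * (b : ℤ) ^ 33) + 1) := by
  have hb0 : (0 : ℤ) < b := by exact_mod_cast hb
  have hn0 : n ≠ 0 := by
    rintro rfl
    have : (0 : ℤ) < (b : ℤ) ^ 384 := by positivity
    simp at hn
    linarith
  refine wedge_cnt n m (4 * (b : ℤ) ^ 33) ((b : ℤ) ^ 403) V (by positivity) hV hn0 ?_ S hS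
  have h1 : ((Int.gcd n m : ℕ) : ℤ) ≤ (b : ℤ) ^ 14 := by exact_mod_cast hg
  calc (b : ℤ) ^ 403 * (Int.gcd n m : ℤ) ≤ (b : ℤ) ^ 403 * (b : ℤ) ^ 14 :=
        mul_le_mul_of_nonneg_left h1 (by positivity)
    _ = (b : ℤ) ^ 33 * (b : ℤ) ^ 384 := by ring
    _ ≤ (b : ℤ) ^ 33 * (4 * |n|) := mul_le_mul_of_nonneg_left hn (by positivity)
    _ = 4 * (b : ℤ) ^ 33 * |n| := by ring

theorem few_pencils (b : ℕ) (hb : 2 ^ 20 ≤ b) (e f g : V3) (h : Frame b e f g)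
    (q : (ℤ × ℤ) × ℤ × ℤ) (hq : q ∈ Far b e f g) (ρ : ℝ) (hρ : 0 ≤ ρ) (S : Finset (ℤ × ℤ))
    (hS : ∀ p ∈ S, ∃ i j : ℤ, (p, i, j) ∈ Far b e f g ∧ |al e f g q - al e f g (p, i, j)| ≤ ρ ∧
      |ga e f g q - ga e f g (p, i, j)| ≤ ρ) :
    (S.card : ℝ) ≤ (b : ℝ) ^ 35 * (2 * ρ * (b : ℝ) ^ 859 + 1) := by
  obtain ⟨⟨n, m⟩, i, j⟩ := q
  have hb1 : 1 ≤ b := le_trans (by norm_num) hb
  have hbR : (1000 : ℝ) ≤ b := by
    have : (1000 : ℕ) ≤ b := le_trans (by norm_num) hb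
    exact_mod_cast this
  have hb0 : (0 : ℝ) < b := by linarith
  obtain ⟨hg, hbig⟩ := wedge_big b e f g h n m (wedge_mem b e f g _ i j hq).1
  set X : ℝ := 304 * ρ * (b : ℝ) ^ 858 with hX
  have hX0 : 0 ≤ X := by positivity
  have hV0 : 0 ≤ ⌊X⌋ := Int.floor_nonneg.2 hX0
  have hall : ∀ p ∈ S, |p.1| ≤ (b : ℤ) ^ 403 ∧ |p.2| ≤ (b : ℤ) ^ 403 ∧
      |n * p.2 - m * p.1| ≤ ⌊X⌋ := by
    rintro ⟨n', m'⟩ hp
    obtain ⟨i', j', a1, a2, a3⟩ := hS _ hp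
    obtain ⟨-, c1, c2⟩ := wedge_mem b e f g _ i' j' a1
    refine ⟨c1, c2, Int.le_floor.2 ?_⟩
    have := wedge_bound b hb1 e f g h n m i j n' m' i' j' hq a1 ρ a2 a3
    rw [Int.cast_abs]
    exact this
  have hsum : (b : ℝ) ^ 384 ≤ 2 * (|(n : ℝ)| + |(m : ℝ)|) := by
    have : (b : ℝ) ^ 2 * (b : ℝ) ^ 384 ≤ (b : ℝ) ^ 2 * (2 * (|(n : ℝ)| + |(m : ℝ)|)) := by
      calc (b : ℝ) ^ 2 * (b : ℝ) ^ 384 = (b : ℝ) ^ 386 := by ring
        _ ≤ _ := hbig
        _ = _ := by ring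
    exact le_of_mul_le_mul_left this (by positivity)
  have hsumZ : (b : ℤ) ^ 384 ≤ 2 * (|n| + |m|) := by exact_mod_cast hsum
  have hmain : (S.card : ℤ) ≤ (2 * ⌊X⌋ + 1) * (2 * (4 * (b : ℤ) ^ 33) + 1) := by
    rcases le_total |m| |n| with hc | hc
    · exact wedge_key b hb1 n m _ hV0 hg (by linarith) S
        (fun p hp => ⟨(hall p hp).1, (hall p hp).2.2⟩)
    · have hk := wedge_key b hb1 m n _ hV0 (by rwa [Int.gcd_comm]) (by linarith)
        (S.map (Equiv.prodComm ℤ ℤ).toEmbedding) (by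
          intro p hp
          obtain ⟨p', hp', rfl⟩ := Finset.mem_map.1 hp
          refine ⟨(hall p' hp').2.1, ?_⟩
          have := (hall p' hp').2.2
          rw [abs_sub_comm] at this
          exact this)
      rwa [Finset.card_map] at hk
  have hR : (S.card : ℝ) ≤ (2 * (⌊X⌋ : ℝ) + 1) * (2 * (4 * (b : ℝ) ^ 33) + 1) := by
    exact_mod_cast hmain
  have h1 : (⌊X⌋ : ℝ) ≤ ρ * (b : ℝ) ^ 859 := by
    refine (Int.floor_le X).trans ?_
    calc X = (ρ * (b : ℝ) ^ 858) * 304 := by rw [hX]; ring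
      _ ≤ (ρ * (b : ℝ) ^ 858) * b := mul_le_mul_of_nonneg_left (by linarith) (by positivity)
      _ = ρ * (b : ℝ) ^ 859 := by ring
  have h2 : 2 * (4 * (b : ℝ) ^ 33) + 1 ≤ (b : ℝ) ^ 35 := by
    have q1 : (1 : ℝ) ≤ (b : ℝ) ^ 33 := one_le_pow₀ (by linarith)
    have q2 : (9 : ℝ) ≤ (b : ℝ) ^ 2 := by nlinarith
    calc 2 * (4 * (b : ℝ) ^ 33) + 1 ≤ (b : ℝ) ^ 33 * 9 := by linarith
      _ ≤ (b : ℝ) ^ 33 * (b : ℝ) ^ 2 := mul_le_mul_of_nonneg_left q2 (by positivity)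
      _ = (b : ℝ) ^ 35 := by ring
  have h3 : (0 : ℝ) ≤ (⌊X⌋ : ℝ) := by exact_mod_cast hV0
  calc (S.card : ℝ) ≤ _ := hR
    _ ≤ (2 * ρ * (b : ℝ) ^ 859 + 1) * (b : ℝ) ^ 35 :=
        mul_le_mul (by linarith) h2 (by positivity) (by positivity)
    _ = _ := by ring

end Pool.Agent.Lib.MP_e56372_nt.Dim
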