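import Pool.Agent.Lib.MP_e56372_nt.Dim.Cnt
import Pool.Agent.Lib.MP_e56372_nt.Dim.Wedge
import Pool.Agent.Lib.MP_e56372_nt.Dim.Pairs2
import Pool.Agent.Lib.MP_e56372_nt.Dim.Jarnik

set_option autoImplicit false
open MeasureTheory Filter Topology Finset

namespace Pool.Agent.Lib.MP_e56372_nt.Dim
open Pool.Agent.Lib.MP_e56372_nt

/-- counting a set of pairs by its first coordinate. -/
theorem en_fibre {P W : Type} [DecidableEq P] [DecidableEq W] (S : Finset (P × W)) (A C : ℝ)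
    (hC : 0 ≤ C) (hA : ((S.image Prod.fst).card : ℝ) ≤ A)
    (hf : ∀ p ∈ S.image Prod.fst, ∀ T : Finset W, (∀ w ∈ T, (p, w) ∈ S) → (T.card : ℝ) ≤ C) :
    (S.card : ℝ) ≤ A * C := by
  have h1 : (S.card : ℝ) = ∑ p ∈ S.image Prod.fst, ((S.filter fun x => x.1 = p).card : ℝ) := by
    rw [Finset.card_eq_sum_card_image Prod.fst S]
    push_cast
    rfl
  have h2 : ∀ p ∈ S.image Prod.fst, ((S.filter fun x => x.1 = p).card : ℝ) ≤ C := by
    intro p hp
    have h3 : ((S.filter fun x => x.1 = p).image Prod.snd).card =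
        (S.filter fun x => x.1 = p).card := by
      apply Finset.card_image_of_injOn
      intro x hx y hy hxy
      have hx' := (Finset.mem_filter.1 (Finset.mem_coe.1 hx)).2
      have hy' := (Finset.mem_filter.1 (Finset.mem_coe.1 hy)).2
      exact Prod.ext (hx'.trans hy'.symm) hxy
    rw [← h3]
    apply hf p hp
    intro w hw
    obtain ⟨x, hx, rfl⟩ := Finset.mem_image.1 hw
    obtain ⟨hx1, hx2⟩ := Finset.mem_filter.1 hx
    rw [← hx2]
    exact hx1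
  have h4 := Finset.sum_le_card_nsmul _ _ _ h2
  rw [nsmul_eq_mul] at h4
  rw [h1]
  exact h4.trans (mul_le_mul_of_nonneg_right hA hC)

theorem en_mem_far (b : ℕ) (e f g : V3) (q : (ℤ × ℤ) × ℤ × ℤ) (hq : q ∈ Far b e f g) :
    q.1 ∈ Pen b e f g ∧ q.2.1 ∈ Pts b e f g q.1 ∧ q.2.2 ∈ Pts b e f g q.1 := by
  classical
  unfold Far at hq
  obtain ⟨h1, h2⟩ := Finset.mem_filter.1 hq
  exact ⟨(Finset.mem_product.1 h1).1, h2.1, h2.2.1⟩

theorem en_far_card (b : ℕ) (hb : 2 ^ 20 ≤ b) (e f g : V3) (h : Frame b e f g) :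
    ((Far b e f g).card : ℝ) ≤ (b : ℝ) ^ 807 * (2 * (b : ℝ) ^ 400 * (2 * (b : ℝ) ^ 400)) := by
  classical
  have hb2 : 2 ≤ b := le_trans (by norm_num) hb
  have hb9 : 9 ≤ b := le_trans (by norm_num) hb
  apply en_fibre _ _ _ (by positivity)
  · refine le_trans ?_ (pen_card b hb9 e f g)
    have : (Far b e f g).image Prod.fst ⊆ Pen b e f g := by
      intro p hp
      obtain ⟨q, hq, rfl⟩ := Finset.mem_image.1 hp
      exact (en_mem_far b e f g q hq).1
    exact_mod_cast Finset.card_le_card this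
  · intro p _ T hT
    have h1 : T ⊆ Pts b e f g p ×ˢ Pts b e f g p := by
      intro w hw
      have := en_mem_far b e f g (p, w) (hT w hw)
      exact Finset.mem_product.2 ⟨this.2.1, this.2.2⟩
    have h2 : (T.card : ℝ) ≤ ((Pts b e f g p).card : ℝ) * ((Pts b e f g p).card : ℝ) := by
      have := Finset.card_le_card h1
      rw [Finset.card_product] at this
      exact_mod_cast this
    have h3 := pts_card b hb2 e f g h p
    exact h2.trans (mul_le_mul h3 h3 (by positivity) (by positivity))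

theorem en_arith1 (B u : ℝ) (hB : 2 ^ 20 ≤ B) (hu : 0 ≤ u) (h1 : u * B ^ 1100 ≤ 1)
    (h2 : 1 ≤ u * B ^ 1200) : B ^ 35 * (2 * u * B ^ 859 + 1) * (5 * B ^ 300) ≤ B ^ 1550 * u := by
  have hB1 : (1 : ℝ) ≤ B := le_trans (by norm_num) hB
  have hB0 : (0 : ℝ) < B := by linarith
  have a1 : u * B ^ 859 ≤ 1 :=
    le_trans (mul_le_mul_of_nonneg_left (pow_le_pow_right₀ hB1 (by norm_num)) hu) h1
  have a2 : 2 * u * B ^ 859 + 1 ≤ 3 := by linarith
  have a3 : B ^ 35 * (2 * u * B ^ 859 + 1) * (5 * B ^ 300) ≤ B ^ 35 * 3 * (5 * B ^ 300) :=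
    mul_le_mul_of_nonneg_right (mul_le_mul_of_nonneg_left a2 (by positivity)) (by positivity)
  have a4 : (15 : ℝ) ≤ B ^ 15 := le_trans (by linarith) (le_self_pow₀ hB1 (by norm_num))
  have a5 : B ^ 35 * 3 * (5 * B ^ 300) = 15 * B ^ 335 := by ring
  have a6 : 15 * B ^ 335 ≤ B ^ 15 * B ^ 335 := mul_le_mul_of_nonneg_right a4 (by positivity)
  have a7 : B ^ 15 * B ^ 335 = B ^ 350 * 1 := by ring
  have a8 : B ^ 350 * 1 ≤ B ^ 350 * (u * B ^ 1200) := mul_le_mul_of_nonneg_left h2 (by positivity)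
  have a9 : B ^ 350 * (u * B ^ 1200) = B ^ 1550 * u := by ring
  linarith

theorem en_arith2 (B u : ℝ) (hB : 2 ^ 20 ≤ B) (hu : 0 ≤ u) (h1 : 1 ≤ u * B ^ 1100)
    (h2 : u * B ^ 161 ≤ 1) :
    B ^ 35 * (2 * u * B ^ 859 + 1) * (2 * B ^ 400 * (16 * u * B ^ 414 + 1)) ≤ B ^ 1550 * u := by
  have hB1 : (1 : ℝ) ≤ B := le_trans (by norm_num) hB
  have hB0 : (0 : ℝ) < B := by linarith
  have m : ∀ k : ℕ, k ≤ 1112 → u * B ^ k ≤ u * B ^ 1112 := fun k hk =>
    mul_le_mul_of_nonneg_left (pow_le_pow_right₀ hB1 hk) hu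
  have a1 : u * B ^ 161 * (u * B ^ 1112) ≤ 1 * (u * B ^ 1112) :=
    mul_le_mul_of_nonneg_right h2 (mul_nonneg hu (pow_pos hB0 _).le)
  have a2 := m 859 (by norm_num)
  have a3 := m 414 (by norm_num)
  have a4 := m 1100 (by norm_num)
  have a5 : (2 * u * B ^ 859 + 1) * (16 * u * B ^ 414 + 1) =
      32 * (u * B ^ 161 * (u * B ^ 1112)) + 2 * (u * B ^ 859) + 16 * (u * B ^ 414) + 1 := by ring
  have a6 : (2 * u * B ^ 859 + 1) * (16 * u * B ^ 414 + 1) ≤ 51 * (u * B ^ 1112) := by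
    rw [a5]
    linarith
  have a7 : B ^ 35 * (2 * u * B ^ 859 + 1) * (2 * B ^ 400 * (16 * u * B ^ 414 + 1)) =
      2 * B ^ 435 * ((2 * u * B ^ 859 + 1) * (16 * u * B ^ 414 + 1)) := by ring
  have a8 : 2 * B ^ 435 * ((2 * u * B ^ 859 + 1) * (16 * u * B ^ 414 + 1)) ≤
      2 * B ^ 435 * (51 * (u * B ^ 1112)) := mul_le_mul_of_nonneg_left a6 (by positivity)
  have a9 : 2 * B ^ 435 * (51 * (u * B ^ 1112)) = 102 * (B ^ 1547 * u) := by ring
  have b1 : (102 : ℝ) ≤ B ^ 3 := le_trans (by linarith) (le_self_pow₀ hB1 (by norm_num))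
  have b2 : 102 * (B ^ 1547 * u) ≤ B ^ 3 * (B ^ 1547 * u) :=
    mul_le_mul_of_nonneg_right b1 (by positivity)
  have b3 : B ^ 3 * (B ^ 1547 * u) = B ^ 1550 * u := by ring
  linarith

/-- few far pairs are close to a given far pair. -/
theorem en_near (b : ℕ) (hb : 2 ^ 20 ≤ b) (e f g : V3) (h : Frame b e f g)
    (q : (ℤ × ℤ) × ℤ × ℤ) (hq : q ∈ Far b e f g) (u : ℝ) (hu : 0 ≤ u)
    (h1 : 1 ≤ u * (b : ℝ) ^ 1200) (h2 : u * (b : ℝ) ^ 161 ≤ 1) (S : Finset ((ℤ × ℤ) × ℤ × ℤ))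
    (hS : ∀ q' ∈ S, q' ∈ Far b e f g ∧
      max |al e f g q - al e f g q'| |ga e f g q - ga e f g q'| ≤ u) :
    (S.card : ℝ) ≤ (b : ℝ) ^ 1550 * u := by
  classical
  have hB : (2 : ℝ) ^ 20 ≤ (b : ℝ) := by exact_mod_cast hb
  have hB0 : (0 : ℝ) < (b : ℝ) := lt_of_lt_of_le (by norm_num) hB
  have hb2 : 2 ≤ b := le_trans (by norm_num) hb
  have hpen : ((S.image Prod.fst).card : ℝ) ≤ (b : ℝ) ^ 35 * (2 * u * (b : ℝ) ^ 859 + 1) := by
    apply few_pencils b hb e f g h q hq u hu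
    intro p hp
    obtain ⟨q', hq', rfl⟩ := Finset.mem_image.1 hp
    obtain ⟨c1, c2⟩ := hS q' hq'
    exact ⟨q'.2.1, q'.2.2, c1, le_trans (le_max_left _ _) c2, le_trans (le_max_right _ _) c2⟩
  have hP : ∀ p ∈ S.image Prod.fst, p ∈ Pen b e f g := by
    intro p hp
    obtain ⟨q', hq', rfl⟩ := Finset.mem_image.1 hp
    exact (en_mem_far b e f g q' (hS q' hq').1).1
  have hW : ∀ p w, (p, w) ∈ S → w.1 ∈ Pts b e f g p ∧ w.2 ∈ Pts b e f g p ∧
      |al e f g q - al e f g (p, w)| ≤ u := by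
    intro p w hw
    obtain ⟨c1, c2⟩ := hS _ hw
    have c3 := en_mem_far b e f g (p, w) c1
    exact ⟨c3.2.1, c3.2.2, le_trans (le_max_left _ _) c2⟩
  rcases le_total (u * (b : ℝ) ^ 1100) 1 with h3 | h3
  · refine le_trans (en_fibre S _ (5 * (b : ℝ) ^ 300) (by positivity) hpen ?_)
      (en_arith1 _ u hB hu h3 h1)
    intro p hp T hT
    obtain ⟨d1, d2, d3⟩ := far_al b hb2 e f g q hq
    apply pairs_jarnik b hb e f g h p (hP p hp) (al e f g q) d1 d2 d3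
    intro w hw
    obtain ⟨c1, c2, c3⟩ := hW p w (hT w hw)
    refine ⟨c1, c2, c3.trans ?_⟩
    rw [le_div_iff₀ (by positivity)]
    exact h3
  · refine le_trans (en_fibre S _ (2 * (b : ℝ) ^ 400 * (16 * u * (b : ℝ) ^ 414 + 1))
      (by positivity) hpen ?_) (en_arith2 _ u hB hu h3 h2)
    intro p hp T hT
    apply pairs_general b hb e f g h p (hP p hp) (al e f g q) u hu
    intro w hw
    exact hW p w (hT w hw)

/-- the layer bound for the weight. -/
theorem en_tau (B ρ1 d : ℝ) (hB : 1 ≤ B) (hρ : 0 ≤ ρ1) :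
    tau (1 / B ^ 1201) (1 / B ^ 161) ρ1 d ≤ ρ1 / (1 / B ^ 161) ^ 2 +
      ∑ r ∈ Icc 161 1200, (if d ≤ 1 / B ^ r then B ^ (r + 1) else 0) := by
  classical
  have hB0 : (0 : ℝ) < B := by linarith
  have hnn : ∀ r ∈ Icc 161 1200, (0 : ℝ) ≤ (if d ≤ 1 / B ^ r then B ^ (r + 1) else 0) := by
    intro r _
    split_ifs
    · positivity
    · exact le_rfl
  have h0 : 0 ≤ ρ1 / (1 / B ^ 161) ^ 2 := by positivity
  unfold tau
  split_ifs with hd
  · exact le_add_of_nonneg_right (Finset.sum_nonneg hnn)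
  · have hd' : d ≤ 1 / B ^ 161 := le_of_lt (not_le.1 hd)
    have hne : ((Icc 161 1200).filter fun r => d ≤ 1 / B ^ r).Nonempty :=
      ⟨161, Finset.mem_filter.2 ⟨Finset.mem_Icc.2 ⟨le_rfl, by omega⟩, hd'⟩⟩
    obtain ⟨r, hr, hmax⟩ := Finset.exists_max_image _ (fun r : ℕ => r) hne
    obtain ⟨hr1, hr2⟩ := Finset.mem_filter.1 hr
    have hr3 := Finset.mem_Icc.1 hr1
    have hle : 1 / B ^ (r + 1) ≤ max d (1 / B ^ 1201) := by
      rcases Nat.lt_or_ge r 1200 with h | h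
      · refine le_trans ?_ (le_max_left _ _)
        by_contra hc
        have := hmax (r + 1) (Finset.mem_filter.2
          ⟨Finset.mem_Icc.2 ⟨by omega, by omega⟩, le_of_lt (not_le.1 hc)⟩)
        omega
      · have : r + 1 = 1201 := by omega
        rw [this]
        exact le_max_right _ _
    have h1 : 1 / max d (1 / B ^ 1201) ≤ B ^ (r + 1) := by
      have h2 := one_div_le_one_div_of_le (by positivity) hle
      rwa [one_div_one_div] at h2
    have h2 := Finset.single_le_sum hnn hr1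
    rw [if_pos hr2] at h2
    linarith

theorem energy (b : ℕ) (hb : 2 ^ 20 ≤ b) (e f g : V3) (h : Frame b e f g)
    (q : (ℤ × ℤ) × ℤ × ℤ) (hq : q ∈ Far b e f g) :
    ∑ q' ∈ Far b e f g, tau (1 / (b : ℝ) ^ 1201) (1 / (b : ℝ) ^ 161) (1 / (b : ℝ) ^ 380)
      (max |al e f g q - al e f g q'| |ga e f g q - ga e f g q'|) ≤ (b : ℝ) ^ 1552 := by
  classical
  have hB : (2 : ℝ) ^ 20 ≤ (b : ℝ) := by exact_mod_cast hb
  have hB1 : (1 : ℝ) ≤ (b : ℝ) := le_trans (by norm_num) hB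
  have hB0 : (0 : ℝ) < (b : ℝ) := by linarith
  have hcard := en_far_card b hb e f g h
  have hN : ∀ r ∈ Icc 161 1200, ∑ q' ∈ Far b e f g,
      (if max |al e f g q - al e f g q'| |ga e f g q - ga e f g q'| ≤ 1 / (b : ℝ) ^ r
        then (b : ℝ) ^ (r + 1) else 0) ≤ (b : ℝ) ^ 1551 := by
    intro r hr
    obtain ⟨r1, r2⟩ := Finset.mem_Icc.1 hr
    rw [← Finset.sum_filter, Finset.sum_const, nsmul_eq_mul]
    have hp : (0 : ℝ) < (b : ℝ) ^ r := by positivity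
    have h1 := en_near b hb e f g h q hq (1 / (b : ℝ) ^ r) (by positivity)
      (by rw [one_div_mul_eq_div, le_div_iff₀ hp, one_mul]; exact pow_le_pow_right₀ hB1 r2)
      (by rw [one_div_mul_eq_div, div_le_iff₀ hp, one_mul]; exact pow_le_pow_right₀ hB1 r1)
      ((Far b e f g).filter fun q' =>
        max |al e f g q - al e f g q'| |ga e f g q - ga e f g q'| ≤ 1 / (b : ℝ) ^ r)
      (fun q' hq' => Finset.mem_filter.1 hq')
    refine le_trans (mul_le_mul_of_nonneg_right h1 (by positivity)) (le_of_eq ?_)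
    have h2 : (b : ℝ) ^ 1551 = (b : ℝ) ^ 1550 * b := by ring
    rw [h2, pow_succ (b : ℝ) r, mul_assoc, ← mul_assoc (1 / (b : ℝ) ^ r), one_div_mul_cancel hp.ne',
      one_mul]
  have h1 := Finset.sum_le_sum (s := Far b e f g) fun q' _ =>
    en_tau (b : ℝ) (1 / (b : ℝ) ^ 380)
      (max |al e f g q - al e f g q'| |ga e f g q - ga e f g q'|) hB1 (by positivity)
  rw [Finset.sum_add_distrib, Finset.sum_comm, Finset.sum_const, nsmul_eq_mul] at h1
  have h2 := Finset.sum_le_card_nsmul _ _ _ hN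
  rw [Nat.card_Icc, nsmul_eq_mul] at h2
  have h3 : ((1200 + 1 - 161 : ℕ) : ℝ) = 1040 := by norm_num
  rw [h3] at h2
  have h4 : 1 / (b : ℝ) ^ 380 / (1 / (b : ℝ) ^ 161) ^ 2 = 1 / (b : ℝ) ^ 58 := by
    have h5 : (b : ℝ) ^ 380 = (b : ℝ) ^ 58 * ((b : ℝ) ^ 161) ^ 2 := by ring
    rw [h5, one_div_pow, div_div_eq_mul_div, div_one, one_div, one_div, mul_inv, mul_assoc,
      inv_mul_cancel₀ (by positivity), mul_one]
  rw [h4] at h1
  have h5 : ((Far b e f g).card : ℝ) * (1 / (b : ℝ) ^ 58) ≤ 4 * (b : ℝ) ^ 1549 := by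
    rw [mul_one_div, div_le_iff₀ (by positivity)]
    refine hcard.trans (le_of_eq ?_)
    ring
  have h6 : (b : ℝ) ^ 1549 ≤ (b : ℝ) ^ 1551 := pow_le_pow_right₀ hB1 (by norm_num)
  have h7 : 1044 * (b : ℝ) ^ 1551 ≤ b * (b : ℝ) ^ 1551 :=
    mul_le_mul_of_nonneg_right (by linarith) (by positivity)
  have h8 : b * (b : ℝ) ^ 1551 = (b : ℝ) ^ 1552 := by ring
  linarith

end Pool.Agent.Lib.MP_e56372_nt.Dim
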