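import Pool.Agent.Lib.MP_e56372_nt.Dim.Defs

set_option autoImplicit false
open MeasureTheory Filter Topology Finset

namespace Pool.Agent.Lib.MP_e56372_nt.Dim
open Pool.Agent.Lib.MP_e56372_nt

theorem kernB_C_nonneg {δ ρ C : ℝ} {K : ℝ → ℝ} (hK : Kern δ ρ C K) : 0 ≤ C :=
  (integral_nonneg fun z => abs_nonneg (K z)).trans hK.l1

theorem kernB_l1 {δ ρ C : ℝ} {K : ℝ → ℝ} (hK : Kern δ ρ C K) (a : ℝ) (ha : 1 / 2 ≤ |a|) :
    ∫ u, |K (a * u)| ≤ 2 * C := by
  have h := Measure.integral_comp_mul_left (fun z => |K z|) a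
  rw [h, smul_eq_mul]
  have h0 : 0 < |a| := by linarith
  have h1 : |a⁻¹| ≤ 2 := by
    rw [abs_inv, inv_le_comm₀ h0 (by norm_num)]
    linarith
  exact mul_le_mul h1 hK.l1 (integral_nonneg fun z => abs_nonneg (K z)) (by norm_num)

theorem kernB_mean {δ ρ C : ℝ} {K : ℝ → ℝ} (hK : Kern δ ρ C K) (a : ℝ) :
    ∫ u, K (a * u) = 0 := by
  rw [Measure.integral_comp_mul_left K a, hK.mean, smul_zero]

theorem kernB_far {δ ρ C : ℝ} {K : ℝ → ℝ} (hK : Kern δ ρ C K) (a : ℝ) (ha : 1 / 2 ≤ a) (u z : ℝ)
    (h : |z| ≤ 2 * |u|) : |K (a * u)| * max |z| δ ≤ 4 * C := by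
  have h1 : max |z| δ ≤ 4 * max |a * u| δ := by
    have h2 : |a * u| = a * |u| := by rw [abs_mul, abs_of_pos (by linarith)]
    have h3 : 1 / 2 * |u| ≤ a * |u| := mul_le_mul_of_nonneg_right ha (abs_nonneg u)
    have h4 := le_max_left |a * u| δ
    have h5 := le_max_right |a * u| δ
    have h6 := hK.hδ
    exact max_le (by linarith) (by linarith)
  have h7 := mul_le_mul_of_nonneg_left h1 (abs_nonneg (K (a * u)))
  have h8 := hK.bnd (a * u)
  linarith

theorem kernB_conv_eq (K L : ℝ → ℝ) (a c : ℝ) :
    conv K L a c = convolution (fun u => K (a * u)) (fun w => L (-c * w))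
      (ContinuousLinearMap.mul ℝ ℝ) volume := by
  funext z
  unfold conv
  rw [convolution_def]
  refine integral_congr_ae (Eventually.of_forall fun u => ?_)
  simp only [ContinuousLinearMap.mul_apply']
  congr 2
  ring

theorem kern_conv (δ ρ C : ℝ) (K L : ℝ → ℝ) (hK : Kern δ ρ C K) (hL : Kern δ ρ C L) (a c : ℝ)
    (ha : 1 / 2 ≤ a) (hc : 1 / 2 ≤ c) : Kern δ (4 * ρ) (16 * C ^ 2) (conv K L a c) := by
  have hC := kernB_C_nonneg hK
  have ha0 : a ≠ 0 := by linarith
  have hc0 : -c ≠ 0 := by linarith
  have haa : 1 / 2 ≤ |a| := ha.trans (le_abs_self a)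
  have hcc : 1 / 2 ≤ |-c| := by rw [abs_neg]; exact hc.trans (le_abs_self c)
  have hf : Integrable (fun u => K (a * u)) := hK.intg.comp_mul_left' ha0
  have hg : Integrable (fun w => L (-c * w)) := hL.intg.comp_mul_left' hc0
  have hint : Integrable (conv K L a c) := by
    rw [kernB_conv_eq]
    exact hf.integrable_convolution _ hg
  refine ⟨hK.hδ, ?_, ?_, ?_, hint, ?_, ?_⟩
  · have hm : StronglyMeasurable (fun p : ℝ × ℝ => K (a * p.2) * L (c * (p.2 - p.1))) := by
      refine Measurable.stronglyMeasurable ?_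
      exact (hK.meas.comp (by fun_prop)).mul (hL.meas.comp (by fun_prop))
    exact (hm.integral_prod_right' (ν := volume)).measurable
  · intro z hz
    unfold conv
    have : ∀ u, K (a * u) * L (c * (u - z)) = 0 := by
      intro u
      by_contra h
      obtain ⟨h1, h2⟩ := mul_ne_zero_iff.1 h
      have h3 : |a * u| ≤ ρ := not_lt.1 fun hh => h1 (hK.supp _ hh)
      have h4 : |c * (u - z)| ≤ ρ := not_lt.1 fun hh => h2 (hL.supp _ hh)
      rw [abs_mul, abs_of_pos (by linarith : 0 < a)] at h3
      rw [abs_mul, abs_of_pos (by linarith : 0 < c)] at h4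
      have h5 : 1 / 2 * |u| ≤ a * |u| := mul_le_mul_of_nonneg_right ha (abs_nonneg u)
      have h6 : 1 / 2 * |u - z| ≤ c * |u - z| := mul_le_mul_of_nonneg_right hc (abs_nonneg _)
      have h7 : |z| ≤ |u| + |u - z| := by
        have := abs_sub u (u - z)
        rwa [sub_sub_cancel] at this
      linarith
    simp only [this, integral_zero]
  · intro z
    have hM : 0 < max |z| δ := hK.hδ.trans_le (le_max_right _ _)
    have hgz : Integrable (fun u => |L (c * (u - z))|) := by
      have h1 : Integrable (fun u => L (c * u)) := hL.intg.comp_mul_left' (by linarith)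
      exact (h1.comp_sub_right z).abs
    have hgi : ∫ u, |L (c * (u - z))| ≤ 2 * C := by
      rw [integral_sub_right_eq_self (fun u => |L (c * u)|) z]
      exact kernB_l1 hL c (hc.trans (le_abs_self c))
    have hfi := kernB_l1 hK a haa
    have hpt : ∀ u, ‖K (a * u) * L (c * (u - z)) * max |z| δ‖ ≤
        4 * C * |L (c * (u - z))| + 4 * C * |K (a * u)| := by
      intro u
      rw [Real.norm_eq_abs, abs_mul, abs_mul, abs_of_pos hM]
      have h7 : |z| ≤ |u| + |u - z| := by
        have := abs_sub u (u - z)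
        rwa [sub_sub_cancel] at this
      have p1 : 0 ≤ 4 * C * |L (c * (u - z))| := by positivity
      have p2 : 0 ≤ 4 * C * |K (a * u)| := by positivity
      rcases le_total |u - z| |u| with h | h
      · have h1 := kernB_far hK a ha u z (by linarith)
        have h2 := mul_le_mul_of_nonneg_right h1 (abs_nonneg (L (c * (u - z))))
        nlinarith
      · have h1 := kernB_far hL c hc (u - z) z (by linarith)
        have h2 := mul_le_mul_of_nonneg_right h1 (abs_nonneg (K (a * u)))
        nlinarith
    have hb := norm_integral_le_of_norm_le (μ := volume)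
      ((hgz.const_mul (4 * C)).add (hf.abs.const_mul (4 * C))) (Eventually.of_forall hpt)
    rw [integral_mul_const, Real.norm_eq_abs, abs_mul, abs_of_pos hM] at hb
    have he : ∫ u, ((fun u => 4 * C * |L (c * (u - z))|) + fun u => 4 * C * |K (a * u)|) u =
        4 * C * (∫ u, |L (c * (u - z))|) + 4 * C * ∫ u, |K (a * u)| := by
      simp only [Pi.add_apply]
      rw [integral_add (hgz.const_mul (4 * C)) (hf.abs.const_mul (4 * C)), integral_const_mul,
        integral_const_mul]
    rw [he] at hb
    have q1 := mul_le_mul_of_nonneg_left hgi (by positivity : 0 ≤ 4 * C)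
    have q2 := mul_le_mul_of_nonneg_left hfi (by positivity : 0 ≤ 4 * C)
    unfold conv
    nlinarith
  · have h1 : ∀ z, |conv K L a c z| ≤ convolution (fun u => |K (a * u)|) (fun w => |L (-c * w)|)
        (ContinuousLinearMap.mul ℝ ℝ) volume z := by
      intro z
      rw [convolution_def]
      unfold conv
      refine (abs_integral_le_integral_abs).trans (le_of_eq ?_)
      refine integral_congr_ae (Eventually.of_forall fun u => ?_)
      simp only [ContinuousLinearMap.mul_apply', abs_mul]
      congr 3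
      ring
    have h2 := integral_mono hint.abs (hf.abs.integrable_convolution _ hg.abs) h1
    rw [integral_convolution _ hf.abs hg.abs, ContinuousLinearMap.mul_apply'] at h2
    have h3 := mul_le_mul (kernB_l1 hK a haa) (kernB_l1 hL (-c) hcc)
      (integral_nonneg fun z => abs_nonneg _) (by positivity)
    nlinarith [sq_nonneg C]
  · rw [kernB_conv_eq, integral_convolution _ hf hg, kernB_mean hK a]
    simp

end Pool.Agent.Lib.MP_e56372_nt.Dim
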