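import Pool.Agent.Lib.MP_e56372_nt.Dim.Defs

set_option autoImplicit false
open MeasureTheory Filter Topology Finset

namespace Pool.Agent.Lib.MP_e56372_nt.Dim
open Pool.Agent.Lib.MP_e56372_nt

theorem kerna_box_eq (ρ : ℝ) :
    box ρ = Set.indicator (Set.Icc (-ρ) ρ) (fun _ => 1 / (2 * ρ)) := by
  funext z
  unfold box
  by_cases h : |z| ≤ ρ
  · rw [if_pos h, Set.indicator_of_mem (by simpa [Set.mem_Icc, abs_le] using h)]
  · rw [if_neg h, Set.indicator_of_notMem (by simpa [Set.mem_Icc, abs_le] using h)]

theorem kerna_box_meas (ρ : ℝ) : Measurable (box ρ) := by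
  rw [kerna_box_eq]
  exact measurable_const.indicator measurableSet_Icc

theorem kerna_box_intg (ρ : ℝ) : Integrable (box ρ) := by
  rw [kerna_box_eq, integrable_indicator_iff measurableSet_Icc]
  exact continuous_const.integrableOn_Icc

theorem kerna_box_int (ρ : ℝ) (hρ : 0 < ρ) : ∫ z, box ρ z = 1 := by
  rw [kerna_box_eq, integral_indicator measurableSet_Icc, setIntegral_const, Real.volume_real_Icc,
    max_eq_left (by linarith), smul_eq_mul]
  field_simp
  ring

theorem kerna_box_nonneg (ρ z : ℝ) (hρ : 0 < ρ) : 0 ≤ box ρ z := by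
  unfold box
  split_ifs
  · positivity
  · exact le_rfl

theorem kern_box (δ ρ : ℝ) (hδ : 0 < δ) (h : δ ≤ ρ) :
    Kern δ ρ 2 (fun z => box ρ z - box δ z) := by
  have hρ : 0 < ρ := lt_of_lt_of_le hδ h
  refine ⟨hδ, (kerna_box_meas ρ).sub (kerna_box_meas δ), ?_, ?_,
    (kerna_box_intg ρ).sub (kerna_box_intg δ), ?_, ?_⟩
  · intro z hz
    unfold box
    rw [if_neg (by linarith), if_neg (by linarith), sub_zero]
  · intro z
    unfold box
    by_cases h1 : |z| ≤ δ
    · rw [if_pos h1, if_pos (h1.trans h), max_eq_right h1]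
      have a1 : 1 / (2 * ρ) ≤ 1 / (2 * δ) := one_div_le_one_div_of_le (by positivity) (by linarith)
      have a2 : 0 < 1 / (2 * ρ) := by positivity
      have a3 : 1 / (2 * δ) * δ = 1 / 2 := by field_simp
      rw [abs_of_nonpos (by linarith)]
      nlinarith
    · rw [if_neg h1, sub_zero, max_eq_left (by linarith)]
      by_cases h2 : |z| ≤ ρ
      · rw [if_pos h2]
        have a2 : 0 < 1 / (2 * ρ) := by positivity
        have a3 : 1 / (2 * ρ) * ρ = 1 / 2 := by field_simp
        rw [abs_of_pos a2]
        nlinarith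
      · rw [if_neg h2]
        simp
  · have hi : Integrable (fun z => box ρ z + box δ z) := (kerna_box_intg ρ).add (kerna_box_intg δ)
    have : ∫ z, |box ρ z - box δ z| ≤ ∫ z, (box ρ z + box δ z) := by
      refine integral_mono ((kerna_box_intg ρ).sub (kerna_box_intg δ)).abs hi fun z => ?_
      have a1 := kerna_box_nonneg ρ z hρ
      have a2 := kerna_box_nonneg δ z hδ
      exact abs_le.2 ⟨by linarith, by linarith⟩
    rw [integral_add (kerna_box_intg ρ) (kerna_box_intg δ), kerna_box_int ρ hρ,
      kerna_box_int δ hδ] at this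
    linarith
  · rw [integral_sub (kerna_box_intg ρ) (kerna_box_intg δ), kerna_box_int ρ hρ,
      kerna_box_int δ hδ, sub_self]

theorem integral_box (ρ c : ℝ) (hρ : 0 < ρ) :
    Integrable (fun y => box ρ (c - y)) ∧ ∫ y, box ρ (c - y) = 1 := by
  refine ⟨(kerna_box_intg ρ).comp_sub_left c, ?_⟩
  rw [integral_sub_left_eq_self (box ρ) volume c, kerna_box_int ρ hρ]

theorem kerna_tent_nonneg (x : ℝ) : 0 ≤ tent x := le_max_left _ _

theorem kerna_tent_le (x : ℝ) : tent x ≤ 1 := max_le zero_le_one (min_le_left _ _)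

theorem kerna_tent_zero (x : ℝ) (hx : x ∉ Set.Icc (-1 : ℝ) 2) : tent x = 0 := by
  unfold tent
  refine max_eq_left ?_
  rw [Set.mem_Icc, not_and_or, not_le, not_le] at hx
  rcases hx with hx | hx
  · exact (min_le_right _ _).trans ((min_le_left _ _).trans (by linarith))
  · exact (min_le_right _ _).trans ((min_le_right _ _).trans (by linarith))

theorem kerna_tent_cont : Continuous tent := by
  unfold tent
  fun_prop

theorem kerna_tent_lip (x y : ℝ) : |tent x - tent y| ≤ |x - y| := by
  unfold tent
  have h1 := le_abs_self (x - y)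
  have h2 := neg_abs_le (x - y)
  rw [abs_le]
  constructor <;> simp only [max_def, min_def] <;> split_ifs <;> linarith

theorem kerna_sup (g : ℝ → ℝ) (B : ℝ) (h : ∀ x ∈ Set.Icc (-1 : ℝ) 2, |g x| ≤ B) :
    |∫ x, tent x * g x| ≤ 3 * B := by
  have hi : Integrable (Set.indicator (Set.Icc (-1 : ℝ) 2) (fun _ => B)) := by
    rw [integrable_indicator_iff measurableSet_Icc]
    exact continuous_const.integrableOn_Icc
  have h1 := norm_integral_le_of_norm_le (μ := volume) (f := fun x => tent x * g x) hi
    (Eventually.of_forall fun x => by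
      by_cases hx : x ∈ Set.Icc (-1 : ℝ) 2
      · rw [Set.indicator_of_mem hx, Real.norm_eq_abs, abs_mul, abs_of_nonneg (kerna_tent_nonneg x)]
        have a1 := h x hx
        have a2 := kerna_tent_le x
        have a3 := kerna_tent_nonneg x
        have a4 := abs_nonneg (g x)
        nlinarith
      · rw [Set.indicator_of_notMem hx, kerna_tent_zero x hx]
        simp)
  rw [integral_indicator measurableSet_Icc, setIntegral_const, Real.volume_real_Icc,
    max_eq_left (by norm_num), smul_eq_mul, Real.norm_eq_abs] at h1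
  linarith

theorem kerna_aff_intg (K : ℝ → ℝ) (hK : Integrable K) (a c : ℝ) (ha : a ≠ 0) :
    Integrable (fun x => K (a * x + c)) :=
  (hK.comp_add_right c).comp_mul_left' ha

theorem kerna_aff_int (K : ℝ → ℝ) (a c : ℝ) :
    ∫ x, K (a * x + c) = |a⁻¹| * ∫ z, K z := by
  have h := Measure.integral_comp_mul_left (fun z => K (z + c)) a
  rw [integral_add_right_eq_self K c, smul_eq_mul] at h
  exact h

theorem kerna_weight (K w : ℝ → ℝ) (hK : Integrable K) (C B a c : ℝ) (ha : a ≠ 0) (hB : 0 ≤ B)
    (hC : ∫ z, |K z| ≤ C) (hw : ∀ x, K (a * x + c) ≠ 0 → |w x| ≤ B) :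
    |∫ x, w x * K (a * x + c)| ≤ B * (C / |a|) := by
  have hi : Integrable (fun x => B * |K (a * x + c)|) :=
    (kerna_aff_intg K hK a c ha).abs.const_mul B
  have h1 := norm_integral_le_of_norm_le (μ := volume) (f := fun x => w x * K (a * x + c)) hi
    (Eventually.of_forall fun x => by
      rw [Real.norm_eq_abs, abs_mul]
      by_cases hx : K (a * x + c) = 0
      · rw [hx]; simp
      · exact mul_le_mul_of_nonneg_right (hw x hx) (abs_nonneg _))
  rw [integral_const_mul, kerna_aff_int (fun z => |K z|) a c, Real.norm_eq_abs] at h1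
  refine h1.trans (mul_le_mul_of_nonneg_left ?_ hB)
  rw [abs_inv, div_eq_inv_mul]
  exact mul_le_mul_of_nonneg_left hC (inv_nonneg.2 (abs_nonneg a))

theorem kerna_shift (K : ℝ → ℝ) (hK : Integrable K) (h0 : ∫ z, K z = 0) (a c t : ℝ) (ha : a ≠ 0) :
    ∫ x, tent x * K (a * x + c) = ∫ x, (tent x - t) * K (a * x + c) := by
  have h1 := kerna_aff_intg K hK a c ha
  have h2 : Integrable (fun x => tent x * K (a * x + c)) :=
    h1.bdd_mul (c := 1) kerna_tent_cont.aestronglyMeasurable (Eventually.of_forall fun x => by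
      rw [Real.norm_eq_abs, abs_of_nonneg (kerna_tent_nonneg x)]
      exact kerna_tent_le x)
  have h3 : (fun x => (tent x - t) * K (a * x + c)) =
      fun x => tent x * K (a * x + c) - t * K (a * x + c) := by
    funext x
    ring
  rw [h3, integral_sub h2 (h1.const_mul t), integral_const_mul, kerna_aff_int K a c, h0]
  simp

theorem kerna_far (a c : ℝ) (h : 4 * |a| < max |a| |c|) (x : ℝ) (hx : x ∈ Set.Icc (-1 : ℝ) 2) :
    max |a| |c| / 2 ≤ |a * x + c| := by
  have ha := abs_nonneg a
  have h1 : max |a| |c| = |c| := by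
    rcases le_total |a| |c| with h2 | h2
    · exact max_eq_right h2
    · rw [max_eq_left h2] at h
      linarith
  rw [h1] at h ⊢
  have h2 : |x| ≤ 2 := abs_le.2 ⟨by linarith [hx.1], hx.2⟩
  have h3 : |c| ≤ |a * x + c| + |a * x| := by
    have := abs_sub (a * x + c) (a * x)
    simpa using this
  rw [abs_mul] at h3
  nlinarith

theorem tent_bound (δ ρ C : ℝ) (K : ℝ → ℝ) (hK : Kern δ ρ C K) (hρ : 0 ≤ ρ) (a c : ℝ) :
    |∫ x, tent x * K (a * x + c)| ≤ 6 * C / max (max |a| |c|) δ ∧
    (0 < max |a| |c| → |∫ x, tent x * K (a * x + c)| ≤ 16 * C * ρ / (max |a| |c|) ^ 2) := by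
  have hδ := hK.hδ
  have hC : 0 ≤ C := le_trans (integral_nonneg fun z => abs_nonneg _) hK.l1
  have hfar : 0 < max |a| |c| → 4 * |a| < max |a| |c| →
      |∫ x, tent x * K (a * x + c)| ≤ 6 * C / max |a| |c| := by
    intro hd h4
    have h1 := kerna_sup (fun x => K (a * x + c)) (2 * C / max |a| |c|) fun x hx => by
      have a1 := kerna_far a c h4 x hx
      have a2 := hK.bnd (a * x + c)
      have a3 := le_max_left |a * x + c| δ
      have a4 := abs_nonneg (K (a * x + c))
      rw [le_div_iff₀ hd]
      nlinarith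
    refine h1.trans (le_of_eq ?_)
    ring
  constructor
  · rcases le_total (max |a| |c|) δ with h | h
    · rw [max_eq_right h]
      have h1 := kerna_sup (fun x => K (a * x + c)) (C / δ) fun x _ => by
        have a2 := hK.bnd (a * x + c)
        have a3 := le_max_right |a * x + c| δ
        have a4 := abs_nonneg (K (a * x + c))
        rw [le_div_iff₀ hδ]
        nlinarith
      have h2 : 0 ≤ C / δ := by positivity
      have h3 : 6 * C / δ = 6 * (C / δ) := by ring
      linarith
    · rw [max_eq_left h]
      have hd : 0 < max |a| |c| := lt_of_lt_of_le hδ h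
      rcases lt_or_ge (4 * |a|) (max |a| |c|) with h4 | h4
      · exact hfar hd h4
      · have ha : 0 < |a| := by linarith
        have h1 := kerna_weight K tent hK.intg C 1 a c (abs_pos.1 ha) zero_le_one hK.l1
          fun x _ => by
            rw [abs_of_nonneg (kerna_tent_nonneg x)]
            exact kerna_tent_le x
        refine h1.trans ?_
        rw [one_mul, div_le_div_iff₀ ha hd]
        nlinarith
  · intro hd
    rcases lt_or_ge (4 * |a|) (max |a| |c|) with h4 | h4
    · rcases lt_or_ge (2 * ρ) (max |a| |c|) with h5 | h5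
      · have h1 := kerna_sup (fun x => K (a * x + c)) 0 fun x hx => by
          have a1 := kerna_far a c h4 x hx
          rw [hK.supp _ (by linarith), abs_zero]
        have h2 : 0 ≤ 16 * C * ρ / (max |a| |c|) ^ 2 := by positivity
        linarith
      · refine (hfar hd h4).trans ?_
        rw [div_le_div_iff₀ hd (by positivity)]
        have a1 : 0 ≤ C * max |a| |c| := by positivity
        nlinarith
    · have ha : 0 < |a| := by linarith
      have ha' : a ≠ 0 := abs_pos.1 ha
      rw [kerna_shift K hK.intg hK.mean a c (tent (-c / a)) ha']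
      have h1 := kerna_weight K (fun x => tent x - tent (-c / a)) hK.intg C (ρ / |a|) a c ha'
        (by positivity) hK.l1 fun x hx => by
          refine (kerna_tent_lip x (-c / a)).trans ?_
          have a1 : |a * x + c| ≤ ρ := by
            by_contra a2
            exact hx (hK.supp _ (not_le.1 a2))
          have a2 : x - -c / a = (a * x + c) / a := by
            field_simp
            ring
          rw [a2, abs_div]
          exact div_le_div_of_nonneg_right a1 ha.le
      refine h1.trans ?_
      rw [div_mul_div_comm, div_le_div_iff₀ (by positivity) (by positivity)]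
      have a1 : (max |a| |c|) ^ 2 ≤ 16 * (|a| * |a|) := by nlinarith
      have a2 : 0 ≤ ρ * C := by positivity
      nlinarith

end Pool.Agent.Lib.MP_e56372_nt.Dim
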