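import Pool.Agent.Lib.MP_e56372_nt.Dim.Cov
import Pool.Agent.Lib.MP_e56372_nt.Dim.Cnt
import Pool.Agent.Lib.MP_e56372_nt.Dim.KernA

set_option autoImplicit false
open MeasureTheory Filter Topology Finset

namespace Pool.Agent.Lib.MP_e56372_nt.Dim
open Pool.Agent.Lib.MP_e56372_nt

theorem low_box_nonneg (ρ z : ℝ) (hρ : 0 < ρ) : 0 ≤ box ρ z := by
  unfold box
  split_ifs
  · positivity
  · exact le_rfl

theorem low_box_meas (ρ : ℝ) : Measurable (box ρ) := by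
  unfold box
  exact Measurable.ite (measurableSet_le (by fun_prop) measurable_const) measurable_const
    measurable_const

theorem low_inner_nonneg (ρ c : ℝ) (hρ : 0 < ρ) (F : Set ℝ) : 0 ≤ ∫ y in F, box ρ (c - y) :=
  integral_nonneg fun _ => low_box_nonneg _ _ hρ

theorem low_inner_le (ρ c : ℝ) (hρ : 0 < ρ) (F : Set ℝ) : ∫ y in F, box ρ (c - y) ≤ 1 := by
  obtain ⟨h1, h2⟩ := integral_box ρ c hρ
  rw [← h2]
  exact setIntegral_le_integral h1 (Eventually.of_forall fun _ => low_box_nonneg _ _ hρ)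

theorem low_fin (X : Set ℝ) (hX1 : X ⊆ Set.Icc 0 1) : volume X ≠ ⊤ :=
  ne_top_of_le_ne_top (by simp) (measure_mono hX1)

theorem low_real_le (X : Set ℝ) (hX1 : X ⊆ Set.Icc 0 1) : volume.real X ≤ 1 := by
  have h := measureReal_mono (μ := volume) hX1 (by simp)
  simpa using h

theorem low_outer_int (ρ a c : ℝ) (hρ : 0 < ρ) (X F : Set ℝ) (hX1 : X ⊆ Set.Icc 0 1) :
    IntegrableOn (fun x => ∫ y in F, box ρ (a * x + c - y)) X := by
  have hm : StronglyMeasurable fun x : ℝ => ∫ y in F, box ρ (a * x + c - y) := by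
    have h1 : Measurable fun z : ℝ × ℝ => box ρ (a * z.1 + c - z.2) :=
      (low_box_meas ρ).comp (by fun_prop)
    exact h1.stronglyMeasurable.integral_prod_right'
  refine Measure.integrableOn_of_bounded (M := 1) (low_fin X hX1) hm.aestronglyMeasurable
    (Eventually.of_forall fun x => ?_)
  rw [Real.norm_eq_abs, abs_of_nonneg (low_inner_nonneg _ _ hρ F)]
  exact low_inner_le _ _ hρ F

theorem low_outer_le (ρ a c : ℝ) (hρ : 0 < ρ) (X F : Set ℝ) (hX1 : X ⊆ Set.Icc 0 1) :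
    ∫ x in X, ∫ y in F, box ρ (a * x + c - y) ≤ 1 := by
  have h1 : ∫ x in X, ∫ y in F, box ρ (a * x + c - y) ≤ ∫ _x in X, (1 : ℝ) :=
    integral_mono (low_outer_int ρ a c hρ X F hX1)
      (integrableOn_const (low_fin X hX1)) fun x => low_inner_le _ _ hρ F
  rw [setIntegral_const, smul_eq_mul, mul_one] at h1
  exact h1.trans (low_real_le X hX1)

/-- a pointwise lower bound for a finite sum of boxes integrates. -/
theorem low_integrate {P : Type} (S : Finset P) (I : P → Finset ℤ) (a c : P → ℤ → ℝ) (ρ L : ℝ)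
    (hρ : 0 < ρ) (X F : Set ℝ) (hX : MeasurableSet X) (hF : MeasurableSet F)
    (hX1 : X ⊆ Set.Icc 0 1) (hF1 : F ⊆ Set.Icc 0 1)
    (hL : ∀ x ∈ X, ∀ y ∈ F, L ≤ ∑ p ∈ S, ∑ i ∈ I p, box ρ (a p i * x + c p i - y)) :
    volume.real X * (volume.real F * L) ≤
      ∑ p ∈ S, ∑ i ∈ I p, ∫ x in X, ∫ y in F, box ρ (a p i * x + c p i - y) := by
  have hin : ∀ p i x, IntegrableOn (fun y => box ρ (a p i * x + c p i - y)) F := fun p i x =>
    (integral_box ρ _ hρ).1.integrableOn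
  have h1 : ∀ x ∈ X, volume.real F * L ≤
      ∑ p ∈ S, ∑ i ∈ I p, ∫ y in F, box ρ (a p i * x + c p i - y) := by
    intro x hx
    have e : ∑ p ∈ S, ∑ i ∈ I p, ∫ y in F, box ρ (a p i * x + c p i - y) =
        ∫ y in F, ∑ p ∈ S, ∑ i ∈ I p, box ρ (a p i * x + c p i - y) := by
      rw [integral_finsetSum _ fun p _ => integrable_finsetSum _ fun i _ => hin p i x]
      exact sum_congr rfl fun p _ => (integral_finsetSum _ fun i _ => hin p i x).symm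
    rw [e]
    have h2 := setIntegral_mono_on (integrableOn_const (C := L) (low_fin F hF1))
      (integrable_finsetSum _ fun p _ => integrable_finsetSum _ fun i _ => hin p i x) hF
      (fun y hy => hL x hx y hy)
    rwa [setIntegral_const, smul_eq_mul] at h2
  have hout : ∀ p i, IntegrableOn (fun x => ∫ y in F, box ρ (a p i * x + c p i - y)) X :=
    fun p i => low_outer_int ρ _ _ hρ X F hX1
  have e : ∑ p ∈ S, ∑ i ∈ I p, ∫ x in X, ∫ y in F, box ρ (a p i * x + c p i - y) =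
      ∫ x in X, ∑ p ∈ S, ∑ i ∈ I p, ∫ y in F, box ρ (a p i * x + c p i - y) := by
    rw [integral_finsetSum _ fun p _ => integrable_finsetSum _ fun i _ => hout p i]
    exact sum_congr rfl fun p _ => (integral_finsetSum _ fun i _ => hout p i).symm
  rw [e]
  have h2 := setIntegral_mono_on (integrableOn_const (C := volume.real F * L) (low_fin X hX1))
    (integrable_finsetSum _ fun p _ => integrable_finsetSum _ fun i _ => hout p i) hX h1
  rwa [setIntegral_const, smul_eq_mul] at h2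

/-- shear of the third coordinate. -/
def lowHat (x y : ℝ) (e : V3) : V3 := ![e 0, e 1, e 0 * x + e 1 * y + e 2]

theorem low_hat_bound (B x y : ℝ) (e : V3) (he : ∀ k, |e k| ≤ B) (hx : x ∈ Set.Icc (0 : ℝ) 1)
    (hy : y ∈ Set.Icc (0 : ℝ) 1) : ∀ k, |lowHat x y e k| ≤ 3 * B := by
  have hB : 0 ≤ B := (abs_nonneg _).trans (he 0)
  have a0 := abs_le.1 (he 0)
  have a1 := abs_le.1 (he 1)
  have a2 := abs_le.1 (he 2)
  intro k
  fin_cases k
  · simpa [lowHat] using (he 0).trans (by linarith)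
  · simpa [lowHat] using (he 1).trans (by linarith)
  · have : |e 0 * x + e 1 * y + e 2| ≤ 3 * B := by
      rw [abs_le]
      constructor <;> nlinarith [hx.1, hx.2, hy.1, hy.2, a0.1, a0.2, a1.1, a1.2, a2.1, a2.2,
        mul_nonneg hx.1 (sub_nonneg.2 a0.1), mul_nonneg hx.1 (sub_nonneg.2 a0.2),
        mul_nonneg hy.1 (sub_nonneg.2 a1.1), mul_nonneg hy.1 (sub_nonneg.2 a1.2),
        mul_nonneg hB (sub_nonneg.2 hx.2), mul_nonneg hB (sub_nonneg.2 hy.2)]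
    simpa [lowHat] using this

theorem low_hat_det (x y : ℝ) (e f g : V3) :
    det3 (lowHat x y e) (lowHat x y f) (lowHat x y g) = det3 e f g := by
  simp only [det3, lowHat, Matrix.cons_val_zero, Matrix.cons_val_one, Matrix.cons_val]
  ring

theorem low_one (U V x y : ℝ) (w : V3) (hV : 0 < V) (hVU : V ≤ U) (hx : x ∈ Set.Icc (0 : ℝ) 1)
    (hy : y ∈ Set.Icc (0 : ℝ) 1) (h0 : -(2 * U) ≤ w 0) (h0' : w 0 ≤ -U) (h1 : U ≤ w 1)
    (h1' : w 1 ≤ 2 * U) (h2 : |w 0 * x + w 1 * y + w 2| ≤ V) :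
    InOm U w ∧ (∀ k, |w k| ≤ 4 * U) ∧ |sl w * x + ic w - y| ≤ V / U := by
  have hU : 0 < U := lt_of_lt_of_le hV hVU
  have a2 := abs_le.1 h2
  have hw2 : |w 2| ≤ 4 * U := by
    rw [abs_le]
    constructor <;> nlinarith [hx.1, hx.2, hy.1, hy.2, a2.1, a2.2,
      mul_nonneg hx.1 (sub_nonneg.2 h0), mul_nonneg hx.1 (sub_nonneg.2 h0'),
      mul_nonneg hy.1 (sub_nonneg.2 h1), mul_nonneg hy.1 (sub_nonneg.2 h1'),
      mul_nonneg hU.le (sub_nonneg.2 hx.2), mul_nonneg hU.le (sub_nonneg.2 hy.2),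
      mul_nonneg hU.le hx.1, mul_nonneg hU.le hy.1]
  refine ⟨⟨h0, h0', h1, h1', hw2⟩, ?_, ?_⟩
  · intro k
    fin_cases k
    · show |w 0| ≤ 4 * U
      rw [abs_le]; constructor <;> linarith
    · show |w 1| ≤ 4 * U
      rw [abs_le]; constructor <;> linarith
    · exact hw2
  · have hw1 : 0 < w 1 := lt_of_lt_of_le hU h1
    have e : sl w * x + ic w - y = -(w 0 * x + w 1 * y + w 2) / w 1 := by
      unfold sl ic
      field_simp
      ring
    rw [e, abs_div, abs_neg, abs_of_pos hw1]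
    exact div_le_div₀ hV.le h2 hU h1

theorem low_rng (b : ℕ) (hb : 2 ^ 20 ≤ b) (i : ℤ)
    (h : |(i : ℝ)| ≤ 6 * (b : ℝ) ^ 2 * (4 * (b : ℝ) ^ 400)) : i ∈ Rng b := by
  have hB : (24 : ℝ) ≤ b := by
    have : (24 : ℕ) ≤ b := le_trans (by norm_num) hb
    exact_mod_cast this
  have h2 : 6 * (b : ℝ) ^ 2 * (4 * (b : ℝ) ^ 400) ≤ (b : ℝ) ^ 403 := by
    calc 6 * (b : ℝ) ^ 2 * (4 * (b : ℝ) ^ 400) = 24 * (b : ℝ) ^ 402 := by ring
      _ ≤ b * (b : ℝ) ^ 402 := by gcongr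
      _ = (b : ℝ) ^ 403 := by ring
  have h3 : |i| ≤ (b : ℤ) ^ 403 := by exact_mod_cast h.trans h2
  unfold Rng
  exact mem_Icc.2 (abs_le.1 h3)

theorem low_point (b : ℕ) (hb : 2 ^ 20 ≤ b) (e f g : V3) (h : Frame b e f g) (x y : ℝ)
    (hx : x ∈ Set.Icc (0 : ℝ) 1) (hy : y ∈ Set.Icc (0 : ℝ) 1) :
    (b : ℝ) ^ 1197 / 27648 ≤ ∑ p ∈ Rng b ×ˢ Rng b, ∑ i ∈ Pts b e f g p,
      box (1 / (b : ℝ) ^ 380) (sl (cmb e f g i p.1 p.2) * x + ic (cmb e f g i p.1 p.2) - y) := by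
  classical
  have hB1 : (1 : ℝ) ≤ b := by
    have : (1 : ℕ) ≤ b := le_trans (by norm_num) hb
    exact_mod_cast this
  have hB : (0 : ℝ) < b := by linarith
  obtain ⟨k, hk1, hk2⟩ : ∃ k : ℕ, 12 * k ≤ b ∧ b ≤ 24 * k := ⟨b / 12, by omega, by omega⟩
  have hk1' : 12 * (k : ℝ) ≤ b := by exact_mod_cast hk1
  have hk2' : (b : ℝ) ≤ 24 * k := by exact_mod_cast hk2
  have hd : det3 (lowHat x y e) (lowHat x y f) (lowHat x y g) ≠ 0 := by
    rw [low_hat_det]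
    intro h0
    have := h.hdet
    rw [h0, abs_zero] at this
    linarith
  obtain ⟨S, hS, hS2⟩ := grid_count (lowHat x y e) (lowHat x y f) (lowHat x y g) (3 * b)
    (by positivity) (low_hat_bound _ x y e h.he hx hy) (low_hat_bound _ x y f h.hf hx hy)
    (low_hat_bound _ x y g h.hg hx hy) hd
    ![-(2 * (b : ℝ) ^ 400), (b : ℝ) ^ 400, -(b : ℝ) ^ 20] ![k * b ^ 398, k * b ^ 398, k * b ^ 18]
  have hρ : (0 : ℝ) < 1 / (b : ℝ) ^ 380 := by positivity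
  have hN0 : 4 * (3 * (b : ℝ)) * ((k : ℝ) * (b : ℝ) ^ 398) ≤ (b : ℝ) ^ 400 := by
    calc 4 * (3 * (b : ℝ)) * ((k : ℝ) * (b : ℝ) ^ 398) = 12 * (k : ℝ) * (b : ℝ) ^ 399 := by ring
      _ ≤ b * (b : ℝ) ^ 399 := by gcongr
      _ = (b : ℝ) ^ 400 := by ring
  have hN2 : 4 * (3 * (b : ℝ)) * ((k : ℝ) * (b : ℝ) ^ 18) ≤ (b : ℝ) ^ 20 := by
    calc 4 * (3 * (b : ℝ)) * ((k : ℝ) * (b : ℝ) ^ 18) = 12 * (k : ℝ) * (b : ℝ) ^ 19 := by ring
      _ ≤ b * (b : ℝ) ^ 19 := by gcongr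
      _ = (b : ℝ) ^ 20 := by ring
  have key : ∀ t ∈ S, InOm ((b : ℝ) ^ 400) (cmb e f g t.1 t.2.1 t.2.2) ∧
      t ∈ Rng b ×ˢ (Rng b ×ˢ Rng b) ∧
      |sl (cmb e f g t.1 t.2.1 t.2.2) * x + ic (cmb e f g t.1 t.2.1 t.2.2) - y| ≤
        1 / (b : ℝ) ^ 380 := by
    intro t ht
    have c0 := hS2 t ht 0
    have c1 := hS2 t ht 1
    have c2 := hS2 t ht 2
    have e0 : cmb (lowHat x y e) (lowHat x y f) (lowHat x y g) t.1 t.2.1 t.2.2 0 =
        cmb e f g t.1 t.2.1 t.2.2 0 := rfl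
    have e1 : cmb (lowHat x y e) (lowHat x y f) (lowHat x y g) t.1 t.2.1 t.2.2 1 =
        cmb e f g t.1 t.2.1 t.2.2 1 := rfl
    have e2 : cmb (lowHat x y e) (lowHat x y f) (lowHat x y g) t.1 t.2.1 t.2.2 2 =
        cmb e f g t.1 t.2.1 t.2.2 0 * x + cmb e f g t.1 t.2.1 t.2.2 1 * y +
          cmb e f g t.1 t.2.1 t.2.2 2 := by
      simp only [cmb, lowHat, Matrix.cons_val]
      ring
    rw [e0] at c0
    rw [e1] at c1
    rw [e2] at c2
    simp only [Matrix.cons_val_zero, Matrix.cons_val_one, Matrix.cons_val, Nat.cast_mul,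
      Nat.cast_pow] at c0 c1 c2
    have p20 : (0 : ℝ) < (b : ℝ) ^ 20 := by positivity
    obtain ⟨d1, d2, d3⟩ := low_one ((b : ℝ) ^ 400) ((b : ℝ) ^ 20) x y (cmb e f g t.1 t.2.1 t.2.2)
      p20 (pow_le_pow_right₀ hB1 (by norm_num)) hx hy c0.1 (by linarith [c0.2]) c1.1
      (by linarith [c1.2]) (abs_le.2 ⟨c2.1, by linarith [c2.2]⟩)
    obtain ⟨r1, r2, r3⟩ := cramer_bound b e f g h t.1 t.2.1 t.2.2 _ d2
    refine ⟨d1, mem_product.2 ⟨low_rng b hb _ r1, mem_product.2 ⟨low_rng b hb _ r2,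
      low_rng b hb _ r3⟩⟩, d3.trans (le_of_eq ?_)⟩
    field_simp
  set φ : ℤ × ℤ × ℤ → ℝ := fun t => if InOm ((b : ℝ) ^ 400) (cmb e f g t.1 t.2.1 t.2.2) then
    box (1 / (b : ℝ) ^ 380)
      (sl (cmb e f g t.1 t.2.1 t.2.2) * x + ic (cmb e f g t.1 t.2.1 t.2.2) - y) else 0 with hφ
  have e1 : ∑ p ∈ Rng b ×ˢ Rng b, ∑ i ∈ Pts b e f g p,
      box (1 / (b : ℝ) ^ 380) (sl (cmb e f g i p.1 p.2) * x + ic (cmb e f g i p.1 p.2) - y) =
      ∑ t ∈ Rng b ×ˢ (Rng b ×ˢ Rng b), φ t := by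
    rw [sum_product_right (Rng b) (Rng b ×ˢ Rng b) φ]
    refine sum_congr rfl fun p _ => ?_
    unfold Pts
    rw [sum_filter]
  rw [e1]
  have h1 : ∑ t ∈ S, φ t ≤ ∑ t ∈ Rng b ×ˢ (Rng b ×ˢ Rng b), φ t := by
    refine sum_le_sum_of_subset_of_nonneg (fun t ht => (key t ht).2.1) fun t _ _ => ?_
    simp only [hφ]
    split_ifs
    · exact low_box_nonneg _ _ hρ
    · exact le_rfl
  have h2 : ∑ t ∈ S, φ t = S.card * ((b : ℝ) ^ 380 / 2) := by
    rw [← nsmul_eq_mul, ← sum_const]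
    refine sum_congr rfl fun t ht => ?_
    simp only [hφ]
    rw [if_pos (key t ht).1]
    unfold box
    rw [if_pos (key t ht).2.2]
    field_simp
  refine le_trans ?_ h1
  rw [h2, hS]
  simp only [Matrix.cons_val_zero, Matrix.cons_val_one, Matrix.cons_val, Nat.cast_mul,
    Nat.cast_pow]
  have hk3 : (b : ℝ) ^ 3 ≤ (24 * (k : ℝ)) ^ 3 := pow_le_pow_left₀ hB.le hk2' 3
  calc (b : ℝ) ^ 1197 / 27648 = (b : ℝ) ^ 3 * ((b : ℝ) ^ 1194 / 27648) := by ring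
    _ ≤ (24 * (k : ℝ)) ^ 3 * ((b : ℝ) ^ 1194 / 27648) := by gcongr
    _ = _ := by ring

theorem low (b : ℕ) (hb : 2 ^ 20 ≤ b) (e f g : V3) (h : Frame b e f g) (X F : Set ℝ)
    (hX : MeasurableSet X) (hF : MeasurableSet F) (hX1 : X ⊆ Set.Icc 0 1) (hF1 : F ⊆ Set.Icc 0 1)
    (hXv : 1 / (b : ℝ) ≤ volume.real X) (hFv : 1 / (b : ℝ) ≤ volume.real F) :
    (b : ℝ) ^ 1194 ≤ ∑ p ∈ Pen b e f g, ∑ i ∈ Pts b e f g p, ∫ x in X, ∫ y in F,
      box (1 / (b : ℝ) ^ 380) (sl (cmb e f g i p.1 p.2) * x + ic (cmb e f g i p.1 p.2) - y) := by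
  classical
  have hB20 : (2 : ℝ) ^ 20 ≤ b := by exact_mod_cast hb
  have hB : (0 : ℝ) < b := lt_of_lt_of_le (by positivity) hB20
  have hb2 : 2 ≤ b := le_trans (by norm_num) hb
  have hρ : (0 : ℝ) < 1 / (b : ℝ) ^ 380 := by positivity
  have hall := low_integrate (Rng b ×ˢ Rng b) (Pts b e f g)
    (fun p i => sl (cmb e f g i p.1 p.2)) (fun p i => ic (cmb e f g i p.1 p.2)) _ _ hρ X F hX hF
    hX1 hF1 fun x hx y hy => low_point b hb e f g h x y (hX1 hx) (hF1 hy)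
  have hsub : Pen b e f g ⊆ Rng b ×ˢ Rng b := by
    unfold Pen
    exact filter_subset _ _
  rw [← sum_sdiff hsub] at hall
  have hbad : ∑ p ∈ (Rng b ×ˢ Rng b) \ Pen b e f g, ∑ i ∈ Pts b e f g p, ∫ x in X, ∫ y in F,
      box (1 / (b : ℝ) ^ 380) (sl (cmb e f g i p.1 p.2) * x + ic (cmb e f g i p.1 p.2) - y) ≤
      60 * (b : ℝ) ^ 792 * (2 * (b : ℝ) ^ 400) := by
    calc _ ≤ ∑ _p ∈ (Rng b ×ˢ Rng b) \ Pen b e f g, 2 * (b : ℝ) ^ 400 := by
          refine sum_le_sum fun p _ => le_trans ?_ (pts_card b hb2 e f g h p)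
          calc _ ≤ ∑ _i ∈ Pts b e f g p, (1 : ℝ) :=
                sum_le_sum fun i _ => low_outer_le _ _ _ hρ X F hX1
            _ = _ := by simp
      _ = (((Rng b ×ˢ Rng b) \ Pen b e f g).card : ℝ) * (2 * (b : ℝ) ^ 400) := by
          rw [sum_const, nsmul_eq_mul]
      _ ≤ _ := by
          have := bad_card b hb2 e f g h
          gcongr
  have hlow : (b : ℝ) ^ 1195 / 27648 ≤
      volume.real X * (volume.real F * ((b : ℝ) ^ 1197 / 27648)) := by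
    calc (b : ℝ) ^ 1195 / 27648 = 1 / (b : ℝ) * (1 / (b : ℝ) * ((b : ℝ) ^ 1197 / 27648)) := by
          field_simp
      _ ≤ _ := by gcongr
  have hnum : (b : ℝ) ^ 1194 + 60 * (b : ℝ) ^ 792 * (2 * (b : ℝ) ^ 400) ≤
      (b : ℝ) ^ 1195 / 27648 := by
    have h3 : (b : ℝ) ^ 2 + 120 ≤ (b : ℝ) ^ 3 / 27648 := by
      have h4 : (2 : ℝ) ^ 20 * (b : ℝ) ^ 2 ≤ b * (b : ℝ) ^ 2 := by gcongr
      nlinarith
    calc (b : ℝ) ^ 1194 + 60 * (b : ℝ) ^ 792 * (2 * (b : ℝ) ^ 400)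
        = ((b : ℝ) ^ 2 + 120) * (b : ℝ) ^ 1192 := by ring
      _ ≤ (b : ℝ) ^ 3 / 27648 * (b : ℝ) ^ 1192 := by gcongr
      _ = _ := by ring
  linarith

end Pool.Agent.Lib.MP_e56372_nt.Dim
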