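import Pool.Agent.Lib.MP_e56372_nt.Dim.KernA
import Pool.Agent.Lib.MP_e56372_nt.Dim.KernB
import Pool.Agent.Lib.MP_e56372_nt.Dim.CS1
import Pool.Agent.Lib.MP_e56372_nt.Dim.CS2
import Pool.Agent.Lib.MP_e56372_nt.Dim.Cnt
import Pool.Agent.Lib.MP_e56372_nt.Dim.Low
import Pool.Agent.Lib.MP_e56372_nt.Dim.Energy

set_option autoImplicit false
open MeasureTheory Filter Topology Finset

namespace Pool.Agent.Lib.MP_e56372_nt.Dim
open Pool.Agent.Lib.MP_e56372_nt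

theorem mix_pts_sub (b : ℕ) (e f g : V3) (p : ℤ × ℤ) : Pts b e f g p ⊆ Rng b := by
  classical
  unfold Pts
  exact Finset.filter_subset _ _

theorem mix_pts_inOm (b : ℕ) (e f g : V3) (p : ℤ × ℤ) (i : ℤ) (hi : i ∈ Pts b e f g p) :
    InOm ((b : ℝ) ^ 400) (cmb e f g i p.1 p.2) := by
  classical
  unfold Pts at hi
  exact (Finset.mem_filter.1 hi).2

theorem mix_sl_half (U : ℝ) (hU : 0 < U) (w : V3) (h : InOm U w) : 1 / 2 ≤ sl w := by
  obtain ⟨_, h2, h3, h4, _⟩ := h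
  unfold sl
  have hw : 0 < w 1 := lt_of_lt_of_le hU h3
  rw [le_div_iff₀ hw]
  linarith

theorem mix_split (b : ℕ) (e f g : V3) (T : (ℤ × ℤ) → ℤ → ℤ → ℝ) :
    ∑ q ∈ Far b e f g, T q.1 q.2.1 q.2.2 =
      ∑ p ∈ Pen b e f g, ∑ i ∈ Pts b e f g p, ∑ j ∈ Pts b e f g p,
        if (b : ℤ) ^ 371 ≤ |i - j| then T p i j else 0 := by
  classical
  unfold Far
  rw [Finset.sum_filter, Finset.sum_product]
  refine Finset.sum_congr rfl fun p _ => ?_
  rw [Finset.sum_product]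
  symm
  refine Finset.sum_subset_zero_on_sdiff (mix_pts_sub b e f g p) ?_ ?_
  · intro i hi
    have hi' := (Finset.mem_sdiff.1 hi).2
    refine Finset.sum_eq_zero fun j _ => ?_
    rw [if_neg]
    exact fun hh => hi' hh.1
  · intro i hi
    refine Finset.sum_subset_zero_on_sdiff (mix_pts_sub b e f g p) ?_ ?_
    · intro j hj
      have hj' := (Finset.mem_sdiff.1 hj).2
      rw [if_neg]
      exact fun hh => hj' hh.2.1
    · intro j hj
      by_cases hc : (b : ℤ) ^ 371 ≤ |i - j|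
      · rw [if_pos hc, if_pos ⟨hi, hj, hc⟩]
      · rw [if_neg hc, if_neg (fun hh => hc hh.2.2)]

theorem mix_far_mem (b : ℕ) (e f g : V3) (q : (ℤ × ℤ) × ℤ × ℤ) (hq : q ∈ Far b e f g) :
    q.2.2 ∈ Pts b e f g q.1 := by
  classical
  unfold Far at hq
  exact (Finset.mem_filter.1 hq).2.2.1

theorem mix_far_card (b : ℕ) (hb : 9 ≤ b) (e f g : V3) (h : Frame b e f g) :
    ((Far b e f g).card : ℝ) ≤ 4 * (b : ℝ) ^ 1607 := by
  have h1 := mix_split b e f g (fun _ _ _ => (1 : ℝ))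
  rw [Finset.sum_const, nsmul_eq_mul, mul_one] at h1
  rw [h1]
  have hb0 : (0 : ℝ) ≤ b := Nat.cast_nonneg b
  have hp : ∀ p ∈ Pen b e f g, (∑ i ∈ Pts b e f g p, ∑ j ∈ Pts b e f g p,
      if (b : ℤ) ^ 371 ≤ |i - j| then (1 : ℝ) else 0) ≤ 4 * (b : ℝ) ^ 800 := by
    intro p _
    have hc := pts_card b (by omega) e f g h p
    have hi : ∀ i ∈ Pts b e f g p, (∑ j ∈ Pts b e f g p,
        if (b : ℤ) ^ 371 ≤ |i - j| then (1 : ℝ) else 0) ≤ 2 * (b : ℝ) ^ 400 := by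
      intro i _
      refine le_trans (Finset.sum_le_card_nsmul _ _ (1 : ℝ) ?_) ?_
      · intro j _
        split_ifs <;> norm_num
      · rw [nsmul_eq_mul, mul_one]
        exact hc
    refine le_trans (Finset.sum_le_card_nsmul _ _ _ hi) ?_
    rw [nsmul_eq_mul]
    calc _ ≤ (2 * (b : ℝ) ^ 400) * (2 * (b : ℝ) ^ 400) :=
          mul_le_mul_of_nonneg_right hc (by positivity)
      _ = 4 * (b : ℝ) ^ 800 := by ring
  refine le_trans (Finset.sum_le_card_nsmul _ _ _ hp) ?_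
  rw [nsmul_eq_mul]
  calc _ ≤ (b : ℝ) ^ 807 * (4 * (b : ℝ) ^ 800) :=
        mul_le_mul_of_nonneg_right (pen_card b hb e f g) (by positivity)
    _ = 4 * (b : ℝ) ^ 1607 := by ring

theorem mix_near_one (S : Finset ℤ) (i B : ℤ) (hB : 1 ≤ B) (M : ℝ) (hM : 0 ≤ M) (T : ℤ → ℝ)
    (hT : ∀ j ∈ S, T j ≤ M) :
    (∑ j ∈ S, if B ≤ |i - j| then 0 else T j) ≤ 2 * (B : ℝ) * M := by
  classical
  have h1 : (∑ j ∈ S, if B ≤ |i - j| then 0 else T j) =
      ∑ j ∈ S.filter (fun j => ¬ B ≤ |i - j|), T j := by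
    rw [Finset.sum_filter]
    refine Finset.sum_congr rfl fun j _ => ?_
    by_cases hc : B ≤ |i - j|
    · rw [if_pos hc, if_neg (not_not.2 hc)]
    · rw [if_neg hc, if_pos hc]
  rw [h1]
  refine le_trans (Finset.sum_le_card_nsmul _ _ M
    (fun j hj => hT j (Finset.mem_filter.1 hj).1)) ?_
  rw [nsmul_eq_mul]
  refine mul_le_mul_of_nonneg_right ?_ hM
  have hs : S.filter (fun j => ¬ B ≤ |i - j|) ⊆ Finset.Ico (i - B) (i + B) := by
    intro j hj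
    have h2 := abs_lt.1 (not_le.1 (Finset.mem_filter.1 hj).2)
    rw [Finset.mem_Ico]
    constructor <;> linarith [h2.1, h2.2]
  have h3 := Finset.card_le_card hs
  rw [Int.card_Ico] at h3
  have h4 : (((S.filter (fun j => ¬ B ≤ |i - j|)).card : ℕ) : ℤ) ≤ 2 * B := by omega
  exact_mod_cast h4

theorem mix_near (b : ℕ) (hb : 9 ≤ b) (e f g : V3) (h : Frame b e f g)
    (T : (ℤ × ℤ) → ℤ → ℤ → ℝ) (hT : ∀ p i, ∀ j ∈ Pts b e f g p, T p i j ≤ 128) :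
    (∑ p ∈ Pen b e f g, ∑ i ∈ Pts b e f g p, ∑ j ∈ Pts b e f g p,
        if (b : ℤ) ^ 371 ≤ |i - j| then 0 else T p i j) ≤ 512 * (b : ℝ) ^ 1578 := by
  have hb0 : (0 : ℝ) ≤ b := Nat.cast_nonneg b
  have hB : (1 : ℤ) ≤ (b : ℤ) ^ 371 := one_le_pow₀ (by exact_mod_cast (by omega : 1 ≤ b))
  have hp : ∀ p ∈ Pen b e f g, (∑ i ∈ Pts b e f g p, ∑ j ∈ Pts b e f g p,
      if (b : ℤ) ^ 371 ≤ |i - j| then 0 else T p i j) ≤ 512 * (b : ℝ) ^ 771 := by
    intro p _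
    have hc := pts_card b (by omega) e f g h p
    have hi : ∀ i ∈ Pts b e f g p, (∑ j ∈ Pts b e f g p,
        if (b : ℤ) ^ 371 ≤ |i - j| then 0 else T p i j) ≤ 256 * (b : ℝ) ^ 371 := by
      intro i _
      refine le_trans (mix_near_one _ i _ hB 128 (by norm_num) (T p i) (hT p i)) ?_
      push_cast
      linarith
    refine le_trans (Finset.sum_le_card_nsmul _ _ _ hi) ?_
    rw [nsmul_eq_mul]
    calc _ ≤ (2 * (b : ℝ) ^ 400) * (256 * (b : ℝ) ^ 371) :=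
          mul_le_mul_of_nonneg_right hc (by positivity)
      _ = 512 * (b : ℝ) ^ 771 := by ring
  refine le_trans (Finset.sum_le_card_nsmul _ _ _ hp) ?_
  rw [nsmul_eq_mul]
  calc _ ≤ (b : ℝ) ^ 807 * (512 * (b : ℝ) ^ 771) :=
        mul_le_mul_of_nonneg_right (pen_card b hb e f g) (by positivity)
    _ = 512 * (b : ℝ) ^ 1578 := by ring

theorem mix_tau (δ ρ0 ρ1 : ℝ) (hρ0 : 0 < ρ0) (hρ1 : 0 ≤ ρ1) (K : ℝ → ℝ)
    (hK : Kern δ (4 * (4 * ρ1)) (16 * (16 * 2 ^ 2) ^ 2) K) (a c : ℝ) :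
    ∫ x, tent x * K (a * x + c) ≤ 2 ^ 24 * tau δ ρ0 ρ1 (max |a| |c|) := by
  obtain ⟨h1, h2⟩ := tent_bound δ _ _ K hK (by positivity) a c
  refine le_trans (le_abs_self _) ?_
  unfold tau
  split_ifs with hd
  · have hd0 : 0 < max |a| |c| := lt_of_lt_of_le hρ0 hd
    refine le_trans (h2 hd0) ?_
    have h3 : ρ1 / (max |a| |c|) ^ 2 ≤ ρ1 / ρ0 ^ 2 :=
      div_le_div_of_nonneg_left hρ1 (by positivity) (pow_le_pow_left₀ hρ0.le hd 2)
    calc _ = 2 ^ 24 * (ρ1 / (max |a| |c|) ^ 2) := by ring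
      _ ≤ _ := mul_le_mul_of_nonneg_left h3 (by positivity)
  · refine le_trans h1 ?_
    have h0 : 0 < max (max |a| |c|) δ := lt_of_lt_of_le hK.hδ (le_max_right _ _)
    rw [mul_one_div]
    exact div_le_div_of_nonneg_right (by norm_num) h0.le

theorem mix_far (b : ℕ) (hb : 2 ^ 20 ≤ b) (e f g : V3) (h : Frame b e f g) (X : Set ℝ)
    (hX : MeasurableSet X) (hX1 : X ⊆ Set.Icc 0 1) (K : ℝ → ℝ)
    (hK : Kern (1 / (b : ℝ) ^ 1201) (4 * (1 / (b : ℝ) ^ 380)) (16 * 2 ^ 2) K) :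
    (∑ q ∈ Far b e f g, ∫ x in X, ∫ x' in X,
      K (sl (cmb e f g q.2.1 q.1.1 q.1.2) * x + ic (cmb e f g q.2.1 q.1.1 q.1.2) -
        (sl (cmb e f g q.2.2 q.1.1 q.1.2) * x' + ic (cmb e f g q.2.2 q.1.1 q.1.2)))) ≤
      2 ^ 13 * (b : ℝ) ^ 1580 := by
  have hb1 : (1 : ℝ) ≤ b := by exact_mod_cast (by omega : 1 ≤ b)
  have hb0 : (0 : ℝ) < b := by linarith
  have hs : ∀ q ∈ Far b e f g, 1 / 2 ≤ sl (cmb e f g q.2.2 q.1.1 q.1.2) := fun q hq =>
    mix_sl_half _ (by positivity) _ (mix_pts_inOm b e f g q.1 q.2.2 (mix_far_mem b e f g q hq))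
  have h2 := cs_two (Far b e f g) (fun q => sl (cmb e f g q.2.1 q.1.1 q.1.2))
    (fun q => ic (cmb e f g q.2.1 q.1.1 q.1.2)) (fun q => sl (cmb e f g q.2.2 q.1.1 q.1.2))
    (fun q => ic (cmb e f g q.2.2 q.1.1 q.1.2)) hs _ _ _ K hK X hX hX1
  have h3 : ∀ q ∈ Far b e f g, (∑ q' ∈ Far b e f g, ∫ x, tent x *
      conv K K (sl (cmb e f g q.2.2 q.1.1 q.1.2)) (sl (cmb e f g q'.2.2 q'.1.1 q'.1.2))
        ((al e f g q - al e f g q') * x + (ga e f g q - ga e f g q'))) ≤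
      2 ^ 24 * (b : ℝ) ^ 1552 := by
    intro q hq
    refine le_trans (Finset.sum_le_sum fun q' hq' => mix_tau (1 / (b : ℝ) ^ 1201)
      (1 / (b : ℝ) ^ 161) (1 / (b : ℝ) ^ 380) (by positivity) (by positivity) _
      (kern_conv _ _ _ K K hK hK _ _ (hs q hq) (hs q' hq')) _ _) ?_
    rw [← Finset.mul_sum]
    exact mul_le_mul_of_nonneg_left (energy b hb e f g h q hq) (by positivity)
  have h4 := le_trans h2 (Finset.sum_le_card_nsmul _ _ _ h3)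
  rw [nsmul_eq_mul] at h4
  have h5 := le_trans h4
    (mul_le_mul_of_nonneg_right (mix_far_card b (by omega) e f g h) (by positivity))
  refine le_trans (le_abs_self _) (abs_le_of_sq_le_sq' ?_ (by positivity) |> abs_le.2)
  refine le_trans h5 ?_
  have h6 : (b : ℝ) ^ 3159 ≤ (b : ℝ) ^ 3160 := pow_le_pow_right₀ hb1 (by norm_num)
  calc _ = 2 ^ 26 * (b : ℝ) ^ 3159 := by ring
    _ ≤ 2 ^ 26 * (b : ℝ) ^ 3160 := mul_le_mul_of_nonneg_left h6 (by positivity)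
    _ = _ := by ring

theorem mix (b : ℕ) (hb : 2 ^ 30 ≤ b) (e f g : V3) (h : Frame b e f g) (X F : Set ℝ)
    (hX : MeasurableSet X) (hF : MeasurableSet F) (hX1 : X ⊆ Set.Icc 0 1) (hF1 : F ⊆ Set.Icc 0 1)
    (hXv : 1 / (b : ℝ) ≤ volume.real X) (hFv : 1 / (b : ℝ) ≤ volume.real F) :
    ∃ i n m : ℤ, ∃ x ∈ X, ∃ y ∈ F, InOm ((b : ℝ) ^ 400) (cmb e f g i n m) ∧
      |sl (cmb e f g i n m) * x + ic (cmb e f g i n m) - y| ≤ 1 / (b : ℝ) ^ 1201 := by
  by_contra hcon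
  have hb1 : (1 : ℝ) ≤ b := by exact_mod_cast (by omega : 1 ≤ b)
  have hb0 : (0 : ℝ) < b := by linarith
  have hbR : (2 : ℝ) ^ 30 ≤ b := by exact_mod_cast hb
  have hδρ : 1 / (b : ℝ) ^ 1201 ≤ 1 / (b : ℝ) ^ 380 :=
    one_div_le_one_div_of_le (by positivity) (pow_le_pow_right₀ hb1 (by norm_num))
  have hK := kern_box (1 / (b : ℝ) ^ 1201) (1 / (b : ℝ) ^ 380) (by positivity) hδρ
  have hlow := low b (by omega) e f g h X F hX hF hX1 hF1 hXv hFv
  have hcs := cs_one (Pen b e f g) (Pts b e f g) (fun p i => sl (cmb e f g i p.1 p.2))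
    (fun p i => ic (cmb e f g i p.1 p.2)) _ _ _ _ hK X F hX hF hX1 hF1
  have hK2 := kern_conv _ _ _ _ _ hK hK 1 1 (by norm_num) (by norm_num)
  have hJ : (∑ p ∈ Pen b e f g, ∑ i ∈ Pts b e f g p, ∫ x in X, ∫ y in F,
      (box (1 / (b : ℝ) ^ 380) (sl (cmb e f g i p.1 p.2) * x + ic (cmb e f g i p.1 p.2) - y) -
        box (1 / (b : ℝ) ^ 1201) (sl (cmb e f g i p.1 p.2) * x + ic (cmb e f g i p.1 p.2) - y))) =
      ∑ p ∈ Pen b e f g, ∑ i ∈ Pts b e f g p, ∫ x in X, ∫ y in F,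
      box (1 / (b : ℝ) ^ 380) (sl (cmb e f g i p.1 p.2) * x + ic (cmb e f g i p.1 p.2) - y) := by
    refine Finset.sum_congr rfl fun p _ => Finset.sum_congr rfl fun i hi => ?_
    refine setIntegral_congr_fun hX fun x hx => ?_
    refine setIntegral_congr_fun hF fun y hy => ?_
    have hz : box (1 / (b : ℝ) ^ 1201)
        (sl (cmb e f g i p.1 p.2) * x + ic (cmb e f g i p.1 p.2) - y) = 0 := by
      unfold box
      rw [if_neg]
      intro hh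
      exact hcon ⟨i, p.1, p.2, x, hx, y, hy, mix_pts_inOm b e f g p i hi, hh⟩
    simp only [hz, sub_zero]
  rw [hJ] at hcs
  generalize conv (fun z => box (1 / (b : ℝ) ^ 380) z - box (1 / (b : ℝ) ^ 1201) z)
    (fun z => box (1 / (b : ℝ) ^ 380) z - box (1 / (b : ℝ) ^ 1201) z) 1 1 = K at hcs hK2
  obtain ⟨T, hT⟩ : ∃ T : (ℤ × ℤ) → ℤ → ℤ → ℝ, ∀ p i j, T p i j = ∫ x in X, ∫ x' in X,
      K (sl (cmb e f g i p.1 p.2) * x + ic (cmb e f g i p.1 p.2) -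
        (sl (cmb e f g j p.1 p.2) * x' + ic (cmb e f g j p.1 p.2))) := ⟨_, fun _ _ _ => rfl⟩
  simp only [← hT] at hcs
  have hfar := mix_far b (by omega) e f g h X hX hX1 K hK2
  simp only [← hT] at hfar
  rw [mix_split b e f g T] at hfar
  have hnear := mix_near b (by omega) e f g h T (fun p i j hj => by
    rw [hT]
    refine le_trans (le_abs_self _) (le_trans (near_bound _ _ _ _ (mix_sl_half _ (by positivity) _
      (mix_pts_inOm b e f g p j hj)) _ _ _ K hK2 X hX hX1) (by norm_num)))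
  have hsum : (∑ p ∈ Pen b e f g, ∑ i ∈ Pts b e f g p, ∑ j ∈ Pts b e f g p, T p i j) ≤
      2 ^ 13 * (b : ℝ) ^ 1580 + 512 * (b : ℝ) ^ 1578 := by
    refine le_trans (le_of_eq ?_) (add_le_add hfar hnear)
    rw [← Finset.sum_add_distrib]
    refine Finset.sum_congr rfl fun p _ => ?_
    rw [← Finset.sum_add_distrib]
    refine Finset.sum_congr rfl fun i _ => ?_
    rw [← Finset.sum_add_distrib]
    refine Finset.sum_congr rfl fun j _ => ?_
    split_ifs <;> simp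
  have h1 : ((b : ℝ) ^ 1194) ^ 2 ≤
      (b : ℝ) ^ 807 * (2 ^ 13 * (b : ℝ) ^ 1580 + 512 * (b : ℝ) ^ 1578) :=
    le_trans (pow_le_pow_left₀ (by positivity) hlow 2) (le_trans hcs
      (le_trans (mul_le_mul_of_nonneg_left hsum (Nat.cast_nonneg _))
        (mul_le_mul_of_nonneg_right (pen_card b (by omega) e f g) (by positivity))))
  have h2 : (b : ℝ) ^ 1578 ≤ (b : ℝ) ^ 1580 := pow_le_pow_right₀ hb1 (by norm_num)
  have h3 : (b : ℝ) ^ 807 * (2 ^ 13 * (b : ℝ) ^ 1580 + 512 * (b : ℝ) ^ 1578) ≤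
      (b : ℝ) ^ 807 * (2 ^ 14 * (b : ℝ) ^ 1580) := by
    refine mul_le_mul_of_nonneg_left ?_ (by positivity)
    have h0 : (0 : ℝ) ≤ (b : ℝ) ^ 1580 := by positivity
    generalize (b : ℝ) ^ 1580 = u at *
    generalize (b : ℝ) ^ 1578 = v at *
    linarith
  have h4 : (b : ℝ) ^ 2387 * b ≤ (b : ℝ) ^ 2387 * 2 ^ 14 := by
    calc _ = ((b : ℝ) ^ 1194) ^ 2 := by ring
      _ ≤ _ := le_trans h1 h3
      _ = _ := by ring
  have h5 := le_of_mul_le_mul_left h4 (by positivity)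
  linarith

end Pool.Agent.Lib.MP_e56372_nt.Dim
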