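import Pool.Agent.Lib.MP_e56372_nt.Dim.Bas
import Pool.Agent.Lib.MP_e56372_nt.Dim.Mix

set_option autoImplicit false
open MeasureTheory Filter Topology Finset

namespace Pool.Agent.Lib.MP_e56372_nt.Dim
open Pool.Agent.Lib.MP_e56372_nt

/-- the union of the cells of length `1/R` with numbers in `X`. -/
def kill_cells (R : ℕ) (X : Finset ℕ) : Set ℝ :=
  ⋃ x ∈ X, Set.Ico ((x : ℝ) / R) (((x : ℝ) + 1) / R)

theorem kill_meas (R : ℕ) (X : Finset ℕ) : MeasurableSet (kill_cells R X) :=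
  Finset.measurableSet_biUnion X fun _ _ => measurableSet_Ico

theorem kill_mem (R : ℕ) (X : Finset ℕ) (z : ℝ) (hz : z ∈ kill_cells R X) :
    ∃ x ∈ X, (x : ℝ) / R ≤ z ∧ z < ((x : ℝ) + 1) / R := by
  simp only [kill_cells, Set.mem_iUnion, Set.mem_Ico] at hz
  obtain ⟨x, hx, h1, h2⟩ := hz
  exact ⟨x, hx, h1, h2⟩

theorem kill_sub (R : ℕ) (hR : 0 < R) (X : Finset ℕ) (hX : X ⊆ range R) :
    kill_cells R X ⊆ Set.Icc 0 1 := by
  intro z hz
  obtain ⟨x, hx, h1, h2⟩ := kill_mem R X z hz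
  have hR' : (0 : ℝ) < R := by exact_mod_cast hR
  have hx' : x + 1 ≤ R := by simpa using hX hx
  have hx'' : (x : ℝ) + 1 ≤ R := by exact_mod_cast hx'
  refine ⟨le_trans (by positivity) h1, le_trans h2.le ?_⟩
  rw [div_le_one hR']
  exact hx''

theorem kill_vol (R : ℕ) (hR : 0 < R) (X : Finset ℕ) :
    volume.real (kill_cells R X) = X.card / R := by
  have hR' : (0 : ℝ) < R := by exact_mod_cast hR
  unfold kill_cells
  rw [measureReal_biUnion_finset ?_ (fun _ _ => measurableSet_Ico)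
    (fun _ _ => measure_Ico_lt_top.ne)]
  · have : ∀ x ∈ X, volume.real (Set.Ico ((x : ℝ) / R) (((x : ℝ) + 1) / R)) = 1 / R := by
      intro x _
      rw [Real.volume_real_Ico_of_le]
      · ring
      · gcongr
        linarith
    rw [Finset.sum_congr rfl this, Finset.sum_const, nsmul_eq_mul]
    ring
  · intro x _ y _ hxy
    simp only [Function.onFun]
    rw [Set.disjoint_left]
    intro z hz1 hz2
    rcases lt_or_gt_of_ne hxy with h | h
    · have h' : (x : ℝ) + 1 ≤ y := by exact_mod_cast h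
      have : ((x : ℝ) + 1) / R ≤ (y : ℝ) / R := by gcongr
      linarith [hz1.2, hz2.1]
    · have h' : (y : ℝ) + 1 ≤ x := by exact_mod_cast h
      have : ((y : ℝ) + 1) / R ≤ (x : ℝ) / R := by gcongr
      linarith [hz2.2, hz1.1]

theorem kill_cmb (ξ ζ : ℝ) (s t a1 b1 r1 a2 b2 r2 a3 b3 r3 i n m : ℤ) :
    cmb (lat ξ ζ s t a1 b1 r1) (lat ξ ζ s t a2 b2 r2) (lat ξ ζ s t a3 b3 r3) i n m =
      lat ξ ζ s t (i * a1 + n * a2 + m * a3) (i * b1 + n * b2 + m * b3)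
        (i * r1 + n * r2 + m * r3) := by
  funext k
  fin_cases k <;> simp [cmb, lat] <;> ring

/-- a point of a cell, rescaled, is within `1/R` of any point of the small cell. -/
theorem kill_near (D l p x : ℕ) (ξ z : ℝ) (h : InCell (D + l) (p * 2 ^ l + x) ξ)
    (h1 : (x : ℝ) / ((2 ^ l : ℕ) : ℝ) ≤ z) (h2 : z < ((x : ℝ) + 1) / ((2 ^ l : ℕ) : ℝ)) :
    |(2 ^ D * ξ - p) - z| ≤ 1 / 2 ^ l := by
  obtain ⟨c1, c2⟩ := h
  push_cast at c1 c2 h1 h2
  have hR : (0 : ℝ) < 2 ^ l := by positivity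
  rw [pow_add] at c1 c2
  rw [div_le_iff₀ hR] at h1
  rw [lt_div_iff₀ hR] at h2
  rw [le_div_iff₀ hR, ← abs_of_pos hR, ← abs_mul, abs_le]
  constructor <;> nlinarith

theorem kill_core (L : ℝ) (hL : 2 ≤ L) (w0 w1 w2 x y x' y' : ℝ) (h0 : -(2 * L ^ 1200) ≤ w0)
    (h0' : w0 ≤ -L ^ 1200) (h1 : L ^ 1200 ≤ w1) (h1' : w1 ≤ 2 * L ^ 1200)
    (h : |-w0 / w1 * x + -w2 / w1 - y| ≤ 1 / L ^ 3603) (hx : |x' - x| ≤ 1 / L ^ 3604)
    (hy : |y' - y| ≤ 1 / L ^ 3604) : |w2 + w0 * x' + w1 * y'| ≤ 4 / L ^ 2403 := by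
  have hL0 : 0 < L := by linarith
  have hU : 0 < L ^ 1200 := by positivity
  have hw1 : 0 < w1 := by linarith
  have e : w2 + w0 * x' + w1 * y' =
      -(w1 * (-w0 / w1 * x + -w2 / w1 - y)) + w0 * (x' - x) + w1 * (y' - y) := by
    field_simp
    ring
  have a0 : |w0| ≤ 2 * L ^ 1200 := by
    rw [abs_le]
    constructor <;> linarith
  have a1 : |w1| ≤ 2 * L ^ 1200 := by
    rw [abs_le]
    constructor <;> linarith
  have t1 : |-(w1 * (-w0 / w1 * x + -w2 / w1 - y))| ≤ 2 * L ^ 1200 * (1 / L ^ 3603) := by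
    rw [abs_neg, abs_mul]
    exact mul_le_mul a1 h (abs_nonneg _) (by positivity)
  have t2 : |w0 * (x' - x)| ≤ 2 * L ^ 1200 * (1 / L ^ 3604) := by
    rw [abs_mul]
    exact mul_le_mul a0 hx (abs_nonneg _) (by positivity)
  have t3 : |w1 * (y' - y)| ≤ 2 * L ^ 1200 * (1 / L ^ 3604) := by
    rw [abs_mul]
    exact mul_le_mul a1 hy (abs_nonneg _) (by positivity)
  have hV : 0 < L ^ 2403 := by positivity
  have e1 : L ^ 3603 = L ^ 1200 * L ^ 2403 := by rw [← pow_add]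
  have e2 : L ^ 3604 = L ^ 1200 * L ^ 2403 * L := by rw [← pow_add, ← pow_succ]
  generalize L ^ 1200 = U at *
  generalize L ^ 2403 = V at *
  have s1 : 2 * U * (1 / L ^ 3603) = 2 / V := by
    rw [e1]
    field_simp
  have s2 : 2 * U * (1 / L ^ 3604) ≤ 1 / V := by
    rw [e2]
    have : 2 * U * (1 / (U * V * L)) = 2 / L * (1 / V) := by field_simp
    rw [this]
    have : 2 / L ≤ 1 := by rw [div_le_one hL0]; exact hL
    exact mul_le_of_le_one_left (by positivity) this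
  have s3 : 4 / V = 2 / V + 1 / V + 1 / V := by ring
  rw [e, s3]
  refine (abs_add_le _ _).trans (add_le_add ((abs_add_le _ _).trans (add_le_add ?_ ?_)) ?_)
  · rw [← s1]; exact t1
  · exact t2.trans s2
  · exact t3.trans s2

theorem kill_abs (a S U : ℝ) (hS : 0 < S) (_hU : 0 < U) (h1 : -(2 * U) ≤ a / S)
    (h2 : a / S ≤ 2 * U) : |a| ≤ 2 * U * S := by
  rw [le_div_iff₀ hS] at h1
  rw [div_le_iff₀ hS] at h2
  rw [abs_le]
  constructor <;> linarith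

theorem kill_sz (a S T U C : ℝ) (hS : 0 < S) (hT : 1 ≤ T) (hU : 1 ≤ U) (hC : 1 ≤ C)
    (h : a ≤ 2 * U * S) : 2 * a ≤ S * T * (U * U) * 4 * C := by
  have h1 : (1 : ℝ) ≤ T * U * C := one_le_mul_of_one_le_of_one_le
    (one_le_mul_of_one_le_of_one_le hT hU) hC
  have h2 : (0 : ℝ) ≤ 4 * U * S := by positivity
  have h3 := mul_le_mul_of_nonneg_left h1 h2
  linarith

theorem kill_fin (S T U C W z : ℝ) (hS : 0 < S) (hT : 0 < T) (hU : 0 < U) (hC : 0 < C)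
    (hc3 : 16 * (C * C) ≤ W) (hlt : 1 / (C * (S * T * (U * U) * 4 * C)) < z)
    (key : S * T * z ≤ 4 / (U * U * W)) : False := by
  have hW : 0 < W := lt_of_lt_of_le (by positivity) hc3
  have hz : 0 < z := lt_trans (by positivity) hlt
  rw [div_lt_iff₀ (by positivity)] at hlt
  rw [le_div_iff₀ (by positivity)] at key
  have hY : 0 < S * T * z * (U * U) := by positivity
  have : S * T * z * (U * U) * (16 * (C * C)) ≤ S * T * z * (U * U) * W :=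
    mul_le_mul_of_nonneg_left hc3 hY.le
  linarith

theorem kill (lam c0 s t p q : ℕ) (hlam : 10 ≤ lam) (hc : 2 * c0 + 4 ≤ 3 * lam)
    (hst : 2 * lam + 7 ≤ s + t)
    (hgood : ¬ Short ((p : ℝ) / 2 ^ (2 * s + t)) ((q : ℝ) / 2 ^ (s + 2 * t)) s t lam)
    (X F : Finset ℕ) (hX : X ⊆ range (2 ^ (3604 * lam))) (hF : F ⊆ range (2 ^ (3604 * lam)))
    (hXc : 2 ^ (3601 * lam) < X.card) (hFc : 2 ^ (3601 * lam) < F.card) :
    ∃ x ∈ X, ∃ y ∈ F, ∀ ξ ζ : ℝ,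
      InCell (2 * s + t + 3604 * lam) (p * 2 ^ (3604 * lam) + x) ξ →
      InCell (s + 2 * t + 3604 * lam) (q * 2 ^ (3604 * lam) + y) ζ →
      ¬ DualGood c0 (s + t + 2400 * lam + 2 + c0) ξ ζ := by
  obtain ⟨a1, b1, r1, a2, b2, r2, a3, b3, r3, hfr⟩ := frame_of_not_short _ _ s t lam hlam hst hgood
  have hb : 2 ^ 30 ≤ 8 ^ lam :=
    le_trans (by norm_num : 2 ^ 30 ≤ 8 ^ 10) (Nat.pow_le_pow_right (by norm_num) hlam)
  have hR : 0 < 2 ^ (3604 * lam) := by positivity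
  obtain ⟨L, hLd⟩ : ∃ L : ℝ, L = 2 ^ lam := ⟨_, rfl⟩
  have hL : 2 ≤ L := by
    rw [hLd]
    calc (2 : ℝ) = 2 ^ 1 := by norm_num
      _ ≤ 2 ^ lam := pow_le_pow_right₀ (by norm_num) (by omega)
  have hL0 : 0 < L := by linarith
  have hp : ∀ k : ℕ, (2 : ℝ) ^ (k * lam) = L ^ k := fun k => by rw [hLd, mul_comm, pow_mul]
  have hbL : ((8 ^ lam : ℕ) : ℝ) = L ^ 3 := by
    rw [← hp 3, pow_mul]
    push_cast
    norm_num
  have hvol : ∀ Y : Finset ℕ, 2 ^ (3601 * lam) < Y.card →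
      1 / ((8 ^ lam : ℕ) : ℝ) ≤ volume.real (kill_cells (2 ^ (3604 * lam)) Y) := by
    intro Y hY
    rw [kill_vol _ hR, hbL]
    have h1 : ((2 ^ (3601 * lam) : ℕ) : ℝ) ≤ Y.card := by exact_mod_cast hY.le
    push_cast at h1 ⊢
    rw [hp] at h1 ⊢
    have e : L ^ 3604 = L ^ 3601 * L ^ 3 := by rw [← pow_add]
    have hV : 0 < L ^ 3601 := by positivity
    rw [e, div_le_div_iff₀ (by positivity) (by positivity), one_mul]
    exact mul_le_mul_of_nonneg_right h1 (by positivity)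
  obtain ⟨i, n, m, x', hx', y', hy', hOm, hinc⟩ := mix (8 ^ lam) hb _ _ _
    (by push_cast; exact hfr) (kill_cells (2 ^ (3604 * lam)) X) (kill_cells (2 ^ (3604 * lam)) F)
    (kill_meas _ _) (kill_meas _ _) (kill_sub _ hR _ hX) (kill_sub _ hR _ hF) (hvol X hXc)
    (hvol F hFc)
  obtain ⟨x, hx, hx1, hx2⟩ := kill_mem _ _ _ hx'
  obtain ⟨y, hy, hy1, hy2⟩ := kill_mem _ _ _ hy'
  refine ⟨x, hx, y, hy, fun ξ ζ hξ hζ hD => ?_⟩
  have n1 := kill_near _ _ _ _ ξ x' hξ hx1 hx2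
  have n2 := kill_near _ _ _ _ ζ y' hζ hy1 hy2
  rw [kill_cmb] at hOm hinc
  generalize i * a1 + n * a2 + m * a3 = a at hOm hinc
  generalize i * b1 + n * b2 + m * b3 = b at hOm hinc
  generalize i * r1 + n * r2 + m * r3 = r at hOm hinc
  rw [hbL, ← pow_mul] at hOm hinc
  rw [hp] at n1 n2
  obtain ⟨o1, o2, o3, o4, -⟩ := hOm
  simp only [sl, ic, lat, zpow_natCast, Matrix.cons_val_zero, Matrix.cons_val_one,
    Matrix.cons_val, ← Nat.cast_add, Nat.reduceMul] at o1 o2 o3 o4 hinc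
  have key := kill_core L hL _ _ _ _ _ _ _ o1 o2 o3 o4 hinc n1 n2
  have hs : (0 : ℝ) < 2 ^ s := by positivity
  have ht : (0 : ℝ) < 2 ^ t := by positivity
  have hs1 : (1 : ℝ) ≤ 2 ^ s := one_le_pow₀ (by norm_num)
  have ht1 : (1 : ℝ) ≤ 2 ^ t := one_le_pow₀ (by norm_num)
  have hc0 : (1 : ℝ) ≤ 2 ^ c0 := one_le_pow₀ (by norm_num)
  have e : (2 : ℝ) ^ (s + t) * ((a : ℝ) * ((p : ℝ) / 2 ^ (2 * s + t)) +
      (b : ℝ) * ((q : ℝ) / 2 ^ (s + 2 * t)) + (r : ℝ)) +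
      (a : ℝ) / 2 ^ s * (2 ^ (2 * s + t) * ξ - p) + (b : ℝ) / 2 ^ t * (2 ^ (s + 2 * t) * ζ - q) =
      2 ^ s * 2 ^ t * (a * ξ + b * ζ + r) := by
    simp only [two_mul, pow_add]
    field_simp
    ring
  rw [e, abs_mul, abs_of_pos (mul_pos hs ht)] at key
  have hU1 : (1 : ℝ) ≤ L ^ 1200 := one_le_pow₀ (by linarith)
  have hT : (2 : ℝ) ^ (s + t + 2400 * lam + 2 + c0) =
      2 ^ s * 2 ^ t * (L ^ 1200 * L ^ 1200) * 4 * 2 ^ c0 := by
    rw [pow_add, pow_add, pow_add, pow_add, hp, ← pow_add L]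
    norm_num
  have e3 : L ^ 2403 = L ^ 1200 * L ^ 1200 * L ^ 3 := by rw [← pow_add, ← pow_add]
  have hc3 : 16 * ((2 : ℝ) ^ c0 * 2 ^ c0) ≤ L ^ 3 := by
    rw [← hp 3]
    calc 16 * ((2 : ℝ) ^ c0 * 2 ^ c0) = 2 ^ (2 * c0 + 4) := by rw [two_mul, pow_add, pow_add]; ring
      _ ≤ _ := pow_le_pow_right₀ (by norm_num) hc
  rw [e3] at key
  have ha := kill_abs _ _ _ hs (by linarith) o1 (o2.trans (by linarith))
  have hbb := kill_abs _ _ _ ht (by linarith) (le_trans (by linarith) o3) o4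
  have hb0 : b ≠ 0 := by
    rintro rfl
    rw [Int.cast_zero, zero_div] at o3
    linarith
  have hlt := hD a b r (Or.inr hb0) ?_ ?_ ?_
  · rw [hT] at hlt
    exact kill_fin _ _ _ _ _ _ hs ht (by linarith) (by linarith) hc3 hlt key
  · rw [hT, abs_mul, mul_div_assoc, div_self (by positivity), mul_one]
    calc |(a : ℝ)| * |(b : ℝ)| ≤ 2 * L ^ 1200 * 2 ^ s * (2 * L ^ 1200 * 2 ^ t) :=
          mul_le_mul ha hbb (abs_nonneg _) (by positivity)
      _ = _ := by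
        generalize L ^ 1200 = U
        ring
  · rw [hT]
    exact kill_sz _ _ _ _ _ hs ht1 hU1 hc0 ha
  · rw [hT, mul_comm ((2 : ℝ) ^ s)]
    exact kill_sz _ _ _ _ _ ht hs1 hU1 hc0 hbb

end Pool.Agent.Lib.MP_e56372_nt.Dim
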