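import Pool.Agent.Lib.MP_e56372_nt.Dim.Defs
import Pool.Agent.Lib.MP_e56372_nt.Dim.Kill
import Pool.Agent.Lib.MP_e56372_nt.Dim.GameC
import Pool.Agent.Lib.MP_e56372_nt.Dim.Peak
import Pool.Agent.Lib.MP_e56372_nt.Dim.BadC

set_option autoImplicit false
open MeasureTheory Filter Topology Finset

namespace Pool.Agent.Lib.MP_e56372_nt.Dim
open Pool.Agent.Lib.MP_e56372_nt

theorem count_fib {α β : Type} (A : Finset α) (S : Finset β) (R : α → β → Prop) (b : ℝ)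
    (h : ∀ a ∈ A, ∃ s ∈ S, R a s)
    (hb : ∀ s ∈ S, ∀ B : Finset α, B ⊆ A → (∀ a ∈ B, R a s) → (B.card : ℝ) ≤ b) :
    (A.card : ℝ) ≤ S.card * b := by
  classical
  have h1 : A ⊆ S.biUnion fun s => A.filter fun a => R a s := by
    intro a ha
    obtain ⟨s, hs, hr⟩ := h a ha
    exact mem_biUnion.2 ⟨s, hs, mem_filter.2 ⟨ha, hr⟩⟩
  have h2 : (A.card : ℝ) ≤ ∑ s ∈ S, ((A.filter fun a => R a s).card : ℝ) := by
    exact_mod_cast (card_le_card h1).trans card_biUnion_le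
  refine h2.trans ?_
  have := sum_le_card_nsmul S (fun s => ((A.filter fun a => R a s).card : ℝ)) b fun s hs =>
    hb s hs _ (filter_subset _ _) fun a ha => (mem_filter.1 ha).2
  simpa [nsmul_eq_mul] using this

/-- the count for one pattern of good levels. -/
theorem count_pat (lam c0 n N G J : ℕ) (ε : ℝ) (hlam : 10 ≤ lam) (hc0 : 2 * c0 + 4 ≤ 3 * lam)
    (hN : 2 * 2 ^ (3604 * lam) ≤ N) (hP : 1000 * (N * G) ≤ n) (hG : 3604 * lam + c0 + 10 ≤ G)
    (hJ : 10 * (J * (3604 * lam)) ≤ n) (hε : 1 / (4 : ℝ) ^ lam ≤ ε)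
    (hbad : ∀ (n l J m Hm s0 t0 : ℕ) (ζ : ℝ), 120 * (lam - 2) ≤ l → J * l + 6 * Hm + 6 ≤ s0 →
      2 * s0 + t0 + 12 * Hm ≤ n → 15 * Hm + 6 ≤ t0 →
      ∀ A : Finset ℕ, (∀ u ∈ A, u < 2 ^ n ∧
        (∀ s t : ℤ, 0 ≤ s → 0 ≤ t → |s + t - (s0 + t0)| ≤ 12 * Hm + 12 →
          ¬ Short ((u : ℝ) / 2 ^ n) ζ s t Hm) ∧
        ∃ T : Finset ℕ, m ≤ T.card ∧ ∀ j ∈ T, j < J ∧
          Short ((u : ℝ) / 2 ^ n) ζ ((s0 : ℤ) - j * l) ((t0 : ℤ) + j * l) ((lam - 2 : ℕ) : ℤ)) →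
      (A.card : ℝ) ≤ (2 * (1 + ε)) ^ n / (6 / 5 : ℝ) ^ ((lam - 2) * m / 2))
    (T : ℕ → ℕ)
    (hT : ∀ k < N, 41 * n / 100 + 2 * (k * G) ≤ T k ∧ T k ≤ 41 * n / 100 + 2 * (k * G) + G)
    (A : Finset (ℕ × ℕ))
    (hA : ∀ p ∈ A, p.1 < 2 ^ n ∧ p.2 < 2 ^ n ∧ DenseLv c0 G n (p.1 / 2 ^ n) (p.2 / 2 ^ n) ∧
      ∀ k < N, DualGood c0 (T k) (p.1 / 2 ^ n) (p.2 / 2 ^ n)) :
    (A.card : ℝ) ≤ (2 * N + 1) * 2 ^ n *
      ((2 * (1 + ε)) ^ n / (6 / 5 : ℝ) ^ ((lam - 2) * (J / 8) / 2)) := by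
  classical
  have ε0 : 0 ≤ ε := le_trans (by positivity) hε
  have N1 : 1 ≤ N := le_trans (Nat.one_le_iff_ne_zero.2 (by positivity)) hN
  have kG : ∀ k < N, k * G + G ≤ N * G := fun k hk => by
    rw [← Nat.succ_mul]; exact Nat.mul_le_mul_right _ hk
  have jl : ∀ j < J, j * (3604 * lam) + 3604 * lam ≤ J * (3604 * lam) := fun j hj => by
    rw [← Nat.succ_mul]; exact Nat.mul_le_mul_right _ hj
  have GP : G ≤ N * G := Nat.le_mul_of_pos_left _ N1
  obtain ⟨σ, hσ⟩ : ∃ σ : ℕ → ℕ, ∀ k < N, σ k + (2400 * lam + 2 + c0) = T k :=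
    ⟨fun k => T k - (2400 * lam + 2 + c0), fun k hk => by have := hT k hk; simp only; omega⟩
  obtain ⟨c, hc⟩ : ∃ c, c = 6 * n / 10 := ⟨_, rfl⟩
  let Good : ℕ → ℕ → ℕ → ℕ → Prop := fun k j p q =>
    ¬ Short ((p : ℝ) / 2 ^ (3 * σ k - (c + j * (3604 * lam)))) ((q : ℝ) / 2 ^ (c + j * (3604 * lam)))
      ((2 * σ k - (c + j * (3604 * lam)) : ℕ) : ℤ) ((c + j * (3604 * lam) - σ k : ℕ) : ℤ) lam
  let OK : ℕ → ℕ → ℕ → ℕ → Prop := fun k j P Q => ∃ ξ ζ : ℝ,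
    InCell (3 * σ k - (c + j * (3604 * lam)) + 3604 * lam) P ξ ∧
    InCell (c + j * (3604 * lam) + 3604 * lam) Q ζ ∧ DualGood c0 (T k) ξ ζ
  let Φ : ℕ × ℕ → Prop := fun w => ∀ k < N, ∀ S : Finset ℕ, (∀ j ∈ S, j < J ∧
    ¬ Good k j (pre n (3 * σ k - (c + j * (3604 * lam))) w.1) (pre n (c + j * (3604 * lam)) w.2)) →
      8 * S.card < J
  have h1 : ((A.filter Φ).card : ℝ) ≤
      (N + 1) * 2 ^ n * ((2 * (1 + ε)) ^ n / ((2 : ℝ) ^ lam) ^ (J / 8)) := by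
    refine game_count n (3604 * lam) J N c (2 ^ (3601 * lam)) (fun k => 3 * σ k) OK Good
      (by omega) hN ?_ ?_ ?_ (by omega) ?_ (2 ^ lam) ε (one_le_pow₀ (by norm_num)) ?_ _ ?_
    · intro k k' h h'
      have a1 := hT k (by omega)
      have a2 := hT k' h'
      have a3 := hσ k (by omega)
      have a4 := hσ k' h'
      have a5 : k * G + G ≤ k' * G := by
        rw [← Nat.succ_mul]; exact Nat.mul_le_mul_right _ h
      omega
    · intro k hk
      have a1 := hT k hk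
      have a3 := hσ k hk
      omega
    · intro k hk
      have a1 := hT k hk
      have a3 := hσ k hk
      have a4 := kG k hk
      omega
    · intro k hk j hj p q hg X F hX hF hXc hFc
      have a1 := hT k hk
      have a3 := hσ k hk
      have a4 := kG k hk
      have a5 := jl j hj
      obtain ⟨s, hs⟩ : ∃ s, s = 2 * σ k - (c + j * (3604 * lam)) := ⟨_, rfl⟩
      obtain ⟨t, ht⟩ : ∃ t, t = c + j * (3604 * lam) - σ k := ⟨_, rfl⟩
      have e1 : 2 * s + t = 3 * σ k - (c + j * (3604 * lam)) := by omega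
      have e2 : s + 2 * t = c + j * (3604 * lam) := by omega
      have e3 : s + t + 2400 * lam + 2 + c0 = T k := by omega
      obtain ⟨x, hx, y, hy, H⟩ := kill lam c0 s t p q hlam hc0 (by omega)
        (by rw [e1, e2, hs, ht]; exact hg) X F hX hF hXc hFc
      rw [e1, e2, e3] at H
      exact ⟨x, hx, y, hy, fun ⟨ξ, ζ, b1, b2, b3⟩ => H ξ ζ b1 b2 b3⟩
    · refine le_trans (le_of_eq ?_) hε
      have : (2 : ℝ) ^ (3604 * lam) = 2 ^ (3601 * lam) * 2 ^ lam * 4 ^ lam := by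
        rw [show (4 : ℝ) = 2 ^ 2 by norm_num, ← pow_mul, ← pow_add, ← pow_add]
        congr 1; ring
      rw [this, Nat.cast_pow, Nat.cast_ofNat]
      field_simp
    · intro w hw
      obtain ⟨hw1, hw2⟩ := mem_filter.1 hw
      obtain ⟨b1, b2, -, b4⟩ := hA w hw1
      refine ⟨b1, b2, fun k hk j hj => ?_, hw2⟩
      have a1 := hT k hk
      have a3 := hσ k hk
      have a4 := kG k hk
      have a5 := jl j hj
      exact ⟨_, _, inCell_pre n _ w.1 (by omega), inCell_pre n _ w.2 (by omega), b4 k hk⟩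
  have h2 : ((A.filter fun w => ¬ Φ w).card : ℝ) ≤ ((range N ×ˢ range (2 ^ n)).card : ℝ) *
      ((2 * (1 + ε)) ^ n / (6 / 5 : ℝ) ^ ((lam - 2) * (J / 8) / 2)) := by
    refine count_fib _ _ (fun w s => w.2 = s.2 ∧ ∃ S : Finset ℕ, (∀ j ∈ S, j < J ∧
      ¬ Good s.1 j (pre n (3 * σ s.1 - (c + j * (3604 * lam))) w.1)
        (pre n (c + j * (3604 * lam)) w.2)) ∧ J ≤ 8 * S.card) _ ?_ ?_
    · intro w hw
      obtain ⟨hw1, hw2⟩ := mem_filter.1 hw
      simp only [Φ, not_forall, not_lt] at hw2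
      obtain ⟨k, hk, S, hS, hS2⟩ := hw2
      exact ⟨(k, w.2), mem_product.2 ⟨mem_range.2 hk, mem_range.2 (hA w hw1).2.1⟩, rfl, S, hS, hS2⟩
    · rintro ⟨k, v⟩ hs B hB hR
      have hk : k < N := mem_range.1 (mem_product.1 hs).1
      have a1 := hT k hk
      have a3 := hσ k hk
      have a4 := kG k hk
      have hinj : (B.image Prod.fst).card = B.card := card_image_of_injOn fun x hx y hy h =>
        Prod.ext h ((hR x hx).1.trans (hR y hy).1.symm)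
      rw [← hinj]
      refine hbad n (3604 * lam) J (J / 8) (G + c0 + 1) (2 * σ k - c) (c - σ k) ((v : ℝ) / 2 ^ n)
        (by omega) (by omega) (by omega) (by omega) _ ?_
      intro u hu
      obtain ⟨w, hw, rfl⟩ := mem_image.1 hu
      obtain ⟨r1, S, hS, hS2⟩ := hR w hw
      obtain ⟨b1, b2, b3, -⟩ := hA w (mem_filter.1 (hB hw)).1
      simp only at r1
      subst r1
      refine ⟨b1, fun s t s0 t0 h => ?_, S, by omega, fun j hj => ⟨(hS j hj).1, ?_⟩⟩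
      · rw [abs_le] at h
        have := not_short_of_dense c0 G n _ _ b3 s t s0 t0 (by omega) (by omega)
        exact_mod_cast this
      · have a5 := jl j (hS j hj).1
        have hsh := not_not.1 (hS j hj).2
        simp only at hsh
        obtain ⟨s, hs⟩ : ∃ s, s = 2 * σ k - (c + j * (3604 * lam)) := ⟨_, rfl⟩
        obtain ⟨t, ht⟩ : ∃ t, t = c + j * (3604 * lam) - σ k := ⟨_, rfl⟩
        have e1 : 2 * s + t = 3 * σ k - (c + j * (3604 * lam)) := by omega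
        have e2 : s + 2 * t = c + j * (3604 * lam) := by omega
        rw [← hs, ← ht, ← e1, ← e2] at hsh
        have := short_of_trunc _ _ s t _ _ lam (inCell_pre n _ w.1 (by omega))
          (inCell_pre n _ w.2 (by omega)) hsh
        have f0 : ((j * (3604 * lam) : ℕ) : ℤ) = (j : ℤ) * ((3604 * lam : ℕ) : ℤ) := Nat.cast_mul _ _
        have f1 : ((2 * σ k - c : ℕ) : ℤ) - j * ((3604 * lam : ℕ) : ℤ) = s := by
          rw [← f0]; omega
        have f2 : ((c - σ k : ℕ) : ℤ) + j * ((3604 * lam : ℕ) : ℤ) = t := by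
          rw [← f0]; omega
        have f3 : ((lam - 2 : ℕ) : ℤ) = (lam : ℤ) - 2 := by omega
        rw [f1, f2, f3]
        exact this
  have h3 : (6 / 5 : ℝ) ^ ((lam - 2) * (J / 8) / 2) ≤ ((2 : ℝ) ^ lam) ^ (J / 8) := by
    rw [← pow_mul]
    refine (pow_le_pow_left₀ (by norm_num) (show (6 / 5 : ℝ) ≤ 2 by norm_num) _).trans
      (pow_le_pow_right₀ (by norm_num) ((Nat.div_le_self _ _).trans ?_))
    exact Nat.mul_le_mul_right _ (Nat.sub_le _ _)
  have h4 : (2 * (1 + ε)) ^ n / ((2 : ℝ) ^ lam) ^ (J / 8) ≤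
      (2 * (1 + ε)) ^ n / (6 / 5 : ℝ) ^ ((lam - 2) * (J / 8) / 2) :=
    div_le_div_of_nonneg_left (by positivity) (by positivity) h3
  have h5 : (A.card : ℝ) = (A.filter Φ).card + (A.filter fun w => ¬ Φ w).card := by
    exact_mod_cast (card_filter_add_card_filter_not (s := A) Φ).symm
  rw [card_product, card_range, card_range, Nat.cast_mul, Nat.cast_pow, Nat.cast_ofNat] at h2
  have h6 := mul_le_mul_of_nonneg_left h4 (show (0 : ℝ) ≤ (N + 1) * 2 ^ n by positivity)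
  rw [h5]
  linarith

theorem count : ∃ θ : ℝ, 1 ≤ θ ∧ θ < 4 ∧ ∀ c0 : ℕ, ∃ M : ℕ, 0 < M ∧ ∀ᶠ n : ℕ in atTop,
    ∀ A : Finset (ℕ × ℕ), (∀ p ∈ A, p.1 < 2 ^ n ∧ p.2 < 2 ^ n ∧
      DenseLv c0 (n / M) n (p.1 / 2 ^ n) (p.2 / 2 ^ n)) → (A.card : ℝ) ≤ θ ^ n := by
  classical
  obtain ⟨K, hK⟩ : ∃ K : ℕ, K = 1153280 := ⟨_, rfl⟩
  obtain ⟨r, r1, hr⟩ : ∃ r : ℝ, 1 < r ∧ r ^ (3 * K) = 6 / 5 :=
    ⟨(6 / 5 : ℝ) ^ (((3 * K : ℕ) : ℝ)⁻¹),
      Real.one_lt_rpow (by norm_num) (inv_pos.2 (Nat.cast_pos.2 (by omega))),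
      Real.rpow_inv_natCast_pow (by norm_num) (by omega)⟩
  have r0 : 0 < r := by linarith
  have r2 : r ≤ 6 / 5 := hr ▸ le_self_pow₀ r1.le (by omega)
  refine ⟨4 / r, by rw [le_div_iff₀ r0]; linarith, by rw [div_lt_iff₀ r0]; linarith, fun c0 => ?_⟩
  obtain ⟨x1, hbad⟩ := bad_count (r - 1) (by linarith)
  obtain ⟨l0, hl0⟩ := exists_pow_lt_of_lt_one (show 0 < r - 1 by linarith)
    (show (1 / 4 : ℝ) < 1 by norm_num)
  obtain ⟨lam, hlam⟩ : ∃ lam, lam = 10 + c0 + x1 + l0 := ⟨_, rfl⟩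
  have hε : 1 / (4 : ℝ) ^ lam ≤ r - 1 := by
    rw [← one_div_pow]
    exact (pow_le_pow_of_le_one (by norm_num) (by norm_num) (by omega)).trans hl0.le
  obtain ⟨N, hN⟩ : ∃ N, N = 2 * 2 ^ (3604 * lam) := ⟨_, rfl⟩
  have N0 : 0 < N := by rw [hN]; positivity
  refine ⟨1000 * N, by omega, ?_⟩
  obtain ⟨D, hD⟩ : ∃ D, D = 80 * (3604 * lam) + K := ⟨_, rfl⟩
  have lim := ((tendsto_pow_const_div_const_pow_of_one_lt N r1).comp
    (tendsto_add_atTop_nat 1)).eventually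
      (gt_mem_nhds (show (0 : ℝ) < 1 / ((2 * N + 1) * r ^ (3 * D) * r) by positivity))
  filter_upwards [lim, eventually_ge_atTop ((3604 * lam + c0 + 10) * (1000 * N))] with n h1 h2 A hA
  obtain ⟨G, hG⟩ : ∃ G, G = n / (1000 * N) := ⟨_, rfl⟩
  obtain ⟨J, hJ⟩ : ∃ J, J = n / (10 * (3604 * lam)) := ⟨_, rfl⟩
  rw [← hG] at hA
  have g1 : 3604 * lam + c0 + 10 ≤ G := by
    rw [hG]; exact (Nat.le_div_iff_mul_le (by omega)).2 h2
  have g2 : 1000 * (N * G) ≤ n := by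
    rw [hG, ← mul_assoc]; exact Nat.mul_div_le _ _
  have g3 : 10 * (J * (3604 * lam)) ≤ n := by
    have := Nat.mul_div_le n (10 * (3604 * lam))
    rw [← hJ] at this
    calc _ = 10 * (3604 * lam) * J := by ring
      _ ≤ n := this
  have GP : G ≤ N * G := Nat.le_mul_of_pos_left _ N0
  have kG : ∀ k < N, k * G + G ≤ N * G := fun k hk => by
    rw [← Nat.succ_mul]; exact Nat.mul_le_mul_right _ hk
  obtain ⟨e, he⟩ : ∃ e, e = (lam - 2) * (J / 8) / 2 := ⟨_, rfl⟩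
  have key : (A.card : ℝ) ≤ ((Fintype.piFinset fun _ : Fin N => range (n + 1)).card : ℝ) *
      ((2 * N + 1) * 2 ^ n * ((2 * (1 + (r - 1))) ^ n / (6 / 5 : ℝ) ^ e)) := by
    refine count_fib _ _ (fun p τ => ∀ k : Fin N, (41 * n / 100 + 2 * (k * G) ≤ τ k ∧
      τ k ≤ 41 * n / 100 + 2 * (k * G) + G) ∧ DualGood c0 (τ k) (p.1 / 2 ^ n) (p.2 / 2 ^ n)) _ ?_ ?_
    · intro p hp
      have : ∀ k : Fin N, ∃ T' : ℕ, T' ≤ 41 * n / 100 + 2 * (k * G) + G ∧
          41 * n / 100 + 2 * (k * G) + G ≤ T' + G ∧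
          DualGood c0 T' (p.1 / 2 ^ n) (p.2 / 2 ^ n) := fun k => by
        have := kG k k.2
        exact (hA p hp).2.2 _ (by omega) (by omega)
      choose τ t1 t2 t3 using this
      refine ⟨τ, Fintype.mem_piFinset.2 fun k => mem_range.2 ?_, fun k => ⟨⟨?_, t1 k⟩, t3 k⟩⟩
      · have := kG k k.2
        have := t1 k
        omega
      · have := t2 k
        omega
    · intro τ _ B hB hR
      rcases B.eq_empty_or_nonempty with rfl | ⟨p0, hp0⟩
      · rw [card_empty, Nat.cast_zero]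
        have : 0 < 1 + (r - 1) := by linarith
        positivity
      rw [he]
      refine count_pat lam c0 n N G J (r - 1) (by omega) (by omega) hN.ge g2 g1 g3 hε
        (hbad (lam - 2) (by omega)) (fun k => if h : k < N then τ ⟨k, h⟩ else 0) ?_ B ?_
      · intro k hk
        simp only [hk, dif_pos]
        exact (hR p0 hp0 ⟨k, hk⟩).1
      · intro p hp
        obtain ⟨b1, b2, b3⟩ := hA p (hB hp)
        refine ⟨b1, b2, b3, fun k hk => ?_⟩
        simp only [hk, dif_pos]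
        exact (hR p hp ⟨k, hk⟩).2
  have hn : n ≤ K * e + D := by
    have i1 : n < 10 * (3604 * lam) * (J + 1) := by
      rw [hJ]; exact Nat.lt_mul_div_succ _ (by omega)
    have i2 : J + 1 ≤ 8 * (J / 8 + 1) := by omega
    have i3 := Nat.mul_le_mul_left (10 * (3604 * lam)) i2
    have i4 : lam * (J / 8) ≤ 2 * (lam - 2) * (J / 8) := Nat.mul_le_mul_right _ (by omega)
    have i5 : 10 * (3604 * lam) * (8 * (J / 8 + 1)) = 288320 * (lam * (J / 8)) + 288320 * lam := by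
      ring
    rw [mul_assoc] at i4
    subst hK
    omega
  have p1 : r ^ (3 * n) ≤ (6 / 5 : ℝ) ^ e * r ^ (3 * D) := by
    rw [← hr, ← pow_mul, ← pow_add]
    refine pow_le_pow_right₀ r1.le ?_
    rw [mul_assoc]; omega
  have p2 : ((n : ℝ) + 1) ^ N * ((2 * N + 1) * r ^ (3 * D)) ≤ r ^ n := by
    simp only [Function.comp] at h1
    rw [div_lt_div_iff₀ (by positivity) (by positivity), Nat.cast_succ, one_mul, pow_succ r n,
      ← mul_assoc] at h1
    exact (lt_of_mul_lt_mul_right h1 r0.le).le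
  rw [Fintype.card_piFinset, prod_const, card_range, card_univ, Fintype.card_fin, Nat.cast_pow,
    Nat.cast_succ, show 1 + (r - 1) = r by ring] at key
  refine key.trans ?_
  have p3 : ((n : ℝ) + 1) ^ N * (2 * N + 1) * (r ^ n * r ^ n) ≤ (6 / 5 : ℝ) ^ e := by
    refine le_of_mul_le_mul_right ?_ (show 0 < r ^ (3 * D) by positivity)
    refine le_trans ?_ p1
    have := mul_le_mul_of_nonneg_right p2 (show 0 ≤ r ^ n * r ^ n by positivity)
    calc _ = ((n : ℝ) + 1) ^ N * ((2 * N + 1) * r ^ (3 * D)) * (r ^ n * r ^ n) := by ring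
      _ ≤ r ^ n * (r ^ n * r ^ n) := this
      _ = r ^ (3 * n) := by ring
  rw [div_pow 4 r, mul_pow, show (4 : ℝ) ^ n = 2 ^ n * 2 ^ n by rw [← mul_pow]; norm_num,
    le_div_iff₀ (by positivity)]
  have q0 : (0 : ℝ) < (6 / 5) ^ e := by positivity
  calc _ = 2 ^ n * 2 ^ n * ((((n : ℝ) + 1) ^ N * (2 * N + 1) * (r ^ n * r ^ n)) / (6 / 5) ^ e) := by
        ring
    _ ≤ 2 ^ n * 2 ^ n * 1 :=
        mul_le_mul_of_nonneg_left ((div_le_one q0).2 p3) (by positivity)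
    _ = _ := mul_one _

end Pool.Agent.Lib.MP_e56372_nt.Dim
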