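import Pool.Agent.Lib.MP_e56372_nt.Dim.Count

set_option autoImplicit false
open MeasureTheory Filter Topology Finset

namespace Pool.Agent.Lib.MP_e56372_nt.Dim
open Pool.Agent.Lib.MP_e56372_nt

/-- the growth estimate that replaces the limit in `count`. -/
theorem count2_grow (r : ℝ) (r1 : 1 < r) (r2 : r ≤ 2) (n V N E : ℕ) (hV : V * V ≤ n)
    (hE : N + 2 + E ≤ V) (hN : 2 * N + 1 ≤ V)
    (hy : ((Nat.sqrt n : ℝ) + 1) ^ 2 ≤ r ^ Nat.sqrt n) :
    ((n : ℝ) + 1) ^ N * ((2 * N + 1) * r ^ E) * (n + 1) ≤ r ^ n := by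
  have r0 : 0 < r := by linarith
  have V1 : 1 ≤ V := by omega
  have Vn : V ≤ n := le_trans (Nat.le_mul_of_pos_left _ V1) hV
  have n1 : (1 : ℝ) ≤ n := by exact_mod_cast V1.trans Vn
  have a1 : (2 * N + 1 : ℝ) ≤ n + 1 := by
    have : 2 * N + 1 ≤ n + 1 := by omega
    exact_mod_cast this
  have a2 : r ^ E ≤ ((n : ℝ) + 1) ^ E := pow_le_pow_left₀ r0.le (by linarith) _
  have a3 : V ≤ Nat.sqrt n := Nat.le_sqrt.2 hV
  have a4 : (n : ℝ) + 1 ≤ r ^ Nat.sqrt n := by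
    refine le_trans ?_ hy
    have : n + 1 ≤ (Nat.sqrt n + 1) ^ 2 := Nat.lt_succ_sqrt' n
    exact_mod_cast this
  calc ((n : ℝ) + 1) ^ N * ((2 * N + 1) * r ^ E) * (n + 1)
      ≤ ((n : ℝ) + 1) ^ N * ((n + 1) * ((n : ℝ) + 1) ^ E) * (n + 1) := by
        refine mul_le_mul_of_nonneg_right (mul_le_mul_of_nonneg_left
          (mul_le_mul a1 a2 (by positivity) (by positivity)) (by positivity)) (by positivity)
    _ = ((n : ℝ) + 1) ^ (N + 2 + E) := by ring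
    _ ≤ ((n : ℝ) + 1) ^ Nat.sqrt n := pow_le_pow_right₀ (by linarith) (hE.trans a3)
    _ ≤ (r ^ Nat.sqrt n) ^ Nat.sqrt n := pow_le_pow_left₀ (by positivity) a4 _
    _ = r ^ (Nat.sqrt n * Nat.sqrt n) := by rw [← pow_mul]
    _ ≤ r ^ n := pow_le_pow_right₀ r1.le (Nat.sqrt_le n)

theorem count2_mono {c0 G G' n : ℕ} {ξ ζ : ℝ} (h : G ≤ G') (H : DenseLv c0 G n ξ ζ) :
    DenseLv c0 G' n ξ ζ := fun T h1 h2 => by
  obtain ⟨T', b1, b2, b3⟩ := H T h1 h2
  exact ⟨T', b1, by omega, b3⟩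

theorem count2 : ∃ θ : ℝ, 1 ≤ θ ∧ θ < 4 ∧ ∃ K : ℕ, 7 ≤ K ∧ ∀ᶠ n : ℕ in atTop,
    ∀ A : Finset (ℕ × ℕ), (∀ p ∈ A, p.1 < 2 ^ n ∧ p.2 < 2 ^ n ∧ ∃ c0 : ℕ, 2 ^ (K * (c0 + 1)) ≤ n ∧
      DenseLv c0 (n / 2 ^ (K * (c0 + 1))) n (p.1 / 2 ^ n) (p.2 / 2 ^ n)) →
      (A.card : ℝ) ≤ θ ^ n := by
  classical
  obtain ⟨K, hK⟩ : ∃ K : ℕ, K = 1153280 := ⟨_, rfl⟩
  obtain ⟨r, r1, hr⟩ : ∃ r : ℝ, 1 < r ∧ r ^ (3 * K) = 6 / 5 :=
    ⟨(6 / 5 : ℝ) ^ (((3 * K : ℕ) : ℝ)⁻¹),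
      Real.one_lt_rpow (by norm_num) (inv_pos.2 (Nat.cast_pos.2 (by omega))),
      Real.rpow_inv_natCast_pow (by norm_num) (by omega)⟩
  have r0 : 0 < r := by linarith
  have r2 : r ≤ 6 / 5 := hr ▸ le_self_pow₀ r1.le (by omega)
  refine ⟨4 / r, by rw [le_div_iff₀ r0]; linarith, by rw [div_lt_iff₀ r0]; linarith, ?_⟩
  obtain ⟨x1, hbad⟩ := bad_count (r - 1) (by linarith)
  obtain ⟨l0, hl0⟩ := exists_pow_lt_of_lt_one (show 0 < r - 1 by linarith)
    (show (1 / 4 : ℝ) < 1 by norm_num)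
  obtain ⟨K1, hK1⟩ : ∃ K1, K1 = 2 * (3604 * (10 + x1 + l0) + 11) := ⟨_, rfl⟩
  refine ⟨K1, by omega, ?_⟩
  have lim := ((tendsto_pow_const_div_const_pow_of_one_lt 2 r1).comp
    (tendsto_add_atTop_nat 1)).eventually
      (gt_mem_nhds (show (0 : ℝ) < 1 / r by positivity))
  obtain ⟨y0, hy0⟩ := eventually_atTop.1 lim
  filter_upwards [eventually_ge_atTop (y0 * y0)] with n hn0 A0 hA0
  have hy : ((Nat.sqrt n : ℝ) + 1) ^ 2 ≤ r ^ Nat.sqrt n := by
    have h1 := hy0 _ (Nat.le_sqrt.2 hn0)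
    simp only [Function.comp] at h1
    rw [div_lt_div_iff₀ (by positivity) r0, Nat.cast_succ, one_mul, pow_succ r] at h1
    exact (lt_of_mul_lt_mul_right h1 r0.le).le
  have main : ∀ c0 : ℕ, 2 ^ (K1 * (c0 + 1)) ≤ n → ∀ A : Finset (ℕ × ℕ),
      (∀ p ∈ A, p.1 < 2 ^ n ∧ p.2 < 2 ^ n ∧
        DenseLv c0 (n / 2 ^ (K1 * (c0 + 1))) n (p.1 / 2 ^ n) (p.2 / 2 ^ n)) →
      (A.card : ℝ) ≤ (4 / r) ^ n / (n + 1) := by
    intro c0 hc0 A hA1
    obtain ⟨lam, hlam⟩ : ∃ lam, lam = 10 + c0 + x1 + l0 := ⟨_, rfl⟩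
    have hε : 1 / (4 : ℝ) ^ lam ≤ r - 1 := by
      rw [← one_div_pow]
      exact (pow_le_pow_of_le_one (by norm_num) (by norm_num) (by omega)).trans hl0.le
    obtain ⟨W, hW⟩ : ∃ W, W = 2 ^ (3604 * lam) := ⟨_, rfl⟩
    have W1 : 3604 * lam < W := by rw [hW]; exact Nat.lt_two_pow_self
    obtain ⟨N, hN⟩ : ∃ N, N = 2 * W := ⟨_, rfl⟩
    have N0 : 0 < N := by omega
    obtain ⟨D, hD⟩ : ∃ D, D = 80 * (3604 * lam) + K := ⟨_, rfl⟩
    have hVV : 2048 * W * (2048 * W) ≤ 2 ^ (K1 * (c0 + 1)) := by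
      have e1 : 2048 * W = 2 ^ (3604 * lam + 11) := by
        rw [hW, pow_add, mul_comm, show (2048 : ℕ) = 2 ^ 11 by norm_num]
      rw [e1, ← pow_add]
      refine Nat.pow_le_pow_right (by norm_num) ?_
      have e2 : 7208 * c0 ≤ K1 * c0 := Nat.mul_le_mul_right _ (by omega)
      rw [mul_add K1]
      omega
    have hV : 2048 * W * (2048 * W) ≤ n := hVV.trans hc0
    have h2 : (3604 * lam + c0 + 10) * (1000 * N) ≤ n :=
      le_trans (Nat.mul_le_mul (by omega) (by omega)) hV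
    have hM : 1000 * N ≤ 2 ^ (K1 * (c0 + 1)) :=
      le_trans (le_trans (by omega) (Nat.le_mul_of_pos_left (2048 * W) (by omega))) hVV
    have p2 := count2_grow r r1 (by linarith) n (2048 * W) N (3 * D) hV (by omega) (by omega) hy
    obtain ⟨G, hG⟩ : ∃ G, G = n / (1000 * N) := ⟨_, rfl⟩
    obtain ⟨J, hJ⟩ : ∃ J, J = n / (10 * (3604 * lam)) := ⟨_, rfl⟩
    have hA : ∀ p ∈ A, p.1 < 2 ^ n ∧ p.2 < 2 ^ n ∧
        DenseLv c0 G n (p.1 / 2 ^ n) (p.2 / 2 ^ n) := fun p hp =>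
      ⟨(hA1 p hp).1, (hA1 p hp).2.1, count2_mono
        (by rw [hG]; exact Nat.div_le_div_left hM (by omega)) (hA1 p hp).2.2⟩
    have g1 : 3604 * lam + c0 + 10 ≤ G := by
      rw [hG]; exact (Nat.le_div_iff_mul_le (by omega)).2 h2
    have g2 : 1000 * (N * G) ≤ n := by
      rw [hG, ← mul_assoc]; exact Nat.mul_div_le _ _
    have g3 : 10 * (J * (3604 * lam)) ≤ n := by
      have := Nat.mul_div_le n (10 * (3604 * lam))
      rw [← hJ] at this
      calc _ = 10 * (3604 * lam) * J := by ring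
        _ ≤ n := this
    have GP : G ≤ N * G := Nat.le_mul_of_pos_left _ N0
    have kG : ∀ k < N, k * G + G ≤ N * G := fun k hk => by
      rw [← Nat.succ_mul]; exact Nat.mul_le_mul_right _ hk
    obtain ⟨e, he⟩ : ∃ e, e = (lam - 2) * (J / 8) / 2 := ⟨_, rfl⟩
    have key : (A.card : ℝ) ≤ ((Fintype.piFinset fun _ : Fin N => range (n + 1)).card : ℝ) *
        ((2 * N + 1) * 2 ^ n * ((2 * (1 + (r - 1))) ^ n / (6 / 5 : ℝ) ^ e)) := by
      refine count_fib _ _ (fun p τ => ∀ k : Fin N, (41 * n / 100 + 2 * (k * G) ≤ τ k ∧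
        τ k ≤ 41 * n / 100 + 2 * (k * G) + G) ∧
          DualGood c0 (τ k) (p.1 / 2 ^ n) (p.2 / 2 ^ n)) _ ?_ ?_
      · intro p hp
        have : ∀ k : Fin N, ∃ T' : ℕ, T' ≤ 41 * n / 100 + 2 * (k * G) + G ∧
            41 * n / 100 + 2 * (k * G) + G ≤ T' + G ∧
            DualGood c0 T' (p.1 / 2 ^ n) (p.2 / 2 ^ n) := fun k => by
          have := kG k k.2
          exact (hA p hp).2.2 _ (by omega) (by omega)
        choose τ t1 t2 t3 using this
        refine ⟨τ, Fintype.mem_piFinset.2 fun k => mem_range.2 ?_, fun k => ⟨⟨?_, t1 k⟩, t3 k⟩⟩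
        · have := kG k k.2
          have := t1 k
          omega
        · have := t2 k
          omega
      · intro τ _ B hB hR
        rcases B.eq_empty_or_nonempty with rfl | ⟨p0, hp0⟩
        · rw [card_empty, Nat.cast_zero]
          have : 0 < 1 + (r - 1) := by linarith
          positivity
        rw [he]
        refine count_pat lam c0 n N G J (r - 1) (by omega) (by omega) (by rw [← hW]; omega) g2 g1
          g3 hε (hbad (lam - 2) (by omega)) (fun k => if h : k < N then τ ⟨k, h⟩ else 0) ?_ B ?_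
        · intro k hk
          simp only [hk, dif_pos]
          exact (hR p0 hp0 ⟨k, hk⟩).1
        · intro p hp
          obtain ⟨b1, b2, b3⟩ := hA p (hB hp)
          refine ⟨b1, b2, b3, fun k hk => ?_⟩
          simp only [hk, dif_pos]
          exact (hR p hp ⟨k, hk⟩).2
    have hn : n ≤ K * e + D := by
      have i1 : n < 10 * (3604 * lam) * (J + 1) := by
        rw [hJ]; exact Nat.lt_mul_div_succ _ (by omega)
      have i2 : J + 1 ≤ 8 * (J / 8 + 1) := by omega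
      have i3 := Nat.mul_le_mul_left (10 * (3604 * lam)) i2
      have i4 : lam * (J / 8) ≤ 2 * (lam - 2) * (J / 8) := Nat.mul_le_mul_right _ (by omega)
      have i5 : 10 * (3604 * lam) * (8 * (J / 8 + 1)) =
          288320 * (lam * (J / 8)) + 288320 * lam := by
        ring
      rw [mul_assoc] at i4
      subst hK
      omega
    have p1 : r ^ (3 * n) ≤ (6 / 5 : ℝ) ^ e * r ^ (3 * D) := by
      rw [← hr, ← pow_mul, ← pow_add]
      refine pow_le_pow_right₀ r1.le ?_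
      rw [mul_assoc]; omega
    rw [Fintype.card_piFinset, prod_const, card_range, card_univ, Fintype.card_fin, Nat.cast_pow,
      Nat.cast_succ, show 1 + (r - 1) = r by ring] at key
    refine key.trans ?_
    have p3 : ((n : ℝ) + 1) ^ N * (2 * N + 1) * (r ^ n * r ^ n) * (n + 1) ≤ (6 / 5 : ℝ) ^ e := by
      refine le_of_mul_le_mul_right ?_ (show 0 < r ^ (3 * D) by positivity)
      refine le_trans ?_ p1
      have := mul_le_mul_of_nonneg_right p2 (show 0 ≤ r ^ n * r ^ n by positivity)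
      calc _ = ((n : ℝ) + 1) ^ N * ((2 * N + 1) * r ^ (3 * D)) * (n + 1) * (r ^ n * r ^ n) := by
            ring
        _ ≤ r ^ n * (r ^ n * r ^ n) := this
        _ = r ^ (3 * n) := by ring
    rw [div_pow 4 r, mul_pow, show (4 : ℝ) ^ n = 2 ^ n * 2 ^ n by rw [← mul_pow]; norm_num,
      le_div_iff₀ (by positivity), le_div_iff₀ (by positivity)]
    have q0 : (0 : ℝ) < (6 / 5) ^ e := by positivity
    calc _ = 2 ^ n * 2 ^ n *
          ((((n : ℝ) + 1) ^ N * (2 * N + 1) * (r ^ n * r ^ n) * (n + 1)) / (6 / 5) ^ e) := by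
          ring
      _ ≤ 2 ^ n * 2 ^ n * 1 :=
          mul_le_mul_of_nonneg_left ((div_le_one q0).2 p3) (by positivity)
      _ = _ := mul_one _
  have fin := count_fib A0 (range (n + 1)) (fun p c0 => 2 ^ (K1 * (c0 + 1)) ≤ n ∧
    DenseLv c0 (n / 2 ^ (K1 * (c0 + 1))) n (p.1 / 2 ^ n) (p.2 / 2 ^ n)) ((4 / r) ^ n / (n + 1))
    (fun p hp => by
      obtain ⟨-, -, c0, b1, b2⟩ := hA0 p hp
      refine ⟨c0, mem_range.2 ?_, b1, b2⟩
      have e1 : K1 * (c0 + 1) < 2 ^ (K1 * (c0 + 1)) := Nat.lt_two_pow_self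
      have e2 : c0 + 1 ≤ K1 * (c0 + 1) := Nat.le_mul_of_pos_left _ (by omega)
      omega)
    (fun c0 _ B hB hR => by
      rcases B.eq_empty_or_nonempty with rfl | ⟨p0, hp0⟩
      · rw [card_empty, Nat.cast_zero]
        positivity
      exact main c0 (hR p0 hp0).1 B fun p hp =>
        ⟨(hA0 p (hB hp)).1, (hA0 p (hB hp)).2.1, (hR p hp).2⟩)
  rw [card_range, Nat.cast_succ, mul_div_cancel₀ _ (by positivity)] at fin
  exact fin

end Pool.Agent.Lib.MP_e56372_nt.Dim
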