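import Pool.Agent.Lib.MP_e56372_nt.Dim.Defs3
import Pool.Agent.Lib.MP_e56372_nt.Dim.GameC

set_option autoImplicit false
open MeasureTheory Filter Topology Finset

namespace Pool.Agent.Lib.MP_e56372_nt.Dim
open Pool.Agent.Lib.MP_e56372_nt

open Classical in
theorem game2_drops (f : ℕ → ℝ) (ρ : ℝ) (hρ : 0 ≤ ρ) (R : ℕ → Prop) (hf : ∀ k, f (k + 1) ≤ f k)
    (hR : ∀ k, ¬ R k → f (k + 1) ≤ ρ * f k) (N : ℕ) :
    f N ≤ ρ ^ ((range N).filter fun k => ¬ R k).card * f 0 := by
  induction N with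
  | zero => simp
  | succ N ih =>
    rw [range_add_one, filter_insert]
    split_ifs with h
    · exact (hf N).trans ih
    · rw [card_insert_of_notMem (by simp), pow_succ', mul_assoc]
      exact (hR N h).trans (mul_le_mul_of_nonneg_left ih hρ)

/-- a step that removes only a small share of the allowed digits. -/
def game2R (l Γ : ℕ) (P : ℕ → ℕ → Prop) (k : ℕ) : Prop :=
  ∀ Y ⊆ gmF l P k, (∀ y ∈ Y, ¬ P k y) → Γ * Y.card < (gmF l P k).card

open Classical in
theorem game2_same (l N Γ : ℕ) (hΓ : 1 ≤ Γ) (hN : 2 * (l * Γ) ≤ N) (P : ℕ → ℕ → Prop)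
    (hpos : 0 < (gmF l P N).card) :
    N ≤ 2 * ((range N).filter fun k => game2R l Γ P k).card := by
  have hΓ' : (1 : ℝ) ≤ Γ := by exact_mod_cast hΓ
  have hΓ0 : (0 : ℝ) < Γ := by linarith
  have hρ0 : (0 : ℝ) ≤ 1 - 1 / Γ := by
    rw [sub_nonneg, div_le_one hΓ0]
    exact hΓ'
  have hρ1 : (1 : ℝ) - 1 / Γ < 1 := by
    have : (0 : ℝ) < 1 / Γ := by positivity
    linarith
  have h1 := game2_drops (fun k => ((gmF l P k).card : ℝ)) (1 - 1 / Γ) hρ0 (game2R l Γ P)
    (fun k => by exact_mod_cast card_le_card (gm_anti l P k (k + 1) (by omega)))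
    (fun k hk => by
      unfold game2R at hk
      push Not at hk
      obtain ⟨Y, hY, hY2, hY3⟩ := hk
      have s1 : gmF l P (k + 1) ⊆ gmF l P k \ Y := by
        intro y hy
        rw [Finset.mem_sdiff]
        exact ⟨gm_anti l P k (k + 1) (by omega) hy,
          fun hy' => hY2 y hy' (((gm_mem l P (k + 1) y).1 hy).2 k (by omega))⟩
      have s2 := card_le_card s1
      have s3 := card_sdiff_add_card_eq_card hY
      have s4 : (((gmF l P (k + 1)).card : ℕ) : ℝ) + Y.card ≤ (gmF l P k).card := by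
        exact_mod_cast (by omega : (gmF l P (k + 1)).card + Y.card ≤ (gmF l P k).card)
      have s5 : (((gmF l P k).card : ℕ) : ℝ) ≤ Γ * Y.card := by exact_mod_cast hY3
      have s6 : 1 / (Γ : ℝ) * (gmF l P k).card ≤ Y.card := by
        rw [one_div, inv_mul_le_iff₀ hΓ0]
        exact s5
      show (((gmF l P (k + 1)).card : ℕ) : ℝ) ≤ (1 - 1 / Γ) * (gmF l P k).card
      rw [sub_mul, one_mul]
      linarith) N
  have h0 : (gmF l P 0).card ≤ 2 ^ l := by
    refine (card_le_card (filter_subset _ _)).trans ?_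
    simp
  have h0' : (((gmF l P 0).card : ℕ) : ℝ) ≤ 2 ^ l := by exact_mod_cast h0
  have hp' : (1 : ℝ) ≤ (gmF l P N).card := by exact_mod_cast hpos
  have h4 := card_filter_add_card_filter_not (s := range N) (fun k => game2R l Γ P k)
  rw [card_range] at h4
  set d := ((range N).filter fun k => ¬ game2R l Γ P k).card with hd
  have hhalf : ((1 : ℝ) - 1 / Γ) ^ Γ ≤ 1 / 2 := by
    have a1 := Real.one_sub_div_pow_le_exp_neg (n := Γ) (t := 1) hΓ'
    have a2 := Real.exp_neg_one_lt_d9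
    linarith
  have hdl : d ≤ l * Γ := by
    by_contra hcon
    have b1 : ((1 : ℝ) - 1 / Γ) ^ d ≤ (1 - 1 / Γ) ^ (Γ * l + 1) :=
      pow_le_pow_of_le_one hρ0 hρ1.le (by rw [mul_comm]; omega)
    have b2 : ((1 : ℝ) - 1 / Γ) ^ (Γ * l) ≤ (1 / 2) ^ l := by
      rw [pow_mul]
      exact pow_le_pow_left₀ (by positivity) hhalf l
    have b3 : ((1 : ℝ) - 1 / Γ) ^ (Γ * l + 1) < (1 / 2) ^ l := by
      rw [pow_succ]
      calc ((1 : ℝ) - 1 / Γ) ^ (Γ * l) * (1 - 1 / Γ) ≤ (1 / 2) ^ l * (1 - 1 / Γ) :=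
            mul_le_mul_of_nonneg_right b2 hρ0
        _ < (1 / 2) ^ l * 1 := mul_lt_mul_of_pos_left hρ1 (by positivity)
        _ = (1 / 2) ^ l := mul_one _
    have b4 : ((1 : ℝ) - 1 / Γ) ^ d * (gmF l P 0).card ≤ (1 - 1 / Γ) ^ d * 2 ^ l :=
      mul_le_mul_of_nonneg_left h0' (by positivity)
    have b5 : ((1 : ℝ) - 1 / Γ) ^ d * 2 ^ l < (1 / 2) ^ l * 2 ^ l :=
      mul_lt_mul_of_pos_right (b1.trans_lt b3) (by positivity)
    have b6 : ((1 : ℝ) / 2) ^ l * 2 ^ l = 1 := by
      rw [← mul_pow]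
      norm_num
    have b7 : (((gmF l P N).card : ℕ) : ℝ) ≤ (1 - 1 / Γ) ^ d * (gmF l P 0).card := h1
    linarith
  omega

theorem game_count2 (n l J N c B Γ : ℕ) (C : ℕ → ℕ) (OK Good : ℕ → ℕ → ℕ → ℕ → Prop) (hl : 1 ≤ l)
    (hΓ : 1 ≤ Γ) (hN : 2 * (l * Γ) ≤ N) (hC : ∀ k k', k < k' → k' < N → C k + l ≤ C k')
    (hlo : ∀ k < N, c + J * l ≤ C k) (hhi : ∀ k < N, C k + l ≤ n + c) (hc : c + J * l ≤ n)
    (hmix : ∀ k < N, ∀ j < J, ∀ p q, Good k j p q → ∀ X F : Finset ℕ, X ⊆ range (2 ^ l) →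
      F ⊆ range (2 ^ l) → B < X.card → B < F.card →
      ∃ x ∈ X, ∃ Y ⊆ F, F.card ≤ Γ * Y.card ∧ ∀ y ∈ Y, ¬ OK k j (p * 2 ^ l + x) (q * 2 ^ l + y))
    (ω ε : ℝ) (hω : 1 ≤ ω) (hε : B * ω / 2 ^ l ≤ ε) (A : Finset (ℕ × ℕ))
    (hA : ∀ w ∈ A, w.1 < 2 ^ n ∧ w.2 < 2 ^ n ∧
      (∀ k < N, ∀ j < J, OK k j (pre n (C k - (c + j * l) + l) w.1) (pre n (c + j * l + l) w.2)) ∧
      ∀ k < N, ∀ T : Finset ℕ, (∀ j ∈ T, j < J ∧
        ¬ Good k j (pre n (C k - (c + j * l)) w.1) (pre n (c + j * l) w.2)) → 8 * T.card < J) :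
    (A.card : ℝ) ≤ (N + 1) * 2 ^ n * ((2 * (1 + ε)) ^ n / ω ^ (J / 8)) := by
  classical
  set W : ℝ := (2 * (1 + ε)) ^ n / ω ^ (J / 8) with hW
  have hjl : ∀ j < J, j * l + l ≤ J * l := fun j hj => by
    have := Nat.mul_le_mul_right l (show j + 1 ≤ J by omega)
    rwa [Nat.add_mul, one_mul] at this
  have hij : ∀ i j : ℕ, i ≠ j → i * l + l ≤ j * l ∨ j * l + l ≤ i * l := fun i j h => by
    rcases Nat.lt_or_gt_of_ne h with h | h
    · left
      have := Nat.mul_le_mul_right l (show i + 1 ≤ j by omega)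
      rwa [Nat.add_mul, one_mul] at this
    · right
      have := Nat.mul_le_mul_right l (show j + 1 ≤ i by omega)
      rwa [Nat.add_mul, one_mul] at this
  -- the predicate of a column
  let P : ℕ → ℕ → ℕ → ℕ → ℕ → Prop := fun u j q k' y =>
    OK k' j (pre n (C k' - (c + j * l) + l) u) (q * 2 ^ l + y)
  let P' : ℕ → ℕ → ℕ → ℕ → ℕ → ℕ → Prop := fun k p j q k' y =>
    OK k' j (p / 2 ^ (C k - (c + j * l) - (C k' - (c + j * l) + l))) (q * 2 ^ l + y)
  let M1 : ℕ → ℕ → ℕ → Prop := fun u j z =>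
    z % 2 ^ l ∈ gmF l (P u j (z / 2 ^ l)) N ∧ (gmF l (P u j (z / 2 ^ l)) N).card ≤ B
  let M2 : ℕ → ℕ → ℕ → ℕ → Prop := fun k v j z =>
    Good k j (z / 2 ^ l) (pre n (c + j * l) v) ∧
      B < (gmF l (P' k (z / 2 ^ l) j (pre n (c + j * l) v)) k).card ∧
      ∀ Y ⊆ gmF l (P' k (z / 2 ^ l) j (pre n (c + j * l) v)) k,
        (∀ y ∈ Y, ¬ OK k j z (pre n (c + j * l) v * 2 ^ l + y)) →
        Γ * Y.card < (gmF l (P' k (z / 2 ^ l) j (pre n (c + j * l) v)) k).card
  let A1 : Finset (ℕ × ℕ) := A.filter fun w => ∃ T : Finset ℕ, J / 8 ≤ T.card ∧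
    ∀ j ∈ T, j < J ∧ M1 w.1 j (pre n (c + j * l + l) w.2)
  let A2 : ℕ → Finset (ℕ × ℕ) := fun k => A.filter fun w => ∃ T : Finset ℕ, J / 8 ≤ T.card ∧
    ∀ j ∈ T, j < J ∧ M2 k w.2 j (pre n (C k - (c + j * l) + l) w.1)
  have b1 : (A1.card : ℝ) ≤ 2 ^ n * W := by
    refine gm_fib1 n A1 W (fun w hw => (hA w (mem_filter.1 hw).1).1) ?_
    intro u S hS
    refine tree_block n l J (J / 8) B hl (fun j => c + j * l) ?_ ?_ (M1 u) ?_ ω ε hω hε S ?_ ?_
    · intro j hj
      have := hjl j hj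
      show c + j * l + l ≤ n
      omega
    · intro i _ j _ h
      have := hij i j h
      show c + i * l + l ≤ c + j * l ∨ c + j * l + l ≤ c + i * l
      omega
    · intro j _ p Z hZ
      rcases Z.eq_empty_or_nonempty with rfl | ⟨z0, hz0⟩
      · simp
      rw [← gm_mod_inj l p Z fun z hz => (hZ z hz).1]
      have h0 := (hZ z0 hz0).2.2
      rw [(hZ z0 hz0).1] at h0
      refine le_trans (card_le_card ?_) h0
      intro x hx
      obtain ⟨z, hz, rfl⟩ := mem_image.1 hx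
      have h1 := (hZ z hz).2.1
      rwa [(hZ z hz).1] at h1
    · intro v hv
      exact (hA _ (mem_filter.1 (hS v hv)).1).2.1
    · intro v hv
      exact (mem_filter.1 (hS v hv)).2
  have b2 : ∀ k ∈ range N, ((A2 k).card : ℝ) ≤ 2 ^ n * W := by
    intro k hk
    rw [mem_range] at hk
    have e1 := hlo k hk
    have e2 := hhi k hk
    refine gm_fib2 n (A2 k) W (fun w hw => (hA w (mem_filter.1 hw).1).2.1) ?_
    intro v S hS
    refine tree_block n l J (J / 8) B hl (fun j => C k - (c + j * l)) ?_ ?_ (M2 k v) ?_ ω ε hω hε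
      S ?_ ?_
    · intro j hj
      have := hjl j hj
      show C k - (c + j * l) + l ≤ n
      omega
    · intro i hi j hj h
      have := hij i j h
      have := hjl i hi
      have := hjl j hj
      show C k - (c + i * l) + l ≤ C k - (c + j * l) ∨ C k - (c + j * l) + l ≤ C k - (c + i * l)
      omega
    · intro j hj p Z hZ
      rcases Z.eq_empty_or_nonempty with rfl | ⟨z0, hz0⟩
      · simp
      rw [← gm_mod_inj l p Z fun z hz => (hZ z hz).1]
      by_contra hcon
      obtain ⟨g1, g2, -⟩ := (hZ z0 hz0).2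
      rw [(hZ z0 hz0).1] at g1 g2
      obtain ⟨x, hx, Y, hY, hYc, hno⟩ := hmix k hk j hj p _ g1 (Z.image fun z => z % 2 ^ l) _
        (fun x hx => by
          obtain ⟨z, _, rfl⟩ := mem_image.1 hx
          exact mem_range.2 (Nat.mod_lt _ (by positivity)))
        (fun y hy => mem_range.2 ((gm_mem _ _ _ _).1 hy).1) (by omega) g2
      obtain ⟨z, hz, rfl⟩ := mem_image.1 hx
      have g3 := (hZ z hz).2.2.2
      rw [(hZ z hz).1] at g3
      have g4 : p * 2 ^ l + z % 2 ^ l = z := by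
        rw [← (hZ z hz).1]
        exact Nat.div_add_mod' z (2 ^ l)
      rw [g4] at hno
      exact absurd hYc (not_le.2 (g3 Y hY hno))
    · intro u hu
      exact (hA _ (mem_filter.1 (hS u hu)).1).1
    · intro u hu
      exact (mem_filter.1 (hS u hu)).2
  have cover : A ⊆ A1 ∪ (range N).biUnion A2 := by
    intro w hw
    obtain ⟨-, -, hOK, hbad⟩ := hA w hw
    let sm : ℕ → Prop := fun j => (gmF l (P w.1 j (pre n (c + j * l) w.2)) N).card ≤ B
    have hsplit := card_filter_add_card_filter_not (s := range J) sm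
    rw [card_range] at hsplit
    by_cases hcase : J ≤ 2 * ((range J).filter sm).card
    · refine mem_union_left _ (mem_filter.2 ⟨hw, (range J).filter sm, by omega, ?_⟩)
      intro j hj
      obtain ⟨hj1, hj2⟩ := mem_filter.1 hj
      rw [mem_range] at hj1
      have e0 := hjl j hj1
      have e1 : pre n (c + j * l + l) w.2 / 2 ^ l = pre n (c + j * l) w.2 :=
        gm_pre_div' n _ l _ (by omega)
      refine ⟨hj1, ?_, ?_⟩
      · rw [gm_mem]
        refine ⟨Nat.mod_lt _ (by positivity), fun k' hk' => ?_⟩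
        show OK k' j _ (_ * 2 ^ l + _)
        rw [Nat.div_add_mod']
        exact hOK k' hk' j hj1
      · rw [e1]
        exact hj2
    · have hNpos : 0 < N := lt_of_lt_of_le (by have := Nat.mul_pos hl hΓ; omega) hN
      obtain ⟨k, hk, hT⟩ := gm_pick N hNpos ((range J).filter fun j => ¬ sm j)
        (fun k j => game2R l Γ (P w.1 j (pre n (c + j * l) w.2)) k)
        (fun j hj => by
          have hj' : ¬ sm j := (mem_filter.1 hj).2
          have hj2 : 0 < (gmF l (P w.1 j (pre n (c + j * l) w.2)) N).card :=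
            lt_of_le_of_lt (Nat.zero_le B) (not_le.1 hj')
          convert game2_same l N Γ hΓ hN (P w.1 j (pre n (c + j * l) w.2)) hj2)
      set T0 := ((range J).filter fun j => ¬ sm j).filter fun j =>
        game2R l Γ (P w.1 j (pre n (c + j * l) w.2)) k with hT0
      have hT' : ((range J).filter fun j => ¬ sm j).card ≤ 2 * T0.card := by convert hT
      let gd : ℕ → Prop := fun j =>
        Good k j (pre n (C k - (c + j * l)) w.1) (pre n (c + j * l) w.2)
      have hs2 := card_filter_add_card_filter_not (s := T0) gd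
      have hb := hbad k hk (T0.filter fun j => ¬ gd j) fun j hj => by
        obtain ⟨h1, h2⟩ := mem_filter.1 hj
        exact ⟨mem_range.1 (mem_filter.1 (mem_filter.1 h1).1).1, h2⟩
      refine mem_union_right _ (mem_biUnion.2 ⟨k, mem_range.2 hk,
        mem_filter.2 ⟨hw, T0.filter gd, by omega, ?_⟩⟩)
      intro j hj
      obtain ⟨h1, h2⟩ := mem_filter.1 hj
      obtain ⟨h3, h4⟩ := mem_filter.1 h1
      obtain ⟨h5, h6⟩ := mem_filter.1 h3
      rw [mem_range] at h5
      have e0 := hjl j h5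
      have e1 := hlo k hk
      have e2 := hhi k hk
      have e3 : pre n (C k - (c + j * l) + l) w.1 / 2 ^ l = pre n (C k - (c + j * l)) w.1 :=
        gm_pre_div' n _ l _ (by omega)
      have e4 : gmF l (P' k (pre n (C k - (c + j * l)) w.1) j (pre n (c + j * l) w.2)) k =
          gmF l (P w.1 j (pre n (c + j * l) w.2)) k := by
        refine gm_congr l _ _ k fun k' hk' y => ?_
        have e5 := hC k' k hk' hk
        have e6 := hlo k' (by omega)
        show OK k' j _ _ ↔ OK k' j _ _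
        rw [gm_pre_div n _ _ _ (by omega) (by omega)]
      refine ⟨h5, ?_, ?_, ?_⟩
      · rw [e3]
        exact h2
      · rw [e3, e4]
        exact lt_of_lt_of_le (not_le.1 h6) (card_le_card (gm_anti l _ k N hk.le))
      · rw [e3, e4]
        exact h4
  have c1 : A.card ≤ A1.card + ∑ k ∈ range N, (A2 k).card :=
    (card_le_card cover).trans ((card_union_le _ _).trans (Nat.add_le_add_left card_biUnion_le _))
  have c2 : (A.card : ℝ) ≤ A1.card + ∑ k ∈ range N, ((A2 k).card : ℝ) := by exact_mod_cast c1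
  have c3 := sum_le_sum b2
  simp only [sum_const, card_range, nsmul_eq_mul] at c3
  calc (A.card : ℝ) ≤ 2 ^ n * W + N * (2 ^ n * W) := by linarith
    _ = (N + 1) * 2 ^ n * W := by ring

end Pool.Agent.Lib.MP_e56372_nt.Dim
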