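import Pool.Agent.Lib.MP_e56372_nt.Dim.Defs3

set_option autoImplicit false
open MeasureTheory Filter Topology Finset

namespace Pool.Agent.Lib.MP_e56372_nt.Dim
open Pool.Agent.Lib.MP_e56372_nt

theorem expand_sin (N : ℕ) (c : ℤ → ℝ) (hc : ∀ a, c (-a) = c a) (θ : ℝ) :
    ∑ a ∈ Sym N, c a * Real.sin (2 * Real.pi * a * θ) = 0 := by
  have h : ∑ a ∈ Sym N, c a * Real.sin (2 * Real.pi * a * θ) =
      ∑ a ∈ Sym N, -(c a * Real.sin (2 * Real.pi * a * θ)) := by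
    refine Finset.sum_equiv (Equiv.neg ℤ) (fun a => ?_) (fun a _ => ?_)
    · simp only [Sym, mem_Icc, Equiv.neg_apply]
      omega
    · simp only [Equiv.neg_apply, hc, Int.cast_neg]
      rw [show 2 * Real.pi * -(a : ℝ) * θ = -(2 * Real.pi * a * θ) by ring, Real.sin_neg]
      ring
  rw [sum_neg_distrib] at h
  linarith

theorem expand_cos (A k : ℕ) (c : ℤ → ℝ) (hc : ∀ a, c (-a) = c a) (x θ : ℝ) :
    ∑ a ∈ Sym (k * A), c a * Real.cos (x + 2 * Real.pi * a * θ) = Real.cos x * Gc A k c θ := by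
  have h := expand_sin (k * A) c hc θ
  calc ∑ a ∈ Sym (k * A), c a * Real.cos (x + 2 * Real.pi * a * θ)
      = ∑ a ∈ Sym (k * A), (Real.cos x * (c a * Real.cos (2 * Real.pi * a * θ)) -
          Real.sin x * (c a * Real.sin (2 * Real.pi * a * θ))) :=
        sum_congr rfl fun a _ => by rw [Real.cos_add]; ring
    _ = _ := by rw [sum_sub_distrib, ← mul_sum, ← mul_sum, h, Gc]; ring

theorem expand_int (q : ℤ) (hq : q ≠ 0) :
    ∫ θ in (-(1 / 2) : ℝ)..(1 / 2), Real.cos (2 * Real.pi * q * θ) = 0 := by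
  have h0 : 2 * Real.pi * (q : ℝ) ≠ 0 :=
    mul_ne_zero (mul_ne_zero two_ne_zero Real.pi_ne_zero) (Int.cast_ne_zero.2 hq)
  rw [intervalIntegral.integral_comp_mul_left (fun x => Real.cos x) h0, integral_cos,
    show 2 * Real.pi * (q : ℝ) * (1 / 2) = q * Real.pi by ring,
    show 2 * Real.pi * (q : ℝ) * (-(1 / 2)) = -(q * Real.pi) by ring, Real.sin_neg,
    Real.sin_int_mul_pi]
  simp

theorem expand_le (A k : ℕ) (c : ℤ → ℝ) (h : Coef A k c) (θ : ℝ) :
    Gc A k c θ ≤ 1 / (max 1 (A * nd θ)) ^ (2 * k) := by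
  refine (h.hi θ).trans ?_
  have h0 : 0 ≤ (A : ℝ) * nd θ := mul_nonneg (Nat.cast_nonneg _) (abs_nonneg _)
  have h1 : (0 : ℝ) < max 1 (A * nd θ) := lt_max_of_lt_left one_pos
  exact one_div_le_one_div_of_le (pow_pos h1 _)
    (pow_le_pow_left₀ h1.le (max_le_max le_rfl (by linarith)) _)

/-- the kernel -/
noncomputable def expandPsi (Q1 : ℕ) (c1 : ℤ → ℝ) (θ : ℝ) : ℝ :=
  ∑ a ∈ Sym (1 * Q1), c1 a * Real.cos (2 * Real.pi * ((2 * Q1 + a : ℤ) : ℝ) * θ)

theorem expand_psi (Q1 : ℕ) (hQ : 1 ≤ Q1) (c1 : ℤ → ℝ) (h1 : Coef Q1 1 c1) :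
    Psi Q1 (expandPsi Q1 c1) where
  cont := by
    unfold expandPsi
    fun_prop
  per θ r := sum_congr rfl fun a _ => by
    rw [← Real.cos_add_int_mul_two_pi (2 * Real.pi * ((2 * Q1 + a : ℤ) : ℝ) * θ) ((2 * Q1 + a) * r)]
    congr 2
    push_cast
    ring
  even θ := sum_congr rfl fun a _ => by rw [mul_neg, Real.cos_neg]
  zero := by
    unfold expandPsi
    simp only [mul_zero, Real.cos_zero, mul_one]
    exact h1.sum
  mean := by
    unfold expandPsi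
    rw [intervalIntegral.integral_finsetSum (fun a _ => Continuous.intervalIntegrable (by fun_prop) _ _)]
    refine sum_eq_zero fun a ha => ?_
    rw [intervalIntegral.integral_const_mul, expand_int _ ?_, mul_zero]
    simp only [Sym, mem_Icc] at ha
    omega
  bnd θ := by
    have e : expandPsi Q1 c1 θ = Real.cos (2 * Real.pi * (2 * Q1) * θ) * Gc Q1 1 c1 θ := by
      rw [← expand_cos Q1 1 c1 h1.symm]
      refine sum_congr rfl fun a _ => ?_
      congr 2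
      push_cast
      ring
    rw [e, abs_mul, abs_of_nonneg (h1.lo θ)]
    exact (mul_le_of_le_one_left (h1.lo θ) (Real.abs_cos_le_one _)).trans (h1.hi θ)

theorem expand_two (A B k : ℕ) (cA cB : ℤ → ℝ) (hB : Coef B k cB) (q ξ ζ : ℝ) :
    ∑ a ∈ Sym (k * A), ∑ b ∈ Sym (k * B), cA a * cB b * Real.cos (2 * Real.pi * q * (a * ξ + b * ζ)) =
      Gc A k cA (q * ξ) * Gc B k cB (q * ζ) := by
  rw [Gc, sum_mul]
  refine sum_congr rfl fun a _ => ?_
  rw [mul_assoc (cA a), ← expand_cos B k cB hB.symm, mul_sum]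
  refine sum_congr rfl fun b _ => ?_
  rw [mul_assoc (cA a)]
  congr 3
  ring

theorem expand (A B Q1 k : ℕ) (hQ : 1 ≤ Q1) (cA cB c1 : ℤ → ℝ) (hA : Coef A k cA)
    (hB : Coef B k cB) (h1 : Coef Q1 1 c1) : ∃ Ψ, Psi Q1 Ψ ∧ ∀ ξ ζ : ℝ,
      Q1 * Sf (k * A) (k * B) cA cB Ψ ξ ζ ≤ ∑ q ∈ Icc 1 (4 * Q1), 1 / (wt A B ξ ζ q) ^ (2 * k) := by
  refine ⟨expandPsi Q1 c1, expand_psi Q1 hQ c1 h1, fun ξ ζ => ?_⟩
  have e : Sf (k * A) (k * B) cA cB (expandPsi Q1 c1) ξ ζ = ∑ a ∈ Sym (1 * Q1), c1 a *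
      (Gc A k cA (((2 * Q1 + a : ℤ) : ℝ) * ξ) * Gc B k cB (((2 * Q1 + a : ℤ) : ℝ) * ζ)) := by
    unfold Sf expandPsi
    simp only [← expand_two A B k cA cB hB, mul_sum]
    symm
    rw [sum_comm]
    refine sum_congr rfl fun i _ => ?_
    rw [sum_comm]
    refine sum_congr rfl fun j _ => sum_congr rfl fun a _ => ?_
    ring
  have hQ' : (0 : ℝ) < Q1 := by exact_mod_cast hQ
  have hT : ∀ q : ℕ, 0 ≤ 1 / (wt A B ξ ζ q) ^ (2 * k) := fun q =>
    one_div_nonneg.2 (pow_nonneg (mul_nonneg (le_max_of_le_left zero_le_one)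
      (le_max_of_le_left zero_le_one)) _)
  rw [e, mul_sum]
  calc _ ≤ ∑ a ∈ Sym (1 * Q1), 1 / (wt A B ξ ζ (2 * Q1 + a : ℤ).toNat) ^ (2 * k) := by
        refine sum_le_sum fun a ha => ?_
        simp only [Sym, mem_Icc] at ha
        have e1 : (((2 * Q1 + a : ℤ).toNat : ℕ) : ℝ) = ((2 * Q1 + a : ℤ) : ℝ) := by
          rw [← Int.cast_natCast, Int.toNat_of_nonneg (by omega)]
        have b1 : (Q1 : ℝ) * c1 a ≤ 1 := by
          have := h1.le a
          rwa [le_div_iff₀ hQ', mul_comm] at this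
        rw [← mul_assoc, wt, e1, mul_pow, ← one_div_mul_one_div]
        refine (mul_le_of_le_one_left (mul_nonneg (hA.lo _) (hB.lo _)) b1).trans ?_
        exact mul_le_mul (expand_le A k cA hA _) (expand_le B k cB hB _) (hB.lo _)
          ((hA.lo _).trans (expand_le A k cA hA _))
    _ = ∑ q ∈ (Sym (1 * Q1)).image (fun a : ℤ => (2 * Q1 + a : ℤ).toNat),
          1 / (wt A B ξ ζ q) ^ (2 * k) := by
        rw [sum_image]
        intro a ha b hb hab
        simp only [Sym, coe_Icc, Set.mem_Icc] at ha hb hab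
        omega
    _ ≤ _ := by
        refine sum_le_sum_of_subset_of_nonneg (fun q hq => ?_) (fun q _ _ => hT q)
        obtain ⟨a, ha, rfl⟩ := mem_image.1 hq
        simp only [Sym, mem_Icc] at ha ⊢
        omega

end Pool.Agent.Lib.MP_e56372_nt.Dim
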