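import Pool.Agent.Lib.MP_e56372_nt.Dim.Defs3
import Pool.Agent.Lib.MP_e56372_nt.Dim.BoxC

set_option autoImplicit false
open MeasureTheory Filter Topology Finset

namespace Pool.Agent.Lib.MP_e56372_nt.Dim
open Pool.Agent.Lib.MP_e56372_nt

theorem trivf_int (X : Set ℝ) (hX1 : X ⊆ Set.Icc 0 1) (f : ℝ → ℝ) (C : ℝ) (hC : 0 ≤ C)
    (h : ∀ x ∈ X, |f x| ≤ C) : |∫ x in X, f x| ≤ C := by
  have hm : volume X ≤ 1 := by
    refine (measure_mono hX1).trans ?_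
    simp
  have hfin : volume X < ⊤ := lt_of_le_of_lt hm (by simp)
  have h1 : volume.real X ≤ 1 := by
    have := ENNReal.toReal_mono (by simp) hm
    simpa [Measure.real] using this
  have h2 := norm_setIntegral_le_of_norm_le_const (μ := volume) (s := X) (f := f) (C := C) hfin
    (fun x hx => by simpa [Real.norm_eq_abs] using h x hx)
  rw [Real.norm_eq_abs] at h2
  exact h2.trans (mul_le_of_le_one_right hC h1)

theorem trivf_pt (V a b c x y : ℝ) (hV : 0 < V) (hc : 0 < |c|) (h : 4 * max |a| |b| ≤ |c|)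
    (hx : x ∈ Set.Icc (0 : ℝ) 1) (hy : y ∈ Set.Icc (0 : ℝ) 1) :
    |1 / (max 1 (V * |a * x + b * y + c|)) ^ 2| ≤ 4 / (V * |c|) ^ 2 := by
  have h1 : |a * x| ≤ |a| := by
    rw [abs_mul, abs_of_nonneg hx.1]
    exact mul_le_of_le_one_right (abs_nonneg _) hx.2
  have h2 : |b * y| ≤ |b| := by
    rw [abs_mul, abs_of_nonneg hy.1]
    exact mul_le_of_le_one_right (abs_nonneg _) hy.2
  have h3 : |a| ≤ max |a| |b| := le_max_left _ _
  have h4 : |b| ≤ max |a| |b| := le_max_right _ _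
  have h5 : |c| ≤ |a * x + b * y + c| + |a * x| + |b * y| := by
    have e : c = (a * x + b * y + c) - a * x - b * y := by ring
    calc |c| = |(a * x + b * y + c) - a * x - b * y| := by rw [← e]
      _ ≤ |(a * x + b * y + c) - a * x| + |b * y| := abs_sub _ _
      _ ≤ _ := by have := abs_sub (a * x + b * y + c) (a * x); linarith
  have h6 : |c| / 2 ≤ |a * x + b * y + c| := by linarith
  have h7 : V * |c| / 2 ≤ max 1 (V * |a * x + b * y + c|) := by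
    refine le_trans ?_ (le_max_right _ _)
    rw [mul_div_assoc]
    exact mul_le_mul_of_nonneg_left h6 hV.le
  have h8 : 0 < V * |c| / 2 := by positivity
  rw [abs_of_nonneg (by positivity)]
  calc 1 / (max 1 (V * |a * x + b * y + c|)) ^ 2 ≤ 1 / (V * |c| / 2) ^ 2 :=
        one_div_le_one_div_of_le (by positivity) (pow_le_pow_left₀ h8.le h7 2)
    _ = 4 / (V * |c|) ^ 2 := by field_simp; norm_num

theorem trivf_slab (S : Finset V3) (z H t : ℝ) (hz : 0 < z) (hH : 0 ≤ H) (hs : SepV S (1 / z))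
    (hb : ∀ w ∈ S, |w 0| ≤ H ∧ |w 1| ≤ H ∧ t ≤ w 2 ∧ w 2 ≤ t + 1 / z) :
    (S.card : ℝ) ≤ 2 * (2 * H * z + 1) ^ 2 := by
  have h := box_count S (1 / z) ![-H, -H, t] ![2 * H, 2 * H, 1 / z] (by positivity)
    (fun k => by fin_cases k <;> simp <;> positivity)
    (fun w hw k => by
      obtain ⟨a, b, c, d⟩ := hb w hw
      have a' := abs_le.1 a
      have b' := abs_le.1 b
      fin_cases k
      · exact ⟨a'.1, by show w 0 ≤ -H + 2 * H; linarith [a'.2]⟩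
      · exact ⟨b'.1, by show w 1 ≤ -H + 2 * H; linarith [b'.2]⟩
      · exact ⟨c, d⟩) hs
  refine h.trans (le_of_eq ?_)
  show (2 * H / (1 / z) + 1) * (2 * H / (1 / z) + 1) * (1 / z / (1 / z) + 1) = _
  field_simp
  ring

theorem trivf_fib (S : Finset V3) (z H : ℝ) (i : ℕ) (hz : 0 < z) (hH : 0 ≤ H)
    (hs : SepV S (1 / z)) (hb : ∀ w ∈ S, |w 0| ≤ H ∧ |w 1| ≤ H ∧ ⌊z * |w 2|⌋₊ = i) :
    (S.card : ℝ) ≤ 4 * (2 * H * z + 1) ^ 2 := by
  classical
  have key : ∀ w ∈ S, (i : ℝ) / z ≤ |w 2| ∧ |w 2| ≤ i / z + 1 / z := fun w hw => by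
    obtain ⟨-, -, c⟩ := hb w hw
    have h1 : (i : ℝ) ≤ z * |w 2| := by rw [← c]; exact Nat.floor_le (by positivity)
    have h2 : z * |w 2| < i + 1 := by rw [← c]; exact Nat.lt_floor_add_one _
    refine ⟨by rw [div_le_iff₀ hz]; linarith, ?_⟩
    rw [← add_div, le_div_iff₀ hz]; linarith
  have hsub : ∀ p : V3 → Prop, ∀ _ : DecidablePred p, SepV (S.filter p) (1 / z) :=
    fun p _ u hu v hv huv => hs u (mem_filter.1 hu).1 v (mem_filter.1 hv).1 huv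
  have h1 := trivf_slab (S.filter fun w => 0 ≤ w 2) z H (i / z) hz hH (hsub _ _) fun w hw => by
    obtain ⟨hw, hp⟩ := mem_filter.1 hw
    have := key w hw
    rw [abs_of_nonneg hp] at this
    exact ⟨(hb w hw).1, (hb w hw).2.1, this.1, this.2⟩
  have h2 := trivf_slab (S.filter fun w => ¬ 0 ≤ w 2) z H (-(i / z) - 1 / z) hz hH (hsub _ _)
    fun w hw => by
      obtain ⟨hw, hp⟩ := mem_filter.1 hw
      have := key w hw
      rw [abs_of_neg (not_le.1 hp)] at this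
      exact ⟨(hb w hw).1, (hb w hw).2.1, by linarith [this.2], by linarith [this.1]⟩
  have h3 : (S.filter fun w => 0 ≤ w 2).card + (S.filter fun w => ¬ 0 ≤ w 2).card = S.card :=
    card_filter_add_card_filter_not _
  have h4 : (S.card : ℝ) = ((S.filter fun w => 0 ≤ w 2).card : ℝ) +
      ((S.filter fun w => ¬ 0 ≤ w 2).card : ℝ) := by rw [← h3]; push_cast; rfl
  linarith

theorem triv_far (S : Finset V3) (z H V : ℝ) (hz : 1 ≤ z) (hH : 0 ≤ H) (hV : 0 < V)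
    (hs : SepV S (1 / z)) (h0 : ∀ w ∈ S, ∃ k, 1 / z < |w k|)
    (hb : ∀ w ∈ S, |w 0| ≤ H ∧ |w 1| ≤ H ∧ 4 * max |w 0| |w 1| ≤ |w 2|)
    (X F : Set ℝ) (hX : MeasurableSet X) (hF : MeasurableSet F) (hX1 : X ⊆ Set.Icc 0 1)
    (hF1 : F ⊆ Set.Icc 0 1) :
    ∑ w ∈ S, ∫ x in X, ∫ y in F, 1 / (max 1 (V * |w 0 * x + w 1 * y + w 2|)) ^ 2 ≤
      32 * z ^ 2 * (2 * H * z + 1) ^ 2 / V ^ 2 := by
  classical
  have hz0 : 0 < z := by linarith
  have hw2 : ∀ w ∈ S, 1 / z < |w 2| := fun w hw => by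
    obtain ⟨k, hk⟩ := h0 w hw
    obtain ⟨-, -, c⟩ := hb w hw
    have h3 : |w 0| ≤ max |w 0| |w 1| := le_max_left _ _
    have h4 : |w 1| ≤ max |w 0| |w 1| := le_max_right _ _
    have h5 := abs_nonneg (w 0)
    fin_cases k
    · have : 1 / z < |w 0| := hk
      linarith
    · have : 1 / z < |w 1| := hk
      linarith
    · exact hk
  let j : V3 → ℕ := fun w => ⌊z * |w 2|⌋₊
  have hj : ∀ w ∈ S, 0 < j w := fun w hw => by
    have := hw2 w hw
    rw [div_lt_iff₀ hz0] at this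
    exact Nat.floor_pos.2 (by linarith)
  have hterm : ∀ w ∈ S, ∫ x in X, ∫ y in F, 1 / (max 1 (V * |w 0 * x + w 1 * y + w 2|)) ^ 2 ≤
      4 * z ^ 2 / V ^ 2 * ((j w : ℝ) ^ 2)⁻¹ := fun w hw => by
    have hc : 0 < |w 2| := lt_trans (by positivity) (hw2 w hw)
    have h1 := trivf_int X hX1
      (fun x => ∫ y in F, 1 / (max 1 (V * |w 0 * x + w 1 * y + w 2|)) ^ 2) (4 / (V * |w 2|) ^ 2)
      (by positivity) fun x hx => trivf_int F hF1 _ _ (by positivity) fun y hy =>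
        trivf_pt V _ _ _ x y hV hc (hb w hw).2.2 (hX1 hx) (hF1 hy)
    refine ((le_abs_self _).trans h1).trans ?_
    have h2 : (j w : ℝ) ≤ z * |w 2| := Nat.floor_le (by positivity)
    have h3 : (0 : ℝ) < j w := by exact_mod_cast hj w hw
    have h4 : ((z * |w 2|) ^ 2)⁻¹ ≤ ((j w : ℝ) ^ 2)⁻¹ :=
      inv_anti₀ (by positivity) (pow_le_pow_left₀ h3.le h2 2)
    calc 4 / (V * |w 2|) ^ 2 = 4 * z ^ 2 / V ^ 2 * ((z * |w 2|) ^ 2)⁻¹ := by field_simp
      _ ≤ _ := mul_le_mul_of_nonneg_left h4 (by positivity)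
  have hmap : ∀ w ∈ S, j w ∈ Ioo 0 (S.sup j + 1) := fun w hw =>
    mem_Ioo.2 ⟨hj w hw, Nat.lt_succ_of_le (le_sup (f := j) hw)⟩
  have hsum : ∑ i ∈ Ioo 0 (S.sup j + 1), ((i : ℝ) ^ 2)⁻¹ ≤ 2 := by
    have := sum_Ioo_inv_sq_le (α := ℝ) 0 (S.sup j + 1)
    simpa using this
  calc _ ≤ ∑ w ∈ S, 4 * z ^ 2 / V ^ 2 * ((j w : ℝ) ^ 2)⁻¹ := sum_le_sum hterm
    _ = ∑ i ∈ Ioo 0 (S.sup j + 1), ∑ w ∈ S with j w = i, 4 * z ^ 2 / V ^ 2 * ((j w : ℝ) ^ 2)⁻¹ :=
        (sum_fiberwise_of_maps_to hmap _).symm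
    _ ≤ ∑ i ∈ Ioo 0 (S.sup j + 1),
        4 * (2 * H * z + 1) ^ 2 * (4 * z ^ 2 / V ^ 2) * ((i : ℝ) ^ 2)⁻¹ := by
        refine sum_le_sum fun i _ => ?_
        rw [sum_congr rfl (g := fun _ => 4 * z ^ 2 / V ^ 2 * ((i : ℝ) ^ 2)⁻¹)
          (fun w hw => by rw [(mem_filter.1 hw).2]), sum_const, nsmul_eq_mul, mul_assoc]
        refine mul_le_mul_of_nonneg_right ?_ (by positivity)
        exact trivf_fib _ z H i hz0 hH
          (fun u hu v hv huv => hs u (mem_filter.1 hu).1 v (mem_filter.1 hv).1 huv)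
          fun w hw => ⟨(hb w (mem_filter.1 hw).1).1, (hb w (mem_filter.1 hw).1).2.1,
            (mem_filter.1 hw).2⟩
    _ = 4 * (2 * H * z + 1) ^ 2 * (4 * z ^ 2 / V ^ 2) *
        ∑ i ∈ Ioo 0 (S.sup j + 1), ((i : ℝ) ^ 2)⁻¹ := (mul_sum _ _ _).symm
    _ ≤ 4 * (2 * H * z + 1) ^ 2 * (4 * z ^ 2 / V ^ 2) * 2 :=
        mul_le_mul_of_nonneg_left hsum (by positivity)
    _ = _ := by ring

end Pool.Agent.Lib.MP_e56372_nt.Dim
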