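import Pool.Agent.Lib.MP_e56372_nt.Dim.BoxC

set_option autoImplicit false
open MeasureTheory Filter Topology Finset

namespace Pool.Agent.Lib.MP_e56372_nt.Dim
open Pool.Agent.Lib.MP_e56372_nt

theorem trivn_pt (u : ℝ) : 1 / (max 1 |u|) ^ 2 ≤ 2 * (1 + u ^ 2)⁻¹ := by
  have h1 : (1 : ℝ) ≤ max 1 |u| := le_max_left _ _
  have h2 : |u| ≤ max 1 |u| := le_max_right _ _
  have h3 : u ^ 2 ≤ (max 1 |u|) ^ 2 := by
    rw [← sq_abs u]
    exact pow_le_pow_left₀ (abs_nonneg _) h2 2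
  have h4 : (1 : ℝ) ≤ (max 1 |u|) ^ 2 := one_le_pow₀ h1
  rw [← div_eq_mul_inv, div_le_div_iff₀ (by positivity) (by positivity)]
  linarith

theorem trivn_one (V a c : ℝ) (hV : 0 < V) (ha : a ≠ 0) (F : Set ℝ) :
    ∫ y in F, 1 / (max 1 (V * |a * y + c|)) ^ 2 ≤ 2 * Real.pi / (V * |a|) := by
  have hVa : V * a ≠ 0 := mul_ne_zero hV.ne' ha
  let g : ℝ → ℝ := fun u => 2 * (1 + (u + V * c) ^ 2)⁻¹
  have hg0 : Integrable (fun u : ℝ => 2 * (1 + u ^ 2)⁻¹) := integrable_inv_one_add_sq.const_mul 2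
  have hg1 : Integrable g := hg0.comp_add_right (V * c)
  have hg2 : Integrable (fun y : ℝ => g (V * a * y)) := hg1.comp_mul_left' hVa
  have hI : ∫ y : ℝ, g (V * a * y) = 2 * Real.pi / (V * |a|) := by
    rw [Measure.integral_comp_mul_left g (V * a)]
    have : ∫ u, g u = 2 * Real.pi := by
      have := integral_add_right_eq_self (μ := (volume : Measure ℝ))
        (fun u : ℝ => 2 * (1 + u ^ 2)⁻¹) (V * c)
      rw [show (∫ u, g u) = ∫ u : ℝ, 2 * (1 + (u + V * c) ^ 2)⁻¹ from rfl, this,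
        integral_const_mul, integral_univ_inv_one_add_sq]
    rw [this, smul_eq_mul, abs_inv, abs_mul, abs_of_pos hV]
    ring
  calc ∫ y in F, 1 / (max 1 (V * |a * y + c|)) ^ 2 ≤ ∫ y in F, g (V * a * y) := by
        refine integral_mono_of_nonneg (ae_of_all _ fun y => by positivity) hg2.integrableOn
          (ae_of_all _ fun y => ?_)
        have e : V * |a * y + c| = |V * a * y + V * c| := by
          rw [show V * a * y + V * c = V * (a * y + c) by ring, abs_mul, abs_of_pos hV]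
        show 1 / (max 1 (V * |a * y + c|)) ^ 2 ≤ 2 * (1 + (V * a * y + V * c) ^ 2)⁻¹
        rw [e]
        exact trivn_pt _
    _ ≤ ∫ y, g (V * a * y) :=
        setIntegral_le_integral hg2 (ae_of_all _ fun y => by
          show (0 : ℝ) ≤ 2 * (1 + (V * a * y + V * c) ^ 2)⁻¹
          positivity)
    _ = _ := hI

theorem trivn_vol (X : Set ℝ) (hX1 : X ⊆ Set.Icc 0 1) : volume X ≤ 1 := by
  refine (measure_mono hX1).trans ?_
  simp

theorem trivn_fin (X : Set ℝ) (hX1 : X ⊆ Set.Icc 0 1) : IsFiniteMeasure (volume.restrict X) :=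
  ⟨by
    rw [Measure.restrict_apply_univ]
    exact lt_of_le_of_lt (trivn_vol X hX1) ENNReal.one_lt_top⟩

theorem trivn_out (X : Set ℝ) (hX1 : X ⊆ Set.Icc 0 1) (f : ℝ → ℝ) (C : ℝ) (hC : 0 ≤ C)
    (h0 : ∀ x, 0 ≤ f x) (h : ∀ x, f x ≤ C) : ∫ x in X, f x ≤ C := by
  haveI := trivn_fin X hX1
  have hv : volume.real X ≤ 1 := by
    have := ENNReal.toReal_mono ENNReal.one_ne_top (trivn_vol X hX1)
    simpa [Measure.real] using this
  calc ∫ x in X, f x ≤ ∫ _ in X, C :=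
        integral_mono_of_nonneg (ae_of_all _ h0) (integrable_const C) (ae_of_all _ h)
    _ = volume.real X * C := by rw [setIntegral_const, smul_eq_mul]
    _ ≤ C := mul_le_of_le_one_left hC hv

theorem trivn_two (V a b c : ℝ) (hV : 0 < V) (hM : 0 < max |a| |b|) (X F : Set ℝ)
    (hX1 : X ⊆ Set.Icc 0 1) (hF1 : F ⊆ Set.Icc 0 1) :
    ∫ x in X, ∫ y in F, 1 / (max 1 (V * |a * x + b * y + c|)) ^ 2 ≤
      2 * Real.pi / (V * max |a| |b|) := by
  have hpi := Real.pi_pos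
  rcases le_total |a| |b| with hab | hab
  · rw [max_eq_right hab] at hM ⊢
    refine trivn_out X hX1 _ _ (by positivity)
      (fun x => integral_nonneg fun y => by positivity) fun x => ?_
    have := trivn_one V b (a * x + c) hV (abs_pos.mp hM) F
    simpa only [show ∀ y : ℝ, b * y + (a * x + c) = a * x + b * y + c from fun y => by ring]
      using this
  · rw [max_eq_left hab] at hM ⊢
    haveI := trivn_fin X hX1
    haveI := trivn_fin F hF1
    have hc : Continuous fun p : ℝ × ℝ => 1 / (max 1 (V * |a * p.1 + b * p.2 + c|)) ^ 2 := by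
      refine continuous_const.div (by fun_prop) fun p => ?_
      positivity
    have hi : Integrable (Function.uncurry fun x y : ℝ =>
        1 / (max 1 (V * |a * x + b * y + c|)) ^ 2)
        ((volume.restrict X).prod (volume.restrict F)) := by
      refine Integrable.of_bound hc.aestronglyMeasurable 1 (ae_of_all _ fun p => ?_)
      show ‖1 / (max 1 (V * |a * p.1 + b * p.2 + c|)) ^ 2‖ ≤ 1
      rw [Real.norm_eq_abs, abs_of_nonneg (by positivity), div_le_one (by positivity)]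
      exact one_le_pow₀ (le_max_left _ _)
    rw [integral_integral_swap hi]
    refine trivn_out F hF1 _ _ (by positivity)
      (fun y => integral_nonneg fun x => by positivity) fun y => ?_
    have := trivn_one V a (b * y + c) hV (abs_pos.mp hM) X
    simpa only [← add_assoc] using this

theorem trivn_box0 (T : Finset V3) (z α D E : ℝ) (hz : 0 < z) (hD : 0 ≤ D) (hE : 0 ≤ E)
    (hs : SepV T (1 / z))
    (h : ∀ w ∈ T, α ≤ w 0 ∧ w 0 ≤ α + 1 / (4 * z) ∧ |w 1| ≤ D ∧ |w 2| ≤ E) :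
    (T.card : ℝ) ≤ 5 / 4 * (2 * D * z + 1) * (2 * E * z + 1) := by
  have := box_count T (1 / z) ![α, -D, -E] ![1 / (4 * z), 2 * D, 2 * E] (by positivity)
    (fun k => by fin_cases k <;> simp <;> positivity) (fun w hw k => by
      obtain ⟨h1, h2, h3, h4⟩ := h w hw
      rw [abs_le] at h3 h4
      fin_cases k
      · exact ⟨h1, h2⟩
      · exact ⟨h3.1, by show w 1 ≤ -D + 2 * D; linarith [h3.2]⟩
      · exact ⟨h4.1, by show w 2 ≤ -E + 2 * E; linarith [h4.2]⟩) hs
  refine this.trans (le_of_eq ?_)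
  show (1 / (4 * z) / (1 / z) + 1) * (2 * D / (1 / z) + 1) * (2 * E / (1 / z) + 1) = _
  field_simp
  ring

theorem trivn_box1 (T : Finset V3) (z α D E : ℝ) (hz : 0 < z) (hD : 0 ≤ D) (hE : 0 ≤ E)
    (hs : SepV T (1 / z))
    (h : ∀ w ∈ T, α ≤ w 1 ∧ w 1 ≤ α + 1 / (4 * z) ∧ |w 0| ≤ D ∧ |w 2| ≤ E) :
    (T.card : ℝ) ≤ 5 / 4 * (2 * D * z + 1) * (2 * E * z + 1) := by
  have := box_count T (1 / z) ![-D, α, -E] ![2 * D, 1 / (4 * z), 2 * E] (by positivity)
    (fun k => by fin_cases k <;> simp <;> positivity) (fun w hw k => by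
      obtain ⟨h1, h2, h3, h4⟩ := h w hw
      rw [abs_le] at h3 h4
      fin_cases k
      · exact ⟨h3.1, by show w 0 ≤ -D + 2 * D; linarith [h3.2]⟩
      · exact ⟨h1, h2⟩
      · exact ⟨h4.1, by show w 2 ≤ -E + 2 * E; linarith [h4.2]⟩) hs
  refine this.trans (le_of_eq ?_)
  show (2 * D / (1 / z) + 1) * (1 / (4 * z) / (1 / z) + 1) * (2 * E / (1 / z) + 1) = _
  field_simp
  ring

theorem trivn_sub (S T : Finset V3) (lam : ℝ) (h : T ⊆ S) (hs : SepV S lam) : SepV T lam :=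
  fun u hu v hv huv => hs u (h hu) v (h hv) huv

theorem trivn_shell (T : Finset V3) (z j D : ℝ) (hz : 0 < z) (hD : 0 ≤ D) (hj : 1 ≤ j)
    (hs : SepV T (1 / z))
    (h : ∀ w ∈ T, j ≤ 4 * z * max |w 0| |w 1| ∧ 4 * z * max |w 0| |w 1| ≤ j + 1 ∧
      |w 2| ≤ 4 * max |w 0| |w 1| ∧ min |w 0| |w 1| ≤ D) :
    (T.card : ℝ) ≤ 25 * j * (2 * D * z + 1) := by
  classical
  have hE : 0 ≤ (j + 1) / z := by positivity
  have h2 : ∀ w ∈ T, |w 2| ≤ (j + 1) / z := fun w hw => by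
    obtain ⟨-, a2, a3, -⟩ := h w hw
    rw [le_div_iff₀ hz]
    nlinarith
  have hlo : ∀ w ∈ T, j / (4 * z) ≤ max |w 0| |w 1| := fun w hw => by
    rw [div_le_iff₀ (by positivity)]
    linarith [(h w hw).1]
  have hhi : ∀ w ∈ T, max |w 0| |w 1| ≤ j / (4 * z) + 1 / (4 * z) := fun w hw => by
    rw [← add_div, le_div_iff₀ (by positivity)]
    linarith [(h w hw).2.1]
  have c1 := trivn_box0 (T.filter fun w => |w 1| ≤ |w 0| ∧ 0 ≤ w 0) z (j / (4 * z)) D _ hz hD hE
    (trivn_sub _ _ _ (filter_subset _ _) hs) fun w hw => by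
      obtain ⟨hw, p1, p2⟩ := mem_filter.mp hw
      have q1 := hlo w hw
      have q2 := hhi w hw
      have q3 := (h w hw).2.2.2
      rw [max_eq_left p1, abs_of_nonneg p2] at q1 q2
      rw [min_eq_right p1] at q3
      exact ⟨q1, q2, q3, h2 w hw⟩
  have c2 := trivn_box0 (T.filter fun w => |w 1| ≤ |w 0| ∧ w 0 ≤ 0) z
    (-(j / (4 * z) + 1 / (4 * z))) D _ hz hD hE
    (trivn_sub _ _ _ (filter_subset _ _) hs) fun w hw => by
      obtain ⟨hw, p1, p2⟩ := mem_filter.mp hw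
      have q1 := hlo w hw
      have q2 := hhi w hw
      have q3 := (h w hw).2.2.2
      rw [max_eq_left p1, abs_of_nonpos p2] at q1 q2
      rw [min_eq_right p1] at q3
      exact ⟨by linarith, by linarith, q3, h2 w hw⟩
  have c3 := trivn_box1 (T.filter fun w => |w 0| ≤ |w 1| ∧ 0 ≤ w 1) z (j / (4 * z)) D _ hz hD hE
    (trivn_sub _ _ _ (filter_subset _ _) hs) fun w hw => by
      obtain ⟨hw, p1, p2⟩ := mem_filter.mp hw
      have q1 := hlo w hw
      have q2 := hhi w hw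
      have q3 := (h w hw).2.2.2
      rw [max_eq_right p1, abs_of_nonneg p2] at q1 q2
      rw [min_eq_left p1] at q3
      exact ⟨q1, q2, q3, h2 w hw⟩
  have c4 := trivn_box1 (T.filter fun w => |w 0| ≤ |w 1| ∧ w 1 ≤ 0) z
    (-(j / (4 * z) + 1 / (4 * z))) D _ hz hD hE
    (trivn_sub _ _ _ (filter_subset _ _) hs) fun w hw => by
      obtain ⟨hw, p1, p2⟩ := mem_filter.mp hw
      have q1 := hlo w hw
      have q2 := hhi w hw
      have q3 := (h w hw).2.2.2
      rw [max_eq_right p1, abs_of_nonpos p2] at q1 q2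
      rw [min_eq_left p1] at q3
      exact ⟨by linarith, by linarith, q3, h2 w hw⟩
  have hU : T ⊆ ((T.filter fun w => |w 1| ≤ |w 0| ∧ 0 ≤ w 0) ∪
      (T.filter fun w => |w 1| ≤ |w 0| ∧ w 0 ≤ 0)) ∪
      ((T.filter fun w => |w 0| ≤ |w 1| ∧ 0 ≤ w 1) ∪
      (T.filter fun w => |w 0| ≤ |w 1| ∧ w 1 ≤ 0)) := by
    intro w hw
    simp only [mem_union, mem_filter]
    rcases le_total |w 1| |w 0| with p | p
    · rcases le_total 0 (w 0) with q | q
      · exact Or.inl (Or.inl ⟨hw, p, q⟩)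
      · exact Or.inl (Or.inr ⟨hw, p, q⟩)
    · rcases le_total 0 (w 1) with q | q
      · exact Or.inr (Or.inl ⟨hw, p, q⟩)
      · exact Or.inr (Or.inr ⟨hw, p, q⟩)
  have hc := (card_le_card hU).trans ((card_union_le _ _).trans
    (add_le_add (card_union_le _ _) (card_union_le _ _)))
  have hc' : (T.card : ℝ) ≤ ((T.filter fun w => |w 1| ≤ |w 0| ∧ 0 ≤ w 0).card +
      (T.filter fun w => |w 1| ≤ |w 0| ∧ w 0 ≤ 0).card) +
      ((T.filter fun w => |w 0| ≤ |w 1| ∧ 0 ≤ w 1).card +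
      (T.filter fun w => |w 0| ≤ |w 1| ∧ w 1 ≤ 0).card) := by exact_mod_cast hc
  have e : 2 * ((j + 1) / z) * z + 1 = 2 * j + 3 := by
    field_simp
    ring
  rw [e] at c1 c2 c3 c4
  have hP : 0 ≤ 2 * D * z + 1 := by positivity
  have := mul_le_mul_of_nonneg_left (show 2 * j + 3 ≤ 5 * j by linarith) hP
  linarith

theorem triv_near (S : Finset V3) (z H L V : ℝ) (hz : 1 ≤ z) (hH : 0 ≤ H) (hL : 0 < L) (hV : 0 < V)
    (hs : SepV S (1 / z)) (h0 : ∀ w ∈ S, ∃ k, 1 / z < |w k|)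
    (hb : ∀ w ∈ S, |w 0| ≤ H ∧ |w 1| ≤ H ∧ |w 2| ≤ 4 * max |w 0| |w 1| ∧ min |w 0| |w 1| ≤ H / L)
    (X F : Set ℝ) (hX : MeasurableSet X) (hF : MeasurableSet F) (hX1 : X ⊆ Set.Icc 0 1)
    (hF1 : F ⊆ Set.Icc 0 1) :
    ∑ w ∈ S, ∫ x in X, ∫ y in F, 1 / (max 1 (V * |w 0 * x + w 1 * y + w 2|)) ^ 2 ≤
      2560 * z ^ 2 * H * (2 * H * z / L + 1) / V := by
  classical
  have _hX := hX
  have _hF := hF
  have hz0 : 0 < z := by linarith
  have hpi := Real.pi_pos
  have hpi' : Real.pi ≤ 3.2 := by linarith [Real.pi_lt_d2]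
  let J : V3 → ℕ := fun w => ⌊4 * z * max |w 0| |w 1|⌋₊
  have hM0 : ∀ w : V3, 0 ≤ max |w 0| |w 1| := fun w => le_max_of_le_left (abs_nonneg _)
  have hone : ∀ w ∈ S, 1 ≤ 4 * z * max |w 0| |w 1| := fun w hw => by
    obtain ⟨k, hk⟩ := h0 w hw
    have hk' : |w k| ≤ 4 * max |w 0| |w 1| := by
      have m0 := hM0 w
      have m1 : |w 0| ≤ max |w 0| |w 1| := le_max_left _ _
      have m2 : |w 1| ≤ max |w 0| |w 1| := le_max_right _ _
      fin_cases k
      · show |w 0| ≤ _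
        linarith
      · show |w 1| ≤ _
        linarith
      · exact (hb w hw).2.2.1
    rw [div_lt_iff₀ hz0] at hk
    nlinarith
  have hJ : ∀ w ∈ S, J w ∈ Icc 1 ⌊4 * z * H⌋₊ := fun w hw => by
    rw [mem_Icc]
    refine ⟨Nat.le_floor (by simpa using hone w hw), Nat.floor_le_floor ?_⟩
    exact mul_le_mul_of_nonneg_left (max_le (hb w hw).1 (hb w hw).2.1) (by positivity)
  have hP : 0 ≤ 2 * H * z / L + 1 := by positivity
  rw [← sum_fiberwise_of_maps_to hJ]
  have key : ∀ j ∈ Icc 1 ⌊4 * z * H⌋₊, ∑ w ∈ S.filter (fun w => J w = j),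
      ∫ x in X, ∫ y in F, 1 / (max 1 (V * |w 0 * x + w 1 * y + w 2|)) ^ 2 ≤
      640 * z * (2 * H * z / L + 1) / V := by
    intro j hj
    have hj1 : (1 : ℝ) ≤ j := by exact_mod_cast (mem_Icc.mp hj).1
    have hfl : ∀ w ∈ S.filter (fun w => J w = j), (j : ℝ) ≤ 4 * z * max |w 0| |w 1| ∧
        4 * z * max |w 0| |w 1| ≤ j + 1 := fun w hw => by
      obtain ⟨-, e⟩ := mem_filter.mp hw
      rw [← e]
      exact ⟨Nat.floor_le (mul_nonneg (by positivity) (hM0 w)), (Nat.lt_floor_add_one _).le⟩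
    have hcard := trivn_shell (S.filter fun w => J w = j) z j (H / L) hz0 (by positivity) hj1
      (trivn_sub _ _ _ (filter_subset _ _) hs) fun w hw =>
        ⟨(hfl w hw).1, (hfl w hw).2, (hb w (mem_filter.mp hw).1).2.2⟩
    have hterm : ∀ w ∈ S.filter (fun w => J w = j),
        ∫ x in X, ∫ y in F, 1 / (max 1 (V * |w 0 * x + w 1 * y + w 2|)) ^ 2 ≤
        25.6 * z / (V * j) := fun w hw => by
      have a1 := (hfl w hw).1
      have hM : 0 < max |w 0| |w 1| := by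
        by_contra hn
        have : max |w 0| |w 1| = 0 := le_antisymm (not_lt.mp hn) (hM0 w)
        rw [this] at a1
        linarith
      refine (trivn_two V _ _ _ hV hM X F hX1 hF1).trans ?_
      rw [div_le_div_iff₀ (by positivity) (by positivity)]
      have b1 : 2 * Real.pi * j ≤ 6.4 * (4 * z * max |w 0| |w 1|) :=
        mul_le_mul (by linarith) a1 (by positivity) (by norm_num)
      nlinarith
    refine (sum_le_card_nsmul _ _ _ hterm).trans ?_
    rw [nsmul_eq_mul]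
    refine (mul_le_mul_of_nonneg_right hcard (by positivity)).trans (le_of_eq ?_)
    field_simp
    ring
  refine (sum_le_card_nsmul _ _ _ key).trans ?_
  rw [nsmul_eq_mul, Nat.card_Icc, Nat.add_sub_cancel]
  refine (mul_le_mul_of_nonneg_right (Nat.floor_le (by positivity : 0 ≤ 4 * z * H))
    (by positivity)).trans (le_of_eq ?_)
  ring

end Pool.Agent.Lib.MP_e56372_nt.Dim
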