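import Pool.Agent.Lib.MP_e56372_nt.Dim.Defs3
import Pool.Agent.Lib.MP_e56372_nt.Dim.Bas
import Pool.Agent.Lib.MP_e56372_nt.Dim.Bal
import Pool.Agent.Lib.MP_e56372_nt.Dim.BoxC
import Pool.Agent.Lib.MP_e56372_nt.Dim.TrivF
import Pool.Agent.Lib.MP_e56372_nt.Dim.TrivN

set_option autoImplicit false
open MeasureTheory Filter Topology Finset

namespace Pool.Agent.Lib.MP_e56372_nt.Dim
open Pool.Agent.Lib.MP_e56372_nt

theorem first_int (G : ℝ → ℝ → ℝ) (hG : Continuous fun p : ℝ × ℝ => G p.1 p.2) (X F : Set ℝ)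
    (hX1 : X ⊆ Set.Icc 0 1) (hF1 : F ⊆ Set.Icc 0 1) :
    Integrable (fun p : ℝ × ℝ => G p.1 p.2) ((volume.restrict X).prod (volume.restrict F)) := by
  rw [Measure.prod_restrict]
  have h : IntegrableOn (fun p : ℝ × ℝ => G p.1 p.2) (Set.Icc (0 : ℝ) 1 ×ˢ Set.Icc (0 : ℝ) 1)
      (volume.prod volume) :=
    hG.continuousOn.integrableOn_compact (isCompact_Icc.prod isCompact_Icc)
  exact h.mono_set (Set.prod_mono hX1 hF1)

theorem first_eq (G : ℝ → ℝ → ℝ) (hG : Continuous fun p : ℝ × ℝ => G p.1 p.2) (X F : Set ℝ)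
    (hX1 : X ⊆ Set.Icc 0 1) (hF1 : F ⊆ Set.Icc 0 1) :
    ∫ x in X, ∫ y in F, G x y =
      ∫ p : ℝ × ℝ, G p.1 p.2 ∂((volume.restrict X).prod (volume.restrict F)) :=
  (integral_prod _ (first_int G hG X F hX1 hF1)).symm

theorem first_sum {ι : Type} (W : Finset ι) (c : ι → ℝ) (G : ι → ℝ → ℝ → ℝ)
    (hG : ∀ j, Continuous fun p : ℝ × ℝ => G j p.1 p.2) (X F : Set ℝ)
    (hX1 : X ⊆ Set.Icc 0 1) (hF1 : F ⊆ Set.Icc 0 1) :
    ∫ x in X, ∫ y in F, ∑ j ∈ W, c j * G j x y = ∑ j ∈ W, c j * ∫ x in X, ∫ y in F, G j x y := by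
  rw [first_eq (fun x y => ∑ j ∈ W, c j * G j x y)
    (continuous_finsetSum _ fun j _ => continuous_const.mul (hG j)) X F hX1 hF1,
    integral_finsetSum _ fun j _ => (first_int (G j) (hG j) X F hX1 hF1).const_mul (c j)]
  refine sum_congr rfl fun j _ => ?_
  rw [integral_const_mul, first_eq (G j) (hG j) X F hX1 hF1]

theorem first_mono (G G' : ℝ → ℝ → ℝ) (hG : Continuous fun p : ℝ × ℝ => G p.1 p.2)
    (hG' : Continuous fun p : ℝ × ℝ => G' p.1 p.2) (k : ℝ) (X F : Set ℝ) (hX : MeasurableSet X)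
    (hF : MeasurableSet F) (hX1 : X ⊆ Set.Icc 0 1) (hF1 : F ⊆ Set.Icc 0 1)
    (h : ∀ x ∈ Set.Icc (0 : ℝ) 1, ∀ y ∈ Set.Icc (0 : ℝ) 1, |G x y| ≤ k * G' x y) :
    |∫ x in X, ∫ y in F, G x y| ≤ k * ∫ x in X, ∫ y in F, G' x y := by
  rw [first_eq G hG X F hX1 hF1, first_eq G' hG' X F hX1 hF1, ← integral_const_mul,
    ← Real.norm_eq_abs]
  refine norm_integral_le_of_norm_le ((first_int G' hG' X F hX1 hF1).const_mul k) ?_
  rw [Measure.prod_restrict]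
  exact ae_restrict_of_forall_mem (hX.prod hF) fun p hp => h _ (hX1 hp.1) _ (hF1 hp.2)

theorem first_psi (V Z u : ℝ) (Ψ : ℝ → ℝ) (hΨ : Psi (V * Z) Ψ) (hV : 0 < V) (hZ : 0 < Z)
    (hu : |u| ≤ 3 / 4 * Z) : |Ψ (u / Z)| ≤ 3 * (1 / (max 1 (V * |u|)) ^ 2) := by
  refine (hΨ.bnd _).trans ?_
  have h1 : |u / Z| ≤ 3 / 4 := by rw [abs_div, abs_of_pos hZ, div_le_iff₀ hZ]; exact hu
  have h2 : |u / Z| / 3 ≤ nd (u / Z) := by
    unfold nd
    by_cases h0 : round (u / Z) = 0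
    · rw [h0]; have := abs_nonneg (u / Z); simp only [Int.cast_zero, sub_zero]; linarith
    · have h3 : (1 : ℝ) ≤ |((round (u / Z) : ℤ) : ℝ)| := by exact_mod_cast Int.one_le_abs h0
      have h4 := abs_sub_abs_le_abs_sub ((round (u / Z) : ℤ) : ℝ) (u / Z)
      rw [abs_sub_comm] at h4
      linarith
  have h3 : 2 / 3 * (V * |u|) ≤ 2 * (V * Z) * nd (u / Z) := by
    calc 2 / 3 * (V * |u|) = 2 * (V * Z) * (|u / Z| / 3) := by
          rw [abs_div, abs_of_pos hZ]; field_simp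
      _ ≤ _ := by gcongr
  have h4 : 2 / 3 * max 1 (V * |u|) ≤ max 1 (2 * (V * Z) * nd (u / Z)) := by
    rcases le_total 1 (V * |u|) with h | h
    · rw [max_eq_right h]; exact h3.trans (le_max_right _ _)
    · rw [max_eq_left h]; exact le_trans (by norm_num) (le_max_left _ _)
  have h5 : (0 : ℝ) < max 1 (V * |u|) := lt_of_lt_of_le one_pos (le_max_left _ _)
  calc 1 / (max 1 (2 * (V * Z) * nd (u / Z))) ^ 2 ≤ 1 / (2 / 3 * max 1 (V * |u|)) ^ 2 := by gcongr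
    _ = 9 / 4 * (1 / (max 1 (V * |u|)) ^ 2) := by field_simp; norm_num
    _ ≤ _ := by gcongr; norm_num

theorem first_triv {ι : Type} (W : Finset ι) (w : ι → V3) (c : ι → ℝ) (V Z : ℝ) (Ψ : ℝ → ℝ)
    (hΨ : Psi (V * Z) Ψ) (hV : 0 < V) (hZ : 0 < Z) (hinj : Set.InjOn w W)
    (hc : ∀ j ∈ W, |c j| ≤ 1) (hw : ∀ j ∈ W, |w j 0| + |w j 1| + |w j 2| ≤ 3 / 4 * Z)
    (X F : Set ℝ) (hX : MeasurableSet X) (hF : MeasurableSet F) (hX1 : X ⊆ Set.Icc 0 1)
    (hF1 : F ⊆ Set.Icc 0 1) [DecidableEq V3] :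
    |∑ j ∈ W, c j * ∫ x in X, ∫ y in F, Ψ ((w j 0 * x + w j 1 * y + w j 2) / Z)| ≤
      3 * ∑ v ∈ W.image w, ∫ x in X, ∫ y in F, 1 / (max 1 (V * |v 0 * x + v 1 * y + v 2|)) ^ 2 := by
  rw [sum_image hinj, mul_sum]
  refine (abs_sum_le_sum_abs _ _).trans (sum_le_sum fun j hj => ?_)
  rw [abs_mul]
  refine (mul_le_of_le_one_left (abs_nonneg _) (hc j hj)).trans ?_
  refine first_mono (fun x y => Ψ ((w j 0 * x + w j 1 * y + w j 2) / Z))
    (fun x y => 1 / (max 1 (V * |w j 0 * x + w j 1 * y + w j 2|)) ^ 2)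
    (hΨ.cont.comp (by fun_prop)) ?_ 3 X F hX hF hX1 hF1 fun x hx y hy => ?_
  · refine continuous_const.div (by fun_prop) fun p => ?_
    exact pow_ne_zero _ (lt_of_lt_of_le one_pos (le_max_left _ _)).ne'
  · refine first_psi V Z _ Ψ hΨ hV hZ (le_trans ?_ (hw j hj))
    refine (abs_add_three _ _ _).trans ?_
    rw [abs_mul, abs_mul, abs_of_nonneg hx.1, abs_of_nonneg hy.1]
    have h1 := mul_le_of_le_one_right (abs_nonneg (w j 0)) hx.2
    have h2 := mul_le_of_le_one_right (abs_nonneg (w j 1)) hy.2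
    linarith

theorem first_numF (z m U Y V : ℝ) (hm : 1 ≤ m) (hz : 2 ^ 30 ≤ z) (hmz : m ≤ z) (hY : 1 ≤ Y)
    (hU : Y * z ^ 20 ≤ U) (hV : 4 * V * Y * z ^ 2 = U ^ 2) :
    3 * (32 * z ^ 2 * (2 * (m * U) * z + 1) ^ 2 / V ^ 2) ≤ 1 / (24 * m ^ 2 * z ^ 6) := by
  have z1 : 1 ≤ z := le_trans (by norm_num) hz
  have z0 : 0 < z := by linarith
  have U1 : 1 ≤ U := le_trans (one_le_mul_of_one_le_of_one_le hY (one_le_pow₀ z1)) hU
  have U0 : 0 < U := by linarith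
  have Y0 : 0 < Y := by linarith
  have m0 : 0 < m := by linarith
  have eV : V = U ^ 2 / (4 * Y * z ^ 2) := by rw [← hV]; field_simp
  have h1 : 2 * (m * U) * z + 1 ≤ 3 * (m * U * z) := by
    have := one_le_mul_of_one_le_of_one_le (one_le_mul_of_one_le_of_one_le hm U1) z1
    linarith
  calc 3 * (32 * z ^ 2 * (2 * (m * U) * z + 1) ^ 2 / V ^ 2)
      ≤ 3 * (32 * z ^ 2 * (3 * (m * U * z)) ^ 2 / V ^ 2) := by gcongr
    _ = 13824 * m ^ 2 * Y ^ 2 * z ^ 8 / U ^ 2 := by rw [eV]; field_simp; norm_num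
    _ ≤ 13824 * m ^ 2 * Y ^ 2 * z ^ 8 / (Y * z ^ 20) ^ 2 := by gcongr
    _ = 1 / (24 * m ^ 2 * z ^ 6) * (331776 * m ^ 4 / z ^ 26) := by field_simp; norm_num
    _ ≤ _ := by
      refine mul_le_of_le_one_right (by positivity) ?_
      rw [div_le_one (by positivity)]
      calc 331776 * m ^ 4 ≤ z * z ^ 4 := by gcongr; linarith
        _ = z ^ 5 := by ring
        _ ≤ z ^ 26 := pow_le_pow_right₀ z1 (by norm_num)

theorem first_numN (z m U Y V : ℝ) (hm : 1 ≤ m) (hz : 2 ^ 30 ≤ z) (hmz : m ≤ z) (hY : 1 ≤ Y)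
    (hU : Y * z ^ 20 ≤ U) (hV : 4 * V * Y * z ^ 2 = U ^ 2) :
    3 * (2560 * z ^ 2 * (m * U) * (2 * (m * U) * z / (Y * z ^ 16) + 1) / V) ≤
      1 / (24 * m ^ 2 * z ^ 6) := by
  have z1 : 1 ≤ z := le_trans (by norm_num) hz
  have z0 : 0 < z := by linarith
  have U1 : 1 ≤ U := le_trans (one_le_mul_of_one_le_of_one_le hY (one_le_pow₀ z1)) hU
  have U0 : 0 < U := by linarith
  have Y0 : 0 < Y := by linarith
  have m0 : 0 < m := by linarith
  have eV : V = U ^ 2 / (4 * Y * z ^ 2) := by rw [← hV]; field_simp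
  have V0 : 0 < V := by rw [eV]; positivity
  have h0 : 1 ≤ m * U * z / (Y * z ^ 16) := by
    rw [le_div_iff₀ (by positivity), one_mul]
    calc Y * z ^ 16 ≤ Y * z ^ 20 := by gcongr; norm_num
      _ ≤ U := hU
      _ = 1 * U * 1 := by ring
      _ ≤ m * U * z := by gcongr
  have h1 : 2 * (m * U) * z / (Y * z ^ 16) + 1 ≤ 3 * (m * U * z / (Y * z ^ 16)) := by
    have : 2 * (m * U) * z / (Y * z ^ 16) = 2 * (m * U * z / (Y * z ^ 16)) := by ring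
    linarith
  calc 3 * (2560 * z ^ 2 * (m * U) * (2 * (m * U) * z / (Y * z ^ 16) + 1) / V)
      ≤ 3 * (2560 * z ^ 2 * (m * U) * (3 * (m * U * z / (Y * z ^ 16))) / V) := by gcongr
    _ = 1 / (24 * m ^ 2 * z ^ 6) * (2211840 * m ^ 4 / z ^ 5) := by rw [eV]; field_simp; norm_num
    _ ≤ _ := by
      refine mul_le_of_le_one_right (by positivity) ?_
      rw [div_le_one (by positivity)]
      calc 2211840 * m ^ 4 ≤ z * z ^ 4 := by gcongr; linarith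
        _ = z ^ 5 := by ring

theorem first_numB (z m I b : ℝ) (hm : 1 ≤ m) (hz : 2 ^ 30 ≤ z) (hmz : m ≤ z) (hI0 : 0 ≤ I)
    (hI : I ≤ z ^ 2) (hb : z ^ 5 ≤ b) : 12 * I ^ 2 / b ^ 3 ≤ 1 / (24 * m ^ 2 * z ^ 6) := by
  have z1 : 1 ≤ z := le_trans (by norm_num) hz
  have z0 : 0 < z := by linarith
  have m0 : 0 < m := by linarith
  calc 12 * I ^ 2 / b ^ 3 ≤ 12 * (z ^ 2) ^ 2 / (z ^ 5) ^ 3 := by gcongr
    _ = 1 / (24 * m ^ 2 * z ^ 6) * (288 * m ^ 2 / z ^ 5) := by field_simp; norm_num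
    _ ≤ _ := by
      refine mul_le_of_le_one_right (by positivity) ?_
      rw [div_le_one (by positivity)]
      calc 288 * m ^ 2 ≤ z * z ^ 2 := by gcongr; linarith
        _ = z ^ 3 := by ring
        _ ≤ z ^ 5 := pow_le_pow_right₀ z1 (by norm_num)

theorem first_err {ι : Type} (b I : ℕ) (z m U Y V Z : ℝ) (hm : 1 ≤ m) (hz : 2 ^ 30 ≤ z)
    (hmz : m ≤ z) (hY : 1 ≤ Y) (hU : Y * z ^ 20 ≤ U) (hV : 4 * V * Y * z ^ 2 = U ^ 2)
    (eb : (b : ℝ) = Y * z ^ 60) (eU : (b : ℝ) ^ 400 = U * z ^ 13) (eI : (2 : ℝ) ^ I = Y * z ^ 16)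
    (hI : (I : ℝ) ≤ z ^ 2) (hZ : 32 * (b : ℝ) ^ 400 ≤ Z) (e f g : V3) (hfr : Frame (z ^ 3) e f g)
    (Ψ : ℝ → ℝ) (hΨ : Psi (V * Z) Ψ) (W : Finset ι) (w : ι → V3) (c : ι → ℝ)
    (hc : ∀ j ∈ W, |c j| ≤ 1)
    (hlat : ∀ j ∈ W, ∃ i n m : ℤ, ∀ k, |det3 e f g| * w j k = cmb e f g i n m k)
    (hsep : ∀ i ∈ W, ∀ j ∈ W, i ≠ j → ∃ k, 1 / z < |w i k - w j k|)
    (h0 : ∀ j ∈ W, ∃ k, 1 / z < |w j k|)
    (hw : ∀ j ∈ W, |w j 0| ≤ m * U ∧ |w j 1| ≤ m * U ∧ |w j 2| ≤ Z / 2)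
    (X F : Set ℝ) (hX : MeasurableSet X) (hF : MeasurableSet F) (hX1 : X ⊆ Set.Icc 0 1)
    (hF1 : F ⊆ Set.Icc 0 1) :
    |∑ j ∈ W, c j * ∫ x in X, ∫ y in F, Ψ ((w j 0 * x + w j 1 * y + w j 2) / Z)| ≤
      1 / (8 * m ^ 2 * z ^ 6) := by
  classical
  have z1 : 1 ≤ z := le_trans (by norm_num) hz
  have z0 : 0 < z := by linarith
  have U1 : 1 ≤ U := le_trans (one_le_mul_of_one_le_of_one_le hY (one_le_pow₀ z1)) hU
  have U0 : 0 < U := by linarith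
  have Y0 : 0 < Y := by linarith
  have m0 : 0 < m := by linarith
  have eV : V = U ^ 2 / (4 * Y * z ^ 2) := by rw [← hV]; field_simp
  have V0 : 0 < V := by rw [eV]; positivity
  have bz : ∀ k, k ≤ 60 → z ^ k ≤ (b : ℝ) := fun k hk => by
    rw [eb]
    exact (pow_le_pow_right₀ z1 hk).trans (le_mul_of_one_le_left (by positivity) hY)
  have b0 : (0 : ℝ) < b := lt_of_lt_of_le (by positivity) (bz 0 (by norm_num))
  have hb : 2 ^ 30 ≤ b := by
    have : (2 : ℝ) ^ 30 ≤ b := hz.trans (by simpa using bz 1 (by norm_num))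
    exact_mod_cast this
  have Z0 : 0 < Z := lt_of_lt_of_le (by positivity) hZ
  have hD : |det3 e f g| ≤ 6 * z ^ 9 :=
    (cov_det_le e f g _ _ _ hfr.he hfr.hf hfr.hg).trans_eq (by ring)
  have hD1 := hfr.hdet
  have hDb : |det3 e f g| ≤ b := by
    refine hD.trans (le_trans ?_ (bz 10 (by norm_num)))
    calc 6 * z ^ 9 ≤ z * z ^ 9 := by gcongr; linarith
      _ = z ^ 10 := by ring
  have hH : 2 * |det3 e f g| * (m * U) ≤ (b : ℝ) ^ 400 := by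
    rw [eU]
    calc 2 * |det3 e f g| * (m * U) ≤ 2 * (6 * z ^ 9) * (z * U) := by gcongr
      _ = U * (12 * z ^ 10) := by ring
      _ ≤ U * (z * z ^ 10) := by gcongr; linarith
      _ = U * z ^ 11 := by ring
      _ ≤ U * z ^ 13 := by gcongr; norm_num
  have hH2 : 2 * (m * U) ≤ (b : ℝ) ^ 400 := by
    refine le_trans ?_ hH
    have : 0 < m * U := by positivity
    nlinarith
  have hH' : 3 * z ^ 3 * (b : ℝ) ^ 400 * 2 ^ I ≤ b * (m * U) := by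
    rw [eU, eI, eb]
    calc 3 * z ^ 3 * (U * z ^ 13) * (Y * z ^ 16) = Y * U * (3 * z ^ 32) := by ring
      _ ≤ Y * U * (z * z ^ 32) := by gcongr; linarith
      _ = Y * U * (z ^ 33 * 1) := by ring
      _ ≤ Y * U * (z ^ 60 * m) := by gcongr; norm_num
      _ = _ := by ring
  have e800 : (b : ℝ) ^ 800 = U ^ 2 * z ^ 26 := by
    rw [show 800 = 400 * 2 by norm_num, pow_mul, eU]; ring
  have hV2 : V ≤ (b : ℝ) ^ 800 := by
    rw [e800, eV]
    refine (div_le_self (by positivity) ?_).trans (le_mul_of_one_le_right (by positivity)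
      (one_le_pow₀ z1))
    exact one_le_mul_of_one_le_of_one_le (by linarith) (one_le_pow₀ z1)
  have hV1 : (b : ℝ) ^ 799 ≤ V := by
    refine le_of_mul_le_mul_right ?_ b0
    rw [← pow_succ, e800, eV, eb]
    calc U ^ 2 * z ^ 26 = U ^ 2 * z ^ 26 * 1 := by ring
      _ ≤ U ^ 2 * z ^ 26 * (z ^ 32 / 4) := by
        gcongr
        rw [le_div_iff₀ (by norm_num)]
        calc 1 * 4 ≤ z ^ 1 := by linarith
          _ ≤ _ := pow_le_pow_right₀ z1 (by norm_num)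
      _ = _ := by field_simp
  have hinj : Set.InjOn w W := fun i hi j hj e => by
    by_contra hne
    obtain ⟨k, hk⟩ := hsep i hi j hj hne
    rw [e, sub_self, abs_zero] at hk
    exact absurd hk (not_lt.2 (by positivity))
  have hw3 : ∀ j ∈ W, |w j 0| + |w j 1| + |w j 2| ≤ 3 / 4 * Z := fun j hj => by
    obtain ⟨a1, a2, a3⟩ := hw j hj
    have : (0 : ℝ) < (b : ℝ) ^ 400 := by positivity
    linarith
  have hS : ∀ W' ⊆ W, SepV (W'.image w) (1 / z) := fun W' hW u hu v hv hne => by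
    obtain ⟨i, hi, rfl⟩ := mem_image.1 hu
    obtain ⟨j, hj, rfl⟩ := mem_image.1 hv
    exact hsep i (hW hi) j (hW hj) fun e => hne (by rw [e])
  have hS0 : ∀ W' ⊆ W, ∀ u ∈ W'.image w, ∃ k, 1 / z < |u k| := fun W' hW u hu => by
    obtain ⟨i, hi, rfl⟩ := mem_image.1 hu
    exact h0 i (hW hi)
  have tr := fun W' (hW : W' ⊆ W) => first_triv W' w c V Z Ψ hΨ V0 Z0 (hinj.mono hW)
    (fun j hj => hc j (hW hj)) (fun j hj => hw3 j (hW hj)) X F hX hF hX1 hF1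
  obtain ⟨W1, hW1⟩ : ∃ W1, W1 = W.filter (fun j => 4 * max |w j 0| |w j 1| ≤ |w j 2|) := ⟨_, rfl⟩
  obtain ⟨W2, hW2⟩ : ∃ W2, W2 = W.filter (fun j => ¬ 4 * max |w j 0| |w j 1| ≤ |w j 2|) := ⟨_, rfl⟩
  obtain ⟨W3, hW3⟩ : ∃ W3, W3 = W2.filter (fun j => min |w j 0| |w j 1| ≤ m * U / 2 ^ I) := ⟨_, rfl⟩
  obtain ⟨W4, hW4⟩ : ∃ W4, W4 = W2.filter (fun j => ¬ min |w j 0| |w j 1| ≤ m * U / 2 ^ I) :=
    ⟨_, rfl⟩
  have s1 : W1 ⊆ W := by rw [hW1]; exact filter_subset _ _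
  have s2 : W2 ⊆ W := by rw [hW2]; exact filter_subset _ _
  have s3 : W3 ⊆ W := by rw [hW3]; exact (filter_subset _ _).trans s2
  have s4 : W4 ⊆ W := by rw [hW4]; exact (filter_subset _ _).trans s2
  have t1 := (tr W1 s1).trans ((mul_le_mul_of_nonneg_left (triv_far (W1.image w) z (m * U) V z1
    (by positivity) V0 (hS W1 s1) (hS0 W1 s1) (fun u hu => by
      obtain ⟨i, hi, rfl⟩ := mem_image.1 hu
      refine ⟨(hw i (s1 hi)).1, (hw i (s1 hi)).2.1, ?_⟩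
      rw [hW1] at hi
      exact (mem_filter.1 hi).2) X F hX hF hX1 hF1) (by norm_num)).trans
    (first_numF z m U Y V hm hz hmz hY hU hV))
  have t3 := (tr W3 s3).trans ((mul_le_mul_of_nonneg_left (triv_near (W3.image w) z (m * U)
    (Y * z ^ 16) V z1 (by positivity) (by positivity) V0 (hS W3 s3) (hS0 W3 s3) (fun u hu => by
      obtain ⟨i, hi, rfl⟩ := mem_image.1 hu
      refine ⟨(hw i (s3 hi)).1, (hw i (s3 hi)).2.1, ?_⟩
      rw [hW3, hW2] at hi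
      rw [← eI]
      exact ⟨(not_le.1 (mem_filter.1 (mem_filter.1 hi).1).2).le, (mem_filter.1 hi).2⟩)
      X F hX hF hX1 hF1) (by norm_num)).trans (first_numN z m U Y V hm hz hmz hY hU hV))
  have t4 := (balanced b I hb (z ^ 3) |det3 e f g| V Z (m * U) e f g hfr Ψ hΨ hD1 hDb hV1 hV2
    (le_trans (by gcongr; norm_num) hZ) hH hH' W4 w c (hinj.mono s4) (fun j hj => hc j (s4 hj))
    (fun j hj => hlat j (s4 hj)) (fun i hi => by
      have a := hw i (s4 hi)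
      rw [hW4, hW2] at hi
      have a1 := not_le.1 (mem_filter.1 hi).2
      exact ⟨a1.trans_le (min_le_left _ _), a.1, a1.trans_le (min_le_right _ _), a.2.1,
        (not_le.1 (mem_filter.1 (mem_filter.1 hi).1).2).le⟩) X F hX hF hX1 hF1).trans
    (first_numB z m I b hm hz hmz (Nat.cast_nonneg _) hI (bz 5 (by norm_num)))
  rw [← sum_filter_add_sum_filter_not W (fun j => 4 * max |w j 0| |w j 1| ≤ |w j 2|), ← hW1, ← hW2,
    ← sum_filter_add_sum_filter_not W2 (fun j => min |w j 0| |w j 1| ≤ m * U / 2 ^ I), ← hW3, ← hW4,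
    ← add_assoc]
  refine (abs_add_three _ _ _).trans ((add_le_add (add_le_add t1 t3) t4).trans_eq ?_)
  field_simp
  norm_num

theorem first_sym {N : ℕ} {a : ℤ} (h : a ∈ Sym N) : |(a : ℝ)| ≤ N := by
  have h1 : |a| ≤ (N : ℤ) := abs_le.2 (mem_Icc.1 h)
  exact_mod_cast h1

theorem first (lam m s t u A B Q1 : ℕ) (hm : 24 ≤ m) (hlam : m + 30 ≤ lam)
    (hu : u + 13 * lam = 400 * ((m + 60) * lam)) (hst : 400 * ((m + 60) * lam) + 5 ≤ s + t)
    (hA : A = 2 ^ (u + s)) (hB : B = 2 ^ (u + t)) (hQ : 4 * Q1 * 2 ^ ((m + 2) * lam) = A * B)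
    (ξ ζ : ℝ) (hgood : ¬ Short ξ ζ s t lam) (cA cB : ℤ → ℝ) (h1 : Coef A m cA) (h2 : Coef B m cB)
    (Ψ : ℝ → ℝ) (hΨ : Psi Q1 Ψ) (X F : Set ℝ) (hX : MeasurableSet X) (hF : MeasurableSet F)
    (hX1 : X ⊆ Set.Icc 0 1) (hF1 : F ⊆ Set.Icc 0 1) (hXv : 1 / (8 : ℝ) ^ lam ≤ volume.real X)
    (hFv : 1 / (8 : ℝ) ^ lam ≤ volume.real F) :
    volume.real X * volume.real F / (8 * (m : ℝ) ^ 2 * A * B) ≤ ∫ x in X, ∫ y in F,
      Sf (m * A) (m * B) cA cB Ψ (ξ + x / 2 ^ (2 * s + t)) (ζ + y / 2 ^ (s + 2 * t)) := by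
  classical
  have k60 : (m + 60) * lam = m * lam + 60 * lam := by ring
  obtain ⟨a1, b1, r1, a2, b2, r2, a3, b3, r3, hfr⟩ :=
    frame_of_not_short ξ ζ s t lam (by omega) (by omega) hgood
  obtain ⟨z, hz⟩ : ∃ z : ℝ, z = 2 ^ lam := ⟨_, rfl⟩
  obtain ⟨Y, hY⟩ : ∃ Y : ℝ, Y = 2 ^ (m * lam) := ⟨_, rfl⟩
  obtain ⟨U, hU⟩ : ∃ U : ℝ, U = 2 ^ u := ⟨_, rfl⟩
  obtain ⟨S, hS⟩ : ∃ S : ℝ, S = 2 ^ s := ⟨_, rfl⟩
  obtain ⟨T, hT⟩ : ∃ T : ℝ, T = 2 ^ t := ⟨_, rfl⟩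
  have z0 : 0 < z := by rw [hz]; positivity
  have U0 : 0 < U := by rw [hU]; positivity
  have S0 : 0 < S := by rw [hS]; positivity
  have T0 : 0 < T := by rw [hT]; positivity
  have zk : ∀ k : ℕ, z ^ k = 2 ^ (k * lam) := fun k => by rw [hz, ← pow_mul, mul_comm]
  have e8 : (8 : ℝ) ^ lam = z ^ 3 := by rw [zk, pow_mul]; norm_num
  have eA : (A : ℝ) = U * S := by rw [hA, hU, hS]; push_cast; rw [pow_add]
  have eB : (B : ℝ) = U * T := by rw [hB, hU, hT]; push_cast; rw [pow_add]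
  have m1 : (1 : ℝ) ≤ m := by exact_mod_cast (by omega : 1 ≤ m)
  have hlz : (lam : ℝ) ≤ z := by rw [hz]; exact_mod_cast Nat.lt_two_pow_self.le
  have hz30 : (2 : ℝ) ^ 30 ≤ z := by rw [hz]; exact pow_le_pow_right₀ one_le_two (by omega)
  have hmz : (m : ℝ) ≤ z := le_trans (by exact_mod_cast (by omega : m ≤ lam)) hlz
  have Y1 : 1 ≤ Y := by rw [hY]; exact one_le_pow₀ one_le_two
  have hYU : Y * z ^ 20 ≤ U := by
    rw [hY, zk, hU, ← pow_add]; exact pow_le_pow_right₀ one_le_two (by omega)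
  have hQ' : 4 * (Q1 : ℝ) * (Y * z ^ 2) = U * S * (U * T) := by
    rw [← eA, ← eB, hY, zk, ← pow_add, ← add_mul]; exact_mod_cast hQ
  have hV : 4 * (Q1 / (S * T)) * Y * z ^ 2 = U ^ 2 := by
    field_simp; linarith
  have eb : ((2 ^ ((m + 60) * lam) : ℕ) : ℝ) = Y * z ^ 60 := by
    rw [hY, zk, ← pow_add, k60]; push_cast; rfl
  have eU : ((2 ^ ((m + 60) * lam) : ℕ) : ℝ) ^ 400 = U * z ^ 13 := by
    rw [hU, zk, ← pow_add, hu]; push_cast; rw [← pow_mul, mul_comm]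
  have eI : (2 : ℝ) ^ ((m + 16) * lam) = Y * z ^ 16 := by rw [hY, zk, ← pow_add, add_mul]
  have hI : (((m + 16) * lam : ℕ) : ℝ) ≤ z ^ 2 := by
    have : ((m + 16 : ℕ) : ℝ) ≤ z := le_trans (by exact_mod_cast (by omega : m + 16 ≤ lam)) hlz
    rw [Nat.cast_mul, sq]
    exact mul_le_mul this hlz (Nat.cast_nonneg _) z0.le
  have hZ : 32 * ((2 ^ ((m + 60) * lam) : ℕ) : ℝ) ^ 400 ≤ S * T := by
    rw [hS, hT, ← pow_add]
    refine le_trans (le_of_eq ?_) (pow_le_pow_right₀ one_le_two hst)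
    push_cast
    rw [← pow_mul, pow_add, mul_comm 400]; norm_num [mul_comm]
  have hΨ' : Psi (Q1 / (S * T) * (S * T)) Ψ := by rwa [div_mul_cancel₀ _ (by positivity)]
  obtain ⟨w, hw⟩ : ∃ w : ℤ × ℤ → V3,
      w = fun p => lat ξ ζ s t p.1 p.2 (-round (p.1 * ξ + p.2 * ζ)) := ⟨_, rfl⟩
  have w0 : ∀ p, w p 0 = p.1 / S := fun p => by rw [hw, hS, ← zpow_natCast]; rfl
  have w1 : ∀ p, w p 1 = p.2 / T := fun p => by rw [hw, hT, ← zpow_natCast]; rfl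
  have w2 : ∀ p, w p 2 = S * T * (p.1 * ξ + p.2 * ζ - round (p.1 * ξ + p.2 * ζ)) := fun p => by
    rw [hw, hS, hT, ← pow_add, ← zpow_natCast, Nat.cast_add, sub_eq_add_neg, ← Int.cast_neg]; rfl
  have ez : (2 : ℝ) ^ (-(lam : ℤ)) = 1 / z := by rw [zpow_neg, zpow_natCast, hz, one_div]
  have key : ∀ x y : ℝ, Sf (m * A) (m * B) cA cB Ψ (ξ + x / 2 ^ (2 * s + t))
      (ζ + y / 2 ^ (s + 2 * t)) = ∑ p ∈ Sym (m * A) ×ˢ Sym (m * B),
        cA p.1 * cB p.2 * Ψ ((w p 0 * x + w p 1 * y + w p 2) / (S * T)) := by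
    intro x y
    unfold Sf
    rw [sum_product]
    refine sum_congr rfl fun a _ => sum_congr rfl fun b _ => ?_
    rw [← hΨ.per ((w (a, b) 0 * x + w (a, b) 1 * y + w (a, b) 2) / (S * T)) (round (a * ξ + b * ζ)),
      w0, w1, w2]
    congr 2
    rw [show (2 : ℝ) ^ (2 * s + t) = S * S * T by rw [hS, hT]; ring,
      show (2 : ℝ) ^ (s + 2 * t) = S * T * T by rw [hS, hT]; ring]
    field_simp
    ring
  have h00 : ((0, 0) : ℤ × ℤ) ∈ Sym (m * A) ×ˢ Sym (m * B) := by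
    simp only [Sym, mem_product, mem_Icc, Left.neg_nonpos_iff, and_self]
    exact ⟨Int.natCast_nonneg _, Int.natCast_nonneg _⟩
  simp only [key]
  rw [first_sum _ (fun p : ℤ × ℤ => cA p.1 * cB p.2)
    (fun p x y => Ψ ((w p 0 * x + w p 1 * y + w p 2) / (S * T)))
    (fun p => hΨ.cont.comp (by fun_prop)) X F hX1 hF1, ← add_sum_erase _ _ h00]
  have A0 : (0 : ℝ) < A := by rw [eA]; positivity
  have B0 : (0 : ℝ) < B := by rw [eB]; positivity
  have err := first_err (2 ^ ((m + 60) * lam)) ((m + 16) * lam) z m U Y (Q1 / (S * T)) (S * T) m1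
    hz30 hmz Y1 hYU hV eb eU eI hI hZ _ _ _ (e8 ▸ hfr) Ψ hΨ'
    ((Sym (m * A) ×ˢ Sym (m * B)).erase (0, 0)) w (fun p => A * B * (cA p.1 * cB p.2))
    (fun p _ => by
      have c1 := h1.le p.1
      have c2 := h2.le p.2
      have c3 := h1.nonneg p.1
      have c4 := h2.nonneg p.2
      rw [abs_of_nonneg (by positivity)]
      calc (A : ℝ) * B * (cA p.1 * cB p.2) ≤ A * B * (1 / A * (1 / B)) := by gcongr
        _ = 1 := by field_simp)
    (fun p _ => by rw [hw]; exact cramer_int ξ ζ s t a1 b1 r1 a2 b2 r2 a3 b3 r3 _ _ _)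
    (fun p _ q _ hne => by
      rw [hw, ← ez]
      exact bas_sep hgood (by
        by_contra hc
        push Not at hc
        exact hne (Prod.ext hc.1 hc.2)))
    (fun p hp => by
      obtain ⟨k, hk⟩ := bas_sep hgood (a := p.1) (b := p.2) (r := -round (p.1 * ξ + p.2 * ζ))
        (a' := 0) (b' := 0) (r' := 0) (by
          by_contra hc
          push Not at hc
          exact (mem_erase.1 hp).1 (Prod.ext hc.1 hc.2))
      have e0 : lat ξ ζ s t 0 0 0 k = 0 := by fin_cases k <;> simp [lat]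
      rw [e0, sub_zero, ez] at hk
      exact ⟨k, by rw [hw]; exact hk⟩)
    (fun p hp => by
      obtain ⟨p1, p2⟩ := mem_product.1 (mem_erase.1 hp).2
      have q1 := first_sym p1
      have q2 := first_sym p2
      rw [Nat.cast_mul] at q1 q2
      rw [eA] at q1
      rw [eB] at q2
      rw [w0, w1, w2, abs_div, abs_div, abs_of_pos S0, abs_of_pos T0, div_le_iff₀ S0,
        div_le_iff₀ T0, abs_mul, abs_of_pos (mul_pos S0 T0)]
      refine ⟨by linarith, by linarith, ?_⟩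
      have := mul_le_mul_of_nonneg_left (abs_sub_round (p.1 * ξ + p.2 * ζ)) (mul_pos S0 T0).le
      linarith) X F hX hF hX1 hF1
  have e00 : ∫ x in X, ∫ y in F, Ψ ((w (0, 0) 0 * x + w (0, 0) 1 * y + w (0, 0) 2) / (S * T)) =
      volume.real X * volume.real F := by
    simp [w0, w1, w2, hΨ.zero, mul_comm]
  rw [e00]
  simp only [mul_assoc (A * B : ℝ), ← mul_sum] at err
  rw [abs_mul, abs_of_pos (mul_pos A0 B0), ← le_div_iff₀' (mul_pos A0 B0)] at err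
  have e1 := (abs_le.1 err).1
  have m0 : (0 : ℝ) < m := by linarith
  have hv : 1 / z ^ 6 ≤ volume.real X * volume.real F := by
    rw [e8] at hXv hFv
    calc 1 / z ^ 6 = 1 / z ^ 3 * (1 / z ^ 3) := by field_simp
      _ ≤ _ := mul_le_mul hXv hFv (by positivity) measureReal_nonneg
  have v0 : 0 ≤ volume.real X * volume.real F := le_trans (by positivity) hv
  have c0 : 1 / (2 * (m : ℝ) * A) * (1 / (2 * (m : ℝ) * B)) ≤ cA 0 * cB 0 :=
    mul_le_mul h1.zero h2.zero (by positivity) (h1.nonneg 0)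
  have f1 := mul_le_mul_of_nonneg_right c0 v0
  have f2 : 1 / (8 * (m : ℝ) ^ 2 * z ^ 6) / (A * B) ≤
      volume.real X * volume.real F / (8 * (m : ℝ) ^ 2 * A * B) := by
    calc 1 / (8 * (m : ℝ) ^ 2 * z ^ 6) / (A * B) = 1 / z ^ 6 / (8 * (m : ℝ) ^ 2 * A * B) := by
          field_simp
      _ ≤ _ := by gcongr
  have f3 : 1 / (2 * (m : ℝ) * A) * (1 / (2 * (m : ℝ) * B)) * (volume.real X * volume.real F) =
      2 * (volume.real X * volume.real F / (8 * (m : ℝ) ^ 2 * A * B)) := by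
    field_simp; ring
  simp only [mul_assoc] at e1 f1 f2 f3 ⊢
  linarith

end Pool.Agent.Lib.MP_e56372_nt.Dim
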