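import Pool.Agent.Lib.MP_e56372_nt.Dim.Kill

set_option autoImplicit false
open MeasureTheory Filter Topology Finset

namespace Pool.Agent.Lib.MP_e56372_nt.Dim
open Pool.Agent.Lib.MP_e56372_nt

theorem kint_ind (A : Set (ℝ × ℝ)) (s t : Set ℝ) (hs : MeasurableSet s) (ht : MeasurableSet t)
    (hs' : volume s ≠ ⊤) (ht' : volume t ≠ ⊤) (c : ℝ) (hc : 0 ≤ c) :
    ∫ p in A, (s ×ˢ t).indicator (fun _ => c) p ∂((volume : Measure ℝ).prod volume) ≤
      c * (volume.real s * volume.real t) := by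
  rw [integral_indicator_const c (hs.prod ht), smul_eq_mul, mul_comm, ← measureReal_prod_prod]
  refine mul_le_mul_of_nonneg_left ?_ hc
  refine ENNReal.toReal_mono ?_ (Measure.restrict_le_self _)
  rw [Measure.prod_prod]
  exact ENNReal.mul_ne_top hs' ht'

theorem kill_int {ι : Type} (R : ℕ) (hR : 0 < R) (X F : Finset ℕ) (hX : X ⊆ range R)
    (hF : F ⊆ range R) (Kd : Finset (ℕ × ℕ)) (S : ℝ → ℝ → ℝ)
    (hS : Continuous fun p : ℝ × ℝ => S p.1 p.2) (τ M : ℝ) (hM : 0 ≤ M) (J : Finset ι)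
    (x0 y0 r β : ι → ℝ) (hr : ∀ j ∈ J, 0 ≤ r j) (hβ : ∀ j ∈ J, 0 ≤ β j)
    (h : ∀ u ∈ X, ∀ v ∈ F, ∀ x y : ℝ, (u : ℝ) ≤ R * x → R * x < u + 1 → (v : ℝ) ≤ R * y →
      R * y < v + 1 → S x y ≤ τ ∨ ((u, v) ∈ Kd ∧ S x y ≤ M) ∨
        ∃ j ∈ J, |x - x0 j| ≤ r j ∧ |y - y0 j| ≤ r j ∧ S x y ≤ β j) (hτ : 0 ≤ τ) :
    ∫ x in kill_cells R X, ∫ y in kill_cells R F, S x y ≤
      τ * (X.card / R * (F.card / R)) + M * (Kd.card / (R : ℝ) ^ 2) + ∑ j ∈ J, β j * (2 * r j) ^ 2 := by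
  classical
  have hR' : (0 : ℝ) < R := by exact_mod_cast hR
  set m : Measure (ℝ × ℝ) := (volume : Measure ℝ).prod volume with hm
  set A : Set (ℝ × ℝ) := kill_cells R X ×ˢ kill_cells R F with hA
  have hAm : MeasurableSet A := (kill_meas R X).prod (kill_meas R F)
  have hAs : A ⊆ Set.Icc (0 : ℝ) 1 ×ˢ Set.Icc (0 : ℝ) 1 :=
    Set.prod_mono (kill_sub R hR X hX) (kill_sub R hR F hF)
  have hK : IsCompact (Set.Icc (0 : ℝ) 1 ×ˢ Set.Icc (0 : ℝ) 1) := isCompact_Icc.prod isCompact_Icc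
  have hSi : IntegrableOn (fun p : ℝ × ℝ => S p.1 p.2) A m :=
    (hS.continuousOn.integrableOn_compact hK).mono_set hAs
  have hAf : m A ≠ ⊤ := ((measure_mono hAs).trans_lt hK.measure_lt_top).ne
  have : IsFiniteMeasure (m.restrict A) := isFiniteMeasure_restrict.2 hAf
  let cl : ℕ → Set ℝ := fun u => Set.Ico ((u : ℝ) / R) (((u : ℝ) + 1) / R)
  let g1 : ℕ × ℕ → ℝ × ℝ → ℝ := fun w => (cl w.1 ×ˢ cl w.2).indicator fun _ => M
  let g2 : ι → ℝ × ℝ → ℝ := fun j =>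
    (Set.Icc (x0 j - r j) (x0 j + r j) ×ˢ Set.Icc (y0 j - r j) (y0 j + r j)).indicator fun _ => β j
  have i0 : Integrable (fun _ : ℝ × ℝ => τ) (m.restrict A) := integrable_const τ
  have i1 : ∀ w ∈ Kd, Integrable (g1 w) (m.restrict A) := fun w _ =>
    (integrable_const M).indicator (measurableSet_Ico.prod measurableSet_Ico)
  have i2 : ∀ j ∈ J, Integrable (g2 j) (m.restrict A) := fun j _ =>
    (integrable_const (β j)).indicator (measurableSet_Icc.prod measurableSet_Icc)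
  have j1 : Integrable (fun p => ∑ w ∈ Kd, g1 w p) (m.restrict A) := integrable_finsetSum _ i1
  have j2 : Integrable (fun p => ∑ j ∈ J, g2 j p) (m.restrict A) := integrable_finsetSum _ i2
  have n1 : ∀ w p, 0 ≤ g1 w p := fun w p => Set.indicator_nonneg (fun _ _ => hM) p
  have n2 : ∀ j ∈ J, ∀ p, 0 ≤ g2 j p := fun j hj p => Set.indicator_nonneg (fun _ _ => hβ j hj) p
  have hle : ∀ p ∈ A, S p.1 p.2 ≤ τ + ∑ w ∈ Kd, g1 w p + ∑ j ∈ J, g2 j p := by
    intro p hp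
    obtain ⟨u, hu, a1, a2⟩ := kill_mem R X p.1 hp.1
    obtain ⟨v, hv, b1, b2⟩ := kill_mem R F p.2 hp.2
    have s1 : 0 ≤ ∑ w ∈ Kd, g1 w p := Finset.sum_nonneg fun w _ => n1 w p
    have s2 : 0 ≤ ∑ j ∈ J, g2 j p := Finset.sum_nonneg fun j hj => n2 j hj p
    have a1' := (div_le_iff₀ hR').1 a1
    have a2' := (lt_div_iff₀ hR').1 a2
    have b1' := (div_le_iff₀ hR').1 b1
    have b2' := (lt_div_iff₀ hR').1 b2
    rcases h u hu v hv p.1 p.2 (by linarith) (by linarith) (by linarith) (by linarith) with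
      h1 | ⟨h1, h2⟩ | ⟨j, hj, h1, h2, h3⟩
    · linarith
    · have e : g1 (u, v) p = M :=
        Set.indicator_of_mem (s := cl u ×ˢ cl v) ⟨⟨a1, a2⟩, ⟨b1, b2⟩⟩ _
      have := Finset.single_le_sum (f := fun w => g1 w p) (fun w _ => n1 w p) h1
      linarith
    · rw [abs_le] at h1 h2
      have e : g2 j p = β j :=
        Set.indicator_of_mem
          (s := Set.Icc (x0 j - r j) (x0 j + r j) ×ˢ Set.Icc (y0 j - r j) (y0 j + r j))
          ⟨⟨by linarith [h1.1], by linarith [h1.2]⟩, ⟨by linarith [h2.1], by linarith [h2.2]⟩⟩ _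
      have := Finset.single_le_sum (f := fun j => g2 j p) (fun j hj => n2 j hj p) hj
      linarith
  have hcl : ∀ u : ℕ, volume.real (cl u) = 1 / R := by
    intro u
    rw [Real.volume_real_Ico_of_le]
    · ring
    · gcongr
      linarith
  have e0 : ∫ _p in A, τ ∂m = τ * (X.card / R * (F.card / R)) := by
    rw [setIntegral_const, smul_eq_mul, mul_comm, hA, hm, measureReal_prod_prod, kill_vol R hR,
      kill_vol R hR]
  have e1 : ∫ p in A, ∑ w ∈ Kd, g1 w p ∂m ≤ M * (Kd.card / (R : ℝ) ^ 2) := by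
    rw [integral_finsetSum _ i1]
    have : ∀ w ∈ Kd, ∫ p in A, g1 w p ∂m ≤ M * (1 / (R : ℝ) ^ 2) := by
      intro w _
      refine (kint_ind A (cl w.1) (cl w.2) measurableSet_Ico measurableSet_Ico
        measure_Ico_lt_top.ne measure_Ico_lt_top.ne M hM).trans (le_of_eq ?_)
      rw [hcl, hcl]
      ring
    refine (Finset.sum_le_sum this).trans (le_of_eq ?_)
    rw [Finset.sum_const, nsmul_eq_mul]
    ring
  have e2 : ∫ p in A, ∑ j ∈ J, g2 j p ∂m ≤ ∑ j ∈ J, β j * (2 * r j) ^ 2 := by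
    rw [integral_finsetSum _ i2]
    refine Finset.sum_le_sum fun j hj => ?_
    have := hr j hj
    refine (kint_ind A _ _ measurableSet_Icc measurableSet_Icc
      measure_Icc_lt_top.ne measure_Icc_lt_top.ne (β j) (hβ j hj)).trans (le_of_eq ?_)
    rw [Real.volume_real_Icc_of_le (by linarith), Real.volume_real_Icc_of_le (by linarith)]
    ring
  calc ∫ x in kill_cells R X, ∫ y in kill_cells R F, S x y
      = ∫ p in A, S p.1 p.2 ∂m := (setIntegral_prod _ hSi).symm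
    _ ≤ ∫ p in A, (τ + ∑ w ∈ Kd, g1 w p + ∑ j ∈ J, g2 j p) ∂m :=
        setIntegral_mono_on hSi ((i0.add j1).add j2) hAm hle
    _ = ∫ _p in A, τ ∂m + ∫ p in A, ∑ w ∈ Kd, g1 w p ∂m + ∫ p in A, ∑ j ∈ J, g2 j p ∂m := by
        have j3 : Integrable (fun p => τ + ∑ w ∈ Kd, g1 w p) (m.restrict A) := i0.add j1
        rw [integral_add j3 j2, integral_add i0 j1]
    _ ≤ _ := by
        rw [e0]
        linarith

end Pool.Agent.Lib.MP_e56372_nt.Dim
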