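import Pool.Agent.Lib.MP_e56372_nt.Dim.Defs3
import Pool.Agent.Lib.MP_e56372_nt.Dim.BoxC

set_option autoImplicit false
open MeasureTheory Filter Topology Finset

namespace Pool.Agent.Lib.MP_e56372_nt.Dim
open Pool.Agent.Lib.MP_e56372_nt

/-- the primal lattice vector of `(p1, p2, q)` -/
noncomputable def nonsep_dv (ξ ζ : ℝ) (s t : ℕ) (p1 p2 q : ℤ) : V3 :=
  ![2 ^ s * (p1 - q * ξ), 2 ^ t * (p2 - q * ζ), q / 2 ^ (s + t)]

theorem nonsep_pair (ξ ζ : ℝ) (s t : ℕ) (a b r p1 p2 q : ℤ) :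
    lat ξ ζ s t a b r 0 * nonsep_dv ξ ζ s t p1 p2 q 0 +
      lat ξ ζ s t a b r 1 * nonsep_dv ξ ζ s t p1 p2 q 1 +
      lat ξ ζ s t a b r 2 * nonsep_dv ξ ζ s t p1 p2 q 2 = ((a * p1 + b * p2 + r * q : ℤ) : ℝ) := by
  have h1 : (2 : ℝ) ^ ((s : ℤ) + (t : ℤ)) = 2 ^ (s + t) := by
    rw [← Nat.cast_add, zpow_natCast]
  simp only [lat, nonsep_dv, h1, zpow_natCast, Matrix.cons_val_zero, Matrix.cons_val_one,
    Matrix.cons_val_two, Matrix.head_cons, Matrix.tail_cons]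
  push_cast
  field_simp
  ring

theorem nonsep_zero {E : ℝ} (hE : 0 < E) (e v : V3) (he : ∀ k, |e k| ≤ E)
    (hv : ∀ k, |v k| < 1 / (3 * E)) (m : ℤ) (h : e 0 * v 0 + e 1 * v 1 + e 2 * v 2 = m) :
    e 0 * v 0 + e 1 * v 1 + e 2 * v 2 = 0 := by
  have h1 : ∀ k, |e k * v k| < 1 / 3 := by
    intro k
    rw [abs_mul]
    have a1 : |e k| * |v k| ≤ E * |v k| := mul_le_mul_of_nonneg_right (he k) (abs_nonneg _)
    have a2 : E * |v k| < E * (1 / (3 * E)) := mul_lt_mul_of_pos_left (hv k) hE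
    have a3 : E * (1 / (3 * E)) = 1 / 3 := by field_simp
    linarith
  have h2 : |(m : ℝ)| < 1 := by
    rw [← h]
    have a1 := abs_lt.1 (h1 0)
    have a2 := abs_lt.1 (h1 1)
    have a3 := abs_lt.1 (h1 2)
    rw [abs_lt]
    constructor <;> linarith [a1.1, a1.2, a2.1, a2.2, a3.1, a3.2]
  have h3 : |m| < 1 := by exact_mod_cast h2
  have h4 : m = 0 := Int.abs_lt_one_iff.1 h3
  rw [h, h4, Int.cast_zero]

theorem nonsep_long {ξ ζ E : ℝ} {s t : ℕ} {a1 b1 r1 a2 b2 r2 a3 b3 r3 : ℤ}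
    (hfr : Frame E (lat ξ ζ s t a1 b1 r1) (lat ξ ζ s t a2 b2 r2) (lat ξ ζ s t a3 b3 r3))
    (p1 p2 q : ℤ) (hne : nonsep_dv ξ ζ s t p1 p2 q ≠ 0) :
    ∃ k, 1 / (3 * E) ≤ |nonsep_dv ξ ζ s t p1 p2 q k| := by
  have hE : 0 < E := by linarith [hfr.he 0, hfr.he0]
  by_contra hc
  push Not at hc
  have h1 := nonsep_zero hE _ _ hfr.he hc _ (nonsep_pair ξ ζ s t a1 b1 r1 p1 p2 q)
  have h2 := nonsep_zero hE _ _ hfr.hf hc _ (nonsep_pair ξ ζ s t a2 b2 r2 p1 p2 q)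
  have h3 := nonsep_zero hE _ _ hfr.hg hc _ (nonsep_pair ξ ζ s t a3 b3 r3 p1 p2 q)
  have hd := hfr.hdet
  generalize lat ξ ζ s t a1 b1 r1 = e at h1 hd
  generalize lat ξ ζ s t a2 b2 r2 = f at h2 hd
  generalize lat ξ ζ s t a3 b3 r3 = g at h3 hd
  generalize nonsep_dv ξ ζ s t p1 p2 q = v at h1 h2 h3 hne
  have hd0 : det3 e f g ≠ 0 := by
    intro h
    rw [h, abs_zero] at hd
    linarith
  have c0 : det3 e f g * v 0 = 0 := by
    unfold det3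
    linear_combination (f 1 * g 2 - f 2 * g 1) * h1 + (g 1 * e 2 - g 2 * e 1) * h2 +
      (e 1 * f 2 - e 2 * f 1) * h3
  have c1 : det3 e f g * v 1 = 0 := by
    unfold det3
    linear_combination (f 2 * g 0 - f 0 * g 2) * h1 + (g 2 * e 0 - g 0 * e 2) * h2 +
      (e 2 * f 0 - e 0 * f 2) * h3
  have c2 : det3 e f g * v 2 = 0 := by
    unfold det3
    linear_combination (f 0 * g 1 - f 1 * g 0) * h1 + (g 0 * e 1 - g 1 * e 0) * h2 +
      (e 0 * f 1 - e 1 * f 0) * h3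
  apply hne
  funext k
  fin_cases k
  · exact (mul_eq_zero.1 c0).resolve_left hd0
  · exact (mul_eq_zero.1 c1).resolve_left hd0
  · exact (mul_eq_zero.1 c2).resolve_left hd0

theorem nonsep_sub (ξ ζ : ℝ) (s t : ℕ) (p1 p2 q p1' p2' q' : ℤ) (k : Fin 3) :
    nonsep_dv ξ ζ s t p1 p2 q k - nonsep_dv ξ ζ s t p1' p2' q' k =
      nonsep_dv ξ ζ s t (p1 - p1') (p2 - p2') (q - q') k := by
  fin_cases k <;> simp [nonsep_dv] <;> ring

theorem nonsep_shell (S : Finset V3) (lam W : ℝ) (hl : 0 < lam) (hW : 0 ≤ W) (hs : SepV S lam)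
    (hb : ∀ v ∈ S, lam ≤ v 2 ∧ v 2 ≤ W ∧ |v 0| ≤ v 2 + lam / 3 ∧ |v 1| ≤ v 2 + lam / 3) :
    ∑ v ∈ S, 1 / (v 2) ^ 2 ≤ 98 * W / lam ^ 3 := by
  classical
  have hmap : ∀ v ∈ S, ⌊v 2 / lam⌋₊ ∈ Icc 1 ⌊W / lam⌋₊ := by
    intro v hv
    obtain ⟨h1, h2, -⟩ := hb v hv
    rw [mem_Icc]
    exact ⟨Nat.le_floor (by rw [Nat.cast_one, le_div_iff₀ hl]; linarith),
      Nat.floor_le_floor (div_le_div_of_nonneg_right h2 hl.le)⟩
  rw [← sum_fiberwise_of_maps_to hmap]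
  have hfib : ∀ j ∈ Icc 1 ⌊W / lam⌋₊,
      ∑ v ∈ S.filter (fun v => ⌊v 2 / lam⌋₊ = j), 1 / (v 2) ^ 2 ≤ 98 / lam ^ 2 := by
    intro j hj
    have hj1 : (1 : ℝ) ≤ j := by exact_mod_cast (mem_Icc.1 hj).1
    have hrange : ∀ v ∈ S.filter (fun v => ⌊v 2 / lam⌋₊ = j),
        j * lam ≤ v 2 ∧ v 2 ≤ j * lam + lam := by
      intro v hv
      rw [mem_filter] at hv
      have h0 : 0 ≤ v 2 / lam := div_nonneg (hl.le.trans (hb v hv.1).1) hl.le
      have h1 := Nat.floor_le h0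
      have h2 := Nat.lt_floor_add_one (v 2 / lam)
      rw [hv.2] at h1 h2
      rw [le_div_iff₀ hl] at h1
      rw [div_lt_iff₀ hl] at h2
      constructor <;> linarith
    have hjl : 0 < j * lam := by positivity
    have hc := box_count (S.filter (fun v => ⌊v 2 / lam⌋₊ = j)) lam
      ![-(3 * (j * lam)), -(3 * (j * lam)), j * lam] ![6 * (j * lam), 6 * (j * lam), lam] hl
      (by
        intro k
        fin_cases k
        · show 0 ≤ 6 * (j * lam)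
          positivity
        · show 0 ≤ 6 * (j * lam)
          positivity
        · exact hl.le)
      (by
        intro v hv k
        obtain ⟨h1, h2⟩ := hrange v hv
        obtain ⟨-, -, h3, h4⟩ := hb v (mem_filter.1 hv).1
        have h5 : lam ≤ j * lam := le_mul_of_one_le_left hl.le hj1
        have h6 := abs_le.1 h3
        have h7 := abs_le.1 h4
        fin_cases k
        · show -(3 * (j * lam)) ≤ v 0 ∧ v 0 ≤ -(3 * (j * lam)) + 6 * (j * lam)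
          constructor <;> linarith [h6.1, h6.2]
        · show -(3 * (j * lam)) ≤ v 1 ∧ v 1 ≤ -(3 * (j * lam)) + 6 * (j * lam)
          constructor <;> linarith [h7.1, h7.2]
        · exact ⟨h1, h2⟩)
      (fun u hu v hv => hs u (mem_filter.1 hu).1 v (mem_filter.1 hv).1)
    have hc2 : ((S.filter (fun v => ⌊v 2 / lam⌋₊ = j)).card : ℝ) ≤ 98 * (j : ℝ) ^ 2 := by
      have e1 : 6 * (j * lam) / lam = 6 * j := by field_simp
      have e2 : lam / lam = 1 := div_self hl.ne'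
      have hc' : ((S.filter (fun v => ⌊v 2 / lam⌋₊ = j)).card : ℝ) ≤
          (6 * (j * lam) / lam + 1) * (6 * (j * lam) / lam + 1) * (lam / lam + 1) := hc
      rw [e1, e2] at hc'
      nlinarith
    calc ∑ v ∈ S.filter (fun v => ⌊v 2 / lam⌋₊ = j), 1 / (v 2) ^ 2
        ≤ ∑ _v ∈ S.filter (fun v => ⌊v 2 / lam⌋₊ = j), 1 / (j * lam) ^ 2 :=
          sum_le_sum fun v hv => one_div_le_one_div_of_le (by positivity)
            (pow_le_pow_left₀ hjl.le (hrange v hv).1 2)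
      _ = ((S.filter (fun v => ⌊v 2 / lam⌋₊ = j)).card : ℝ) * (1 / (j * lam) ^ 2) := by
          rw [sum_const, nsmul_eq_mul]
      _ ≤ 98 * (j : ℝ) ^ 2 * (1 / (j * lam) ^ 2) :=
          mul_le_mul_of_nonneg_right hc2 (by positivity)
      _ = 98 / lam ^ 2 := by field_simp
  calc _ ≤ ∑ _j ∈ Icc 1 ⌊W / lam⌋₊, 98 / lam ^ 2 := sum_le_sum hfib
    _ = (⌊W / lam⌋₊ : ℝ) * (98 / lam ^ 2) := by
        rw [sum_const, nsmul_eq_mul, Nat.card_Icc, Nat.add_sub_cancel]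
    _ ≤ W / lam * (98 / lam ^ 2) :=
        mul_le_mul_of_nonneg_right (Nat.floor_le (by positivity)) (by positivity)
    _ = _ := by field_simp

theorem nonsep_round (z : ℝ) (M : ℕ) (h : |z| + 1 ≤ M) : round z ∈ Icc (-(M : ℤ)) M := by
  have h1 := abs_le.1 (abs_sub_round z)
  have h2 := le_abs_self z
  have h3 := neg_abs_le z
  rw [mem_Icc]
  constructor
  · have : (-(M : ℝ)) ≤ (round z : ℝ) := by linarith [h1.2]
    exact_mod_cast this
  · have : (round z : ℝ) ≤ (M : ℝ) := by linarith [h1.1]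
    exact_mod_cast this

theorem nonsep_near (ξ x U η Z : ℝ) (s : ℕ) (q : ℝ) (hU : 0 < U) (hZ : 0 < Z)
    (h : U * 2 ^ s * nd (q * (ξ + x / (2 ^ s * Z))) ≤ η) :
    |q / Z * x - 2 ^ s * (round (q * (ξ + x / (2 ^ s * Z))) - q * ξ)| ≤ η / U := by
  have h2 : (0 : ℝ) < 2 ^ s := by positivity
  have e : q / Z * x - 2 ^ s * (round (q * (ξ + x / (2 ^ s * Z))) - q * ξ) =
      2 ^ s * (q * (ξ + x / (2 ^ s * Z)) - round (q * (ξ + x / (2 ^ s * Z)))) := by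
    generalize (round (q * (ξ + x / (2 ^ s * Z))) : ℝ) = r
    field_simp
    ring
  rw [e, abs_mul, abs_of_pos h2, le_div_iff₀ hU]
  unfold nd at h
  linarith

theorem nonsep_bd (ξ ζ x c q Q : ℝ) (hx0 : 0 ≤ x) (hx1 : x ≤ 1) (hc : 1 ≤ c) (hq0 : 0 ≤ q)
    (hq : q ≤ Q) : |q * (ξ + x / c)| + 1 ≤ Q * (|ξ| + |ζ| + 1) + 1 := by
  have h1 : |x / c| ≤ 1 := by
    rw [abs_of_nonneg (by positivity), div_le_one (by linarith)]
    linarith
  have h2 : |ξ + x / c| ≤ |ξ| + |ζ| + 1 := by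
    linarith [abs_add_le ξ (x / c), abs_nonneg ζ]
  rw [abs_mul, abs_of_nonneg hq0]
  have := mul_le_mul hq h2 (abs_nonneg _) (hq0.trans hq)
  linarith

theorem nonsep_cover (ξ ζ E U η : ℝ) (s t Q : ℕ) (a1 b1 r1 a2 b2 r2 a3 b3 r3 : ℤ)
    (hfr : Frame E (lat ξ ζ s t a1 b1 r1) (lat ξ ζ s t a2 b2 r2) (lat ξ ζ s t a3 b3 r3))
    (hU : 12 * E ≤ U) (h0 : 0 < η) (h1 : η ≤ 1) :
    ∃ R : Finset (ℝ × ℝ × ℝ), (∀ p ∈ R, 0 ≤ p.2.2) ∧
      ∑ p ∈ R, (2 * p.2.2) ^ 2 ≤ 30000 * E ^ 3 * (Q / 2 ^ (s + t) / U ^ 2) * η ^ 3 ∧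
      (4 * E * η * (Q / 2 ^ (s + t)) < 1 → R = ∅) ∧
      ∀ x ∈ Set.Icc (0 : ℝ) 1, ∀ y ∈ Set.Icc (0 : ℝ) 1,
        ¬ SepP (U * 2 ^ s) (U * 2 ^ t) Q η (ξ + x / 2 ^ (2 * s + t)) (ζ + y / 2 ^ (s + 2 * t)) →
        ∃ p ∈ R, |x - p.1| ≤ p.2.2 ∧ |y - p.2.1| ≤ p.2.2 := by
  classical
  have hE : 0 < E := by linarith [hfr.he 0, hfr.he0]
  have hU0 : 0 < U := by linarith
  have hZ : (0 : ℝ) < 2 ^ (s + t) := by positivity
  obtain ⟨M, hM⟩ := exists_nat_ge ((Q : ℝ) * (|ξ| + |ζ| + 1) + 1)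
  obtain ⟨lam, hlam⟩ : ∃ lam : ℝ, lam = 1 / (4 * E) := ⟨_, rfl⟩
  obtain ⟨W, hW⟩ : ∃ W : ℝ, W = η * (Q / 2 ^ (s + t)) := ⟨_, rfl⟩
  have hl : 0 < lam := by rw [hlam]; positivity
  have hW0 : 0 ≤ W := by rw [hW]; positivity
  have h3 : 1 / (3 * E) = lam + lam / 3 := by rw [hlam]; field_simp; ring
  have hηU : η / U ≤ lam / 3 := by
    rw [div_le_iff₀ hU0]
    have a1 : lam / 3 * (12 * E) = 1 := by rw [hlam]; field_simp; ring
    have a2 : lam / 3 * (12 * E) ≤ lam / 3 * U := mul_le_mul_of_nonneg_left hU (by positivity)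
    linarith
  obtain ⟨S, hS⟩ : ∃ S : Finset V3, S =
      (((Icc (-(M : ℤ)) M ×ˢ Icc (-(M : ℤ)) M) ×ˢ Icc 1 Q).image
        fun z : (ℤ × ℤ) × ℕ => nonsep_dv ξ ζ s t z.1.1 z.1.2 z.2).filter fun v =>
          lam ≤ v 2 ∧ v 2 ≤ W ∧ |v 0| ≤ v 2 + lam / 3 ∧ |v 1| ≤ v 2 + lam / 3 := ⟨_, rfl⟩
  have hb : ∀ v ∈ S, lam ≤ v 2 ∧ v 2 ≤ W ∧ |v 0| ≤ v 2 + lam / 3 ∧ |v 1| ≤ v 2 + lam / 3 := by
    intro v hv
    rw [hS] at hv
    exact (mem_filter.1 hv).2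
  have hsep : SepV S lam := by
    intro u hu v hv huv
    rw [hS] at hu hv
    obtain ⟨z, -, rfl⟩ := mem_image.1 (mem_filter.1 hu).1
    obtain ⟨z', -, rfl⟩ := mem_image.1 (mem_filter.1 hv).1
    obtain ⟨k, hk⟩ := nonsep_long hfr (z.1.1 - z'.1.1) (z.1.2 - z'.1.2) ((z.2 : ℤ) - z'.2) (by
      intro h
      apply huv
      funext k
      have := nonsep_sub ξ ζ s t z.1.1 z.1.2 z.2 z'.1.1 z'.1.2 z'.2 k
      rw [h] at this
      exact sub_eq_zero.1 this)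
    refine ⟨k, ?_⟩
    rw [nonsep_sub]
    linarith
  refine ⟨S.image fun v => (v 0 / v 2, v 1 / v 2, η / U / v 2), ?_, ?_, ?_, ?_⟩
  · intro p hp
    obtain ⟨v, hv, rfl⟩ := mem_image.1 hp
    have := hl.trans_le (hb v hv).1
    show 0 ≤ η / U / v 2
    positivity
  · have a1 := nonsep_shell S lam W hl hW0 hsep hb
    refine le_trans (sum_image_le_of_nonneg (f := fun p : ℝ × ℝ × ℝ => (2 * p.2.2) ^ 2)
      fun _ _ => sq_nonneg _) ?_
    calc ∑ v ∈ S, (2 * (η / U / v 2)) ^ 2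
        = ∑ v ∈ S, 4 * (η / U) ^ 2 * (1 / (v 2) ^ 2) := sum_congr rfl fun v _ => by ring
      _ = 4 * (η / U) ^ 2 * ∑ v ∈ S, 1 / (v 2) ^ 2 := by rw [mul_sum]
      _ ≤ 4 * (η / U) ^ 2 * (98 * W / lam ^ 3) := mul_le_mul_of_nonneg_left a1 (by positivity)
      _ = 25088 * (E ^ 3 * (Q / 2 ^ (s + t) / U ^ 2) * η ^ 3) := by
          rw [hW, hlam]
          field_simp
          ring
      _ ≤ 30000 * (E ^ 3 * (Q / 2 ^ (s + t) / U ^ 2) * η ^ 3) :=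
          mul_le_mul_of_nonneg_right (by norm_num) (by positivity)
      _ = _ := by ring
  · intro h
    rw [image_eq_empty, eq_empty_iff_forall_notMem]
    intro v hv
    obtain ⟨a1, a2, -⟩ := hb v hv
    have a3 : 4 * E * lam = 1 := by rw [hlam]; field_simp
    have a4 : 4 * E * lam ≤ 4 * E * W := mul_le_mul_of_nonneg_left (a1.trans a2) (by positivity)
    rw [hW] at a4
    linarith
  · intro x hx y hy hn
    unfold SepP at hn
    push Not at hn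
    obtain ⟨q, hq1, hq2, hA, hB⟩ := hn
    have hq0 : (1 : ℝ) ≤ q := by exact_mod_cast hq1
    have hqQ : (q : ℝ) ≤ Q := hq2.trans (mul_le_of_le_one_left (Nat.cast_nonneg Q) h1)
    have e1 : (2 : ℝ) ^ (2 * s + t) = 2 ^ s * 2 ^ (s + t) := by ring
    have e2 : (2 : ℝ) ^ (s + 2 * t) = 2 ^ t * 2 ^ (s + t) := by ring
    rw [e1] at hA
    rw [e2] at hB
    have n1 := nonsep_near ξ x U η _ s q hU0 hZ hA
    have n2 := nonsep_near ζ y U η _ t q hU0 hZ hB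
    have m1 := nonsep_round _ M ((nonsep_bd ξ ζ x (2 ^ s * 2 ^ (s + t)) q Q hx.1 hx.2
      (by rw [← e1]; exact one_le_pow₀ one_le_two) (by linarith) hqQ).trans hM)
    have m2 := nonsep_round _ M ((nonsep_bd ζ ξ y (2 ^ t * 2 ^ (s + t)) q Q hy.1 hy.2
      (by rw [← e2]; exact one_le_pow₀ one_le_two) (by linarith) hqQ).trans
      (by rw [add_comm |ζ|]; exact hM))
    generalize round (q * (ξ + x / (2 ^ s * 2 ^ (s + t)))) = p1 at n1 m1
    generalize round (q * (ζ + y / (2 ^ t * 2 ^ (s + t)))) = p2 at n2 m2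
    obtain ⟨v, hv⟩ : ∃ v, v = nonsep_dv ξ ζ s t p1 p2 q := ⟨_, rfl⟩
    have v0 : v 0 = 2 ^ s * (p1 - q * ξ) := by rw [hv]; simp [nonsep_dv]
    have v1 : v 1 = 2 ^ t * (p2 - q * ζ) := by rw [hv]; simp [nonsep_dv]
    have v2 : v 2 = q / 2 ^ (s + t) := by rw [hv]; simp [nonsep_dv]
    rw [← v0, ← v2] at n1
    rw [← v1, ← v2] at n2
    have hv2 : 0 < v 2 := by rw [v2]; positivity
    have hxv : 0 ≤ v 2 * x ∧ v 2 * x ≤ v 2 :=
      ⟨mul_nonneg hv2.le hx.1, mul_le_of_le_one_right hv2.le hx.2⟩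
    have hyv : 0 ≤ v 2 * y ∧ v 2 * y ≤ v 2 :=
      ⟨mul_nonneg hv2.le hy.1, mul_le_of_le_one_right hv2.le hy.2⟩
    have b0 : |v 0| ≤ v 2 + lam / 3 := by
      have := abs_le.1 n1
      rw [abs_le]
      constructor <;> linarith [this.1, this.2, hxv.1, hxv.2]
    have b1 : |v 1| ≤ v 2 + lam / 3 := by
      have := abs_le.1 n2
      rw [abs_le]
      constructor <;> linarith [this.1, this.2, hyv.1, hyv.2]
    have b2 : lam ≤ v 2 := by
      obtain ⟨k, hk⟩ := nonsep_long hfr p1 p2 q (by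
        rw [← hv]
        intro h
        rw [h] at hv2
        exact lt_irrefl _ hv2)
      rw [← hv, h3] at hk
      fin_cases k
      · have hk' : lam + lam / 3 ≤ |v 0| := hk
        linarith
      · have hk' : lam + lam / 3 ≤ |v 1| := hk
        linarith
      · have hk' : lam + lam / 3 ≤ |v 2| := hk
        rw [abs_of_pos hv2] at hk'
        linarith
    have b3 : v 2 ≤ W := by
      rw [v2, hW, ← mul_div_assoc]
      exact div_le_div_of_nonneg_right hq2 hZ.le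
    have hvS : v ∈ S := by
      rw [hS, mem_filter]
      refine ⟨mem_image.2 ⟨((p1, p2), q), ?_, hv.symm⟩, b2, b3, b0, b1⟩
      rw [mem_product, mem_product]
      exact ⟨⟨m1, m2⟩, mem_Icc.2 ⟨hq1, by exact_mod_cast hqQ⟩⟩
    refine ⟨_, mem_image_of_mem _ hvS, ?_, ?_⟩
    · show |x - v 0 / v 2| ≤ η / U / v 2
      have e : x - v 0 / v 2 = (v 2 * x - v 0) / v 2 := by field_simp
      rw [e, abs_div, abs_of_pos hv2]
      exact div_le_div_of_nonneg_right n1 hv2.le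
    · show |y - v 1 / v 2| ≤ η / U / v 2
      have e : y - v 1 / v 2 = (v 2 * y - v 1) / v 2 := by field_simp
      rw [e, abs_div, abs_of_pos hv2]
      exact div_le_div_of_nonneg_right n2 hv2.le

end Pool.Agent.Lib.MP_e56372_nt.Dim
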