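import Pool.Agent.Lib.MP_e56372_nt.Dim.Defs3

set_option autoImplicit false
open MeasureTheory Filter Topology Finset

namespace Pool.Agent.Lib.MP_e56372_nt.Dim
open Pool.Agent.Lib.MP_e56372_nt

theorem pointa_close {x y η c : ℝ} (h0 : 0 < η) (hx : c ≤ x) (hy : c ≤ y)
    (h : ⌊(x - c) / η⌋₊ = ⌊(y - c) / η⌋₊) : |x - y| ≤ η := by
  have a1 := Nat.floor_le (div_nonneg (sub_nonneg.2 hx) h0.le)
  have a2 := Nat.floor_le (div_nonneg (sub_nonneg.2 hy) h0.le)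
  have a3 := Nat.lt_floor_add_one ((x - c) / η)
  have a4 := Nat.lt_floor_add_one ((y - c) / η)
  rw [h] at a1 a3
  rw [le_div_iff₀ h0] at a1 a2
  rw [div_lt_iff₀ h0] at a3 a4
  rw [abs_le]; constructor <;> nlinarith

theorem pointa_nd {A η c x y : ℝ} (hA : 0 < A) (h0 : 0 < η) (hx : c ≤ A * nd x) (hy : c ≤ A * nd y)
    (hs : 0 ≤ x - round x ↔ 0 ≤ y - round y)
    (h : ⌊(A * nd x - c) / η⌋₊ = ⌊(A * nd y - c) / η⌋₊) : A * nd (x - y) ≤ η := by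
  have a1 := pointa_close h0 hx hy h
  have a2 : nd (x - y) ≤ |(x - round x) - (y - round y)| := by
    have := round_le (x - y) (round x - round y)
    refine this.trans_eq ?_
    congr 1; push_cast; ring
  have a3 : |(x - round x) - (y - round y)| = |nd x - nd y| := by
    unfold nd
    by_cases e : 0 ≤ x - round x
    · rw [abs_of_nonneg e, abs_of_nonneg (hs.1 e)]
    · have e' : ¬ 0 ≤ y - round y := fun c => e (hs.2 c)
      rw [abs_of_neg (not_le.1 e), abs_of_neg (not_le.1 e'), ← abs_neg]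
      congr 1; ring
  rw [← mul_sub, abs_mul, abs_of_pos hA] at a1
  exact (mul_le_mul_of_nonneg_left (a2.trans_eq a3) hA.le).trans a1

theorem pointa_lt {x η : ℝ} (h0 : 0 < η) (hx : x ≤ 1) : ⌊x / η⌋₊ < ⌊1 / η⌋₊ + 1 :=
  Nat.lt_succ_of_le (Nat.floor_mono (div_le_div_of_nonneg_right hx h0.le))

open Classical in
theorem pointa_fib (A B η ξ ζ : ℝ) (Q : ℕ) (hA : 0 < A) (hB : 0 < B) (h0 : 0 < η) (h1 : η ≤ 1)
    (h : SepP A B Q η ξ ζ) (i j : ℕ) :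
    ((((Icc 1 Q).filter fun q : ℕ =>
      (⌊A * nd (q * ξ)⌋₊, ⌊B * nd (q * ζ)⌋₊) = (i, j)).card : ℕ) : ℝ) ≤ 32 / η ^ 3 := by
  set N := ⌊1 / η⌋₊ + 1 with hN
  have nn : ∀ x, 0 ≤ nd x := fun x => abs_nonneg _
  have hc : ((Icc 1 Q).filter fun q : ℕ =>
      (⌊A * nd (q * ξ)⌋₊, ⌊B * nd (q * ζ)⌋₊) = (i, j)).card ≤
      (((univ : Finset Bool) ×ˢ range N) ×ˢ ((univ : Finset Bool) ×ˢ range N) ×ˢ range N).card := by
    have fact : ∀ q ∈ (Icc 1 Q).filter fun q : ℕ =>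
        (⌊A * nd (q * ξ)⌋₊, ⌊B * nd (q * ζ)⌋₊) = (i, j), (1 ≤ q ∧ q ≤ Q) ∧
        ((i : ℝ) ≤ A * nd (q * ξ) ∧ A * nd (q * ξ) < i + 1) ∧
        ((j : ℝ) ≤ B * nd (q * ζ) ∧ B * nd (q * ζ) < j + 1) := by
      intro q hq
      obtain ⟨q1, q2⟩ := mem_filter.1 hq
      obtain ⟨rfl, rfl⟩ := Prod.mk.inj q2
      exact ⟨mem_Icc.1 q1, ⟨Nat.floor_le (mul_nonneg hA.le (nn _)), Nat.lt_floor_add_one _⟩,
        Nat.floor_le (mul_nonneg hB.le (nn _)), Nat.lt_floor_add_one _⟩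
    refine card_le_card_of_injOn (fun q : ℕ =>
      ((decide (0 ≤ q * ξ - round (q * ξ)), ⌊(A * nd (q * ξ) - i) / η⌋₊),
        (decide (0 ≤ q * ζ - round (q * ζ)), ⌊(B * nd (q * ζ) - j) / η⌋₊),
        ⌊((q : ℝ) / Q - 0) / η⌋₊)) (fun q hq => ?_) ?_
    · obtain ⟨⟨q1, q2⟩, ⟨-, q3⟩, -, q4⟩ := fact q hq
      have hQ : (0 : ℝ) < Q := by exact_mod_cast q1.trans q2
      have q5 : (q : ℝ) / Q - 0 ≤ 1 := by
        rw [sub_zero, div_le_one hQ]; exact_mod_cast q2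
      simp only [coe_product, Set.mem_prod, coe_univ, Set.mem_univ, coe_range, Set.mem_Iio,
        true_and]
      exact ⟨pointa_lt h0 (by linarith), pointa_lt h0 (by linarith), pointa_lt h0 q5⟩
    · have key : ∀ p ∈ (Icc 1 Q).filter fun q : ℕ =>
          (⌊A * nd (q * ξ)⌋₊, ⌊B * nd (q * ζ)⌋₊) = (i, j), ∀ q ∈ (Icc 1 Q).filter fun q : ℕ =>
          (⌊A * nd (q * ξ)⌋₊, ⌊B * nd (q * ζ)⌋₊) = (i, j), q < p →
          ((decide (0 ≤ p * ξ - round (p * ξ)), ⌊(A * nd (p * ξ) - i) / η⌋₊),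
            (decide (0 ≤ p * ζ - round (p * ζ)), ⌊(B * nd (p * ζ) - j) / η⌋₊),
            ⌊((p : ℝ) / Q - 0) / η⌋₊) ≠
          ((decide (0 ≤ q * ξ - round (q * ξ)), ⌊(A * nd (q * ξ) - i) / η⌋₊),
            (decide (0 ≤ q * ζ - round (q * ζ)), ⌊(B * nd (q * ζ) - j) / η⌋₊),
            ⌊((q : ℝ) / Q - 0) / η⌋₊) := by
        intro p hp q hq hlt e
        obtain ⟨⟨p1, p2⟩, ⟨p3, -⟩, p4, -⟩ := fact p hp
        obtain ⟨-, ⟨q3, -⟩, q4, -⟩ := fact q hq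
        simp only [Prod.mk.injEq, decide_eq_decide] at e
        obtain ⟨⟨e1, e2⟩, ⟨e3, e4⟩, e5⟩ := e
        have hQ : (0 : ℝ) < Q := by exact_mod_cast p1.trans p2
        have b1 := pointa_nd hA h0 p3 q3 e1 e2
        have b2 := pointa_nd hB h0 p4 q4 e3 e4
        have b3 := pointa_close h0 (by positivity) (by positivity) e5
        have c : ((p - q : ℕ) : ℝ) = (p : ℝ) - q := Nat.cast_sub hlt.le
        refine h (p - q) (by omega) ?_ ⟨by rw [c, sub_mul]; exact b1, by rw [c, sub_mul]; exact b2⟩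
        rw [c, ← div_le_iff₀ hQ, sub_div]
        exact (le_abs_self _).trans b3
      intro p hp q hq e
      rcases lt_trichotomy p q with c | c | c
      · exact absurd e.symm (key q hq p hp c)
      · exact c
      · exact absurd e (key p hp q hq c)
  have hN2 : (N : ℝ) ≤ 2 / η := by
    have a1 := Nat.floor_le (show (0 : ℝ) ≤ 1 / η by positivity)
    have a2 : 1 ≤ 1 / η := by rw [le_div_iff₀ h0]; linarith
    have a3 : 2 / η = 1 / η + 1 / η := by ring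
    rw [hN]; push_cast; linarith
  simp only [card_product, card_univ, Fintype.card_bool, card_range] at hc
  have a4 : (N : ℝ) ^ 3 ≤ (2 / η) ^ 3 := pow_le_pow_left₀ (Nat.cast_nonneg _) hN2 3
  have a5 : ((2 * N * (2 * N * N) : ℕ) : ℝ) = 4 * (N : ℝ) ^ 3 := by push_cast; ring
  have a6 : 4 * (2 / η) ^ 3 = 32 / η ^ 3 := by ring
  refine le_trans (Nat.cast_le.2 hc) ?_
  rw [a5, ← a6]; linarith

theorem pointa_tail (M : ℕ) :
    ∑ i ∈ range (M + 2), 1 / (max 1 (i : ℝ)) ^ 2 ≤ 3 - 1 / ((M : ℝ) + 1) := by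
  induction M with
  | zero => simp [sum_range_succ]; norm_num
  | succ M ih =>
    rw [show M + 1 + 2 = (M + 2) + 1 by ring, sum_range_succ]
    have h0 : (0 : ℝ) ≤ M := Nat.cast_nonneg M
    have e : max 1 ((M + 2 : ℕ) : ℝ) = (M : ℝ) + 2 := by
      push_cast; exact max_eq_right (by linarith)
    have a : 1 / ((M : ℝ) + 2) ^ 2 ≤ 1 / ((M : ℝ) + 1) - 1 / ((M : ℝ) + 1 + 1) := by
      rw [div_sub_div _ _ (by positivity) (by positivity), div_le_div_iff₀ (by positivity)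
        (by positivity)]
      nlinarith
    rw [e]; push_cast; linarith

theorem pointa_sum (I : Finset ℕ) : ∑ i ∈ I, 1 / (max 1 (i : ℝ)) ^ 2 ≤ 3 := by
  have h1 : I ⊆ range (I.sup id + 2) := fun i hi =>
    mem_range.2 (by have : id i ≤ I.sup id := le_sup hi; simp only [id] at this ⊢; omega)
  refine (sum_le_sum_of_subset_of_nonneg h1 fun i _ _ => by positivity).trans
    ((pointa_tail _).trans ?_)
  have : (0 : ℝ) ≤ 1 / (((I.sup id : ℕ) : ℝ) + 1) := by positivity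
  linarith

theorem point_sum (A B η ξ ζ : ℝ) (Q : ℕ) (hA : 0 < A) (hB : 0 < B) (h0 : 0 < η) (h1 : η ≤ 1)
    (h : SepP A B Q η ξ ζ) : ∑ q ∈ Icc 1 Q, 1 / (wt A B ξ ζ q) ^ 2 ≤ 3200 / η ^ 3 := by
  classical
  have nn : ∀ x, 0 ≤ nd x := fun x => abs_nonneg _
  set I := (Icc 1 Q).image fun q : ℕ => ⌊A * nd (q * ξ)⌋₊
  set J := (Icc 1 Q).image fun q : ℕ => ⌊B * nd (q * ζ)⌋₊
  have hm : ∀ q ∈ Icc 1 Q, (⌊A * nd (q * ξ)⌋₊, ⌊B * nd (q * ζ)⌋₊) ∈ I ×ˢ J := fun q hq =>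
    mem_product.2 ⟨mem_image_of_mem _ hq, mem_image_of_mem _ hq⟩
  rw [← sum_fiberwise_of_maps_to hm]
  have step : ∀ c ∈ I ×ˢ J, ∑ q ∈ (Icc 1 Q).filter (fun q : ℕ =>
      (⌊A * nd (q * ξ)⌋₊, ⌊B * nd (q * ζ)⌋₊) = c), 1 / (wt A B ξ ζ q) ^ 2 ≤
      32 / η ^ 3 * (1 / (max 1 (c.1 : ℝ)) ^ 2 * (1 / (max 1 (c.2 : ℝ)) ^ 2)) := by
    rintro ⟨i, j⟩ -
    refine (sum_le_card_nsmul _ _ (1 / (max 1 (i : ℝ)) ^ 2 * (1 / (max 1 (j : ℝ)) ^ 2))
      fun q hq => ?_).trans ?_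
    · obtain ⟨rfl, rfl⟩ := Prod.mk.inj (mem_filter.1 hq).2
      have a1 := max_le_max_left 1 (Nat.floor_le (mul_nonneg hA.le (nn (q * ξ))))
      have a2 := max_le_max_left 1 (Nat.floor_le (mul_nonneg hB.le (nn (q * ζ))))
      rw [one_div_mul_one_div, ← mul_pow]
      refine one_div_le_one_div_of_le (by positivity) (pow_le_pow_left₀ (by positivity) ?_ 2)
      exact mul_le_mul a1 a2 (by positivity) (by positivity)
    · rw [nsmul_eq_mul]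
      refine mul_le_mul_of_nonneg_right ?_ (by positivity)
      convert pointa_fib A B η ξ ζ Q hA hB h0 h1 h i j
  refine (sum_le_sum step).trans ?_
  rw [← mul_sum, sum_product' (f := fun (i j : ℕ) =>
    1 / (max 1 (i : ℝ)) ^ 2 * (1 / (max 1 (j : ℝ)) ^ 2)), ← sum_mul_sum]
  have a1 := pointa_sum I
  have a2 := pointa_sum J
  have a3 : 0 ≤ ∑ i ∈ J, 1 / (max 1 (i : ℝ)) ^ 2 := sum_nonneg fun i _ => by positivity
  have a4 := mul_le_mul a1 a2 a3 (by norm_num)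
  have a5 : 0 < 1 / η ^ 3 := by positivity
  have a6 : 32 / η ^ 3 = 32 * (1 / η ^ 3) := by ring
  have a7 : 3200 / η ^ 3 = 3200 * (1 / η ^ 3) := by ring
  rw [a6, a7]; nlinarith

end Pool.Agent.Lib.MP_e56372_nt.Dim
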