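import Pool.Agent.Lib.MP_e56372_nt.Dim.Defs

set_option autoImplicit false
open Finset

namespace Pool.Agent.Lib.MP_e56372_nt.Dim

theorem pl_close (x y h : ℝ) (hh : 0 < h) (hx : 0 ≤ x) (hy : 0 ≤ y)
    (e : ⌊x / h⌋₊ = ⌊y / h⌋₊) : |x - y| < h := by
  have a1 := Nat.floor_le (div_nonneg hx hh.le)
  have a2 := Nat.lt_floor_add_one (x / h)
  have b1 := Nat.floor_le (div_nonneg hy hh.le)
  have b2 := Nat.lt_floor_add_one (y / h)
  rw [e] at a1 a2
  have c1 : x / h - y / h < 1 := by linarith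
  have c2 : y / h - x / h < 1 := by linarith
  rw [← sub_div, div_lt_one hh] at c1 c2
  rw [abs_lt]; constructor <;> linarith

theorem pl_cells (S : Finset V3) (ρ lam : ℝ) (hl : 0 < lam) (hρ : 0 ≤ ρ)
    (hb : ∀ w ∈ S, ∀ k, |w k| ≤ ρ) (i j : Fin 3)
    (h : ∀ u ∈ S, ∀ v ∈ S, |u i - v i| < lam / 2 → |u j - v j| < lam / 2 → u = v) :
    (S.card : ℝ) ≤ (4 * ρ / lam + 1) ^ 2 := by
  have h2 : 0 < lam / 2 := by positivity
  have nn : ∀ w ∈ S, ∀ k, 0 ≤ w k + ρ := fun w hw k => by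
    have := (abs_le.mp (hb w hw k)).1; linarith
  have up : ∀ w ∈ S, ∀ k, ⌊(w k + ρ) / (lam / 2)⌋₊ < ⌊4 * ρ / lam⌋₊ + 1 := fun w hw k => by
    refine Nat.lt_succ_of_le (Nat.floor_le_floor ?_)
    have := (abs_le.mp (hb w hw k)).2
    rw [div_le_div_iff₀ h2 hl]
    nlinarith
  have key : S.card ≤ (range (⌊4 * ρ / lam⌋₊ + 1) ×ˢ range (⌊4 * ρ / lam⌋₊ + 1)).card := by
    refine card_le_card_of_injOn
      (fun w => (⌊(w i + ρ) / (lam / 2)⌋₊, ⌊(w j + ρ) / (lam / 2)⌋₊)) ?_ ?_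
    · intro w hw
      have hw' : w ∈ S := hw
      simp only [coe_product, coe_range, Set.mem_prod, Set.mem_Iio]
      exact ⟨up w hw' i, up w hw' j⟩
    · intro u hu v hv e
      have hu' : u ∈ S := hu
      have hv' : v ∈ S := hv
      obtain ⟨e1, e2⟩ := Prod.mk.inj e
      have c1 := pl_close _ _ _ h2 (nn u hu' i) (nn v hv' i) e1
      have c2 := pl_close _ _ _ h2 (nn u hu' j) (nn v hv' j) e2
      rw [add_sub_add_right_eq_sub] at c1 c2
      exact h u hu' v hv' c1 c2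
  rw [card_product, card_range] at key
  have f1 : ((⌊4 * ρ / lam⌋₊ : ℕ) : ℝ) ≤ 4 * ρ / lam := Nat.floor_le (by positivity)
  have f2 : (S.card : ℝ) ≤ ((⌊4 * ρ / lam⌋₊ : ℝ) + 1) * ((⌊4 * ρ / lam⌋₊ : ℝ) + 1) := by
    exact_mod_cast key
  have f3 : (0 : ℝ) ≤ (⌊4 * ρ / lam⌋₊ : ℝ) := Nat.cast_nonneg _
  nlinarith

theorem pl_third (a b c x y z : ℝ) (ha : a ≠ 0) (hb : |b| ≤ |a|) (hc : |c| ≤ |a|)
    (e : a * x + b * y + c * z = 0) : |x| ≤ |y| + |z| := by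
  have p : 0 < |a| := abs_pos.mpr ha
  have e1 : |a| * |x| = |b * y + c * z| := by
    rw [← abs_mul, show a * x = -(b * y + c * z) by linarith, abs_neg]
  have e2 : |b * y + c * z| ≤ |b| * |y| + |c| * |z| := by
    rw [← abs_mul, ← abs_mul]; exact abs_add_le _ _
  have e3 := mul_le_mul_of_nonneg_right hb (abs_nonneg y)
  have e4 := mul_le_mul_of_nonneg_right hc (abs_nonneg z)
  have : |a| * |x| ≤ |a| * (|y| + |z|) := by linarith
  exact le_of_mul_le_mul_left this p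

theorem pl_normal (S : Finset V3) (hc : ∀ u ∈ S, ∀ v ∈ S, ∀ w ∈ S, det3 u v w = 0) :
    ∃ a b c : ℝ, (a ≠ 0 ∨ b ≠ 0 ∨ c ≠ 0) ∧ ∀ w ∈ S, a * w 0 + b * w 1 + c * w 2 = 0 := by
  by_cases h1 : ∃ u ∈ S, ∃ v ∈ S, u 1 * v 2 - u 2 * v 1 ≠ 0 ∨ u 2 * v 0 - u 0 * v 2 ≠ 0 ∨
      u 0 * v 1 - u 1 * v 0 ≠ 0
  · obtain ⟨u, hu, v, hv, h⟩ := h1
    refine ⟨_, _, _, h, fun w hw => ?_⟩
    have := hc u hu v hv w hw
    unfold det3 at this
    linarith
  · push Not at h1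
    by_cases h2 : ∃ u ∈ S, u 0 ≠ 0 ∨ u 1 ≠ 0
    · obtain ⟨u, hu, h⟩ := h2
      refine ⟨-u 1, u 0, 0, ?_, fun w hw => ?_⟩
      · rcases h with h | h
        · exact Or.inr (Or.inl h)
        · exact Or.inl (neg_ne_zero.mpr h)
      · have := (h1 u hu w hw).2.2
        linarith
    · push Not at h2
      refine ⟨1, 0, 0, Or.inl one_ne_zero, fun w hw => ?_⟩
      have := (h2 w hw).1
      linarith

theorem card_coplanar_le (S : Finset V3) (ρ lam : ℝ) (hl : 0 < lam) (hρ : 0 ≤ ρ)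
    (hb : ∀ w ∈ S, ∀ k, |w k| ≤ ρ) (hc : ∀ u ∈ S, ∀ v ∈ S, ∀ w ∈ S, det3 u v w = 0)
    (hs : ∀ u ∈ S, ∀ v ∈ S, u ≠ v → ∃ k, lam < |u k - v k|) :
    (S.card : ℝ) ≤ (4 * ρ / lam + 1) ^ 2 := by
  obtain ⟨a, b, c, hne, hz⟩ := pl_normal S hc
  have hd : ∀ u ∈ S, ∀ v ∈ S, a * (u 0 - v 0) + b * (u 1 - v 1) + c * (u 2 - v 2) = 0 :=
    fun u hu v hv => by have := hz u hu; have := hz v hv; linarith
  have fin : ∀ u ∈ S, ∀ v ∈ S, |u 0 - v 0| ≤ lam → |u 1 - v 1| ≤ lam → |u 2 - v 2| ≤ lam → u = v := by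
    intro u hu v hv p0 p1 p2
    by_contra hne'
    obtain ⟨k, hk⟩ := hs u hu v hv hne'
    fin_cases k
    · exact absurd hk (not_lt.mpr p0)
    · exact absurd hk (not_lt.mpr p1)
    · exact absurd hk (not_lt.mpr p2)
  have pos : 0 < |a| ∨ 0 < |b| ∨ 0 < |c| := by simpa only [abs_pos] using hne
  have na := abs_nonneg a
  have nb := abs_nonneg b
  have nc := abs_nonneg c
  by_cases c1 : |b| ≤ |a| ∧ |c| ≤ |a|
  · have a0 : a ≠ 0 := abs_pos.mp (by rcases pos with h | h | h <;> linarith [c1.1, c1.2])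
    refine pl_cells S ρ lam hl hρ hb 1 2 fun u hu v hv p q => ?_
    have := pl_third a b c _ _ _ a0 c1.1 c1.2 (hd u hu v hv)
    exact fin u hu v hv (by linarith) (by linarith) (by linarith)
  · by_cases c2 : |c| ≤ |b|
    · have ab : |a| ≤ |b| := by
        by_contra h
        exact c1 ⟨by linarith, by linarith⟩
      have b0 : b ≠ 0 := abs_pos.mp (by rcases pos with h | h | h <;> linarith)
      refine pl_cells S ρ lam hl hρ hb 0 2 fun u hu v hv p q => ?_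
      have := pl_third b a c (u 1 - v 1) (u 0 - v 0) (u 2 - v 2) b0 ab c2
        (by have := hd u hu v hv; linarith)
      exact fin u hu v hv (by linarith) (by linarith) (by linarith)
    · have bc : |b| ≤ |c| := by linarith
      have ac : |a| ≤ |c| := by
        by_contra h
        exact c1 ⟨by linarith, by linarith⟩
      have c0 : c ≠ 0 := abs_pos.mp (by rcases pos with h | h | h <;> linarith)
      refine pl_cells S ρ lam hl hρ hb 0 1 fun u hu v hv p q => ?_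
      have := pl_third c a b (u 2 - v 2) (u 0 - v 0) (u 1 - v 1) c0 ac bc
        (by have := hd u hu v hv; linarith)
      exact fin u hu v hv (by linarith) (by linarith) (by linarith)

end Pool.Agent.Lib.MP_e56372_nt.Dim
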