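import Pool.Agent.Lib.MP_e56372_nt.Dim.Defs3
import Pool.Agent.Lib.MP_e56372_nt.Dim.PointA
import Pool.Agent.Lib.MP_e56372_nt.Dim.PL

set_option autoImplicit false
open MeasureTheory Filter Topology Finset

namespace Pool.Agent.Lib.MP_e56372_nt.Dim
open Pool.Agent.Lib.MP_e56372_nt

theorem pointb_one_le (A B ξ ζ : ℝ) (q : ℕ) : 1 ≤ wt A B ξ ζ q :=
  one_le_mul_of_one_le_of_one_le (le_max_left _ _) (le_max_left _ _)

theorem pointb_term {w K : ℝ} (hK : 0 < K) (hw : K ≤ w) (j : ℕ) :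
    1 / w ^ (j + 2) ≤ 1 / K ^ j * (1 / w ^ 2) := by
  have hw0 : 0 < w := hK.trans_le hw
  rw [one_div_mul_one_div, pow_add]
  exact one_div_le_one_div_of_le (by positivity)
    (mul_le_mul_of_nonneg_right (pow_le_pow_left₀ hK.le hw j) (by positivity))

theorem point_surv (A B K ξ ζ : ℝ) (Q k : ℕ) (hA : 0 < A) (hB : 0 < B) (hK : 1 ≤ K) (hk : 1 ≤ k)
    (h : ∀ q ∈ Icc 1 Q, K < wt A B ξ ζ q) :
    ∑ q ∈ Icc 1 Q, 1 / (wt A B ξ ζ q) ^ (2 * k) ≤ 3200 / K ^ (2 * (k - 1)) := by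
  have hs : SepP A B Q 1 ξ ζ := by
    rintro q h1 h2 ⟨h3, h4⟩
    have := h q (mem_Icc.2 ⟨h1, by exact_mod_cast (by simpa using h2 : (q : ℝ) ≤ Q)⟩)
    unfold wt at this
    rw [max_eq_left h3, max_eq_left h4] at this
    linarith
  have h5 := point_sum A B 1 ξ ζ Q hA hB one_pos le_rfl hs
  have hK0 : 0 < K := by linarith
  have e : 2 * k = 2 * (k - 1) + 2 := by omega
  calc ∑ q ∈ Icc 1 Q, 1 / (wt A B ξ ζ q) ^ (2 * k)
      ≤ ∑ q ∈ Icc 1 Q, 1 / K ^ (2 * (k - 1)) * (1 / (wt A B ξ ζ q) ^ 2) :=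
        sum_le_sum fun q hq => by rw [e]; exact pointb_term hK0 (h q hq).le _
    _ = 1 / K ^ (2 * (k - 1)) * ∑ q ∈ Icc 1 Q, 1 / (wt A B ξ ζ q) ^ 2 := (mul_sum _ _ _).symm
    _ ≤ 1 / K ^ (2 * (k - 1)) * (3200 / 1 ^ 3) := mul_le_mul_of_nonneg_left h5 (by positivity)
    _ = 3200 / K ^ (2 * (k - 1)) := by ring

/-- The scaled point of `q`. -/
noncomputable def pointb_P (A B ξ ζ : ℝ) (Q q : ℕ) : V3 :=
  ![A * (q * ξ - round (q * ξ)), B * (q * ζ - round (q * ζ)), (q : ℝ) / Q]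

theorem pointb_prod {a b c L : ℝ} (ha : |a| ≤ L) (hb : |b| ≤ L) (hc : |c| ≤ 1) :
    |a * b * c| ≤ L ^ 2 := by
  have hL : 0 ≤ L := (abs_nonneg a).trans ha
  rw [abs_mul, abs_mul]
  calc |a| * |b| * |c| ≤ L * L * 1 :=
        mul_le_mul (mul_le_mul ha hb (abs_nonneg _) hL) hc (abs_nonneg _) (by positivity)
    _ = L ^ 2 := by ring

theorem pointb_det_le {u v w : V3} {L : ℝ} (hu : |u 0| ≤ L ∧ |u 1| ≤ L ∧ |u 2| ≤ 1)
    (hv : |v 0| ≤ L ∧ |v 1| ≤ L ∧ |v 2| ≤ 1) (hw : |w 0| ≤ L ∧ |w 1| ≤ L ∧ |w 2| ≤ 1) :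
    |det3 u v w| ≤ 6 * L ^ 2 := by
  have h1 := abs_le.1 (pointb_prod hu.1 hv.2.1 hw.2.2)
  have h2 := abs_le.1 (pointb_prod hu.1 hw.2.1 hv.2.2)
  have h3 := abs_le.1 (pointb_prod hv.1 hu.2.1 hw.2.2)
  have h4 := abs_le.1 (pointb_prod hw.1 hu.2.1 hv.2.2)
  have h5 := abs_le.1 (pointb_prod hv.1 hw.2.1 hu.2.2)
  have h6 := abs_le.1 (pointb_prod hw.1 hv.2.1 hu.2.2)
  have e : det3 u v w = u 0 * v 1 * w 2 - u 0 * w 1 * v 2 - v 0 * u 1 * w 2 + w 0 * u 1 * v 2 +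
      v 0 * w 1 * u 2 - w 0 * v 1 * u 2 := by unfold det3; ring
  rw [e, abs_le]
  constructor <;> linarith [h1.1, h1.2, h2.1, h2.2, h3.1, h3.2, h4.1, h4.2, h5.1, h5.2, h6.1, h6.2]

theorem pointb_det_int (A B ξ ζ : ℝ) (Q p q r : ℕ) : ∃ N : ℤ,
    det3 (pointb_P A B ξ ζ Q p) (pointb_P A B ξ ζ Q q) (pointb_P A B ξ ζ Q r) = A * B / Q * N := by
  refine ⟨round (p * ξ) * (round (q * ζ) * r - q * round (r * ζ)) -
    round (p * ζ) * (round (q * ξ) * r - q * round (r * ξ)) +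
    p * (round (q * ξ) * round (r * ζ) - round (q * ζ) * round (r * ξ)), ?_⟩
  simp only [det3, pointb_P, Matrix.cons_val_zero, Matrix.cons_val_one, Matrix.cons_val_two,
    Matrix.head_cons, Matrix.tail_cons]
  push_cast
  ring

theorem pointb_sep {A B η ξ ζ : ℝ} {Q p q : ℕ} (hA : 0 < A) (hB : 0 < B) (hQ : 0 < Q)
    (h : SepP A B Q η ξ ζ) (hpq : q < p) :
    ∃ k, η < |pointb_P A B ξ ζ Q p k - pointb_P A B ξ ζ Q q k| := by
  by_contra hc
  push Not at hc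
  have h0 := hc 0
  have h1 := hc 1
  have h2 := hc 2
  simp only [pointb_P, Matrix.cons_val_zero, Matrix.cons_val_one, Matrix.cons_val_two,
    Matrix.head_cons, Matrix.tail_cons] at h0 h1 h2
  have hQ' : (0 : ℝ) < Q := by exact_mod_cast hQ
  have key : ∀ C θ : ℝ, 0 < C → |C * (p * θ - round (p * θ)) - C * (q * θ - round (q * θ))| ≤ η →
      C * nd (((p - q : ℕ) : ℝ) * θ) ≤ η := by
    intro C θ hC hh
    refine le_trans ?_ hh
    rw [← mul_sub, abs_mul, abs_of_pos hC]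
    refine mul_le_mul_of_nonneg_left ?_ hC.le
    refine (round_le _ (round (p * θ) - round (q * θ))).trans_eq ?_
    rw [Nat.cast_sub hpq.le]
    push_cast
    congr 1
    ring
  refine h (p - q) (by omega) ?_ ⟨key A ξ hA h0, key B ζ hB h1⟩
  rw [Nat.cast_sub hpq.le, ← div_le_iff₀ hQ', sub_div]
  exact (le_abs_self _).trans h2

theorem pointb_card (A B L η ξ ζ : ℝ) (Q : ℕ) (hA : 0 < A) (hB : 0 < B) (h0 : 0 < η) (h1 : η ≤ 1)
    (hL : 1 ≤ L) (hLQ : 6 * L ^ 2 * Q < A * B) (h : SepP A B Q η ξ ζ) (S : Finset ℕ)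
    (hS : ∀ q ∈ S, q ∈ Icc 1 Q ∧ A * nd (q * ξ) ≤ L ∧ B * nd (q * ζ) ≤ L) :
    (S.card : ℝ) ≤ 25 * L ^ 2 / η ^ 2 := by
  classical
  rcases S.eq_empty_or_nonempty with rfl | ⟨q0, hq0⟩
  · simp only [card_empty, Nat.cast_zero]; positivity
  have hQ : 0 < Q := by have := mem_Icc.1 (hS q0 hq0).1; omega
  have hQ' : (0 : ℝ) < Q := by exact_mod_cast hQ
  have hb : ∀ q ∈ S, |pointb_P A B ξ ζ Q q 0| ≤ L ∧ |pointb_P A B ξ ζ Q q 1| ≤ L ∧
      |pointb_P A B ξ ζ Q q 2| ≤ 1 := by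
    intro q hq
    obtain ⟨a1, a2, a3⟩ := hS q hq
    simp only [pointb_P, Matrix.cons_val_zero, Matrix.cons_val_one, Matrix.cons_val_two,
      Matrix.head_cons, Matrix.tail_cons]
    refine ⟨by rw [abs_mul, abs_of_pos hA]; exact a2, by rw [abs_mul, abs_of_pos hB]; exact a3, ?_⟩
    rw [abs_of_nonneg (by positivity), div_le_one hQ']
    exact_mod_cast (mem_Icc.1 a1).2
  have hsep : ∀ p q : ℕ, p ≠ q →
      ∃ k, η < |pointb_P A B ξ ζ Q p k - pointb_P A B ξ ζ Q q k| := by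
    intro p q hne
    rcases lt_or_gt_of_ne hne with hlt | hlt
    · obtain ⟨k, hk⟩ := pointb_sep hA hB hQ h hlt
      exact ⟨k, by rwa [abs_sub_comm]⟩
    · exact pointb_sep hA hB hQ h hlt
  have hinj : Function.Injective (pointb_P A B ξ ζ Q) := by
    intro p q e
    by_contra hne
    obtain ⟨k, hk⟩ := hsep p q hne
    rw [e, sub_self, abs_zero] at hk
    linarith
  have hc := card_coplanar_le (S.image (pointb_P A B ξ ζ Q)) L η h0 (by linarith) (by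
    intro w hw k
    obtain ⟨q, hq, rfl⟩ := mem_image.1 hw
    obtain ⟨a1, a2, a3⟩ := hb q hq
    fin_cases k
    · exact a1
    · exact a2
    · exact a3.trans hL) (by
    intro u hu v hv w hw
    obtain ⟨p, hp, rfl⟩ := mem_image.1 hu
    obtain ⟨q, hq, rfl⟩ := mem_image.1 hv
    obtain ⟨r, hr, rfl⟩ := mem_image.1 hw
    have d1 := pointb_det_le (hb p hp) (hb q hq) (hb r hr)
    obtain ⟨N, hN⟩ := pointb_det_int A B ξ ζ Q p q r
    rw [hN] at d1 ⊢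
    have hpos : 0 < A * B / Q := by positivity
    have d2 : 6 * L ^ 2 < A * B / Q := by rwa [lt_div_iff₀ hQ']
    rw [abs_mul, abs_of_pos hpos] at d1
    have d3 : |(N : ℝ)| < 1 := by
      by_contra hc
      have := mul_le_mul_of_nonneg_left (not_lt.1 hc) hpos.le
      linarith
    have d4 : N = 0 := Int.abs_lt_one_iff.1 (by exact_mod_cast d3)
    simp [d4]) (by
    intro u hu v hv hne
    obtain ⟨p, -, rfl⟩ := mem_image.1 hu
    obtain ⟨q, -, rfl⟩ := mem_image.1 hv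
    exact hsep p q fun e => hne (by rw [e]))
  rw [card_image_of_injective _ hinj] at hc
  have h2 : 1 ≤ L / η := by rw [le_div_iff₀ h0]; linarith
  calc (S.card : ℝ) ≤ (4 * L / η + 1) ^ 2 := hc
    _ ≤ (5 * (L / η)) ^ 2 := by
        refine pow_le_pow_left₀ (by positivity) ?_ 2
        rw [mul_div_assoc]; linarith
    _ = 25 * L ^ 2 / η ^ 2 := by ring

theorem point_cop (A B L η ξ ζ : ℝ) (Q k : ℕ) (hA : 0 < A) (hB : 0 < B) (h0 : 0 < η) (h1 : η ≤ 1)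
    (hL : 1 ≤ L) (hLQ : 6 * L ^ 2 * Q < A * B) (hk : 2 ≤ k) (h : SepP A B Q η ξ ζ) :
    ∑ q ∈ Icc 1 Q, 1 / (wt A B ξ ζ q) ^ (2 * k) ≤ 25 * L ^ 2 / η ^ 2 + 3200 / (L ^ 2 * η ^ 3) := by
  classical
  have h5 := point_sum A B η ξ ζ Q hA hB h0 h1 h
  have hL0 : 0 < L := by linarith
  have h6 := pointb_card A B L η ξ ζ Q hA hB h0 h1 hL hLQ h
    ((Icc 1 Q).filter fun q : ℕ => A * nd (q * ξ) ≤ L ∧ B * nd (q * ζ) ≤ L)
    (fun q hq => mem_filter.1 hq)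
  have h7 : ∀ q ∈ Icc 1 Q, 1 / (wt A B ξ ζ q) ^ (2 * k) ≤
      (if A * nd (q * ξ) ≤ L ∧ B * nd (q * ζ) ≤ L then (1 : ℝ) else 0) +
        1 / L ^ 2 * (1 / (wt A B ξ ζ q) ^ 2) := by
    intro q _
    have w1 := pointb_one_le A B ξ ζ q
    split_ifs with hq
    · have : 1 / (wt A B ξ ζ q) ^ (2 * k) ≤ 1 := by
        rw [div_le_one (by positivity)]
        exact one_le_pow₀ w1
      have : 0 ≤ 1 / L ^ 2 * (1 / (wt A B ξ ζ q) ^ 2) := by positivity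
      linarith
    · have w2 : L ≤ wt A B ξ ζ q := by
        have a1 := le_max_left 1 (A * nd (q * ξ))
        have a2 := le_max_right 1 (A * nd (q * ξ))
        have b1 := le_max_left 1 (B * nd (q * ζ))
        have b2 := le_max_right 1 (B * nd (q * ζ))
        unfold wt
        rcases not_and_or.1 hq with hq | hq
        · have := not_le.1 hq
          nlinarith
        · have := not_le.1 hq
          nlinarith
      rw [zero_add]
      refine le_trans ?_ (pointb_term hL0 w2 2)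
      exact one_div_le_one_div_of_le (by positivity) (pow_le_pow_right₀ w1 (by omega))
  refine (sum_le_sum h7).trans ?_
  rw [sum_add_distrib, ← mul_sum, sum_boole]
  have h8 : 1 / L ^ 2 * ∑ q ∈ Icc 1 Q, 1 / (wt A B ξ ζ q) ^ 2 ≤ 1 / L ^ 2 * (3200 / η ^ 3) :=
    mul_le_mul_of_nonneg_left h5 (by positivity)
  have h9 : 1 / L ^ 2 * (3200 / η ^ 3) = 3200 / (L ^ 2 * η ^ 3) := by field_simp
  linarith

end Pool.Agent.Lib.MP_e56372_nt.Dim
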