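import Pool.Agent.Lib.MP_e56372_nt.Dim.Defs

set_option autoImplicit false
open MeasureTheory Filter Topology Finset

namespace Pool.Agent.Lib.MP_e56372_nt.Dim
open Pool.Agent.Lib.MP_e56372_nt

theorem tr_round (x : ℝ) (p : ℤ) : |x - round x| ≤ |x - p| := round_le x p

theorem tr_pigeon (ξ : ℝ) (a r : ℤ) (m B : ℕ) (hm : 0 < m) (hB : 0 < B) :
    ∃ q : ℕ, 0 < q ∧ q ≤ m * B ∧ ∃ p : ℤ, |(q : ℝ) * ξ - p| ≤ 1 / m ∧ (B : ℤ) ∣ q * r + a * p := by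
  have hm' : (0 : ℝ) < m := by exact_mod_cast hm
  have hB' : (0 : ℤ) < B := by exact_mod_cast hB
  let f : ℕ → ℤ × ℤ := fun q =>
    (⌊(m : ℝ) * Int.fract ((q : ℝ) * ξ)⌋, ((q : ℤ) * r + a * ⌊(q : ℝ) * ξ⌋) % (B : ℤ))
  have hmaps : ∀ q ∈ range (m * B + 1), f q ∈ (Ico (0 : ℤ) m) ×ˢ (Ico (0 : ℤ) B) := by
    intro q _
    have h0 := Int.fract_nonneg ((q : ℝ) * ξ)
    have h1 := Int.fract_lt_one ((q : ℝ) * ξ)
    refine mem_product.2 ⟨mem_Ico.2 ⟨?_, ?_⟩, mem_Ico.2 ⟨?_, ?_⟩⟩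
    · exact Int.floor_nonneg.2 (mul_nonneg hm'.le h0)
    · refine Int.floor_lt.2 ?_
      push_cast
      nlinarith
    · exact Int.emod_nonneg _ hB'.ne'
    · exact Int.emod_lt_of_pos _ hB'
  have hcard : ((Ico (0 : ℤ) m) ×ˢ (Ico (0 : ℤ) B)).card < (range (m * B + 1)).card := by
    simp
  have key : ∀ q1 q2 : ℕ, q1 < q2 → q2 < m * B + 1 → f q1 = f q2 →
      ∃ q : ℕ, 0 < q ∧ q ≤ m * B ∧ ∃ p : ℤ, |(q : ℝ) * ξ - p| ≤ 1 / m ∧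
        (B : ℤ) ∣ q * r + a * p := by
    intro q1 q2 h12 h2 e
    have e1 : ⌊(m : ℝ) * Int.fract ((q1 : ℝ) * ξ)⌋ = ⌊(m : ℝ) * Int.fract ((q2 : ℝ) * ξ)⌋ :=
      (Prod.mk.inj e).1
    have e2 : ((q1 : ℤ) * r + a * ⌊(q1 : ℝ) * ξ⌋) % (B : ℤ) =
        ((q2 : ℤ) * r + a * ⌊(q2 : ℝ) * ξ⌋) % (B : ℤ) := (Prod.mk.inj e).2
    refine ⟨q2 - q1, by omega, by omega, ⌊(q2 : ℝ) * ξ⌋ - ⌊(q1 : ℝ) * ξ⌋, ?_, ?_⟩
    · have h3 := Int.abs_sub_lt_one_of_floor_eq_floor e1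
      have h4 : ((q2 - q1 : ℕ) : ℝ) * ξ - ((⌊(q2 : ℝ) * ξ⌋ - ⌊(q1 : ℝ) * ξ⌋ : ℤ) : ℝ) =
          -(Int.fract ((q1 : ℝ) * ξ) - Int.fract ((q2 : ℝ) * ξ)) := by
        rw [Nat.cast_sub h12.le]
        unfold Int.fract
        push_cast
        ring
      rw [h4, abs_neg, le_div_iff₀ hm']
      rw [← mul_sub, abs_mul, abs_of_pos hm'] at h3
      linarith
    · have h3 := Int.ModEq.dvd e2
      rw [Nat.cast_sub h12.le]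
      convert h3 using 1
      ring
  obtain ⟨x, hx, y, hy, hxy, e⟩ := exists_ne_map_eq_of_card_lt_of_maps_to hcard hmaps
  rcases lt_or_gt_of_ne hxy with h | h
  · exact key x y h (mem_range.1 hy) e
  · exact key y x h (mem_range.1 hx) e.symm

theorem tr_core (ξ ζ : ℝ) (C : ℝ) (hC : 0 < C) (Q : ℕ) (a b r : ℤ) (hb : b ≠ 0)
    (h1 : |(a : ℝ) * b| ≤ Q / C) (h2 : 2 * |(b : ℝ)| ≤ Q)
    (h3 : |a * ξ + b * ζ + r| ≤ 1 / (C * Q)) :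
    ∃ q : ℕ, 0 < q ∧ q ≤ Q ∧
      |(q : ℝ) * ξ - round ((q : ℝ) * ξ)| * |(q : ℝ) * ζ - round ((q : ℝ) * ζ)| ≤ 6 / (C * Q) := by
  have hB : 0 < b.natAbs := Int.natAbs_pos.2 hb
  have hBe : ((b.natAbs : ℕ) : ℝ) = |(b : ℝ)| := by
    rw [← Int.cast_abs, ← Int.natCast_natAbs]; simp
  set B := b.natAbs with hBdef
  have hB' : (0 : ℝ) < B := by exact_mod_cast hB
  have h2' : 2 * B ≤ Q := by
    rw [← hBe] at h2
    exact_mod_cast h2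
  have hQ : (0 : ℝ) < Q := by
    have : 0 < Q := by omega
    exact_mod_cast this
  have hm : 0 < Q / B := Nat.div_pos (by omega) hB
  have hm1 : Q / B * B ≤ Q := Nat.div_mul_le_self Q B
  have hm2 : Q ≤ 2 * (Q / B * B) := by
    have k1 := Nat.div_add_mod Q B
    have k2 := Nat.mod_lt Q hB
    have k3 : B ≤ Q / B * B := Nat.le_mul_of_pos_left B hm
    rw [Nat.mul_comm B] at k1
    omega
  set m := Q / B with hmdef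
  have hm' : (0 : ℝ) < m := by exact_mod_cast hm
  have hm2' : (Q : ℝ) ≤ 2 * (m * B) := by exact_mod_cast hm2
  obtain ⟨q, hq0, hq1, p, hp, hd⟩ := tr_pigeon ξ a r m B hm hB
  have hd' : b ∣ q * r + a * p := by
    rw [hBdef] at hd
    exact Int.natAbs_dvd.1 hd
  obtain ⟨s, hs⟩ := hd'
  have hs' : (q : ℝ) * r + a * p = b * s := by exact_mod_cast hs
  have hqQ : (q : ℝ) ≤ Q := by exact_mod_cast hq1.trans hm1
  refine ⟨q, hq0, hq1.trans hm1, ?_⟩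
  have k0 : 1 / (m : ℝ) ≤ 2 * B / Q := by
    rw [div_le_div_iff₀ hm' hQ]; linarith
  have k1 : |(q : ℝ) * ξ - p| ≤ 2 * B / Q := hp.trans k0
  have k2 : (b : ℝ) * (q * ζ - ((-s : ℤ) : ℝ)) = q * (a * ξ + b * ζ + r) - a * (q * ξ - p) := by
    push_cast
    linarith
  have k3 : (B : ℝ) * |(q : ℝ) * ζ - ((-s : ℤ) : ℝ)| ≤ Q * (1 / (C * Q)) + |(a : ℝ)| * (2 * B / Q) := by
    rw [hBe, ← abs_mul, k2]
    refine (abs_sub _ _).trans (add_le_add ?_ ?_)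
    · rw [abs_mul, abs_of_nonneg (Nat.cast_nonneg q)]
      exact mul_le_mul hqQ h3 (abs_nonneg _) hQ.le
    · rw [abs_mul, ← hBe]
      exact mul_le_mul_of_nonneg_left k1 (abs_nonneg _)
  have k4 : |(a : ℝ)| * B ≤ Q / C := by rw [hBe, ← abs_mul]; exact h1
  have k5 : |(q : ℝ) * ξ - round ((q : ℝ) * ξ)| ≤ 2 * B / Q := (tr_round _ p).trans k1
  have k6 := tr_round ((q : ℝ) * ζ) (-s)
  calc _ ≤ 2 * B / Q * |(q : ℝ) * ζ - ((-s : ℤ) : ℝ)| :=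
        mul_le_mul k5 k6 (abs_nonneg _) (by positivity)
    _ = 2 / Q * ((B : ℝ) * |(q : ℝ) * ζ - ((-s : ℤ) : ℝ)|) := by ring
    _ ≤ 2 / Q * (Q * (1 / (C * Q)) + |(a : ℝ)| * (2 * B / Q)) :=
        mul_le_mul_of_nonneg_left k3 (by positivity)
    _ = 2 / (C * Q) + 4 / Q ^ 2 * (|(a : ℝ)| * B) := by field_simp; ring
    _ ≤ 2 / (C * Q) + 4 / Q ^ 2 * (Q / C) := by gcongr
    _ = 6 / (C * Q) := by field_simp; ring

theorem tr_mmin_le (ξ ζ Q : ℝ) (q : ℕ) (h0 : 0 < q) (h1 : (q : ℝ) ≤ Q) :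
    mmin ξ ζ Q ≤ |(q : ℝ) * ξ - round ((q : ℝ) * ξ)| * |(q : ℝ) * ζ - round ((q : ℝ) * ζ)| := by
  unfold mmin
  refine ciInf_le (f := fun q : {q : ℕ // 0 < q ∧ (q : ℝ) ≤ Q} =>
    |((q.1 : ℝ) * ξ) - (round ((q.1 : ℝ) * ξ) : ℝ)| *
    |((q.1 : ℝ) * ζ) - (round ((q.1 : ℝ) * ζ) : ℝ)|) ⟨0, ?_⟩ ⟨q, h0, h1⟩
  rintro _ ⟨x, rfl⟩
  exact mul_nonneg (abs_nonneg _) (abs_nonneg _)

theorem dualGood_of_mmin (ξ ζ : ℝ) (c0 T : ℕ)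
    (h : 7 / ((2 : ℝ) ^ c0 * 2 ^ T) ≤ mmin ξ ζ (2 ^ T)) : DualGood c0 T ξ ζ := by
  intro a b r hab h1 h2 h3
  by_contra hc
  push Not at hc
  have hC : (0 : ℝ) < 2 ^ c0 := by positivity
  have hQ : ((2 ^ T : ℕ) : ℝ) = (2 : ℝ) ^ T := by push_cast; rfl
  have hlt : 6 / ((2 : ℝ) ^ c0 * 2 ^ T) < 7 / ((2 : ℝ) ^ c0 * 2 ^ T) :=
    div_lt_div_of_pos_right (by norm_num) (by positivity)
  rcases hab with ha | hb
  · obtain ⟨q, h0, hq, hle⟩ := tr_core ζ ξ (2 ^ c0) hC (2 ^ T) b a r ha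
      (by rw [hQ, mul_comm]; exact h1) (by rw [hQ]; exact h2)
      (by rw [hQ, add_comm ((b : ℝ) * ζ)]; exact hc)
    have := tr_mmin_le ξ ζ (2 ^ T) q h0 (by rw [← hQ]; exact_mod_cast hq)
    rw [hQ, mul_comm] at hle
    linarith
  · obtain ⟨q, h0, hq, hle⟩ := tr_core ξ ζ (2 ^ c0) hC (2 ^ T) a b r hb
      (by rw [hQ]; exact h1) (by rw [hQ]; exact h3) (by rw [hQ]; exact hc)
    have := tr_mmin_le ξ ζ (2 ^ T) q h0 (by rw [← hQ]; exact_mod_cast hq)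
    rw [hQ] at hle
    linarith

end Pool.Agent.Lib.MP_e56372_nt.Dim
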