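import Pool.Agent.Lib.MP_e56372_nt.Dim.Defs3
import Pool.Agent.Lib.MP_e56372_nt.Dim.TR

set_option autoImplicit false
open MeasureTheory Filter Topology Finset

namespace Pool.Agent.Lib.MP_e56372_nt.Dim
open Pool.Agent.Lib.MP_e56372_nt

theorem prim_nd_nonneg (x : ℝ) : 0 ≤ nd x := abs_nonneg _

theorem prim_nd_half (x : ℝ) : nd x ≤ 1 / 2 := abs_sub_round x

theorem prim_nd_lip (x y : ℝ) : nd x ≤ nd y + |x - y| := by
  unfold nd
  refine (tr_round x (round y)).trans ?_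
  have e : x - (round y : ℝ) = (y - round y) + (x - y) := by ring
  rw [e]
  exact abs_add_le _ _

theorem prim_nd_mul (q : ℕ) (x y : ℝ) : nd (q * x) ≤ nd (q * y) + q * |x - y| := by
  have := prim_nd_lip (q * x) (q * y)
  rwa [← mul_sub, abs_mul, Nat.abs_cast] at this

theorem prim_one (A ξ ξ' : ℝ) (Q q : ℕ) (hA : 0 < A) (hq : q ≤ Q) (h1 : A * Q * |ξ - ξ'| ≤ 1) :
    A * nd (q * ξ') ≤ 2 * max 1 (A * nd (q * ξ)) := by
  have a1 := prim_nd_mul q ξ' ξ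
  rw [abs_sub_comm] at a1
  have a2 : (q : ℝ) ≤ Q := by exact_mod_cast hq
  have a3 : A * (q * |ξ - ξ'|) ≤ A * Q * |ξ - ξ'| := by
    rw [mul_assoc]
    gcongr
  have a4 := mul_le_mul_of_nonneg_left a1 hA.le
  have a5 := le_max_left 1 (A * nd (q * ξ))
  have a6 := le_max_right 1 (A * nd (q * ξ))
  rw [mul_add] at a4
  linarith

theorem prim_robust (A B K ξ ζ ξ' ζ' : ℝ) (Q q : ℕ) (hA : 0 < A) (hB : 0 < B) (hq : q ∈ Icc 1 Q)
    (h : wt A B ξ ζ q ≤ K) (h1 : A * Q * |ξ - ξ'| ≤ 1) (h2 : B * Q * |ζ - ζ'| ≤ 1) :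
    mmin ξ' ζ' Q ≤ 4 * K / (A * B) := by
  obtain ⟨q1, q2⟩ := mem_Icc.1 hq
  have a1 := prim_one A ξ ξ' Q q hA q2 h1
  have a2 := prim_one B ζ ζ' Q q hB q2 h2
  have a3 : mmin ξ' ζ' Q ≤ nd (q * ξ') * nd (q * ζ') :=
    tr_mmin_le ξ' ζ' Q q q1 (by exact_mod_cast q2)
  refine a3.trans ?_
  rw [le_div_iff₀ (mul_pos hA hB)]
  have a4 := mul_le_mul a1 a2 (mul_nonneg hB.le (prim_nd_nonneg _))
    (mul_nonneg (by norm_num) (zero_le_one.trans (le_max_left _ _)))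
  unfold wt at h
  linarith

theorem prim_perturb (ξ ζ ξ' ζ' : ℝ) (c T n : ℕ) (h : PrimGood c T ξ ζ)
    (h1 : |ξ - ξ'| ≤ 1 / 2 ^ n) (h2 : |ζ - ζ'| ≤ 1 / 2 ^ n) (hn : 2 * T + c ≤ n) :
    PrimGood (c + 2) T ξ' ζ' := by
  unfold PrimGood at h ⊢
  have p1 : (1 : ℝ) ≤ 2 ^ T := one_le_pow₀ (by norm_num)
  have : Nonempty {q : ℕ // 0 < q ∧ (q : ℝ) ≤ 2 ^ T} := ⟨⟨1, one_pos, by simpa using p1⟩⟩
  unfold mmin
  refine le_ciInf fun q => ?_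
  obtain ⟨q, q1, q2⟩ := q
  have a0 : 1 / ((2 : ℝ) ^ c * 2 ^ T) ≤ nd (q * ξ) * nd (q * ζ) :=
    h.trans (tr_mmin_le ξ ζ _ q q1 q2)
  change _ ≤ nd (q * ξ') * nd (q * ζ')
  set ε : ℝ := 1 / ((2 : ℝ) ^ c * 2 ^ T) with hε
  have t5 : (2 : ℝ) ^ T * (1 / 2 ^ n) ≤ ε := by
    rw [hε, mul_one_div, div_le_div_iff₀ (by positivity) (by positivity), one_mul, ← pow_add,
      ← pow_add]
    exact pow_le_pow_right₀ (by norm_num) (by omega)
  have b1 : (q : ℝ) * |ξ - ξ'| ≤ ε := (mul_le_mul q2 h1 (abs_nonneg _) (by positivity)).trans t5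
  have b2 : (q : ℝ) * |ζ - ζ'| ≤ ε := (mul_le_mul q2 h2 (abs_nonneg _) (by positivity)).trans t5
  have c1 := prim_nd_mul q ξ ξ'
  have c2 := prim_nd_mul q ζ ζ'
  have u0 := prim_nd_nonneg (q * ξ)
  have v0 := prim_nd_nonneg (q * ζ)
  have d1 := mul_le_mul_of_nonneg_left (prim_nd_half (q * ζ)) u0
  have d2 := mul_le_mul_of_nonneg_right (prim_nd_half (q * ξ)) v0
  have e1 : nd (q * ξ) / 2 ≤ nd (q * ξ') := by linarith
  have e2 : nd (q * ζ) / 2 ≤ nd (q * ζ') := by linarith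
  have e3 := mul_le_mul e1 e2 (by linarith) (prim_nd_nonneg _)
  have e4 : 1 / ((2 : ℝ) ^ (c + 2) * 2 ^ T) = ε / 4 := by
    rw [hε, pow_add]; field_simp; norm_num
  rw [e4]
  linarith

theorem prim_mono (ξ ζ : ℝ) (c c' T : ℕ) (hc : c ≤ c') (h : PrimGood c T ξ ζ) :
    PrimGood c' T ξ ζ := by
  unfold PrimGood at h ⊢
  refine le_trans ?_ h
  gcongr
  norm_num

theorem mmin_shift (ξ ζ Q : ℝ) (j k : ℤ) : mmin (ξ + j) (ζ + k) Q = mmin ξ ζ Q := by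
  have e : ∀ (x : ℝ) (i : ℤ) (q : ℕ), (q : ℝ) * (x + i) - round ((q : ℝ) * (x + i)) =
      q * x - round ((q : ℝ) * x) := by
    intro x i q
    have : (q : ℝ) * (x + i) = q * x + ((q * i : ℤ) : ℝ) := by push_cast; ring
    rw [this, round_add_intCast]
    push_cast
    ring
  unfold mmin
  simp only [e]

theorem denseLv_of_denseP (c0 G n : ℕ) (ξ ζ : ℝ) (h : DenseP c0 G n ξ ζ) :
    DenseLv (c0 + 3) G n ξ ζ := by
  intro T h1 h2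
  obtain ⟨T', a1, a2, a3⟩ := h T h1 h2
  refine ⟨T', a1, a2, dualGood_of_mmin ξ ζ _ _ (le_trans ?_ a3)⟩
  rw [div_le_div_iff₀ (by positivity) (by positivity), pow_add]
  have : (0 : ℝ) < 2 ^ c0 * 2 ^ T' := by positivity
  norm_num
  linarith

end Pool.Agent.Lib.MP_e56372_nt.Dim
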