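import Pool.Agent.Lib.MP_e56372_nt.Dim.Jack
import Pool.Agent.Lib.MP_e56372_nt.Dim.Expand
import Pool.Agent.Lib.MP_e56372_nt.Dim.First
import Pool.Agent.Lib.MP_e56372_nt.Dim.PointA
import Pool.Agent.Lib.MP_e56372_nt.Dim.PointB
import Pool.Agent.Lib.MP_e56372_nt.Dim.NonSep
import Pool.Agent.Lib.MP_e56372_nt.Dim.KInt
import Pool.Agent.Lib.MP_e56372_nt.Dim.Prim
import Pool.Agent.Lib.MP_e56372_nt.Dim.Kill

set_option autoImplicit false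
open MeasureTheory Filter Topology Finset

namespace Pool.Agent.Lib.MP_e56372_nt.Dim
open Pool.Agent.Lib.MP_e56372_nt

theorem kill2_n1 (z : ℝ) (m : ℕ) (hz : 2 ^ 54 ≤ z) (hm : 24 ≤ m) (hmz : (m : ℝ) ≤ z) :
    3200 / z ^ (2 * (m - 1)) ≤ 1 / z ^ (m + 2) / (m : ℝ) ^ 2 / 128 := by
  have hz1 : 1 ≤ z := le_trans (by norm_num) hz
  have hz0 : 0 < z := by linarith
  have hm0 : (0 : ℝ) < m := by exact_mod_cast (by omega : 0 < m)
  have e : z ^ (m + 2) * z ^ 3 ≤ z ^ (2 * (m - 1)) := by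
    rw [← pow_add]
    exact pow_le_pow_right₀ hz1 (by omega)
  have h2 : (m : ℝ) ^ 2 ≤ z ^ 2 := pow_le_pow_left₀ hm0.le hmz 2
  have h3 : 3200 * ((m : ℝ) ^ 2 * 128) ≤ z ^ 3 := by
    calc 3200 * ((m : ℝ) ^ 2 * 128) = 409600 * (m : ℝ) ^ 2 := by ring
      _ ≤ z * z ^ 2 := mul_le_mul (le_trans (by norm_num) hz) h2 (by positivity) hz0.le
      _ = z ^ 3 := by ring
  rw [div_div, div_div, div_le_div_iff₀ (by positivity) (by positivity), one_mul]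
  calc 3200 * (z ^ (m + 2) * ((m : ℝ) ^ 2 * 128))
      = z ^ (m + 2) * (3200 * ((m : ℝ) ^ 2 * 128)) := by ring
    _ ≤ z ^ (m + 2) * z ^ 3 := mul_le_mul_of_nonneg_left h3 (by positivity)
    _ ≤ _ := e

theorem kill2_n2 (z η mu : ℝ) (hz : 2 ^ 54 ≤ z) (h0 : 0 < η) (h1 : η ≤ 1 / z ^ 46)
    (hmu : 0 ≤ mu) :
    (25 * (z ^ 12) ^ 2 / (η / 2) ^ 2 + 3200 / ((z ^ 12) ^ 2 * (η / 2) ^ 3)) *
      (30000 * (z ^ 3) ^ 3 * mu * η ^ 3) ≤ mu * (4000000 / z ^ 13) := by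
  have hz1 : 1 ≤ z := le_trans (by norm_num) hz
  have hz0 : 0 < z := by linarith
  have e : (25 * (z ^ 12) ^ 2 / (η / 2) ^ 2 + 3200 / ((z ^ 12) ^ 2 * (η / 2) ^ 3)) *
      (30000 * (z ^ 3) ^ 3 * mu * η ^ 3) = mu * (3000000 * (z ^ 33 * η) + 768000000 / z ^ 15) := by
    field_simp
    ring
  have a1 : z ^ 33 * η ≤ 1 / z ^ 13 := by
    calc z ^ 33 * η ≤ z ^ 33 * (1 / z ^ 46) := mul_le_mul_of_nonneg_left h1 (by positivity)
      _ = 1 / z ^ 13 := by field_simp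
  have a2 : 768000000 / z ^ 15 ≤ 1000000 / z ^ 13 := by
    rw [div_le_div_iff₀ (by positivity) (by positivity)]
    have a3 : 768 ≤ z ^ 2 :=
      le_trans (le_trans (by norm_num) hz) (le_self_pow₀ hz1 (by norm_num))
    calc 768000000 * z ^ 13 = 1000000 * (z ^ 13 * 768) := by ring
      _ ≤ 1000000 * (z ^ 13 * z ^ 2) := by gcongr
      _ = _ := by ring
  rw [e]
  refine mul_le_mul_of_nonneg_left ?_ hmu
  have : 4000000 / z ^ 13 = 3000000 * (1 / z ^ 13) + 1000000 / z ^ 13 := by ring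
  linarith

theorem kill2_n3 (z m I mu : ℝ) (hz : 2 ^ 54 ≤ z) (hm0 : 0 < m) (hmz : m ≤ z)
    (hI : I ≤ 1600 * z ^ 2) (hmu : 0 ≤ mu) :
    I * (mu * (4000000 / z ^ 13)) ≤ mu / m ^ 2 / 128 * (1 / z ^ 3 * (1 / z ^ 3)) := by
  have hz1 : 1 ≤ z := le_trans (by norm_num) hz
  have hz0 : 0 < z := by linarith
  have h2 : m ^ 2 ≤ z ^ 2 := pow_le_pow_left₀ hm0.le hmz 2
  have h3 : 1600 * z ^ 2 * (4000000 / z ^ 13) ≤ 1 / m ^ 2 / 128 * (1 / z ^ 3 * (1 / z ^ 3)) := by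
    have e1 : 1600 * z ^ 2 * (4000000 / z ^ 13) = 6400000000 / z ^ 11 := by
      field_simp
      ring
    have e2 : 1 / m ^ 2 / 128 * (1 / z ^ 3 * (1 / z ^ 3)) = 1 / (128 * m ^ 2 * z ^ 6) := by
      field_simp
    rw [e1, e2, div_le_div_iff₀ (by positivity) (by positivity), one_mul]
    have a3 : z ^ 9 ≤ z ^ 11 := pow_le_pow_right₀ hz1 (by norm_num)
    calc 6400000000 * (128 * m ^ 2 * z ^ 6) = 819200000000 * m ^ 2 * z ^ 6 := by ring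
      _ ≤ z * z ^ 2 * z ^ 6 := mul_le_mul_of_nonneg_right
          (mul_le_mul (le_trans (by norm_num) hz) h2 (by positivity) hz0.le) (by positivity)
      _ = z ^ 9 := by ring
      _ ≤ _ := a3
  calc I * (mu * (4000000 / z ^ 13)) = mu * (I * (4000000 / z ^ 13)) := by ring
    _ ≤ mu * (1600 * z ^ 2 * (4000000 / z ^ 13)) := by gcongr
    _ ≤ mu * (1 / m ^ 2 / 128 * (1 / z ^ 3 * (1 / z ^ 3))) := mul_le_mul_of_nonneg_left h3 hmu
    _ = _ := by ring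

theorem kill2_n4 (z m W a b k R τ σ : ℝ) (hz : 2 ^ 54 ≤ z) (hm0 : 0 < m) (hmz : m ≤ z)
    (hW : 0 < W) (hR : 0 < R) (hk : 0 ≤ k) (ha : 1 / z ^ 3 ≤ a / R) (hb : 1 / z ^ 3 ≤ b / R)
    (hτ : τ ≤ 1 / W / m ^ 2 / 128) (hσ : σ ≤ 1 / W / m ^ 2 / 128 * (1 / z ^ 3 * (1 / z ^ 3)))
    (h : 1 / W / m ^ 2 / 32 * (a / R * (b / R)) ≤
      τ * (a / R * (b / R)) + 3200 / (1 / z ^ 46) ^ 3 * (k / R ^ 2) + σ) :
    a * b ≤ W * z ^ 143 * k := by
  have hz1 : 1 ≤ z := le_trans (by norm_num) hz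
  have hz0 : 0 < z := by linarith
  have h3 : 0 < 1 / z ^ 3 := by positivity
  have hv : 1 / z ^ 3 * (1 / z ^ 3) ≤ a / R * (b / R) := mul_le_mul ha hb h3.le (h3.le.trans ha)
  have hv0 : 0 ≤ a / R * (b / R) := le_trans (by positivity) hv
  have hc : 0 < 1 / W / m ^ 2 := by positivity
  have t1 := mul_le_mul_of_nonneg_right hτ hv0
  have t2 := hσ.trans (mul_le_mul_of_nonneg_left hv (by positivity))
  have t3 : 1 / W / m ^ 2 / 64 * (a / R * (b / R)) ≤ 3200 / (1 / z ^ 46) ^ 3 * (k / R ^ 2) := by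
    linarith
  have e1 : 1 / W / m ^ 2 / 64 * (a / R * (b / R)) = a * b / (W * m ^ 2 * 64 * R ^ 2) := by
    field_simp
  have e2 : 3200 / (1 / z ^ 46) ^ 3 * (k / R ^ 2) =
      204800 * m ^ 2 * (W * z ^ 138 * k) / (W * m ^ 2 * 64 * R ^ 2) := by
    field_simp
    ring
  rw [e1, e2, div_le_div_iff_of_pos_right (by positivity)] at t3
  have h2 : m ^ 2 ≤ z ^ 2 := pow_le_pow_left₀ hm0.le hmz 2
  have h4 : 204800 * m ^ 2 ≤ z ^ 5 := by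
    calc 204800 * m ^ 2 ≤ z * z ^ 2 :=
          mul_le_mul (le_trans (by norm_num) hz) h2 (by positivity) hz0.le
      _ = z ^ 3 := by ring
      _ ≤ z ^ 5 := pow_le_pow_right₀ hz1 (by norm_num)
  calc a * b ≤ 204800 * m ^ 2 * (W * z ^ 138 * k) := t3
    _ ≤ z ^ 5 * (W * z ^ 138 * k) := mul_le_mul_of_nonneg_right h4 (by positivity)
    _ = _ := by ring

theorem kill2_step (P : ℕ → Prop) (h0 : ¬ P 0) (I : ℕ) (h : P I) :
    ∃ i < I, ¬ P i ∧ P (i + 1) := by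
  induction I with
  | zero => exact absurd h h0
  | succ n ih =>
    by_cases hn : P n
    · obtain ⟨i, hi, h2⟩ := ih hn
      exact ⟨i, by omega, h2⟩
    · exact ⟨n, by omega, hn, h⟩

theorem kill2_wt (A B ξ ζ : ℝ) (q : ℕ) : 1 ≤ wt A B ξ ζ q :=
  one_le_mul_of_one_le_of_one_le (le_max_left _ _) (le_max_left _ _)

theorem kill2_close (D l p x e : ℕ) (ξ y C : ℝ) (h : InCell (D + l) (p * 2 ^ l + x) ξ)
    (h1 : (x : ℝ) ≤ ((2 ^ l : ℕ) : ℝ) * y) (h2 : ((2 ^ l : ℕ) : ℝ) * y < x + 1)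
    (hC : C = 2 ^ e) (he : e ≤ D + l) : C * |(p : ℝ) / 2 ^ D + y / 2 ^ D - ξ| ≤ 1 := by
  have hR : (0 : ℝ) < ((2 ^ l : ℕ) : ℝ) := by positivity
  have h3 := kill_near D l p x ξ y h ((div_le_iff₀' hR).2 h1) ((lt_div_iff₀' hR).2 h2)
  have hD : (0 : ℝ) < 2 ^ D := by positivity
  have e1 : (p : ℝ) / 2 ^ D + y / 2 ^ D - ξ = -((2 ^ D * ξ - p - y) / 2 ^ D) := by
    field_simp
    ring
  have h4 : C ≤ 2 ^ D * 2 ^ l := by
    rw [hC, ← pow_add]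
    exact pow_le_pow_right₀ (by norm_num) he
  rw [e1, abs_neg, abs_div, abs_of_pos hD]
  calc C * (|2 ^ D * ξ - p - y| / 2 ^ D) ≤ 2 ^ D * 2 ^ l * (1 / 2 ^ l / 2 ^ D) := by gcongr
    _ = 1 := by field_simp

theorem kill2_pig (X F : Finset ℕ) (hX : X.Nonempty) (P : ℕ → ℕ → Prop) (Γ : ℕ)
    (Kd : Finset (ℕ × ℕ)) (hK : ∀ w ∈ Kd, w.1 ∈ X ∧ w.2 ∈ F ∧ P w.1 w.2)
    (h : X.card * F.card ≤ Γ * Kd.card) :
    ∃ x ∈ X, ∃ Y ⊆ F, F.card ≤ Γ * Y.card ∧ ∀ y ∈ Y, P x y := by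
  classical
  have h1 : Kd.card ≤ ∑ x ∈ X, (F.filter (P x)).card := by
    rw [← card_sigma]
    refine card_le_card_of_injOn (fun w => (⟨w.1, w.2⟩ : Σ _ : ℕ, ℕ)) (fun w hw => ?_) ?_
    · obtain ⟨a, b, c⟩ := hK w hw
      simp [a, b, c]
    · intro w _ w' _ e
      simp only [Sigma.mk.injEq, heq_eq_eq] at e
      exact Prod.ext e.1 e.2
  have h2 : ∑ _x ∈ X, F.card ≤ ∑ x ∈ X, Γ * (F.filter (P x)).card := by
    rw [sum_const, smul_eq_mul, ← mul_sum]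
    exact h.trans (Nat.mul_le_mul_left _ h1)
  obtain ⟨x, hx, h3⟩ := exists_le_of_sum_le hX h2
  exact ⟨x, hx, _, filter_subset _ _, h3, fun y hy => (mem_filter.1 hy).2⟩

theorem kill2 (lam m s t T p q : ℕ) (hm : 24 ≤ m) (hlam : m + 30 ≤ lam)
    (hst : 400 * ((m + 60) * lam) + 5 ≤ s + t)
    (hT : T + (m + 28) * lam = s + t + 800 * ((m + 60) * lam))
    (hgood : ¬ Short ((p : ℝ) / 2 ^ (2 * s + t)) ((q : ℝ) / 2 ^ (s + 2 * t)) s t lam)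
    (l : ℕ) (hl : l = 1200 * ((m + 60) * lam)) (X F : Finset ℕ) (hX : X ⊆ range (2 ^ l))
    (hF : F ⊆ range (2 ^ l)) (hXc : 2 ^ (l - 3 * lam) < X.card) (hFc : 2 ^ (l - 3 * lam) < F.card) :
    ∃ x ∈ X, ∃ Y ⊆ F, F.card ≤ 2 ^ ((m + 145) * lam) * Y.card ∧ ∀ y ∈ Y, ∀ ξ ζ : ℝ,
      InCell (2 * s + t + l) (p * 2 ^ l + x) ξ → InCell (s + 2 * t + l) (q * 2 ^ l + y) ζ →
      ¬ PrimGood (m * lam) T ξ ζ := by
  classical
  have n60 : (m + 60) * lam = m * lam + 60 * lam := add_mul _ _ _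
  have n28 : (m + 28) * lam = m * lam + 28 * lam := add_mul _ _ _
  have n2 : (m + 2) * lam = m * lam + 2 * lam := add_mul _ _ _
  obtain ⟨u, hu⟩ : ∃ u, u + 13 * lam = 400 * ((m + 60) * lam) :=
    ⟨400 * ((m + 60) * lam) - 13 * lam, by omega⟩
  obtain ⟨T', rfl⟩ : ∃ T', T = T' + 2 := ⟨T - 2, by omega⟩
  obtain ⟨A, hA⟩ : ∃ A : ℕ, A = 2 ^ (u + s) := ⟨_, rfl⟩
  obtain ⟨B, hB⟩ : ∃ B : ℕ, B = 2 ^ (u + t) := ⟨_, rfl⟩
  obtain ⟨Q1, hQ1⟩ : ∃ Q1 : ℕ, Q1 = 2 ^ T' := ⟨_, rfl⟩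
  have hQn : 4 * Q1 = 2 ^ (T' + 2) := by rw [hQ1, pow_add, mul_comm]; rfl
  have hQ : 4 * Q1 * 2 ^ ((m + 2) * lam) = A * B := by
    rw [hQn, hA, hB, ← pow_add, ← pow_add]
    congr 1
    omega
  obtain ⟨z, hzd⟩ : ∃ z : ℝ, z = 2 ^ lam := ⟨_, rfl⟩
  have hz : 2 ^ 54 ≤ z := hzd ▸ pow_le_pow_right₀ (by norm_num) (by omega)
  have hz1 : 1 ≤ z := le_trans (by norm_num) hz
  have hz0 : 0 < z := by linarith
  have hp : ∀ k : ℕ, (2 : ℝ) ^ (k * lam) = z ^ k := fun k => by rw [hzd, mul_comm, pow_mul]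
  have hlz : (lam : ℝ) ≤ z := by
    rw [hzd]
    exact_mod_cast Nat.lt_two_pow_self.le
  have hml : (m : ℝ) + 30 ≤ lam := by exact_mod_cast hlam
  have hm24 : (24 : ℝ) ≤ m := by exact_mod_cast hm
  have hmz : (m : ℝ) ≤ z := by linarith
  have h8 : (8 : ℝ) ^ lam = z ^ 3 := by
    rw [← hp 3, pow_mul]
    norm_num
  have hAr : (A : ℝ) = 2 ^ u * 2 ^ s := by rw [hA, pow_add]; push_cast; rfl
  have hBr : (B : ℝ) = 2 ^ u * 2 ^ t := by rw [hB, pow_add]; push_cast; rfl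
  have hA0 : (0 : ℝ) < A := by rw [hAr]; positivity
  have hB0 : (0 : ℝ) < B := by rw [hBr]; positivity
  have hQr : ((4 * Q1 : ℕ) : ℝ) = 2 ^ (T' + 2) := by rw [hQn]; push_cast; rfl
  have hQ0 : (0 : ℝ) < ((4 * Q1 : ℕ) : ℝ) := by rw [hQr]; positivity
  have hAB : (A : ℝ) * B = ((4 * Q1 : ℕ) : ℝ) * z ^ (m + 2) := by
    rw [← hp]
    exact_mod_cast hQ.symm
  have hW : 0 < z ^ (m + 2) := by positivity
  have hmu : ((4 * Q1 : ℕ) : ℝ) / 2 ^ (s + t) / (2 ^ u) ^ 2 = 1 / z ^ (m + 2) := by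
    rw [div_div, div_eq_div_iff (by positivity) hW.ne', ← hAB, hAr, hBr, pow_add]
    ring
  obtain ⟨cA, hcA⟩ := jackson A m (hA ▸ Nat.one_le_two_pow) (by omega)
  obtain ⟨cB, hcB⟩ := jackson B m (hB ▸ Nat.one_le_two_pow) (by omega)
  obtain ⟨c1, hc1⟩ := jackson Q1 1 (hQ1 ▸ Nat.one_le_two_pow) le_rfl
  obtain ⟨Ψ, hΨ, hex⟩ := expand A B Q1 m (hQ1 ▸ Nat.one_le_two_pow) cA cB c1 hcA hcB hc1
  obtain ⟨a1, b1, r1, a2, b2, r2, a3, b3, r3, hfr⟩ :=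
    frame_of_not_short _ _ s t lam (by omega) (by omega) hgood
  rw [h8] at hfr
  have hR : 0 < 2 ^ l := by positivity
  have hRr : (0 : ℝ) < ((2 ^ l : ℕ) : ℝ) := by positivity
  have hvol : ∀ Y : Finset ℕ, 2 ^ (l - 3 * lam) < Y.card →
      1 / z ^ 3 ≤ (Y.card : ℝ) / ((2 ^ l : ℕ) : ℝ) := by
    intro Y hY
    have h1 : 2 ^ l ≤ Y.card * 2 ^ (3 * lam) := by
      calc 2 ^ l = 2 ^ (l - 3 * lam) * 2 ^ (3 * lam) := by
            rw [← pow_add]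
            congr 1
            omega
        _ ≤ _ := Nat.mul_le_mul_right _ hY.le
    rw [div_le_div_iff₀ (by positivity) hRr, one_mul, ← hp 3]
    exact_mod_cast h1
  have low := first lam m s t u A B Q1 hm hlam hu hst hA hB hQ _ _ hgood cA cB hcA hcB Ψ hΨ
    (kill_cells (2 ^ l) X) (kill_cells (2 ^ l) F) (kill_meas _ _) (kill_meas _ _)
    (kill_sub _ hR _ hX) (kill_sub _ hR _ hF)
    (by rw [h8, kill_vol _ hR]; exact hvol X hXc) (by rw [h8, kill_vol _ hR]; exact hvol F hFc)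
  rw [kill_vol _ hR, kill_vol _ hR] at low
  generalize hξ0 : (p : ℝ) / 2 ^ (2 * s + t) = ξ0 at low hfr
  generalize hζ0 : (q : ℝ) / 2 ^ (s + 2 * t) = ζ0 at low hfr
  obtain ⟨η, hη⟩ : ∃ η : ℕ → ℝ, ∀ i, η i = 1 / z ^ 46 / 2 ^ i := ⟨_, fun _ => rfl⟩
  have hη0 : ∀ i, 0 < η i := fun i => by rw [hη]; positivity
  have hη1 : ∀ i, η i ≤ 1 / z ^ 46 := fun i => by
    rw [hη]
    exact div_le_self (by positivity) (one_le_pow₀ (by norm_num))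
  have hη2 : ∀ i, η i ≤ 1 := fun i =>
    (hη1 i).trans ((div_le_one (by positivity)).2 (one_le_pow₀ hz1))
  have hη3 : ∀ i, η (i + 1) = η i / 2 := fun i => by rw [hη, hη, pow_succ 2, div_div _ _ 2]
  have hη4 : η 0 = 1 / z ^ 46 := by rw [hη, pow_zero, div_one]
  have hU : 12 * z ^ 3 ≤ 2 ^ u := by
    calc 12 * z ^ 3 ≤ z * z ^ 3 :=
          mul_le_mul_of_nonneg_right (le_trans (by norm_num) hz) (by positivity)
      _ = 2 ^ (4 * lam) := by rw [hp]; ring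
      _ ≤ _ := pow_le_pow_right₀ (by norm_num) (by omega)
  choose Rr hR1 hR2 hR3 hR4 using fun i => nonsep_cover ξ0 ζ0 (z ^ 3) (2 ^ u) (η i) s t (4 * Q1)
    a1 b1 r1 a2 b2 r2 a3 b3 r3 hfr hU (hη0 i) (hη2 i)
  simp only [hmu] at hR2
  simp only [← hAr, ← hBr] at hR4
  obtain ⟨I, hI⟩ : ∃ I, I = 800 * ((m + 60) * lam) := ⟨_, rfl⟩
  have hemp : Rr I = ∅ := by
    apply hR3
    have e1 : (2 : ℝ) ^ (T' + 2) ≤ 2 ^ I * 2 ^ (s + t) := by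
      rw [← pow_add]
      exact pow_le_pow_right₀ (by norm_num) (by omega)
    have e2 : 4 * z ^ 3 < z ^ 46 := by
      calc 4 * z ^ 3 < z * z ^ 3 :=
            mul_lt_mul_of_pos_right (lt_of_lt_of_le (by norm_num) hz) (by positivity)
        _ = z ^ 4 := by ring
        _ ≤ _ := pow_le_pow_right₀ hz1 (by norm_num)
    rw [hη, hQr]
    calc 4 * z ^ 3 * (1 / z ^ 46 / 2 ^ I) * (2 ^ (T' + 2) / 2 ^ (s + t))
        ≤ 4 * z ^ 3 * (1 / z ^ 46 / 2 ^ I) * (2 ^ I * 2 ^ (s + t) / 2 ^ (s + t)) := by gcongr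
      _ = 4 * z ^ 3 / z ^ 46 := by field_simp
      _ < 1 := (div_lt_one (by positivity)).2 e2
  have hLQ : 6 * (z ^ 12) ^ 2 * ((4 * Q1 : ℕ) : ℝ) < A * B := by
    rw [hAB, mul_comm]
    refine mul_lt_mul_of_pos_left ?_ hQ0
    calc 6 * (z ^ 12) ^ 2 < z * (z ^ 12) ^ 2 :=
          mul_lt_mul_of_pos_right (lt_of_lt_of_le (by norm_num) hz) (by positivity)
      _ = z ^ 25 := by ring
      _ ≤ _ := pow_le_pow_right₀ hz1 (by omega)
  obtain ⟨β, hβ⟩ : ∃ β : ℕ → ℝ, ∀ i, β i =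
    25 * (z ^ 12) ^ 2 / η (i + 1) ^ 2 + 3200 / ((z ^ 12) ^ 2 * η (i + 1) ^ 3) := ⟨_, fun _ => rfl⟩
  have hβ0 : ∀ i, 0 ≤ β i := fun i => by
    have := hη0 (i + 1)
    rw [hβ]
    positivity
  obtain ⟨P, hP⟩ : ∃ P : ℕ → ℕ → Prop, ∀ x y, P x y ↔ ∀ ξ ζ : ℝ,
      InCell (2 * s + t + l) (p * 2 ^ l + x) ξ → InCell (s + 2 * t + l) (q * 2 ^ l + y) ζ →
      ¬ PrimGood (m * lam) (T' + 2) ξ ζ := ⟨_, fun _ _ => Iff.rfl⟩
  simp only [← hP]
  have up := kill_int (2 ^ l) hR X F hX hF ((X ×ˢ F).filter fun w => P w.1 w.2)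
    (fun x y => Q1 * Sf (m * A) (m * B) cA cB Ψ (ξ0 + x / 2 ^ (2 * s + t))
      (ζ0 + y / 2 ^ (s + 2 * t))) (by have := hΨ.cont; unfold Sf; fun_prop)
    (3200 / z ^ (2 * (m - 1))) (3200 / (1 / z ^ 46) ^ 3) (by positivity)
    ((range I).sigma fun i => Rr i) (fun j => j.2.1) (fun j => j.2.2.1) (fun j => j.2.2.2)
    (fun j => β j.1) (fun j hj => hR1 _ _ (mem_sigma.1 hj).2) (fun j _ => hβ0 _) ?_
    (by positivity)
  · refine kill2_pig X F (card_pos.1 (lt_of_le_of_lt (Nat.zero_le _) hXc)) P _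
      ((X ×ˢ F).filter fun w => P w.1 w.2) (fun w hw => ?_) ?_
    · obtain ⟨h1, h2⟩ := mem_filter.1 hw
      exact ⟨(mem_product.1 h1).1, (mem_product.1 h1).2, h2⟩
    simp only [integral_const_mul] at up
    have hσ : ∑ j ∈ (range I).sigma fun i => Rr i, β j.1 * (2 * j.2.2.2) ^ 2 ≤
        I * (1 / z ^ (m + 2) * (4000000 / z ^ 13)) := by
      rw [sum_sigma]
      refine (sum_le_card_nsmul _ _ _ fun i _ => ?_).trans (by rw [card_range, nsmul_eq_mul])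
      dsimp only
      rw [← mul_sum]
      refine (mul_le_mul_of_nonneg_left (hR2 i) (hβ0 i)).trans ?_
      rw [hβ, hη3]
      exact kill2_n2 z _ _ hz (hη0 i) (hη1 i) (by positivity)
    have hI2 : (I : ℝ) ≤ 1600 * z ^ 2 := by
      rw [hI]
      push_cast
      calc 800 * (((m : ℝ) + 60) * lam) ≤ 800 * (2 * z * z) := by gcongr; linarith
        _ = _ := by ring
    have hm0 : (0 : ℝ) < m := by linarith
    have key := kill2_n4 z m _ X.card F.card _ _ _ _ hz hm0 hmz hW hRr (Nat.cast_nonneg _)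
      (hvol X hXc) (hvol F hFc) (kill2_n1 z m hz hm hmz)
      (hσ.trans (kill2_n3 z m I _ hz hm0 hmz hI2 (by positivity))) (le_trans ?_ up)
    · rw [← pow_add, ← hp] at key
      exact_mod_cast key
    · refine le_trans (le_of_eq ?_) (mul_le_mul_of_nonneg_left low (Nat.cast_nonneg _))
      have hQ4 : (0 : ℝ) < Q1 := by
        push_cast at hQ0
        linarith
      rw [mul_assoc _ (A : ℝ), hAB]
      push_cast
      field_simp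
      ring
  · intro x hx y hy x' y' x1 x2 y1 y2
    refine (?_ : _ ∨ _ ∨ _)
    have hx1 : x' ∈ Set.Icc (0 : ℝ) 1 := kill_sub _ hR _ hX (Set.mem_biUnion hx
      ⟨(div_le_iff₀' hRr).2 x1, (lt_div_iff₀' hRr).2 x2⟩)
    have hy1 : y' ∈ Set.Icc (0 : ℝ) 1 := kill_sub _ hR _ hF (Set.mem_biUnion hy
      ⟨(div_le_iff₀' hRr).2 y1, (lt_div_iff₀' hRr).2 y2⟩)
    have h4 := fun i => hR4 i x' hx1 y' hy1
    have c1 := fun ξ h => kill2_close (2 * s + t) l p x (u + s + (T' + 2)) ξ x'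
      (A * ((4 * Q1 : ℕ) : ℝ)) h x1 x2 (by rw [hAr, hQr, ← pow_add, ← pow_add]) (by omega)
    have c2 := fun ζ h => kill2_close (s + 2 * t) l q y (u + t + (T' + 2)) ζ y'
      (B * ((4 * Q1 : ℕ) : ℝ)) h y1 y2 (by rw [hBr, hQr, ← pow_add, ← pow_add]) (by omega)
    rw [hξ0] at c1
    rw [hζ0] at c2
    have hS := hex (ξ0 + x' / 2 ^ (2 * s + t)) (ζ0 + y' / 2 ^ (s + 2 * t))
    generalize ξ0 + x' / 2 ^ (2 * s + t) = ξ1 at *
    generalize ζ0 + y' / 2 ^ (s + 2 * t) = ζ1 at *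
    by_cases hs : ∀ n ∈ Icc 1 (4 * Q1), z < wt A B ξ1 ζ1 n
    · exact Or.inl (hS.trans (point_surv A B z ξ1 ζ1 _ m hA0 hB0 hz1 (by omega) hs))
    right
    by_cases h0 : SepP A B (4 * Q1) (η 0) ξ1 ζ1
    · left
      push Not at hs
      obtain ⟨n, hn, hw⟩ := hs
      refine ⟨mem_filter.2 ⟨mem_product.2 ⟨hx, hy⟩, (hP _ _).2 fun ξ ζ h1 h2 hG => ?_⟩, ?_⟩
      · have h3 := prim_robust A B z ξ1 ζ1 ξ ζ _ n hA0 hB0 hn hw (c1 ξ h1) (c2 ζ h2)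
        unfold PrimGood at hG
        rw [hAB, hQr] at h3
        have h5 := hG.trans h3
        rw [hp, div_le_div_iff₀ (by positivity) (by positivity), one_mul] at h5
        have h6 : (2 : ℝ) ^ (T' + 2) * z ^ m * z * z ≤ 2 ^ (T' + 2) * z ^ m * z * 4 := by
          calc _ = (2 : ℝ) ^ (T' + 2) * z ^ (m + 2) := by ring
            _ ≤ _ := h5
            _ = _ := by ring
        have h7 := le_of_mul_le_mul_left h6 (by positivity)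
        linarith [show (4 : ℝ) < 2 ^ 54 by norm_num]
      · rw [← hη4]
        refine hS.trans (le_trans (sum_le_sum fun n _ => ?_)
          (point_sum A B _ ξ1 ζ1 _ hA0 hB0 (hη0 0) (hη2 0) h0))
        have h9 := kill2_wt A B ξ1 ζ1 n
        exact one_div_le_one_div_of_le (by positivity) (pow_le_pow_right₀ h9 (by omega))
    · right
      have hI1 : SepP A B (4 * Q1) (η I) ξ1 ζ1 := by
        by_contra h1
        obtain ⟨w, hw, -⟩ := h4 I h1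
        rw [hemp] at hw
        exact notMem_empty _ hw
      obtain ⟨i, hi, h1, h2⟩ := kill2_step (fun i => SepP A B (4 * Q1) (η i) ξ1 ζ1) h0 I hI1
      obtain ⟨w, hw, w1, w2⟩ := h4 i h1
      refine ⟨⟨i, w⟩, mem_sigma.2 ⟨mem_range.2 hi, hw⟩, w1, w2, hS.trans ?_⟩
      rw [hβ]
      exact point_cop A B _ _ ξ1 ζ1 _ m hA0 hB0 (hη0 _) (hη2 _) (one_le_pow₀ hz1) hLQ
        (by omega) h2

end Pool.Agent.Lib.MP_e56372_nt.Dim
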