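import Pool.Agent.Lib.MP_e56372_nt.Dim.Defs4
import Pool.Agent.Lib.MP_e56372_nt.Dim.Count3

set_option autoImplicit false
open MeasureTheory Filter Topology Finset

namespace Pool.Agent.Lib.MP_e56372_nt.Dim
open Pool.Agent.Lib.MP_e56372_nt

theorem count4_ns (c1 G : ℕ) (ξ ζ : ℝ) (s t : ℤ) (hs : 0 ≤ s) (ht : 0 ≤ t) (T T' : ℕ)
    (hT : (T : ℤ) = s + t) (hT1 : T' ≤ T) (hT2 : T ≤ T' + G) (h : PrimGood c1 T' ξ ζ) :
    ¬ Short ξ ζ s t (G + ((c1 + 3 : ℕ) : ℤ) + 1) := by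
  have hG : DualGood (c1 + 3) T' ξ ζ := by
    refine dualGood_of_mmin ξ ζ _ _ (le_trans ?_ h)
    rw [div_le_div_iff₀ (by positivity) (by positivity), pow_add]
    have : (0 : ℝ) < 2 ^ c1 * 2 ^ T' := by positivity
    norm_num
    linarith
  generalize c1 + 3 = c0 at hG ⊢
  rintro ⟨a, b, r, h0, ha, hb, hL⟩
  have hab : a ≠ 0 ∨ b ≠ 0 := by
    by_contra hcon
    push Not at hcon
    obtain ⟨rfl, rfl⟩ := hcon
    have hr : r ≠ 0 := by simpa using h0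
    have hr1 : (1 : ℝ) ≤ |(r : ℝ)| := by exact_mod_cast Int.one_le_abs hr
    have h3 : (2 : ℝ) ^ (-(s + t + ((G : ℤ) + c0 + 1))) ≤ (2 : ℝ) ^ (-1 : ℤ) :=
      peak_zpow_le (by omega)
    have h4 : (2 : ℝ) ^ (-1 : ℤ) < 1 := by norm_num
    simp only [Int.cast_zero, zero_mul, zero_add] at hL
    linarith
  have e1 : (2 : ℝ) ^ T' / 2 ^ c0 = (2 : ℝ) ^ ((T' : ℤ) - c0) := by
    rw [zpow_sub₀ (by norm_num), zpow_natCast, zpow_natCast]
  have e2 : ∀ m : ℤ, (2 : ℝ) * 2 ^ m = 2 ^ (m + 1) := by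
    intro m
    rw [zpow_add₀ (by norm_num), zpow_one, mul_comm]
  have e3 : 1 / ((2 : ℝ) ^ c0 * 2 ^ T') = (2 : ℝ) ^ (-((c0 : ℤ) + T')) := by
    rw [zpow_neg, zpow_add₀ (by norm_num), zpow_natCast, zpow_natCast, one_div]
  have := hG a b r hab ?_ ?_ ?_
  · rw [e3] at this
    have h3 : (2 : ℝ) ^ (-(s + t + ((G : ℤ) + c0 + 1))) ≤ (2 : ℝ) ^ (-((c0 : ℤ) + T')) :=
      peak_zpow_le (by omega)
    linarith
  · rw [e1, abs_mul]
    refine (mul_le_mul ha hb (abs_nonneg _) (by positivity)).trans ?_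
    rw [← zpow_add₀ (by norm_num)]
    exact peak_zpow_le (by omega)
  · refine (mul_le_mul_of_nonneg_left ha (by norm_num)).trans ?_
    rw [e2, ← zpow_natCast]
    exact peak_zpow_le (by omega)
  · refine (mul_le_mul_of_nonneg_left hb (by norm_num)).trans ?_
    rw [e2, ← zpow_natCast]
    exact peak_zpow_le (by omega)

/-- the growth estimate. -/
theorem count4_grow (r : ℝ) (r1 : 1 < r) (r2 : r ≤ 2) (n N E y a : ℕ) (hE : 3 + E ≤ N)
    (hN : 2 * N ≤ n) (hy : y * N ≤ n) (hn : n + 1 ≤ (y + 1) ^ a)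
    (hr : ((y : ℝ) + 1) ^ (2 * a) ≤ r ^ y) :
    ((n : ℝ) + 1) ^ N * ((2 * N + 1) * r ^ E) * ((n + 1) * (n + 1)) ≤ r ^ n := by
  have r0 : 0 < r := by linarith
  have n1 : (1 : ℝ) ≤ n := by exact_mod_cast (show 1 ≤ n by omega)
  have a1 : (2 * N + 1 : ℝ) ≤ n + 1 := by
    have : 2 * N + 1 ≤ n + 1 := by omega
    exact_mod_cast this
  have a2 : r ^ E ≤ ((n : ℝ) + 1) ^ E := pow_le_pow_left₀ r0.le (by linarith) _
  have a4 : (n : ℝ) + 1 ≤ ((y : ℝ) + 1) ^ a := by exact_mod_cast hn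
  calc ((n : ℝ) + 1) ^ N * ((2 * N + 1) * r ^ E) * ((n + 1) * (n + 1))
      ≤ ((n : ℝ) + 1) ^ N * ((n + 1) * ((n : ℝ) + 1) ^ E) * ((n + 1) * (n + 1)) := by
        refine mul_le_mul_of_nonneg_right (mul_le_mul_of_nonneg_left
          (mul_le_mul a1 a2 (by positivity) (by positivity)) (by positivity)) (by positivity)
    _ = ((n : ℝ) + 1) ^ (N + (3 + E)) := by
        generalize (n : ℝ) + 1 = u
        ring
    _ ≤ ((n : ℝ) + 1) ^ (2 * N) := pow_le_pow_right₀ (by linarith) (by omega)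
    _ ≤ (((y : ℝ) + 1) ^ a) ^ (2 * N) := pow_le_pow_left₀ (by positivity) a4 _
    _ = (((y : ℝ) + 1) ^ (2 * a)) ^ N := by rw [← pow_mul, ← pow_mul]; congr 1; ring
    _ ≤ (r ^ y) ^ N := pow_le_pow_left₀ (by positivity) hr _
    _ = r ^ (y * N) := by rw [← pow_mul]
    _ ≤ r ^ n := pow_le_pow_right₀ r1.le hy

/-- the count for one pattern of good levels. -/
theorem count4_pat (lam m L0 l c0 n N G J W : ℕ) (hW : 2 * (N * G) + 40 * G ≤ W) (ε : ℝ) (hm : 24 ≤ m) (hlam : m + 30 ≤ lam)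
    (hL0 : L0 = (m + 60) * lam) (hl : l = 1200 * L0) (hc0 : c0 = m * lam)
    (hN : 2 * (l * 2 ^ ((m + 145) * lam)) ≤ N) (hP : 1000 * (N * G) ≤ n) (hG : l + c0 + 13 ≤ G)
    (hJ : 10 * (J * l) ≤ n) (hε : 1 / (4 : ℝ) ^ lam ≤ ε)
    (hbad : ∀ (n l J m Hm s0 t0 : ℕ) (ζ : ℝ), 120 * (lam - 2) ≤ l → J * l + 6 * Hm + 6 ≤ s0 →
      2 * s0 + t0 + 12 * Hm ≤ n → 15 * Hm + 6 ≤ t0 →
      ∀ A : Finset ℕ, (∀ u ∈ A, u < 2 ^ n ∧
        (∀ s t : ℤ, 0 ≤ s → 0 ≤ t → |s + t - (s0 + t0)| ≤ 12 * Hm + 12 →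
          ¬ Short ((u : ℝ) / 2 ^ n) ζ s t Hm) ∧
        ∃ T : Finset ℕ, m ≤ T.card ∧ ∀ j ∈ T, j < J ∧
          Short ((u : ℝ) / 2 ^ n) ζ ((s0 : ℤ) - j * l) ((t0 : ℤ) + j * l) ((lam - 2 : ℕ) : ℤ)) →
      (A.card : ℝ) ≤ (2 * (1 + ε)) ^ n / (6 / 5 : ℝ) ^ ((lam - 2) * m / 2))
    (T : ℕ → ℕ)
    (hT : ∀ k < N, 41 * n / 100 + 2 * (k * G) ≤ T k ∧ T k ≤ 41 * n / 100 + 2 * (k * G) + G)
    (A : Finset (ℕ × ℕ))
    (hA : ∀ p ∈ A, p.1 < 2 ^ n ∧ p.2 < 2 ^ n ∧ DenseW c0 G W n (p.1 / 2 ^ n) (p.2 / 2 ^ n) ∧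
      ∀ k < N, PrimGood c0 (T k) (p.1 / 2 ^ n) (p.2 / 2 ^ n)) :
    (A.card : ℝ) ≤ (2 * N + 1) * 2 ^ n *
      ((2 * (1 + ε)) ^ n / (6 / 5 : ℝ) ^ ((lam - 2) * (J / 8) / 2)) := by
  classical
  have ε0 : 0 ≤ ε := le_trans (by positivity) hε
  have L1 : (m + 28) * lam ≤ L0 := by rw [hL0]; exact Nat.mul_le_mul_right _ (by omega)
  have L2 : lam ≤ L0 := by rw [hL0]; exact Nat.le_mul_of_pos_left _ (by omega)
  have Γ1 : 1 ≤ 2 ^ ((m + 145) * lam) := Nat.one_le_two_pow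
  have N1 : 1 ≤ N := by
    have : l ≤ l * 2 ^ ((m + 145) * lam) := Nat.le_mul_of_pos_right _ Γ1
    omega
  have kG : ∀ k < N, k * G + G ≤ N * G := fun k hk => by
    rw [← Nat.succ_mul]; exact Nat.mul_le_mul_right _ hk
  have jl : ∀ j < J, j * l + l ≤ J * l := fun j hj => by
    rw [← Nat.succ_mul]; exact Nat.mul_le_mul_right _ hj
  have GP : G ≤ N * G := Nat.le_mul_of_pos_left _ N1
  obtain ⟨Γ, hΓ⟩ : ∃ Γ, ∀ _ : Unit, Γ = 2 ^ ((m + 145) * lam) := ⟨_, fun _ => rfl⟩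
  obtain ⟨P, hP28⟩ : ∃ P, ∀ _ : Unit, P = (m + 28) * lam := ⟨_, fun _ => rfl⟩
  rw [← hΓ ()] at hN Γ1
  rw [← hP28 ()] at L1
  replace hL0 : ∀ _ : Unit, L0 = (m + 60) * lam := fun _ => hL0
  replace hc0 : ∀ _ : Unit, c0 = m * lam := fun _ => hc0
  replace hN : ∀ _ : Unit, 2 * (l * Γ) ≤ N := fun _ => hN
  obtain ⟨δ, hδ⟩ : ∃ δ, δ + P = 800 * L0 := ⟨800 * L0 - P, by omega⟩
  obtain ⟨σ, hσ⟩ : ∃ σ : ℕ → ℕ, ∀ k < N, σ k + δ = T k :=
    ⟨fun k => T k - δ, fun k hk => by have := hT k hk; simp only; omega⟩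
  obtain ⟨c, hc⟩ : ∃ c, c = 6 * n / 10 := ⟨_, rfl⟩
  let Good : ℕ → ℕ → ℕ → ℕ → Prop := fun k j p q =>
    ¬ Short ((p : ℝ) / 2 ^ (3 * σ k - (c + j * l))) ((q : ℝ) / 2 ^ (c + j * l))
      ((2 * σ k - (c + j * l) : ℕ) : ℤ) ((c + j * l - σ k : ℕ) : ℤ) lam
  let OK : ℕ → ℕ → ℕ → ℕ → Prop := fun k j P Q => ∃ ξ ζ : ℝ,
    InCell (3 * σ k - (c + j * l) + l) P ξ ∧
    InCell (c + j * l + l) Q ζ ∧ PrimGood c0 (T k) ξ ζ
  let Φ : ℕ × ℕ → Prop := fun w => ∀ k < N, ∀ S : Finset ℕ, (∀ j ∈ S, j < J ∧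
    ¬ Good k j (pre n (3 * σ k - (c + j * l)) w.1) (pre n (c + j * l) w.2)) →
      8 * S.card < J
  have h1 : ((A.filter Φ).card : ℝ) ≤
      (N + 1) * 2 ^ n * ((2 * (1 + ε)) ^ n / ((2 : ℝ) ^ lam) ^ (J / 8)) := by
    refine game_count2 n l J N c (2 ^ (l - 3 * lam)) Γ (fun k => 3 * σ k)
      OK Good (by omega) Γ1 (hN ()) ?_ ?_ ?_ (by omega) ?_ (2 ^ lam) ε (one_le_pow₀ (by norm_num)) ?_ _ ?_
    · intro k k' h h'
      have a1 := hT k (by omega)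
      have a2 := hT k' h'
      have a3 := hσ k (by omega)
      have a4 := hσ k' h'
      have a5 : k * G + G ≤ k' * G := by
        rw [← Nat.succ_mul]; exact Nat.mul_le_mul_right _ h
      omega
    · intro k hk
      have a1 := hT k hk
      have a3 := hσ k hk
      omega
    · intro k hk
      have a1 := hT k hk
      have a3 := hσ k hk
      have a4 := kG k hk
      omega
    · intro k hk j hj p q hg X F hX hF hXc hFc
      have a1 := hT k hk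
      have a3 := hσ k hk
      have a4 := kG k hk
      have a5 := jl j hj
      obtain ⟨s, hs⟩ : ∃ s, s = 2 * σ k - (c + j * l) := ⟨_, rfl⟩
      obtain ⟨t, ht⟩ : ∃ t, t = c + j * l - σ k := ⟨_, rfl⟩
      have e1 : 2 * s + t = 3 * σ k - (c + j * l) := by omega
      have e2 : s + 2 * t = c + j * l := by omega
      have e3 : 400 * L0 + 5 ≤ s + t := by clear hXc hFc; omega
      have e4 : T k + P = s + t + 800 * L0 := by clear hXc hFc; omega
      obtain ⟨x, hx, Y, hY, hYc, H⟩ := kill2 lam m s t (T k) p q hm hlam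
        (by rw [← hL0 ()]; exact e3) (by rw [← hL0 (), ← hP28 ()]; exact e4)
        (by rw [e1, e2, hs, ht]; exact hg) l (by rw [← hL0 ()]; exact hl) X F hX hF hXc hFc
      rw [e1, e2, ← hc0 ()] at H
      rw [← hΓ ()] at hYc
      exact ⟨x, hx, Y, hY, hYc, fun y hy ⟨ξ, ζ, b1, b2, b3⟩ => H y hy ξ ζ b1 b2 b3⟩
    · refine le_trans (le_of_eq ?_) hε
      have : (2 : ℝ) ^ l = 2 ^ (l - 3 * lam) * 2 ^ lam * 4 ^ lam := by
        rw [show (4 : ℝ) = 2 ^ 2 by norm_num, ← pow_mul, ← pow_add, ← pow_add]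
        congr 1; omega
      rw [this, Nat.cast_pow, Nat.cast_ofNat]
      field_simp
    · intro w hw
      obtain ⟨hw1, hw2⟩ := mem_filter.1 hw
      obtain ⟨b1, b2, -, b4⟩ := hA w hw1
      refine ⟨b1, b2, fun k hk j hj => ?_, hw2⟩
      have a1 := hT k hk
      have a3 := hσ k hk
      have a4 := kG k hk
      have a5 := jl j hj
      exact ⟨_, _, inCell_pre n _ w.1 (by omega), inCell_pre n _ w.2 (by omega), b4 k hk⟩
  have h2 : ((A.filter fun w => ¬ Φ w).card : ℝ) ≤ ((range N ×ˢ range (2 ^ n)).card : ℝ) *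
      ((2 * (1 + ε)) ^ n / (6 / 5 : ℝ) ^ ((lam - 2) * (J / 8) / 2)) := by
    refine count_fib _ _ (fun w s => w.2 = s.2 ∧ ∃ S : Finset ℕ, (∀ j ∈ S, j < J ∧
      ¬ Good s.1 j (pre n (3 * σ s.1 - (c + j * l)) w.1)
        (pre n (c + j * l) w.2)) ∧ J ≤ 8 * S.card) _ ?_ ?_
    · intro w hw
      obtain ⟨hw1, hw2⟩ := mem_filter.1 hw
      simp only [Φ, not_forall, not_lt] at hw2
      obtain ⟨k, hk, S, hS, hS2⟩ := hw2
      exact ⟨(k, w.2), mem_product.2 ⟨mem_range.2 hk, mem_range.2 (hA w hw1).2.1⟩, rfl, S, hS, hS2⟩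
    · rintro ⟨k, v⟩ hs B hB hR
      have hk : k < N := mem_range.1 (mem_product.1 hs).1
      have a1 := hT k hk
      have a3 := hσ k hk
      have a4 := kG k hk
      have hinj : (B.image Prod.fst).card = B.card := card_image_of_injOn fun x hx y hy h =>
        Prod.ext h ((hR x hx).1.trans (hR y hy).1.symm)
      rw [← hinj]
      refine hbad n l J (J / 8) (G + (c0 + 3) + 1) (2 * σ k - c) (c - σ k) ((v : ℝ) / 2 ^ n)
        (by omega) (by omega) (by omega) (by omega) _ ?_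
      intro u hu
      obtain ⟨w, hw, rfl⟩ := mem_image.1 hu
      obtain ⟨r1, S, hS, hS2⟩ := hR w hw
      obtain ⟨b1, b2, b3, -⟩ := hA w (mem_filter.1 (hB hw)).1
      simp only at r1
      subst r1
      refine ⟨b1, fun s t s0 t0 h => ?_, S, by omega, fun j hj => ⟨(hS j hj).1, ?_⟩⟩
      · rw [abs_le] at h
        obtain ⟨T1, hT1⟩ : ∃ T1 : ℕ, (T1 : ℤ) = s + t := ⟨(s + t).toNat, by omega⟩
        obtain ⟨T', d1, d2, d3⟩ := b3 T1 (by omega) (by omega)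
        have := count4_ns c0 G _ _ s t s0 t0 T1 T' hT1 d1 d2 d3
        exact_mod_cast this
      · have a5 := jl j (hS j hj).1
        have hsh := not_not.1 (hS j hj).2
        simp only at hsh
        obtain ⟨s, hs⟩ : ∃ s, s = 2 * σ k - (c + j * l) := ⟨_, rfl⟩
        obtain ⟨t, ht⟩ : ∃ t, t = c + j * l - σ k := ⟨_, rfl⟩
        have e1 : 2 * s + t = 3 * σ k - (c + j * l) := by omega
        have e2 : s + 2 * t = c + j * l := by omega
        rw [← hs, ← ht, ← e1, ← e2] at hsh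
        have := short_of_trunc _ _ s t _ _ lam (inCell_pre n _ w.1 (by omega))
          (inCell_pre n _ w.2 (by omega)) hsh
        have f0 : ((j * l : ℕ) : ℤ) = (j : ℤ) * ((l : ℕ) : ℤ) := Nat.cast_mul _ _
        have f1 : ((2 * σ k - c : ℕ) : ℤ) - j * ((l : ℕ) : ℤ) = s := by
          rw [← f0]; omega
        have f2 : ((c - σ k : ℕ) : ℤ) + j * ((l : ℕ) : ℤ) = t := by
          rw [← f0]; omega
        have f3 : ((lam - 2 : ℕ) : ℤ) = (lam : ℤ) - 2 := by omega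
        rw [f1, f2, f3]
        exact this
  have h3 : (6 / 5 : ℝ) ^ ((lam - 2) * (J / 8) / 2) ≤ ((2 : ℝ) ^ lam) ^ (J / 8) := by
    rw [← pow_mul]
    refine (pow_le_pow_left₀ (by norm_num) (show (6 / 5 : ℝ) ≤ 2 by norm_num) _).trans
      (pow_le_pow_right₀ (by norm_num) ((Nat.div_le_self _ _).trans ?_))
    exact Nat.mul_le_mul_right _ (Nat.sub_le _ _)
  have h4 : (2 * (1 + ε)) ^ n / ((2 : ℝ) ^ lam) ^ (J / 8) ≤
      (2 * (1 + ε)) ^ n / (6 / 5 : ℝ) ^ ((lam - 2) * (J / 8) / 2) :=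
    div_le_div_of_nonneg_left (by positivity) (by positivity) h3
  have h5 : (A.card : ℝ) = (A.filter Φ).card + (A.filter fun w => ¬ Φ w).card := by
    exact_mod_cast (card_filter_add_card_filter_not (s := A) Φ).symm
  rw [card_product, card_range, card_range, Nat.cast_mul, Nat.cast_pow, Nat.cast_ofNat] at h2
  have h6 := mul_le_mul_of_nonneg_left h4 (show (0 : ℝ) ≤ (N + 1) * 2 ^ n by positivity)
  rw [h5]
  linarith

theorem count4 (m : ℕ) (hm : 24 ≤ m) : ∃ θ : ℝ, 1 ≤ θ ∧ θ < 4 ∧ ∃ lam0 : ℕ, ∀ᶠ n : ℕ in atTop,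
    ∀ A : Finset (ℕ × ℕ), (∀ p ∈ A, p.1 < 2 ^ n ∧ p.2 < 2 ^ n ∧ ∃ lam G : ℕ, lam0 ≤ lam ∧
      2 ^ lam ≤ G ∧ G * 2 ^ ((m + 150) * lam) ≤ n ∧
      DenseW (m * lam) G (G * 2 ^ ((m + 148) * lam)) n (p.1 / 2 ^ n) (p.2 / 2 ^ n)) →
      (A.card : ℝ) ≤ θ ^ n := by
  classical
  obtain ⟨K, hK⟩ : ∃ K : ℕ, K = 384000 * (m + 60) := ⟨_, rfl⟩
  obtain ⟨r, r1, hr⟩ : ∃ r : ℝ, 1 < r ∧ r ^ (3 * K) = 6 / 5 :=
    ⟨(6 / 5 : ℝ) ^ (((3 * K : ℕ) : ℝ)⁻¹),
      Real.one_lt_rpow (by norm_num) (inv_pos.2 (Nat.cast_pos.2 (by omega))),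
      Real.rpow_inv_natCast_pow (by norm_num) (by omega)⟩
  have r0 : 0 < r := by linarith
  have r2 : r ≤ 6 / 5 := hr ▸ le_self_pow₀ r1.le (by omega)
  refine ⟨4 / r, by rw [le_div_iff₀ r0]; linarith, by rw [div_lt_iff₀ r0]; linarith, ?_⟩
  obtain ⟨x1, hbad⟩ := bad_count (r - 1) (by linarith)
  obtain ⟨l0, hl0⟩ := exists_pow_lt_of_lt_one (show 0 < r - 1 by linarith)
    (show (1 / 4 : ℝ) < 1 by norm_num)
  have lim := ((tendsto_pow_const_div_const_pow_of_one_lt (2 * (m + 147)) r1).comp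
    (tendsto_add_atTop_nat 1)).eventually
      (gt_mem_nhds (show (0 : ℝ) < 1 / r by positivity))
  obtain ⟨y0, hy0⟩ := eventually_atTop.1 lim
  refine ⟨m + 30 + x1 + l0 + y0, Eventually.of_forall fun n A0 hA0 => ?_⟩
  have main : ∀ lam G : ℕ, m + 30 + x1 + l0 + y0 ≤ lam → 2 ^ lam ≤ G →
      G * 2 ^ ((m + 150) * lam) ≤ n →
      ∀ A : Finset (ℕ × ℕ), (∀ p ∈ A, p.1 < 2 ^ n ∧ p.2 < 2 ^ n ∧
        DenseW (m * lam) G (G * 2 ^ ((m + 148) * lam)) n (p.1 / 2 ^ n) (p.2 / 2 ^ n)) →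
      (A.card : ℝ) ≤ (4 / r) ^ n / ((n + 1) * (n + 1)) := by
    intro lam G hlam hzG hGn A hA1
    obtain ⟨P, hP⟩ : ∃ P, ∀ _ : Unit, P = 2 ^ ((m + 150) * lam) := ⟨_, fun _ => rfl⟩
    obtain ⟨P', hP'⟩ : ∃ P', ∀ _ : Unit, P' = 2 ^ ((m + 148) * lam) := ⟨_, fun _ => rfl⟩
    rw [← hP ()] at hGn
    rw [← hP' ()] at hA1
    have hc0 : P ≤ n :=
      le_trans (Nat.le_mul_of_pos_left _ (lt_of_lt_of_le (Nat.two_pow_pos _) hzG)) hGn
    have hε : 1 / (4 : ℝ) ^ lam ≤ r - 1 := by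
      rw [← one_div_pow]
      exact (pow_le_pow_of_le_one (by norm_num) (by norm_num) (by omega)).trans hl0.le
    obtain ⟨L0, hL0⟩ : ∃ L0, ∀ _ : Unit, L0 = (m + 60) * lam := ⟨_, fun _ => rfl⟩
    obtain ⟨l, hl⟩ : ∃ l, l = 1200 * L0 := ⟨_, rfl⟩
    obtain ⟨c0, hc⟩ : ∃ c0, ∀ _ : Unit, c0 = m * lam := ⟨_, fun _ => rfl⟩
    obtain ⟨z, hz⟩ : ∃ z, ∀ _ : Unit, z = 2 ^ lam := ⟨_, fun _ => rfl⟩
    obtain ⟨W, hW⟩ : ∃ W, ∀ _ : Unit, W = 2 ^ ((m + 145) * lam) := ⟨_, fun _ => rfl⟩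
    obtain ⟨N, hN⟩ : ∃ N, N = 2 * (l * W) := ⟨_, rfl⟩
    obtain ⟨D, hD⟩ : ∃ D, D = 80 * l + K := ⟨_, rfl⟩
    have L1 : c0 ≤ L0 := by rw [hc (), hL0 ()]; exact Nat.mul_le_mul_right _ (by omega)
    have L2 : m + 60 ≤ L0 := by rw [hL0 ()]; exact Nat.le_mul_of_pos_right _ (by omega)
    have L3 : L0 ≤ 2 * lam ^ 2 := by
      rw [hL0 (), pow_two, ← mul_assoc]; exact Nat.mul_le_mul_right _ (by omega)
    have z1 : 2000 * l ≤ z := by
      have := count3_sq lam (by omega)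
      rw [← hz ()] at this
      omega
    rw [← hz ()] at hzG
    have z2 : lam < z := by rw [hz ()]; exact Nat.lt_two_pow_self
    have hW1 : ∀ _ : Unit, W = z ^ (m + 145) := fun _ => by rw [hW (), hz (), ← pow_mul, mul_comm]
    have hW2 : ∀ _ : Unit, P = W * z ^ 5 := fun _ => by
      rw [hP (), hW1 (), hz (), ← pow_add, ← pow_mul, mul_comm]
    have zW : z ≤ W := by rw [hW1 ()]; exact Nat.le_self_pow (by omega) z
    have lW : l * z ≤ l * W := Nat.mul_le_mul_left _ zW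
    have lz : l * 2000 ≤ l * z := Nat.mul_le_mul_left _ (by omega)
    have N0 : 0 < N := by omega
    have N1 : 1000 * N ≤ W * z := by
      calc 1000 * N = W * (2000 * l) := by rw [hN]; ring
        _ ≤ W * z := Nat.mul_le_mul_left _ z1
    have hV : z * (1000 * N) ≤ P := by
      have z4 : z ≤ z ^ 4 := Nat.le_self_pow (by omega) z
      calc z * (1000 * N) ≤ z ^ 4 * (W * z) := Nat.mul_le_mul z4 N1
        _ = W * z ^ 5 := by ring
        _ = _ := (hW2 ()).symm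
    have hWin : 2 * (N * G) + 40 * G ≤ G * P' := by
      have e1 : P' = W * z ^ 3 := by rw [hP' (), hW1 (), hz (), ← pow_add, ← pow_mul, mul_comm]
      have z3 : z ≤ z ^ 3 := Nat.le_self_pow (by omega) z
      have e2 : 1000 * N ≤ P' := by rw [e1]; exact N1.trans (Nat.mul_le_mul_left _ z3)
      calc 2 * (N * G) + 40 * G = G * (2 * N + 40) := by ring
        _ ≤ G * P' := Nat.mul_le_mul_left _ (by omega)
    have hM : 1000 * N ≤ P :=
      le_trans (Nat.le_mul_of_pos_left _ (by omega)) hV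
    obtain ⟨y, hy⟩ : ∃ y, y = n / N := ⟨_, rfl⟩
    have y1 : z ≤ y := by
      rw [hy, Nat.le_div_iff_mul_le N0]
      exact le_trans (Nat.mul_le_mul_left _ (by omega)) (hV.trans hc0)
    have y2 : y * N ≤ n := by rw [hy]; exact Nat.div_mul_le_self _ _
    have y3 : ∀ _ : Unit, n + 1 ≤ (y + 1) ^ (m + 147) := fun _ => by
      have i1 : n < N * (y + 1) := by rw [hy]; exact Nat.lt_mul_div_succ _ N0
      have i2 : N ≤ (y + 1) ^ (m + 146) := by
        calc N ≤ W * z := by omega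
          _ = z ^ (m + 146) := by rw [hW1 ()]; ring
          _ ≤ (y + 1) ^ (m + 146) := Nat.pow_le_pow_left (by omega) _
      calc n + 1 ≤ N * (y + 1) := i1
        _ ≤ (y + 1) ^ (m + 146) * (y + 1) := Nat.mul_le_mul_right _ i2
        _ = (y + 1) ^ (m + 147) := (pow_succ _ _).symm
    have y4 : ((y : ℝ) + 1) ^ (2 * (m + 147)) ≤ r ^ y := by
      have h1 := hy0 y (by omega)
      simp only [Function.comp] at h1
      rw [div_lt_div_iff₀ (by positivity) r0, Nat.cast_succ, one_mul, pow_succ r] at h1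
      exact (lt_of_mul_lt_mul_right h1 r0.le).le
    have p2 := count4_grow r r1 (by linarith) n N (3 * D) y (m + 147) (by omega) (by omega) y2 (y3 ()) y4
    obtain ⟨J, hJ⟩ : ∃ J, J = n / (10 * l) := ⟨_, rfl⟩
    have hA : ∀ p ∈ A, p.1 < 2 ^ n ∧ p.2 < 2 ^ n ∧
        DenseW c0 G (G * P') n (p.1 / 2 ^ n) (p.2 / 2 ^ n) := fun p hp =>
      ⟨(hA1 p hp).1, (hA1 p hp).2.1, hc () ▸ (hA1 p hp).2.2⟩
    have g1 : l + c0 + 13 ≤ G := by omega
    have g2 : 1000 * (N * G) ≤ n := by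
      calc 1000 * (N * G) = G * (1000 * N) := by ring
        _ ≤ G * P := Nat.mul_le_mul_left _ hM
        _ ≤ n := hGn
    have g3 : 10 * (J * l) ≤ n := by
      have := Nat.mul_div_le n (10 * l)
      rw [← hJ] at this
      calc _ = 10 * l * J := by ring
        _ ≤ n := this
    have GP : G ≤ N * G := Nat.le_mul_of_pos_left _ N0
    have kG : ∀ k < N, k * G + G ≤ N * G := fun k hk => by
      rw [← Nat.succ_mul]; exact Nat.mul_le_mul_right _ hk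
    obtain ⟨e, he⟩ : ∃ e, e = (lam - 2) * (J / 8) / 2 := ⟨_, rfl⟩
    have key : (A.card : ℝ) ≤ ((Fintype.piFinset fun _ : Fin N => range (n + 1)).card : ℝ) *
        ((2 * N + 1) * 2 ^ n * ((2 * (1 + (r - 1))) ^ n / (6 / 5 : ℝ) ^ e)) := by
      refine count_fib _ _ (fun p τ => ∀ k : Fin N, (41 * n / 100 + 2 * (k * G) ≤ τ k ∧
        τ k ≤ 41 * n / 100 + 2 * (k * G) + G) ∧
          PrimGood c0 (τ k) (p.1 / 2 ^ n) (p.2 / 2 ^ n)) _ ?_ ?_
      · intro p hp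
        have : ∀ k : Fin N, ∃ T' : ℕ, T' ≤ 41 * n / 100 + 2 * (k * G) + G ∧
            41 * n / 100 + 2 * (k * G) + G ≤ T' + G ∧
            PrimGood c0 T' (p.1 / 2 ^ n) (p.2 / 2 ^ n) := fun k => by
          have := kG k k.2
          exact (hA p hp).2.2 _ (by omega) (by omega)
        choose τ t1 t2 t3 using this
        refine ⟨τ, Fintype.mem_piFinset.2 fun k => mem_range.2 ?_, fun k => ⟨⟨?_, t1 k⟩, t3 k⟩⟩
        · have := kG k k.2
          have := t1 k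
          omega
        · have := t2 k
          omega
      · intro τ _ B hB hR
        rcases B.eq_empty_or_nonempty with rfl | ⟨p0, hp0⟩
        · rw [card_empty, Nat.cast_zero]
          have : 0 < 1 + (r - 1) := by linarith
          positivity
        rw [he]
        refine count4_pat lam m L0 l c0 n N G J (G * P') hWin (r - 1) hm (by omega) (hL0 ()) hl (hc ())
          (by rw [← hW ()]; omega) g2 g1
          g3 hε (hbad (lam - 2) (by omega)) (fun k => if h : k < N then τ ⟨k, h⟩ else 0) ?_ B ?_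
        · intro k hk
          simp only [hk, dif_pos]
          exact (hR p0 hp0 ⟨k, hk⟩).1
        · intro p hp
          obtain ⟨b1, b2, b3⟩ := hA p (hB hp)
          refine ⟨b1, b2, b3, fun k hk => ?_⟩
          simp only [hk, dif_pos]
          exact (hR p hp ⟨k, hk⟩).2
    have hn : n ≤ K * e + D := by
      have i1 : n < 10 * l * (J + 1) := by
        rw [hJ]; exact Nat.lt_mul_div_succ _ (by omega)
      have i2 : J + 1 ≤ 8 * (J / 8 + 1) := by omega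
      have i3 := Nat.mul_le_mul_left (10 * l) i2
      have i4 : lam * (J / 8) ≤ 2 * (lam - 2) * (J / 8) := Nat.mul_le_mul_right _ (by omega)
      rw [mul_assoc] at i4
      have i6 : lam * (J / 8) ≤ 4 * e + 2 := by omega
      have i5 : 10 * l * (8 * (J / 8 + 1)) =
          96000 * (m + 60) * (lam * (J / 8)) + 80 * l := by
        rw [hl, hL0 ()]; ring
      have i7 := Nat.mul_le_mul_left (96000 * (m + 60)) i6
      have i8 : 96000 * (m + 60) * (4 * e + 2) = K * e + 192000 * (m + 60) := by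
        rw [hK]; ring
      omega
    have p1 : r ^ (3 * n) ≤ (6 / 5 : ℝ) ^ e * r ^ (3 * D) := by
      rw [← hr, ← pow_mul, ← pow_add]
      refine pow_le_pow_right₀ r1.le ?_
      rw [mul_assoc]; omega
    rw [Fintype.card_piFinset, prod_const, card_range, card_univ, Fintype.card_fin, Nat.cast_pow,
      Nat.cast_succ, show 1 + (r - 1) = r by ring] at key
    refine key.trans ?_
    have p3 : ((n : ℝ) + 1) ^ N * (2 * N + 1) * (r ^ n * r ^ n) * ((n + 1) * (n + 1)) ≤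
        (6 / 5 : ℝ) ^ e := by
      refine le_of_mul_le_mul_right ?_ (show 0 < r ^ (3 * D) by positivity)
      refine le_trans ?_ p1
      have := mul_le_mul_of_nonneg_right p2 (show 0 ≤ r ^ n * r ^ n by positivity)
      calc _ = ((n : ℝ) + 1) ^ N * ((2 * N + 1) * r ^ (3 * D)) * ((n + 1) * (n + 1)) *
            (r ^ n * r ^ n) := by
            ring
        _ ≤ r ^ n * (r ^ n * r ^ n) := this
        _ = r ^ (3 * n) := by ring
    rw [div_pow 4 r, mul_pow, show (4 : ℝ) ^ n = 2 ^ n * 2 ^ n by rw [← mul_pow]; norm_num,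
      le_div_iff₀ (mul_pos (Nat.cast_add_one_pos n) (Nat.cast_add_one_pos n)),
      le_div_iff₀ (pow_pos r0 n)]
    have q0 : (0 : ℝ) < (6 / 5) ^ e := pow_pos (by norm_num) e
    calc _ = 2 ^ n * 2 ^ n *
          ((((n : ℝ) + 1) ^ N * (2 * N + 1) * (r ^ n * r ^ n) * ((n + 1) * (n + 1))) /
            (6 / 5) ^ e) := by
          ring
      _ ≤ 2 ^ n * 2 ^ n * 1 :=
          mul_le_mul_of_nonneg_left ((div_le_one q0).2 p3)
            (mul_pos (pow_pos two_pos n) (pow_pos two_pos n)).le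
      _ = _ := mul_one _
  have fin := count_fib A0 (range (n + 1) ×ˢ range (n + 1))
    (fun p w => m + 30 + x1 + l0 + y0 ≤ w.1 ∧ 2 ^ w.1 ≤ w.2 ∧ w.2 * 2 ^ ((m + 150) * w.1) ≤ n ∧
      DenseW (m * w.1) w.2 (w.2 * 2 ^ ((m + 148) * w.1)) n (p.1 / 2 ^ n) (p.2 / 2 ^ n))
    ((4 / r) ^ n / ((n + 1) * (n + 1)))
    (fun p hp => by
      obtain ⟨-, -, lam, G, b0, b1, b2, b3⟩ := hA0 p hp
      have e1 : lam < 2 ^ lam := Nat.lt_two_pow_self
      have e2 : G ≤ n := le_trans (Nat.le_mul_of_pos_right _ (Nat.two_pow_pos _)) b2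
      exact ⟨(lam, G), mem_product.2 ⟨mem_range.2 (Nat.lt_succ_of_le ((e1.le.trans b1).trans e2)),
        mem_range.2 (Nat.lt_succ_of_le e2)⟩, b0, b1, b2, b3⟩)
    (fun w _ B hB hR => by
      rcases B.eq_empty_or_nonempty with rfl | ⟨p0, hp0⟩
      · rw [card_empty, Nat.cast_zero]
        positivity
      exact main w.1 w.2 (hR p0 hp0).1 (hR p0 hp0).2.1 (hR p0 hp0).2.2.1 B fun p hp =>
        ⟨(hA0 p (hB hp)).1, (hA0 p (hB hp)).2.1, (hR p hp).2.2.2⟩)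
  rw [card_product, card_range, Nat.cast_mul, Nat.cast_succ, mul_div_cancel₀ _ (by positivity)] at fin
  exact fin

end Pool.Agent.Lib.MP_e56372_nt.Dim
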