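import Pool.Agent.Lib.MP_e56372_nt.Defs

set_option autoImplicit false
open MeasureTheory

namespace Pool.Agent.Lib.MP_e56372_nt.Dim

/-- dual goodness at level `2^T` with constant `2^(-c0)`. -/
def DualGood (c0 T : ℕ) (ξ ζ : ℝ) : Prop :=
  ∀ a b r : ℤ, (a ≠ 0 ∨ b ≠ 0) → |(a : ℝ) * b| ≤ 2 ^ T / 2 ^ c0 → 2 * |(a : ℝ)| ≤ 2 ^ T →
    2 * |(b : ℝ)| ≤ 2 ^ T → 1 / (2 ^ c0 * 2 ^ T) < |a * ξ + b * ζ + r|

/-- good levels are `G`-dense in `[0.3 n, 0.48 n]`. -/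
def DenseLv (c0 G n : ℕ) (ξ ζ : ℝ) : Prop :=
  ∀ T : ℕ, 3 * n ≤ 10 * T → 25 * T ≤ 12 * n → ∃ T' : ℕ, T' ≤ T ∧ T ≤ T' + G ∧ DualGood c0 T' ξ ζ

/-- a dual vector of height `x` at the corner `(s,t)`. -/
def Short (ξ ζ : ℝ) (s t x : ℤ) : Prop :=
  ∃ a b r : ℤ, (a ≠ 0 ∨ b ≠ 0 ∨ r ≠ 0) ∧ |(a : ℝ)| ≤ (2 : ℝ) ^ (s - x) ∧
    |(b : ℝ)| ≤ (2 : ℝ) ^ (t - x) ∧ |a * ξ + b * ζ + r| ≤ (2 : ℝ) ^ (-(s + t + x))

/-- a peak of the height function. -/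
def Peak (ξ ζ : ℝ) (s t x : ℤ) : Prop :=
  (∃ a b r : ℤ, (2 : ℝ) ^ (s - x - 3) < |(a : ℝ)| ∧ |(a : ℝ)| ≤ (2 : ℝ) ^ (s - x) ∧
    |(b : ℝ)| ≤ (2 : ℝ) ^ (t - x) ∧ |a * ξ + b * ζ + r| ≤ (2 : ℝ) ^ (-(s + t + x))) ∧
  ¬ Short ξ ζ (s - x + 2) (t - x + 2) (x + x / 4 + 1)

/-- `ξ` lies in the dyadic cell number `z` of depth `d`. -/
def InCell (d z : ℕ) (ξ : ℝ) : Prop := (z : ℝ) ≤ 2 ^ d * ξ ∧ 2 ^ d * ξ < z + 1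

/-- the first `d` of the `n` binary digits of `u`. -/
def pre (n d u : ℕ) : ℕ := u / 2 ^ (n - d)

abbrev V3 := Fin 3 → ℝ

def det3 (u v w : V3) : ℝ :=
  u 0 * (v 1 * w 2 - v 2 * w 1) - u 1 * (v 0 * w 2 - v 2 * w 0) + u 2 * (v 0 * w 1 - v 1 * w 0)

/-- the dual lattice vector of `(a,b,r)` scaled at the corner `(s,t)`. -/
noncomputable def lat (ξ ζ : ℝ) (s t a b r : ℤ) : V3 :=
  ![a / (2 : ℝ) ^ s, b / (2 : ℝ) ^ t, (2 : ℝ) ^ (s + t) * (a * ξ + b * ζ + r)]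

def cmb (e f g : V3) (i n m : ℤ) : V3 := fun k => i * e k + n * f k + m * g k

structure Frame (b : ℝ) (e f g : V3) : Prop where
  he : ∀ k, |e k| ≤ b
  hf : ∀ k, |f k| ≤ b
  hg : ∀ k, |g k| ≤ b
  hdet : 1 ≤ |det3 e f g|
  he0 : 1 ≤ |e 0|
  he1 : 1 ≤ |e 1|

def InOm (U : ℝ) (w : V3) : Prop :=
  -(2 * U) ≤ w 0 ∧ w 0 ≤ -U ∧ U ≤ w 1 ∧ w 1 ≤ 2 * U ∧ |w 2| ≤ 4 * U

noncomputable def sl (w : V3) : ℝ := -(w 0) / w 1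
noncomputable def ic (w : V3) : ℝ := -(w 2) / w 1
def nu3 (e w : V3) : ℝ := w 0 * e 1 - w 1 * e 0

noncomputable def Rng (b : ℕ) : Finset ℤ := Finset.Icc (-((b : ℤ) ^ 403)) ((b : ℤ) ^ 403)

open Classical in
/-- good pencils. -/
noncomputable def Pen (b : ℕ) (e f g : V3) : Finset (ℤ × ℤ) :=
  (Rng b ×ˢ Rng b).filter fun p =>
    (b : ℝ) ^ 386 ≤ |nu3 e (cmb e f g 0 p.1 p.2)| ∧ Int.gcd p.1 p.2 ≤ b ^ 14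

open Classical in
/-- points of a pencil in the region. -/
noncomputable def Pts (b : ℕ) (e f g : V3) (p : ℤ × ℤ) : Finset ℤ :=
  (Rng b).filter fun i => InOm ((b : ℝ) ^ 400) (cmb e f g i p.1 p.2)

open Classical in
/-- far pairs on good pencils. -/
noncomputable def Far (b : ℕ) (e f g : V3) : Finset ((ℤ × ℤ) × ℤ × ℤ) :=
  (Pen b e f g ×ˢ (Rng b ×ˢ Rng b)).filter fun q =>
    q.2.1 ∈ Pts b e f g q.1 ∧ q.2.2 ∈ Pts b e f g q.1 ∧ (b : ℤ) ^ 371 ≤ |q.2.1 - q.2.2|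

noncomputable def al (e f g : V3) (q : (ℤ × ℤ) × ℤ × ℤ) : ℝ :=
  sl (cmb e f g q.2.1 q.1.1 q.1.2) / sl (cmb e f g q.2.2 q.1.1 q.1.2)

noncomputable def ga (e f g : V3) (q : (ℤ × ℤ) × ℤ × ℤ) : ℝ :=
  (ic (cmb e f g q.2.1 q.1.1 q.1.2) - ic (cmb e f g q.2.2 q.1.1 q.1.2)) /
    sl (cmb e f g q.2.2 q.1.1 q.1.2)

noncomputable def box (ρ z : ℝ) : ℝ := if |z| ≤ ρ then 1 / (2 * ρ) else 0

/-- mean-zero kernels. -/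
structure Kern (δ ρ C : ℝ) (K : ℝ → ℝ) : Prop where
  hδ : 0 < δ
  meas : Measurable K
  supp : ∀ z, ρ < |z| → K z = 0
  bnd : ∀ z, |K z| * max |z| δ ≤ C
  intg : Integrable K
  l1 : ∫ z, |K z| ≤ C
  mean : ∫ z, K z = 0

noncomputable def conv (K L : ℝ → ℝ) (a c z : ℝ) : ℝ := ∫ u, K (a * u) * L (c * (u - z))

/-- Lipschitz cut-off equal to one on `[0,1]`, supported on `[-1,2]`. -/
noncomputable def tent (x : ℝ) : ℝ := max 0 (min 1 (min (x + 1) (2 - x)))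

noncomputable def tau (δ ρ0 ρ1 d : ℝ) : ℝ := if ρ0 ≤ d then ρ1 / ρ0 ^ 2 else 1 / max d δ

end Pool.Agent.Lib.MP_e56372_nt.Dim
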