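import Pool.Agent.Lib.MP_e56372_nt.Dim.Defs

set_option autoImplicit false
open MeasureTheory

namespace Pool.Agent.Lib.MP_e56372_nt.Dim
open Pool.Agent.Lib.MP_e56372_nt

/-- distance to the nearest integer. -/
noncomputable def nd (x : ℝ) : ℝ := |x - round x|

def PrimGood (c0 T : ℕ) (ξ ζ : ℝ) : Prop := 1 / ((2 : ℝ) ^ c0 * 2 ^ T) ≤ mmin ξ ζ (2 ^ T)

def DenseP (c0 G n : ℕ) (ξ ζ : ℝ) : Prop :=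
  ∀ T : ℕ, 3 * n ≤ 10 * T → 25 * T ≤ 12 * n → ∃ T' : ℕ, T' ≤ T ∧ T ≤ T' + G ∧ PrimGood c0 T' ξ ζ

noncomputable def Sym (N : ℕ) : Finset ℤ := Finset.Icc (-(N : ℤ)) N

noncomputable def Gc (A k : ℕ) (c : ℤ → ℝ) (θ : ℝ) : ℝ :=
  ∑ a ∈ Sym (k * A), c a * Real.cos (2 * Real.pi * a * θ)

/-- coefficients of a Jackson kernel. -/
structure Coef (A k : ℕ) (c : ℤ → ℝ) : Prop where
  nonneg : ∀ a, 0 ≤ c a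
  le : ∀ a, c a ≤ 1 / A
  zero : 1 / (2 * (k : ℝ) * A) ≤ c 0
  supp : ∀ a : ℤ, ((k * A : ℕ) : ℤ) ≤ |a| → c a = 0
  symm : ∀ a, c (-a) = c a
  sum : ∑ a ∈ Sym (k * A), c a = 1
  lo : ∀ θ, 0 ≤ Gc A k c θ
  hi : ∀ θ, Gc A k c θ ≤ 1 / (max 1 (2 * A * nd θ)) ^ (2 * k)

/-- the periodic mean-zero kernel. -/
structure Psi (Q1 : ℝ) (Ψ : ℝ → ℝ) : Prop where
  cont : Continuous Ψ
  per : ∀ (θ : ℝ) (r : ℤ), Ψ (θ + r) = Ψ θ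
  even : ∀ θ, Ψ (-θ) = Ψ θ
  zero : Ψ 0 = 1
  mean : ∫ θ in (-(1 / 2) : ℝ)..(1 / 2), Ψ θ = 0
  bnd : ∀ θ, |Ψ θ| ≤ 1 / (max 1 (2 * Q1 * nd θ)) ^ 2

noncomputable def Sf (NA NB : ℕ) (cA cB : ℤ → ℝ) (Ψ : ℝ → ℝ) (ξ ζ : ℝ) : ℝ :=
  ∑ a ∈ Sym NA, ∑ b ∈ Sym NB, cA a * cB b * Ψ (a * ξ + b * ζ)

noncomputable def wt (A B ξ ζ : ℝ) (q : ℕ) : ℝ := max 1 (A * nd (q * ξ)) * max 1 (B * nd (q * ζ))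

def SepP (A B : ℝ) (Q : ℕ) (η ξ ζ : ℝ) : Prop :=
  ∀ q : ℕ, 1 ≤ q → (q : ℝ) ≤ η * Q → ¬ (A * nd (q * ξ) ≤ η ∧ B * nd (q * ζ) ≤ η)

/-- separated sets of vectors. -/
def SepV (S : Finset V3) (lam : ℝ) : Prop := ∀ u ∈ S, ∀ v ∈ S, u ≠ v → ∃ k, lam < |u k - v k|

end Pool.Agent.Lib.MP_e56372_nt.Dim
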