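import Pool.Agent.Lib.MP_e56372_nt.Dim.Defs3

set_option autoImplicit false

namespace Pool.Agent.Lib.MP_e56372_nt.Dim

/-- good levels are `G`-dense in the window of half width `W` around `0.41 n`. -/
def DenseW (c0 G W n : ℕ) (ξ ζ : ℝ) : Prop :=
  ∀ T : ℕ, 41 * n / 100 ≤ T + W → T ≤ 41 * n / 100 + W →
    ∃ T' : ℕ, T' ≤ T ∧ T ≤ T' + G ∧ PrimGood c0 T' ξ ζ

end Pool.Agent.Lib.MP_e56372_nt.Dim
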