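import Pool.Agent.Lib.MP_e56372_nt.Dim.TR

set_option autoImplicit false
open MeasureTheory Filter Topology Finset

namespace Pool.Agent.Lib.MP_e56372_nt.Dim
open Pool.Agent.Lib.MP_e56372_nt

theorem dense_anti (ξ ζ : ℝ) {Q Q' : ℝ} (hQ : 1 ≤ Q) (h : Q ≤ Q') :
    mmin ξ ζ Q' ≤ mmin ξ ζ Q := by
  unfold mmin
  have : Nonempty {q : ℕ // 0 < q ∧ (q : ℝ) ≤ Q} := ⟨⟨1, one_pos, by simpa using hQ⟩⟩
  refine le_ciInf fun q => ?_
  refine ciInf_le_of_le ⟨0, ?_⟩ (⟨q.1, q.2.1, q.2.2.trans h⟩ : {q : ℕ // 0 < q ∧ (q : ℝ) ≤ Q'}) le_rfl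
  rintro _ ⟨x, rfl⟩
  exact mul_nonneg (abs_nonneg _) (abs_nonneg _)

theorem dense_perturb (ξ ζ ξ' ζ' : ℝ) (c T n : ℕ) (h : DualGood c T ξ ζ)
    (h1 : |ξ - ξ'| ≤ 1 / 2 ^ n) (h2 : |ζ - ζ'| ≤ 1 / 2 ^ n) (hn : 2 * T + c + 1 ≤ n) :
    DualGood (c + 1) T ξ' ζ' := by
  intro a b r hab hp ha hb
  have p2 : (0 : ℝ) < 2 ^ T := by positivity
  have pc : (0 : ℝ) < 2 ^ c := by positivity
  have hp' : |(a : ℝ) * b| ≤ 2 ^ T / 2 ^ c := by
    refine hp.trans (div_le_div_of_nonneg_left p2.le pc ?_)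
    rw [pow_succ]; linarith
  have key := h a b r hab hp' ha hb
  have e : (a : ℝ) * ξ + b * ζ + r = (a * ξ' + b * ζ' + r) + (a * (ξ - ξ') + b * (ζ - ζ')) := by ring
  have t1 : |(a : ℝ) * (ξ - ξ')| ≤ |(a : ℝ)| * (1 / 2 ^ n) := by
    rw [abs_mul]; exact mul_le_mul_of_nonneg_left h1 (abs_nonneg _)
  have t2 : |(b : ℝ) * (ζ - ζ')| ≤ |(b : ℝ)| * (1 / 2 ^ n) := by
    rw [abs_mul]; exact mul_le_mul_of_nonneg_left h2 (abs_nonneg _)
  have t3 : |(a : ℝ) * ξ + b * ζ + r| ≤ |(a : ℝ) * ξ' + b * ζ' + r| + (|(a : ℝ)| + |(b : ℝ)|) * (1 / 2 ^ n) := by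
    rw [e]
    refine (abs_add_le _ _).trans ?_
    have := abs_add_le ((a : ℝ) * (ξ - ξ')) (b * (ζ - ζ'))
    linarith
  have t4 : (|(a : ℝ)| + |(b : ℝ)|) * (1 / 2 ^ n) ≤ 2 ^ T * (1 / 2 ^ n) :=
    mul_le_mul_of_nonneg_right (by linarith) (by positivity)
  have t5 : (2 : ℝ) ^ T * (1 / 2 ^ n) ≤ 1 / (2 ^ (c + 1) * 2 ^ T) := by
    rw [mul_one_div, div_le_div_iff₀ (by positivity) (by positivity), one_mul, ← pow_add, ← pow_add]
    exact pow_le_pow_right₀ (by norm_num) (by omega)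
  have t6 : (1 : ℝ) / (2 ^ c * 2 ^ T) = 2 * (1 / (2 ^ (c + 1) * 2 ^ T)) := by
    rw [pow_succ]; field_simp
  linarith

theorem dense_of_growth (ξ ζ : ℝ) (Q : ℕ → ℝ) (h1 : ∀ k, 1 ≤ Q k) (hQ : Tendsto Q atTop atTop)
    (hr : Tendsto (fun k => Real.log (Q (k + 1)) / Real.log (Q k)) atTop (𝓝 1))
    (c : ℝ) (hc : 0 < c) (hm : ∀ᶠ k in atTop, c ≤ Q k * mmin ξ ζ (Q k)) :
    ∃ c0 : ℕ, ∀ M : ℕ, 0 < M → ∀ᶠ n : ℕ in atTop, ∀ ξ' ζ' : ℝ, |ξ - ξ'| ≤ 1 / 2 ^ n →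
      |ζ - ζ'| ≤ 1 / 2 ^ n → DenseLv c0 (n / M) n ξ' ζ' := by
  obtain ⟨c1, hc1⟩ := pow_unbounded_of_one_lt (14 / c) (by norm_num : (1 : ℝ) < 2)
  refine ⟨c1 + 1, fun M hM => ?_⟩
  have hM' : (0 : ℝ) < M := by exact_mod_cast hM
  have e1 : ∀ᶠ k in atTop, Real.log (Q (k + 1)) / Real.log (Q k) < 1 + 1 / (M : ℝ) :=
    hr.eventually (gt_mem_nhds (by have : (0 : ℝ) < 1 / M := by positivity
                                   linarith))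
  have e2 : ∀ᶠ k in atTop, (1 : ℝ) < Q k := hQ.eventually_gt_atTop 1
  obtain ⟨k0, hk0⟩ := eventually_atTop.1 (e1.and (e2.and hm))
  obtain ⟨n0, hn0⟩ := pow_unbounded_of_one_lt (Q k0) (by norm_num : (1 : ℝ) < 2)
  refine eventually_atTop.2 ⟨10 * n0 + 25 * (c1 + 1) + 2, fun n hn ξ' ζ' hξ hζ T hT1 hT2 => ?_⟩
  have hex : ∃ j, (2 : ℝ) ^ (T + 1) ≤ Q (k0 + j + 1) := by
    obtain ⟨j, hj⟩ := eventually_atTop.1 (hQ.eventually_ge_atTop ((2 : ℝ) ^ (T + 1)))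
    exact ⟨j, hj _ (by omega)⟩
  classical
  obtain ⟨k, hk, hup, hlow⟩ : ∃ k, k0 ≤ k ∧ (2 : ℝ) ^ (T + 1) ≤ Q (k + 1) ∧ Q k < 2 ^ (T + 1) := by
    refine ⟨k0 + Nat.find hex, by omega, Nat.find_spec hex, ?_⟩
    rcases Nat.eq_zero_or_pos (Nat.find hex) with h0 | h0
    · rw [h0, add_zero]
      exact hn0.trans_le (pow_le_pow_right₀ (by norm_num) (by omega))
    · have := Nat.find_min hex (m := Nat.find hex - 1) (by omega)
      have e : k0 + (Nat.find hex - 1) + 1 = k0 + Nat.find hex := by omega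
      rw [e] at this
      exact not_le.1 this
  obtain ⟨g1, g2, g3⟩ := hk0 k hk
  have hf : ⌊Q k⌋₊ ≠ 0 := by
    have : 1 ≤ ⌊Q k⌋₊ := Nat.le_floor (by simpa using h1 k)
    omega
  set T' := Nat.log 2 ⌊Q k⌋₊ with hT'
  have a1 : (2 : ℝ) ^ T' ≤ Q k := by
    have : 2 ^ T' ≤ ⌊Q k⌋₊ := Nat.pow_log_le_self 2 hf
    have h' : ((2 ^ T' : ℕ) : ℝ) ≤ (⌊Q k⌋₊ : ℝ) := by exact_mod_cast this
    push_cast at h'
    exact h'.trans (Nat.floor_le (by linarith))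
  have a2 : Q k < (2 : ℝ) ^ (T' + 1) := by
    have : ⌊Q k⌋₊ < 2 ^ (T' + 1) := Nat.lt_pow_succ_log_self (by norm_num) _
    have h' : ((⌊Q k⌋₊ + 1 : ℕ) : ℝ) ≤ ((2 ^ (T' + 1) : ℕ) : ℝ) := by exact_mod_cast this
    push_cast at h'
    exact (Nat.lt_floor_add_one _).trans_le h'
  have a3 : T' ≤ T := by
    have : (2 : ℝ) ^ T' < 2 ^ (T + 1) := a1.trans_lt hlow
    have := (pow_lt_pow_iff_right₀ (by norm_num : (1 : ℝ) < 2)).1 this
    omega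
  have l2 : 0 < Real.log 2 := Real.log_pos (by norm_num)
  have lk : 0 < Real.log (Q k) := Real.log_pos g2
  have b1 : ((T : ℝ) + 1) * Real.log 2 ≤ Real.log (Q (k + 1)) := by
    have := Real.log_le_log (by positivity) hup
    rw [Real.log_pow] at this
    push_cast at this
    exact this
  have b2 : Real.log (Q k) ≤ ((T' : ℝ) + 1) * Real.log 2 := by
    have := Real.log_le_log (by linarith) a2.le
    rw [Real.log_pow] at this
    push_cast at this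
    exact this
  have b3 : Real.log (Q (k + 1)) ≤ (1 + 1 / (M : ℝ)) * Real.log (Q k) := ((div_lt_iff₀ lk).1 g1).le
  have b4 : (T : ℝ) + 1 ≤ (1 + 1 / (M : ℝ)) * ((T' : ℝ) + 1) := by
    have : ((T : ℝ) + 1) * Real.log 2 ≤ (1 + 1 / (M : ℝ)) * ((T' : ℝ) + 1) * Real.log 2 := by
      rw [mul_assoc]
      exact b1.trans (b3.trans (mul_le_mul_of_nonneg_left b2 (by positivity)))
    exact le_of_mul_le_mul_right this l2
  have b5 : (T - T') * M ≤ n := by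
    have h' : ((T : ℝ) - T') * M ≤ (T' : ℝ) + 1 := by
      have := mul_le_mul_of_nonneg_right b4 hM'.le
      have e : (1 + 1 / (M : ℝ)) * ((T' : ℝ) + 1) * M = ((T' : ℝ) + 1) * M + ((T' : ℝ) + 1) := by
        field_simp
      rw [e] at this
      linarith
    have h'' : (((T - T') * M : ℕ) : ℝ) ≤ ((T' + 1 : ℕ) : ℝ) := by
      push_cast [Nat.cast_sub a3]
      exact h'
    have : (T - T') * M ≤ T' + 1 := by exact_mod_cast h''
    omega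
  have b6 : T - T' ≤ n / M := (Nat.le_div_iff_mul_le hM).2 b5
  refine ⟨T', a3, by omega, dense_perturb ξ ζ ξ' ζ' c1 T' n ?_ hξ hζ (by omega)⟩
  refine dualGood_of_mmin ξ ζ c1 T' ?_
  have p2 : (0 : ℝ) < 2 ^ T' := by positivity
  have pc : (0 : ℝ) < 2 ^ c1 := by positivity
  refine le_trans ?_ (dense_anti ξ ζ (one_le_pow₀ (by norm_num)) a1)
  have q0 : 0 < Q k := by linarith
  have d1 : c / Q k ≤ mmin ξ ζ (Q k) := by
    rw [div_le_iff₀ q0, mul_comm]; exact g3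
  refine le_trans ?_ d1
  rw [div_le_div_iff₀ (by positivity) q0]
  have d2 : 14 ≤ c * 2 ^ c1 := by
    have := (div_lt_iff₀ hc).1 hc1
    linarith
  rw [pow_succ] at a2
  have d3 := mul_le_mul_of_nonneg_right d2 p2.le
  nlinarith

end Pool.Agent.Lib.MP_e56372_nt.Dim
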