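import Pool.Agent.Lib.MP_e56372_nt.Dim.Dense

set_option autoImplicit false
open MeasureTheory Filter Topology Finset

namespace Pool.Agent.Lib.MP_e56372_nt.Dim
open Pool.Agent.Lib.MP_e56372_nt

theorem dense2_level (ξ ζ c Q : ℝ) (c1 : ℕ) (hc : 0 < c) (hc1 : 14 ≤ c * 2 ^ c1) (hQ : 1 ≤ Q)
    (hm : c ≤ Q * mmin ξ ζ Q) :
    ∃ T' : ℕ, (2 : ℝ) ^ T' ≤ Q ∧ Q < 2 ^ (T' + 1) ∧ DualGood c1 T' ξ ζ := by
  obtain ⟨T', a1, a2⟩ := exists_nat_pow_near hQ (by norm_num : (1 : ℝ) < 2)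
  refine ⟨T', a1, a2, dualGood_of_mmin ξ ζ c1 T' ?_⟩
  have p2 : (0 : ℝ) < 2 ^ T' := by positivity
  have pc : (0 : ℝ) < 2 ^ c1 := by positivity
  refine le_trans ?_ (dense_anti ξ ζ (one_le_pow₀ (by norm_num)) a1)
  have q0 : 0 < Q := by linarith
  have d1 : c / Q ≤ mmin ξ ζ Q := by
    rw [div_le_iff₀ q0, mul_comm]; exact hm
  refine le_trans ?_ d1
  rw [div_le_div_iff₀ (by positivity) q0]
  rw [pow_succ] at a2
  have d3 := mul_le_mul_of_nonneg_right hc1 p2.le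
  nlinarith

theorem dense2 (K : ℕ) (hK : 7 ≤ K) (ξ ζ : ℝ)
    (h : ∃ᶠ X : ℝ in atTop, ∃ c : ℝ, 0 < c ∧ c ≤ 1 / 2 ∧ 1 ≤ c ^ (8 * K + 10) * Real.log X ∧
      ∀ Y : ℝ, X ≤ Y → Y ≤ X ^ 2 → ∃ Q : ℝ, Y ≤ Q ∧ Q ≤ Y ^ (1 + c ^ (8 * K + 10)) ∧
        c ≤ Q * mmin ξ ζ Q) :
    ∃ᶠ n : ℕ in atTop, ∀ ξ' ζ' : ℝ, |ξ - ξ'| ≤ 1 / 2 ^ n → |ζ - ζ'| ≤ 1 / 2 ^ n →
      ∃ c0 : ℕ, 2 ^ (K * (c0 + 1)) ≤ n ∧ DenseLv c0 (n / 2 ^ (K * (c0 + 1))) n ξ' ζ' := by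
  rw [frequently_atTop] at h ⊢
  intro a
  obtain ⟨X, hX, c, hc, hc2, hlog, H⟩ := h (2 ^ (a + 25))
  have hX1 : (1 : ℝ) ≤ X := le_trans (one_le_pow₀ (by norm_num)) hX
  obtain ⟨L, l1, l2⟩ := exists_nat_pow_near hX1 (by norm_num : (1 : ℝ) < 2)
  have hL : a + 25 ≤ L := by
    have : (2 : ℝ) ^ (a + 25) < 2 ^ (L + 1) := lt_of_le_of_lt hX l2
    have := (pow_lt_pow_iff_right₀ (by norm_num : (1 : ℝ) < 2)).1 this
    omega
  obtain ⟨j, j1, j2⟩ := exists_nat_pow_near (x := 14 / c)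
    (by rw [le_div_iff₀ hc]; linarith) (by norm_num : (1 : ℝ) < 2)
  rw [le_div_iff₀ hc] at j1
  rw [div_lt_iff₀ hc] at j2
  obtain ⟨n, hn⟩ : ∃ n, n = 4 * (L + 1) := ⟨_, rfl⟩
  obtain ⟨M, hM⟩ : ∃ M, M = 2 ^ (K * (j + 2 + 1)) := ⟨_, rfl⟩
  have hM0 : 0 < M := by rw [hM]; positivity
  obtain ⟨η, hη⟩ : ∃ η, η = c ^ (8 * K + 10) := ⟨_, rfl⟩
  rw [← hη] at hlog H
  have hη0 : 0 < η := by rw [hη]; positivity
  have hηM : η * M ≤ 1 / 1024 := by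
    have e1 : (2 : ℝ) ^ (j + 3) * c ^ 8 ≤ 1 := by
      have t1 : c ^ 7 ≤ (1 / 2) ^ 7 := pow_le_pow_left₀ hc.le hc2 7
      calc (2 : ℝ) ^ (j + 3) * c ^ 8 = 8 * (2 ^ j * c) * c ^ 7 := by ring
        _ ≤ 8 * 14 * (1 / 2) ^ 7 := by gcongr
        _ ≤ 1 := by norm_num
    have e2 : ((2 : ℝ) ^ (j + 3) * c ^ 8) ^ K ≤ 1 := pow_le_one₀ (by positivity) e1
    have t2 : c ^ 10 ≤ (1 / 2) ^ 10 := pow_le_pow_left₀ hc.le hc2 10
    calc η * M = ((2 : ℝ) ^ (j + 3) * c ^ 8) ^ K * c ^ 10 := by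
          rw [hη, hM, mul_pow, ← pow_mul, ← pow_mul, pow_add c, mul_comm K]; push_cast; ring
      _ ≤ 1 * (1 / 2) ^ 10 := by gcongr
      _ = 1 / 1024 := by norm_num
  have hlogX : Real.log X ≤ n := by
    have t1 := Real.log_le_log (by linarith) l2.le
    rw [Real.log_pow] at t1
    have t2 : Real.log 2 ≤ 1 := by have := Real.log_le_sub_one_of_pos (two_pos (α := ℝ)); linarith
    have t3 : ((L + 1 : ℕ) : ℝ) * Real.log 2 ≤ ((L + 1 : ℕ) : ℝ) * 1 := by gcongr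
    have t4 : ((L + 1 : ℕ) : ℝ) ≤ n := by exact_mod_cast (by omega : L + 1 ≤ n)
    linarith
  have hMn : 1024 * M ≤ n := by
    have t1 : 1 ≤ η * n := hlog.trans (by gcongr)
    have t2 : (1024 : ℝ) * M ≤ n := by
      have hM' : (0 : ℝ) ≤ M := Nat.cast_nonneg _
      have hn' : (0 : ℝ) ≤ n := Nat.cast_nonneg _
      nlinarith
    exact_mod_cast t2
  have hM128 : 128 ≤ M := by
    rw [hM]
    calc 128 = 2 ^ 7 := by norm_num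
      _ ≤ _ := Nat.pow_le_pow_right (by norm_num) (by nlinarith)
  have hjM : j + 3 ≤ M := by
    rw [hM]
    exact (Nat.lt_two_pow_self).le.trans (Nat.pow_le_pow_right (by norm_num) (by nlinarith))
  obtain ⟨G, hG⟩ : ∃ G, G = n / M := ⟨_, rfl⟩
  have g1 : 128 * G ≤ n := by
    have := Nat.mul_div_le n M
    rw [← hG] at this
    exact (Nat.mul_le_mul_right _ hM128).trans this
  have g2 : η * n ≤ G := by
    have t1 : n < M * (G + 1) := by rw [hG]; exact Nat.lt_mul_div_succ _ hM0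
    have t2 : 1 ≤ G := by rw [hG]; exact (Nat.le_div_iff_mul_le hM0).2 (by omega)
    have t3 : (n : ℝ) ≤ M * (G + 1) := by exact_mod_cast t1.le
    have t4 : (1 : ℝ) ≤ G := by exact_mod_cast t2
    calc η * n ≤ η * (M * (G + 1)) := by gcongr
      _ = η * M * (G + 1) := by ring
      _ ≤ 1 / 1024 * (G + 1) := by gcongr
      _ ≤ G := by linarith
  refine ⟨n, by omega, fun ξ' ζ' hξ hζ => ⟨j + 2, by omega, ?_⟩⟩
  rw [← hM, ← hG]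
  intro T hT1 hT2
  obtain ⟨S, hS⟩ : ∃ S, S + G = T := ⟨T - G, by omega⟩
  obtain ⟨Q, q1, q2, q3⟩ := H (2 ^ S)
    (l2.le.trans (pow_le_pow_right₀ (by norm_num) (by omega)))
    (by
      calc (2 : ℝ) ^ S ≤ 2 ^ (L * 2) := pow_le_pow_right₀ (by norm_num) (by omega)
        _ = (2 ^ L) ^ 2 := by rw [pow_mul]
        _ ≤ X ^ 2 := by gcongr)
  obtain ⟨T', a1, a2, a3⟩ := dense2_level ξ ζ c Q (j + 1) hc (by linarith)
    (le_trans (one_le_pow₀ (by norm_num)) q1) q3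
  have b1 : S < T' + 1 := (pow_lt_pow_iff_right₀ (by norm_num : (1 : ℝ) < 2)).1 (q1.trans_lt a2)
  have b2 : T' ≤ T := by
    have t1 : ((2 : ℝ) ^ S) ^ (1 + η) ≤ 2 ^ T := by
      rw [← Real.rpow_natCast, ← Real.rpow_mul (by norm_num), ← Real.rpow_natCast]
      refine Real.rpow_le_rpow_of_exponent_le (by norm_num) ?_
      have t2 : (S : ℝ) ≤ n := by exact_mod_cast (by omega : S ≤ n)
      have t3 : (S : ℝ) + G = T := by exact_mod_cast hS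
      have t4 : η * S ≤ η * n := by gcongr
      linarith
    exact (pow_le_pow_iff_right₀ (by norm_num : (1 : ℝ) < 2)).1 (a1.trans (q2.trans t1))
  exact ⟨T', b2, by omega, dense_perturb ξ ζ ξ' ζ' (j + 1) T' n a3 hξ hζ (by omega)⟩

end Pool.Agent.Lib.MP_e56372_nt.Dim
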