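import Pool.Agent.Lib.MP_e56372_nt.Dim.Defs3
import Pool.Agent.Lib.MP_e56372_nt.Dim.Dense2
import Pool.Agent.Lib.MP_e56372_nt.Dim.Prim

set_option autoImplicit false
open MeasureTheory Filter Topology Finset

namespace Pool.Agent.Lib.MP_e56372_nt.Dim
open Pool.Agent.Lib.MP_e56372_nt

theorem dense3_level (ξ ζ c Q : ℝ) (c1 : ℕ) (hc1 : 2 ≤ c * 2 ^ c1) (hQ : 1 ≤ Q)
    (hm : c ≤ Q * mmin ξ ζ Q) :
    ∃ T' : ℕ, (2 : ℝ) ^ T' ≤ Q ∧ Q < 2 ^ (T' + 1) ∧ PrimGood c1 T' ξ ζ := by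
  obtain ⟨T', a1, a2⟩ := exists_nat_pow_near hQ (by norm_num : (1 : ℝ) < 2)
  refine ⟨T', a1, a2, ?_⟩
  unfold PrimGood
  have p2 : (0 : ℝ) < 2 ^ T' := by positivity
  have pc : (0 : ℝ) < 2 ^ c1 := by positivity
  refine le_trans ?_ (dense_anti ξ ζ (one_le_pow₀ (by norm_num)) a1)
  have q0 : 0 < Q := by linarith
  have d1 : c / Q ≤ mmin ξ ζ Q := by
    rw [div_le_iff₀ q0, mul_comm]; exact hm
  refine le_trans ?_ d1
  rw [div_le_div_iff₀ (by positivity) q0]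
  rw [pow_succ] at a2
  have d3 := mul_le_mul_of_nonneg_right hc1 p2.le
  nlinarith

theorem dense3_small {κ c : ℝ} {m lam lam0 : ℕ} (hm0 : m ≠ 0) (hm : (m : ℝ) + 151 ≤ κ * m)
    (hc : 0 < c) (hc0 : c ≤ 1 / 2 ^ ((m + 3) * (m + 150) + 10 * m + m * lam0))
    (h1 : c * 2 ^ (m * lam) ≤ 2 ^ (m + 3)) :
    c ^ κ * (2 : ℝ) ^ ((m + 150) * lam) ≤ 1 / 1024 := by
  have hc1 : c ≤ 1 := hc0.trans (by
    rw [div_le_one (by positivity)]; exact one_le_pow₀ (by norm_num))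
  have hη : 0 < c ^ κ := Real.rpow_pos_of_pos hc κ
  have e1 : (c ^ κ) ^ m ≤ c ^ (m + 151) := by
    rw [← Real.rpow_natCast, ← Real.rpow_mul hc.le, ← Real.rpow_natCast]
    refine Real.rpow_le_rpow_of_exponent_ge hc hc1 ?_
    push_cast
    exact hm
  have e2 : ((2 : ℝ) ^ ((m + 150) * lam)) ^ m = ((2 : ℝ) ^ (m * lam)) ^ (m + 150) := by
    rw [← pow_mul, ← pow_mul]
    congr 1
    ring
  have e3 : (c * 2 ^ (m * lam)) ^ (m + 150) ≤ ((2 : ℝ) ^ (m + 3)) ^ (m + 150) :=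
    pow_le_pow_left₀ (by positivity) h1 _
  have e4 : c ≤ 1 / 2 ^ ((m + 3) * (m + 150) + 10 * m) := hc0.trans (by
    refine one_div_le_one_div_of_le (by positivity) ?_
    exact pow_le_pow_right₀ (by norm_num) (Nat.le_add_right _ _))
  have e5 : ((2 : ℝ) ^ (m + 3)) ^ (m + 150) * (1 / 2 ^ ((m + 3) * (m + 150) + 10 * m)) =
      (1 / 1024) ^ m := by
    rw [← pow_mul, pow_add _ ((m + 3) * (m + 150)), pow_mul 2 10 m, one_div_pow]
    have : ((2 : ℝ) ^ 10) = 1024 := by norm_num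
    rw [this]
    field_simp
  have key : (c ^ κ * (2 : ℝ) ^ ((m + 150) * lam)) ^ m ≤ (1 / 1024) ^ m := by
    calc (c ^ κ * (2 : ℝ) ^ ((m + 150) * lam)) ^ m
        = (c ^ κ) ^ m * ((2 : ℝ) ^ (m * lam)) ^ (m + 150) := by rw [mul_pow, e2]
      _ ≤ c ^ (m + 151) * ((2 : ℝ) ^ (m * lam)) ^ (m + 150) :=
          mul_le_mul_of_nonneg_right e1 (by positivity)
      _ = (c * 2 ^ (m * lam)) ^ (m + 150) * c := by
          rw [mul_pow, show m + 151 = m + 150 + 1 from rfl, pow_succ c (m + 150)]; ring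
      _ ≤ ((2 : ℝ) ^ (m + 3)) ^ (m + 150) * (1 / 2 ^ ((m + 3) * (m + 150) + 10 * m)) :=
          mul_le_mul e3 e4 hc.le (by positivity)
      _ = (1 / 1024) ^ m := e5
  exact (pow_le_pow_iff_left₀ (by positivity) (by norm_num) hm0).1 key

theorem dense3 (κ : ℝ) (hκ : 1 < κ) : ∃ m : ℕ, 24 ≤ m ∧ ∀ lam0 : ℕ, ∃ c0 : ℝ, 0 < c0 ∧ ∀ ξ ζ : ℝ,
    (∃ᶠ X : ℝ in atTop, ∃ c : ℝ, 0 < c ∧ c ≤ c0 ∧ 1 ≤ c ^ κ * Real.log X ∧
      ∀ Y : ℝ, X ≤ Y → Y ≤ X ^ 2 → ∃ Q : ℝ, Y ≤ Q ∧ Q ≤ Y ^ (1 + c ^ κ) ∧ c ≤ Q * mmin ξ ζ Q) →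
    ∃ᶠ n : ℕ in atTop, ∀ ξ' ζ' : ℝ, |ξ - ξ'| ≤ 1 / 2 ^ n → |ζ - ζ'| ≤ 1 / 2 ^ n →
      ∃ lam : ℕ, lam0 ≤ lam ∧ 2 ^ ((m + 150) * lam) ≤ n ∧
        DenseP (m * lam) (n / 2 ^ ((m + 150) * lam)) n ξ' ζ' := by
  obtain ⟨m0, hm0⟩ := exists_nat_ge (151 / (κ - 1))
  obtain ⟨m, hm⟩ : ∃ m, m = m0 + 24 := ⟨_, rfl⟩
  have hm24 : 24 ≤ m := by omega
  have hκm : (m : ℝ) + 151 ≤ κ * m := by
    rw [div_le_iff₀ (by linarith)] at hm0
    have t1 : (m0 : ℝ) ≤ m := by exact_mod_cast (by omega : m0 ≤ m)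
    have t2 : (m0 : ℝ) * (κ - 1) ≤ m * (κ - 1) := mul_le_mul_of_nonneg_right t1 (by linarith)
    linarith
  refine ⟨m, hm24, fun lam0 => ⟨1 / 2 ^ ((m + 3) * (m + 150) + 10 * m + m * lam0), by positivity,
    fun ξ ζ h => ?_⟩⟩
  rw [frequently_atTop] at h ⊢
  intro a
  obtain ⟨X, hX, c, hc, hc0, hlog, H⟩ := h (2 ^ (a + 25))
  have hX1 : (1 : ℝ) ≤ X := le_trans (one_le_pow₀ (by norm_num)) hX
  obtain ⟨L, l1, l2⟩ := exists_nat_pow_near hX1 (by norm_num : (1 : ℝ) < 2)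
  have hL : a + 25 ≤ L := by
    have : (2 : ℝ) ^ (a + 25) < 2 ^ (L + 1) := lt_of_le_of_lt hX l2
    have := (pow_lt_pow_iff_right₀ (by norm_num : (1 : ℝ) < 2)).1 this
    omega
  have hcl : c ≤ 1 / 2 ^ (m * lam0) := hc0.trans (by
    refine one_div_le_one_div_of_le (by positivity) ?_
    exact pow_le_pow_right₀ (by norm_num) (Nat.le_add_left _ _))
  have hc1 : c ≤ 1 := hcl.trans (by
    rw [div_le_one (by positivity)]; exact one_le_pow₀ (by norm_num))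
  obtain ⟨j, j1, j2⟩ := exists_nat_pow_near (x := 8 / c) (y := (2 : ℝ) ^ m)
    (by rw [le_div_iff₀ hc]; linarith) (one_lt_pow₀ (by norm_num) (by omega))
  rw [le_div_iff₀ hc] at j1
  rw [div_lt_iff₀ hc, ← pow_mul] at j2
  obtain ⟨lam, hlam⟩ : ∃ lam, lam = j + 1 := ⟨_, rfl⟩
  rw [← hlam] at j2
  have j3 : c * 2 ^ (m * lam) ≤ 2 ^ (m + 3) := by
    have p : (0 : ℝ) ≤ 2 ^ m := by positivity
    calc c * 2 ^ (m * lam) = 2 ^ m * (((2 : ℝ) ^ m) ^ j * c) := by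
          rw [pow_mul, hlam, pow_succ]; ring
      _ ≤ 2 ^ m * 8 := mul_le_mul_of_nonneg_left j1 p
      _ = 2 ^ (m + 3) := by rw [pow_add]; norm_num
  have hl0 : lam0 ≤ lam := by
    have t1 : (2 : ℝ) ^ (m * lam) * c ≤ 2 ^ (m * lam) * (1 / 2 ^ (m * lam0)) :=
      mul_le_mul_of_nonneg_left hcl (by positivity)
    have t2 : (1 : ℝ) ≤ 2 ^ (m * lam) / 2 ^ (m * lam0) := by
      rw [div_eq_mul_one_div]; linarith
    rw [one_le_div (by positivity)] at t2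
    have t3 := (pow_le_pow_iff_right₀ (by norm_num : (1 : ℝ) < 2)).1 t2
    exact Nat.le_of_mul_le_mul_left t3 (by omega)
  obtain ⟨c1, hc1e⟩ : ∃ c1, c1 + 2 = m * lam := ⟨m * lam - 2, by
    have : m * 1 ≤ m * lam := Nat.mul_le_mul_left _ (by omega)
    omega⟩
  have hcc : 2 ≤ c * 2 ^ c1 := by
    rw [← hc1e, pow_add] at j2
    norm_num at j2
    linarith
  obtain ⟨n, hn⟩ : ∃ n, n = 4 * (L + 1) := ⟨_, rfl⟩
  obtain ⟨M, hM⟩ : ∃ M, M = 2 ^ ((m + 150) * lam) := ⟨_, rfl⟩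
  have hM0 : 0 < M := by rw [hM]; positivity
  have hsm := dense3_small (lam := lam) (by omega : m ≠ 0) hκm hc hc0 j3
  obtain ⟨η, hη⟩ : ∃ η, η = c ^ κ := ⟨_, rfl⟩
  rw [← hη] at hlog H hsm
  have hη0 : 0 < η := by rw [hη]; exact Real.rpow_pos_of_pos hc κ
  have hηM : η * M ≤ 1 / 1024 := by
    rw [hM]; push_cast; exact hsm
  have hlogX : Real.log X ≤ n := by
    have t1 := Real.log_le_log (by linarith) l2.le
    rw [Real.log_pow] at t1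
    have t2 : Real.log 2 ≤ 1 := by have := Real.log_le_sub_one_of_pos (two_pos (α := ℝ)); linarith
    have t3 : ((L + 1 : ℕ) : ℝ) * Real.log 2 ≤ ((L + 1 : ℕ) : ℝ) * 1 := by gcongr
    have t4 : ((L + 1 : ℕ) : ℝ) ≤ n := by exact_mod_cast (by omega : L + 1 ≤ n)
    linarith
  have hMn : 1024 * M ≤ n := by
    have t1 : 1 ≤ η * n := hlog.trans (by gcongr)
    have t2 : (1024 : ℝ) * M ≤ n := by
      have hM' : (0 : ℝ) ≤ M := Nat.cast_nonneg _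
      have hn' : (0 : ℝ) ≤ n := Nat.cast_nonneg _
      nlinarith
    exact_mod_cast t2
  have hM128 : 128 ≤ M := by
    rw [hM]
    have t1 : (m + 150) * 1 ≤ (m + 150) * lam := Nat.mul_le_mul_left _ (by omega)
    calc 128 = 2 ^ 7 := by norm_num
      _ ≤ _ := Nat.pow_le_pow_right (by norm_num) (by omega)
  have hjM : c1 + 2 ≤ M := by
    rw [hM, hc1e]
    exact (Nat.lt_two_pow_self).le.trans
      (Nat.pow_le_pow_right (by norm_num) (Nat.mul_le_mul_right _ (by omega)))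
  obtain ⟨G, hG⟩ : ∃ G, G = n / M := ⟨_, rfl⟩
  have g1 : 128 * G ≤ n := by
    have := Nat.mul_div_le n M
    rw [← hG] at this
    exact (Nat.mul_le_mul_right _ hM128).trans this
  have g2 : η * n ≤ G := by
    have t1 : n < M * (G + 1) := by rw [hG]; exact Nat.lt_mul_div_succ _ hM0
    have t2 : 1 ≤ G := by rw [hG]; exact (Nat.le_div_iff_mul_le hM0).2 (by omega)
    have t3 : (n : ℝ) ≤ M * (G + 1) := by exact_mod_cast t1.le
    have t4 : (1 : ℝ) ≤ G := by exact_mod_cast t2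
    calc η * n ≤ η * (M * (G + 1)) := by gcongr
      _ = η * M * (G + 1) := by ring
      _ ≤ 1 / 1024 * (G + 1) := by gcongr
      _ ≤ G := by linarith
  refine ⟨n, by omega, fun ξ' ζ' hξ hζ => ⟨lam, hl0, by omega, ?_⟩⟩
  rw [← hM, ← hG, ← hc1e]
  intro T hT1 hT2
  obtain ⟨S, hS⟩ : ∃ S, S + G = T := ⟨T - G, by omega⟩
  obtain ⟨Q, q1, q2, q3⟩ := H (2 ^ S)
    (l2.le.trans (pow_le_pow_right₀ (by norm_num) (by omega)))
    (by
      calc (2 : ℝ) ^ S ≤ 2 ^ (L * 2) := pow_le_pow_right₀ (by norm_num) (by omega)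
        _ = (2 ^ L) ^ 2 := by rw [pow_mul]
        _ ≤ X ^ 2 := by gcongr)
  obtain ⟨T', a1, a2, a3⟩ := dense3_level ξ ζ c Q c1 hcc
    (le_trans (one_le_pow₀ (by norm_num)) q1) q3
  have b1 : S < T' + 1 := (pow_lt_pow_iff_right₀ (by norm_num : (1 : ℝ) < 2)).1 (q1.trans_lt a2)
  have b2 : T' ≤ T := by
    have t1 : ((2 : ℝ) ^ S) ^ (1 + η) ≤ 2 ^ T := by
      rw [← Real.rpow_natCast, ← Real.rpow_mul (by norm_num), ← Real.rpow_natCast]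
      refine Real.rpow_le_rpow_of_exponent_le (by norm_num) ?_
      have t2 : (S : ℝ) ≤ n := by exact_mod_cast (by omega : S ≤ n)
      have t3 : (S : ℝ) + G = T := by exact_mod_cast hS
      have t4 : η * S ≤ η * n := by gcongr
      linarith
    exact (pow_le_pow_iff_right₀ (by norm_num : (1 : ℝ) < 2)).1 (a1.trans (q2.trans t1))
  exact ⟨T', b2, by omega, prim_perturb ξ ζ ξ' ζ' c1 T' n a3 hξ hζ (by omega)⟩

end Pool.Agent.Lib.MP_e56372_nt.Dim
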