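import Pool.Agent.Lib.MP_e56372_nt.Dim.Defs4
import Pool.Agent.Lib.MP_e56372_nt.Dim.Dense3

set_option autoImplicit false
open MeasureTheory Filter Topology Finset

namespace Pool.Agent.Lib.MP_e56372_nt.Dim
open Pool.Agent.Lib.MP_e56372_nt

theorem dense4_small {κ c : ℝ} {m lam lam0 : ℕ} (hm0 : m ≠ 0) (hm : (m : ℝ) + 152 ≤ κ * m)
    (hc : 0 < c) (hc0 : c ≤ 1 / 2 ^ ((m + 3) * (m + 151) + 10 * m + m * lam0))
    (h1 : c * 2 ^ (m * lam) ≤ 2 ^ (m + 3)) :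
    c ^ κ * (2 : ℝ) ^ ((m + 151) * lam) ≤ 1 / 1024 := by
  have hc1 : c ≤ 1 := hc0.trans (by
    rw [div_le_one (by positivity)]; exact one_le_pow₀ (by norm_num))
  have hη : 0 < c ^ κ := Real.rpow_pos_of_pos hc κ
  have e1 : (c ^ κ) ^ m ≤ c ^ (m + 152) := by
    rw [← Real.rpow_natCast, ← Real.rpow_mul hc.le, ← Real.rpow_natCast]
    refine Real.rpow_le_rpow_of_exponent_ge hc hc1 ?_
    push_cast
    exact hm
  have e2 : ((2 : ℝ) ^ ((m + 151) * lam)) ^ m = ((2 : ℝ) ^ (m * lam)) ^ (m + 151) := by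
    rw [← pow_mul, ← pow_mul]
    congr 1
    ring
  have e3 : (c * 2 ^ (m * lam)) ^ (m + 151) ≤ ((2 : ℝ) ^ (m + 3)) ^ (m + 151) :=
    pow_le_pow_left₀ (by positivity) h1 _
  have e4 : c ≤ 1 / 2 ^ ((m + 3) * (m + 151) + 10 * m) := hc0.trans (by
    refine one_div_le_one_div_of_le (by positivity) ?_
    exact pow_le_pow_right₀ (by norm_num) (Nat.le_add_right _ _))
  have e5 : ((2 : ℝ) ^ (m + 3)) ^ (m + 151) * (1 / 2 ^ ((m + 3) * (m + 151) + 10 * m)) =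
      (1 / 1024) ^ m := by
    rw [← pow_mul, pow_add _ ((m + 3) * (m + 151)), pow_mul 2 10 m, one_div_pow]
    have : ((2 : ℝ) ^ 10) = 1024 := by norm_num
    rw [this]
    field_simp
  have key : (c ^ κ * (2 : ℝ) ^ ((m + 151) * lam)) ^ m ≤ (1 / 1024) ^ m := by
    calc (c ^ κ * (2 : ℝ) ^ ((m + 151) * lam)) ^ m
        = (c ^ κ) ^ m * ((2 : ℝ) ^ (m * lam)) ^ (m + 151) := by rw [mul_pow, e2]
      _ ≤ c ^ (m + 152) * ((2 : ℝ) ^ (m * lam)) ^ (m + 151) :=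
          mul_le_mul_of_nonneg_right e1 (by positivity)
      _ = (c * 2 ^ (m * lam)) ^ (m + 151) * c := by
          rw [mul_pow, show m + 152 = m + 151 + 1 from rfl, pow_succ c (m + 151)]; ring
      _ ≤ ((2 : ℝ) ^ (m + 3)) ^ (m + 151) * (1 / 2 ^ ((m + 3) * (m + 151) + 10 * m)) :=
          mul_le_mul e3 e4 hc.le (by positivity)
      _ = (1 / 1024) ^ m := e5
  exact (pow_le_pow_iff_left₀ (by positivity) (by norm_num) hm0).1 key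

theorem dense4 (κ : ℝ) (hκ : 1 < κ) : ∃ m : ℕ, 24 ≤ m ∧ ∀ lam0 : ℕ, ∃ c0 : ℝ, 0 < c0 ∧ ∀ ξ ζ : ℝ,
    (∃ᶠ X : ℝ in atTop, ∃ c ε : ℝ, 0 < c ∧ c ≤ c0 ∧ ε ≤ c ^ κ ∧ 1 ≤ ε * Real.log X ∧
      ∀ Y : ℝ, X ≤ Y → Y ≤ X ^ (1 + ε / c ^ κ) →
        ∃ Q : ℝ, Y ≤ Q ∧ Q ≤ Y ^ (1 + ε) ∧ c ≤ Q * mmin ξ ζ Q) →
    ∃ᶠ n : ℕ in atTop, ∀ ξ' ζ' : ℝ, |ξ - ξ'| ≤ 1 / 2 ^ n → |ζ - ζ'| ≤ 1 / 2 ^ n →
      ∃ lam G : ℕ, lam0 ≤ lam ∧ 2 ^ lam ≤ G ∧ G * 2 ^ ((m + 150) * lam) ≤ n ∧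
        DenseW (m * lam) G (G * 2 ^ ((m + 148) * lam)) n ξ' ζ' := by
  obtain ⟨m0, hm0⟩ := exists_nat_ge (152 / (κ - 1))
  obtain ⟨m, hm⟩ : ∃ m, m = m0 + 24 := ⟨_, rfl⟩
  have hm24 : 24 ≤ m := by omega
  have hκm : (m : ℝ) + 152 ≤ κ * m := by
    rw [div_le_iff₀ (by linarith)] at hm0
    have t1 : (m0 : ℝ) ≤ m := by exact_mod_cast (by omega : m0 ≤ m)
    have t2 : (m0 : ℝ) * (κ - 1) ≤ m * (κ - 1) := mul_le_mul_of_nonneg_right t1 (by linarith)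
    linarith
  refine ⟨m, hm24, fun lam0 => ⟨1 / 2 ^ ((m + 3) * (m + 151) + 10 * m + m * lam0), by positivity,
    fun ξ ζ h => ?_⟩⟩
  rw [frequently_atTop] at h ⊢
  intro a
  obtain ⟨X, hX, c, ε, hc, hc0, hε, hlog, H⟩ := h (2 ^ (a + 25))
  have hX1 : (1 : ℝ) ≤ X := le_trans (one_le_pow₀ (by norm_num)) hX
  obtain ⟨L, l1, l2⟩ := exists_nat_pow_near hX1 (by norm_num : (1 : ℝ) < 2)
  have hL : a + 25 ≤ L := by
    have : (2 : ℝ) ^ (a + 25) < 2 ^ (L + 1) := lt_of_le_of_lt hX l2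
    have := (pow_lt_pow_iff_right₀ (by norm_num : (1 : ℝ) < 2)).1 this
    omega
  have hcl : c ≤ 1 / 2 ^ (m * lam0) := hc0.trans (by
    refine one_div_le_one_div_of_le (by positivity) ?_
    exact pow_le_pow_right₀ (by norm_num) (Nat.le_add_left _ _))
  have hc1 : c ≤ 1 := hcl.trans (by
    rw [div_le_one (by positivity)]; exact one_le_pow₀ (by norm_num))
  obtain ⟨j, j1, j2⟩ := exists_nat_pow_near (x := 8 / c) (y := (2 : ℝ) ^ m)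
    (by rw [le_div_iff₀ hc]; linarith) (one_lt_pow₀ (by norm_num) (by omega))
  rw [le_div_iff₀ hc] at j1
  rw [div_lt_iff₀ hc, ← pow_mul] at j2
  obtain ⟨lam, hlam⟩ : ∃ lam, lam = j + 1 := ⟨_, rfl⟩
  rw [← hlam] at j2
  have j3 : c * 2 ^ (m * lam) ≤ 2 ^ (m + 3) := by
    have p : (0 : ℝ) ≤ 2 ^ m := by positivity
    calc c * 2 ^ (m * lam) = 2 ^ m * (((2 : ℝ) ^ m) ^ j * c) := by
          rw [pow_mul, hlam, pow_succ]; ring
      _ ≤ 2 ^ m * 8 := mul_le_mul_of_nonneg_left j1 p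
      _ = 2 ^ (m + 3) := by rw [pow_add]; norm_num
  have hl0 : lam0 ≤ lam := by
    have t1 : (2 : ℝ) ^ (m * lam) * c ≤ 2 ^ (m * lam) * (1 / 2 ^ (m * lam0)) :=
      mul_le_mul_of_nonneg_left hcl (by positivity)
    have t2 : (1 : ℝ) ≤ 2 ^ (m * lam) / 2 ^ (m * lam0) := by
      rw [div_eq_mul_one_div]; linarith
    rw [one_le_div (by positivity)] at t2
    have t3 := (pow_le_pow_iff_right₀ (by norm_num : (1 : ℝ) < 2)).1 t2
    exact Nat.le_of_mul_le_mul_left t3 (by omega)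
  obtain ⟨c1, hc1e⟩ : ∃ c1, c1 + 2 = m * lam := ⟨m * lam - 2, by
    have : m * 1 ≤ m * lam := Nat.mul_le_mul_left _ (by omega)
    omega⟩
  have hcc : 2 ≤ c * 2 ^ c1 := by
    rw [← hc1e, pow_add] at j2
    norm_num at j2
    linarith
  have hsm := dense4_small (lam := lam) (by omega : m ≠ 0) hκm hc hc0 j3
  obtain ⟨η, hη⟩ : ∃ η, η = c ^ κ := ⟨_, rfl⟩
  rw [← hη] at hε H hsm
  have hη0 : 0 < η := by rw [hη]; exact Real.rpow_pos_of_pos hc κ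
  have hlog0 : 0 ≤ Real.log X := Real.log_nonneg hX1
  have hε0 : 0 < ε := by
    by_contra hh
    have := mul_nonpos_of_nonpos_of_nonneg (not_lt.1 hh) hlog0
    linarith
  have hlogX : Real.log X ≤ (L : ℝ) + 1 := by
    have t1 := Real.log_le_log (by linarith) l2.le
    rw [Real.log_pow] at t1
    have t2 : Real.log 2 ≤ 1 := by have := Real.log_le_sub_one_of_pos (two_pos (α := ℝ)); linarith
    have t3 : ((L + 1 : ℕ) : ℝ) * Real.log 2 ≤ ((L + 1 : ℕ) : ℝ) * 1 := by gcongr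
    push_cast at t1 t3
    linarith
  have e0 : 1 ≤ ε * ((L : ℝ) + 1) := hlog.trans (by gcongr)
  obtain ⟨E, hE⟩ : ∃ E, E = ⌈ε * ((L : ℝ) + 1)⌉₊ := ⟨_, rfl⟩
  have e1 : ε * ((L : ℝ) + 1) ≤ E := by rw [hE]; exact Nat.le_ceil _
  have e2 : (E : ℝ) ≤ 2 * (ε * ((L : ℝ) + 1)) := by
    have := Nat.ceil_lt_add_one (show 0 ≤ ε * ((L : ℝ) + 1) by linarith)
    rw [← hE] at this
    linarith
  have e3 : 1 ≤ E := by exact_mod_cast e0.trans e1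
  obtain ⟨G, hG⟩ : ∃ G, G = 2 ^ lam * E := ⟨_, rfl⟩
  obtain ⟨M, hM⟩ : ∃ M, M = 2 ^ ((m + 150) * lam) := ⟨_, rfl⟩
  obtain ⟨W, hW⟩ : ∃ W, W = G * 2 ^ ((m + 148) * lam) := ⟨_, rfl⟩
  have z2 : 2 ≤ 2 ^ lam := by
    calc 2 = 2 ^ 1 := rfl
      _ ≤ _ := Nat.pow_le_pow_right (by norm_num) (by omega)
  have g0 : 2 * E ≤ G := by rw [hG]; exact Nat.mul_le_mul_right _ z2
  have g1 : 2 ^ lam ≤ G := by rw [hG]; exact Nat.le_mul_of_pos_right _ e3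
  have w1 : W ≤ G * M := by
    rw [hW, hM]
    exact Nat.mul_le_mul_left _ (Nat.pow_le_pow_right (by norm_num)
      (Nat.mul_le_mul_right _ (by omega)))
  have w2 : G ≤ W := by rw [hW]; exact Nat.le_mul_of_pos_right _ (by positivity)
  have w3 : M ≤ G * M := Nat.le_mul_of_pos_left _ (by omega)
  have k1 : η * ((G * M : ℕ) : ℝ) ≤ ε * ((L : ℝ) + 1) / 512 := by
    have t1 : ((G * M : ℕ) : ℝ) = E * (2 : ℝ) ^ ((m + 151) * lam) := by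
      rw [hG, hM, show (m + 151) * lam = lam + (m + 150) * lam by ring, pow_add]
      push_cast
      ring
    have t2 : (0 : ℝ) ≤ E := Nat.cast_nonneg _
    calc η * ((G * M : ℕ) : ℝ) = E * (η * (2 : ℝ) ^ ((m + 151) * lam)) := by rw [t1]; ring
      _ ≤ E * (1 / 1024) := by gcongr
      _ ≤ _ := by linarith
  have k2 : 512 * (G * M) ≤ L + 1 := by
    have t1 : ε * ((L : ℝ) + 1) ≤ η * ((L : ℝ) + 1) := by gcongr
    have t2 : η * (512 * ((G * M : ℕ) : ℝ)) ≤ η * ((L : ℝ) + 1) := by linarith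
    have t3 := le_of_mul_le_mul_left t2 hη0
    exact_mod_cast t3
  have hjM : c1 + 2 ≤ M := by
    rw [hM, hc1e]
    exact (Nat.lt_two_pow_self).le.trans
      (Nat.pow_le_pow_right (by norm_num) (Nat.mul_le_mul_right _ (by omega)))
  obtain ⟨P, hP⟩ : ∃ P, P = G * M := ⟨_, rfl⟩
  have hP' : G * 2 ^ ((m + 150) * lam) = P := by rw [hP, hM]
  rw [← hP] at w1 w3 k1 k2
  obtain ⟨n, hn⟩ : ∃ n, n = (100 * (L + 1 + G + W) + 40) / 41 := ⟨_, rfl⟩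
  refine ⟨n, by omega, fun ξ' ζ' hξ hζ => ⟨lam, G, hl0, g1, by omega, ?_⟩⟩
  rw [← hW, ← hc1e]
  intro T hT1 hT2
  obtain ⟨S, hS⟩ : ∃ S, S + G = T := ⟨T - G, by omega⟩
  obtain ⟨Q, q1, q2, q3⟩ := H (2 ^ S)
    (l2.le.trans (pow_le_pow_right₀ (by norm_num) (by omega)))
    (by
      have t1 : (S : ℝ) ≤ L + 3 * (P : ℝ) := by exact_mod_cast (by omega : S ≤ L + 3 * P)
      have t2 : (25 : ℝ) ≤ L := by exact_mod_cast (by omega : 25 ≤ L)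
      have t3 : 3 * (P : ℝ) ≤ L * (ε / η) := by
        rw [← mul_div_assoc, le_div_iff₀ hη0]
        nlinarith
      calc (2 : ℝ) ^ S ≤ ((2 : ℝ) ^ L) ^ (1 + ε / η) := by
            rw [← Real.rpow_natCast, ← Real.rpow_natCast, ← Real.rpow_mul (by norm_num)]
            refine Real.rpow_le_rpow_of_exponent_le (by norm_num) ?_
            linarith
        _ ≤ X ^ (1 + ε / η) := Real.rpow_le_rpow (by positivity) l1 (by positivity))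
  obtain ⟨T', a1, a2, a3⟩ := dense3_level ξ ζ c Q c1 hcc
    (le_trans (one_le_pow₀ (by norm_num)) q1) q3
  have b1 : S < T' + 1 := (pow_lt_pow_iff_right₀ (by norm_num : (1 : ℝ) < 2)).1 (q1.trans_lt a2)
  have b2 : T' ≤ T := by
    have t1 : ((2 : ℝ) ^ S) ^ (1 + ε) ≤ 2 ^ T := by
      rw [← Real.rpow_natCast, ← Real.rpow_mul (by norm_num), ← Real.rpow_natCast]
      refine Real.rpow_le_rpow_of_exponent_le (by norm_num) ?_
      have t2 : (S : ℝ) ≤ 2 * ((L : ℝ) + 1) := by exact_mod_cast (by omega : S ≤ 2 * (L + 1))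
      have t3 : (S : ℝ) + G = T := by exact_mod_cast hS
      have t4 : ε * S ≤ ε * (2 * ((L : ℝ) + 1)) := by gcongr
      have t5 : 2 * (E : ℝ) ≤ G := by exact_mod_cast g0
      linarith
    exact (pow_le_pow_iff_right₀ (by norm_num : (1 : ℝ) < 2)).1 (a1.trans (q2.trans t1))
  exact ⟨T', b2, by omega, prim_perturb ξ ζ ξ' ζ' c1 T' n a3 hξ hζ (by omega)⟩

end Pool.Agent.Lib.MP_e56372_nt.Dim
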