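import Pool.Agent.Lib.MP_e56372_nt.Dim.Wrap

set_option autoImplicit false
open MeasureTheory Filter Topology Finset
open scoped ENNReal NNReal

namespace Pool.Agent.Lib.MP_e56372_nt.Dim

theorem wrap2_piece (θ η : ℝ) (hθ1 : 1 ≤ θ) (hη : θ < η) (d : ℝ≥0) (hd : (2 : ℝ) ^ (d : ℝ) = η)
    (Q : ℕ → ℝ → ℝ → Prop) (hper : ∀ n ξ ζ, ∀ j k : ℤ, Q n ξ ζ → Q n (ξ + j) (ζ + k))
    (hcount : ∀ᶠ n : ℕ in atTop, ∀ A : Finset (ℕ × ℕ),
      (∀ p ∈ A, p.1 < 2 ^ n ∧ p.2 < 2 ^ n ∧ Q n (p.1 / 2 ^ n) (p.2 / 2 ^ n)) →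
      (A.card : ℝ) ≤ θ ^ n) (j k : ℤ) :
    dimH {p : ℝ × ℝ | ⌊p.1⌋ = j ∧ ⌊p.2⌋ = k ∧ ∃ᶠ n : ℕ in atTop, ∀ ξ' ζ' : ℝ,
      |p.1 - ξ'| ≤ 1 / 2 ^ n → |p.2 - ζ'| ≤ 1 / 2 ^ n → Q n ξ' ζ'} ≤ d := by
  classical
  let A : ℕ → Finset (ℕ × ℕ) := fun n =>
    (range (2 ^ n) ×ˢ range (2 ^ n)).filter fun p => Q n (p.1 / 2 ^ n) (p.2 / 2 ^ n)
  let u : ∀ n : ℕ, (ℕ × ℕ) → Set (ℝ × ℝ) := fun n a =>
    Metric.closedBall ((a.1 : ℝ) / 2 ^ n + j, (a.2 : ℝ) / 2 ^ n + k) (1 / 2 ^ n)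
  let t : ∀ m : ℕ, (Σ i : ℕ, {a // a ∈ A (m + i)}) → Set (ℝ × ℝ) := fun m z => u (m + z.1) z.2.1
  have hdiam : ∀ n a, Metric.ediam (u n a) ≤ ENNReal.ofReal (2 / 2 ^ n) := by
    intro n a
    refine Metric.ediam_le_of_forall_dist_le fun x hx y hy => ?_
    have h1 := Metric.mem_closedBall.1 hx
    have h2 := Metric.mem_closedBall.1 hy
    have h3 := dist_triangle_right x y ((a.1 : ℝ) / 2 ^ n + j, (a.2 : ℝ) / 2 ^ n + k)
    have : (2 : ℝ) / 2 ^ n = 1 / 2 ^ n + 1 / 2 ^ n := by ring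
    linarith
  have hdiam2 : ∀ m z, Metric.ediam (t m z) ≤ ENNReal.ofReal (2 / 2 ^ m) := by
    intro m z
    refine (hdiam _ _).trans (ENNReal.ofReal_le_ofReal ?_)
    exact div_le_div_of_nonneg_left (by norm_num) (by positivity)
      (pow_le_pow_right₀ one_le_two (Nat.le_add_right _ _))
  have hr : Tendsto (fun n : ℕ => ENNReal.ofReal (2 / 2 ^ n)) atTop (𝓝 0) := by
    have h1 : Tendsto (fun n : ℕ => (2 : ℝ) / 2 ^ n) atTop (𝓝 0) :=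
      tendsto_const_nhds.div_atTop (tendsto_pow_atTop_atTop_of_one_lt one_lt_two)
    simpa using ENNReal.tendsto_ofReal h1
  have hθ0 : 0 < θ := by linarith
  have hη0 : 0 < η := by linarith
  have hq0 : 0 ≤ θ / η := by positivity
  have hq1 : θ / η < 1 := (div_lt_one hη0).2 hη
  have hsum : Summable fun i : ℕ => η * (θ / η) ^ i :=
    (summable_geometric_of_lt_one hq0 hq1).mul_left η
  refine dimH_le_of_hausdorffMeasure_ne_top
    (ne_top_of_le_ne_top (ENNReal.ofReal_ne_top (r := ∑' i : ℕ, η * (θ / η) ^ i)) ?_)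
  refine (Measure.hausdorffMeasure_le_liminf_tsum (d : ℝ) _ _ hr t
    (Eventually.of_forall hdiam2) (Eventually.of_forall ?_)).trans ?_
  · intro m p hp
    obtain ⟨h1, h2, h3⟩ := hp
    obtain ⟨n, hn, h3⟩ := frequently_atTop.1 h3 m
    obtain ⟨i, rfl⟩ := Nat.exists_eq_add_of_le hn
    obtain ⟨a, ha, ha'⟩ := wrap_cell p.1 (m + i)
    obtain ⟨b, hb, hb'⟩ := wrap_cell p.2 (m + i)
    rw [h1] at ha'
    rw [h2] at hb'
    have h4 := hper (m + i) _ _ (-j) (-k) (h3 _ _ ha' hb')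
    have hm : (a, b) ∈ A (m + i) := by
      refine mem_filter.2 ⟨mem_product.2 ⟨mem_range.2 ha, mem_range.2 hb⟩, ?_⟩
      simpa using h4
    refine Set.mem_iUnion.2 ⟨⟨i, ⟨(a, b), hm⟩⟩, ?_⟩
    refine Metric.mem_closedBall.2 ?_
    rw [Prod.dist_eq, max_le_iff, Real.dist_eq, Real.dist_eq]
    exact ⟨ha', hb'⟩
  · refine liminf_le_of_frequently_le' (Eventually.frequently ?_)
    obtain ⟨m0, hm0⟩ := eventually_atTop.1 hcount
    filter_upwards [eventually_ge_atTop m0] with m hm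
    rw [ENNReal.tsum_sigma', ENNReal.ofReal_tsum_of_nonneg (fun i => by positivity) hsum]
    refine ENNReal.tsum_le_tsum fun i => ?_
    rw [tsum_fintype]
    have hc : ((A (m + i)).card : ℝ) ≤ θ ^ (m + i) :=
      hm0 (m + i) (hm.trans (Nat.le_add_right _ _)) (A (m + i)) fun p hp => by
        obtain ⟨a, b⟩ := mem_filter.1 hp
        exact ⟨mem_range.1 (mem_product.1 a).1, mem_range.1 (mem_product.1 a).2, b⟩
    have e : ((2 : ℝ) / 2 ^ (m + i)) ^ (d : ℝ) = η / η ^ (m + i) := by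
      rw [Real.div_rpow (by norm_num) (by positivity), hd, ← Real.rpow_natCast,
        ← Real.rpow_mul (by norm_num), mul_comm, Real.rpow_mul (by norm_num), hd, Real.rpow_natCast]
    calc ∑ a : {a // a ∈ A (m + i)}, Metric.ediam (t m ⟨i, a⟩) ^ (d : ℝ)
        ≤ ∑ _a : {a // a ∈ A (m + i)}, ENNReal.ofReal (η / η ^ (m + i)) := by
          refine sum_le_sum fun a _ => ?_
          rw [← e, ← ENNReal.ofReal_rpow_of_nonneg (by positivity) d.coe_nonneg]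
          exact ENNReal.rpow_le_rpow (hdiam (m + i) a.1) d.coe_nonneg
      _ = ENNReal.ofReal (((A (m + i)).card : ℝ) * (η / η ^ (m + i))) := by
          rw [sum_const, card_univ, Fintype.card_coe, nsmul_eq_mul,
            ENNReal.ofReal_mul (Nat.cast_nonneg _), ENNReal.ofReal_natCast]
      _ ≤ ENNReal.ofReal (η * (θ / η) ^ i) := by
          refine ENNReal.ofReal_le_ofReal ?_
          have h5 : 0 < η ^ (m + i) := by positivity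
          calc ((A (m + i)).card : ℝ) * (η / η ^ (m + i)) ≤ θ ^ (m + i) * (η / η ^ (m + i)) :=
                mul_le_mul_of_nonneg_right hc (by positivity)
            _ = η * (θ / η) ^ (m + i) := by rw [div_pow]; ring
            _ ≤ η * (θ / η) ^ i :=
                mul_le_mul_of_nonneg_left
                  (pow_le_pow_of_le_one hq0 hq1.le (Nat.le_add_left _ _)) hη0.le

theorem dimH_lt_of_count2 (θ : ℝ) (hθ1 : 1 ≤ θ) (hθ : θ < 4) (P : ℕ → ℝ → ℝ → Prop)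
    (hper : ∀ n ξ ζ, ∀ j k : ℤ, P n ξ ζ → P n (ξ + j) (ζ + k))
    (hcount : ∀ᶠ n : ℕ in atTop, ∀ A : Finset (ℕ × ℕ),
      (∀ p ∈ A, p.1 < 2 ^ n ∧ p.2 < 2 ^ n ∧ P n (p.1 / 2 ^ n) (p.2 / 2 ^ n)) →
      (A.card : ℝ) ≤ θ ^ n) :
    dimH {p : ℝ × ℝ | ∃ᶠ n : ℕ in atTop, ∀ ξ' ζ' : ℝ,
      |p.1 - ξ'| ≤ 1 / 2 ^ n → |p.2 - ζ'| ≤ 1 / 2 ^ n → P n ξ' ζ'} < 2 := by
  obtain ⟨η, hη, hη4⟩ := exists_between hθ
  have hη1 : 1 ≤ η := by linarith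
  have hη0 : 0 < η := by linarith
  let d : ℝ≥0 := ⟨Real.logb 2 η, Real.logb_nonneg one_lt_two hη1⟩
  have hd : (2 : ℝ) ^ (d : ℝ) = η := Real.rpow_logb two_pos (by norm_num) hη0
  have hd2 : d < 2 := by
    have : (d : ℝ) < 2 := by
      by_contra hc
      have h1 : (2 : ℝ) ^ (2 : ℝ) ≤ (2 : ℝ) ^ (d : ℝ) :=
        Real.rpow_le_rpow_of_exponent_le one_le_two (not_lt.1 hc)
      rw [hd] at h1
      norm_num at h1
      linarith
    exact_mod_cast this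
  refine lt_of_le_of_lt (b := (d : ℝ≥0∞)) ?_ (by exact_mod_cast hd2)
  refine le_trans (dimH_mono (t := ⋃ z : ℤ × ℤ,
    {p : ℝ × ℝ | ⌊p.1⌋ = z.1 ∧ ⌊p.2⌋ = z.2 ∧ ∃ᶠ n : ℕ in atTop, ∀ ξ' ζ' : ℝ,
      |p.1 - ξ'| ≤ 1 / 2 ^ n → |p.2 - ζ'| ≤ 1 / 2 ^ n → P n ξ' ζ'}) ?_) ?_
  · intro p h
    exact Set.mem_iUnion.2 ⟨(⌊p.1⌋, ⌊p.2⌋), rfl, rfl, h⟩
  · rw [dimH_iUnion]
    exact iSup_le fun z => wrap2_piece θ η hθ1 hη d hd P hper hcount _ _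

end Pool.Agent.Lib.MP_e56372_nt.Dim
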