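import Pool.Agent.Lib.MP_e56372_nt.Dim.Dense2
import Pool.Agent.Lib.MP_e56372_nt.Dim.Wrap2
import Pool.Agent.Lib.MP_e56372_nt.Dim.Count2

set_option autoImplicit false
open Filter Topology

namespace Pool.Agent.Lib.MP_e56372_nt.Dim.DimDropLogOld
open Pool.Agent.Lib.MP_e56372_nt Pool.Agent.Lib.MP_e56372_nt.Dim

theorem dimDropLog : ∃ C : ℕ, dimH {p : ℝ × ℝ | ∃ᶠ X : ℝ in atTop, ∃ c : ℝ, 0 < c ∧ c ≤ 1 / 2 ∧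
    1 ≤ c ^ C * Real.log X ∧ ∀ Y : ℝ, X ≤ Y → Y ≤ X ^ 2 →
      ∃ Q : ℝ, Y ≤ Q ∧ Q ≤ Y ^ (1 + c ^ C) ∧ c ≤ Q * mmin p.1 p.2 Q} < 2 := by
  obtain ⟨θ, h1, h4, K, hK, hc⟩ := count2
  refine ⟨8 * K + 10, lt_of_le_of_lt (dimH_mono ?_) (dimH_lt_of_count2 θ h1 h4
    (fun n ξ ζ => ∃ c0 : ℕ, 2 ^ (K * (c0 + 1)) ≤ n ∧ DenseLv c0 (n / 2 ^ (K * (c0 + 1))) n ξ ζ)
    ?_ hc)⟩
  · intro p hp
    exact dense2 K hK p.1 p.2 hp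
  · rintro n ξ ζ j k ⟨c0, h0, h⟩
    refine ⟨c0, h0, fun T hT1 hT2 => ?_⟩
    obtain ⟨T', b1, b2, b3⟩ := h T hT1 hT2
    refine ⟨T', b1, b2, fun a b r c1 c2 c3 c4 => ?_⟩
    have := b3 a b (r + a * j + b * k) c1 c2 c3 c4
    convert this using 2
    push_cast
    ring

end Pool.Agent.Lib.MP_e56372_nt.Dim.DimDropLogOld
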