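import Pool.Agent.Lib.MP_e56372_nt.Dim.Defs

set_option autoImplicit false
open MeasureTheory Filter Topology Finset
open scoped ENNReal NNReal

namespace Pool.Agent.Lib.MP_e56372_nt.Dim

theorem wrap_cell (x : ℝ) (n : ℕ) : ∃ u : ℕ, u < 2 ^ n ∧
    |x - ((u : ℝ) / 2 ^ n + (⌊x⌋ : ℤ))| ≤ 1 / 2 ^ n := by
  have h2 : (0 : ℝ) < 2 ^ n := by positivity
  have h0 : 0 ≤ 2 ^ n * Int.fract x := mul_nonneg h2.le (Int.fract_nonneg x)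
  have h1 : 2 ^ n * Int.fract x < 2 ^ n := by
    have := Int.fract_lt_one x
    nlinarith
  refine ⟨⌊2 ^ n * Int.fract x⌋₊, ?_, ?_⟩
  · rw [Nat.floor_lt h0]
    push_cast
    exact h1
  · have a1 := Nat.floor_le h0
    have a2 := Nat.lt_floor_add_one (2 ^ n * Int.fract x)
    have e : x - ((⌊2 ^ n * Int.fract x⌋₊ : ℝ) / 2 ^ n + (⌊x⌋ : ℤ)) =
        (2 ^ n * Int.fract x - ⌊2 ^ n * Int.fract x⌋₊) / 2 ^ n := by
      rw [sub_div, mul_div_cancel_left₀ _ h2.ne', ← Int.self_sub_floor]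
      ring
    rw [e, abs_div, abs_of_pos h2]
    refine div_le_div_of_nonneg_right ?_ h2.le
    rw [abs_le]
    constructor <;> linarith

theorem wrap_piece (θ : ℝ) (hθ1 : 1 ≤ θ) (d : ℝ≥0) (hd : (2 : ℝ) ^ (d : ℝ) = θ)
    (Q : ℕ → ℝ → ℝ → Prop) (hper : ∀ n ξ ζ, ∀ j k : ℤ, Q n ξ ζ → Q n (ξ + j) (ζ + k))
    (hcount : ∀ᶠ n : ℕ in atTop, ∀ A : Finset (ℕ × ℕ),
      (∀ p ∈ A, p.1 < 2 ^ n ∧ p.2 < 2 ^ n ∧ Q n (p.1 / 2 ^ n) (p.2 / 2 ^ n)) →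
      (A.card : ℝ) ≤ θ ^ n) (n0 : ℕ) (j k : ℤ) :
    dimH {p : ℝ × ℝ | ⌊p.1⌋ = j ∧ ⌊p.2⌋ = k ∧ ∀ n ≥ n0, ∀ ξ' ζ' : ℝ,
      |p.1 - ξ'| ≤ 1 / 2 ^ n → |p.2 - ζ'| ≤ 1 / 2 ^ n → Q n ξ' ζ'} ≤ d := by
  classical
  let A : ℕ → Finset (ℕ × ℕ) := fun n =>
    (range (2 ^ n) ×ˢ range (2 ^ n)).filter fun p => Q n (p.1 / 2 ^ n) (p.2 / 2 ^ n)
  let t : ∀ n : ℕ, {a // a ∈ A n} → Set (ℝ × ℝ) := fun n a =>
    Metric.closedBall ((a.1.1 : ℝ) / 2 ^ n + j, (a.1.2 : ℝ) / 2 ^ n + k) (1 / 2 ^ n)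
  have hdiam : ∀ n a, Metric.ediam (t n a) ≤ ENNReal.ofReal (2 / 2 ^ n) := by
    intro n a
    refine Metric.ediam_le_of_forall_dist_le fun x hx y hy => ?_
    have h1 := Metric.mem_closedBall.1 hx
    have h2 := Metric.mem_closedBall.1 hy
    have h3 := dist_triangle_right x y ((a.1.1 : ℝ) / 2 ^ n + j, (a.1.2 : ℝ) / 2 ^ n + k)
    have : (2 : ℝ) / 2 ^ n = 1 / 2 ^ n + 1 / 2 ^ n := by ring
    linarith
  have hr : Tendsto (fun n : ℕ => ENNReal.ofReal (2 / 2 ^ n)) atTop (𝓝 0) := by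
    have h1 : Tendsto (fun n : ℕ => (2 : ℝ) / 2 ^ n) atTop (𝓝 0) :=
      tendsto_const_nhds.div_atTop (tendsto_pow_atTop_atTop_of_one_lt one_lt_two)
    simpa using ENNReal.tendsto_ofReal h1
  refine dimH_le_of_hausdorffMeasure_ne_top (ne_top_of_le_ne_top (ENNReal.ofReal_ne_top (r := θ)) ?_)
  refine (Measure.hausdorffMeasure_le_liminf_sum (d : ℝ) _ _ hr t
    (Eventually.of_forall hdiam) ?_).trans ?_
  · filter_upwards [eventually_ge_atTop n0] with n hn p hp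
    obtain ⟨h1, h2, h3⟩ := hp
    obtain ⟨u, hu, hu'⟩ := wrap_cell p.1 n
    obtain ⟨v, hv, hv'⟩ := wrap_cell p.2 n
    rw [h1] at hu'
    rw [h2] at hv'
    have h4 := hper n _ _ (-j) (-k) (h3 n hn _ _ hu' hv')
    have hm : (u, v) ∈ A n := by
      refine mem_filter.2 ⟨mem_product.2 ⟨mem_range.2 hu, mem_range.2 hv⟩, ?_⟩
      simpa using h4
    refine Set.mem_iUnion.2 ⟨⟨(u, v), hm⟩, ?_⟩
    refine Metric.mem_closedBall.2 ?_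
    rw [Prod.dist_eq, max_le_iff, Real.dist_eq, Real.dist_eq]
    exact ⟨hu', hv'⟩
  · refine liminf_le_of_frequently_le' (Eventually.frequently ?_)
    filter_upwards [hcount] with n hn
    have hc : ((A n).card : ℝ) ≤ θ ^ n := hn (A n) fun p hp => by
      obtain ⟨a, b⟩ := mem_filter.1 hp
      exact ⟨mem_range.1 (mem_product.1 a).1, mem_range.1 (mem_product.1 a).2, b⟩
    have hθ0 : 0 < θ := by linarith
    have e : ((2 : ℝ) / 2 ^ n) ^ (d : ℝ) = θ / θ ^ n := by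
      rw [Real.div_rpow (by norm_num) (by positivity), hd, ← Real.rpow_natCast,
        ← Real.rpow_mul (by norm_num), mul_comm, Real.rpow_mul (by norm_num), hd, Real.rpow_natCast]
    calc ∑ a : {a // a ∈ A n}, Metric.ediam (t n a) ^ (d : ℝ)
        ≤ ∑ _a : {a // a ∈ A n}, ENNReal.ofReal (θ / θ ^ n) := by
          refine sum_le_sum fun a _ => ?_
          rw [← e, ← ENNReal.ofReal_rpow_of_nonneg (by positivity) d.coe_nonneg]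
          exact ENNReal.rpow_le_rpow (hdiam n a) d.coe_nonneg
      _ = ENNReal.ofReal (((A n).card : ℝ) * (θ / θ ^ n)) := by
          rw [sum_const, card_univ, Fintype.card_coe, nsmul_eq_mul,
            ENNReal.ofReal_mul (Nat.cast_nonneg _), ENNReal.ofReal_natCast]
      _ ≤ ENNReal.ofReal θ := by
          refine ENNReal.ofReal_le_ofReal ?_
          have h5 : 0 < θ ^ n := by positivity
          calc ((A n).card : ℝ) * (θ / θ ^ n) ≤ θ ^ n * (θ / θ ^ n) :=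
                mul_le_mul_of_nonneg_right hc (by positivity)
            _ = θ := by field_simp

theorem dimH_lt_of_count (θ : ℝ) (hθ1 : 1 ≤ θ) (hθ : θ < 4) (P : ℕ → ℕ → ℕ → ℝ → ℝ → Prop)
    (hper : ∀ c0 M n ξ ζ, ∀ j k : ℤ, P c0 M n ξ ζ → P c0 M n (ξ + j) (ζ + k))
    (hcount : ∀ c0 : ℕ, ∃ M : ℕ, 0 < M ∧ ∀ᶠ n : ℕ in atTop, ∀ A : Finset (ℕ × ℕ),
      (∀ p ∈ A, p.1 < 2 ^ n ∧ p.2 < 2 ^ n ∧ P c0 M n (p.1 / 2 ^ n) (p.2 / 2 ^ n)) →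
      (A.card : ℝ) ≤ θ ^ n) :
    dimH {p : ℝ × ℝ | ∃ c0 : ℕ, ∀ M : ℕ, 0 < M → ∀ᶠ n : ℕ in atTop, ∀ ξ' ζ' : ℝ,
      |p.1 - ξ'| ≤ 1 / 2 ^ n → |p.2 - ζ'| ≤ 1 / 2 ^ n → P c0 M n ξ' ζ'} < 2 := by
  choose M hM0 hM using hcount
  have hθ0 : 0 < θ := by linarith
  let d : ℝ≥0 := ⟨Real.logb 2 θ, Real.logb_nonneg one_lt_two hθ1⟩
  have hd : (2 : ℝ) ^ (d : ℝ) = θ := Real.rpow_logb two_pos (by norm_num) hθ0
  have hd2 : d < 2 := by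
    have : (d : ℝ) < 2 := by
      by_contra hc
      have h1 : (2 : ℝ) ^ (2 : ℝ) ≤ (2 : ℝ) ^ (d : ℝ) :=
        Real.rpow_le_rpow_of_exponent_le one_le_two (not_lt.1 hc)
      rw [hd] at h1
      norm_num at h1
      linarith
    exact_mod_cast this
  refine lt_of_le_of_lt (b := (d : ℝ≥0∞)) ?_ (by exact_mod_cast hd2)
  refine le_trans (dimH_mono (t := ⋃ z : ℕ × ℕ × ℤ × ℤ,
    {p : ℝ × ℝ | ⌊p.1⌋ = z.2.2.1 ∧ ⌊p.2⌋ = z.2.2.2 ∧ ∀ n ≥ z.2.1, ∀ ξ' ζ' : ℝ,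
      |p.1 - ξ'| ≤ 1 / 2 ^ n → |p.2 - ζ'| ≤ 1 / 2 ^ n → P z.1 (M z.1) n ξ' ζ'}) ?_) ?_
  · rintro p ⟨c0, h⟩
    obtain ⟨n0, hn0⟩ := eventually_atTop.1 (h (M c0) (hM0 c0))
    exact Set.mem_iUnion.2 ⟨(c0, n0, ⌊p.1⌋, ⌊p.2⌋), rfl, rfl, hn0⟩
  · rw [dimH_iUnion]
    exact iSup_le fun z => wrap_piece θ hθ1 d hd (P z.1 (M z.1)) (hper z.1 (M z.1)) (hM z.1) _ _ _

end Pool.Agent.Lib.MP_e56372_nt.Dim
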