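import Pool.Agent.Lib.MP_e56372_nt.Dim.Dense
import Pool.Agent.Lib.MP_e56372_nt.Dim.Wrap
import Pool.Agent.Lib.MP_e56372_nt.Dim.Count

set_option autoImplicit false
open Filter Topology

namespace Pool.Agent.Lib.MP_e56372_nt.Dim.DimDropOld
open Pool.Agent.Lib.MP_e56372_nt Pool.Agent.Lib.MP_e56372_nt.Dim

theorem dimDropOld : dimH {p : ℝ × ℝ | ∃ Q : ℕ → ℝ, (∀ k, 1 ≤ Q k) ∧ Tendsto Q atTop atTop ∧
    Tendsto (fun k => Real.log (Q (k + 1)) / Real.log (Q k)) atTop (𝓝 1) ∧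
    ∃ c : ℝ, 0 < c ∧ ∀ᶠ k in atTop, c ≤ Q k * mmin p.1 p.2 (Q k)} < 2 := by
  obtain ⟨θ, h1, h4, hc⟩ := count
  refine lt_of_le_of_lt (dimH_mono ?_)
    (dimH_lt_of_count θ h1 h4 (fun c0 M n ξ ζ => DenseLv c0 (n / M) n ξ ζ) ?_ hc)
  · rintro p ⟨Q, a1, a2, a3, c, a4, a5⟩
    exact dense_of_growth p.1 p.2 Q a1 a2 a3 c a4 a5
  · intro c0 M n ξ ζ j k h T hT1 hT2
    obtain ⟨T', b1, b2, b3⟩ := h T hT1 hT2
    refine ⟨T', b1, b2, fun a b r c1 c2 c3 c4 => ?_⟩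
    have := b3 a b (r + a * j + b * k) c1 c2 c3 c4
    convert this using 2
    push_cast
    ring

end Pool.Agent.Lib.MP_e56372_nt.Dim.DimDropOld
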