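import Pool.Agent.Lib.MP_e56372_nt.Dim.Defs3

set_option autoImplicit false
open MeasureTheory Filter Topology Finset

namespace Pool.Agent.Lib.MP_e56372_nt.Dim
open Pool.Agent.Lib.MP_e56372_nt

def jackS {A k : ℕ} (u : Fin k → Fin A) : ℕ := ∑ i, (u i : ℕ)

def jackD {A k : ℕ} (p : (Fin k → Fin A) × (Fin k → Fin A)) : ℤ := (jackS p.1 : ℤ) - jackS p.2

noncomputable def jackC (A k : ℕ) (a : ℤ) : ℝ :=
  ((univ.filter fun p : (Fin k → Fin A) × (Fin k → Fin A) => jackD p = a).card : ℝ) / (A : ℝ) ^ (2 * k)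

theorem jack_S_lt {A k : ℕ} (hk : 1 ≤ k) (u : Fin k → Fin A) : jackS u < k * A := by
  have h : jackS u + k ≤ k * A := by
    have h1 : ∑ i : Fin k, ((u i : ℕ) + 1) ≤ ∑ _i : Fin k, A :=
      Finset.sum_le_sum fun i _ => (u i).2
    rw [Finset.sum_add_distrib] at h1
    simpa [jackS] using h1
  omega

theorem jack_D_lt {A k : ℕ} (hk : 1 ≤ k) (p : (Fin k → Fin A) × (Fin k → Fin A)) :
    |jackD p| < ((k * A : ℕ) : ℤ) := by
  have h1 := jack_S_lt hk p.1
  have h2 := jack_S_lt hk p.2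
  unfold jackD
  rw [abs_lt]
  constructor <;> omega

theorem jack_sum {A k : ℕ} (hk : 1 ≤ k) (f : ℤ → ℝ) :
    ∑ a ∈ Sym (k * A), jackC A k a * f a =
      (∑ p : (Fin k → Fin A) × (Fin k → Fin A), f (jackD p)) / (A : ℝ) ^ (2 * k) := by
  rw [← Finset.sum_fiberwise_of_maps_to (s := univ) (t := Sym (k * A)) (g := jackD)
    (fun p _ => by
      have := jack_D_lt hk p
      rw [abs_lt] at this
      unfold Sym
      rw [Finset.mem_Icc]
      constructor <;> omega), Finset.sum_div]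
  refine Finset.sum_congr rfl fun a _ => ?_
  rw [Finset.sum_congr rfl (g := fun _ => f a) (fun p hp => by rw [(Finset.mem_filter.1 hp).2]),
    Finset.sum_const, nsmul_eq_mul, jackC]
  ring

theorem jack_le {A k : ℕ} (hA : 1 ≤ A) (hk : 1 ≤ k) (a : ℤ) : jackC A k a ≤ 1 / A := by
  obtain ⟨k, rfl⟩ : ∃ j, k = j + 1 := ⟨k - 1, by omega⟩
  have hA' : (0 : ℝ) < A := by exact_mod_cast hA
  have h : (univ.filter fun p : (Fin (k + 1) → Fin A) × (Fin (k + 1) → Fin A) => jackD p = a).card ≤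
      (univ : Finset ((Fin k → Fin A) × (Fin (k + 1) → Fin A))).card := by
    refine Finset.card_le_card_of_injOn (fun p => (Fin.tail p.1, p.2)) (fun _ _ => by simp) ?_
    intro p hp q hq h
    have hp' : jackD p = a := by simpa using hp
    have hq' : jackD q = a := by simpa using hq
    simp only [Prod.mk.injEq] at h
    obtain ⟨h1, h2⟩ := h
    have h3 : ∀ i : Fin k, p.1 i.succ = q.1 i.succ := fun i => congrFun h1 i
    have h4 : jackS p.1 = jackS q.1 := by
      unfold jackD at hp' hq'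
      rw [h2] at hp'
      omega
    unfold jackS at h4
    rw [Fin.sum_univ_succ, Fin.sum_univ_succ] at h4
    simp only [h3] at h4
    have h5 : p.1 0 = q.1 0 := Fin.ext (by omega)
    refine Prod.ext ?_ h2
    funext i
    exact Fin.cases h5 h3 i
  have h' : ((univ.filter fun p : (Fin (k + 1) → Fin A) × (Fin (k + 1) → Fin A) =>
      jackD p = a).card : ℝ) ≤ (A : ℝ) ^ k * (A : ℝ) ^ (k + 1) := by
    have : (univ : Finset ((Fin k → Fin A) × (Fin (k + 1) → Fin A))).card = A ^ k * A ^ (k + 1) := by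
      simp
    rw [this] at h
    exact_mod_cast h
  unfold jackC
  rw [div_le_div_iff₀ (by positivity) hA']
  calc _ ≤ (A : ℝ) ^ k * (A : ℝ) ^ (k + 1) * A := mul_le_mul_of_nonneg_right h' hA'.le
    _ = _ := by ring

theorem jack_zero {A k : ℕ} (hA : 1 ≤ A) (hk : 1 ≤ k) : 1 / (2 * (k : ℝ) * A) ≤ jackC A k 0 := by
  have hA' : (0 : ℝ) < A := by exact_mod_cast hA
  have hk' : (0 : ℝ) < k := by exact_mod_cast hk
  set n : ℕ → ℕ := fun s => (univ.filter fun u : Fin k → Fin A => jackS u = s).card with hn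
  have h1 : ∑ s ∈ range (k * A), n s = A ^ k := by
    have := Finset.card_eq_sum_card_fiberwise (s := (univ : Finset (Fin k → Fin A)))
      (t := range (k * A)) (f := jackS) (fun u _ => by simpa using jack_S_lt hk u)
    rw [← this]
    simp
  have h2 : (univ.filter fun p : (Fin k → Fin A) × (Fin k → Fin A) => jackD p = 0).card =
      ∑ s ∈ range (k * A), n s ^ 2 := by
    rw [Finset.card_eq_sum_card_fiberwise (t := range (k * A)) (f := fun p => jackS p.1)
      (fun p _ => by simpa using jack_S_lt hk p.1)]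
    refine Finset.sum_congr rfl fun s _ => ?_
    rw [sq, hn, ← Finset.card_product]
    congr 1
    ext p
    simp only [Finset.mem_filter, Finset.mem_univ, true_and, Finset.mem_product, jackD]
    omega
  have h3 : (∑ s ∈ range (k * A), (n s : ℝ)) ^ 2 ≤
      (range (k * A)).card * ∑ s ∈ range (k * A), (n s : ℝ) ^ 2 := sq_sum_le_card_mul_sum_sq
  have h1' : ∑ s ∈ range (k * A), (n s : ℝ) = (A : ℝ) ^ k := by exact_mod_cast h1
  have h2' : ((univ.filter fun p : (Fin k → Fin A) × (Fin k → Fin A) => jackD p = 0).card : ℝ) =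
      ∑ s ∈ range (k * A), (n s : ℝ) ^ 2 := by exact_mod_cast h2
  rw [h1', ← h2', Finset.card_range] at h3
  unfold jackC
  rw [div_le_div_iff₀ (by positivity) (by positivity)]
  have h4 : (0 : ℝ) ≤ ((univ.filter fun p : (Fin k → Fin A) × (Fin k → Fin A) =>
    jackD p = 0).card : ℝ) * (k * A) := by positivity
  push_cast at h3
  have h5 : (A : ℝ) ^ (2 * k) = ((A : ℝ) ^ k) ^ 2 := by ring
  rw [h5]
  linarith

theorem jack_symm (A k : ℕ) (a : ℤ) : jackC A k (-a) = jackC A k a := by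
  unfold jackC
  congr 2
  refine Finset.card_bij (fun p _ => p.swap) ?_ ?_ ?_
  · intro p hp
    have hp' : jackD p = -a := by simpa using hp
    simp only [Finset.mem_filter, Finset.mem_univ, true_and, jackD, Prod.fst_swap, Prod.snd_swap]
    unfold jackD at hp'
    omega
  · intro p _ q _ h
    exact Prod.swap_injective h
  · intro p hp
    have hp' : jackD p = a := by simpa using hp
    refine ⟨p.swap, ?_, rfl⟩
    simp only [Finset.mem_filter, Finset.mem_univ, true_and, jackD, Prod.fst_swap, Prod.snd_swap]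
    unfold jackD at hp'
    omega

noncomputable def jackE (θ : ℝ) : ℂ := Complex.exp (Complex.I * (2 * Real.pi * θ : ℝ))

theorem jack_E_norm (θ : ℝ) : ‖jackE θ‖ = 1 := Complex.norm_exp_I_mul_ofReal _

theorem jack_pow (A k : ℕ) (z : ℂ) :
    (∑ j ∈ range A, z ^ j) ^ k = ∑ u : Fin k → Fin A, z ^ jackS u := by
  rw [← Fin.sum_univ_eq_sum_range (fun j => z ^ j) A, Fintype.sum_pow]
  refine Finset.sum_congr rfl fun u _ => ?_
  rw [jackS, Finset.prod_pow_eq_pow_sum]

theorem jack_cos (θ : ℝ) (a b : ℕ) :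
    (jackE θ ^ a * (starRingEnd ℂ) (jackE θ) ^ b).re =
      Real.cos (2 * Real.pi * (((a : ℤ) - (b : ℤ) : ℤ) : ℝ) * θ) := by
  have h : jackE θ ^ a * (starRingEnd ℂ) (jackE θ) ^ b =
      Complex.exp (((2 * Real.pi * (((a : ℤ) - (b : ℤ) : ℤ) : ℝ) * θ : ℝ) : ℂ) * Complex.I) := by
    unfold jackE
    rw [← Complex.exp_conj, ← Complex.exp_nat_mul, ← Complex.exp_nat_mul, ← Complex.exp_add]
    congr 1
    rw [map_mul, Complex.conj_I, Complex.conj_ofReal]
    push_cast
    ring
  rw [h, Complex.exp_ofReal_mul_I_re]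

theorem jack_Gc {A k : ℕ} (hk : 1 ≤ k) (θ : ℝ) :
    Gc A k (jackC A k) θ = (‖∑ j ∈ range A, jackE θ ^ j‖ / A) ^ (2 * k) := by
  unfold Gc
  rw [jack_sum hk (fun a => Real.cos (2 * Real.pi * a * θ)), div_pow]
  congr 1
  have h1 : (((‖∑ j ∈ range A, jackE θ ^ j‖ ^ (2 * k) : ℝ)) : ℂ) =
      (∑ j ∈ range A, jackE θ ^ j) ^ k * (∑ j ∈ range A, (starRingEnd ℂ) (jackE θ) ^ j) ^ k := by
    have : (∑ j ∈ range A, (starRingEnd ℂ) (jackE θ) ^ j) =
        (starRingEnd ℂ) (∑ j ∈ range A, jackE θ ^ j) := by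
      rw [map_sum]
      simp only [map_pow]
    rw [this, ← mul_pow, Complex.mul_conj', pow_mul]
    push_cast
    rfl
  have h2 := congrArg Complex.re h1
  rw [Complex.ofReal_re] at h2
  rw [h2, jack_pow, jack_pow, Finset.sum_mul_sum, ← Fintype.sum_prod_type', Complex.re_sum]
  refine Finset.sum_congr rfl fun p _ => ?_
  rw [jack_cos, jackD]

theorem jack_sub (θ : ℝ) : 4 * nd θ ≤ ‖jackE θ - 1‖ := by
  have h1 : jackE θ = Complex.exp (Complex.I * (2 * Real.pi * (θ - round θ) : ℝ)) := by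
    unfold jackE
    rw [Complex.exp_eq_exp_iff_exists_int]
    refine ⟨round θ, ?_⟩
    push_cast
    ring
  rw [h1, Complex.norm_exp_I_mul_ofReal_sub_one]
  have h2 : |θ - round θ| ≤ 1 / 2 := abs_sub_round θ
  have hp := Real.pi_pos
  have h3 : |2 * Real.pi * (θ - round θ) / 2| = Real.pi * |θ - round θ| := by
    rw [show 2 * Real.pi * (θ - round θ) / 2 = Real.pi * (θ - round θ) by ring, abs_mul,
      abs_of_pos hp]
  have h4 := Real.mul_abs_le_abs_sin (x := 2 * Real.pi * (θ - round θ) / 2)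
    (by rw [h3]; nlinarith)
  rw [h3] at h4
  have h5 : 2 / Real.pi * (Real.pi * |θ - round θ|) = 2 * |θ - round θ| := by field_simp
  rw [h5] at h4
  rw [Real.norm_eq_abs, abs_mul, abs_two]
  unfold nd
  linarith

theorem jack_bound {A : ℕ} (hA : 1 ≤ A) (θ : ℝ) :
    ‖∑ j ∈ range A, jackE θ ^ j‖ / A * max 1 (2 * A * nd θ) ≤ 1 := by
  have hA' : (0 : ℝ) < A := by exact_mod_cast hA
  have h0 := norm_nonneg (∑ j ∈ range A, jackE θ ^ j)
  have h1 : ‖∑ j ∈ range A, jackE θ ^ j‖ ≤ A := by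
    refine (norm_sum_le _ _).trans (le_of_eq ?_)
    simp [norm_pow, jack_E_norm]
  have h2 : ‖∑ j ∈ range A, jackE θ ^ j‖ * ‖jackE θ - 1‖ ≤ 2 := by
    rw [← norm_mul, geom_sum_mul]
    refine (norm_sub_le _ _).trans (le_of_eq ?_)
    rw [norm_pow, jack_E_norm, one_pow, norm_one]
    norm_num
  have h3 := mul_le_mul_of_nonneg_left (jack_sub θ) h0
  rcases le_total 1 (2 * A * nd θ) with h | h
  · rw [max_eq_right h]
    have : ‖∑ j ∈ range A, jackE θ ^ j‖ / A * (2 * A * nd θ) =
        ‖∑ j ∈ range A, jackE θ ^ j‖ * (4 * nd θ) / 2 := by field_simp; ring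
    rw [this]
    linarith
  · rw [max_eq_left h, mul_one, div_le_one hA']
    exact h1

theorem jackson (A k : ℕ) (hA : 1 ≤ A) (hk : 1 ≤ k) : ∃ c, Coef A k c := by
  have hA' : (0 : ℝ) < A := by exact_mod_cast hA
  refine ⟨jackC A k, fun a => by unfold jackC; positivity, jack_le hA hk, jack_zero hA hk, ?_,
    jack_symm A k, ?_, fun θ => by rw [jack_Gc hk]; positivity, fun θ => ?_⟩
  · intro a ha
    unfold jackC
    rw [Finset.filter_eq_empty_iff.2, Finset.card_empty, Nat.cast_zero, zero_div]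
    intro p _ hp
    have := jack_D_lt hk p
    rw [hp] at this
    omega
  · have := jack_sum (A := A) hk (fun _ => 1)
    simp only [mul_one] at this
    rw [this, Finset.sum_const, nsmul_eq_mul, mul_one, div_eq_one_iff_eq (by positivity)]
    simp only [Finset.card_univ, Fintype.card_prod, Fintype.card_fun, Fintype.card_fin]
    push_cast
    ring
  · have hm : (0 : ℝ) < max 1 (2 * A * nd θ) := lt_of_lt_of_le one_pos (le_max_left _ _)
    rw [jack_Gc hk, le_div_iff₀ (by positivity), ← mul_pow]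
    exact pow_le_one₀ (by positivity) (jack_bound hA θ)

end Pool.Agent.Lib.MP_e56372_nt.Dim
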