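import Pool.Agent.Lib.MP_e56372_nt.Dim.Defs3

set_option autoImplicit false
open MeasureTheory Filter Topology

namespace Pool.Agent.Lib.MP_e56372_nt.Dim
open Pool.Agent.Lib.MP_e56372_nt

theorem madcor_two (x : ℝ) : nd (2 * x) ≤ 2 * nd x := by
  unfold nd
  have h := round_le (2 * x) (2 * round x)
  have e : 2 * x - ((2 * round x : ℤ) : ℝ) = 2 * (x - round x) := by push_cast; ring
  rw [e, abs_mul, abs_two] at h
  exact h

/-- the remark of the claim: the window statement bounds the dimension of the `Mad` sets. -/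
theorem mad_cor (H : ∀ κ : ℝ, 1 < κ → ∃ c0 : ℝ, 0 < c0 ∧
    dimH {p : ℝ × ℝ | ∃ᶠ X : ℝ in atTop, ∃ c : ℝ, 0 < c ∧ c ≤ c0 ∧ 1 ≤ c ^ κ * Real.log X ∧
      ∀ Y : ℝ, X ≤ Y → Y ≤ X ^ 2 →
        ∃ Q : ℝ, Y ≤ Q ∧ Q ≤ Y ^ (1 + c ^ κ) ∧ c ≤ Q * mmin p.1 p.2 Q} < 2)
    (lam : ℝ) (h0 : 0 ≤ lam) (h1 : lam < 1) :
    dimH {p : ℝ × ℝ | ∃ ε : ℝ, 0 < ε ∧ ∀ q : ℕ, 2 ≤ q →
      ε ≤ q * Real.log q ^ lam * (nd (q * p.1) * nd (q * p.2))} < 2 := by
  obtain ⟨κ, hκ⟩ : ∃ κ : ℝ, κ = 2 / (1 + lam) := ⟨_, rfl⟩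
  have k1 : 1 < κ := by rw [hκ, lt_div_iff₀ (by linarith)]; linarith
  have k2 : lam * κ < 1 := by
    rw [hκ, ← mul_div_assoc, div_lt_one (by linarith)]; linarith
  obtain ⟨c0, c00, hd⟩ := H κ k1
  refine lt_of_le_of_lt (dimH_mono ?_) hd
  rintro p ⟨ε, ε0, hp⟩
  obtain ⟨a, ha⟩ : ∃ a : ℝ, a = min c0 (ε / 8) := ⟨_, rfl⟩
  have a0 : 0 < a := ha ▸ lt_min c00 (by positivity)
  have a1 : a ≤ c0 := ha ▸ min_le_left _ _
  have a2 : a ≤ ε / 8 := ha ▸ min_le_right _ _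
  have lim : Tendsto (fun X : ℝ => (2 * Real.log X) ^ (1 - lam * κ)) atTop atTop :=
    (tendsto_rpow_atTop (by linarith)).comp (Real.tendsto_log_atTop.const_mul_atTop two_pos)
  refine Eventually.frequently ?_
  filter_upwards [lim.eventually_ge_atTop (2 / a ^ κ), Real.tendsto_log_atTop.eventually_ge_atTop 1,
    eventually_ge_atTop (1 : ℝ)] with X hX hL hX1
  obtain ⟨L, hLd⟩ : ∃ L : ℝ, L = 2 * Real.log X := ⟨_, rfl⟩
  rw [← hLd] at hX
  have L1 : 1 ≤ L := by linarith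
  have L0 : 0 < L := by linarith
  have P1 : 1 ≤ L ^ lam := Real.one_le_rpow L1 h0
  have aκ : 0 < a ^ κ := Real.rpow_pos_of_pos a0 _
  refine ⟨a / L ^ lam, by positivity, (div_le_self a0.le P1).trans a1, ?_, fun Y hY1 hY2 => ?_⟩
  · rw [Real.div_rpow a0.le (by positivity), ← Real.rpow_mul L0.le]
    rw [Real.rpow_sub L0, Real.rpow_one, div_le_div_iff₀ aκ (by positivity)] at hX
    rw [div_mul_eq_mul_div, le_div_iff₀ (by positivity)]
    nlinarith
  · have Y1 : 1 ≤ Y := hX1.trans hY1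
    refine ⟨Y, le_rfl, ?_, ?_⟩
    · calc Y = Y ^ (1 : ℝ) := (Real.rpow_one Y).symm
        _ ≤ _ := Real.rpow_le_rpow_of_exponent_le Y1
          (le_add_of_nonneg_right (Real.rpow_nonneg (by positivity) _))
    · rw [← div_le_iff₀' (by linarith)]
      haveI : Nonempty {q : ℕ // 0 < q ∧ (q : ℝ) ≤ Y} := ⟨⟨1, one_pos, by simpa using Y1⟩⟩
      refine le_ciInf fun q => ?_
      obtain ⟨q, q0, qY⟩ := q
      show _ ≤ nd (q * p.1) * nd (q * p.2)
      have n0 : ∀ x, 0 ≤ nd x := fun x => abs_nonneg _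
      have m0 : 0 ≤ nd (q * p.1) * nd (q * p.2) := mul_nonneg (n0 _) (n0 _)
      rw [div_div, div_le_iff₀ (by positivity)]
      rcases Nat.lt_or_ge q 2 with h | h
      · obtain rfl : q = 1 := by omega
        have b := hp 2 le_rfl
        have l2 : Real.log ((2 : ℕ) : ℝ) ^ lam ≤ 1 := Real.rpow_le_one (Real.log_natCast_nonneg _)
          (by have := Real.log_two_lt_d9; push_cast; linarith) h0
        have b1 := madcor_two p.1
        have b2 := madcor_two p.2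
        have b3 := mul_le_mul b1 b2 (n0 _) (by have := n0 p.1; positivity)
        have b4 : 0 ≤ nd (2 * p.1) * nd (2 * p.2) := mul_nonneg (n0 _) (n0 _)
        push_cast at b l2 m0 ⊢
        simp only [one_mul] at m0 ⊢
        have b5 : 1 ≤ L ^ lam * Y := one_le_mul_of_one_le_of_one_le P1 Y1
        nlinarith [mul_le_mul_of_nonneg_right l2 b4, mul_le_mul_of_nonneg_left b5 m0]
      · have b := hp q h
        have q1 : (0 : ℝ) < q := by exact_mod_cast q0
        have l1 : Real.log q ≤ L := by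
          rw [hLd]
          calc Real.log q ≤ Real.log (X ^ 2) := Real.log_le_log q1 (qY.trans hY2)
            _ = 2 * Real.log X := by rw [Real.log_pow]; norm_num
        have l2 : Real.log q ^ lam ≤ L ^ lam := Real.rpow_le_rpow (Real.log_natCast_nonneg _) l1 h0
        have l3 : (q : ℝ) * Real.log q ^ lam ≤ Y * L ^ lam :=
          mul_le_mul qY l2 (Real.rpow_nonneg (Real.log_natCast_nonneg _) _) (by linarith)
        nlinarith [mul_le_mul_of_nonneg_right l3 m0]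

end Pool.Agent.Lib.MP_e56372_nt.Dim
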