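import Pool.Agent.Lib.MP_e56372_nt.Dim.Defs3
import Pool.Agent.Lib.MP_e56372_nt.Dim.Mix
import Pool.Agent.Lib.MP_e56372_nt.Dim.CS1w
import Pool.Agent.Lib.MP_e56372_nt.Dim.CS2w

set_option autoImplicit false
open MeasureTheory Filter Topology Finset

namespace Pool.Agent.Lib.MP_e56372_nt.Dim
open Pool.Agent.Lib.MP_e56372_nt

theorem mixw_near (b : ℕ) (hb : 9 ≤ b) (e f g : V3) (h : Frame b e f g)
    (T : (ℤ × ℤ) → ℤ → ℤ → ℝ) (hT : ∀ p i, ∀ j ∈ Pts b e f g p, T p i j ≤ 512) :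
    (∑ p ∈ Pen b e f g, ∑ i ∈ Pts b e f g p, ∑ j ∈ Pts b e f g p,
        if (b : ℤ) ^ 371 ≤ |i - j| then 0 else T p i j) ≤ 2048 * (b : ℝ) ^ 1578 := by
  have h1 := mix_near b hb e f g h (fun p i j => T p i j / 4) (fun p i j hj => by
    have := hT p i j hj
    linarith)
  have h2 : (∑ p ∈ Pen b e f g, ∑ i ∈ Pts b e f g p, ∑ j ∈ Pts b e f g p,
        if (b : ℤ) ^ 371 ≤ |i - j| then 0 else T p i j) =
      4 * ∑ p ∈ Pen b e f g, ∑ i ∈ Pts b e f g p, ∑ j ∈ Pts b e f g p,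
        if (b : ℤ) ^ 371 ≤ |i - j| then 0 else T p i j / 4 := by
    rw [Finset.mul_sum]
    refine Finset.sum_congr rfl fun p _ => ?_
    rw [Finset.mul_sum]
    refine Finset.sum_congr rfl fun i _ => ?_
    rw [Finset.mul_sum]
    refine Finset.sum_congr rfl fun j _ => ?_
    split_ifs <;> ring
  rw [h2]
  generalize (b : ℝ) ^ 1578 = u at *
  linarith

theorem mixw_tau (δ ρ0 ρ1 : ℝ) (hρ0 : 0 < ρ0) (hρ1 : 0 ≤ ρ1) (K : ℝ → ℝ)
    (hK : Kern δ (4 * (4 * ρ1)) (16 * (16 * 4 ^ 2) ^ 2) K) (a c : ℝ) :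
    ∫ x, tent x * K (a * x + c) ≤ 2 ^ 28 * tau δ ρ0 ρ1 (max |a| |c|) := by
  obtain ⟨h1, h2⟩ := tent_bound δ _ _ K hK (by positivity) a c
  refine le_trans (le_abs_self _) ?_
  unfold tau
  split_ifs with hd
  · have hd0 : 0 < max |a| |c| := lt_of_lt_of_le hρ0 hd
    refine le_trans (h2 hd0) ?_
    have h3 : ρ1 / (max |a| |c|) ^ 2 ≤ ρ1 / ρ0 ^ 2 :=
      div_le_div_of_nonneg_left hρ1 (by positivity) (pow_le_pow_left₀ hρ0.le hd 2)
    calc _ = 2 ^ 28 * (ρ1 / (max |a| |c|) ^ 2) := by ring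
      _ ≤ _ := mul_le_mul_of_nonneg_left h3 (by positivity)
  · refine le_trans h1 ?_
    have h0 : 0 < max (max |a| |c|) δ := lt_of_lt_of_le hK.hδ (le_max_right _ _)
    rw [mul_one_div]
    exact div_le_div_of_nonneg_right (by norm_num) h0.le

theorem mixw_far (b : ℕ) (hb : 2 ^ 20 ≤ b) (e f g : V3) (h : Frame b e f g) (X : Set ℝ)
    (hX : MeasurableSet X) (hX1 : X ⊆ Set.Icc 0 1) (K : (ℤ × ℤ) × ℤ × ℤ → ℝ → ℝ)
    (hK : ∀ q, Kern (1 / (b : ℝ) ^ 1201) (4 * (1 / (b : ℝ) ^ 380)) (16 * 4 ^ 2) (K q)) :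
    (∑ q ∈ Far b e f g, ∫ x in X, ∫ x' in X,
      K q (sl (cmb e f g q.2.1 q.1.1 q.1.2) * x + ic (cmb e f g q.2.1 q.1.1 q.1.2) -
        (sl (cmb e f g q.2.2 q.1.1 q.1.2) * x' + ic (cmb e f g q.2.2 q.1.1 q.1.2)))) ≤
      2 ^ 15 * (b : ℝ) ^ 1580 := by
  have hb1 : (1 : ℝ) ≤ b := by exact_mod_cast (by omega : 1 ≤ b)
  have hb0 : (0 : ℝ) < b := by linarith
  have hs : ∀ q ∈ Far b e f g, 1 / 2 ≤ sl (cmb e f g q.2.2 q.1.1 q.1.2) := fun q hq =>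
    mix_sl_half _ (by positivity) _ (mix_pts_inOm b e f g q.1 q.2.2 (mix_far_mem b e f g q hq))
  have h2 := cs_two_w (Far b e f g) (fun q => sl (cmb e f g q.2.1 q.1.1 q.1.2))
    (fun q => ic (cmb e f g q.2.1 q.1.1 q.1.2)) (fun q => sl (cmb e f g q.2.2 q.1.1 q.1.2))
    (fun q => ic (cmb e f g q.2.2 q.1.1 q.1.2)) hs _ _ _ K hK X hX hX1
  have h3 : ∀ q ∈ Far b e f g, (∑ q' ∈ Far b e f g, ∫ x, tent x *
      conv (K q) (K q') (sl (cmb e f g q.2.2 q.1.1 q.1.2)) (sl (cmb e f g q'.2.2 q'.1.1 q'.1.2))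
        ((al e f g q - al e f g q') * x + (ga e f g q - ga e f g q'))) ≤
      2 ^ 28 * (b : ℝ) ^ 1552 := by
    intro q hq
    refine le_trans (Finset.sum_le_sum fun q' hq' => mixw_tau (1 / (b : ℝ) ^ 1201)
      (1 / (b : ℝ) ^ 161) (1 / (b : ℝ) ^ 380) (by positivity) (by positivity) _
      (kern_conv _ _ _ (K q) (K q') (hK q) (hK q') _ _ (hs q hq) (hs q' hq')) _ _) ?_
    rw [← Finset.mul_sum]
    exact mul_le_mul_of_nonneg_left (energy b hb e f g h q hq) (by positivity)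
  have h4 := le_trans h2 (Finset.sum_le_card_nsmul _ _ _ h3)
  rw [nsmul_eq_mul] at h4
  have h5 := le_trans h4
    (mul_le_mul_of_nonneg_right (mix_far_card b (by omega) e f g h) (by positivity))
  refine le_trans (le_abs_self _) (abs_le_of_sq_le_sq' ?_ (by positivity) |> abs_le.2)
  refine le_trans h5 ?_
  have h6 : (b : ℝ) ^ 3159 ≤ (b : ℝ) ^ 3160 := pow_le_pow_right₀ hb1 (by norm_num)
  calc _ = 2 ^ 30 * (b : ℝ) ^ 3159 := by ring
    _ ≤ 2 ^ 30 * (b : ℝ) ^ 3160 := mul_le_mul_of_nonneg_left h6 (by positivity)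
    _ = _ := by ring

theorem mixw_one (a c δ ρ : ℝ) (K : ℝ → ℝ) (hK : Kern δ ρ 4 K) (X F : Set ℝ)
    (hX1 : X ⊆ Set.Icc 0 1) : |∫ x in X, ∫ y in F, K (a * x + c - y)| ≤ 8 := by
  obtain ⟨v1, v2⟩ := cs2_vol hX1
  have h1 : ∀ x, |∫ y in F, K (a * x + c - y)| ≤ 8 := by
    intro x
    have := cs2_inner hK (a * x + c) 1 0 (by norm_num) F
    simp only [one_mul, add_zero] at this
    linarith
  exact (norm_setIntegral_le_of_norm_le_const
    (f := fun x => ∫ y in F, K (a * x + c - y)) v1 fun x _ => h1 x).trans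
    (mul_le_of_le_one_right (by norm_num) v2)

theorem mixw (b : ℕ) (hb : 2 ^ 30 ≤ b) (e f g : V3) (h : Frame b e f g) (X F : Set ℝ)
    (hX : MeasurableSet X) (hF : MeasurableSet F) (hX1 : X ⊆ Set.Icc 0 1) (hF1 : F ⊆ Set.Icc 0 1)
    (K : ℤ × ℤ → ℤ → ℝ → ℝ) (hK : ∀ p i, Kern (1 / (b : ℝ) ^ 1201) (1 / (b : ℝ) ^ 380) 4 (K p i)) :
    |∑ p ∈ Rng b ×ˢ Rng b, ∑ i ∈ Pts b e f g p, ∫ x in X, ∫ y in F,
      K p i (sl (cmb e f g i p.1 p.2) * x + ic (cmb e f g i p.1 p.2) - y)| ≤ (b : ℝ) ^ 1194 := by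
  classical
  have hb1 : (1 : ℝ) ≤ b := by exact_mod_cast (by omega : 1 ≤ b)
  have hb0 : (0 : ℝ) < b := by linarith
  have hbR : (2 : ℝ) ^ 30 ≤ b := by exact_mod_cast hb
  have hb2 : 2 ≤ b := by omega
  have hcs := cs_one_w (Pen b e f g) (Pts b e f g) (fun p i => sl (cmb e f g i p.1 p.2))
    (fun p i => ic (cmb e f g i p.1 p.2)) _ _ _ K hK X F hX hF hX1 hF1
  have hK2 : ∀ p i j, Kern (1 / (b : ℝ) ^ 1201) (4 * (1 / (b : ℝ) ^ 380)) (16 * 4 ^ 2)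
      (conv (K p i) (K p j) 1 1) := fun p i j =>
    kern_conv _ _ _ _ _ (hK p i) (hK p j) 1 1 (by norm_num) (by norm_num)
  obtain ⟨T, hT⟩ : ∃ T : (ℤ × ℤ) → ℤ → ℤ → ℝ, ∀ p i j, T p i j = ∫ x in X, ∫ x' in X,
      conv (K p i) (K p j) 1 1 (sl (cmb e f g i p.1 p.2) * x + ic (cmb e f g i p.1 p.2) -
        (sl (cmb e f g j p.1 p.2) * x' + ic (cmb e f g j p.1 p.2))) := ⟨_, fun _ _ _ => rfl⟩
  simp only [← hT] at hcs
  have hfar := mixw_far b (by omega) e f g h X hX hX1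
    (fun q => conv (K q.1 q.2.1) (K q.1 q.2.2) 1 1) (fun q => hK2 _ _ _)
  simp only [← hT] at hfar
  rw [mix_split b e f g T] at hfar
  have hnear := mixw_near b (by omega) e f g h T (fun p i j hj => by
    rw [hT]
    refine le_trans (le_abs_self _) (le_trans (near_bound _ _ _ _ (mix_sl_half _ (by positivity) _
      (mix_pts_inOm b e f g p j hj)) _ _ _ _ (hK2 p i j) X hX hX1) (by norm_num)))
  have hsum : (∑ p ∈ Pen b e f g, ∑ i ∈ Pts b e f g p, ∑ j ∈ Pts b e f g p, T p i j) ≤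
      2 ^ 15 * (b : ℝ) ^ 1580 + 2048 * (b : ℝ) ^ 1578 := by
    refine le_trans (le_of_eq ?_) (add_le_add hfar hnear)
    rw [← Finset.sum_add_distrib]
    refine Finset.sum_congr rfl fun p _ => ?_
    rw [← Finset.sum_add_distrib]
    refine Finset.sum_congr rfl fun i _ => ?_
    rw [← Finset.sum_add_distrib]
    refine Finset.sum_congr rfl fun j _ => ?_
    split_ifs <;> simp
  have h1 := le_trans hcs (le_trans (mul_le_mul_of_nonneg_left hsum (Nat.cast_nonneg _))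
    (mul_le_mul_of_nonneg_right (pen_card b (by omega) e f g) (by positivity)))
  have h2 : (b : ℝ) ^ 1578 ≤ (b : ℝ) ^ 1580 := pow_le_pow_right₀ hb1 (by norm_num)
  have h3 : (b : ℝ) ^ 807 * (2 ^ 15 * (b : ℝ) ^ 1580 + 2048 * (b : ℝ) ^ 1578) ≤
      (b : ℝ) ^ 807 * (2 ^ 16 * (b : ℝ) ^ 1580) := by
    refine mul_le_mul_of_nonneg_left ?_ (by positivity)
    have h0 : (0 : ℝ) ≤ (b : ℝ) ^ 1580 := by positivity
    generalize (b : ℝ) ^ 1580 = u at *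
    generalize (b : ℝ) ^ 1578 = v at *
    linarith
  have h4 : (b : ℝ) ^ 807 * (2 ^ 16 * (b : ℝ) ^ 1580) ≤ ((b : ℝ) ^ 1194 / 2) ^ 2 := by
    calc _ = (b : ℝ) ^ 2387 * 2 ^ 16 := by ring
      _ ≤ (b : ℝ) ^ 2387 * (b / 4) := mul_le_mul_of_nonneg_left (by linarith) (by positivity)
      _ = _ := by ring
  have hgood := abs_le.2 (abs_le_of_sq_le_sq' (le_trans h1 (le_trans h3 h4)) (by positivity))
  have hsub : Pen b e f g ⊆ Rng b ×ˢ Rng b := by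
    unfold Pen
    exact filter_subset _ _
  rw [← sum_sdiff hsub]
  have hbad : |∑ p ∈ (Rng b ×ˢ Rng b) \ Pen b e f g, ∑ i ∈ Pts b e f g p, ∫ x in X, ∫ y in F,
      K p i (sl (cmb e f g i p.1 p.2) * x + ic (cmb e f g i p.1 p.2) - y)| ≤
      60 * (b : ℝ) ^ 792 * (2 * (b : ℝ) ^ 400 * 8) := by
    refine (Finset.abs_sum_le_sum_abs _ _).trans ?_
    calc _ ≤ ∑ _p ∈ (Rng b ×ˢ Rng b) \ Pen b e f g, 2 * (b : ℝ) ^ 400 * 8 := by
          refine sum_le_sum fun p _ => (Finset.abs_sum_le_sum_abs _ _).trans ?_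
          calc _ ≤ ∑ _i ∈ Pts b e f g p, (8 : ℝ) :=
                sum_le_sum fun i _ => mixw_one _ _ _ _ _ (hK p i) X F hX1
            _ = ((Pts b e f g p).card : ℝ) * 8 := by rw [sum_const, nsmul_eq_mul]
            _ ≤ _ := mul_le_mul_of_nonneg_right (pts_card b hb2 e f g h p) (by norm_num)
      _ = (((Rng b ×ˢ Rng b) \ Pen b e f g).card : ℝ) * (2 * (b : ℝ) ^ 400 * 8) := by
          rw [sum_const, nsmul_eq_mul]
      _ ≤ _ := mul_le_mul_of_nonneg_right (bad_card b hb2 e f g h) (by positivity)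
  have hnum : 60 * (b : ℝ) ^ 792 * (2 * (b : ℝ) ^ 400 * 8) ≤ (b : ℝ) ^ 1194 / 2 := by
    have h5 : (960 : ℝ) ≤ (b : ℝ) ^ 2 / 2 := by nlinarith
    calc _ = (b : ℝ) ^ 1192 * 960 := by ring
      _ ≤ (b : ℝ) ^ 1192 * ((b : ℝ) ^ 2 / 2) := mul_le_mul_of_nonneg_left h5 (by positivity)
      _ = _ := by ring
  refine (abs_add_le _ _).trans ((add_le_add (hbad.trans hnum) hgood).trans_eq ?_)
  ring

end Pool.Agent.Lib.MP_e56372_nt.Dim
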