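import Pool.Agent.Lib.MP_e56372_nt.Dim.MixW
import Pool.Agent.Lib.MP_e56372_nt.Dim.Cov

set_option autoImplicit false
open MeasureTheory Filter Topology Finset

namespace Pool.Agent.Lib.MP_e56372_nt.Dim
open Pool.Agent.Lib.MP_e56372_nt

/-- image of a set under an affine map, written as a preimage. -/
def onebox_im (α κ : ℝ) (X : Set ℝ) : Set ℝ := (fun x' => (x' - κ) / α) ⁻¹' X

theorem onebox_im_meas (α κ : ℝ) {X : Set ℝ} (hX : MeasurableSet X) :
    MeasurableSet (onebox_im α κ X) :=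
  hX.preimage ((measurable_id.sub_const κ).div_const α)

theorem onebox_cov (α κ : ℝ) (hα : α ≠ 0) {X : Set ℝ} (hX : MeasurableSet X) (h : ℝ → ℝ) :
    ∫ x in X, h (α * x + κ) = |α⁻¹| * ∫ x in onebox_im α κ X, h x := by
  rw [← integral_indicator hX, ← integral_indicator (onebox_im_meas α κ hX)]
  have e : X.indicator (fun x => h (α * x + κ)) =
      fun x => (fun u => (onebox_im α κ X).indicator h (u + κ)) (α * x) := by
    funext x
    have : α * x + κ ∈ onebox_im α κ X ↔ x ∈ X := by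
      simp only [onebox_im, Set.mem_preimage, add_sub_cancel_right, mul_div_cancel_left₀ _ hα]
    by_cases hx : x ∈ X
    · rw [Set.indicator_of_mem hx]; exact (Set.indicator_of_mem (this.2 hx) h).symm
    · rw [Set.indicator_of_notMem hx]
      exact (Set.indicator_of_notMem (fun h' => hx (this.1 h')) h).symm
  rw [e, Measure.integral_comp_mul_left (fun u => (onebox_im α κ X).indicator h (u + κ)) α,
    integral_add_right_eq_self, smul_eq_mul]

theorem onebox_im_sub (r ε : ℝ) (r0 : 0 < r) (r1 : r ≤ 1) (hε : ε = 1 ∨ ε = -1) {X : Set ℝ}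
    (hX1 : X ⊆ Set.Icc 0 1) : onebox_im (ε * r) ((1 - ε) / 2) X ⊆ Set.Icc 0 1 := by
  intro x hx
  obtain ⟨h0, h1⟩ := hX1 hx
  rcases hε with rfl | rfl
  · simp only [one_mul, sub_self, zero_div, sub_zero] at h0 h1
    rw [le_div_iff₀ r0] at h0
    rw [div_le_iff₀ r0] at h1
    exact ⟨by linarith, by linarith⟩
  · have e : (x - (1 - -1) / 2) / (-1 * r) = (1 - x) / r := by field_simp; ring
    simp only [e] at h0 h1
    rw [le_div_iff₀ r0] at h0
    rw [div_le_iff₀ r0] at h1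
    exact ⟨by linarith, by linarith⟩

theorem onebox_vol {X : Set ℝ} (hX1 : X ⊆ Set.Icc 0 1) : volume X < ⊤ ∧ volume.real X ≤ 1 := by
  refine ⟨(measure_mono hX1).trans_lt measure_Icc_lt_top, ?_⟩
  have := measureReal_mono (μ := volume) hX1 measure_Icc_lt_top.ne
  simpa using this

theorem onebox_in (f : ℝ → ℝ) (hf : Measurable f) (M : ℝ) (hM : ∀ z, |f z| ≤ M) (u : ℝ)
    {F : Set ℝ} (hF1 : F ⊆ Set.Icc 0 1) : IntegrableOn (fun y => f (u - y)) F :=
  Measure.integrableOn_of_bounded (M := M) (onebox_vol hF1).1.ne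
    (hf.comp (measurable_const.sub measurable_id)).aestronglyMeasurable
    (Eventually.of_forall fun _ => hM _)

theorem onebox_out (f : ℝ → ℝ) (hf : Measurable f) (M : ℝ) (hM : ∀ z, |f z| ≤ M) (a c : ℝ)
    {X F : Set ℝ} (hX1 : X ⊆ Set.Icc 0 1) (hF1 : F ⊆ Set.Icc 0 1) :
    IntegrableOn (fun x => ∫ y in F, f (a * x + c - y)) X := by
  have hm : Measurable fun p : ℝ × ℝ => f (a * p.1 + c - p.2) :=
    hf.comp (((measurable_fst.const_mul a).add_const c).sub measurable_snd)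
  refine Measure.integrableOn_of_bounded (M := M * volume.real F) (onebox_vol hX1).1.ne
    (hm.stronglyMeasurable.integral_prod_right' (ν := volume.restrict F)).aestronglyMeasurable
    (Eventually.of_forall fun x => ?_)
  exact norm_setIntegral_le_of_norm_le_const (onebox_vol hF1).1 fun y _ => hM _

theorem onebox_split (f g : ℝ → ℝ) (hf : Measurable f) (hg : Measurable g) (M N : ℝ)
    (hM : ∀ z, |f z| ≤ M) (hN : ∀ z, |g z| ≤ N) (a c η : ℝ) (hη : 0 ≤ η) {X F : Set ℝ}
    (hX1 : X ⊆ Set.Icc 0 1) (hF1 : F ⊆ Set.Icc 0 1)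
    (h : ∀ x ∈ X, ∀ y ∈ F, |f (a * x + c - y) - g (a * x + c - y)| ≤ η) :
    |(∫ x in X, ∫ y in F, f (a * x + c - y)) - ∫ x in X, ∫ y in F, g (a * x + c - y)| ≤ η := by
  rw [← integral_sub (onebox_out f hf M hM a c hX1 hF1) (onebox_out g hg N hN a c hX1 hF1)]
  rw [← Real.norm_eq_abs]
  refine (norm_setIntegral_le_of_norm_le_const (C := η) (onebox_vol hX1).1 fun x hx => ?_).trans
    (mul_le_of_le_one_right hη (onebox_vol hX1).2)
  rw [← integral_sub (onebox_in f hf M hM _ hF1) (onebox_in g hg N hN _ hF1)]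
  exact (norm_setIntegral_le_of_norm_le_const (C := η) (onebox_vol hF1).1
    fun y hy => h x hx y hy).trans (mul_le_of_le_one_right hη (onebox_vol hF1).2)

theorem onebox_smul {δ ρ C : ℝ} {K : ℝ → ℝ} (h : Kern δ ρ C K) (t : ℝ) (ht : |t| ≤ 1) :
    Kern δ ρ C fun z => t * K z where
  hδ := h.hδ
  meas := h.meas.const_mul t
  supp z hz := by rw [h.supp z hz, mul_zero]
  bnd z := by
    rw [abs_mul, mul_assoc]
    exact (mul_le_of_le_one_left (mul_nonneg (abs_nonneg _)
      ((abs_nonneg _).trans (le_max_left _ _))) ht).trans (h.bnd z)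
  intg := h.intg.const_mul t
  l1 := by
    simp only [abs_mul]
    rw [integral_const_mul]
    exact (mul_le_of_le_one_left (integral_nonneg fun _ => abs_nonneg _) ht).trans h.l1
  mean := by rw [integral_const_mul, h.mean, mul_zero]

theorem onebox_zero {δ ρ C : ℝ} (hδ : 0 < δ) (hC : 0 ≤ C) : Kern δ ρ C fun _ => 0 where
  hδ := hδ
  meas := measurable_const
  supp _ _ := rfl
  bnd z := by simpa using hC
  intg := integrable_zero _ _ _
  l1 := by simpa using hC
  mean := by simp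

theorem onebox_bdd {δ ρ C : ℝ} {K : ℝ → ℝ} (h : Kern δ ρ C K) (z : ℝ) : |K z| ≤ C / δ :=
  (le_div_iff₀ h.hδ).2
    ((mul_le_mul_of_nonneg_left (le_max_right _ _) (abs_nonneg _)).trans (h.bnd z))

theorem onebox_core {ι : Type} (b : ℕ) (hb : 2 ^ 30 ≤ b) (e f g : V3) (hfr : Frame b e f g)
    (W : Finset ι) (i n m : ι → ℤ) (K : ι → ℝ → ℝ)
    (hinj : ∀ j ∈ W, ∀ j' ∈ W, i j = i j' → n j = n j' → m j = m j' → j = j')
    (hom : ∀ j ∈ W, InOm ((b : ℝ) ^ 400) (cmb e f g (i j) (n j) (m j)))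
    (hK : ∀ j ∈ W, Kern (1 / (b : ℝ) ^ 1201) (1 / (b : ℝ) ^ 380) 4 (K j))
    (X F : Set ℝ) (hX : MeasurableSet X) (hF : MeasurableSet F) (hX1 : X ⊆ Set.Icc 0 1)
    (hF1 : F ⊆ Set.Icc 0 1) :
    |∑ j ∈ W, ∫ x in X, ∫ y in F, K j (sl (cmb e f g (i j) (n j) (m j)) * x +
      ic (cmb e f g (i j) (n j) (m j)) - y)| ≤ (b : ℝ) ^ 1194 ∧
    (W.card : ℝ) ≤ 27 * (b : ℝ) ^ 1209 := by
  classical
  have hbR : (2 : ℝ) ^ 30 ≤ b := by exact_mod_cast hb
  have b24 : (24 : ℝ) ≤ b := le_trans (by norm_num) hbR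
  have b0 : (0 : ℝ) < b := by linarith
  have hU : (0 : ℝ) < (b : ℝ) ^ 400 := by positivity
  have rng : ∀ x : ℤ, |(x : ℝ)| ≤ 6 * (b : ℝ) ^ 2 * (4 * (b : ℝ) ^ 400) → x ∈ Rng b := by
    intro x hx
    have h1 : |(x : ℝ)| ≤ (b : ℝ) ^ 403 := by
      calc _ ≤ _ := hx
        _ = 24 * (b : ℝ) ^ 402 := by ring
        _ ≤ b * (b : ℝ) ^ 402 := mul_le_mul_of_nonneg_right b24 (by positivity)
        _ = _ := by ring
    have h2 : |x| ≤ (b : ℤ) ^ 403 := by exact_mod_cast h1
    exact mem_Icc.2 (abs_le.1 h2)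
  have mem : ∀ j ∈ W, i j ∈ Rng b ∧ n j ∈ Rng b ∧ m j ∈ Rng b := by
    intro j hj
    obtain ⟨o1, o2, o3, o4, o5⟩ := hom j hj
    have := cramer_bound b e f g hfr (i j) (n j) (m j) (4 * (b : ℝ) ^ 400) fun k => by
      fin_cases k
      · exact abs_le.2 ⟨by simp only [Fin.zero_eta]; linarith, by simp only [Fin.zero_eta]; linarith⟩
      · exact abs_le.2 ⟨by simp only [Fin.mk_one]; linarith, by simp only [Fin.mk_one]; linarith⟩
      · exact o5
    exact ⟨rng _ this.1, rng _ this.2.1, rng _ this.2.2⟩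
  constructor
  · let KK : ℤ × ℤ → ℤ → ℝ → ℝ := fun p u =>
      if h : ∃ j ∈ W, (n j, m j) = p ∧ i j = u then K h.choose else fun _ => 0
    have hKK : ∀ p u, Kern (1 / (b : ℝ) ^ 1201) (1 / (b : ℝ) ^ 380) 4 (KK p u) := by
      intro p u
      simp only [KK]
      split_ifs with h
      · exact hK _ h.choose_spec.1
      · exact onebox_zero (by positivity) (by norm_num)
    refine le_trans (le_of_eq ?_) (mixw b hb e f g hfr X F hX hF hX1 hF1 KK hKK)
    congr 1
    let T : ι → ℝ := fun j => ∫ x in X, ∫ y in F, K j (sl (cmb e f g (i j) (n j) (m j)) * x +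
      ic (cmb e f g (i j) (n j) (m j)) - y)
    have h1 : ∀ (p : ℤ × ℤ) (u : ℤ), ∫ x in X, ∫ y in F,
        KK p u (sl (cmb e f g u p.1 p.2) * x + ic (cmb e f g u p.1 p.2) - y) =
        ∑ j ∈ W, if (n j, m j) = p ∧ i j = u then T j else 0 := by
      intro p u
      by_cases h : ∃ j ∈ W, (n j, m j) = p ∧ i j = u
      · obtain ⟨s1, s2, s3⟩ := h.choose_spec
        rw [sum_eq_single_of_mem h.choose s1, if_pos ⟨s2, s3⟩]
        · simp only [KK, dif_pos h, T]
          have e1 : p.1 = n h.choose := (congrArg Prod.fst s2).symm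
          have e2 : p.2 = m h.choose := (congrArg Prod.snd s2).symm
          rw [s3, ← e1, ← e2]
        · intro j hj hne
          rw [if_neg]
          rintro ⟨r2, r3⟩
          have := r2.trans s2.symm
          exact hne (hinj j hj _ s1 (r3.trans s3.symm) (congrArg Prod.fst this)
            (congrArg Prod.snd this))
      · simp only [KK, dif_neg h, integral_zero]
        exact (sum_eq_zero fun j hj => if_neg fun h' => h ⟨j, hj, h'⟩).symm
    simp only [h1]
    rw [sum_congr rfl fun p _ => sum_comm, sum_comm]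
    refine sum_congr rfl fun j hj => ?_
    obtain ⟨m1, m2, m3⟩ := mem j hj
    have m4 : i j ∈ Pts b e f g (n j, m j) := mem_filter.2 ⟨m1, hom j hj⟩
    rw [sum_eq_single_of_mem (n j, m j) (mem_product.2 ⟨m2, m3⟩),
      sum_eq_single_of_mem (i j) m4, if_pos ⟨rfl, rfl⟩]
    · exact fun u _ hne => if_neg fun h => hne h.2.symm
    · exact fun p _ hne => sum_eq_zero fun u _ => if_neg fun h => hne h.1.symm
  · have h1 : W.card ≤ (Rng b ×ˢ Rng b ×ˢ Rng b).card :=
      card_le_card_of_injOn (fun j => (i j, n j, m j))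
        (fun j hj => mem_coe.2 (mem_product.2 ⟨(mem j hj).1,
          mem_product.2 ⟨(mem j hj).2.1, (mem j hj).2.2⟩⟩))
        fun j hj j' hj' h => hinj j hj j' hj' (congrArg Prod.fst h)
          (congrArg (fun x => x.2.1) h) (congrArg (fun x => x.2.2) h)
    have h2 : ((Rng b).card : ℝ) ≤ 3 * (b : ℝ) ^ 403 := by
      have h3 : ((Rng b).card : ℤ) = (b : ℤ) ^ 403 + 1 - -((b : ℤ) ^ 403) := by
        rw [Rng, Int.card_Icc_of_le]
        have : (0 : ℤ) ≤ (b : ℤ) ^ 403 := by positivity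
        linarith
      have h4 : ((Rng b).card : ℝ) = (b : ℝ) ^ 403 + 1 - -((b : ℝ) ^ 403) := by exact_mod_cast h3
      have h5 : (1 : ℝ) ≤ (b : ℝ) ^ 403 := one_le_pow₀ (by linarith)
      linarith
    rw [card_product, card_product] at h1
    have h0 : (0 : ℝ) ≤ (Rng b).card := Nat.cast_nonneg _
    calc (W.card : ℝ) ≤ (Rng b).card * ((Rng b).card * (Rng b).card) := by exact_mod_cast h1
      _ ≤ (3 * (b : ℝ) ^ 403) * ((3 * (b : ℝ) ^ 403) * (3 * (b : ℝ) ^ 403)) := by gcongr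
      _ = _ := by ring

end Pool.Agent.Lib.MP_e56372_nt.Dim
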