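import Pool.Agent.Lib.MP_e56372_nt.Dim.Defs

set_option autoImplicit false
open Finset

namespace Pool.Agent.Lib.MP_e56372_nt.Dim

theorem tree_pre (D h a u : ℕ) (H : a + h ≤ D) : pre (D - h) a (u / 2 ^ h) = pre D a u := by
  unfold pre
  rw [Nat.div_div_eq_div_mul, ← pow_add]
  congr 2
  omega

open Classical in
theorem tree_fib (D h : ℕ) (hh : h ≤ D) (M : ℕ → Prop) (φ : ℕ → ℝ) (hφ : ∀ p, 0 ≤ φ p) (c : ℝ)
    (hc : ∀ p : ℕ, ∀ Z : Finset ℕ, (∀ z ∈ Z, z / 2 ^ h = p ∧ M z) → (Z.card : ℝ) ≤ c) :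
    ∑ u ∈ range (2 ^ D), (if M u then φ (u / 2 ^ h) else 0) ≤
      c * ∑ p ∈ range (2 ^ (D - h)), φ p := by
  rw [← Finset.sum_filter]
  have hm : ∀ u ∈ (range (2 ^ D)).filter M, u / 2 ^ h ∈ range (2 ^ (D - h)) := by
    intro u hu
    have h1 : u < 2 ^ D := mem_range.1 (mem_filter.1 hu).1
    rw [mem_range, Nat.div_lt_iff_lt_mul (by positivity), ← pow_add]
    have : D - h + h = D := by omega
    rwa [this]
  rw [← Finset.sum_fiberwise_of_maps_to hm, Finset.mul_sum]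
  refine Finset.sum_le_sum fun p _ => ?_
  have h2 : ∑ u ∈ ((range (2 ^ D)).filter M).filter (fun u => u / 2 ^ h = p), φ (u / 2 ^ h) =
      ∑ u ∈ ((range (2 ^ D)).filter M).filter (fun u => u / 2 ^ h = p), φ p :=
    Finset.sum_congr rfl fun u hu => by rw [(mem_filter.1 hu).2]
  rw [h2, Finset.sum_const, nsmul_eq_mul]
  refine mul_le_mul_of_nonneg_right (hc p _ fun z hz => ?_) (hφ p)
  exact ⟨(mem_filter.1 hz).2, (mem_filter.1 (mem_filter.1 hz).1).2⟩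

theorem tree_two (p : ℕ) (Z : Finset ℕ) (hZ : ∀ z ∈ Z, z / 2 ^ 1 = p ∧ True) :
    (Z.card : ℝ) ≤ 2 := by
  have h1 : Z ⊆ {2 * p, 2 * p + 1} := by
    intro z hz
    have := (hZ z hz).1
    simp only [mem_insert, mem_singleton]
    omega
  have h2 : Z.card ≤ 2 := (card_le_card h1).trans card_le_two
  exact_mod_cast h2

/-- an admissible family of marked windows for the word `u` of length `d`. -/
def TreeFam (Mk : ℕ → ℕ → ℕ → Prop) (d u : ℕ) (S : Finset (ℕ × ℕ)) : Prop :=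
  (∀ w ∈ S, 1 ≤ w.2 ∧ w.2 ≤ w.1 ∧ w.1 ≤ d ∧ Mk w.1 w.2 (pre d w.1 u)) ∧
  (∀ w ∈ S, ∀ w' ∈ S, w ≠ w' → w.1 + w'.2 ≤ w'.1 ∨ w'.1 + w.2 ≤ w.1)

theorem tree_cut (Mk : ℕ → ℕ → ℕ → Prop) (d u h : ℕ) (S S' : Finset (ℕ × ℕ))
    (hS : TreeFam Mk d u S) (hsub : S' ⊆ S) (hh : ∀ w ∈ S', w.1 + h ≤ d) :
    TreeFam Mk (d - h) (u / 2 ^ h) S' := by
  refine ⟨fun w hw => ?_, fun w hw w' hw' hne => hS.2 w (hsub hw) w' (hsub hw') hne⟩
  obtain ⟨a1, a2, _, a4⟩ := hS.1 w (hsub hw)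
  have a5 := hh w hw
  refine ⟨a1, a2, by omega, ?_⟩
  rwa [tree_pre d h w.1 u a5]

theorem tree_pow (ε : ℝ) (hε : 0 ≤ ε) (d h : ℕ) (h1 : 1 ≤ h) (h2 : h ≤ d + 1) :
    (2 * (1 + ε)) ^ (d + 1 - h) ≤ 2 * (2 * (1 + ε)) ^ d / 2 ^ h := by
  rw [le_div_iff₀ (by positivity), mul_pow, mul_pow]
  have e1 : (2 : ℝ) ^ (d + 1 - h) * 2 ^ h = 2 * 2 ^ d := by
    rw [← pow_add, ← pow_succ']
    congr 1
    omega
  have e2 : (1 + ε) ^ (d + 1 - h) ≤ (1 + ε) ^ d := pow_le_pow_right₀ (by linarith) (by omega)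
  calc (2 : ℝ) ^ (d + 1 - h) * (1 + ε) ^ (d + 1 - h) * 2 ^ h
      = (2 ^ (d + 1 - h) * 2 ^ h) * (1 + ε) ^ (d + 1 - h) := by ring
    _ ≤ (2 * 2 ^ d) * (1 + ε) ^ d := by
      rw [e1]
      exact mul_le_mul_of_nonneg_left e2 (by positivity)
    _ = 2 * (2 ^ d * (1 + ε) ^ d) := by ring

theorem tree_ex (n : ℕ) (Mk : ℕ → ℕ → ℕ → Prop) (cnt ω : ℕ → ℝ) (ε : ℝ) (hε : 0 ≤ ε)
    (hω : ∀ h, 0 ≤ ω h)
    (hc : ∀ d h p : ℕ, ∀ Z : Finset ℕ, (∀ z ∈ Z, z / 2 ^ h = p ∧ Mk d h z) → (Z.card : ℝ) ≤ cnt h)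
    (hs : ∑ h ∈ Icc 1 n, cnt h * ω h / 2 ^ h ≤ ε) (d : ℕ) : d ≤ n →
    ∃ F : ℕ → ℝ, (∀ u, 0 ≤ F u) ∧ ∑ u ∈ range (2 ^ d), F u ≤ (2 * (1 + ε)) ^ d ∧
      ∀ u S, TreeFam Mk d u S → ∏ w ∈ S, ω w.2 ≤ F u := by
  classical
  have hcnt : ∀ h, 0 ≤ cnt h := fun h => by simpa using hc 0 h 0 ∅ (by simp)
  induction d using Nat.strong_induction_on with
  | _ d ih =>
  intro hd
  rcases d with _ | d
  · refine ⟨fun _ => 1, fun _ => zero_le_one, by simp, fun u S hS => ?_⟩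
    have : S = ∅ := by
      refine Finset.eq_empty_of_forall_notMem fun w hw => ?_
      obtain ⟨a1, a2, a3, _⟩ := hS.1 w hw
      omega
    simp [this]
  have ih' : ∀ m, m < d + 1 → ∃ F : ℕ → ℝ, (∀ u, 0 ≤ F u) ∧
      ∑ u ∈ range (2 ^ m), F u ≤ (2 * (1 + ε)) ^ m ∧
      ∀ u S, TreeFam Mk m u S → ∏ w ∈ S, ω w.2 ≤ F u := fun m hm => ih m hm (by omega)
  choose! G G0 G1 G2 using ih'
  have hterm : ∀ u, ∀ h ∈ Icc 1 (d + 1),
      0 ≤ (if Mk (d + 1) h u then ω h * G (d + 1 - h) (u / 2 ^ h) else 0) := by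
    intro u h hh
    have := mem_Icc.1 hh
    split_ifs
    · exact mul_nonneg (hω h) (G0 _ (by omega) _)
    · exact le_rfl
  refine ⟨fun u => G d (u / 2 ^ 1) + ∑ h ∈ Icc 1 (d + 1),
    (if Mk (d + 1) h u then ω h * G (d + 1 - h) (u / 2 ^ h) else 0), fun u => ?_, ?_, ?_⟩
  · exact add_nonneg (G0 d (by omega) _) (Finset.sum_nonneg (hterm u))
  · rw [Finset.sum_add_distrib, Finset.sum_comm]
    set P : ℝ := (2 * (1 + ε)) ^ d with hP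
    have hP0 : 0 ≤ P := by positivity
    have b1 : ∑ u ∈ range (2 ^ (d + 1)), G d (u / 2 ^ 1) ≤ 2 * P := by
      have := tree_fib (d + 1) 1 (by omega) (fun _ => True) (G d) (G0 d (by omega)) 2 tree_two
      simp only [if_true, Nat.add_sub_cancel] at this
      exact this.trans (mul_le_mul_of_nonneg_left (G1 d (by omega)) (by norm_num))
    have b2 : ∀ h ∈ Icc 1 (d + 1), ∑ u ∈ range (2 ^ (d + 1)),
        (if Mk (d + 1) h u then ω h * G (d + 1 - h) (u / 2 ^ h) else 0) ≤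
        2 * P * (cnt h * ω h / 2 ^ h) := by
      intro h hh
      obtain ⟨h1, h2⟩ := mem_Icc.1 hh
      have := tree_fib (d + 1) h h2 (Mk (d + 1) h) (fun p => ω h * G (d + 1 - h) p)
        (fun p => mul_nonneg (hω h) (G0 _ (by omega) _)) (cnt h) (hc (d + 1) h)
      refine this.trans ?_
      rw [← Finset.mul_sum]
      have c1 := (G1 (d + 1 - h) (by omega)).trans (tree_pow ε hε d h h1 h2)
      calc cnt h * (ω h * ∑ p ∈ range (2 ^ (d + 1 - h)), G (d + 1 - h) p)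
          ≤ cnt h * (ω h * (2 * P / 2 ^ h)) :=
            mul_le_mul_of_nonneg_left (mul_le_mul_of_nonneg_left c1 (hω h)) (hcnt h)
        _ = 2 * P * (cnt h * ω h / 2 ^ h) := by ring
    have b3 : ∑ h ∈ Icc 1 (d + 1), cnt h * ω h / 2 ^ h ≤ ε := by
      refine le_trans (Finset.sum_le_sum_of_subset_of_nonneg (Icc_subset_Icc_right hd) ?_) hs
      intro h _ _
      exact div_nonneg (mul_nonneg (hcnt h) (hω h)) (by positivity)
    have b4 := Finset.sum_le_sum b2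
    rw [← Finset.mul_sum] at b4
    have b5 : 2 * P * ∑ h ∈ Icc 1 (d + 1), cnt h * ω h / 2 ^ h ≤ 2 * P * ε :=
      mul_le_mul_of_nonneg_left b3 (by positivity)
    calc _ ≤ 2 * P + 2 * P * ε := add_le_add b1 (b4.trans b5)
      _ = (2 * (1 + ε)) ^ (d + 1) := by rw [pow_succ, ← hP]; ring
  · intro u S hS
    by_cases hex : ∃ w ∈ S, w.1 = d + 1
    · obtain ⟨w, hw, hw1⟩ := hex
      obtain ⟨a1, a2, _, a4⟩ := hS.1 w hw
      have hcut := tree_cut Mk (d + 1) u w.2 S (S.erase w) hS (erase_subset _ _) fun v hv => by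
        obtain ⟨v1, _, v3, _⟩ := hS.1 v (mem_of_mem_erase hv)
        have := hS.2 v (mem_of_mem_erase hv) w hw (ne_of_mem_erase hv)
        omega
      have hM : Mk (d + 1) w.2 u := by
        rw [hw1] at a4
        simpa [pre] using a4
      have hmem : w.2 ∈ Icc 1 (d + 1) := mem_Icc.2 ⟨a1, by omega⟩
      have c1 := Finset.single_le_sum (hterm u) hmem
      rw [if_pos hM] at c1
      have c2 := G2 (d + 1 - w.2) (by omega) _ _ hcut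
      rw [← Finset.mul_prod_erase S _ hw]
      have c3 := mul_le_mul_of_nonneg_left c2 (hω w.2)
      have c4 := G0 d (by omega) (u / 2 ^ 1)
      linarith
    · push Not at hex
      have hcut := tree_cut Mk (d + 1) u 1 S S hS Subset.rfl fun v hv => by
        obtain ⟨_, _, v3, _⟩ := hS.1 v hv
        have := hex v hv
        omega
      rw [Nat.add_sub_cancel] at hcut
      have c2 := G2 d (by omega) _ _ hcut
      have c1 := Finset.sum_nonneg (hterm u)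
      linarith

theorem tree (n : ℕ) (Mk : ℕ → ℕ → ℕ → Prop) (cnt ω : ℕ → ℝ) (ε W : ℝ) (hε : 0 ≤ ε) (hW : 0 < W)
    (hω : ∀ h, 0 ≤ ω h)
    (hc : ∀ d h p : ℕ, ∀ Z : Finset ℕ, (∀ z ∈ Z, z / 2 ^ h = p ∧ Mk d h z) → (Z.card : ℝ) ≤ cnt h)
    (hs : ∑ h ∈ Icc 1 n, cnt h * ω h / 2 ^ h ≤ ε) (A : Finset ℕ) (hA : ∀ u ∈ A, u < 2 ^ n)
    (hfam : ∀ u ∈ A, ∃ S : Finset (ℕ × ℕ),
      (∀ w ∈ S, 1 ≤ w.2 ∧ w.2 ≤ w.1 ∧ w.1 ≤ n ∧ Mk w.1 w.2 (pre n w.1 u)) ∧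
      (∀ w ∈ S, ∀ w' ∈ S, w ≠ w' → w.1 + w'.2 ≤ w'.1 ∨ w'.1 + w.2 ≤ w.1) ∧ W ≤ ∏ w ∈ S, ω w.2) :
    (A.card : ℝ) ≤ (2 * (1 + ε)) ^ n / W := by
  obtain ⟨F, F0, F1, F2⟩ := tree_ex n Mk cnt ω ε hε hω hc hs n le_rfl
  rw [le_div_iff₀ hW]
  have h1 : ∑ _u ∈ A, W ≤ ∑ u ∈ A, F u := by
    refine Finset.sum_le_sum fun u hu => ?_
    obtain ⟨S, s1, s2, s3⟩ := hfam u hu
    exact s3.trans (F2 u S ⟨s1, s2⟩)
  have h2 : ∑ u ∈ A, F u ≤ ∑ u ∈ range (2 ^ n), F u :=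
    Finset.sum_le_sum_of_subset_of_nonneg (fun u hu => mem_range.2 (hA u hu)) fun u _ _ => F0 u
  rw [Finset.sum_const, nsmul_eq_mul] at h1
  linarith

end Pool.Agent.Lib.MP_e56372_nt.Dim
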