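import Pool.Agent.Lib.MP_e56372_nt.Dim.Tree

set_option autoImplicit false
open MeasureTheory Filter Topology Finset

namespace Pool.Agent.Lib.MP_e56372_nt.Dim
open Pool.Agent.Lib.MP_e56372_nt

theorem tree_block (n l J m B : ℕ) (hl : 1 ≤ l) (D : ℕ → ℕ) (hD : ∀ j < J, D j + l ≤ n)
    (hD2 : ∀ i < J, ∀ j < J, i ≠ j → D i + l ≤ D j ∨ D j + l ≤ D i) (Mk : ℕ → ℕ → Prop)
    (hc : ∀ j < J, ∀ p : ℕ, ∀ Z : Finset ℕ, (∀ z ∈ Z, z / 2 ^ l = p ∧ Mk j z) → Z.card ≤ B)
    (ω ε : ℝ) (hω : 1 ≤ ω) (hε : B * ω / 2 ^ l ≤ ε) (A : Finset ℕ) (hA : ∀ u ∈ A, u < 2 ^ n)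
    (hfam : ∀ u ∈ A, ∃ T : Finset ℕ, m ≤ T.card ∧ ∀ j ∈ T, j < J ∧ Mk j (pre n (D j + l) u)) :
    (A.card : ℝ) ≤ (2 * (1 + ε)) ^ n / ω ^ m := by
  classical
  have hω0 : 0 < ω := lt_of_lt_of_le one_pos hω
  have h0 : 0 ≤ (B : ℝ) * ω / 2 ^ l := by positivity
  have hinj : ∀ i < J, ∀ j < J, D i = D j → i = j := by
    intro i hi j hj e
    by_contra hne
    rcases hD2 i hi j hj hne with h | h <;> omega
  refine tree n (fun d h z => h = l ∧ ∃ j < J, d = D j + l ∧ Mk j z)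
    (fun h => if h = l then (B : ℝ) else 0) (fun _ => ω) ε (ω ^ m) (h0.trans hε) (by positivity)
    (fun _ => hω0.le) ?_ ?_ A hA ?_
  · intro d h p Z hZ
    rcases Z.eq_empty_or_nonempty with rfl | ⟨z0, hz0⟩
    · simp only [card_empty, Nat.cast_zero]
      split_ifs <;> positivity
    · obtain ⟨-, rfl, j, hj, hd, -⟩ := hZ z0 hz0
      simp only [if_true]
      have : Z.card ≤ B := hc j hj p Z fun z hz => by
        obtain ⟨e1, -, i, hi, hd', hm⟩ := hZ z hz
        have : i = j := hinj i hi j hj (by omega)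
        exact ⟨e1, this ▸ hm⟩
      exact_mod_cast this
  · have : ∀ h ∈ Icc 1 n, (if h = l then (B : ℝ) else 0) * ω / 2 ^ h =
        if h = l then (B : ℝ) * ω / 2 ^ l else 0 := by
      intro h _
      split_ifs with e
      · rw [e]
      · simp
    rw [sum_congr rfl this, sum_ite_eq']
    split_ifs
    · exact hε
    · exact h0.trans hε
  · intro u hu
    obtain ⟨T, hT, hT2⟩ := hfam u hu
    refine ⟨T.image (fun j => (D j + l, l)), ?_, ?_, ?_⟩
    · intro w hw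
      obtain ⟨j, hj, rfl⟩ := mem_image.1 hw
      obtain ⟨h1, h2⟩ := hT2 j hj
      exact ⟨hl, Nat.le_add_left _ _, hD j h1, rfl, j, h1, rfl, h2⟩
    · intro w hw w' hw' hne
      obtain ⟨i, hi, rfl⟩ := mem_image.1 hw
      obtain ⟨j, hj, rfl⟩ := mem_image.1 hw'
      have hij : i ≠ j := fun e => hne (by rw [e])
      rcases hD2 i (hT2 i hi).1 j (hT2 j hj).1 hij with h | h
      · left; dsimp only; omega
      · right; dsimp only; omega
    · rw [prod_const, card_image_of_injOn]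
      · exact pow_le_pow_right₀ hω hT
      · intro i hi j hj e
        have e1 : D i + l = D j + l := (Prod.mk.inj e).1
        exact hinj i (hT2 i hi).1 j (hT2 j hj).1 (by omega)

end Pool.Agent.Lib.MP_e56372_nt.Dim
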